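import Pool.Agent.Lib.MP_7c5fb9_nt.LO.Defs

set_option autoImplicit false

/-!
# Level one (MP_7c5fb9_nt, project LO): statements of the modules

One module = one file `LO/<Name>.lean` proving `theorem st<Name> : St<Name>` with the listed earlier
statements as hypotheses. Never change this file.
-/

namespace Pool.Agent.Lib.MP_7c5fb9_nt

namespace LO

open Pool.Agent.Lib.MP_7c08ba_nt.RZ UpperHalfPlane Filter Topology
open scoped MatrixGroups Polynomial nonZeroDivisors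

/-! ### Analysis -/

/-- (Prim) primitives of `f P`. -/
def StPrim : Prop :=
  ∀ (w : ℕ) (f : CuspForm 𝒮ℒ (w : ℤ)) (P : ℂ[X]), P.natDegree < w →
    (∀ z : ℂ, 0 < z.im → HasDerivAt (Gp f P) (f (ofComplex z) * P.eval z) z) ∧
    ∀ B ε : ℝ, 0 < ε → ∃ Y : ℝ, 0 < Y ∧ ∀ z : ℂ, |z.re| ≤ B → Y ≤ z.im → ‖Gp f P z‖ ≤ ε

/-- (Coc) the cocycle. -/
def StCoc : Prop :=
  ∀ (k w : ℕ) (f : CuspForm 𝒮ℒ (w : ℤ)), 1 ≤ k → w = 2 * k →
    (∀ (M : Mat) (Q : Frm) (z : ℂ), M.det = 1 → 0 < z.im →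
      Gp f (pw k Q) (mb M z) - Gp f (pw k (act Q M)) z = Phi k f M Q) ∧
    (∀ (M N : Mat) (Q : Frm), M.det = 1 → N.det = 1 →
      Phi k f (M * N) Q = Phi k f M Q + Phi k f N (act Q M)) ∧
    (∀ Q : Frm, Phi k f mT Q = 0) ∧
    ∀ (M : Mat) (Q : Frm), Phi k f (-M) Q = Phi k f M Q

/-- (Per) periods: the values of the cocycle are integral combinations of the periods. -/
def StPer : Prop :=
  ∀ (k w : ℕ) (f : CuspForm 𝒮ℒ (w : ℤ)), 1 ≤ k → w = 2 * k →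
    (∀ Q : Frm, Phi k f mS Q = ∑ m ∈ Finset.range (w - 1), (pw k Q).coeff m * rp f m) ∧
    ∀ (M : Mat) (Q : Frm), M.det = 1 →
      Phi k f M Q ∈ AddSubgroup.closure (rp f '' Set.Iio (w - 1))

/-- (HecG) Hecke operators and primitives. -/
def StHecG : Prop :=
  ∀ (k w : ℕ) (f : CuspForm 𝒮ℒ (w : ℤ)), 1 ≤ k → w = 2 * k → IsEigen f →
    ∀ (p : ℕ) (Q : Frm) (z : ℂ) (σ : ℤ), p.Prime → 0 < z.im → (σ = 1 ∨ σ = -1) →
      coef f p * Gp f (pw k Q) z =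
        Gp f (pw k (act Q !![1, 0; 0, (p : ℤ)])) (p * z) +
          ∑ b ∈ Finset.range p, Gp f (pw k (act Q !![(p : ℤ), -(σ * b); 0, 1])) ((z + σ * b) / p)

/-- (Hec) Hecke operators and the cocycle. -/
def StHec : Prop :=
  ∀ (k w : ℕ) (f : CuspForm 𝒮ℒ (w : ℤ)), 1 ≤ k → w = 2 * k → IsEigen f → ∀ Q : Frm,
    coef f 2 * Phi k f mS Q = TL L2 (Phi k f mS) Q ∧
    coef f 2 * Phi k f mS (mir Q) = TL L2 (fun Q' => Phi k f mS (mir Q')) Q ∧
    coef f 7 * Phi k f mS Q = TL L7 (Phi k f mS) Q ∧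
    coef f 7 * Phi k f mS (mir Q) = TL L7 (fun Q' => Phi k f mS (mir Q')) Q

/-- (Cyc) cycle integrals are values of the cocycle. -/
def StCyc : Prop :=
  ∀ (k w : ℕ) (f : CuspForm 𝒮ℒ (w : ℤ)), 1 ≤ k → w = 2 * k →
    ∀ (D : ℕ) (t u : ℤ) (Q : Frm), disc Q = D → 0 < D → 0 < Q 0 → t ^ 2 - D * u ^ 2 = 4 → 0 < t →
      0 < u → cyc k f Q (eps D t u) = Phi k f (aut Q t u) Q

/-- (PsiC) the odd cocycle. -/
def StPsiC : Prop :=
  ∀ (k w : ℕ) (f : CuspForm 𝒮ℒ (w : ℤ)), 1 ≤ k → w = 2 * k →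
    (∀ (M N : Mat) (Q : Frm), M.det = 1 → N.det = 1 →
      Psi k f (M * N) Q = Psi k f M Q + Psi k f N (act Q M)) ∧
    (∀ Q : Frm, Psi k f mT Q = 0) ∧
    (∀ (M : Mat) (Q : Frm), Psi k f (-M) Q = Psi k f M Q) ∧
    (∀ Q : Frm, Psi k f mS Q = Phi k f mS Q - Phi k f mS (mir Q)) ∧
    (∀ Q : Frm, Psi k f mS (act Q mS) = -Psi k f mS Q) ∧
    (∀ Q : Frm, Psi k f mS Q + Psi k f mS (act Q mU) + Psi k f mS (act Q (mU * mU)) = 0) ∧
    (∀ Q : Frm, Psi k f mS (mir Q) = -Psi k f mS Q) ∧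
    (∀ (c : ℤ) (Q : Frm), Psi k f mS (fun i => c * Q i) = (c : ℂ) ^ (k - 1) * Psi k f mS Q) ∧
    ∀ (D : ℕ) (t u : ℤ) (Q : Frm), disc Q = D → 0 < D → 0 < Q 0 → t ^ 2 - D * u ^ 2 = 4 → 0 < t →
      0 < u → Psi k f (aut Q t u) Q = cyc k f Q (eps D t u) + cyc k f (mir Q) (eps D t u)

/-- (Lim) the cocycle at squares of linear forms. -/
def StLim : Prop :=
  ∀ (k w : ℕ) (f : CuspForm 𝒮ℒ (w : ℤ)), 3 ≤ k → w = 2 * k →
    (Summable fun n : ℕ => ‖coef f n * ((2 * Real.pi * Complex.I * n) ^ (w - 1))⁻¹‖) ∧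
    ∀ p q r s : ℤ, p * s - q * r = 1 → 0 < r →
      Phi k f !![p, q; r, s] ![r ^ 2, -2 * p * r, p ^ 2] =
        (w - 2).factorial * (r : ℂ) ^ (w - 2) * Fj f (w - 1) (p / r)

/-- (NZ) the odd cocycle does not vanish on the forms of discriminant `2` modulo `3`. -/
def StNZ : Prop :=
  ∀ (k w : ℕ) (f : CuspForm 𝒮ℒ (w : ℤ)), w = 2 * k → IsEigen f →
    ∃ Q : Frm, disc Q % 3 = 2 ∧ Psi k f mS Q ≠ 0

/-- The group generated by the values of the odd cocycle. -/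
noncomputable def NN {w : ℕ} (k : ℕ) (f : CuspForm 𝒮ℒ (w : ℤ)) : AddSubgroup ℂ :=
  AddSubgroup.closure (Psi k f mS '' {Q | disc Q % 3 = 2})

/-- (Fin) finiteness and `3`-adic continuity. -/
def StFin : Prop :=
  ∀ (k w : ℕ) (f : CuspForm 𝒮ℒ (w : ℤ)), 1 ≤ k → w = 2 * k →
    (NN k f).FG ∧ ∃ m : ℕ, 1 ≤ m ∧ ∀ Q Q' : Frm, disc Q % 3 = 2 → disc Q' % 3 = 2 →
      (∀ i, (3 ^ m : ℤ) ∣ Q i - Q' i) → ∃ z ∈ NN k f, Psi k f mS Q - Psi k f mS Q' = 3 * z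

/-- (Red) reduction modulo `3`. -/
def StRed : Prop :=
  ∀ (k w : ℕ) (f : CuspForm 𝒮ℒ (w : ℤ)), Even k → w = 2 * k → IsEigen f →
    ∃ (N : AddSubgroup ℂ) (θ : N →+ ZMod 3), ∀ (M : Mat) (Q : Frm), M.det = 1 → disc Q % 3 = 2 →
      ∃ h : Psi k f M Q ∈ N, θ ⟨Psi k f M Q, h⟩ = psi M Q

/-! ### The logarithm modulo three -/

/-- (Lam) the logarithm. -/
def StLam : Prop :=
  (∀ D x y x' y' : ℤ, D % 3 = 2 → (¬ (3 : ℤ) ∣ x ∨ ¬ (3 : ℤ) ∣ y) →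
    (¬ (3 : ℤ) ∣ x' ∨ ¬ (3 : ℤ) ∣ y') →
      lam D (x * x' + D * y * y') (x * y' + y * x') = lam D x y + lam D x' y') ∧
  (∀ D c x y : ℤ, D % 3 = 2 → ¬ (3 : ℤ) ∣ c → lam D (c * x) (c * y) = lam D x y) ∧
  (∀ D x y : ℤ, D % 3 = 2 → lam D x (-y) = -lam D x y) ∧ (∀ D x : ℤ, lam D x 0 = 0) ∧
  ∀ D x y D' x' y' : ℤ, D % 3 = 2 → (9 : ℤ) ∣ D - D' → (9 : ℤ) ∣ x - x' → (9 : ℤ) ∣ y - y' →
    lam D x y = lam D' x' y'

/-- (Cocyc) the cocycle of the eigenfunction. -/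
def StCocyc : Prop :=
  (∀ (M N : Mat) (Q : Frm), M.det = 1 → N.det = 1 → disc Q % 3 = 2 →
    psi (M * N) Q = psi M Q + psi N (act Q M)) ∧
  (∀ Q : Frm, psi mT Q = 0) ∧ (∀ Q : Frm, disc Q % 3 = 2 → psi mS Q = g0 Q) ∧
  (∀ (M : Mat) (Q : Frm), disc Q % 3 = 2 → psi (-M) Q = psi M Q) ∧
  ∀ (D : ℕ) (t u : ℤ) (Q : Frm), disc Q = D → D % 3 = 2 → t ^ 2 - D * u ^ 2 = 4 →
    psi (aut Q t u) Q = -lam D t u

/-! ### Class number formulas -/

/-- (Abel) values at `1` of Dirichlet series with periodic coefficients. -/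
def StAbel : Prop :=
  ∀ (N : ℕ) (a c : ℕ → ℂ), 2 ≤ N →
    (∀ n : ℕ, a n = ∑ r ∈ Finset.Ico 1 N, c r * ee ((r : ℂ) * n / N)) →
    Tendsto (fun s : ℝ => LSeries a s) (𝓝[>] 1)
      (𝓝 (-∑ r ∈ Finset.Ico 1 N, c r * Complex.log (1 - ee ((r : ℂ) / N))))

/-- (Gauss) Gauss sums of Jacobi symbols. -/
def StGauss : Prop :=
  ∀ N : ℕ, Odd N → Squarefree N → 1 < N → ∃ τ : ℂ, τ ^ 2 = jacobiSym (-1) N * N ∧
    ∀ n : ℤ, ∑ a ∈ Finset.range N, (jacobiSym a N : ℂ) * ee ((a : ℂ) * n / N) =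
      jacobiSym n N * τ

/-- The absolute value of the value at `1`, for real quadratic fields. -/
noncomputable def LR (N : ℕ) : ℝ :=
  |∑ a ∈ Finset.range N, (jacobiSym a N : ℝ) * Real.log ‖1 - ee ((a : ℂ) / N)‖|

/-- The same for imaginary quadratic fields. -/
def LI (N : ℕ) : ℤ := |∑ a ∈ Finset.range N, jacobiSym a N * (a : ℤ)|

/-- (LOne) the values at `1`. -/
def StLOne : Prop :=
  ∀ N : ℕ, Squarefree N → 1 < N →
    (N % 4 = 1 → ∃ L : ℝ, Tendsto (fun s : ℝ => LSeries (fun n => (jacobiSym n N : ℂ)) s) (𝓝[>] 1)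
      (𝓝 (L : ℂ)) ∧ |L| * Real.sqrt N = LR N) ∧
    (N % 4 = 3 → ∃ L : ℝ, Tendsto (fun s : ℝ => LSeries (fun n => (jacobiSym n N : ℂ)) s) (𝓝[>] 1)
      (𝓝 (L : ℂ)) ∧ |L| * N * Real.sqrt N = Real.pi * LI N)

/-- (Discr) the discriminant. -/
def StDiscr : Prop :=
  ∀ (K : Type) [Field K] [NumberField K] (s : K) (d : ℤ), Module.finrank ℚ K = 2 →
    s ^ 2 = (d : K) → Squarefree d.natAbs → 1 < d.natAbs → d % 4 = 1 → NumberField.discr K = d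

/-- (Split) the number of prime ideals above a prime number `p` of a quadratic field of
discriminant `d = 1` modulo `4`, and their norms. -/
def StSplit : Prop :=
  ∀ (K : Type) [Field K] [NumberField K] (s : K) (d : ℤ), Module.finrank ℚ K = 2 →
    s ^ 2 = (d : K) → Squarefree d.natAbs → 1 < d.natAbs → d % 4 = 1 → ∀ p : ℕ, p.Prime →
    (jacobiSym p d.natAbs = 0 → ∃ P : Ideal (NumberField.RingOfIntegers K), P.IsPrime ∧
      P.absNorm = p ∧ Ideal.span {(p : NumberField.RingOfIntegers K)} = P ^ 2) ∧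
    (jacobiSym p d.natAbs = 1 → ∃ P P' : Ideal (NumberField.RingOfIntegers K), P.IsPrime ∧
      P'.IsPrime ∧ P ≠ P' ∧ P.absNorm = p ∧ P'.absNorm = p ∧
        Ideal.span {(p : NumberField.RingOfIntegers K)} = P * P') ∧
    (jacobiSym p d.natAbs = -1 →
      (Ideal.span {(p : NumberField.RingOfIntegers K)}).IsPrime)

/-- (Zeta) the zeta function of a quadratic field. -/
def StZeta : Prop :=
  ∀ (K : Type) [Field K] [NumberField K] (s : K) (d : ℤ), Module.finrank ℚ K = 2 →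
    s ^ 2 = (d : K) → Squarefree d.natAbs → 1 < d.natAbs → d % 4 = 1 → ∀ x : ℝ, 1 < x →
      NumberField.dedekindZeta K x =
        riemannZeta x * LSeries (fun n => (jacobiSym n d.natAbs : ℂ)) x

/-- (RUnit) units of real quadratic fields. -/
def StRUnit : Prop :=
  ∀ (K : Type) [Field K] [NumberField K] (s : K) (D : ℕ) (t u : ℤ), Module.finrank ℚ K = 2 →
    s ^ 2 = (D : K) → Squarefree D → D % 4 = 1 → 1 < D → Fund D t u →
      NumberField.Units.torsionOrder K = 2 ∧ NumberField.InfinitePlace.nrRealPlaces K = 2 ∧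
      NumberField.InfinitePlace.nrComplexPlaces K = 0 ∧
      ∃ e : ℕ, (e = 1 ∨ e = 2) ∧ Real.log (eps D t u) = e * NumberField.Units.regulator K

/-- (RCN) the class number formula for real quadratic fields. -/
def StRCN : Prop :=
  ∀ (K : Type) [Field K] [NumberField K] (s : K) (D : ℕ) (t u : ℤ), Module.finrank ℚ K = 2 →
    s ^ 2 = (D : K) → Squarefree D → D % 4 = 1 → 1 < D → Fund D t u →
      ∃ e : ℕ, (e = 1 ∨ e = 2) ∧
        e * LR D = 2 * Nat.card (ClassGroup (NumberField.RingOfIntegers K)) *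
          Real.log (eps D t u)

/-- (ICN) the class number formula for imaginary quadratic fields. -/
def StICN : Prop :=
  ∀ (K : Type) [Field K] [NumberField K] (s : K) (N : ℕ), Module.finrank ℚ K = 2 →
    s ^ 2 = -(N : K) → Squarefree N → N % 4 = 3 → 3 < N →
      LI N = N * Nat.card (ClassGroup (NumberField.RingOfIntegers K))

/-- (Cong) the congruence modulo `9`. -/
def StCong : Prop :=
  ∀ (D : ℕ) (t u : ℤ) (h h' e : ℕ), Squarefree D → D % 12 = 5 → t ^ 2 - D * u ^ 2 = 4 → 0 < t →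
    0 < u → (e = 1 ∨ e = 2) → e * LR D = 2 * h * Real.log (eps D t u) →
    LI (3 * D) = (3 * D : ℕ) * h' → ¬ 3 ∣ h' → ¬ 3 ∣ h ∧ lam D t u ≠ 0

/-- (Key) the criterion. -/
def StKey : Prop :=
  ∀ D : ℕ, Squarefree D → D % 12 = 5 → BKDH.NoThree (3 * D) →
    (∀ (K : Type) [Field K] [NumberField K] (s : K), Module.finrank ℚ K = 2 → s ^ 2 = (D : K) →
      ¬ 3 ∣ Nat.card (ClassGroup (NumberField.RingOfIntegers K))) ∧
    ∀ t u : ℤ, Fund D t u → lam D t u ≠ 0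

/-- (Count) the number of fields. -/
def StCount : Prop :=
  ∀ ε : ℝ, 0 < ε → ∃ X₀ : ℕ, ∀ X : ℕ, X₀ ≤ X →
    (3 / (8 * Real.pi ^ 2) - ε) * X ≤
      ({D : ℕ | D ≤ X ∧ Squarefree D ∧ D % 12 = 5 ∧ BKDH.NoThree (3 * D)}.ncard : ℝ)

/-! ### Forms and fields -/

/-- (Pell) the smallest solution. -/
def StPell : Prop := ∀ D : ℕ, ¬ IsSquare D → ∃ t u : ℤ, Fund D t u

/-- (Form) the forms attached to ideal classes. -/
def StForm : Prop :=
  ∀ (K : Type) [Field K] [NumberField K], Module.finrank ℚ K = 2 → 0 < NumberField.discr K →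
    (∃ q : ClassGroup (NumberField.RingOfIntegers K) → Frm, ∀ c, FormOf c (q c)) ∧
    ∀ (c : ClassGroup (NumberField.RingOfIntegers K)) (Q : Frm), FormOf c Q →
      disc Q = NumberField.discr K

/-- (Crit) the criterion for the non-vanishing of toric periods. -/
def StCrit : Prop :=
  ∀ (k w : ℕ) (f : CuspForm 𝒮ℒ (w : ℤ)), Even k → w = 2 * k → IsEigen f →
    ∀ (K : Type) [Field K] [NumberField K], Module.finrank ℚ K = 2 → 0 < NumberField.discr K →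
      NumberField.discr K % 3 = 2 →
      ¬ 3 ∣ Nat.card (ClassGroup (NumberField.RingOfIntegers K)) →
      (∀ (D : ℕ) (t u : ℤ), NumberField.discr K = D → Fund D t u → lam D t u ≠ 0) →
      NonVan k f K

/-- The main theorem. -/
def StMain : Prop :=
  ∀ (k w : ℕ) (f : CuspForm 𝒮ℒ (w : ℤ)), Even k → w = 2 * k → IsEigen f →
    (∀ D : ℕ, Squarefree D → D % 12 = 5 →
      (∀ (F : Type) [Field F] [NumberField F] (s : F), Module.finrank ℚ F = 2 →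
        s ^ 2 = -((3 * D : ℕ) : F) →
          ¬ 3 ∣ Nat.card (ClassGroup (NumberField.RingOfIntegers F))) →
      ∀ (K : Type) [Field K] [NumberField K] (s : K), Module.finrank ℚ K = 2 → s ^ 2 = (D : K) →
        NonVan k f K) ∧
    ∀ ε : ℝ, 0 < ε → ∃ X₀ : ℕ, ∀ X : ℕ, X₀ ≤ X →
      (3 / (8 * Real.pi ^ 2) - ε) * X ≤
        ({D : ℕ | D ≤ X ∧ Squarefree D ∧ D % 12 = 5 ∧
          ∀ (K : Type) [Field K] [NumberField K] (s : K), Module.finrank ℚ K = 2 →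
            s ^ 2 = (D : K) → NonVan k f K}.ncard : ℝ)

/-! ### The algebra modulo three -/

/-- (Vf) functions of forms as functions of matrices. -/
def StVf : Prop :=
  (∀ (m : ℕ) (u : Frm → ZMod 3), 1 ≤ m → PF m u →
    MF m (vf u) ∧ WR (vf u) ∧ Tor (vf u) ∧ TM L2 (vf u) = -vf (TL L2 u) ∧
      TM L7 (vf u) = vf (TL L7 u) ∧ (vf u = 0 → u = 0)) ∧
  (∀ u u' : Frm → ZMod 3, vf (u + u') = vf u + vf u') ∧
  ∀ (c : ZMod 3) (u : Frm → ZMod 3), vf (c • u) = c • vf u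

/-- (KOne) elements congruent to scalars modulo `3 ^ j`. -/
def StKOne : Prop :=
  ∀ (m j n : ℕ) (k : Mat) (v : Mat → ZMod 3), 1 ≤ j → Scal j k → MF m v →
    Fil (n + 3 ^ (j - 1)) v → Fil n (Rt k v - v)

/-- (KTwo) the filtration is exhaustive. -/
def StKTwo : Prop := ∀ (m : ℕ) (v : Mat → ZMod 3), MF m v → ∃ d : ℕ, Fil d v

/-- (RH) right translations preserve the filtration; the first order expansion; commutators. -/
def StRH : Prop :=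
  (∀ (m n : ℕ) (h : Mat) (v : Mat → ZMod 3), ¬ (3 : ℤ) ∣ h.det → MF m v → Fil n v →
    Fil n (Rt h v)) ∧
  (∀ (m n : ℕ) (c : ℤ) (e : Fin 3 → ℤ) (N : Mat) (v : Mat → ZMod 3), ¬ (3 : ℤ) ∣ c → MF m v →
    Fil (n + 2) v → Fil n (Rt (c • ((1 : Mat) + (3 : ℤ) • ∑ i, e i • xm i) + (9 : ℤ) • N) v - v -
      ∑ i, (e i : ZMod 3) • Xd i v)) ∧
  ∀ (m n : ℕ) (i j : Fin 3) (v : Mat → ZMod 3), MF m v → Fil (n + 3) v →
    Fil n (Xd i (Xd j v) - Xd j (Xd i v))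

/-- (VOne) functions of level three. -/
def StVOne : Prop :=
  ∀ (m : ℕ) (v : Mat → ZMod 3), MF m v → WR v → Fil 1 v →
    (∀ M N : Mat, v (M + (3 : ℤ) • N) = v M) ∧
    TM L2 v = 0 ∧ Lop v = 0 ∧ ((∀ i, ac i v = 0) → v = 0) ∧
    (ac 0 (Rt mr v) = -ac 0 v ∧ ac 1 (Rt mr v) = ac 2 v ∧ ac 2 (Rt mr v) = -ac 1 v) ∧
    (ac 0 (Rt mE v) = ac 0 v ∧ ac 1 (Rt mE v) = -ac 2 v ∧ ac 2 (Rt mE v) = -ac 1 v) ∧
    (ac 0 (Rt mT v) = ac 2 v ∧ ac 1 (Rt mT v) = -ac 0 v ∧ ac 2 (Rt mT v) = -ac 1 v)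

/-- (Hk) the Hecke operators preserve the relations of periods. -/
def StHk : Prop :=
  ∀ (m : ℕ) (v : Mat → ZMod 3), MF m v → WR v → WR (TM L2 v) ∧ WR (TM L7 v)

/-- (First) symbols of functions of degree at most one. -/
def StFirst : Prop :=
  ∀ (m : ℕ) (v : Mat → ZMod 3), KK m v → Fil 2 v →
    (∀ i j, ac i (Xd j v) = ac j (Xd i v)) ∧ ∑ i, ac i (Xd i v) = 0

/-- (Sym) symbols are symmetric and harmonic. -/
def StSym : Prop :=
  ∀ (m d : ℕ) (v : Mat → ZMod 3), KK m v → Fil (d + 1) v →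
    (∀ l l' : List (Fin 3), l.length = d + 1 → l.Perm l' → sym v l = sym v l') ∧
    (∀ l : List (Fin 3), l.length + 1 = d → ∑ i, sym v (i :: i :: l) = 0) ∧
    ((∀ l : List (Fin 3), l.length = d + 1 → sym v l = 0) → Fil d v)

/-- (Rot) symbols and rotations. -/
def StRot : Prop :=
  ∀ (m d : ℕ) (v : Mat → ZMod 3), KK m v → Fil (d + 1) v →
    ∀ l : List (Fin 3), l.length = d + 1 →
      sym (Rt mr v) l = -((-1) ^ l.count 1 * sym v (l.map (Equiv.swap 1 2))) ∧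
      sym (Rt mE v) l = -((-1) ^ l.count 0 * sym v (l.map (Equiv.swap 1 2))) ∧
      sym (Rt mT v) l = (-1) ^ (l.count 1 + l.count 2) * sym v (l.map ![2, 0, 1])

/-- (TorSym) symbols of functions of forms. -/
def StTorSym : Prop :=
  ∀ (m d : ℕ) (v : Mat → ZMod 3), KK m v → Tor v → Fil (d + 1) v → ¬ Fil d v →
    d % 4 = 1 ∧ d < 3 ^ (m - 1) ∧ ∃ B : ZMod 3, B ≠ 0 ∧
      ∀ l : List (Fin 3), l.length = d + 1 → sym v l =
        if l.count 0 = 0 ∧ l.count 2 % 2 = 1 then (-1) ^ (l.count 2 / 2) * B else 0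

/-- (Ex) the two functions. -/
def StEx : Prop :=
  PF 2 g0 ∧ PF 3 u4 ∧ g0 ≠ 0 ∧ TL L2 g0 = 0 ∧ TL L2 u4 = 0 ∧ TL L7 u4 = (2 : ZMod 3) • u4 + g0

/-- (Low) `T_7 - 2` lowers the degree by four. -/
def StLow : Prop :=
  ∀ (m n : ℕ) (v : Mat → ZMod 3), KK m v → Fil (n + 4) v → Fil n (Lop v)

/-- (KL) the socle. -/
def StKL : Prop :=
  ∀ (m : ℕ) (G : Submodule (ZMod 3) (Frm → ZMod 3)), (∀ u ∈ G, PF m u) →
    (∀ u ∈ G, TL L2 u ∈ G) → (∀ u ∈ G, TL L7 u ∈ G) → G ≠ ⊥ → g0 ∈ G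

end LO

end Pool.Agent.Lib.MP_7c5fb9_nt
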