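import Pool.Agent.Lib.MP_7c5fb9_nt.LO.Stmts

set_option autoImplicit false

/-!
# Level one (MP_7c5fb9_nt, project LO): basic lemmas
-/

namespace Pool.Agent.Lib.MP_7c5fb9_nt

namespace LO

/-! ### Forms -/

theorem act_act (Q : Frm) (M N : Mat) : act (act Q M) N = act Q (M * N) := by
  funext i
  fin_cases i <;> simp [act, Matrix.mul_apply, Fin.sum_univ_two] <;> ring

theorem act_one (Q : Frm) : act Q 1 = Q := by
  funext i
  fin_cases i <;> simp [act]

theorem act_neg (Q : Frm) (M : Mat) : act Q (-M) = act Q M := by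
  funext i
  fin_cases i <;> simp [act]

theorem act_smul (Q : Frm) (c : ℤ) (M : Mat) : act Q (c • M) = fun i => c ^ 2 * act Q M i := by
  funext i
  fin_cases i <;> simp [act] <;> ring

theorem smul_act (Q : Frm) (c : ℤ) (M : Mat) :
    act (fun i => c * Q i) M = fun i => c * act Q M i := by
  funext i
  fin_cases i <;> simp [act] <;> ring

theorem mir_eq (Q : Frm) : mir Q = act Q mE := by
  funext i
  fin_cases i <;> simp [act, mir, mE]

theorem mir_mir (Q : Frm) : mir (mir Q) = Q := by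
  funext i
  fin_cases i <;> simp [mir]

theorem disc_act (Q : Frm) (M : Mat) : disc (act Q M) = M.det ^ 2 * disc Q := by
  simp [disc, act, Matrix.det_fin_two]
  ring

theorem disc_mir (Q : Frm) : disc (mir Q) = disc Q := by
  simp [disc, mir]

theorem disc_smul (Q : Frm) (c : ℤ) : disc (fun i => c * Q i) = c ^ 2 * disc Q := by
  simp only [disc]
  ring

theorem mE_mul_mE : mE * mE = 1 := by
  simp [mE, Matrix.one_fin_two]

theorem mS_mul_mS : mS * mS = -1 := by
  simp [mS, Matrix.one_fin_two]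

theorem mU_cube : mU * mU * mU = -1 := by
  simp [mU, Matrix.one_fin_two]

theorem mU_eq : mU = mT * mS := by
  simp [mU, mT, mS]

theorem mT_mul_mT' : mT * mT' = 1 := by
  simp [mT, mT', Matrix.one_fin_two]

theorem mT'_mul_mT : mT' * mT = 1 := by
  simp [mT, mT', Matrix.one_fin_two]

theorem conj_mS : mE * mS * mE = -mS := by
  simp [mS, mE]

theorem conj_mT : mE * mT * mE = mT' := by
  simp [mT, mT', mE]

theorem det_mS : mS.det = 1 := by simp [mS, Matrix.det_fin_two]

theorem det_mU : mU.det = 1 := by simp [mU, Matrix.det_fin_two]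

theorem det_mT : mT.det = 1 := by simp [mT, Matrix.det_fin_two]

theorem det_mT' : mT'.det = 1 := by simp [mT', Matrix.det_fin_two]

theorem det_mE : mE.det = -1 := by simp [mE, Matrix.det_fin_two]

theorem det_mr : mr.det = 2 := by
  rw [mr, Matrix.det_fin_two]
  norm_num

theorem conj_det (M : Mat) : (mE * M * mE).det = M.det := by
  rw [Matrix.det_mul, Matrix.det_mul, det_mE]
  ring

theorem conj_mul (M N : Mat) : mE * (M * N) * mE = (mE * M * mE) * (mE * N * mE) := by
  have h := mE_mul_mE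
  calc mE * (M * N) * mE = mE * M * (1 * (N * mE)) := by simp only [one_mul, mul_assoc]
    _ = (mE * M * mE) * (mE * N * mE) := by rw [← h]; simp only [mul_assoc]

theorem mir_act (Q : Frm) (M : Mat) : act (mir Q) (mE * M * mE) = mir (act Q M) := by
  rw [mir_eq, mir_eq, act_act, act_act, ← mul_assoc, ← mul_assoc, mE_mul_mE, one_mul]

theorem disc_parity (Q : Frm) : disc Q % 4 = Q 1 ^ 2 % 4 := by
  have h : disc Q = Q 1 ^ 2 + 4 * (-(Q 0 * Q 2)) := by
    unfold disc
    ring
  rw [h, Int.add_mul_emod_self_left]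

theorem act_congr {n : ℤ} {Q Q' : Frm} {M M' : Mat} (hQ : ∀ i, n ∣ Q i - Q' i)
    (hM : ∀ i j, n ∣ M i j - M' i j) (i : Fin 3) : n ∣ act Q M i - act Q' M' i := by
  have hQ' : ∀ i, Q i ≡ Q' i [ZMOD n] := fun i => (Int.modEq_iff_dvd.2 (by
    have := hQ i
    rwa [← dvd_neg, neg_sub] at this))
  have hM' : ∀ i j, M i j ≡ M' i j [ZMOD n] := fun i j => (Int.modEq_iff_dvd.2 (by
    have := hM i j
    rwa [← dvd_neg, neg_sub] at this))
  have key : act Q' M' i ≡ act Q M i [ZMOD n] := by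
    fin_cases i
    · exact (((hQ' 0).mul ((hM' 0 0).pow 2)).add ((hQ' 1).mul ((hM' 0 0).mul (hM' 1 0)))).add
        ((hQ' 2).mul ((hM' 1 0).pow 2)) |>.symm
    · exact (((((hQ' 0).mul_left 2).mul ((hM' 0 0).mul (hM' 0 1))).add
        ((hQ' 1).mul (((hM' 0 0).mul (hM' 1 1)).add ((hM' 0 1).mul (hM' 1 0))))).add
        (((hQ' 2).mul_left 2).mul ((hM' 1 0).mul (hM' 1 1)))) |>.symm
    · exact (((hQ' 0).mul ((hM' 0 1).pow 2)).add ((hQ' 1).mul ((hM' 0 1).mul (hM' 1 1)))).add
        ((hQ' 2).mul ((hM' 1 1).pow 2)) |>.symm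
  exact (Int.modEq_iff_dvd.1 key)

/-- The coordinates of the automorph. -/
theorem aut_two {D : ℕ} {t u : ℤ} {Q : Frm} (hD : disc Q = D) (h : t ^ 2 - D * u ^ 2 = 4) :
    2 * ((t - Q 1 * u) / 2) = t - Q 1 * u ∧ 2 * ((t + Q 1 * u) / 2) = t + Q 1 * u := by
  have h1 : (t - Q 1 * u) * (t + Q 1 * u) = 4 * (1 - Q 0 * Q 2 * u ^ 2) := by
    have : t ^ 2 = 4 + (Q 1 ^ 2 - 4 * Q 0 * Q 2) * u ^ 2 := by
      have h2 : (D : ℤ) = Q 1 ^ 2 - 4 * Q 0 * Q 2 := by rw [← hD]; rfl
      rw [← h2]
      linarith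
    linear_combination this
  have h2 : Even ((t - Q 1 * u) * (t + Q 1 * u)) := by
    rw [h1]
    exact ⟨2 * (1 - Q 0 * Q 2 * u ^ 2), by ring⟩
  have h3 : Even (t - Q 1 * u) ∧ Even (t + Q 1 * u) := by
    rcases Int.even_mul.1 h2 with h4 | h4
    · refine ⟨h4, ?_⟩
      have : t + Q 1 * u = (t - Q 1 * u) + 2 * (Q 1 * u) := by ring
      rw [this]
      exact h4.add ⟨Q 1 * u, by ring⟩
    · refine ⟨?_, h4⟩
      have : t - Q 1 * u = (t + Q 1 * u) + 2 * (-(Q 1 * u)) := by ring
      rw [this]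
      exact h4.add ⟨-(Q 1 * u), by ring⟩
  exact ⟨Int.mul_ediv_cancel' h3.1.two_dvd, Int.mul_ediv_cancel' h3.2.two_dvd⟩

theorem det_aut {D : ℕ} {t u : ℤ} {Q : Frm} (hD : disc Q = D) (h : t ^ 2 - D * u ^ 2 = 4) :
    (aut Q t u).det = 1 := by
  obtain ⟨h1, h2⟩ := aut_two hD h
  have h3 : (D : ℤ) = Q 1 ^ 2 - 4 * Q 0 * Q 2 := by rw [← hD]; rfl
  rw [h3] at h
  rw [aut, Matrix.det_fin_two]
  simp only [Matrix.of_apply, Matrix.cons_val', Matrix.cons_val_zero, Matrix.cons_val_one,
    Matrix.cons_val_fin_one]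
  have h4 : 4 * ((t - Q 1 * u) / 2 * ((t + Q 1 * u) / 2) - -Q 2 * u * (Q 0 * u)) = 4 := by
    calc 4 * ((t - Q 1 * u) / 2 * ((t + Q 1 * u) / 2) - -Q 2 * u * (Q 0 * u)) =
        (2 * ((t - Q 1 * u) / 2)) * (2 * ((t + Q 1 * u) / 2)) + 4 * (Q 2 * u * (Q 0 * u)) := by ring
      _ = 4 := by rw [h1, h2]; linear_combination h
  linarith

theorem act_aut {D : ℕ} {t u : ℤ} {Q : Frm} (hD : disc Q = D) (h : t ^ 2 - D * u ^ 2 = 4) :
    act Q (aut Q t u) = Q := by
  obtain ⟨h1, h2⟩ := aut_two hD h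
  have h3 : (D : ℤ) = Q 1 ^ 2 - 4 * Q 0 * Q 2 := by rw [← hD]; rfl
  rw [h3] at h
  set a := (t - Q 1 * u) / 2 with ha
  set d := (t + Q 1 * u) / 2 with hd
  have e : ∀ x y : ℤ, 4 * x = 4 * y → x = y := fun x y hxy => by omega
  funext i
  fin_cases i
  · apply e
    simp only [act, aut, ← ha, ← hd, Matrix.of_apply, Matrix.cons_val', Matrix.cons_val_zero,
      Matrix.cons_val_one, Matrix.cons_val_fin_one, Fin.zero_eta]
    calc 4 * (Q 0 * a ^ 2 + Q 1 * (a * (Q 0 * u)) + Q 2 * (Q 0 * u) ^ 2) =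
        Q 0 * (2 * a) ^ 2 + 2 * Q 1 * ((2 * a) * (Q 0 * u)) + 4 * Q 2 * (Q 0 * u) ^ 2 := by ring
      _ = 4 * Q 0 := by rw [h1]; linear_combination Q 0 * h
  · apply e
    simp only [act, aut, ← ha, ← hd, Matrix.of_apply, Matrix.cons_val', Matrix.cons_val_zero,
      Matrix.cons_val_one, Matrix.cons_val_fin_one, Fin.mk_one]
    calc 4 * (2 * Q 0 * (a * (-Q 2 * u)) + Q 1 * (a * d + -Q 2 * u * (Q 0 * u)) +
          2 * Q 2 * (Q 0 * u * d)) =
        4 * Q 0 * ((2 * a) * (-Q 2 * u)) + Q 1 * ((2 * a) * (2 * d)) +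
          4 * Q 1 * (-Q 2 * u * (Q 0 * u)) + 4 * Q 2 * (Q 0 * u * (2 * d)) := by ring
      _ = 4 * Q 1 := by rw [h1, h2]; linear_combination Q 1 * h
  · apply e
    simp only [act, aut, ← ha, ← hd, Matrix.of_apply, Matrix.cons_val', Matrix.cons_val_zero,
      Matrix.cons_val_one, Matrix.cons_val_fin_one, Fin.reduceFinMk, Matrix.cons_val]
    calc 4 * (Q 0 * (-Q 2 * u) ^ 2 + Q 1 * (-Q 2 * u * d) + Q 2 * d ^ 2) =
        4 * Q 0 * (-Q 2 * u) ^ 2 + 2 * Q 1 * (-Q 2 * u * (2 * d)) + Q 2 * (2 * d) ^ 2 := by ring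
      _ = 4 * Q 2 := by rw [h2]; linear_combination Q 2 * h

/-- The automorph of the mirror form. -/
theorem conj_aut (Q : Frm) (t u : ℤ) : mE * aut Q t u * mE = (aut (mir Q) t u).adjugate := by
  rw [Matrix.adjugate_fin_two]
  simp only [mE, aut, mir, Matrix.mul_fin_two]
  ext i j
  fin_cases i <;> fin_cases j <;> simp [sub_eq_add_neg]

/-! ### Right translations -/

section right

variable {m n d : ℕ} {v v' : Mat → ZMod 3} {k l : Mat}

theorem Rt_apply (k : Mat) (v : Mat → ZMod 3) (M : Mat) : Rt k v M = v (M * k) := rfl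

theorem Rt_Rt (k l : Mat) (v : Mat → ZMod 3) : Rt k (Rt l v) = Rt (k * l) v := by
  funext M
  simp [Rt, mul_assoc]

theorem Rt_one (v : Mat → ZMod 3) : Rt 1 v = v := by
  funext M
  simp [Rt]

theorem Rt_add (k : Mat) (v v' : Mat → ZMod 3) : Rt k (v + v') = Rt k v + Rt k v' := rfl

theorem Rt_sub (k : Mat) (v v' : Mat → ZMod 3) : Rt k (v - v') = Rt k v - Rt k v' := rfl

theorem Rt_neg (k : Mat) (v : Mat → ZMod 3) : Rt k (-v) = -Rt k v := rfl

theorem Rt_smul (k : Mat) (c : ZMod 3) (v : Mat → ZMod 3) : Rt k (c • v) = c • Rt k v := rfl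

theorem Rt_zero (k : Mat) : Rt k 0 = 0 := rfl

theorem Xd_eq (i : Fin 3) (v : Mat → ZMod 3) : Xd i v = Rt (gm i) v - v := rfl

theorem Rt_gm (i : Fin 3) (v : Mat → ZMod 3) : Rt (gm i) v = Xd i v + v := by
  rw [Xd_eq]
  abel

theorem Xd_add (i : Fin 3) (v v' : Mat → ZMod 3) : Xd i (v + v') = Xd i v + Xd i v' := by
  simp only [Xd_eq, Rt_add]
  abel

theorem Xd_sub (i : Fin 3) (v v' : Mat → ZMod 3) : Xd i (v - v') = Xd i v - Xd i v' := by
  simp only [Xd_eq, Rt_sub]
  abel

theorem Xd_neg (i : Fin 3) (v : Mat → ZMod 3) : Xd i (-v) = -Xd i v := by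
  simp only [Xd_eq, Rt_neg]
  abel

theorem Xd_smul (i : Fin 3) (c : ZMod 3) (v : Mat → ZMod 3) : Xd i (c • v) = c • Xd i v := by
  simp only [Xd_eq, Rt_smul, smul_sub]

theorem Xd_zero (i : Fin 3) : Xd i 0 = 0 := by
  rw [Xd_eq, Rt_zero, sub_self]

theorem foldr_add (l : List (Fin 3)) (v v' : Mat → ZMod 3) :
    l.foldr Xd (v + v') = l.foldr Xd v + l.foldr Xd v' := by
  induction l with
  | nil => rfl
  | cons i l ih => simp only [List.foldr_cons, ih, Xd_add]

theorem foldr_sub (l : List (Fin 3)) (v v' : Mat → ZMod 3) :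
    l.foldr Xd (v - v') = l.foldr Xd v - l.foldr Xd v' := by
  induction l with
  | nil => rfl
  | cons i l ih => simp only [List.foldr_cons, ih, Xd_sub]

theorem foldr_neg (l : List (Fin 3)) (v : Mat → ZMod 3) : l.foldr Xd (-v) = -l.foldr Xd v := by
  induction l with
  | nil => rfl
  | cons i l ih => simp only [List.foldr_cons, ih, Xd_neg]

theorem foldr_smul (l : List (Fin 3)) (c : ZMod 3) (v : Mat → ZMod 3) :
    l.foldr Xd (c • v) = c • l.foldr Xd v := by
  induction l with
  | nil => rfl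
  | cons i l ih => simp only [List.foldr_cons, ih, Xd_smul]

theorem foldr_zero (l : List (Fin 3)) : l.foldr Xd (0 : Mat → ZMod 3) = 0 := by
  induction l with
  | nil => rfl
  | cons i l ih => simp only [List.foldr_cons, ih, Xd_zero]

/-! ### The filtration -/

theorem Fil_zero_iff : Fil 0 v ↔ v = 0 := Iff.rfl

theorem Fil_succ_iff : Fil (d + 1) v ↔ ∀ i, Fil d (Xd i v) := Iff.rfl

theorem Fil_zero (d : ℕ) : Fil d (0 : Mat → ZMod 3) := by
  induction d with
  | zero => rfl
  | succ d ih => intro i; rw [Xd_zero]; exact ih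

theorem Fil_add (h : Fil d v) (h' : Fil d v') : Fil d (v + v') := by
  induction d generalizing v v' with
  | zero => rw [Fil_zero_iff] at *; rw [h, h', add_zero]
  | succ d ih => intro i; rw [Xd_add]; exact ih (h i) (h' i)

theorem Fil_neg (h : Fil d v) : Fil d (-v) := by
  induction d generalizing v with
  | zero => rw [Fil_zero_iff] at *; rw [h, neg_zero]
  | succ d ih => intro i; rw [Xd_neg]; exact ih (h i)

theorem Fil_sub (h : Fil d v) (h' : Fil d v') : Fil d (v - v') := by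
  rw [sub_eq_add_neg]
  exact Fil_add h (Fil_neg h')

theorem Fil_smul (c : ZMod 3) (h : Fil d v) : Fil d (c • v) := by
  induction d generalizing v with
  | zero => rw [Fil_zero_iff] at *; rw [h, smul_zero]
  | succ d ih => intro i; rw [Xd_smul]; exact ih (h i)

theorem Fil_sum {ι : Type*} (s : Finset ι) (f : ι → Mat → ZMod 3) (h : ∀ i ∈ s, Fil d (f i)) :
    Fil d (∑ i ∈ s, f i) := by
  classical
  induction s using Finset.induction_on with
  | empty => simpa using Fil_zero d
  | insert a s ha ih =>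
    rw [Finset.sum_insert ha]
    exact Fil_add (h a (Finset.mem_insert_self a s))
      (ih fun i hi => h i (Finset.mem_insert_of_mem hi))

theorem Fil_succ (h : Fil d v) : Fil (d + 1) v := by
  induction d generalizing v with
  | zero => rw [Fil_zero_iff] at h; rw [h]; exact Fil_zero 1
  | succ d ih => intro i; exact ih (h i)

theorem Fil_mono {d e : ℕ} (hde : d ≤ e) (h : Fil d v) : Fil e v := by
  induction e, hde using Nat.le_induction with
  | base => exact h
  | succ e _ ih => exact Fil_succ ih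

theorem Fil_Xd (i : Fin 3) (h : Fil (d + 1) v) : Fil d (Xd i v) := h i

theorem Fil_Xd' (i : Fin 3) (h : Fil d v) : Fil d (Xd i v) := Fil_succ h i

theorem Fil_Rt_gm (i : Fin 3) (h : Fil d v) : Fil d (Rt (gm i) v) := by
  rw [Rt_gm]
  exact Fil_add (Fil_Xd' i h) h

theorem Fil_foldr (l : List (Fin 3)) (h : Fil (d + l.length) v) : Fil d (l.foldr Xd v) := by
  induction l generalizing d with
  | nil => exact h
  | cons i l ih =>
    rw [List.foldr_cons]
    apply Fil_Xd i
    apply ih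
    rwa [List.length_cons, ← add_assoc, add_right_comm] at h

/-- The filtration in terms of lists. -/
theorem Fil_iff : Fil d v ↔ ∀ l : List (Fin 3), l.length = d → l.foldr Xd v = 0 := by
  constructor
  · intro h l hl
    have := Fil_foldr (d := 0) (v := v) l (by rw [zero_add, hl]; exact h)
    exact this
  · induction d generalizing v with
    | zero => intro h; exact h [] rfl
    | succ d ih =>
      intro h i
      apply ih
      intro l hl
      have := h (l ++ [i]) (by simp [hl])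
      simpa using this

/-- The filtration: elements of `Fil (d + e)` in terms of lists of length `e`. -/
theorem Fil_add_iff {e : ℕ} :
    Fil (d + e) v ↔ ∀ l : List (Fin 3), l.length = e → Fil d (l.foldr Xd v) := by
  constructor
  · intro h l hl
    apply Fil_foldr
    rwa [hl]
  · intro h
    rw [Fil_iff]
    intro l hl
    have h1 : l = l.take d ++ l.drop d := (List.take_append_drop d l).symm
    rw [h1, List.foldr_append]
    have h2 := h (l.drop d) (by simp [hl])
    rw [Fil_iff] at h2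
    exact h2 _ (by simp [hl])

/-! ### Level structure -/

theorem MF_zero (m : ℕ) : MF m (0 : Mat → ZMod 3) := ⟨fun _ _ => rfl, fun _ _ _ => rfl, fun _ _ => rfl⟩

theorem MF.add (h : MF m v) (h' : MF m v') : MF m (v + v') :=
  ⟨fun M N => by simp only [Pi.add_apply, h.per, h'.per],
    fun c M hc => by simp only [Pi.add_apply, h.scal c M hc, h'.scal c M hc],
    fun M hM => by simp only [Pi.add_apply, h.supp M hM, h'.supp M hM, add_zero]⟩

theorem MF.neg (h : MF m v) : MF m (-v) :=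
  ⟨fun M N => by simp only [Pi.neg_apply, h.per],
    fun c M hc => by simp only [Pi.neg_apply, h.scal c M hc],
    fun M hM => by simp only [Pi.neg_apply, h.supp M hM, neg_zero]⟩

theorem MF.sub (h : MF m v) (h' : MF m v') : MF m (v - v') := by
  rw [sub_eq_add_neg]
  exact h.add h'.neg

theorem MF.smul (c : ZMod 3) (h : MF m v) : MF m (c • v) :=
  ⟨fun M N => by simp only [Pi.smul_apply, h.per],
    fun a M ha => by simp only [Pi.smul_apply, h.scal a M ha],
    fun M hM => by simp only [Pi.smul_apply, h.supp M hM, smul_zero]⟩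

theorem MF.Rt (k : Mat) (h : MF m v) : MF m (Rt k v) :=
  ⟨fun M N => by simp only [LO.Rt, add_mul, smul_mul_assoc, h.per],
    fun c M hc => by simp only [LO.Rt, smul_mul_assoc, h.scal c _ hc],
    fun M hM => h.supp _ (by rw [Matrix.det_mul]; exact hM.mul_right _)⟩

theorem MF.Xd (i : Fin 3) (h : MF m v) : MF m (Xd i v) := by
  rw [Xd_eq]
  exact (h.Rt _).sub h

theorem MF.foldr (l : List (Fin 3)) (h : MF m v) : MF m (l.foldr LO.Xd v) := by
  induction l with
  | nil => exact h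
  | cons i l ih => exact ih.Xd i

theorem MF.mono {m m' : ℕ} (hm : m ≤ m') (h : MF m v) : MF m' v := by
  refine ⟨fun M N => ?_, h.scal, h.supp⟩
  obtain ⟨c, rfl⟩ := Nat.exists_eq_add_of_le hm
  rw [pow_add, mul_smul]
  exact h.per _ _

/-- Functions of level `3 ^ m` depend on the class modulo `3 ^ m`. -/
theorem MF.congr (h : MF m v) {M N : Mat} (hMN : ∀ i j, (3 : ℤ) ^ m ∣ M i j - N i j) :
    v M = v N := by
  choose c hc using hMN
  have : M = N + (3 : ℤ) ^ m • (Matrix.of c) := by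
    ext i j
    simp only [Matrix.add_apply, Matrix.smul_apply, Matrix.of_apply, smul_eq_mul]
    linarith [hc i j]
  rw [this, h.per]

theorem MF.neg_apply (h : MF m v) (M : Mat) : v (-M) = v M := by
  have := h.scal (-1) M (by decide)
  rwa [neg_one_smul] at this

theorem WR_zero : WR (0 : Mat → ZMod 3) := ⟨by simp, by simp, by simp⟩

theorem WR.add (h : WR v) (h' : WR v') : WR (v + v') :=
  ⟨fun M => by simp only [Pi.add_apply, h.S, h'.S, neg_add],
    fun M => by simp only [Pi.add_apply, h.E, h'.E],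
    fun M => by
      have h1 := h.U M
      have h2 := h'.U M
      simp only [Pi.add_apply]
      linear_combination h1 + h2⟩

theorem WR.smul (c : ZMod 3) (h : WR v) : WR (c • v) :=
  ⟨fun M => by simp only [Pi.smul_apply, h.S, smul_neg],
    fun M => by simp only [Pi.smul_apply, h.E],
    fun M => by
      have h1 := h.U M
      simp only [Pi.smul_apply, smul_eq_mul]
      linear_combination c * h1⟩

theorem WR.neg (h : WR v) : WR (-v) := by
  have := h.smul (-1)
  rwa [neg_one_smul] at this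

theorem WR.sub (h : WR v) (h' : WR v') : WR (v - v') := by
  rw [sub_eq_add_neg]
  exact h.add h'.neg

theorem WR.Rt (k : Mat) (h : WR v) : WR (Rt k v) :=
  ⟨fun M => by simp only [LO.Rt, mul_assoc]; exact h.S _,
    fun M => by simp only [LO.Rt, mul_assoc]; exact h.E _,
    fun M => by
      have h1 := h.U (M * k)
      simp only [LO.Rt, mul_assoc] at h1 ⊢
      exact h1⟩

theorem WR.Xd (i : Fin 3) (h : WR v) : WR (Xd i v) := by
  rw [Xd_eq]
  exact (h.Rt _).sub h

theorem WR.foldr (l : List (Fin 3)) (h : WR v) : WR (l.foldr LO.Xd v) := by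
  induction l with
  | nil => exact h
  | cons i l ih => exact ih.Xd i

/-! ### Hecke operators -/

theorem TM_add (L : List Mat) (v v' : Mat → ZMod 3) : TM L (v + v') = TM L v + TM L v' := by
  funext M
  simp only [TM, Pi.add_apply, List.sum_map_add]

theorem TM_smul (L : List Mat) (c : ZMod 3) (v : Mat → ZMod 3) : TM L (c • v) = c • TM L v := by
  funext M
  simp only [TM, Pi.smul_apply, smul_eq_mul, List.sum_map_mul_left]

theorem TM_neg (L : List Mat) (v : Mat → ZMod 3) : TM L (-v) = -TM L v := by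
  have := TM_smul L (-1) v
  rwa [neg_one_smul, neg_one_smul] at this

theorem TM_sub (L : List Mat) (v v' : Mat → ZMod 3) : TM L (v - v') = TM L v - TM L v' := by
  rw [sub_eq_add_neg, TM_add, TM_neg, sub_eq_add_neg]

theorem TM_zero (L : List Mat) : TM L 0 = 0 := by
  funext M
  simp [TM]

theorem TM_Rt (L : List Mat) (k : Mat) (v : Mat → ZMod 3) : TM L (Rt k v) = Rt k (TM L v) := by
  funext M
  simp only [TM, Rt, mul_assoc]

theorem TM_Xd (L : List Mat) (i : Fin 3) (v : Mat → ZMod 3) : TM L (Xd i v) = Xd i (TM L v) := by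
  rw [Xd_eq, Xd_eq, TM_sub, TM_Rt]

theorem TM_foldr (L : List Mat) (l : List (Fin 3)) (v : Mat → ZMod 3) :
    TM L (l.foldr Xd v) = l.foldr Xd (TM L v) := by
  induction l with
  | nil => rfl
  | cons i l ih => rw [List.foldr_cons, TM_Xd, ih, List.foldr_cons]

theorem Lop_eq (v : Mat → ZMod 3) : Lop v = TM L7 v - (2 : ZMod 3) • v := rfl

theorem Lop_add (v v' : Mat → ZMod 3) : Lop (v + v') = Lop v + Lop v' := by
  simp only [Lop_eq, TM_add, smul_add]
  abel

theorem Lop_sub (v v' : Mat → ZMod 3) : Lop (v - v') = Lop v - Lop v' := by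
  simp only [Lop_eq, TM_sub, smul_sub]
  abel

theorem Lop_neg (v : Mat → ZMod 3) : Lop (-v) = -Lop v := by
  simp only [Lop_eq, TM_neg, smul_neg]
  abel

theorem Lop_smul (c : ZMod 3) (v : Mat → ZMod 3) : Lop (c • v) = c • Lop v := by
  simp only [Lop_eq, TM_smul, smul_sub]
  rw [smul_comm]

theorem Lop_zero : Lop 0 = 0 := by
  rw [Lop_eq, TM_zero, smul_zero, sub_zero]

theorem Lop_Rt (k : Mat) (v : Mat → ZMod 3) : Lop (Rt k v) = Rt k (Lop v) := by
  simp only [Lop_eq, TM_Rt, Rt_sub, Rt_smul]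

theorem Lop_Xd (i : Fin 3) (v : Mat → ZMod 3) : Lop (Xd i v) = Xd i (Lop v) := by
  rw [Xd_eq, Xd_eq, Lop_sub, Lop_Rt]

theorem Lop_foldr (l : List (Fin 3)) (v : Mat → ZMod 3) :
    Lop (l.foldr Xd v) = l.foldr Xd (Lop v) := by
  induction l with
  | nil => rfl
  | cons i l ih => rw [List.foldr_cons, Lop_Xd, ih, List.foldr_cons]

theorem MF.TM (L : List Mat) (h : MF m v) : MF m (TM L v) := by
  refine ⟨fun M N => ?_, fun c M hc => ?_, fun M hM => ?_⟩
  · simp only [LO.TM, mul_add, mul_smul_comm, h.per]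
  · simp only [LO.TM, mul_smul_comm, h.scal c _ hc]
  · simp only [LO.TM]
    apply List.sum_eq_zero
    intro x hx
    obtain ⟨N, -, rfl⟩ := List.mem_map.1 hx
    apply h.supp
    rw [Matrix.det_mul]
    exact hM.mul_left _

theorem MF.Lop (h : MF m v) : MF m (Lop v) := by
  rw [Lop_eq]
  exact (h.TM L7).sub (h.smul 2)

theorem KK_zero (m : ℕ) : KK m 0 := ⟨MF_zero m, WR_zero, TM_zero L2⟩

theorem KK.add (h : KK m v) (h' : KK m v') : KK m (v + v') :=
  ⟨h.mf.add h'.mf, h.wr.add h'.wr, by rw [TM_add, h.T2, h'.T2, add_zero]⟩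

theorem KK.neg (h : KK m v) : KK m (-v) :=
  ⟨h.mf.neg, h.wr.neg, by rw [TM_neg, h.T2, neg_zero]⟩

theorem KK.sub (h : KK m v) (h' : KK m v') : KK m (v - v') := by
  rw [sub_eq_add_neg]
  exact h.add h'.neg

theorem KK.smul (c : ZMod 3) (h : KK m v) : KK m (c • v) :=
  ⟨h.mf.smul c, h.wr.smul c, by rw [TM_smul, h.T2, smul_zero]⟩

theorem KK.Rt (k : Mat) (h : KK m v) : KK m (Rt k v) :=
  ⟨h.mf.Rt k, h.wr.Rt k, by rw [TM_Rt, h.T2, Rt_zero]⟩

theorem KK.Xd (i : Fin 3) (h : KK m v) : KK m (Xd i v) := by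
  rw [Xd_eq]
  exact (h.Rt _).sub h

theorem KK.foldr (l : List (Fin 3)) (h : KK m v) : KK m (l.foldr LO.Xd v) := by
  induction l with
  | nil => exact h
  | cons i l ih => exact ih.Xd i

theorem KK.mono {m m' : ℕ} (hm : m ≤ m') (h : KK m v) : KK m' v := ⟨h.mf.mono hm, h.wr, h.T2⟩

/-! ### Coordinates and symbols -/

theorem ac_add (i : Fin 3) (v v' : Mat → ZMod 3) : ac i (v + v') = ac i v + ac i v' := by
  fin_cases i <;> simp [ac] <;> ring

theorem ac_smul (i : Fin 3) (c : ZMod 3) (v : Mat → ZMod 3) : ac i (c • v) = c * ac i v := by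
  fin_cases i <;> simp [ac] <;> ring

theorem ac_neg (i : Fin 3) (v : Mat → ZMod 3) : ac i (-v) = -ac i v := by
  fin_cases i <;> simp [ac] <;> ring

theorem ac_sub (i : Fin 3) (v v' : Mat → ZMod 3) : ac i (v - v') = ac i v - ac i v' := by
  rw [sub_eq_add_neg, ac_add, ac_neg, sub_eq_add_neg]

theorem ac_zero (i : Fin 3) : ac i 0 = 0 := by
  fin_cases i <;> simp [ac]

theorem sym_cons (v : Mat → ZMod 3) (i : Fin 3) (l : List (Fin 3)) :
    sym v (i :: l) = ac i (l.foldr Xd v) := rfl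

theorem sym_add (v v' : Mat → ZMod 3) (l : List (Fin 3)) :
    sym (v + v') l = sym v l + sym v' l := by
  cases l with
  | nil => simp [sym]
  | cons i l => simp only [sym_cons, foldr_add, ac_add]

theorem sym_neg (v : Mat → ZMod 3) (l : List (Fin 3)) : sym (-v) l = -sym v l := by
  cases l with
  | nil => simp [sym]
  | cons i l => simp only [sym_cons, foldr_neg, ac_neg]

theorem sym_sub (v v' : Mat → ZMod 3) (l : List (Fin 3)) :
    sym (v - v') l = sym v l - sym v' l := by
  rw [sub_eq_add_neg, sym_add, sym_neg, sub_eq_add_neg]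

theorem sym_smul (c : ZMod 3) (v : Mat → ZMod 3) (l : List (Fin 3)) :
    sym (c • v) l = c * sym v l := by
  cases l with
  | nil => simp [sym]
  | cons i l => simp only [sym_cons, foldr_smul, ac_smul]

theorem sym_zero (l : List (Fin 3)) : sym 0 l = 0 := by
  cases l with
  | nil => rfl
  | cons i l => rw [sym_cons, foldr_zero, ac_zero]

theorem sym_foldr (v : Mat → ZMod 3) (i : Fin 3) (l l' : List (Fin 3)) :
    sym (l'.foldr Xd v) (i :: l) = sym v (i :: (l ++ l')) := by
  rw [sym_cons, sym_cons, List.foldr_append]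

theorem sym_Xd (v : Mat → ZMod 3) (i j : Fin 3) (l : List (Fin 3)) :
    sym (Xd j v) (i :: l) = sym v (i :: (l ++ [j])) := by
  rw [← sym_foldr]
  rfl

/-- Symbols of length greater than the degree vanish. -/
theorem sym_eq_zero (h : Fil d v) (l : List (Fin 3)) (hl : d < l.length) : sym v l = 0 := by
  cases l with
  | nil => rfl
  | cons i l =>
    rw [sym_cons]
    have h1 : l.foldr Xd v = 0 := by
      have h2 : Fil l.length v := Fil_mono (by simpa [Nat.lt_succ_iff] using hl) h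
      exact Fil_iff.1 h2 l rfl
    rw [h1, ac_zero]

/-! ### Functions of forms -/

theorem Tor.add (h : Tor v) (h' : Tor v') : Tor (v + v') :=
  ⟨by rw [Rt_add, h.r, h'.r], by rw [Xd_add, h.g, h'.g, add_zero],
    by rw [Rt_add, h.E, h'.E, neg_add]⟩

theorem Tor.smul (c : ZMod 3) (h : Tor v) : Tor (c • v) :=
  ⟨by rw [Rt_smul, h.r], by rw [Xd_smul, h.g, smul_zero], by rw [Rt_smul, h.E, smul_neg]⟩

theorem Tor.neg (h : Tor v) : Tor (-v) :=
  ⟨by rw [Rt_neg, h.r], by rw [Xd_neg, h.g, neg_zero], by rw [Rt_neg, h.E]⟩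

theorem Tor.sub (h : Tor v) (h' : Tor v') : Tor (v - v') := by
  rw [sub_eq_add_neg]
  exact h.add h'.neg

end right

end LO

end Pool.Agent.Lib.MP_7c5fb9_nt
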