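import Mathlib
import Pool.Agent.Lib.MP_7c5fb9_nt.LO.Stmts

set_option autoImplicit false

/-!
The ring of integers and the discriminant of a quadratic field of discriminant `1` modulo `4`.
-/

namespace Pool.Agent.Lib.MP_7c5fb9_nt

namespace LO

open NumberField Module

namespace DiscrAux

variable {K : Type} [Field K] [NumberField K] {s : K} {d : ℤ}

theorem not_rat (hs : s ^ 2 = (d : K)) (hsf : Squarefree d.natAbs) (h1 : 1 < d.natAbs) (r : ℚ) :
    (r : K) ≠ s := by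
  intro h
  have h2 : r ^ 2 = (d : ℚ) := by
    have : ((r ^ 2 : ℚ) : K) = ((d : ℚ) : K) := by
      push_cast
      rw [h, hs]
    exact_mod_cast this
  have h3 : IsIntegral ℤ r := by
    refine IsIntegral.of_pow (n := 2) (by norm_num) ?_
    rw [h2]
    exact isIntegral_algebraMap (R := ℤ) (A := ℚ)
  obtain ⟨n, hn⟩ := IsIntegrallyClosed.isIntegral_iff.mp h3
  have hn' : (n : ℚ) = r := hn
  have h4 : n ^ 2 = d := by
    have : ((n ^ 2 : ℤ) : ℚ) = (d : ℚ) := by
      push_cast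
      rw [hn', h2]
    exact_mod_cast this
  have h5 : d.natAbs = n.natAbs * n.natAbs := by
    rw [← h4, Int.natAbs_pow, pow_two]
  have h6 : IsUnit n.natAbs := hsf n.natAbs ⟨1, by rw [h5, mul_one]⟩
  rw [Nat.isUnit_iff] at h6
  rw [h6] at h5
  omega

theorem ind (hs : s ^ 2 = (d : K)) (hsf : Squarefree d.natAbs) (h1 : 1 < d.natAbs) (a b : ℚ)
    (h : (a : K) + b * s = 0) : a = 0 ∧ b = 0 := by
  by_cases hb : b = 0
  · subst hb
    refine ⟨?_, rfl⟩
    rw [Rat.cast_zero, zero_mul, add_zero] at h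
    exact_mod_cast h
  · exfalso
    have hb' : (b : K) ≠ 0 := by exact_mod_cast hb
    refine not_rat hs hsf h1 (-a / b) ?_
    push_cast
    rw [div_eq_iff hb']
    linear_combination -h

theorem li (hs : s ^ 2 = (d : K)) (hsf : Squarefree d.natAbs) (h1 : 1 < d.natAbs) :
    LinearIndependent ℚ ![(1 : K), s] := by
  rw [LinearIndependent.pair_iff]
  intro a b hab
  apply ind hs hsf h1 a b
  rw [Algebra.smul_def, Algebra.smul_def, mul_one] at hab
  exact hab

theorem exists_basis (hF : Module.finrank ℚ K = 2) (hs : s ^ 2 = (d : K))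
    (hsf : Squarefree d.natAbs) (h1 : 1 < d.natAbs) :
    ∃ b : Basis (Fin 2) ℚ K, b 0 = 1 ∧ b 1 = s := by
  refine ⟨basisOfLinearIndependentOfCardEqFinrank (li hs hsf h1) (by rw [hF]; rfl), ?_, ?_⟩
  · simp
  · simp

theorem coords (hF : Module.finrank ℚ K = 2) (hs : s ^ 2 = (d : K))
    (hsf : Squarefree d.natAbs) (h1 : 1 < d.natAbs) (x : K) : ∃ a b : ℚ, x = a + b * s := by
  obtain ⟨b, hb0, hb1⟩ := exists_basis hF hs hsf h1
  refine ⟨b.repr x 0, b.repr x 1, ?_⟩
  have := b.sum_repr x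
  rw [Fin.sum_univ_two, hb0, hb1, Algebra.smul_def, Algebra.smul_def, mul_one] at this
  exact this.symm

theorem mul_bas (hs : s ^ 2 = (d : K)) (b : Basis (Fin 2) ℚ K) (hb0 : b 0 = 1) (hb1 : b 1 = s)
    (x y : ℚ) : ((x : K) + y * s) * b 0 = x • b 0 + y • b 1 ∧
      ((x : K) + y * s) * b 1 = (d * y : ℚ) • b 0 + x • b 1 := by
  rw [hb0, hb1]
  simp only [Algebra.smul_def, mul_one, eq_ratCast]
  refine ⟨trivial, ?_⟩
  push_cast
  linear_combination (y : K) * hs

theorem tr (hF : Module.finrank ℚ K = 2) (hs : s ^ 2 = (d : K))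
    (hsf : Squarefree d.natAbs) (h1 : 1 < d.natAbs) (x y : ℚ) :
    Algebra.trace ℚ K ((x : K) + y * s) = 2 * x := by
  obtain ⟨b, hb0, hb1⟩ := exists_basis hF hs hsf h1
  obtain ⟨e0, e1⟩ := mul_bas hs b hb0 hb1 x y
  rw [Algebra.trace_eq_matrix_trace b, Matrix.trace_fin_two,
    Algebra.leftMulMatrix_eq_repr_mul, Algebra.leftMulMatrix_eq_repr_mul, e0, e1]
  simp only [map_add, map_smul, Basis.repr_self]
  simp
  ring

theorem nrm (hF : Module.finrank ℚ K = 2) (hs : s ^ 2 = (d : K))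
    (hsf : Squarefree d.natAbs) (h1 : 1 < d.natAbs) (x y : ℚ) :
    Algebra.norm ℚ ((x : K) + y * s) = x ^ 2 - d * y ^ 2 := by
  obtain ⟨b, hb0, hb1⟩ := exists_basis hF hs hsf h1
  obtain ⟨e0, e1⟩ := mul_bas hs b hb0 hb1 x y
  rw [Algebra.norm_eq_matrix_det b, Matrix.det_fin_two,
    Algebra.leftMulMatrix_eq_repr_mul, Algebra.leftMulMatrix_eq_repr_mul,
    Algebra.leftMulMatrix_eq_repr_mul, Algebra.leftMulMatrix_eq_repr_mul, e0, e1]
  simp only [map_add, map_smul, Basis.repr_self]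
  simp
  ring

/-- Integral elements are half-integral combinations. -/
theorem int_coords (hF : Module.finrank ℚ K = 2) (hs : s ^ 2 = (d : K))
    (hsf : Squarefree d.natAbs) (h1 : 1 < d.natAbs) (h4 : d % 4 = 1) {z : K}
    (hz : IsIntegral ℤ z) : ∃ A B : ℤ, 2 * z = A + B * s ∧ (2 : ℤ) ∣ A - B := by
  obtain ⟨a, b, rfl⟩ := coords hF hs hsf h1 z
  have hN := nrm hF hs hsf h1 a b
  have hT := tr hF hs hsf h1 a b
  have hd0 : d ≠ 0 := by
    rintro rfl
    simp at h1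
  have i1 : IsIntegral ℤ (2 * a) := by
    rw [← hT]
    exact Algebra.isIntegral_trace hz
  have i2 : IsIntegral ℤ (a ^ 2 - d * b ^ 2) := by
    rw [← hN]
    exact Algebra.isIntegral_norm ℚ hz
  obtain ⟨A, hA⟩ := IsIntegrallyClosed.isIntegral_iff.mp i1
  obtain ⟨N, hN'⟩ := IsIntegrallyClosed.isIntegral_iff.mp i2
  have hA' : (A : ℚ) = 2 * a := hA
  have hN'' : (N : ℚ) = a ^ 2 - d * b ^ 2 := hN'
  have i3 : IsIntegral ℤ ((d : ℚ) * (2 * b)) := by
    have e4 : ((d : ℚ) * (2 * b)) ^ 2 = ((d * (A ^ 2 - 4 * N) : ℤ) : ℚ) := by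
      push_cast
      rw [hN'', hA']
      ring
    refine IsIntegral.of_pow (n := 2) (by norm_num) ?_
    rw [e4]
    exact isIntegral_algebraMap (R := ℤ) (A := ℚ)
  obtain ⟨C, hC⟩ := IsIntegrallyClosed.isIntegral_iff.mp i3
  have hC' : (C : ℚ) = d * (2 * b) := hC
  have e5 : C ^ 2 = d * (A ^ 2 - 4 * N) := by
    have : ((C ^ 2 : ℤ) : ℚ) = ((d * (A ^ 2 - 4 * N) : ℤ) : ℚ) := by
      push_cast
      rw [hC', hN'', hA']
      ring
    exact_mod_cast this
  have hdz : Squarefree d := Int.squarefree_natAbs.mp hsf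
  have e6 : d ∣ C := (hdz.dvd_pow_iff_dvd two_ne_zero).mp ⟨_, e5⟩
  obtain ⟨B, rfl⟩ := e6
  have e7 : (B : ℚ) = 2 * b := by
    have hq' : (d : ℚ) ≠ 0 := by exact_mod_cast hd0
    apply mul_left_cancel₀ hq'
    rw [← hC']
    push_cast
    rfl
  refine ⟨A, B, ?_, ?_⟩
  · have e8 : ((A : ℚ) : K) = ((2 * a : ℚ) : K) := by rw [hA']
    have e9 : ((B : ℚ) : K) = ((2 * b : ℚ) : K) := by rw [e7]
    push_cast at e8 e9
    rw [e8, e9]
    ring
  · have e10 : d * B ^ 2 = A ^ 2 - 4 * N := by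
      apply mul_left_cancel₀ hd0
      linear_combination e5
    have e11 : (4 : ℤ) ∣ A ^ 2 - B ^ 2 := by
      obtain ⟨c, hc⟩ : (4 : ℤ) ∣ d - 1 := by omega
      refine ⟨c * B ^ 2 + N, ?_⟩
      have : d = 1 + 4 * c := by omega
      subst this
      linear_combination -e10
    have e12 : (2 : ℤ) ∣ (A - B) * (A + B) := by
      have : (A - B) * (A + B) = A ^ 2 - B ^ 2 := by ring
      rw [this]
      exact (by norm_num : (2 : ℤ) ∣ 4).trans e11
    rcases (Int.prime_two.dvd_mul.mp e12) with h | h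
    · exact h
    · omega

theorem exists_om (hs : s ^ 2 = (d : K)) (h4 : d % 4 = 1) :
    ∃ ω : 𝓞 K, 2 * (ω : K) = 1 + s := by
  obtain ⟨c, hc⟩ : (4 : ℤ) ∣ d - 1 := by omega
  have hd : d = 1 + 4 * c := by omega
  have h2 : (2 : K) ≠ 0 := two_ne_zero
  have hi : IsIntegral ℤ ((1 + s) / 2) := by
    refine ⟨Polynomial.X ^ 2 - Polynomial.X - Polynomial.C c, ?_, ?_⟩
    · monicity!
    · have : ((1 + s) / 2) ^ 2 - (1 + s) / 2 - (c : K) = 0 := by
        have h5 : s ^ 2 = 1 + 4 * (c : K) := by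
          rw [hs, hd]
          push_cast
          ring
        field_simp
        linear_combination h5
      simp only [Polynomial.eval₂_sub, Polynomial.eval₂_pow, Polynomial.eval₂_X,
        Polynomial.eval₂_C]
      simpa using this
  exact ⟨⟨(1 + s) / 2, hi⟩, by
    show 2 * ((1 + s) / 2) = 1 + s
    field_simp⟩

/-- The ring of integers has the basis `1, ω`. -/
theorem exists_ibasis (hF : Module.finrank ℚ K = 2) (hs : s ^ 2 = (d : K))
    (hsf : Squarefree d.natAbs) (h1 : 1 < d.natAbs) (h4 : d % 4 = 1) :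
    ∃ (ω : 𝓞 K) (b : Basis (Fin 2) ℤ (𝓞 K)), 2 * (ω : K) = 1 + s ∧ b 0 = 1 ∧ b 1 = ω := by
  obtain ⟨ω, hω⟩ := exists_om hs h4
  have hli : LinearIndependent ℤ ![(1 : 𝓞 K), ω] := by
    rw [LinearIndependent.pair_iff]
    intro m n hmn
    have e : ((m : ℤ) : K) + n * (ω : K) = 0 := by
      have := congrArg (fun x : 𝓞 K => (x : K)) hmn
      simpa using this
    have e2 : (((2 * m + n : ℤ) : ℚ) : K) + ((n : ℤ) : ℚ) * s = 0 := by
      push_cast
      linear_combination 2 * e - (n : K) * hω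
    obtain ⟨f1, f2⟩ := ind hs hsf h1 _ _ e2
    have f3 : 2 * m + n = 0 := by exact_mod_cast f1
    have f4 : n = 0 := by exact_mod_cast f2
    exact ⟨by omega, f4⟩
  have hsp : ⊤ ≤ Submodule.span ℤ (Set.range ![(1 : 𝓞 K), ω]) := by
    intro x _
    obtain ⟨A, B, hAB, c, hc⟩ := int_coords hF hs hsf h1 h4 x.isIntegral_coe
    have e : x = c • (1 : 𝓞 K) + B • ω := by
      apply RingOfIntegers.ext
      have h2 : (2 : K) ≠ 0 := two_ne_zero
      have hA : (A : K) = B + 2 * c := by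
        have : A = B + 2 * c := by omega
        rw [this]
        push_cast
        ring
      simp only [map_add, zsmul_eq_mul, map_mul, map_intCast, mul_one]
      apply mul_left_cancel₀ h2
      rw [hAB, hA]
      linear_combination -(B : K) * hω
    rw [e]
    exact Submodule.add_mem _
      (Submodule.smul_mem _ _ (Submodule.subset_span ⟨0, rfl⟩))
      (Submodule.smul_mem _ _ (Submodule.subset_span ⟨1, rfl⟩))
  refine ⟨ω, Basis.mk hli hsp, hω, ?_, ?_⟩
  · rw [Basis.mk_apply]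
    rfl
  · rw [Basis.mk_apply]
    rfl

theorem om_sq (hs : s ^ 2 = (d : K)) (h4 : d % 4 = 1) {ω : 𝓞 K} (hω : 2 * (ω : K) = 1 + s) :
    ω * ω = ω + (((d - 1) / 4 : ℤ) : 𝓞 K) := by
  obtain ⟨c, hc⟩ : (4 : ℤ) ∣ d - 1 := by omega
  have hd : d = 1 + 4 * c := by omega
  have e : (d - 1) / 4 = c := by omega
  rw [e]
  apply RingOfIntegers.ext
  have h2 : (4 : K) ≠ 0 := by norm_num
  simp only [map_add, map_mul, map_intCast]
  apply mul_left_cancel₀ h2
  have h5 : s ^ 2 = 1 + 4 * (c : K) := by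
    rw [hs, hd]
    push_cast
    ring
  linear_combination h5 + (2 * (ω : K) + 1 + s - 2) * hω

theorem tr_int (hF : Module.finrank ℚ K = 2) (m : ℤ) :
    Algebra.trace ℤ (𝓞 K) ((m : ℤ) : 𝓞 K) = 2 * m := by
  have hr : Module.finrank ℤ (𝓞 K) = 2 := by rw [RingOfIntegers.rank, hF]
  have := Algebra.trace_algebraMap (S := 𝓞 K) (m : ℤ)
  rw [hr] at this
  simpa using this

theorem tr_om (hF : Module.finrank ℚ K = 2) (hs : s ^ 2 = (d : K))
    (hsf : Squarefree d.natAbs) (h1 : 1 < d.natAbs) {ω : 𝓞 K} (hω : 2 * (ω : K) = 1 + s) :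
    Algebra.trace ℤ (𝓞 K) ω = 1 := by
  have e1 : (ω : K) = ((1 / 2 : ℚ) : K) + ((1 / 2 : ℚ) : K) * s := by
    have h2 : (2 : K) ≠ 0 := two_ne_zero
    apply mul_left_cancel₀ h2
    rw [hω]
    push_cast
    field_simp
  have e2 := tr hF hs hsf h1 (1 / 2) (1 / 2)
  rw [← e1] at e2
  have e3 := Algebra.coe_trace_int (K := K) ω
  rw [e2] at e3
  have e4 : ((Algebra.trace ℤ (𝓞 K) ω : ℤ) : ℚ) = 1 := by
    rw [e3]
    norm_num
  exact_mod_cast e4

end DiscrAux

open DiscrAux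

theorem stDiscr : StDiscr := by
  intro K _ _ s d hF hs hsf h1 h4
  obtain ⟨ω, b, hω, hb0, hb1⟩ := exists_ibasis hF hs hsf h1 h4
  rw [← discr_eq_discr K b, Algebra.discr_def, Matrix.det_fin_two]
  simp only [Algebra.traceMatrix_apply, Algebra.traceForm_apply]
  have t1 : Algebra.trace ℤ (𝓞 K) (1 : 𝓞 K) = 2 := by
    have := tr_int hF 1
    simpa using this
  rw [hb0, hb1, one_mul, one_mul, mul_one, t1, tr_om hF hs hsf h1 hω, om_sq hs h4 hω, map_add,
    tr_om hF hs hsf h1 hω, tr_int hF]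
  omega

end LO

end Pool.Agent.Lib.MP_7c5fb9_nt
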