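import Pool.Agent.Lib.MP_7c5fb9_nt.LO.Stmts

/-!
# LEVEL ONE: forms attached to the ideal classes of a real quadratic field
-/

set_option autoImplicit false

open NumberField nonZeroDivisors

namespace Pool.Agent.Lib.MP_7c5fb9_nt

namespace LO

namespace FormAux

section

variable {K : Type} [Field K] [NumberField K]

/-- `I` is generated by `x` and `y` as an abelian group. -/
def Gen (I : Ideal (𝓞 K)) (x y : 𝓞 K) : Prop :=
  ∀ z : 𝓞 K, z ∈ I ↔ ∃ m n : ℤ, z = (m : 𝓞 K) * x + (n : 𝓞 K) * y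

/-- The norm form. -/
def NF (I : Ideal (𝓞 K)) (x y : 𝓞 K) (Q : Frm) : Prop :=
  ∀ m n : ℤ, Algebra.norm ℤ ((m : 𝓞 K) * x + (n : 𝓞 K) * y) =
    (Ideal.absNorm I : ℤ) * (Q 0 * m ^ 2 + Q 1 * (m * n) + Q 2 * n ^ 2)

/-- Two embeddings describe norms and traces. -/
theorem exists_emb (hK : Module.finrank ℚ K = 2) : ∃ s t : 𝓞 K →+* ℂ,
    (∀ z : 𝓞 K, ((Algebra.norm ℤ z : ℤ) : ℂ) = s z * t z) ∧
    ∀ z : 𝓞 K, ((Algebra.trace ℤ (𝓞 K) z : ℤ) : ℂ) = s z + t z := by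
  have h1 : Fintype.card (K →ₐ[ℚ] ℂ) = 2 := by rw [AlgHom.card, hK]
  let e : Fin 2 ≃ (K →ₐ[ℚ] ℂ) := (Fintype.equivFinOfCardEq h1).symm
  refine ⟨((e 0 : K →ₐ[ℚ] ℂ) : K →+* ℂ).comp (algebraMap (𝓞 K) K),
    ((e 1 : K →ₐ[ℚ] ℂ) : K →+* ℂ).comp (algebraMap (𝓞 K) K), fun z => ?_, fun z => ?_⟩
  · have h2 := Algebra.norm_eq_prod_embeddings ℚ ℂ (z : K)
    rw [← e.prod_comp, Fin.prod_univ_two, ← Algebra.coe_norm_int] at h2
    rw [← Rat.cast_intCast]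
    exact h2
  · have h2 := trace_eq_sum_embeddings (K := ℚ) ℂ (x := (z : K))
    rw [← e.sum_comp, Fin.sum_univ_two, ← Algebra.coe_trace_int] at h2
    rw [← Rat.cast_intCast]
    exact h2

omit [NumberField K] in
theorem discr_pair (x y : 𝓞 K) : Algebra.discr ℤ ![x, y] =
    Algebra.trace ℤ (𝓞 K) (x * x) * Algebra.trace ℤ (𝓞 K) (y * y) -
      Algebra.trace ℤ (𝓞 K) (x * y) * Algebra.trace ℤ (𝓞 K) (x * y) := by
  rw [Algebra.discr_def, Matrix.det_fin_two]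
  simp only [Algebra.traceMatrix_apply, Algebra.traceForm_apply, Matrix.cons_val_zero,
    Matrix.cons_val_one]
  rw [mul_comm y x]

/-- The discriminant of the norm form. -/
theorem discr_form (hK : Module.finrank ℚ K = 2) (x y : 𝓞 K) (A B C : ℤ)
    (h : ∀ m n : ℤ, Algebra.norm ℤ ((m : 𝓞 K) * x + (n : 𝓞 K) * y) =
      A * m ^ 2 + B * (m * n) + C * n ^ 2) :
    B ^ 2 - 4 * A * C = Algebra.discr ℤ ![x, y] := by
  obtain ⟨s, t, hN, hT⟩ := exists_emb hK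
  rw [discr_pair]
  have hc : ((B ^ 2 - 4 * A * C : ℤ) : ℂ) =
      ((Algebra.trace ℤ (𝓞 K) (x * x) * Algebra.trace ℤ (𝓞 K) (y * y) -
        Algebra.trace ℤ (𝓞 K) (x * y) * Algebra.trace ℤ (𝓞 K) (x * y) : ℤ) : ℂ) := by
    have hA : (A : ℂ) = s x * t x := by
      have h1 := h 1 0
      simp only [Int.cast_one, Int.cast_zero, one_mul, zero_mul, add_zero, one_pow, mul_one,
        mul_zero] at h1
      rw [← hN, h1]
      norm_num
    have hC : (C : ℂ) = s y * t y := by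
      have h1 := h 0 1
      simp only [Int.cast_one, Int.cast_zero, one_mul, zero_mul, zero_add, one_pow, mul_one,
        mul_zero] at h1
      rw [← hN, h1]
      norm_num
    have hB : (A : ℂ) + B + C = (s x + s y) * (t x + t y) := by
      have h1 := h 1 1
      simp only [Int.cast_one, one_mul, one_pow, mul_one] at h1
      have h2 := hN (x + y)
      rw [h1] at h2
      push_cast at h2
      rw [h2, map_add, map_add]
    have hB' : (B : ℂ) = s x * t y + s y * t x := by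
      linear_combination hB - hA - hC
    push_cast
    rw [hT, hT, hT, map_mul, map_mul, map_mul, map_mul, map_mul, map_mul, hA, hB', hC]
    ring
  exact_mod_cast hc

/-- The norm of a combination. -/
theorem norm_comb (hK : Module.finrank ℚ K = 2) (x y : 𝓞 K) (m n : ℤ) :
    Algebra.norm ℤ ((m : 𝓞 K) * x + (n : 𝓞 K) * y) =
      Algebra.norm ℤ x * m ^ 2 +
        (Algebra.norm ℤ (x + y) - Algebra.norm ℤ x - Algebra.norm ℤ y) * (m * n) +
        Algebra.norm ℤ y * n ^ 2 := by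
  obtain ⟨s, t, hN, -⟩ := exists_emb hK
  have h : ((Algebra.norm ℤ ((m : 𝓞 K) * x + (n : 𝓞 K) * y) : ℤ) : ℂ) =
      ((Algebra.norm ℤ x * m ^ 2 +
        (Algebra.norm ℤ (x + y) - Algebra.norm ℤ x - Algebra.norm ℤ y) * (m * n) +
        Algebra.norm ℤ y * n ^ 2 : ℤ) : ℂ) := by
    push_cast
    rw [hN, hN, hN, hN]
    simp only [map_add, map_mul, map_intCast]
    ring
  exact_mod_cast h

/-- A basis of the ring of integers indexed by `Fin 2`. -/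
theorem exists_basis (hK : Module.finrank ℚ K = 2) : Nonempty (Module.Basis (Fin 2) ℤ (𝓞 K)) :=
  ⟨Module.finBasisOfFinrankEq ℤ (𝓞 K) (by rw [RingOfIntegers.rank, hK])⟩

/-- The discriminant of a family in terms of the coordinates. -/
theorem discr_coord {S : Type} [CommRing S] (b v : Fin 2 → S) (P : Matrix (Fin 2) (Fin 2) ℤ)
    (h : ∀ j, v j = ∑ i, b i * (P i j : S)) :
    Algebra.discr ℤ v = P.det ^ 2 * Algebra.discr ℤ b := by
  rw [← Algebra.discr_of_matrix_vecMul]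
  congr 1
  funext j
  rw [h j]
  rfl

omit [NumberField K] in
theorem basis_gen {I : Ideal (𝓞 K)} (c : Module.Basis (Fin 2) ℤ I) :
    Gen I (c 0 : 𝓞 K) (c 1 : 𝓞 K) := by
  intro z
  constructor
  · intro hz
    have h1 := c.sum_repr ⟨z, hz⟩
    rw [Fin.sum_univ_two] at h1
    refine ⟨c.repr ⟨z, hz⟩ 0, c.repr ⟨z, hz⟩ 1, ?_⟩
    have h2 := congrArg (Subtype.val) h1
    have h3 : z = c.repr ⟨z, hz⟩ 0 • (c 0 : 𝓞 K) + c.repr ⟨z, hz⟩ 1 • (c 1 : 𝓞 K) := h2.symm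
    rwa [zsmul_eq_mul, zsmul_eq_mul] at h3
  · rintro ⟨m, n, rfl⟩
    exact I.add_mem (I.mul_mem_left _ (c 0).2) (I.mul_mem_left _ (c 1).2)

/-- The discriminant of a pair of generators of an ideal. -/
theorem discr_gen (hK : Module.finrank ℚ K = 2) {I : Ideal (𝓞 K)} (hI : I ≠ ⊥) {x y : 𝓞 K}
    (h : Gen I x y) :
    Algebra.discr ℤ ![x, y] = (Ideal.absNorm I : ℤ) ^ 2 * discr K := by
  obtain ⟨b⟩ := exists_basis hK
  let c : Module.Basis (Fin 2) ℤ I := Ideal.selfBasis b I hI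
  have hc := basis_gen c
  have h0 := Ideal.natAbs_det_basis_change b I c
  -- the discriminant of `c`
  have h1 : Algebra.discr ℤ ![(c 0 : 𝓞 K), (c 1 : 𝓞 K)] =
      (Ideal.absNorm I : ℤ) ^ 2 * discr K := by
    rw [discr_coord b ![(c 0 : 𝓞 K), (c 1 : 𝓞 K)] (b.toMatrix (Subtype.val ∘ c)),
      NumberField.discr_eq_discr K b, ← Module.Basis.det_apply, ← Int.natAbs_sq, h0]
    intro j
    have h2 := b.sum_toMatrix_smul_self (Subtype.val ∘ c) j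
    have h3 : ![(c 0 : 𝓞 K), (c 1 : 𝓞 K)] j = (Subtype.val ∘ c) j := by
      fin_cases j <;> rfl
    rw [h3, ← h2]
    refine Finset.sum_congr rfl fun i _ => ?_
    rw [zsmul_eq_mul, mul_comm]
  -- comparison
  have hx : x ∈ I := (h x).2 ⟨1, 0, by simp⟩
  have hy : y ∈ I := (h y).2 ⟨0, 1, by simp⟩
  obtain ⟨a₁, a₂, ha⟩ := (hc x).1 hx
  obtain ⟨b₁, b₂, hb⟩ := (hc y).1 hy
  obtain ⟨d₁, d₂, hd⟩ := (h (c 0 : 𝓞 K)).1 (c 0).2
  obtain ⟨e₁, e₂, he⟩ := (h (c 1 : 𝓞 K)).1 (c 1).2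
  have h2 := discr_coord ![(c 0 : 𝓞 K), (c 1 : 𝓞 K)] ![x, y] !![a₁, b₁; a₂, b₂] (by
    intro j
    fin_cases j
    · simp only [Fin.sum_univ_two]
      change x = (c 0 : 𝓞 K) * (a₁ : 𝓞 K) + (c 1 : 𝓞 K) * (a₂ : 𝓞 K)
      rw [ha]
      ring
    · simp only [Fin.sum_univ_two]
      change y = (c 0 : 𝓞 K) * (b₁ : 𝓞 K) + (c 1 : 𝓞 K) * (b₂ : 𝓞 K)
      rw [hb]
      ring)
  have h3 := discr_coord ![x, y] ![(c 0 : 𝓞 K), (c 1 : 𝓞 K)] !![d₁, e₁; d₂, e₂] (by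
    intro j
    fin_cases j
    · simp only [Fin.sum_univ_two]
      change (c 0 : 𝓞 K) = x * (d₁ : 𝓞 K) + y * (d₂ : 𝓞 K)
      rw [hd]
      ring
    · simp only [Fin.sum_univ_two]
      change (c 1 : 𝓞 K) = x * (e₁ : 𝓞 K) + y * (e₂ : 𝓞 K)
      rw [he]
      ring)
  have h4 : (Ideal.absNorm I : ℤ) ^ 2 * discr K ≠ 0 := by
    refine mul_ne_zero (pow_ne_zero _ ?_) (NumberField.discr_ne_zero K)
    have h5 : Ideal.absNorm I ≠ 0 := fun h6 => hI (Ideal.absNorm_eq_zero_iff.1 h6)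
    exact_mod_cast h5
  rw [h1] at h2 h3
  set P := (!![a₁, b₁; a₂, b₂] : Matrix (Fin 2) (Fin 2) ℤ).det
  set R := (!![d₁, e₁; d₂, e₂] : Matrix (Fin 2) (Fin 2) ℤ).det
  rw [h2] at h3
  have h5 : (R * P) ^ 2 = 1 := by
    apply mul_right_cancel₀ h4
    rw [one_mul]
    calc (R * P) ^ 2 * ((Ideal.absNorm I : ℤ) ^ 2 * discr K) =
        R ^ 2 * (P ^ 2 * ((Ideal.absNorm I : ℤ) ^ 2 * discr K)) := by ring
      _ = _ := h3.symm
  have h6 : P ^ 2 = 1 := by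
    have h7 : IsUnit (P ^ 2) := IsUnit.of_mul_eq_one (R ^ 2) (by rw [← h5]; ring)
    rcases Int.isUnit_iff.1 h7 with h8 | h8
    · exact h8
    · nlinarith [sq_nonneg P]
  rw [h2, h6, one_mul]

/-- The discriminant of an attached form. -/
theorem disc_eq (hK : Module.finrank ℚ K = 2) {I : Ideal (𝓞 K)} (hI : I ≠ ⊥) {x y : 𝓞 K}
    {Q : Frm} (h : Gen I x y) (hQ : NF I x y Q) : disc Q = discr K := by
  have h1 := discr_form hK x y (Ideal.absNorm I * Q 0) (Ideal.absNorm I * Q 1)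
    (Ideal.absNorm I * Q 2) (fun m n => by rw [hQ m n]; ring)
  rw [discr_gen hK hI h] at h1
  have h2 : ((Ideal.absNorm I : ℤ) ^ 2) ≠ 0 := by
    refine pow_ne_zero _ ?_
    have h5 : Ideal.absNorm I ≠ 0 := fun h6 => hI (Ideal.absNorm_eq_zero_iff.1 h6)
    exact_mod_cast h5
  apply mul_left_cancel₀ h2
  rw [← h1, disc]
  ring

/-- Forms exist. -/
theorem exists_form (hK : Module.finrank ℚ K = 2) {I : Ideal (𝓞 K)} (hI : I ≠ ⊥) :
    ∃ (x y : 𝓞 K) (Q : Frm), Gen I x y ∧ NF I x y Q ∧ Q 0 ≠ 0 := by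
  obtain ⟨b⟩ := exists_basis hK
  let c : Module.Basis (Fin 2) ℤ I := Ideal.selfBasis b I hI
  have hc := basis_gen c
  obtain ⟨A, hA⟩ := Ideal.absNorm_dvd_norm_of_mem (c 0).2
  obtain ⟨C, hC⟩ := Ideal.absNorm_dvd_norm_of_mem (c 1).2
  obtain ⟨S, hS⟩ := Ideal.absNorm_dvd_norm_of_mem (I.add_mem (c 0).2 (c 1).2)
  refine ⟨c 0, c 1, ![A, S - A - C, C], hc, ?_, ?_⟩
  · intro m n
    rw [norm_comb hK, hA, hC, hS]
    change _ = (Ideal.absNorm I : ℤ) * (A * m ^ 2 + (S - A - C) * (m * n) + C * n ^ 2)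
    ring
  · change A ≠ 0
    rintro rfl
    rw [mul_zero, Algebra.norm_eq_zero_iff] at hA
    exact c.ne_zero 0 (Subtype.ext hA)

/-- An element of negative norm. -/
theorem exists_neg (hK : Module.finrank ℚ K = 2) (hd : 0 < discr K) :
    ∃ β : 𝓞 K, Algebra.norm ℤ β < 0 := by
  obtain ⟨x, y, Q, h, hQ, hQ0⟩ := exists_form (I := (⊤ : Ideal (𝓞 K))) hK top_ne_bot
  have h1 := disc_eq hK top_ne_bot h hQ
  rcases lt_or_gt_of_ne hQ0 with h0 | h0
  · refine ⟨(1 : ℤ) * x + (0 : ℤ) * y, ?_⟩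
    rw [hQ 1 0, Ideal.absNorm_top]
    simpa using h0
  · refine ⟨((-Q 1 : ℤ) : 𝓞 K) * x + ((2 * Q 0 : ℤ) : 𝓞 K) * y, ?_⟩
    rw [hQ, Ideal.absNorm_top]
    have h2 : Q 0 * (-Q 1) ^ 2 + Q 1 * (-Q 1 * (2 * Q 0)) + Q 2 * (2 * Q 0) ^ 2 =
        -(Q 0 * disc Q) := by
      rw [disc]
      ring
    rw [h2, h1]
    push_cast
    nlinarith

theorem exists_formOf (hK : Module.finrank ℚ K = 2) (hd : 0 < discr K)
    (c : ClassGroup (𝓞 K)) : ∃ Q : Frm, FormOf c Q := by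
  obtain ⟨I, hI⟩ := ClassGroup.mk0_surjective c
  have hI0 : (I : Ideal (𝓞 K)) ≠ ⊥ := nonZeroDivisors.coe_ne_zero I
  obtain ⟨x, y, Q, h, hQ, hQ0⟩ := exists_form hK hI0
  rcases lt_or_gt_of_ne hQ0 with h0 | h0
  swap
  · exact ⟨Q, h0, I, x, y, hI, h, hQ⟩
  obtain ⟨β, hβ⟩ := exists_neg hK hd
  have hβ0 : β ≠ 0 := by
    rintro rfl
    rw [Algebra.norm_zero] at hβ
    exact lt_irrefl _ hβ
  have hJ0 : Ideal.span {β} * (I : Ideal (𝓞 K)) ≠ ⊥ := by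
    rw [Ne, Ideal.mul_eq_bot, not_or, Ideal.span_singleton_eq_bot]
    exact ⟨hβ0, hI0⟩
  have hJ : Ideal.span {β} * (I : Ideal (𝓞 K)) ∈ (Ideal (𝓞 K))⁰ :=
    mem_nonZeroDivisors_of_ne_zero hJ0
  refine ⟨fun i => -Q i, by simpa using h0, ⟨_, hJ⟩, β * x, β * y, ?_, ?_, ?_⟩
  · rw [← hI, ClassGroup.mk0_eq_mk0_iff]
    refine ⟨1, β, one_ne_zero, hβ0, ?_⟩
    rw [Ideal.span_singleton_one, Ideal.top_mul]
  · intro z
    change z ∈ Ideal.span {β} * (I : Ideal (𝓞 K)) ↔ _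
    rw [Ideal.mem_span_singleton_mul]
    constructor
    · rintro ⟨w, hw, rfl⟩
      obtain ⟨m, n, rfl⟩ := (h w).1 hw
      exact ⟨m, n, by ring⟩
    · rintro ⟨m, n, rfl⟩
      exact ⟨_, (h _).2 ⟨m, n, rfl⟩, by ring⟩
  · intro m n
    have h1 : (m : 𝓞 K) * (β * x) + (n : 𝓞 K) * (β * y) =
        β * ((m : 𝓞 K) * x + (n : 𝓞 K) * y) := by ring
    have h2 : (Ideal.absNorm (Ideal.span {β} * (I : Ideal (𝓞 K))) : ℤ) =
        -Algebra.norm ℤ β * Ideal.absNorm (I : Ideal (𝓞 K)) := by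
      rw [map_mul, Ideal.absNorm_span_singleton, Nat.cast_mul, Int.natCast_natAbs,
        abs_of_neg hβ]
    change _ = (Ideal.absNorm (Ideal.span {β} * (I : Ideal (𝓞 K))) : ℤ) * _
    rw [h1, map_mul, hQ m n, h2]
    ring

end

end FormAux

open FormAux in
/-- (Form) the forms attached to ideal classes. -/
theorem stForm : StForm := by
  intro K _ _ hK hd
  refine ⟨⟨fun c => (exists_formOf hK hd c).choose, fun c => (exists_formOf hK hd c).choose_spec⟩,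
    ?_⟩
  rintro c Q ⟨-, I, x, y, -, h, hQ⟩
  exact disc_eq hK (nonZeroDivisors.coe_ne_zero I) h hQ

end LO

end Pool.Agent.Lib.MP_7c5fb9_nt
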