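import Pool.Agent.Lib.MP_7c5fb9_nt.LO.Stmts

set_option autoImplicit false

/-!
# Gauss sums of Jacobi symbols (MP_7c5fb9_nt, project LO, module Gauss)
-/

namespace Pool.Agent.Lib.MP_7c5fb9_nt

namespace LO

namespace Gauss

open Pool.Agent.Lib.MP_7c08ba_nt.RZ

/-- The statement for one odd number. -/
def GP (N : ℕ) : Prop :=
  ∃ τ : ℂ, τ ^ 2 = jacobiSym (-1) N * N ∧
    ∀ n : ℤ, ∑ a ∈ Finset.range N, (jacobiSym a N : ℂ) * ee ((a : ℂ) * n / N) =
      jacobiSym n N * τ

lemma ee_add (z w : ℂ) : ee (z + w) = ee z * ee w := by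
  unfold ee
  rw [← Complex.exp_add]
  congr 1
  ring

lemma ee_int (n : ℤ) : ee n = 1 := by
  unfold ee
  rw [Complex.exp_eq_one_iff]
  exact ⟨n, by ring⟩

lemma gp_one : GP 1 := by
  refine ⟨1, by simp, ?_⟩
  intro n
  simp [ee]

/-- The terms of the sum depend on `a` modulo `N` only. -/
lemma term_mod (N : ℕ) (hN : 0 < N) (n : ℤ) (a : ℕ) :
    (jacobiSym (a % N : ℕ) N : ℂ) * ee (((a % N : ℕ) : ℂ) * n / N) =
      (jacobiSym a N : ℂ) * ee ((a : ℂ) * n / N) := by
  have hN' : (N : ℂ) ≠ 0 := by exact_mod_cast hN.ne'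
  have h1 : jacobiSym ((a % N : ℕ) : ℤ) N = jacobiSym (a : ℤ) N := by
    rw [Int.natCast_mod, ← jacobiSym.mod_left]
  have h2 : ee ((a : ℂ) * n / N) = ee (((a % N : ℕ) : ℂ) * n / N) := by
    obtain ⟨q, hq⟩ : ∃ q : ℕ, a = a % N + N * q := ⟨a / N, (Nat.mod_add_div a N).symm⟩
    have h3 : ((a : ℂ) * n / N) = ((a % N : ℕ) : ℂ) * n / N + (((q : ℤ) * n : ℤ) : ℂ) := by
      have h4 : (a : ℂ) = ((a % N : ℕ) : ℂ) + N * (q : ℂ) := by
        exact_mod_cast hq
      rw [h4]
      push_cast
      field_simp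
    rw [h3, ee_add, ee_int, mul_one]
  rw [h1, h2]

lemma gp_mul (p M : ℕ) (hp : 0 < p) (hM : 0 < M) (h : Nat.Coprime p M) (h1 : GP p) (h2 : GP M) :
    GP (p * M) := by
  obtain ⟨τ₁, hτ₁, h1⟩ := h1
  obtain ⟨τ₂, hτ₂, h2⟩ := h2
  have hp' : (p : ℂ) ≠ 0 := by exact_mod_cast hp.ne'
  have hM' : (M : ℂ) ≠ 0 := by exact_mod_cast hM.ne'
  have : NeZero p := ⟨hp.ne'⟩
  have : NeZero M := ⟨hM.ne'⟩
  have hJ1 : ((jacobiSym M p : ℤ) : ℂ) ^ 2 = 1 := by
    have : jacobiSym (M : ℤ) p ^ 2 = 1 := by
      apply jacobiSym.sq_one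
      rw [Int.gcd_natCast_natCast]
      exact h.symm
    exact_mod_cast this
  have hJ2 : ((jacobiSym p M : ℤ) : ℂ) ^ 2 = 1 := by
    have : jacobiSym (p : ℤ) M ^ 2 = 1 := by
      apply jacobiSym.sq_one
      rw [Int.gcd_natCast_natCast]
      exact h
    exact_mod_cast this
  refine ⟨(jacobiSym M p : ℂ) * (jacobiSym p M : ℂ) * (τ₁ * τ₂), ?_, ?_⟩
  · rw [jacobiSym.mul_right]
    push_cast
    have : ((jacobiSym M p : ℂ) * (jacobiSym p M : ℂ) * (τ₁ * τ₂)) ^ 2 =
        (jacobiSym M p : ℂ) ^ 2 * (jacobiSym p M : ℂ) ^ 2 * (τ₁ ^ 2 * τ₂ ^ 2) := by ring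
    rw [this, hJ1, hJ2, hτ₁, hτ₂]
    ring
  · intro n
    -- the bijection
    have hinj : Set.InjOn (fun x : ℕ × ℕ => (M * x.1 + p * x.2) % (p * M))
        (Finset.range p ×ˢ Finset.range M : Finset (ℕ × ℕ)) := by
      rintro ⟨x, y⟩ hx ⟨x', y'⟩ hx' hxx
      simp only [Finset.coe_product, Finset.coe_range, Set.mem_prod, Set.mem_Iio] at hx hx'
      have hmod : M * x + p * y ≡ M * x' + p * y' [MOD p * M] := hxx
      have e1 : M * x ≡ M * x' [MOD p] := by
        have := hmod.of_mul_right M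
        have a1 : M * x + p * y ≡ M * x [MOD p] := by
          simp [Nat.ModEq]
        have a2 : M * x' + p * y' ≡ M * x' [MOD p] := by
          simp [Nat.ModEq]
        exact a1.symm.trans (this.trans a2)
      have e2 : p * y ≡ p * y' [MOD M] := by
        have := hmod.of_mul_left p
        have a1 : M * x + p * y ≡ p * y [MOD M] := by
          simp [Nat.ModEq]
        have a2 : M * x' + p * y' ≡ p * y' [MOD M] := by
          simp [Nat.ModEq]
        exact a1.symm.trans (this.trans a2)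
      have f1 : x ≡ x' [MOD p] := Nat.ModEq.cancel_left_of_coprime h e1
      have f2 : y ≡ y' [MOD M] := Nat.ModEq.cancel_left_of_coprime h.symm e2
      have g1 : x = x' := Nat.ModEq.eq_of_lt_of_lt f1 hx.1 hx'.1
      have g2 : y = y' := Nat.ModEq.eq_of_lt_of_lt f2 hx.2 hx'.2
      rw [g1, g2]
    have himg : (Finset.range p ×ˢ Finset.range M).image
        (fun x : ℕ × ℕ => (M * x.1 + p * x.2) % (p * M)) = Finset.range (p * M) := by
      apply Finset.eq_of_subset_of_card_le
      · intro a ha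
        rw [Finset.mem_image] at ha
        obtain ⟨x, -, rfl⟩ := ha
        rw [Finset.mem_range]
        exact Nat.mod_lt _ (Nat.mul_pos hp hM)
      · rw [Finset.card_image_of_injOn hinj, Finset.card_product, Finset.card_range,
          Finset.card_range, Finset.card_range]
    rw [← himg, Finset.sum_image hinj]
    have key : ∀ x ∈ Finset.range p ×ˢ Finset.range M,
        (jacobiSym (((M * x.1 + p * x.2) % (p * M) : ℕ) : ℤ) (p * M) : ℂ) *
          ee ((((M * x.1 + p * x.2) % (p * M) : ℕ) : ℂ) * n / ((p * M : ℕ) : ℂ)) =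
        (jacobiSym M p : ℂ) * (jacobiSym p M : ℂ) *
          (((jacobiSym (x.1 : ℤ) p : ℂ) * ee ((x.1 : ℂ) * n / p)) *
            ((jacobiSym (x.2 : ℤ) M : ℂ) * ee ((x.2 : ℂ) * n / M))) := by
      intro x _
      rw [term_mod (p * M) (Nat.mul_pos hp hM) n, jacobiSym.mul_right]
      have c1 : jacobiSym ((M * x.1 + p * x.2 : ℕ) : ℤ) p =
          jacobiSym M p * jacobiSym (x.1 : ℤ) p := by
        rw [← jacobiSym.mul_left, jacobiSym.mod_left, jacobiSym.mod_left ((M : ℤ) * x.1)]
        congr 1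
        push_cast
        rw [Int.add_mul_emod_self_left]
      have c2 : jacobiSym ((M * x.1 + p * x.2 : ℕ) : ℤ) M =
          jacobiSym p M * jacobiSym (x.2 : ℤ) M := by
        rw [← jacobiSym.mul_left, jacobiSym.mod_left, jacobiSym.mod_left ((p : ℤ) * x.2)]
        congr 1
        push_cast
        rw [add_comm, Int.add_mul_emod_self_left]
      have c3 : ee (((M * x.1 + p * x.2 : ℕ) : ℂ) * n / ((p * M : ℕ) : ℂ)) =
          ee ((x.1 : ℂ) * n / p) * ee ((x.2 : ℂ) * n / M) := by
        rw [← ee_add]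
        congr 1
        push_cast
        field_simp
      rw [c1, c2, c3]
      push_cast
      ring
    rw [Finset.sum_congr rfl key, ← Finset.mul_sum, Finset.sum_product]
    have : ∑ x ∈ Finset.range p, ∑ y ∈ Finset.range M,
        (((jacobiSym (x : ℤ) p : ℂ) * ee ((x : ℂ) * n / p)) *
            ((jacobiSym (y : ℤ) M : ℂ) * ee ((y : ℂ) * n / M))) =
        (jacobiSym n p * τ₁) * (jacobiSym n M * τ₂) := by
      rw [← h1 n, ← h2 n, Finset.sum_mul_sum]
    rw [this, jacobiSym.mul_right]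
    push_cast
    ring

lemma gp_prime (p : ℕ) (hp : p.Prime) (hp2 : p ≠ 2) : GP p := by
  have : Fact p.Prime := ⟨hp⟩
  have : NeZero p := ⟨hp.ne_zero⟩
  set χ : MulChar (ZMod p) ℂ := (quadraticChar (ZMod p)).ringHomComp (Int.castRingHom ℂ) with hχ
  have hchar : ringChar (ZMod p) ≠ 2 := by
    rw [ZMod.ringChar_zmod_n]
    exact hp2
  have hχq : χ.IsQuadratic := (quadraticChar_isQuadratic (ZMod p)).comp _
  have hχ1 : χ ≠ 1 := by
    intro h0
    apply quadraticChar_ne_one hchar
    have hinj : Function.Injective (Int.castRingHom ℂ) := (Int.castRingHom ℂ).injective_int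
    apply MulChar.injective_ringHomComp hinj
    change (quadraticChar (ZMod p)).ringHomComp (Int.castRingHom ℂ) =
      MulChar.ringHomComp 1 (Int.castRingHom ℂ)
    rw [← hχ, h0, MulChar.ringHomComp_one]
  have hval : ∀ a : ℤ, χ (a : ZMod p) = (jacobiSym a p : ℂ) := by
    intro a
    rw [hχ, MulChar.ringHomComp_apply]
    rw [← jacobiSym.legendreSym.to_jacobiSym]
    rfl
  have hψ : (ZMod.stdAddChar (N := p)).IsPrimitive := ZMod.isPrimitive_stdAddChar p
  have hψv : ∀ a n : ℤ, (ZMod.stdAddChar (N := p)) ((n : ZMod p) * (a : ZMod p)) =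
      ee ((a : ℂ) * n / p) := by
    intro a n
    rw [← Int.cast_mul, ZMod.stdAddChar_coe]
    unfold ee
    congr 1
    push_cast
    ring
  have hsum : ∀ n : ℤ, ∑ a ∈ Finset.range p, (jacobiSym a p : ℂ) * ee ((a : ℂ) * n / p) =
      gaussSum χ ((ZMod.stdAddChar (N := p)).mulShift (n : ZMod p)) := by
    intro n
    unfold gaussSum
    refine Finset.sum_nbij' (fun a : ℕ => (a : ZMod p)) ZMod.val ?_ ?_ ?_ ?_ ?_
    · intro a _
      exact Finset.mem_univ _
    · intro a _
      rw [Finset.mem_range]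
      exact ZMod.val_lt a
    · intro a ha
      exact ZMod.val_natCast_of_lt (Finset.mem_range.mp ha)
    · intro a _
      exact ZMod.natCast_zmod_val a
    · intro a _
      have e1 := hval a
      have e2 := hψv a n
      push_cast at e1 e2
      rw [AddChar.mulShift_apply, e1, e2]
  refine ⟨gaussSum χ (ZMod.stdAddChar (N := p)), ?_, ?_⟩
  · rw [gaussSum_sq hχ1 hχq hψ, ZMod.card]
    have := hval (-1)
    push_cast at this
    rw [this]
  · intro n
    rw [hsum n]
    by_cases hn : (n : ZMod p) = 0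
    · rw [hn, AddChar.mulShift_zero, gaussSum_one_right hχ1, ← hval, hn, MulChar.map_zero, zero_mul]
    · have hu : IsUnit (n : ZMod p) := isUnit_iff_ne_zero.mpr hn
      obtain ⟨v, hv⟩ := hu
      rw [← hval n, ← hv]
      have := gaussSum_mulShift χ (ZMod.stdAddChar (N := p)) v
      have h2 : χ (v : ZMod p) * χ (v : ZMod p) = 1 := by
        rw [hv, hval]
        have hg : Int.gcd n p = 1 := by
          rw [Int.gcd_comm]
          have : ¬ (p : ℤ) ∣ n := by
            rwa [← ZMod.intCast_zmod_eq_zero_iff_dvd]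
          exact (Int.isCoprime_iff_gcd_eq_one).mp
            ((Prime.coprime_iff_not_dvd (Nat.prime_iff_prime_int.mp hp)).mpr this)
        have := jacobiSym.sq_one hg
        rw [pow_two] at this
        exact_mod_cast this
      rw [← this, ← mul_assoc, h2, one_mul]

end Gauss

/-- (Gauss) Gauss sums of Jacobi symbols. -/
theorem stGauss : StGauss := by
  intro N hodd hsq _
  have key : ∀ N : ℕ, Odd N → Squarefree N → Gauss.GP N := by
    intro N
    induction N using Nat.strong_induction_on with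
    | _ N ih =>
      intro hodd hsq
      rcases Nat.eq_or_lt_of_le (Nat.one_le_iff_ne_zero.mpr hsq.ne_zero) with h1 | h1
      · rw [← h1]
        exact Gauss.gp_one
      · set p := N.minFac with hp
        have hpp : p.Prime := Nat.minFac_prime h1.ne'
        obtain ⟨M, hM⟩ := N.minFac_dvd
        rw [← hp] at hM
        have hM0 : 0 < M := by
          rcases Nat.eq_zero_or_pos M with h | h
          · subst h; simp at hM; omega
          · exact h
        have hoM : Odd p ∧ Odd M := by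
          rw [hM] at hodd
          exact Nat.odd_mul.mp hodd
        have hcop : Nat.Coprime p M := by
          rw [hM] at hsq
          exact Nat.coprime_of_squarefree_mul hsq
        have hsM : Squarefree M := hsq.squarefree_of_dvd ⟨p, by rw [hM]; ring⟩
        have hlt : M < N := by
          rw [hM]
          have := hpp.two_le
          nlinarith
        rw [hM]
        refine Gauss.gp_mul p M hpp.pos hM0 hcop (Gauss.gp_prime p hpp ?_) (ih M hlt hoM.2 hsM)
        intro h2
        rw [h2] at hoM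
        exact absurd hoM.1 (by decide)
  exact key N hodd hsq

end LO

end Pool.Agent.Lib.MP_7c5fb9_nt
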