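import Mathlib
import Pool.Agent.Lib.MP_7c08ba_nt.RZ.StA
import Pool.Agent.Lib.MP_7c5fb9_nt.DH.Loc

set_option autoImplicit false

/-!
# Level one (MP_7c5fb9_nt, project LO): definitions

Integral binary quadratic forms `a x^2 + b x y + c y^2` are functions `Fin 3 → ℤ`.
-/

namespace Pool.Agent.Lib.MP_7c5fb9_nt

namespace LO

open Pool.Agent.Lib.MP_7c08ba_nt.RZ UpperHalfPlane
open scoped MatrixGroups Polynomial nonZeroDivisors

/-- Integral binary quadratic forms. -/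
abbrev Frm : Type := Fin 3 → ℤ

/-- Integral matrices. -/
abbrev Mat : Type := Matrix (Fin 2) (Fin 2) ℤ

/-- The discriminant. -/
def disc (Q : Frm) : ℤ := Q 1 ^ 2 - 4 * Q 0 * Q 2

/-- The form `Q ∘ M`. -/
def act (Q : Frm) (M : Mat) : Frm :=
  ![Q 0 * M 0 0 ^ 2 + Q 1 * (M 0 0 * M 1 0) + Q 2 * M 1 0 ^ 2,
    2 * Q 0 * (M 0 0 * M 0 1) + Q 1 * (M 0 0 * M 1 1 + M 0 1 * M 1 0) +
      2 * Q 2 * (M 1 0 * M 1 1),
    Q 0 * M 0 1 ^ 2 + Q 1 * (M 0 1 * M 1 1) + Q 2 * M 1 1 ^ 2]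

/-- The mirror image `a x^2 - b x y + c y^2`. -/
def mir (Q : Frm) : Frm := ![Q 0, -Q 1, Q 2]

/-- The matrix `S`. -/
def mS : Mat := !![0, -1; 1, 0]

/-- The matrix `U = T S`. -/
def mU : Mat := !![1, -1; 1, 0]

/-- The mirror. -/
def mE : Mat := !![-1, 0; 0, 1]

/-- The translation. -/
def mT : Mat := !![1, 1; 0, 1]

/-- The inverse translation. -/
def mT' : Mat := !![1, -1; 0, 1]

section analysis

/-- The value `Q(z, 1)`. -/
noncomputable def qv (Q : Frm) (z : ℂ) : ℂ := Q 0 * z ^ 2 + Q 1 * z + Q 2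

/-- The polynomial `Q(X, 1) ^ (k - 1)`. -/
noncomputable def pw (k : ℕ) (Q : Frm) : ℂ[X] :=
  (Polynomial.C (Q 0 : ℂ) * Polynomial.X ^ 2 + Polynomial.C (Q 1 : ℂ) * Polynomial.X +
    Polynomial.C (Q 2 : ℂ)) ^ (k - 1)

/-- The fractional linear transformation. -/
noncomputable def mb (M : Mat) (z : ℂ) : ℂ :=
  ((M 0 0 : ℂ) * z + M 0 1) / ((M 1 0 : ℂ) * z + M 1 1)

variable {w : ℕ}

/-- The iterated primitives of the form. -/
noncomputable def Fj (f : CuspForm 𝒮ℒ (w : ℤ)) (j : ℕ) (z : ℂ) : ℂ :=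
  ∑' n : ℕ, coef f n * ((2 * Real.pi * Complex.I * n) ^ j)⁻¹ * ee (n * z)

/-- The primitive of `f P` vanishing at `i ∞`, for polynomials `P` of degree less than `w`. -/
noncomputable def Gp (f : CuspForm 𝒮ℒ (w : ℤ)) (P : ℂ[X]) (z : ℂ) : ℂ :=
  ∑ j ∈ Finset.range w, (-1) ^ j * Fj f (j + 1) z * (Polynomial.derivative^[j] P).eval z

/-- The cocycle of the form, `∫ f(z) Q(z, 1)^(k-1) dz` from `i ∞` to `M (i ∞)` for unimodular `M`
(`w = 2 k`). -/
noncomputable def Phi (k : ℕ) (f : CuspForm 𝒮ℒ (w : ℤ)) (M : Mat) (Q : Frm) : ℂ :=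
  Gp f (pw k Q) (mb M Complex.I) - Gp f (pw k (act Q M)) Complex.I

/-- The odd cocycle of the form. -/
noncomputable def Psi (k : ℕ) (f : CuspForm 𝒮ℒ (w : ℤ)) (M : Mat) (Q : Frm) : ℂ :=
  Phi k f M Q - Phi k f (mE * M * mE) (mir Q)

/-- The periods of the form, `∫ f(z) z^m dz` from `i ∞` to `0`. -/
noncomputable def rp (f : CuspForm 𝒮ℒ (w : ℤ)) (m : ℕ) : ℂ :=
  Gp f (Polynomial.X ^ m) Complex.I - Gp f ((-1) ^ m * Polynomial.X ^ (w - 2 - m)) Complex.I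

/-- The geodesic from one root of `Q` to the other one (for `0 < Q 0`). -/
noncomputable def geo (Q : Frm) (θ : ℝ) : ℂ :=
  (((-(Q 1 : ℝ) + Real.sqrt (disc Q)) / (2 * Q 0) : ℝ) * (Complex.I * Real.exp θ) +
    ((-(Q 1 : ℝ) - Real.sqrt (disc Q)) / (2 * Q 0) : ℝ)) / (Complex.I * Real.exp θ + 1)

/-- The integral of `f(z) Q(z, 1)^(k-1) dz` over the closed geodesic, `ε` the unit. -/
noncomputable def cyc (k : ℕ) (f : CuspForm 𝒮ℒ (w : ℤ)) (Q : Frm) (ε : ℝ) : ℂ :=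
  ∫ θ in (0 : ℝ)..(2 * Real.log ε),
    f (ofComplex (geo Q θ)) * qv Q (geo Q θ) ^ (k - 1) * deriv (geo Q) θ

end analysis

/-- `(t, u)` is the smallest positive solution of `t^2 - D u^2 = 4`. -/
structure Fund (D : ℕ) (t u : ℤ) : Prop where
  eq : t ^ 2 - D * u ^ 2 = 4
  pt : 0 < t
  pu : 0 < u
  min : ∀ t' u' : ℤ, t' ^ 2 - D * u' ^ 2 = 4 → 0 < u' → u ≤ u'

/-- The unit `(t + u √D) / 2`. -/
noncomputable def eps (D : ℕ) (t u : ℤ) : ℝ := (t + u * Real.sqrt D) / 2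

/-- The automorph of the form `Q` given by the solution `(t, u)`. -/
def aut (Q : Frm) (t u : ℤ) : Mat :=
  !![(t - Q 1 * u) / 2, -Q 2 * u; Q 0 * u, (t + Q 1 * u) / 2]

section fields

variable {K : Type} [Field K] [NumberField K]

/-- `Q` is a form with positive first coefficient attached to the ideal class `c`: the norm form of
an ideal of the class in a basis, divided by the norm of the ideal. -/
def FormOf (c : ClassGroup (NumberField.RingOfIntegers K)) (Q : Frm) : Prop :=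
  0 < Q 0 ∧ ∃ (I : (Ideal (NumberField.RingOfIntegers K))⁰) (x y : NumberField.RingOfIntegers K),
    ClassGroup.mk0 I = c ∧
    (∀ z : NumberField.RingOfIntegers K, z ∈ (I : Ideal (NumberField.RingOfIntegers K)) ↔
      ∃ m n : ℤ, z = (m : NumberField.RingOfIntegers K) * x +
        (n : NumberField.RingOfIntegers K) * y) ∧
    ∀ m n : ℤ, Algebra.norm ℤ ((m : NumberField.RingOfIntegers K) * x +
      (n : NumberField.RingOfIntegers K) * y) =
        (Ideal.absNorm (I : Ideal (NumberField.RingOfIntegers K)) : ℤ) *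
          (Q 0 * m ^ 2 + Q 1 * (m * n) + Q 2 * n ^ 2)

/-- The toric period of `f` over the real quadratic field `K` of discriminant `D`: the sum over the
ideal classes of the cycle integrals of the attached form and of its mirror image. -/
noncomputable def torPer {w : ℕ} (k : ℕ) (f : CuspForm 𝒮ℒ (w : ℤ)) (D : ℕ) (t u : ℤ)
    (q : ClassGroup (NumberField.RingOfIntegers K) → Frm) : ℂ :=
  ∑ c, (cyc k f (q c) (eps D t u) + cyc k f (mir (q c)) (eps D t u))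

end fields

/-- The toric periods of `f` over the real quadratic field `K` do not vanish (`D` is the
discriminant of `K`). -/
def NonVan {w : ℕ} (k : ℕ) (f : CuspForm 𝒮ℒ (w : ℤ)) (K : Type) [Field K] [NumberField K] : Prop :=
  ∃ D : ℕ, NumberField.discr K = D ∧ (∃ t u : ℤ, Fund D t u) ∧
    (∃ q : ClassGroup (NumberField.RingOfIntegers K) → Frm, ∀ c, FormOf c (q c)) ∧
    ∀ (t u : ℤ) (q : ClassGroup (NumberField.RingOfIntegers K) → Frm), Fund D t u →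
      (∀ c, FormOf c (q c)) → torPer k f D t u q ≠ 0

/-! ### Functions with values in the field with three elements -/

/-- Matrices of determinant two. -/
def L2 : List Mat := [!![1, 0; 0, 2], !![2, 0; 0, 1], !![-1, 0; 1, -2], !![2, -1; 0, 1]]

/-- Matrices of determinant seven. -/
def L7 : List Mat := [!![1, 0; 0, 7], !![7, 0; 0, 1], !![-1, 0; 1, -7], !![7, -1; 0, 1],
  !![1, 0; 3, 7], !![-2, -1; 1, -3], !![7, -2; 0, 1], !![1, 0; 2, 7], !![-3, -1; 1, -2],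
  !![7, -3; 0, 1], !![-1, 0; 2, -7], !![3, -1; 1, 2], !![-4, -3; 1, -1], !![7, -4; 0, 1],
  !![-1, 0; 3, -7], !![2, -1; 1, 3], !![-5, -2; 1, -1], !![7, -5; 0, 1], !![1, 0; 1, 7],
  !![-6, -1; 1, -1], !![7, -6; 0, 1]]

/-- Hecke operators on functions of forms. -/
def TL {R : Type*} [AddCommMonoid R] (L : List Mat) (u : Frm → R) (Q : Frm) : R :=
  (L.map fun M => u (act Q M)).sum

/-- Odd period functions modulo three of level `3 ^ m` on the forms of discriminant `2` modulo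
`3`. -/
structure PF (m : ℕ) (u : Frm → ZMod 3) : Prop where
  per : ∀ Q R : Frm, u (fun i => Q i + 3 ^ m * R i) = u Q
  supp : ∀ Q : Frm, disc Q % 3 ≠ 2 → u Q = 0
  scal : ∀ (c : ℤ) (Q : Frm), ¬ (3 : ℤ) ∣ c → u (fun i => c * Q i) = (c : ZMod 3) * u Q
  mir : ∀ Q : Frm, u (mir Q) = -u Q
  S : ∀ Q : Frm, u (act Q mS) = -u Q
  U : ∀ Q : Frm, u Q + u (act Q mU) + u (act Q (mU * mU)) = 0

/-- The logarithm modulo three of `x + y √D`. -/
def lam (D x y : ℤ) : ZMod 3 :=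
  ((4 * x * y * (x ^ 2 + D * y ^ 2) / 3 : ℤ) : ZMod 3) *
    ((x ^ 4 + 6 * x ^ 2 * y ^ 2 * D + y ^ 4 * D ^ 2 : ℤ) : ZMod 3)

/-- The eigenfunction modulo three. -/
def g0 (Q : Frm) : ZMod 3 := if disc Q % 3 = 2 then lam (disc Q) (Q 1) (-1) else 0

/-- The cocycle of the eigenfunction. -/
def psi (M : Mat) (Q : Frm) : ZMod 3 :=
  lam (disc Q) (2 * Q 0 * M 0 0 + Q 1 * M 1 0) (-M 1 0)

/-- The values of the second function. -/
def tab : List (List ℕ) := [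
  [0, 1, 1, 1, 1, 1, 0, 0, 0, 0, 2, 2, 2, 0, 0, 1, 1, 1, 0, 0, 0, 0, 2, 2, 2, 2, 2],
  [0, 0, 0, 0, 1, 0, 2, 2, 1, 1, 1, 2, 2, 2, 1, 1, 1, 2, 2, 2, 1, 1, 0, 2, 0, 0, 0],
  [0, 1, 2, 1, 2, 0, 0, 0, 2, 0, 1, 1, 2, 1, 2, 1, 2, 2, 0, 1, 0, 0, 0, 1, 2, 1, 2],
  [0, 0, 0, 2, 2, 0, 2, 1, 1, 0, 1, 1, 0, 1, 2, 0, 2, 2, 0, 2, 2, 1, 0, 1, 1, 0, 0],
  [0, 2, 0, 0, 0, 1, 2, 2, 2, 1, 0, 2, 2, 1, 2, 1, 1, 0, 2, 1, 1, 1, 2, 0, 0, 0, 1],
  [0, 2, 1, 0, 1, 1, 1, 1, 1, 0, 2, 0, 1, 0, 0, 2, 0, 1, 0, 2, 2, 2, 2, 2, 0, 2, 1],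
  [0, 2, 2, 0, 0, 2, 1, 2, 2, 0, 0, 0, 1, 2, 1, 2, 0, 0, 0, 1, 1, 2, 1, 0, 0, 1, 1],
  [0, 1, 0, 0, 2, 2, 2, 2, 0, 1, 2, 2, 2, 0, 0, 1, 1, 1, 2, 0, 1, 1, 1, 1, 0, 0, 2],
  [0, 0, 0, 2, 0, 2, 2, 2, 0, 0, 0, 2, 0, 2, 1, 0, 1, 0, 0, 0, 1, 1, 1, 0, 1, 0, 0]]

/-- The second function, of level `27`. -/
def u4 (Q : Frm) : ZMod 3 :=
  if disc Q % 3 = 2 then
    (Q 0 : ZMod 3) * (((tab.getD ((disc Q * Q 0 ^ 16 % 27).toNat / 3) []).getD
      ((Q 1 * Q 0 ^ 17 % 27).toNat) 0 : ℕ) : ZMod 3)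
  else 0

/-! ### Functions of matrices -/

/-- Functions of level `3 ^ m` of matrices. -/
structure MF (m : ℕ) (v : Mat → ZMod 3) : Prop where
  per : ∀ M N : Mat, v (M + (3 : ℤ) ^ m • N) = v M
  scal : ∀ (c : ℤ) (M : Mat), ¬ (3 : ℤ) ∣ c → v (c • M) = v M
  supp : ∀ M : Mat, (3 : ℤ) ∣ M.det → v M = 0

/-- The relations of periods, on the left. -/
structure WR (v : Mat → ZMod 3) : Prop where
  S : ∀ M : Mat, v (mS * M) = -v M
  E : ∀ M : Mat, v (mE * M) = v M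
  U : ∀ M : Mat, v M + v (mU * M) + v (mU * mU * M) = 0

/-- Hecke operators on the left. -/
def TM (L : List Mat) (v : Mat → ZMod 3) (M : Mat) : ZMod 3 :=
  (L.map fun N => v (N.adjugate * M)).sum

/-- The operator `T_7 - 2`. -/
def Lop (v : Mat → ZMod 3) (M : Mat) : ZMod 3 := TM L7 v M - 2 * v M

/-- Right translation. -/
def Rt (k : Mat) (v : Mat → ZMod 3) (M : Mat) : ZMod 3 := v (M * k)

/-- Three matrices congruent to one modulo three. -/
def gm (i : Fin 3) : Mat := ![!![1, 3; -3, 1], !![4, 3; 3, -2], !![4, -3; -3, -2]] i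

/-- The rotation of order four. -/
def mr : Mat := !![1, 1; -1, 1]

/-- The difference operators. -/
def Xd (i : Fin 3) (v : Mat → ZMod 3) (M : Mat) : ZMod 3 := v (M * gm i) - v M

/-- The filtration. -/
def Fil : ℕ → (Mat → ZMod 3) → Prop
  | 0, v => v = 0
  | d + 1, v => ∀ i, Fil d (Xd i v)

/-- The coordinates of functions of level three. -/
def ac (i : Fin 3) (v : Mat → ZMod 3) : ZMod 3 :=
  ![v 1 - v mT' - v mT, v 1 - v mT' + v mT, -v 1 - v mT' + v mT] i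

/-- Period functions of matrices killed by `T_2`. -/
structure KK (m : ℕ) (v : Mat → ZMod 3) : Prop where
  mf : MF m v
  wr : WR v
  T2 : TM L2 v = 0

/-- Functions coming from functions of forms: invariance under the torus. -/
structure Tor (v : Mat → ZMod 3) : Prop where
  r : Rt mr v = v
  g : Xd 0 v = 0
  E : Rt mE v = -v

/-- The symbol: `X_{l_1} ... X_{l_d} v` and then the coordinate `l_0`. -/
def sym (v : Mat → ZMod 3) : List (Fin 3) → ZMod 3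
  | [] => 0
  | i :: l => ac i (l.foldr Xd v)

/-- The Lie algebra elements: `gm i = 1 + 3 * xm i`. -/
def xm (i : Fin 3) : Mat := ![!![0, 1; -1, 0], !![1, 1; 1, -1], !![1, -1; -1, -1]] i

/-- `k` is congruent to a scalar prime to `3` modulo `3 ^ j`. -/
def Scal (j : ℕ) (k : Mat) : Prop :=
  ∃ (c : ℤ) (N : Mat), ¬ (3 : ℤ) ∣ c ∧ k = c • (1 : Mat) + (3 : ℤ) ^ j • N

/-- The function of matrices attached to a function of forms. -/
def vf (u : Frm → ZMod 3) (M : Mat) : ZMod 3 :=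
  (M.det : ZMod 3) * u (act ![1, 0, 1] M.adjugate)

end LO

end Pool.Agent.Lib.MP_7c5fb9_nt
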