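import Pool.Agent.Lib.MP_7c5fb9_nt.LO.Stmts2

set_option autoImplicit false

/-!
# Level one: the number of fields with prescribed local behaviour
-/

namespace Pool.Agent.Lib.MP_7c5fb9_nt

namespace LO

open BKDH

namespace CntB

theorem cop {P : Finset ℕ} (hP : ∀ p ∈ P, p.Prime ∧ 5 ≤ p) :
    Nat.Coprime (∏ p ∈ P, p ^ 2) 3 := by
  refine Nat.Coprime.prod_left fun p hp => Nat.Coprime.pow_left 2 ?_
  obtain ⟨h1, h2⟩ := hP p hp
  exact (Nat.coprime_primes h1 Nat.prime_three).2 (by omega)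

theorem sq_dvd {p a m : ℕ} (hp : p.Prime) (ha : ¬ p ∣ a) (h : p ^ 2 ∣ a * m) : p ^ 2 ∣ m :=
  Nat.Coprime.dvd_of_dvd_mul_left (Nat.Coprime.pow_left 2 ((Nat.Prime.coprime_iff_not_dvd hp).2 ha)) h

theorem odd_prime {p : ℕ} (hp : p.Prime) (h2 : p ≠ 2) : ¬ p ∣ 4 := by
  intro h
  have h4 : p ∣ 2 ^ 2 := h
  exact h2 ((Nat.prime_dvd_prime_iff_eq hp Nat.prime_two).1 (hp.dvd_of_dvd_pow h4))

theorem sf {m : ℕ} (h : Squarefree m) {p : ℕ} (hp : p.Prime) : ¬ p ^ 2 ∣ m := by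
  rw [Nat.squarefree_iff_prime_squarefree] at h
  rw [sq]
  exact h p hp

theorem fd_iff {D : ℕ} (h3 : D % 3 = 2) : FD (D : ℤ) ↔ IsFund (3 * D) := by
  have hp3 : ∀ p : ℕ, p.Prime → p ^ 2 ∣ 3 * D → p ^ 2 ∣ D := by
    intro p hp hd
    by_cases h : p = 3
    · subst h
      exfalso
      omega
    · exact sq_dvd hp (fun h' => h ((Nat.prime_dvd_prime_iff_eq hp Nat.prime_three).1 h')) hd
  have e4 : (D : ℤ) / 4 = ((D / 4 : ℕ) : ℤ) := by push_cast; rfl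
  constructor
  · rintro (⟨h1, h2, -⟩ | ⟨h1, h2, h4⟩)
    · rw [Int.natAbs_natCast] at h2
      refine ⟨?_, fun p hp _ hd => sf h2 hp (hp3 p hp hd)⟩
      unfold F2
      push_cast
      omega
    · rw [e4, Int.natAbs_natCast] at h4
      refine ⟨?_, fun p hp hp2 hd => ?_⟩
      · unfold F2
        push_cast
        omega
      · have h5 := hp3 p hp hd
        have h6 : D = 4 * (D / 4) := by omega
        rw [h6] at h5
        exact sf h4 hp (sq_dvd hp (odd_prime hp hp2) h5)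
  · rintro ⟨h1, h2⟩
    unfold F2 at h1
    push_cast at h1
    by_cases h4 : (D : ℤ) % 4 = 1
    · left
      refine ⟨h4, ?_, by omega⟩
      rw [Int.natAbs_natCast, Nat.squarefree_iff_prime_squarefree]
      intro p hp hd
      by_cases hp2 : p = 2
      · subst hp2
        omega
      · refine h2 p hp hp2 ?_
        rw [sq]
        exact Dvd.dvd.mul_left hd 3
    · right
      refine ⟨by omega, by omega, ?_⟩
      rw [e4, Int.natAbs_natCast, Nat.squarefree_iff_prime_squarefree]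
      intro p hp hd
      by_cases hp2 : p = 2
      · subst hp2
        omega
      · refine h2 p hp hp2 ?_
        rw [sq]
        have h6 : D = 4 * (D / 4) := by omega
        rw [h6]
        exact Dvd.dvd.mul_left (Dvd.dvd.mul_left hd 4) 3

theorem two {M ρ : ℕ} (h : RealTwo M ρ) : TwoCls M (3 * ρ % M) ∧
    ∀ D : ℕ, 3 * D % M = 3 * ρ % M ↔ D % M = ρ := by
  unfold RealTwo at h
  unfold TwoCls
  rcases h with ⟨rfl, rfl | rfl⟩ | ⟨rfl, rfl | rfl⟩ | ⟨rfl, rfl | rfl | rfl | rfl⟩ <;>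
    exact ⟨by norm_num, fun D => by omega⟩

theorem modQ {Q : ℕ} (hQ : Nat.Coprime Q 3) (D r : ℕ) :
    3 * D % Q = 3 * r % Q ↔ D % Q = r % Q := by
  constructor
  · intro h
    exact Nat.ModEq.cancel_left_of_coprime (by simpa using hQ) h
  · intro h
    exact Nat.ModEq.mul_left 3 h

/-- The two sets correspond to each other. -/
theorem card_eq {M ρ : ℕ} (h : RealTwo M ρ) {Q : ℕ} (hQ : Nat.Coprime Q 3) (r X : ℕ)
    (N : ℕ → Prop) :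
    {Δ : ℕ | Δ ≤ 3 * X ∧ IsFund Δ ∧ Δ % M = 3 * ρ % M ∧ Δ % 9 = 6 ∧ Δ % Q = 3 * r % Q ∧
      N Δ}.ncard =
    {D : ℕ | D ≤ X ∧ FD D ∧ D % 3 = 2 ∧ D % M = ρ ∧ D % Q = r % Q ∧ N (3 * D)}.ncard := by
  have e : {Δ : ℕ | Δ ≤ 3 * X ∧ IsFund Δ ∧ Δ % M = 3 * ρ % M ∧ Δ % 9 = 6 ∧ Δ % Q = 3 * r % Q ∧
      N Δ} = (fun D => 3 * D) ''
      {D : ℕ | D ≤ X ∧ FD D ∧ D % 3 = 2 ∧ D % M = ρ ∧ D % Q = r % Q ∧ N (3 * D)} := by
    ext Δ
    constructor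
    · rintro ⟨h1, h2, h3, h4, h5, h6⟩
      have e3 : 3 * (Δ / 3) = Δ := by omega
      have h7 : Δ / 3 % 3 = 2 := by omega
      rw [← e3] at h2 h3 h5 h6
      exact ⟨Δ / 3, ⟨by omega, (fd_iff h7).2 h2, h7, ((two h).2 _).1 h3, (modQ hQ _ _).1 h5, h6⟩,
        e3⟩
    · rintro ⟨D, ⟨h1, h2, h3, h4, h5, h6⟩, rfl⟩
      exact ⟨by simp only; omega, (fd_iff h3).1 h2, ((two h).2 _).2 h4, by simp only; omega,
        (modQ hQ _ _).2 h5, h6⟩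
  rw [e, Set.ncard_image_of_injective _ fun a b hab => by simpa using hab]

end CntB

/-- (CountB) the number of fields. -/
theorem stCountB (hLocP : StLocP) : StCountB := by
  intro M ρ hM P hP r hr
  have hQ := CntB.cop hP
  have hr' : ∀ p ∈ P, ¬ p ^ 2 ∣ 3 * r := by
    intro p hp hd
    obtain ⟨h1, h2⟩ := hP p hp
    refine hr p hp (CntB.sq_dvd h1 (fun h' => ?_) hd)
    have := (Nat.prime_dvd_prime_iff_eq h1 Nat.prime_three).1 h'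
    omega
  obtain ⟨⟨c, hc, X₀, hX₀⟩, h2⟩ := hLocP M (3 * ρ % M) (CntB.two hM).1 P hP (3 * r) hr'
  have k1 : ∀ X : ℕ, {Δ : ℕ | Δ ≤ 3 * X ∧ IsFund Δ ∧ Δ % M = 3 * ρ % M ∧ Δ % 9 = 6 ∧
      Δ % (∏ p ∈ P, p ^ 2) = 3 * r % (∏ p ∈ P, p ^ 2)}.ncard =
      {D : ℕ | D ≤ X ∧ FD D ∧ D % 3 = 2 ∧ D % M = ρ ∧
        D % (∏ p ∈ P, p ^ 2) = r % (∏ p ∈ P, p ^ 2)}.ncard := by
    intro X
    have := CntB.card_eq hM hQ r X fun _ => True
    simpa only [and_true] using this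
  have k2 : ∀ X : ℕ, {Δ : ℕ | Δ ≤ 3 * X ∧ IsFund Δ ∧ Δ % M = 3 * ρ % M ∧ Δ % 9 = 6 ∧
      Δ % (∏ p ∈ P, p ^ 2) = 3 * r % (∏ p ∈ P, p ^ 2) ∧ NoThree Δ}.ncard =
      {D : ℕ | D ≤ X ∧ FD D ∧ D % 3 = 2 ∧ D % M = ρ ∧
        D % (∏ p ∈ P, p ^ 2) = r % (∏ p ∈ P, p ^ 2) ∧ NoThree (3 * D)}.ncard := fun X =>
    CntB.card_eq hM hQ r X NoThree
  refine ⟨⟨c, hc, X₀, fun X hX => ?_⟩, fun ε hε => ?_⟩
  · have h3 := hX₀ (3 * X) (by omega)
    rw [k1 X] at h3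
    refine le_trans ?_ h3
    have hX0 : (0 : ℝ) ≤ X := Nat.cast_nonneg X
    push_cast
    nlinarith [mul_nonneg hc.le hX0]
  · obtain ⟨X₁, hX₁⟩ := h2 ε hε
    refine ⟨X₁, fun X hX => ?_⟩
    have h3 := hX₁ (3 * X) (by omega)
    rw [k1 X, k2 X] at h3
    exact h3

end LO

end Pool.Agent.Lib.MP_7c5fb9_nt
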