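import Pool.Agent.Lib.MP_7c5fb9_nt.LO.Basic
import Pool.Agent.Lib.MP_7c08ba_nt.DH.Two

set_option autoImplicit false

/-!
# Level one (MP_7c5fb9_nt, project LO2): all real quadratic fields in which 3 is inert, with
prescribed local behaviour at finitely many primes

One module = one file `LO/<Name>.lean` proving `theorem st<Name> : St<Name>` with the listed earlier
statements as hypotheses. Never change this file.
-/

namespace Pool.Agent.Lib.MP_7c5fb9_nt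

namespace LO

open Pool.Agent.Lib.MP_7c08ba_nt.RZ UpperHalfPlane Filter Topology
open scoped MatrixGroups Polynomial nonZeroDivisors

/-- Fundamental discriminants (of quadratic fields). -/
def FD (d : ℤ) : Prop :=
  (d % 4 = 1 ∧ Squarefree d.natAbs ∧ d ≠ 1) ∨
    (d % 4 = 0 ∧ (d / 4 % 4 = 2 ∨ d / 4 % 4 = 3) ∧ Squarefree (d / 4).natAbs)

/-- The Kronecker symbol of a fundamental discriminant. -/
def kr (d : ℤ) (n : ℕ) : ℤ :=
  if d % 2 = 0 then (if n % 2 = 0 then 0 else jacobiSym d n) else jacobiSym n d.natAbs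

/-- (Kr) the Kronecker symbol: a primitive quadratic character, and its Gauss sum. -/
def StKr : Prop :=
  ∀ d : ℤ, FD d →
    kr d 1 = 1 ∧ (∀ m n : ℕ, kr d (m * n) = kr d m * kr d n) ∧
    (∀ n : ℕ, kr d (n + d.natAbs) = kr d n) ∧
    (∀ n : ℕ, kr d n = 0 ↔ ¬ Nat.Coprime n d.natAbs) ∧
    (∀ n : ℕ, kr d n = 0 ∨ kr d n = 1 ∨ kr d n = -1) ∧
    (∀ a : ℕ, a ≤ d.natAbs → kr d (d.natAbs - a) = d.sign * kr d a) ∧
    ∃ τ : ℂ, τ ^ 2 = d ∧ ∀ n : ℕ,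
      ∑ a ∈ Finset.range d.natAbs, (kr d a : ℂ) * ee ((a : ℂ) * n / d.natAbs) = kr d n * τ

/-- (DiscrB) discriminants of quadratic fields. -/
def StDiscrB : Prop :=
  (∀ (K : Type) [Field K] [NumberField K], Module.finrank ℚ K = 2 →
    FD (NumberField.discr K) ∧ ∃ s : K, s ^ 2 = (NumberField.discr K : K)) ∧
  ∀ (K : Type) [Field K] [NumberField K] (s : K) (d : ℤ), Module.finrank ℚ K = 2 →
    FD d → s ^ 2 = (d : K) → NumberField.discr K = d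

/-- (SplitB) the decomposition of prime numbers in quadratic fields. -/
def StSplitB : Prop :=
  ∀ (K : Type) [Field K] [NumberField K], Module.finrank ℚ K = 2 → ∀ p : ℕ, p.Prime →
    (kr (NumberField.discr K) p = 0 → ∃ P : Ideal (NumberField.RingOfIntegers K), P.IsPrime ∧
      P.absNorm = p ∧ Ideal.span {(p : NumberField.RingOfIntegers K)} = P ^ 2) ∧
    (kr (NumberField.discr K) p = 1 → ∃ P P' : Ideal (NumberField.RingOfIntegers K), P.IsPrime ∧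
      P'.IsPrime ∧ P ≠ P' ∧ P.absNorm = p ∧ P'.absNorm = p ∧
        Ideal.span {(p : NumberField.RingOfIntegers K)} = P * P') ∧
    (kr (NumberField.discr K) p = -1 →
      (Ideal.span {(p : NumberField.RingOfIntegers K)}).IsPrime)

/-- (ZetaB) the zeta function of a quadratic field. -/
def StZetaB : Prop :=
  ∀ (K : Type) [Field K] [NumberField K], Module.finrank ℚ K = 2 → ∀ x : ℝ, 1 < x →
    NumberField.dedekindZeta K x =
      riemannZeta x * LSeries (fun n => (kr (NumberField.discr K) n : ℂ)) x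

/-- The absolute value of the value at `1`, for real quadratic fields. -/
noncomputable def LRB (d : ℤ) : ℝ :=
  |∑ a ∈ Finset.range d.natAbs, (kr d a : ℝ) * Real.log ‖1 - ee ((a : ℂ) / d.natAbs)‖|

/-- The same for imaginary quadratic fields. -/
def LIB (d : ℤ) : ℤ := |∑ a ∈ Finset.range d.natAbs, kr d a * (a : ℤ)|

/-- (LOneB) the values at `1`. -/
def StLOneB : Prop :=
  ∀ d : ℤ, FD d → ∃ L : ℝ,
    Tendsto (fun s : ℝ => LSeries (fun n => (kr d n : ℂ)) s) (𝓝[>] 1) (𝓝 (L : ℂ)) ∧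
    (0 < d → |L| * Real.sqrt d.natAbs = LRB d) ∧
    (d < 0 → |L| * d.natAbs * Real.sqrt d.natAbs = Real.pi * LIB d)

/-- (RUnitB) units of real quadratic fields. -/
def StRUnitB : Prop :=
  ∀ (K : Type) [Field K] [NumberField K] (D : ℕ) (t u : ℤ), Module.finrank ℚ K = 2 →
    NumberField.discr K = D → Fund D t u →
      NumberField.Units.torsionOrder K = 2 ∧ NumberField.InfinitePlace.nrRealPlaces K = 2 ∧
      NumberField.InfinitePlace.nrComplexPlaces K = 0 ∧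
      ∃ e : ℕ, (e = 1 ∨ e = 2) ∧ Real.log (eps D t u) = e * NumberField.Units.regulator K

/-- (RCNB) the class number formula for real quadratic fields. -/
def StRCNB : Prop :=
  ∀ (K : Type) [Field K] [NumberField K] (D : ℕ) (t u : ℤ), Module.finrank ℚ K = 2 →
    NumberField.discr K = D → Fund D t u →
      ∃ e : ℕ, (e = 1 ∨ e = 2) ∧
        e * LRB D = 2 * Nat.card (ClassGroup (NumberField.RingOfIntegers K)) *
          Real.log (eps D t u)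

/-- (ICNB) the class number formula for imaginary quadratic fields. -/
def StICNB : Prop :=
  ∀ (K : Type) [Field K] [NumberField K], Module.finrank ℚ K = 2 → NumberField.discr K < -4 →
    LIB (NumberField.discr K) = (NumberField.discr K).natAbs *
      Nat.card (ClassGroup (NumberField.RingOfIntegers K))

/-- (CongB) the congruence modulo `9`. -/
def StCongB : Prop :=
  ∀ (D : ℕ) (t u : ℤ) (h h' e : ℕ), FD D → D % 3 = 2 → t ^ 2 - D * u ^ 2 = 4 → 0 < t →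
    0 < u → (e = 1 ∨ e = 2) → e * LRB D = 2 * h * Real.log (eps D t u) →
    LIB (-(3 * D : ℕ)) = (3 * D : ℕ) * h' → ¬ 3 ∣ h' → ¬ 3 ∣ h ∧ lam D t u ≠ 0

/-- (KeyB) the criterion. -/
def StKeyB : Prop :=
  ∀ (K : Type) [Field K] [NumberField K] (D : ℕ), Module.finrank ℚ K = 2 →
    NumberField.discr K = D → D % 3 = 2 → BKDH.NoThree (3 * D) →
      ¬ 3 ∣ Nat.card (ClassGroup (NumberField.RingOfIntegers K)) ∧
      ∀ t u : ℤ, Fund D t u → lam D t u ≠ 0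

/-- (LocP) class numbers prime to three with prescribed local behaviour at finitely many primes. -/
def StLocP : Prop :=
  ∀ (M ρ : ℕ), BKDH.TwoCls M ρ → ∀ P : Finset ℕ, (∀ p ∈ P, p.Prime ∧ 5 ≤ p) →
    ∀ r : ℕ, (∀ p ∈ P, ¬ p ^ 2 ∣ r) →
      (∃ c : ℝ, 0 < c ∧ ∃ X₀ : ℕ, ∀ X : ℕ, X₀ ≤ X →
        c * X ≤ ({Δ : ℕ | Δ ≤ X ∧ BKDH.IsFund Δ ∧ Δ % M = ρ ∧ Δ % 9 = 6 ∧
          Δ % (∏ p ∈ P, p ^ 2) = r % (∏ p ∈ P, p ^ 2)}.ncard : ℝ)) ∧
      ∀ ε : ℝ, 0 < ε → ∃ X₀ : ℕ, ∀ X : ℕ, X₀ ≤ X →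
        (1 / 2 - ε) * ({Δ : ℕ | Δ ≤ X ∧ BKDH.IsFund Δ ∧ Δ % M = ρ ∧ Δ % 9 = 6 ∧
          Δ % (∏ p ∈ P, p ^ 2) = r % (∏ p ∈ P, p ^ 2)}.ncard : ℝ) ≤
        ({Δ : ℕ | Δ ≤ X ∧ BKDH.IsFund Δ ∧ Δ % M = ρ ∧ Δ % 9 = 6 ∧
          Δ % (∏ p ∈ P, p ^ 2) = r % (∏ p ∈ P, p ^ 2) ∧ BKDH.NoThree Δ}.ncard : ℝ)

/-- The eight quadratic algebras over the field of `2`-adic numbers, in terms of the discriminant:
`D % M = ρ`. -/
def RealTwo (M ρ : ℕ) : Prop :=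
  (M = 8 ∧ (ρ = 1 ∨ ρ = 5)) ∨ (M = 32 ∧ (ρ = 12 ∨ ρ = 28)) ∨
    (M = 64 ∧ (ρ = 8 ∨ ρ = 24 ∨ ρ = 40 ∨ ρ = 56))

/-- (CountB) the number of fields. -/
def StCountB : Prop :=
  ∀ (M ρ : ℕ), RealTwo M ρ → ∀ P : Finset ℕ, (∀ p ∈ P, p.Prime ∧ 5 ≤ p) →
    ∀ r : ℕ, (∀ p ∈ P, ¬ p ^ 2 ∣ r) →
      (∃ c : ℝ, 0 < c ∧ ∃ X₀ : ℕ, ∀ X : ℕ, X₀ ≤ X →
        c * X ≤ ({D : ℕ | D ≤ X ∧ FD D ∧ D % 3 = 2 ∧ D % M = ρ ∧
          D % (∏ p ∈ P, p ^ 2) = r % (∏ p ∈ P, p ^ 2)}.ncard : ℝ)) ∧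
      ∀ ε : ℝ, 0 < ε → ∃ X₀ : ℕ, ∀ X : ℕ, X₀ ≤ X →
        (1 / 2 - ε) * ({D : ℕ | D ≤ X ∧ FD D ∧ D % 3 = 2 ∧ D % M = ρ ∧
          D % (∏ p ∈ P, p ^ 2) = r % (∏ p ∈ P, p ^ 2)}.ncard : ℝ) ≤
        ({D : ℕ | D ≤ X ∧ FD D ∧ D % 3 = 2 ∧ D % M = ρ ∧
          D % (∏ p ∈ P, p ^ 2) = r % (∏ p ∈ P, p ^ 2) ∧ BKDH.NoThree (3 * D)}.ncard : ℝ)

/-- The main theorem with prescribed local behaviour. -/
def StMainB : Prop :=
  ∀ (k w : ℕ) (f : CuspForm 𝒮ℒ (w : ℤ)), Even k → w = 2 * k → IsEigen f →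
    (∀ (K : Type) [Field K] [NumberField K] (D : ℕ), Module.finrank ℚ K = 2 →
      NumberField.discr K = D → D % 3 = 2 →
      (∀ (F : Type) [Field F] [NumberField F] (s : F), Module.finrank ℚ F = 2 →
        s ^ 2 = -((3 * D : ℕ) : F) →
          ¬ 3 ∣ Nat.card (ClassGroup (NumberField.RingOfIntegers F))) →
      NonVan k f K) ∧
    ∀ (M ρ : ℕ), RealTwo M ρ → ∀ P : Finset ℕ, (∀ p ∈ P, p.Prime ∧ 5 ≤ p) →
      ∀ r : ℕ, (∀ p ∈ P, ¬ p ^ 2 ∣ r) →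
        (∃ c : ℝ, 0 < c ∧ ∃ X₀ : ℕ, ∀ X : ℕ, X₀ ≤ X →
          c * X ≤ ({D : ℕ | D ≤ X ∧ FD D ∧ D % 3 = 2 ∧ D % M = ρ ∧
            D % (∏ p ∈ P, p ^ 2) = r % (∏ p ∈ P, p ^ 2) ∧
            ∀ (K : Type) [Field K] [NumberField K], Module.finrank ℚ K = 2 →
              NumberField.discr K = D → NonVan k f K}.ncard : ℝ)) ∧
        ∀ ε : ℝ, 0 < ε → ∃ X₀ : ℕ, ∀ X : ℕ, X₀ ≤ X →
          (1 / 2 - ε) * ({D : ℕ | D ≤ X ∧ FD D ∧ D % 3 = 2 ∧ D % M = ρ ∧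
            D % (∏ p ∈ P, p ^ 2) = r % (∏ p ∈ P, p ^ 2)}.ncard : ℝ) ≤
          ({D : ℕ | D ≤ X ∧ FD D ∧ D % 3 = 2 ∧ D % M = ρ ∧
            D % (∏ p ∈ P, p ^ 2) = r % (∏ p ∈ P, p ^ 2) ∧
            ∀ (K : Type) [Field K] [NumberField K], Module.finrank ℚ K = 2 →
              NumberField.discr K = D → NonVan k f K}.ncard : ℝ)

end LO

end Pool.Agent.Lib.MP_7c5fb9_nt
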