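import Mathlib
import Pool.Agent.Lib.MP_7c5fb9_nt.LO.Stmts2
import Pool.Agent.Lib.MP_7c5fb9_nt.LO.Discr

set_option autoImplicit false

/-!
Discriminants of quadratic fields are the fundamental discriminants.
-/

namespace Pool.Agent.Lib.MP_7c5fb9_nt

namespace LO

open NumberField Module

namespace DiscrBAux

variable {K : Type} [Field K] [NumberField K] {s : K} {d : ℤ}

theorem not_rat (hs : s ^ 2 = (d : K)) (hsf : Squarefree d.natAbs) (h1 : d ≠ 1) (r : ℚ) :
    (r : K) ≠ s := by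
  intro h
  have h2 : r ^ 2 = (d : ℚ) := by
    have : ((r ^ 2 : ℚ) : K) = ((d : ℚ) : K) := by
      push_cast
      rw [h, hs]
    exact_mod_cast this
  have h3 : IsIntegral ℤ r := by
    refine IsIntegral.of_pow (n := 2) (by norm_num) ?_
    rw [h2]
    exact isIntegral_algebraMap (R := ℤ) (A := ℚ)
  obtain ⟨n, hn⟩ := IsIntegrallyClosed.isIntegral_iff.mp h3
  have hn' : (n : ℚ) = r := hn
  have h4 : n ^ 2 = d := by
    have : ((n ^ 2 : ℤ) : ℚ) = (d : ℚ) := by
      push_cast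
      rw [hn', h2]
    exact_mod_cast this
  have h5 : d.natAbs = n.natAbs * n.natAbs := by
    rw [← h4, Int.natAbs_pow, pow_two]
  have h6 : IsUnit n.natAbs := hsf n.natAbs ⟨1, by rw [h5, mul_one]⟩
  rw [Nat.isUnit_iff] at h6
  rcases Int.natAbs_eq n with h7 | h7
  · rw [h6] at h7
    rw [h7] at h4
    exact h1 (by rw [← h4]; norm_num)
  · rw [h6] at h7
    rw [h7] at h4
    exact h1 (by rw [← h4]; norm_num)

theorem ind (hs : s ^ 2 = (d : K)) (hsf : Squarefree d.natAbs) (h1 : d ≠ 1) (a b : ℚ)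
    (h : (a : K) + b * s = 0) : a = 0 ∧ b = 0 := by
  by_cases hb : b = 0
  · subst hb
    refine ⟨?_, rfl⟩
    rw [Rat.cast_zero, zero_mul, add_zero] at h
    exact_mod_cast h
  · exfalso
    have hb' : (b : K) ≠ 0 := by exact_mod_cast hb
    refine not_rat hs hsf h1 (-a / b) ?_
    push_cast
    rw [div_eq_iff hb']
    linear_combination -h

theorem li (hs : s ^ 2 = (d : K)) (hsf : Squarefree d.natAbs) (h1 : d ≠ 1) :
    LinearIndependent ℚ ![(1 : K), s] := by
  rw [LinearIndependent.pair_iff]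
  intro a b hab
  apply ind hs hsf h1 a b
  rw [Algebra.smul_def, Algebra.smul_def, mul_one] at hab
  exact hab

theorem exists_basis (hF : Module.finrank ℚ K = 2) (hs : s ^ 2 = (d : K))
    (hsf : Squarefree d.natAbs) (h1 : d ≠ 1) :
    ∃ b : Basis (Fin 2) ℚ K, b 0 = 1 ∧ b 1 = s := by
  refine ⟨basisOfLinearIndependentOfCardEqFinrank (li hs hsf h1) (by rw [hF]; rfl), ?_, ?_⟩
  · simp
  · simp

theorem coords (hF : Module.finrank ℚ K = 2) (hs : s ^ 2 = (d : K))
    (hsf : Squarefree d.natAbs) (h1 : d ≠ 1) (x : K) : ∃ a b : ℚ, x = a + b * s := by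
  obtain ⟨b, hb0, hb1⟩ := exists_basis hF hs hsf h1
  refine ⟨b.repr x 0, b.repr x 1, ?_⟩
  have := b.sum_repr x
  rw [Fin.sum_univ_two, hb0, hb1, Algebra.smul_def, Algebra.smul_def, mul_one] at this
  exact this.symm

theorem tr (hF : Module.finrank ℚ K = 2) (hs : s ^ 2 = (d : K))
    (hsf : Squarefree d.natAbs) (h1 : d ≠ 1) (x y : ℚ) :
    Algebra.trace ℚ K ((x : K) + y * s) = 2 * x := by
  obtain ⟨b, hb0, hb1⟩ := exists_basis hF hs hsf h1
  obtain ⟨e0, e1⟩ := DiscrAux.mul_bas hs b hb0 hb1 x y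
  rw [Algebra.trace_eq_matrix_trace b, Matrix.trace_fin_two,
    Algebra.leftMulMatrix_eq_repr_mul, Algebra.leftMulMatrix_eq_repr_mul, e0, e1]
  simp only [map_add, map_smul, Basis.repr_self]
  simp
  ring

theorem nrm (hF : Module.finrank ℚ K = 2) (hs : s ^ 2 = (d : K))
    (hsf : Squarefree d.natAbs) (h1 : d ≠ 1) (x y : ℚ) :
    Algebra.norm ℚ ((x : K) + y * s) = x ^ 2 - d * y ^ 2 := by
  obtain ⟨b, hb0, hb1⟩ := exists_basis hF hs hsf h1
  obtain ⟨e0, e1⟩ := DiscrAux.mul_bas hs b hb0 hb1 x y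
  rw [Algebra.norm_eq_matrix_det b, Matrix.det_fin_two,
    Algebra.leftMulMatrix_eq_repr_mul, Algebra.leftMulMatrix_eq_repr_mul,
    Algebra.leftMulMatrix_eq_repr_mul, Algebra.leftMulMatrix_eq_repr_mul, e0, e1]
  simp only [map_add, map_smul, Basis.repr_self]
  simp
  ring

/-- Integral elements have integral coordinates. -/
theorem int_coords (hF : Module.finrank ℚ K = 2) (hs : s ^ 2 = (d : K))
    (hsf : Squarefree d.natAbs) (h1 : d ≠ 1) (h4 : d % 4 = 2 ∨ d % 4 = 3) {z : K}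
    (hz : IsIntegral ℤ z) : ∃ A B : ℤ, z = A + B * s := by
  obtain ⟨a, b, rfl⟩ := coords hF hs hsf h1 z
  have hN := nrm hF hs hsf h1 a b
  have hT := tr hF hs hsf h1 a b
  have hd0 : d ≠ 0 := by
    rintro rfl
    omega
  have i1 : IsIntegral ℤ (2 * a) := by
    rw [← hT]
    exact Algebra.isIntegral_trace hz
  have i2 : IsIntegral ℤ (a ^ 2 - d * b ^ 2) := by
    rw [← hN]
    exact Algebra.isIntegral_norm ℚ hz
  obtain ⟨A, hA⟩ := IsIntegrallyClosed.isIntegral_iff.mp i1
  obtain ⟨N, hN'⟩ := IsIntegrallyClosed.isIntegral_iff.mp i2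
  have hA' : (A : ℚ) = 2 * a := hA
  have hN'' : (N : ℚ) = a ^ 2 - d * b ^ 2 := hN'
  have i3 : IsIntegral ℤ ((d : ℚ) * (2 * b)) := by
    have e4 : ((d : ℚ) * (2 * b)) ^ 2 = ((d * (A ^ 2 - 4 * N) : ℤ) : ℚ) := by
      push_cast
      rw [hN'', hA']
      ring
    refine IsIntegral.of_pow (n := 2) (by norm_num) ?_
    rw [e4]
    exact isIntegral_algebraMap (R := ℤ) (A := ℚ)
  obtain ⟨C, hC⟩ := IsIntegrallyClosed.isIntegral_iff.mp i3
  have hC' : (C : ℚ) = d * (2 * b) := hC
  have e5 : C ^ 2 = d * (A ^ 2 - 4 * N) := by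
    have : ((C ^ 2 : ℤ) : ℚ) = ((d * (A ^ 2 - 4 * N) : ℤ) : ℚ) := by
      push_cast
      rw [hC', hN'', hA']
      ring
    exact_mod_cast this
  have hdz : Squarefree d := Int.squarefree_natAbs.mp hsf
  have e6 : d ∣ C := (hdz.dvd_pow_iff_dvd two_ne_zero).mp ⟨_, e5⟩
  obtain ⟨B, rfl⟩ := e6
  have e7 : (B : ℚ) = 2 * b := by
    have hq' : (d : ℚ) ≠ 0 := by exact_mod_cast hd0
    apply mul_left_cancel₀ hq'
    rw [← hC']
    push_cast
    rfl
  have e10 : d * B ^ 2 = A ^ 2 - 4 * N := by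
    apply mul_left_cancel₀ hd0
    linear_combination e5
  -- `B` and `A` are even
  obtain ⟨c, hc⟩ : ∃ c : ℤ, d = 4 * c + 2 ∨ d = 4 * c + 3 := ⟨d / 4, by omega⟩
  have hBA : B % 2 = 0 ∧ A % 2 = 0 := by
    have hB2 : B ^ 2 % 4 = 0 ∧ B % 2 = 0 ∨ B ^ 2 % 4 = 1 ∧ B % 2 = 1 := by
      rcases Int.even_or_odd' B with ⟨k, hk | hk⟩
      · left
        subst hk
        constructor
        · have : (2 * k) ^ 2 = 4 * k ^ 2 := by ring
          omega
        · omega
      · right
        subst hk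
        constructor
        · have : (2 * k + 1) ^ 2 = 4 * (k ^ 2 + k) + 1 := by ring
          omega
        · omega
    have hA2 : A ^ 2 % 4 = 0 ∧ A % 2 = 0 ∨ A ^ 2 % 4 = 1 ∧ A % 2 = 1 := by
      rcases Int.even_or_odd' A with ⟨k, hk | hk⟩
      · left
        subst hk
        constructor
        · have : (2 * k) ^ 2 = 4 * k ^ 2 := by ring
          omega
        · omega
      · right
        subst hk
        constructor
        · have : (2 * k + 1) ^ 2 = 4 * (k ^ 2 + k) + 1 := by ring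
          omega
        · omega
    rcases hc with hc | hc
    · have e11 : 4 * (c * B ^ 2) + 2 * B ^ 2 = A ^ 2 - 4 * N := by
        rw [← e10, hc]
        ring
      generalize c * B ^ 2 = X at e11
      omega
    · have e11 : 4 * (c * B ^ 2) + 3 * B ^ 2 = A ^ 2 - 4 * N := by
        rw [← e10, hc]
        ring
      generalize c * B ^ 2 = X at e11
      omega
  obtain ⟨A', hA1⟩ : (2 : ℤ) ∣ A := by omega
  obtain ⟨B', hB1⟩ : (2 : ℤ) ∣ B := by omega
  refine ⟨A', B', ?_⟩
  have e8 : (A' : ℚ) = a := by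
    have : (2 : ℚ) * A' = 2 * a := by
      rw [← hA', hA1]
      push_cast
      ring
    linarith
  have e9 : (B' : ℚ) = b := by
    have : (2 : ℚ) * B' = 2 * b := by
      rw [← e7, hB1]
      push_cast
      ring
    linarith
  rw [← e8, ← e9]
  push_cast
  rfl

/-- The ring of integers has the basis `1, √m`. -/
theorem exists_ibasis (hF : Module.finrank ℚ K = 2) (hs : s ^ 2 = (d : K))
    (hsf : Squarefree d.natAbs) (h1 : d ≠ 1) (h4 : d % 4 = 2 ∨ d % 4 = 3) :
    ∃ (ω : 𝓞 K) (b : Basis (Fin 2) ℤ (𝓞 K)), (ω : K) = s ∧ b 0 = 1 ∧ b 1 = ω := by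
  have hi : IsIntegral ℤ s := by
    refine IsIntegral.of_pow (n := 2) (by norm_num) ?_
    rw [hs]
    exact isIntegral_algebraMap (R := ℤ) (A := K)
  obtain ⟨ω, hω⟩ : ∃ ω : 𝓞 K, (ω : K) = s := ⟨⟨s, hi⟩, rfl⟩
  have hli : LinearIndependent ℤ ![(1 : 𝓞 K), ω] := by
    rw [LinearIndependent.pair_iff]
    intro m n hmn
    have e : ((m : ℤ) : K) + n * (ω : K) = 0 := by
      have := congrArg (fun x : 𝓞 K => (x : K)) hmn
      simpa using this
    have e2 : (((m : ℤ) : ℚ) : K) + ((n : ℤ) : ℚ) * s = 0 := by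
      push_cast
      rw [← hω]
      exact e
    obtain ⟨f1, f2⟩ := ind hs hsf h1 _ _ e2
    exact ⟨by exact_mod_cast f1, by exact_mod_cast f2⟩
  have hsp : ⊤ ≤ Submodule.span ℤ (Set.range ![(1 : 𝓞 K), ω]) := by
    intro x _
    obtain ⟨A, B, hAB⟩ := int_coords hF hs hsf h1 h4 x.isIntegral_coe
    have e : x = A • (1 : 𝓞 K) + B • ω := by
      apply RingOfIntegers.ext
      simp only [map_add, zsmul_eq_mul, map_mul, map_intCast, mul_one]
      rw [show algebraMap (𝓞 K) K ω = s from hω]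
      exact hAB
    rw [e]
    exact Submodule.add_mem _
      (Submodule.smul_mem _ _ (Submodule.subset_span ⟨0, rfl⟩))
      (Submodule.smul_mem _ _ (Submodule.subset_span ⟨1, rfl⟩))
  refine ⟨ω, Basis.mk hli hsp, hω, ?_, ?_⟩
  · rw [Basis.mk_apply]
    rfl
  · rw [Basis.mk_apply]
    rfl

theorem tr_om (hF : Module.finrank ℚ K = 2) (hs : s ^ 2 = (d : K))
    (hsf : Squarefree d.natAbs) (h1 : d ≠ 1) {ω : 𝓞 K} (hω : (ω : K) = s) :
    Algebra.trace ℤ (𝓞 K) ω = 0 := by
  have e1 : (ω : K) = ((0 : ℚ) : K) + ((1 : ℚ) : K) * s := by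
    rw [hω]
    push_cast
    ring
  have e2 := tr hF hs hsf h1 0 1
  rw [← e1] at e2
  have e3 := Algebra.coe_trace_int (K := K) ω
  rw [e2] at e3
  have e4 : ((Algebra.trace ℤ (𝓞 K) ω : ℤ) : ℚ) = 0 := by
    rw [e3]
    norm_num
  exact_mod_cast e4

/-- The discriminant of `ℚ(√m)`, `m` equal to `2` or `3` modulo `4`. -/
theorem discr_eq (hF : Module.finrank ℚ K = 2) (hs : s ^ 2 = (d : K))
    (hsf : Squarefree d.natAbs) (h4 : d % 4 = 2 ∨ d % 4 = 3) : NumberField.discr K = 4 * d := by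
  have h1 : d ≠ 1 := by
    rintro rfl
    omega
  obtain ⟨ω, b, hω, hb0, hb1⟩ := exists_ibasis hF hs hsf h1 h4
  have hsq : ω * ω = ((d : ℤ) : 𝓞 K) := by
    apply RingOfIntegers.ext
    simp only [map_mul, map_intCast]
    rw [show algebraMap (𝓞 K) K ω = s from hω, ← hs]
    ring
  rw [← discr_eq_discr K b, Algebra.discr_def, Matrix.det_fin_two]
  simp only [Algebra.traceMatrix_apply, Algebra.traceForm_apply]
  have t1 : Algebra.trace ℤ (𝓞 K) (1 : 𝓞 K) = 2 := by
    have := DiscrAux.tr_int (K := K) hF 1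
    simpa using this
  rw [hb0, hb1, one_mul, one_mul, mul_one, t1, tr_om hF hs hsf h1 hω, hsq,
    DiscrAux.tr_int hF]
  ring

theorem one_lt (hsf : Squarefree d.natAbs) (h1 : d ≠ 1) (h4 : d % 4 = 1) : 1 < d.natAbs := by
  have h0 : d.natAbs ≠ 0 := hsf.ne_zero
  omega

/-- A quadratic field is generated by the square root of a squarefree integer. -/
theorem exists_sqrt (hF : Module.finrank ℚ K = 2) :
    ∃ (m : ℤ) (s : K), Squarefree m.natAbs ∧ m ≠ 1 ∧ s ^ 2 = (m : K) := by
  -- an element outside `ℚ`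
  obtain ⟨θ, hθ⟩ : ∃ θ : K, ∀ r : ℚ, (r : K) ≠ θ := by
    by_contra hcon
    push Not at hcon
    have h2 : Module.finrank ℚ K ≤ 1 := by
      refine finrank_le_one (1 : K) fun w => ?_
      obtain ⟨r, hr⟩ := hcon w
      exact ⟨r, by rw [Algebra.smul_def, mul_one]; exact hr⟩
    omega
  -- the elements `1, θ, θ²` are dependent
  have hli : ¬ LinearIndependent ℚ ![(1 : K), θ, θ ^ 2] := by
    intro h
    have := h.fintype_card_le_finrank
    rw [hF] at this
    simp at this
  obtain ⟨a, b, c, habc, hne⟩ : ∃ a b c : ℚ, (a : K) + b * θ + c * θ ^ 2 = 0 ∧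
      (a ≠ 0 ∨ b ≠ 0 ∨ c ≠ 0) := by
    rw [Fintype.not_linearIndependent_iff] at hli
    obtain ⟨g, hg, i, hi⟩ := hli
    refine ⟨g 0, g 1, g 2, ?_, ?_⟩
    · rw [Fin.sum_univ_three] at hg
      simp only [Algebra.smul_def] at hg
      simpa using hg
    · fin_cases i
      · exact Or.inl hi
      · exact Or.inr (Or.inl hi)
      · exact Or.inr (Or.inr hi)
  have hc : c ≠ 0 := by
    rintro rfl
    rw [Rat.cast_zero, zero_mul, add_zero] at habc
    by_cases hb : b = 0
    · subst hb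
      rw [Rat.cast_zero, zero_mul, add_zero] at habc
      have ha : a = 0 := by exact_mod_cast habc
      tauto
    · have hb' : (b : K) ≠ 0 := by exact_mod_cast hb
      apply hθ (-a / b)
      push_cast
      rw [div_eq_iff hb']
      linear_combination -habc
  have hc' : (c : K) ≠ 0 := by exact_mod_cast hc
  -- `(2 c θ + b)² = b² - 4 a c`
  have hsq : (2 * (c : K) * θ + b) ^ 2 = ((b ^ 2 - 4 * a * c : ℚ) : K) := by
    push_cast
    linear_combination 4 * (c : K) * habc
  have hnr : ∀ r : ℚ, (r : K) ≠ 2 * (c : K) * θ + b := by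
    intro r hr
    apply hθ ((r - b) / (2 * c))
    have h2 : (2 : K) * (c : K) ≠ 0 := mul_ne_zero two_ne_zero hc'
    push_cast
    rw [div_eq_iff h2, hr]
    ring
  generalize 2 * (c : K) * θ + b = t at hsq hnr
  generalize b ^ 2 - 4 * a * c = r at hsq
  -- clear the denominator
  have hden : (r.den : ℚ) ≠ 0 := by exact_mod_cast r.den_nz
  have hdenK : (r.den : K) ≠ 0 := by exact_mod_cast r.den_nz
  have hn : ((r.den : K) * t) ^ 2 = ((r.num * r.den : ℤ) : K) := by
    have e1 : (r : ℚ) * r.den = r.num := Rat.mul_den_eq_num r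
    have e2 : ((r : ℚ) : K) * (r.den : K) = (r.num : K) := by
      have := congrArg (fun x : ℚ => (x : K)) e1
      push_cast at this
      exact this
    push_cast
    rw [mul_pow, hsq, ← e2]
    ring
  have hnr2 : ∀ x : ℚ, (x : K) ≠ (r.den : K) * t := by
    intro x hx
    apply hnr (x / r.den)
    push_cast
    rw [div_eq_iff hdenK, hx]
    ring
  generalize (r.den : K) * t = u at hn hnr2
  generalize r.num * (r.den : ℤ) = n at hn
  have hn0 : n ≠ 0 := by
    rintro rfl
    apply hnr2 0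
    rw [Int.cast_zero] at hn
    rw [Rat.cast_zero]
    exact (pow_eq_zero_iff two_ne_zero).1 hn |>.symm
  -- the squarefree part
  obtain ⟨m, c, hmc, hm⟩ := Nat.sq_mul_squarefree n.natAbs
  have hc0 : c ≠ 0 := by
    rintro rfl
    rw [zero_pow two_ne_zero, zero_mul] at hmc
    exact hn0 (Int.natAbs_eq_zero.1 hmc.symm)
  have hcK : (c : K) ≠ 0 := by exact_mod_cast hc0
  have hnm : n = (c : ℤ) ^ 2 * (n.sign * m) := by
    have e1 : n = n.sign * n.natAbs := (Int.sign_mul_natAbs n).symm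
    rw [← hmc] at e1
    push_cast at e1
    linear_combination e1
  have hab : (n.sign * (m : ℤ)).natAbs = m := by
    rw [Int.natAbs_mul, Int.natAbs_sign_of_ne_zero hn0, one_mul, Int.natAbs_natCast]
  refine ⟨n.sign * m, u / c, by rw [hab]; exact hm, ?_, ?_⟩
  · intro h1
    have e : u ^ 2 = (c : K) ^ 2 := by
      rw [hn, hnm, h1]
      push_cast
      ring
    rcases sq_eq_sq_iff_eq_or_eq_neg.1 e with h | h
    · apply hnr2 c
      rw [h]
      push_cast
      rfl
    · apply hnr2 (-c)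
      rw [h]
      push_cast
      rfl
  · rw [div_pow, div_eq_iff (pow_ne_zero 2 hcK), hn]
    conv_lhs => rw [hnm]
    push_cast
    ring

end DiscrBAux

open DiscrBAux

theorem stDiscrB : StDiscrB := by
  refine ⟨?_, ?_⟩
  · intro K _ _ hF
    obtain ⟨m, s, hsf, h1, hs⟩ := exists_sqrt hF
    by_cases h4 : m % 4 = 1
    · have hd := stDiscr K s m hF hs hsf (one_lt hsf h1 h4) h4
      rw [hd]
      exact ⟨Or.inl ⟨h4, hsf, h1⟩, s, hs⟩
    · have h0 : m % 4 ≠ 0 := by
        intro h0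
        have h5 : 2 * 2 ∣ m.natAbs := by omega
        have := hsf 2 h5
        rw [Nat.isUnit_iff] at this
        omega
      have h6 : m % 4 = 2 ∨ m % 4 = 3 := by omega
      have hd := discr_eq hF hs hsf h6
      rw [hd]
      have h7 : 4 * m / 4 = m := by omega
      refine ⟨Or.inr ⟨by omega, by rw [h7]; exact h6, by rw [h7]; exact hsf⟩, 2 * s, ?_⟩
      push_cast
      rw [mul_pow, hs]
      norm_num
  · intro K _ _ s d hF hd hs
    rcases hd with ⟨h4, hsf, h1⟩ | ⟨h4, h6, hsf⟩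
    · exact stDiscr K s d hF hs hsf (one_lt hsf h1 h4) h4
    · have e : d = 4 * (d / 4) := by omega
      have hs2 : (s / 2) ^ 2 = ((d / 4 : ℤ) : K) := by
        have e2 : (d : K) = 4 * ((d / 4 : ℤ) : K) := by
          have := congrArg (fun x : ℤ => (x : K)) e
          push_cast at this
          exact this
        rw [div_pow, hs, e2]
        ring
      rw [discr_eq hF hs2 hsf h6]
      exact e.symm

end LO

end Pool.Agent.Lib.MP_7c5fb9_nt
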