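import Pool.Agent.Lib.MP_7c5fb9_nt.LO.Stmts

set_option autoImplicit false

/-!
# The class number formula for imaginary quadratic fields (module ICN)
-/

namespace Pool.Agent.Lib.MP_7c5fb9_nt

namespace LO

namespace ICN

open Module NumberField Filter Topology

section field

variable {p : ℕ} {K : Type} [Field K] [NumberField K] {α : K}

lemma rat_sq_ne (hp0 : 0 < p) (x : ℚ) : (x : ℚ) ^ 2 ≠ -(p : ℚ) := by
  have : (0 : ℚ) < p := by exact_mod_cast hp0
  have := sq_nonneg x
  intro h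
  linarith

lemma alpha_pair (hp0 : 0 < p) (hα : α ^ 2 = -(p : K)) (s t : ℚ)
    (h : s • (1 : K) + t • α = 0) : s = 0 ∧ t = 0 := by
  have ht : t = 0 := by
    by_contra ht
    have h1 : α = ((-(s / t) : ℚ) : K) := by
      have h2 : (t : K) * α = -(s : K) := by
        rw [Rat.smul_def, Rat.smul_def, mul_one] at h
        linear_combination h
      have ht' : (t : K) ≠ 0 := by exact_mod_cast ht
      push_cast
      field_simp
      linear_combination h2
    rw [h1] at hα
    have h3 : (((-(s / t)) ^ 2 : ℚ) : K) = ((-(p : ℚ) : ℚ) : K) := by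
      push_cast
      push_cast at hα
      exact hα
    exact rat_sq_ne hp0 _ (by exact_mod_cast h3)
  subst ht
  rw [zero_smul, add_zero, Rat.smul_def, mul_one] at h
  exact ⟨by exact_mod_cast h, rfl⟩

lemma alpha_linInd (hp0 : 0 < p) (hα : α ^ 2 = -(p : K)) :
    LinearIndependent ℚ ![(1 : K), α] := by
  rw [LinearIndependent.pair_iff]
  exact fun s t h => alpha_pair hp0 hα s t h

/-- The basis `1, α` of `K`. -/
noncomputable def abasis (hp0 : 0 < p) (hK : finrank ℚ K = 2) (hα : α ^ 2 = -(p : K)) :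
    Basis (Fin 2) ℚ K :=
  basisOfLinearIndependentOfCardEqFinrank (alpha_linInd hp0 hα) (by simp [hK])

lemma abasis_zero (hp0 : 0 < p) (hK : finrank ℚ K = 2) (hα : α ^ 2 = -(p : K)) :
    abasis hp0 hK hα 0 = 1 := by
  simp [abasis]

lemma abasis_one (hp0 : 0 < p) (hK : finrank ℚ K = 2) (hα : α ^ 2 = -(p : K)) :
    abasis hp0 hK hα 1 = α := by
  simp [abasis]

lemma abasis_repr (hp0 : 0 < p) (hK : finrank ℚ K = 2) (hα : α ^ 2 = -(p : K)) (x y : ℚ) :
    (abasis hp0 hK hα).repr (x • (1 : K) + y • α) 0 = x ∧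
    (abasis hp0 hK hα).repr (x • (1 : K) + y • α) 1 = y := by
  have h0 : (abasis hp0 hK hα).repr 1 = Finsupp.single 0 1 := by
    conv_lhs => rw [← abasis_zero hp0 hK hα]
    exact Basis.repr_self _ _
  have h1 : (abasis hp0 hK hα).repr α = Finsupp.single 1 1 := by
    conv_lhs => arg 2; rw [← abasis_one hp0 hK hα]
    exact Basis.repr_self _ _
  rw [map_add, map_smul, map_smul, h0, h1]
  simp

lemma exists_coords (hp0 : 0 < p) (hK : finrank ℚ K = 2) (hα : α ^ 2 = -(p : K)) (z : K) :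
    ∃ u v : ℚ, z = u • (1 : K) + v • α := by
  refine ⟨(abasis hp0 hK hα).repr z 0, (abasis hp0 hK hα).repr z 1, ?_⟩
  conv_lhs => rw [← (abasis hp0 hK hα).sum_repr z]
  rw [Fin.sum_univ_two, abasis_zero, abasis_one]

lemma leftMul_coords (hp0 : 0 < p) (hK : finrank ℚ K = 2) (hα : α ^ 2 = -(p : K)) (u v : ℚ) :
    Algebra.leftMulMatrix (abasis hp0 hK hα) (u • (1 : K) + v • α)
      = !![u, -(p : ℚ) * v; v, u] := by
  have e0 : (u • (1 : K) + v • α) * 1 = u • (1 : K) + v • α := mul_one _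
  have e1 : (u • (1 : K) + v • α) * α = (-(p : ℚ) * v) • (1 : K) + u • α := by
    simp only [Rat.smul_def]
    push_cast
    linear_combination (v : K) * hα
  ext i j
  rw [Algebra.leftMulMatrix_eq_repr_mul]
  fin_cases j
  · simp only [Fin.zero_eta, abasis_zero, e0]
    fin_cases i
    · simpa using (abasis_repr hp0 hK hα u v).1
    · simpa using (abasis_repr hp0 hK hα u v).2
  · simp only [Fin.mk_one, abasis_one, e1]
    fin_cases i
    · simpa using (abasis_repr hp0 hK hα (-(p : ℚ) * v) u).1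
    · simpa using (abasis_repr hp0 hK hα (-(p : ℚ) * v) u).2

lemma trace_coords (hp0 : 0 < p) (hK : finrank ℚ K = 2) (hα : α ^ 2 = -(p : K)) (u v : ℚ) :
    Algebra.trace ℚ K (u • (1 : K) + v • α) = 2 * u := by
  rw [Algebra.trace_eq_matrix_trace (abasis hp0 hK hα), leftMul_coords, Matrix.trace_fin_two]
  simp
  ring

lemma norm_coords (hp0 : 0 < p) (hK : finrank ℚ K = 2) (hα : α ^ 2 = -(p : K)) (u v : ℚ) :
    Algebra.norm ℚ (u • (1 : K) + v • α) = u ^ 2 + p * v ^ 2 := by
  rw [Algebra.norm_eq_matrix_det (abasis hp0 hK hα), leftMul_coords, Matrix.det_fin_two]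
  simp
  ring

/-- A rational `w` with `p w²` an integer is an integer (`p` squarefree). -/
lemma rat_int_of_sq (hsq : Squarefree p) (w : ℚ) (N : ℤ) (h : (p : ℚ) * w ^ 2 = N) :
    ∃ b : ℤ, w = b := by
  have hd : (w.den : ℚ) ≠ 0 := by exact_mod_cast w.den_ne_zero
  have hw : w = w.num / w.den := (Rat.num_div_den w).symm
  have h1 : (p : ℤ) * w.num ^ 2 = N * (w.den : ℤ) ^ 2 := by
    have : (p : ℚ) * w.num ^ 2 = N * (w.den : ℚ) ^ 2 := by
      rw [← h]
      have h0 : w * w.den = w.num := Rat.mul_den_eq_num w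
      rw [← h0]; ring
    exact_mod_cast this
  have h2 : ((w.den : ℤ)) ^ 2 ∣ (p : ℤ) := by
    have hco : IsCoprime ((w.den : ℤ) ^ 2) (w.num ^ 2) := by
      apply IsCoprime.pow
      rw [Int.isCoprime_iff_gcd_eq_one, Int.gcd_comm]
      exact w.reduced
    exact hco.dvd_of_dvd_mul_right ⟨N, by rw [h1]; ring⟩
  have h3 : w.den ^ 2 ∣ p := by exact_mod_cast h2
  have h4 : w.den = 1 := by
    have h5 := hsq w.den (by rw [← sq]; exact h3)
    exact Nat.isUnit_iff.mp h5
  refine ⟨w.num, ?_⟩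
  conv_lhs => rw [hw]
  rw [h4]; simp

lemma unit_eq (hsq : Squarefree p) (hp3 : 4 < p) (hK : finrank ℚ K = 2)
    (hα : α ^ 2 = -(p : K)) (u : (𝓞 K)ˣ) : u = 1 ∨ u = -1 := by
  have hp0 : 0 < p := by omega
  obtain ⟨x, y, hxy⟩ := exists_coords hp0 hK hα ((u : 𝓞 K) : K)
  have hx : IsIntegral ℤ ((u : 𝓞 K) : K) := RingOfIntegers.isIntegral_coe (u : 𝓞 K)
  have ht : IsIntegral ℤ (Algebra.trace ℚ K ((u : 𝓞 K) : K)) := Algebra.isIntegral_trace hx
  rw [hxy, trace_coords hp0 hK hα] at ht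
  obtain ⟨a0, ha0⟩ := IsIntegrallyClosed.isIntegral_iff.1 ht
  simp only [algebraMap_int_eq, eq_intCast] at ha0
  have hn : |Algebra.norm ℚ ((u : 𝓞 K) : K)| = 1 :=
    (NumberField.isUnit_iff_norm (K := K)).mp u.isUnit
  have hn2 : x ^ 2 + p * y ^ 2 = 1 := by
    rw [hxy, norm_coords hp0 hK hα, abs_of_nonneg (by positivity)] at hn
    exact hn
  have hw : (p : ℚ) * (2 * y) ^ 2 = ((4 - a0 ^ 2 : ℤ) : ℚ) := by
    push_cast
    rw [ha0]
    linear_combination 4 * hn2
  obtain ⟨b0, hb0⟩ := rat_int_of_sq hsq (2 * y) _ hw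
  have hint : (p : ℤ) * b0 ^ 2 = 4 - a0 ^ 2 := by
    rw [hb0] at hw
    exact_mod_cast hw
  have hb : b0 = 0 := by
    by_contra hb
    have hb2 : 1 ≤ b0 ^ 2 := by
      have : 0 < b0 ^ 2 := by positivity
      omega
    have hp5 : (5 : ℤ) ≤ p := by exact_mod_cast hp3
    nlinarith [sq_nonneg a0]
  have hy : y = 0 := by
    rw [hb] at hb0
    have : (2 : ℚ) * y = 0 := by rw [hb0]; simp
    linarith
  have hx2 : x * x = 1 := by
    rw [hy] at hn2
    linarith
  rcases mul_self_eq_one_iff.1 hx2 with h | h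
  · left
    apply Units.ext
    apply FaithfulSMul.algebraMap_injective (𝓞 K) K
    have : algebraMap (𝓞 K) K (u : 𝓞 K) = x • (1 : K) + y • α := hxy
    rw [this, h, hy]
    simp
  · right
    apply Units.ext
    apply FaithfulSMul.algebraMap_injective (𝓞 K) K
    have : algebraMap (𝓞 K) K (u : 𝓞 K) = x • (1 : K) + y • α := hxy
    rw [this, h, hy]
    simp

lemma torsionOrder_eq (hsq : Squarefree p) (hp3 : 4 < p) (hK : finrank ℚ K = 2)
    (hα : α ^ 2 = -(p : K)) : Units.torsionOrder K = 2 := by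
  have h1 := Units.even_torsionOrder K
  have h2 := Units.torsionOrder_pos K
  have h3 : Units.torsionOrder K ≤ 2 := by
    rw [Units.torsionOrder]
    have hsub : ((Units.torsion K : Subgroup (𝓞 K)ˣ) : Set (𝓞 K)ˣ) ⊆ {1, -1} := by
      intro x _
      rcases unit_eq hsq hp3 hK hα x with hx | hx <;> simp [hx]
    have h4 := Set.ncard_le_ncard hsub (Set.toFinite _)
    have h5 : ({1, -1} : Set (𝓞 K)ˣ).ncard ≤ 2 := by
      refine (Set.ncard_insert_le _ _).trans ?_
      simp
    exact h4.trans h5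
  obtain ⟨k, hk⟩ := h1
  omega

lemma nrRealPlaces_eq (hp0 : 0 < p) (hα : α ^ 2 = -(p : K)) :
    InfinitePlace.nrRealPlaces K = 0 := by
  classical
  rw [InfinitePlace.nrRealPlaces, Fintype.card_eq_zero_iff]
  refine ⟨fun w => ?_⟩
  obtain ⟨w, hw⟩ := w
  have f := InfinitePlace.embedding_of_isReal hw
  have h : (f α) ^ 2 = -(p : ℝ) := by
    rw [← map_pow, hα, map_neg, map_natCast]
  have h1 : (0 : ℝ) < p := by exact_mod_cast hp0
  nlinarith [sq_nonneg (f α)]

lemma nrComplexPlaces_eq (hp0 : 0 < p) (hK : finrank ℚ K = 2) (hα : α ^ 2 = -(p : K)) :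
    InfinitePlace.nrComplexPlaces K = 1 := by
  have h := InfinitePlace.card_add_two_mul_card_eq_rank (K := K)
  rw [hK, nrRealPlaces_eq hp0 hα] at h
  omega

lemma regulator_eq (hp0 : 0 < p) (hK : finrank ℚ K = 2) (hα : α ^ 2 = -(p : K)) :
    Units.regulator K = 1 := by
  classical
  have h := InfinitePlace.card_eq_nrRealPlaces_add_nrComplexPlaces (K := K)
  rw [nrRealPlaces_eq hp0 hα, nrComplexPlaces_eq hp0 hK hα] at h
  rw [Units.regulator_eq_det']
  have hempty : IsEmpty {w : InfinitePlace K // w ≠ Units.dirichletUnitTheorem.w₀} := by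
    refine ⟨fun w => ?_⟩
    obtain ⟨w, hw⟩ := w
    have hs : Subsingleton (InfinitePlace K) := by
      rw [← Fintype.card_le_one_iff_subsingleton]
      omega
    exact hw (Subsingleton.elim _ _)
  rw [Matrix.det_isEmpty, abs_one]

lemma residue_eq (hsq : Squarefree p) (hp3 : 4 < p) (hK : finrank ℚ K = 2)
    (hα : α ^ 2 = -(p : K)) (hd : discr K = -(p : ℤ)) :
    dedekindZeta_residue K = Real.pi * classNumber K / Real.sqrt p := by
  have hp0 : 0 < p := by omega
  rw [dedekindZeta_residue_def, nrRealPlaces_eq hp0 hα, nrComplexPlaces_eq hp0 hK hα,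
    regulator_eq hp0 hK hα, torsionOrder_eq hsq hp3 hK hα, hd]
  have h1 : (0 : ℝ) < p := by exact_mod_cast hp0
  push_cast
  rw [abs_neg, abs_of_pos h1]
  have : 0 < Real.sqrt p := Real.sqrt_pos.2 h1
  field_simp

end field

end ICN

open Module NumberField Filter Topology in
theorem stICN (hDiscr : StDiscr) (hZeta : StZeta) (hLOne : StLOne) : StICN := by
  intro K _ _ s N hK hs hsq h4 h3
  have hN4 : 4 < N := by omega
  have hN0 : (0 : ℝ) < N := by exact_mod_cast (by omega : 0 < N)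
  have hnat : (-(N : ℤ)).natAbs = N := by simp
  have hs' : s ^ 2 = ((-(N : ℤ) : ℤ) : K) := by rw [hs]; push_cast; ring
  have hmod : (-(N : ℤ)) % 4 = 1 := by omega
  have hd : discr K = -(N : ℤ) := hDiscr K s (-(N : ℤ)) hK hs' (by rw [hnat]; exact hsq)
    (by rw [hnat]; omega) hmod
  have hz := hZeta K s (-(N : ℤ)) hK hs' (by rw [hnat]; exact hsq) (by rw [hnat]; omega) hmod
  rw [hnat] at hz
  obtain ⟨L, hL, hL2⟩ := (hLOne N hsq (by omega)).2 h4
  have hres := ICN.residue_eq hsq hN4 hK hs hd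
  -- the two limits
  have t1 : Tendsto (fun x : ℝ => ((x : ℂ) - 1) * dedekindZeta K x) (𝓝[>] 1)
      (𝓝 (dedekindZeta_residue K : ℂ)) := tendsto_sub_one_mul_dedekindZeta_nhdsGT K
  have t2 : Tendsto (fun x : ℝ => ((x : ℂ) - 1) * riemannZeta x *
      LSeries (fun n => (jacobiSym n N : ℂ)) x) (𝓝[>] 1) (𝓝 (1 * (L : ℂ))) := by
    refine Tendsto.mul ?_ hL
    refine riemannZeta_residue_one.comp ?_
    refine tendsto_nhdsWithin_iff.mpr ⟨?_, ?_⟩
    · exact (Complex.continuous_ofReal.tendsto 1).mono_left nhdsWithin_le_nhds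
    · filter_upwards [self_mem_nhdsWithin] with x hx
      simp only [Set.mem_Ioi] at hx
      simp only [Set.mem_compl_iff, Set.mem_singleton_iff]
      intro h
      have : x = 1 := by exact_mod_cast h
      linarith
  have t3 : Tendsto (fun x : ℝ => ((x : ℂ) - 1) * dedekindZeta K x) (𝓝[>] 1)
      (𝓝 (1 * (L : ℂ))) := by
    refine t2.congr' ?_
    filter_upwards [self_mem_nhdsWithin] with x hx
    rw [hz x hx, mul_assoc]
  have hLeq : (dedekindZeta_residue K : ℂ) = 1 * (L : ℂ) := tendsto_nhds_unique t1 t3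
  have hLr : L = Real.pi * classNumber K / Real.sqrt N := by
    rw [one_mul] at hLeq
    have : dedekindZeta_residue K = L := by exact_mod_cast hLeq
    rw [← this, hres]
  have hsqrt : 0 < Real.sqrt N := Real.sqrt_pos.2 hN0
  have hLpos : 0 ≤ L := by
    rw [hLr]
    have := Real.pi_pos
    positivity
  rw [abs_of_nonneg hLpos, hLr] at hL2
  have hfin : Real.pi * ((N : ℝ) * classNumber K) = Real.pi * LI N := by
    rw [← hL2]
    field_simp
  have hfin2 : ((N : ℝ) * classNumber K) = LI N :=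
    mul_left_cancel₀ Real.pi_ne_zero hfin
  have hcard : Nat.card (ClassGroup (𝓞 K)) = classNumber K := by
    rw [classNumber, Nat.card_eq_fintype_card]
  rw [hcard]
  exact_mod_cast hfin2.symm

end LO

end Pool.Agent.Lib.MP_7c5fb9_nt
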