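import Pool.Agent.Lib.MP_7c5fb9_nt.LO.Stmts2
import Pool.Agent.Lib.MP_7c5fb9_nt.LO.ICN

set_option autoImplicit false

/-!
# The class number formula for imaginary quadratic fields (module ICNB)
-/

namespace Pool.Agent.Lib.MP_7c5fb9_nt

namespace LO

namespace ICNB

open Module NumberField Filter Topology ICN

variable {p : ℕ} {K : Type} [Field K] [NumberField K] {α : K}

lemma unit_eq (hsq : Squarefree p) (hp3 : 4 < p ∨ p = 2) (hK : finrank ℚ K = 2)
    (hα : α ^ 2 = -(p : K)) (u : (𝓞 K)ˣ) : u = 1 ∨ u = -1 := by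
  rcases hp3 with hp3 | hp2
  · exact ICN.unit_eq hsq hp3 hK hα u
  have hp0 : 0 < p := by omega
  obtain ⟨x, y, hxy⟩ := exists_coords hp0 hK hα ((u : 𝓞 K) : K)
  have hx : IsIntegral ℤ ((u : 𝓞 K) : K) := RingOfIntegers.isIntegral_coe (u : 𝓞 K)
  have ht : IsIntegral ℤ (Algebra.trace ℚ K ((u : 𝓞 K) : K)) := Algebra.isIntegral_trace hx
  rw [hxy, trace_coords hp0 hK hα] at ht
  obtain ⟨a0, ha0⟩ := IsIntegrallyClosed.isIntegral_iff.1 ht
  simp only [algebraMap_int_eq, eq_intCast] at ha0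
  have hn : |Algebra.norm ℚ ((u : 𝓞 K) : K)| = 1 :=
    (NumberField.isUnit_iff_norm (K := K)).mp u.isUnit
  have hn2 : x ^ 2 + p * y ^ 2 = 1 := by
    rw [hxy, norm_coords hp0 hK hα, abs_of_nonneg (by positivity)] at hn
    exact hn
  have hw : (p : ℚ) * (2 * y) ^ 2 = ((4 - a0 ^ 2 : ℤ) : ℚ) := by
    push_cast
    rw [ha0]
    linear_combination 4 * hn2
  obtain ⟨b0, hb0⟩ := rat_int_of_sq hsq (2 * y) _ hw
  have hint : (p : ℤ) * b0 ^ 2 = 4 - a0 ^ 2 := by
    rw [hb0] at hw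
    exact_mod_cast hw
  have hb : b0 = 0 := by
    by_contra hb
    have hb2 : 1 ≤ b0 ^ 2 := by
      have : 0 < b0 ^ 2 := by positivity
      omega
    rw [hp2] at hint
    push_cast at hint
    have hb3 : b0 ^ 2 ≤ 2 := by nlinarith [sq_nonneg a0]
    have ha3 : a0 ^ 2 ≤ 2 := by nlinarith
    have hb4 : b0 ≤ 1 := by nlinarith
    have hb5 : -1 ≤ b0 := by nlinarith
    have ha4 : a0 ≤ 1 := by nlinarith
    have ha5 : -1 ≤ a0 := by nlinarith
    have hb6 : b0 ^ 2 = 1 := by
      have h1 : b0 = -1 ∨ b0 = 1 := by omega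
      rcases h1 with h1 | h1 <;> rw [h1] <;> norm_num
    have ha6 : a0 ^ 2 = 0 ∨ a0 ^ 2 = 1 := by
      have h1 : a0 = -1 ∨ a0 = 0 ∨ a0 = 1 := by omega
      rcases h1 with h1 | h1 | h1 <;> rw [h1] <;> norm_num
    omega
  have hy : y = 0 := by
    rw [hb] at hb0
    have : (2 : ℚ) * y = 0 := by rw [hb0]; simp
    linarith
  have hx2 : x * x = 1 := by
    rw [hy] at hn2
    linarith
  rcases mul_self_eq_one_iff.1 hx2 with h | h
  · left
    apply Units.ext
    apply FaithfulSMul.algebraMap_injective (𝓞 K) K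
    have : algebraMap (𝓞 K) K (u : 𝓞 K) = x • (1 : K) + y • α := hxy
    rw [this, h, hy]
    simp
  · right
    apply Units.ext
    apply FaithfulSMul.algebraMap_injective (𝓞 K) K
    have : algebraMap (𝓞 K) K (u : 𝓞 K) = x • (1 : K) + y • α := hxy
    rw [this, h, hy]
    simp

lemma torsionOrder_eq (hsq : Squarefree p) (hp3 : 4 < p ∨ p = 2) (hK : finrank ℚ K = 2)
    (hα : α ^ 2 = -(p : K)) : Units.torsionOrder K = 2 := by
  have h1 := Units.even_torsionOrder K
  have h2 := Units.torsionOrder_pos K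
  have h3 : Units.torsionOrder K ≤ 2 := by
    rw [Units.torsionOrder]
    have hsub : ((Units.torsion K : Subgroup (𝓞 K)ˣ) : Set (𝓞 K)ˣ) ⊆ {1, -1} := by
      intro x _
      rcases unit_eq hsq hp3 hK hα x with hx | hx <;> simp [hx]
    have h4 := Set.ncard_le_ncard hsub (Set.toFinite _)
    have h5 : ({1, -1} : Set (𝓞 K)ˣ).ncard ≤ 2 := by
      refine (Set.ncard_insert_le _ _).trans ?_
      simp
    exact h4.trans h5
  obtain ⟨k, hk⟩ := h1
  omega

lemma residue_eq (hsq : Squarefree p) (hp3 : 4 < p ∨ p = 2) (hK : finrank ℚ K = 2)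
    (hα : α ^ 2 = -(p : K)) (hd0 : discr K ≠ 0) :
    dedekindZeta_residue K = Real.pi * classNumber K / Real.sqrt ((discr K).natAbs : ℝ) := by
  have hp0 : 0 < p := by omega
  rw [dedekindZeta_residue_def, nrRealPlaces_eq hp0 hα, nrComplexPlaces_eq hp0 hK hα,
    regulator_eq hp0 hK hα, torsionOrder_eq hsq hp3 hK hα]
  have h0 : ((discr K).natAbs : ℝ) = |(discr K : ℝ)| := by
    rw [← Int.cast_natCast, Int.natCast_natAbs, Int.cast_abs]
  have h1 : (0 : ℝ) < |(discr K : ℝ)| := abs_pos.2 (by exact_mod_cast hd0)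
  rw [h0]
  have : 0 < Real.sqrt |(discr K : ℝ)| := Real.sqrt_pos.2 h1
  push_cast
  field_simp

/-- A square root of a squarefree number. -/
lemma exists_root {d : ℤ} (hFD : FD d) (hd4 : d < -4) {s : K} (hs : s ^ 2 = (d : K)) :
    ∃ (p : ℕ) (α : K), α ^ 2 = -(p : K) ∧ Squarefree p ∧ (4 < p ∨ p = 2) := by
  rcases hFD with ⟨-, h2, -⟩ | ⟨h1, h2, h3⟩
  · refine ⟨d.natAbs, s, ?_, h2, Or.inl (by omega)⟩
    rw [hs]
    have h : (d : ℤ) = -(d.natAbs : ℤ) := by omega
    have h' : (d : K) = ((-(d.natAbs : ℤ) : ℤ) : K) := by rw [← h]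
    rw [h', Int.cast_neg, Int.cast_natCast]
  · refine ⟨(d / 4).natAbs, s / 2, ?_, h3, ?_⟩
    · have h : (d : ℤ) = -(4 * ((d / 4).natAbs : ℤ)) := by omega
      have h' : (d : K) = ((-(4 * ((d / 4).natAbs : ℤ)) : ℤ) : K) := by rw [← h]
      rw [div_pow, hs, h', Int.cast_neg, Int.cast_mul, Int.cast_natCast]
      push_cast
      ring
    · by_cases h5 : d = -8
      · right
        rw [h5]
        rfl
      · left
        omega

end ICNB

open Module NumberField Filter Topology in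
theorem stICNB (hDiscrB : StDiscrB) (hZetaB : StZetaB) (hLOneB : StLOneB) : StICNB := by
  intro K _ _ hK hd4
  obtain ⟨hFD, s, hs⟩ := hDiscrB.1 K hK
  obtain ⟨p, α, hα, hsq, hp⟩ := ICNB.exists_root hFD hd4 hs
  have hz := hZetaB K hK
  obtain ⟨L, hL, -, hL2⟩ := hLOneB (discr K) hFD
  have hL3 := hL2 (by omega)
  have hres := ICNB.residue_eq hsq hp hK hα (by omega)
  have hN0 : (0 : ℝ) < ((discr K).natAbs : ℝ) := by
    have : 0 < (discr K).natAbs := by omega
    exact_mod_cast this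
  -- the two limits
  have t1 : Tendsto (fun x : ℝ => ((x : ℂ) - 1) * dedekindZeta K x) (𝓝[>] 1)
      (𝓝 (dedekindZeta_residue K : ℂ)) := tendsto_sub_one_mul_dedekindZeta_nhdsGT K
  have t2 : Tendsto (fun x : ℝ => ((x : ℂ) - 1) * riemannZeta x *
      LSeries (fun n => (kr (discr K) n : ℂ)) x) (𝓝[>] 1) (𝓝 (1 * (L : ℂ))) := by
    refine Tendsto.mul ?_ hL
    refine riemannZeta_residue_one.comp ?_
    refine tendsto_nhdsWithin_iff.mpr ⟨?_, ?_⟩
    · exact (Complex.continuous_ofReal.tendsto 1).mono_left nhdsWithin_le_nhds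
    · filter_upwards [self_mem_nhdsWithin] with x hx
      simp only [Set.mem_Ioi] at hx
      simp only [Set.mem_compl_iff, Set.mem_singleton_iff]
      intro h
      have : x = 1 := by exact_mod_cast h
      linarith
  have t3 : Tendsto (fun x : ℝ => ((x : ℂ) - 1) * dedekindZeta K x) (𝓝[>] 1)
      (𝓝 (1 * (L : ℂ))) := by
    refine t2.congr' ?_
    filter_upwards [self_mem_nhdsWithin] with x hx
    rw [hz x hx, mul_assoc]
  have hLeq : (dedekindZeta_residue K : ℂ) = 1 * (L : ℂ) := tendsto_nhds_unique t1 t3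
  have hLr : L = Real.pi * classNumber K / Real.sqrt ((discr K).natAbs : ℝ) := by
    rw [one_mul] at hLeq
    have : dedekindZeta_residue K = L := by exact_mod_cast hLeq
    rw [← this, hres]
  have hsqrt : 0 < Real.sqrt ((discr K).natAbs : ℝ) := Real.sqrt_pos.2 hN0
  have hLpos : 0 ≤ L := by
    rw [hLr]
    have := Real.pi_pos
    positivity
  rw [abs_of_nonneg hLpos, hLr] at hL3
  have hfin : Real.pi * (((discr K).natAbs : ℝ) * classNumber K) =
      Real.pi * (LIB (discr K) : ℝ) := by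
    rw [← hL3]
    field_simp
  have hfin2 : (((discr K).natAbs : ℝ) * classNumber K) = (LIB (discr K) : ℝ) :=
    mul_left_cancel₀ Real.pi_ne_zero hfin
  have hcard : Nat.card (ClassGroup (𝓞 K)) = classNumber K := by
    rw [classNumber, Nat.card_eq_fintype_card]
  rw [hcard]
  apply Int.cast_injective (α := ℝ)
  rw [Int.cast_mul, Int.cast_natCast, Int.cast_natCast]
  exact hfin2.symm

end LO

end Pool.Agent.Lib.MP_7c5fb9_nt
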