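import Pool.Agent.Lib.MP_7c5fb9_nt.LO.Stmts

set_option autoImplicit false

/-!
# Level one (MP_7c5fb9_nt, project LO): the criterion (module Key)
-/

namespace Pool.Agent.Lib.MP_7c5fb9_nt

namespace LO

namespace KeyAux

open Polynomial

/-- Quadratic fields exist. -/
theorem exists_field (d : ℤ) (hd : ∀ x : ℚ, x ^ 2 ≠ d) :
    ∃ (K : Type) (_ : Field K) (_ : NumberField K) (s : K), Module.finrank ℚ K = 2 ∧
      s ^ 2 = (d : K) := by
  have hdeg : (X ^ 2 - C (d : ℚ)).natDegree = 2 := natDegree_X_pow_sub_C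
  have hmon : (X ^ 2 - C (d : ℚ)).Monic := monic_X_pow_sub_C _ two_ne_zero
  have hirr : Irreducible (X ^ 2 - C (d : ℚ)) := by
    refine Polynomial.irreducible_of_degree_le_three_of_not_isRoot ?_ ?_
    · rw [hdeg]
      simp
    · intro x hx
      rw [IsRoot.def, eval_sub, eval_pow, eval_X, eval_C, sub_eq_zero] at hx
      exact hd x hx
  haveI : Fact (Irreducible (X ^ 2 - C (d : ℚ))) := ⟨hirr⟩
  haveI hfin : FiniteDimensional ℚ (AdjoinRoot (X ^ 2 - C (d : ℚ))) :=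
    (AdjoinRoot.powerBasis hmon.ne_zero).finite
  haveI : CharZero (AdjoinRoot (X ^ 2 - C (d : ℚ))) :=
    charZero_of_injective_algebraMap (algebraMap ℚ (AdjoinRoot (X ^ 2 - C (d : ℚ)))).injective
  refine ⟨AdjoinRoot (X ^ 2 - C (d : ℚ)), inferInstance, { }, AdjoinRoot.root _, ?_, ?_⟩
  · rw [(AdjoinRoot.powerBasis hmon.ne_zero).finrank, AdjoinRoot.powerBasis_dim, hdeg]
  · have h := AdjoinRoot.eval₂_root (X ^ 2 - C (d : ℚ))
    rw [eval₂_sub, eval₂_pow, eval₂_X, eval₂_C, sub_eq_zero] at h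
    rw [h]
    simp

/-- A squarefree number larger than one is not a square. -/
theorem not_sq {D : ℕ} (h : Squarefree D) (h1 : 1 < D) : ¬ IsSquare D := by
  rintro ⟨n, hn⟩
  have h2 : n * n ∣ D := ⟨1, by rw [hn, mul_one]⟩
  have h3 := Nat.isUnit_iff.1 (h n h2)
  rw [h3] at hn
  omega

theorem real_ne {D : ℕ} (h : Squarefree D) (h1 : 1 < D) (x : ℚ) : x ^ 2 ≠ ((D : ℤ) : ℚ) := by
  intro hx
  apply not_sq h h1
  have h2 : IsSquare ((D : ℕ) : ℚ) := ⟨x, by
    rw [← pow_two, hx]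
    simp⟩
  exact Rat.isSquare_natCast_iff.1 h2

theorem imag_ne {N : ℕ} (h1 : 0 < N) (x : ℚ) : x ^ 2 ≠ ((-(N : ℤ) : ℤ) : ℚ) := by
  intro hx
  have h2 : (0 : ℚ) < N := by exact_mod_cast h1
  have h3 := sq_nonneg x
  rw [hx] at h3
  push_cast at h3
  linarith

end KeyAux

open KeyAux in
/-- (Key) -/
theorem stKey (hRCN : StRCN) (hICN : StICN) (hCong : StCong) (hPell : StPell) : StKey := by
  intro D hsq h12 hNT
  have h1 : 1 < D := by omega
  have h4 : D % 4 = 1 := by omega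
  have hsq3 : Squarefree (3 * D) := by
    rw [Nat.squarefree_mul_iff]
    refine ⟨?_, Nat.prime_three.squarefree, hsq⟩
    rw [Nat.prime_three.coprime_iff_not_dvd]
    omega
  -- the imaginary field
  obtain ⟨F, hF1, hF2, sF, hFd, hFs⟩ := exists_field (-((3 * D : ℕ) : ℤ)) (imag_ne (by omega))
  have hFs' : sF ^ 2 = -((3 * D : ℕ) : F) := by
    rw [hFs]
    push_cast
    ring
  have hLI := hICN F sF (3 * D) hFd hFs' hsq3 (by omega) (by omega)
  have hh' := hNT F sF hFs' hFd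
  have key : ∀ (K : Type) [Field K] [NumberField K] (s : K) (t u : ℤ), Module.finrank ℚ K = 2 →
      s ^ 2 = (D : K) → Fund D t u →
      ¬ 3 ∣ Nat.card (ClassGroup (NumberField.RingOfIntegers K)) ∧ lam D t u ≠ 0 := by
    intro K _ _ s t u hK hs hfu
    obtain ⟨e, he, hr⟩ := hRCN K s D t u hK hs hsq h4 h1 hfu
    exact hCong D t u _ _ e hsq h12 hfu.eq hfu.pt hfu.pu he hr hLI hh'
  refine ⟨fun K _ _ s hK hs => ?_, fun t u hfu => ?_⟩
  · obtain ⟨t, u, hfu⟩ := hPell D (not_sq hsq h1)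
    exact (key K s t u hK hs hfu).1
  · obtain ⟨K, hK1, hK2, s, hKd, hKs⟩ := exists_field (D : ℤ) (real_ne hsq h1)
    have hKs' : s ^ 2 = (D : K) := by
      rw [hKs]
      simp
    exact (key K s t u hKd hKs' hfu).2

end LO

end Pool.Agent.Lib.MP_7c5fb9_nt
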