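import Pool.Agent.Lib.MP_7c5fb9_nt.LO.Stmts2
import Pool.Agent.Lib.MP_7c5fb9_nt.LO.Key

set_option autoImplicit false

/-!
# Level one (MP_7c5fb9_nt, project LO2): the criterion for all real quadratic fields (module KeyB)
-/

namespace Pool.Agent.Lib.MP_7c5fb9_nt

namespace LO

namespace KeyBAux

/-- A fundamental discriminant is not a square. -/
theorem fd_not_sq {D : ℕ} (h : FD D) (h2 : D % 3 = 2) : ¬ IsSquare D := by
  have h1 : 1 < D := by omega
  rcases h with ⟨_, hsq, _⟩ | ⟨h4, h23, hsq⟩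
  · rw [Int.natAbs_natCast] at hsq
    exact KeyAux.not_sq hsq h1
  · rintro ⟨n, hn⟩
    obtain ⟨m, hm⟩ : ∃ m : ℕ, D = 4 * m := ⟨D / 4, by omega⟩
    have h5 : (D : ℤ) / 4 = (m : ℤ) := by omega
    rw [h5] at h23 hsq
    rw [Int.natAbs_natCast] at hsq
    have hne : Even (n * n) := ⟨2 * m, by omega⟩
    have hn2 : Even n := by
      rcases Nat.even_or_odd n with h | h
      · exact h
      · exact absurd hne (Nat.not_even_iff_odd.2 (h.mul h))
    obtain ⟨a, ha⟩ := hn2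
    have hma : m = a * a := by
      have : 4 * m = 4 * (a * a) := by
        rw [← hm, hn, ha]
        ring
      omega
    have ha1 : a = 1 := Nat.isUnit_iff.1 (hsq a ⟨1, by rw [hma, mul_one]⟩)
    rw [ha1] at hma
    omega

theorem fd_three {D : ℕ} (h : FD D) (h2 : D % 3 = 2) : FD (-((3 * D : ℕ) : ℤ)) := by
  rcases h with ⟨h4, hsq, _⟩ | ⟨h4, h23, hsq⟩
  · refine Or.inl ⟨by omega, ?_, by omega⟩
    rw [Int.natAbs_neg, Int.natAbs_natCast]
    rw [Int.natAbs_natCast] at hsq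
    rw [Nat.squarefree_mul_iff]
    refine ⟨?_, Nat.prime_three.squarefree, hsq⟩
    rw [Nat.prime_three.coprime_iff_not_dvd]
    omega
  · obtain ⟨m, hm⟩ : ∃ m : ℕ, D = 4 * m := ⟨D / 4, by omega⟩
    have h5 : (D : ℤ) / 4 = (m : ℤ) := by omega
    rw [h5] at h23 hsq
    rw [Int.natAbs_natCast] at hsq
    have h6 : -((3 * D : ℕ) : ℤ) / 4 = -((3 * m : ℕ) : ℤ) := by omega
    refine Or.inr ⟨by omega, ?_, ?_⟩
    · rw [h6]
      omega
    · rw [h6, Int.natAbs_neg, Int.natAbs_natCast, Nat.squarefree_mul_iff]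
      refine ⟨?_, Nat.prime_three.squarefree, hsq⟩
      rw [Nat.prime_three.coprime_iff_not_dvd]
      omega

end KeyBAux

open KeyBAux KeyAux in
/-- (KeyB) -/
theorem stKeyB (hDiscrB : StDiscrB) (hRCNB : StRCNB) (hICNB : StICNB) (hCongB : StCongB)
    (hPell : StPell) : StKeyB := by
  intro K _ _ D hK hd h3 hNT
  have hFD : FD D := by
    rw [← hd]
    exact (hDiscrB.1 K hK).1
  have hns := fd_not_sq hFD h3
  have hFD3 := fd_three hFD h3
  have hD5 : 5 ≤ D := by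
    rcases hFD with ⟨h4, _, _⟩ | ⟨h4, _, _⟩ <;> omega
  -- the imaginary field
  obtain ⟨F, hF1, hF2, sF, hFd, hFs⟩ := exists_field (-((3 * D : ℕ) : ℤ)) (imag_ne (by omega))
  have hFs' : sF ^ 2 = -((3 * D : ℕ) : F) := by
    rw [hFs]
    push_cast
    ring
  have hdF : NumberField.discr F = -((3 * D : ℕ) : ℤ) :=
    hDiscrB.2 F sF _ hFd hFD3 hFs
  have hLI := hICNB F hFd (by rw [hdF]; omega)
  rw [hdF, Int.natAbs_neg, Int.natAbs_natCast] at hLI
  have hh' := hNT F sF hFs' hFd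
  have key : ∀ t u : ℤ, Fund D t u →
      ¬ 3 ∣ Nat.card (ClassGroup (NumberField.RingOfIntegers K)) ∧ lam D t u ≠ 0 := by
    intro t u hfu
    obtain ⟨e, he, hr⟩ := hRCNB K D t u hK hd hfu
    exact hCongB D t u _ _ e hFD h3 hfu.eq hfu.pt hfu.pu he hr hLI hh'
  obtain ⟨t, u, hfu⟩ := hPell D hns
  exact ⟨(key t u hfu).1, fun t u hfu => (key t u hfu).2⟩

end LO

end Pool.Agent.Lib.MP_7c5fb9_nt
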