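import Mathlib
import Pool.Agent.Lib.MP_7c5fb9_nt.LO.Stmts2

set_option autoImplicit false

/-!
# Level one (MP_7c5fb9_nt, project LO2): the Kronecker symbol of a fundamental discriminant and its
Gauss sum
-/

namespace Pool.Agent.Lib.MP_7c5fb9_nt

namespace LO

namespace KrAux

open NumberTheorySymbols
open Pool.Agent.Lib.MP_7c08ba_nt.RZ (ee)

theorem sum_range_zmod (n : ℕ) [NeZero n] (F : ZMod n → ℂ) :
    ∑ a ∈ Finset.range n, F (a : ZMod n) = ∑ a : ZMod n, F a := by
  refine Finset.sum_nbij' (fun a => (a : ZMod n)) ZMod.val ?_ ?_ ?_ ?_ ?_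
  · intro a _
    exact Finset.mem_univ _
  · intro a _
    exact Finset.mem_range.2 (ZMod.val_lt a)
  · intro a ha
    exact ZMod.val_cast_of_lt (Finset.mem_range.1 ha)
  · intro a _
    exact ZMod.natCast_zmod_val a
  · intro a _
    rfl

/-- Odd fundamental discriminants. -/
lemma kr_of_odd {d : ℤ} (hd : d % 2 = 1) (n : ℕ) : kr d n = jacobiSym n d.natAbs := by
  rw [kr, if_neg (by omega)]

lemma kr_even_even {d : ℤ} (hd : d % 2 = 0) {n : ℕ} (hn : n % 2 = 0) : kr d n = 0 := by
  rw [kr, if_pos hd, if_pos hn]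

lemma kr_even_odd {d : ℤ} (hd : d % 2 = 0) {n : ℕ} (hn : n % 2 = 1) :
    kr d n = jacobiSym d n := by
  rw [kr, if_pos hd, if_neg (by omega)]

lemma kr_four {d m : ℤ} (hd : d = 4 * m) {n : ℕ} (hn : n % 2 = 1) :
    kr d n = jacobiSym m n := by
  rw [kr_even_odd (by omega) hn, hd, jacobiSym.mul_left, jacobiSym.at_four (Nat.odd_iff.2 hn),
    one_mul]

lemma natAbs_ne {d : ℤ} (h : FD d) : d.natAbs ≠ 0 ∧ d.natAbs ≠ 1 ∧ d ≠ 0 := by
  rcases h with ⟨h1, h2, h3⟩ | ⟨h1, h2, h3⟩
  · omega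
  · omega

/-- The two kinds of fundamental discriminants. -/
lemma cases {d : ℤ} (h : FD d) :
    (d % 4 = 1 ∧ d % 2 = 1 ∧ Squarefree d.natAbs) ∨
      ∃ m : ℤ, d = 4 * m ∧ d % 2 = 0 ∧ (m % 4 = 2 ∨ m % 4 = 3) ∧ Squarefree m.natAbs := by
  rcases h with ⟨h1, h2, h3⟩ | ⟨h1, h2, h3⟩
  · exact Or.inl ⟨h1, by omega, h2⟩
  · exact Or.inr ⟨d / 4, by omega, by omega, h2, h3⟩

lemma kr_one (d : ℤ) : kr d 1 = 1 := by
  rw [kr]
  split_ifs with h1 h2
  · exact absurd h2 (by norm_num)
  · exact jacobiSym.one_right d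
  · rw [Nat.cast_one, jacobiSym.one_left]

lemma kr_mul (d : ℤ) (m n : ℕ) : kr d (m * n) = kr d m * kr d n := by
  by_cases hd : d % 2 = 0
  · rcases Nat.mod_two_eq_zero_or_one m with hm | hm
    · rw [kr_even_even hd (n := m * n) (by rw [Nat.mul_mod, hm, zero_mul, Nat.zero_mod]),
        kr_even_even hd hm,
        zero_mul]
    rcases Nat.mod_two_eq_zero_or_one n with hn | hn
    · rw [kr_even_even hd (n := m * n) (by rw [Nat.mul_mod, hn, mul_zero, Nat.zero_mod]),
        kr_even_even hd hn,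
        mul_zero]
    rw [kr_even_odd hd (n := m * n) (by rw [Nat.mul_mod, hm, hn]), kr_even_odd hd hm,
      kr_even_odd hd hn, jacobiSym.mul_right' _ (by omega) (by omega)]
  · have hd' : d % 2 = 1 := by omega
    rw [kr_of_odd hd', kr_of_odd hd', kr_of_odd hd', Nat.cast_mul, jacobiSym.mul_left]

lemma kr_period {d : ℤ} (h : FD d) (n : ℕ) : kr d (n + d.natAbs) = kr d n := by
  rcases cases h with ⟨h1, h2, h3⟩ | ⟨m, h1, h2, h3, h4⟩
  · rw [kr_of_odd h2, kr_of_odd h2]
    refine jacobiSym.mod_left' ?_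
    push_cast [-Int.natCast_natAbs]
    rw [Int.add_emod_right]
  · have hN : d.natAbs = 4 * m.natAbs := by omega
    rcases Nat.mod_two_eq_zero_or_one n with hn | hn
    · rw [kr_even_even h2 (n := n + d.natAbs) (by omega), kr_even_even h2 hn]
    · have hn' : (n + d.natAbs) % 2 = 1 := by omega
      rw [kr_four h1 hn', kr_four h1 hn, jacobiSym.mod_right _ (Nat.odd_iff.2 hn'),
        jacobiSym.mod_right _ (Nat.odd_iff.2 hn), hN, Nat.add_mod_right]

lemma kr_zero {d : ℤ} (h : FD d) (n : ℕ) : kr d n = 0 ↔ ¬ Nat.Coprime n d.natAbs := by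
  rcases cases h with ⟨h1, h2, h3⟩ | ⟨m, h1, h2, h3, h4⟩
  · rw [kr_of_odd h2, jacobiSym.eq_zero_iff]
    have h0 := natAbs_ne h
    rw [Int.gcd_natCast_natCast]
    exact ⟨fun h5 => h5.2, fun h5 => ⟨h0.1, h5⟩⟩
  · rcases Nat.mod_two_eq_zero_or_one n with hn | hn
    · rw [kr_even_even h2 hn]
      refine ⟨fun _ h5 => ?_, fun _ => rfl⟩
      have h6 := Nat.dvd_gcd (Nat.dvd_of_mod_eq_zero hn) (show 2 ∣ d.natAbs by omega)
      rw [h5] at h6
      omega
    · rw [kr_even_odd h2 hn, jacobiSym.eq_zero_iff]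
      have e : Int.gcd d (n : ℤ) = Nat.gcd n d.natAbs := by
        rw [Int.gcd_def, Int.natAbs_natCast, Nat.gcd_comm]
      rw [e]
      exact ⟨fun h5 => h5.2, fun h5 => ⟨by omega, h5⟩⟩

lemma kr_values (d : ℤ) (n : ℕ) : kr d n = 0 ∨ kr d n = 1 ∨ kr d n = -1 := by
  rw [kr]
  split_ifs
  · exact Or.inl rfl
  · exact jacobiSym.trichotomy _ _
  · exact jacobiSym.trichotomy _ _

/-- The value at `|d| - 1`. -/
lemma kr_neg_one {d : ℤ} (h : FD d) : kr d (d.natAbs - 1) = d.sign := by
  have h0 := natAbs_ne h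
  rcases cases h with ⟨h1, h2, h3⟩ | ⟨m, h1, h2, h3, h4⟩
  · rw [kr_of_odd h2]
    have e : jacobiSym ((d.natAbs - 1 : ℕ) : ℤ) d.natAbs = jacobiSym (-1) d.natAbs := by
      refine jacobiSym.mod_left' ?_
      rw [Nat.cast_sub (by omega), show ((d.natAbs : ℕ) : ℤ) - ((1 : ℕ) : ℤ) =
        -1 + (d.natAbs : ℤ) by push_cast; ring, Int.add_emod_right]
    rw [e, jacobiSym.at_neg_one (Nat.odd_iff.2 (by omega))]
    rcases lt_trichotomy d 0 with hd | hd | hd
    · rw [Int.sign_eq_neg_one_of_neg hd, ZMod.χ₄_nat_three_mod_four (by omega)]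
    · omega
    · rw [Int.sign_eq_one_of_pos hd, ZMod.χ₄_nat_one_mod_four (by omega)]
  · have hN : d.natAbs = 4 * m.natAbs := by omega
    have hm0 : m.natAbs ≠ 0 := by omega
    have hb : (d.natAbs - 1) % 4 = 3 := by omega
    have hodd2 : (d.natAbs - 1) % 2 = 1 := by omega
    have hodd := Nat.odd_iff.2 hodd2
    have e1 : jacobiSym (m.natAbs : ℤ) (d.natAbs - 1) = 1 := by
      have e2 : jacobiSym (4 * (m.natAbs : ℤ)) (d.natAbs - 1) =
          jacobiSym (m.natAbs : ℤ) (d.natAbs - 1) := by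
        rw [jacobiSym.mul_left, jacobiSym.at_four hodd, one_mul]
      have e3 : jacobiSym (4 * (m.natAbs : ℤ)) (d.natAbs - 1) = jacobiSym 1 (d.natAbs - 1) := by
        refine jacobiSym.mod_left' ?_
        have e4 : (4 * (m.natAbs : ℤ)) = 1 + ((d.natAbs - 1 : ℕ) : ℤ) := by omega
        rw [e4, Int.add_emod_right]
      rw [← e2, e3, jacobiSym.one_left]
    rw [kr_four h1 hodd2]
    rcases lt_trichotomy d 0 with hd | hd | hd
    · have e5 : jacobiSym m (d.natAbs - 1) = jacobiSym (-(m.natAbs : ℤ)) (d.natAbs - 1) := by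
        congr 1
        omega
      rw [Int.sign_eq_neg_one_of_neg hd, e5, jacobiSym.neg _ hodd, e1,
        ZMod.χ₄_nat_three_mod_four hb, mul_one]
    · omega
    · have e5 : jacobiSym m (d.natAbs - 1) = jacobiSym (m.natAbs : ℤ) (d.natAbs - 1) := by
        congr 1
        omega
      rw [Int.sign_eq_one_of_pos hd, e5, e1]

lemma kr_mod {d : ℤ} (h : FD d) (n : ℕ) : kr d (n % d.natAbs) = kr d n := by
  have e : ∀ k m : ℕ, kr d (m + d.natAbs * k) = kr d m := by
    intro k
    induction k with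
    | zero => intro m; rfl
    | succ k ih => intro m; rw [Nat.mul_succ, ← add_assoc, kr_period h, ih]
  conv_rhs => rw [← Nat.mod_add_div n d.natAbs]
  rw [e]

lemma kr_sub {d : ℤ} (h : FD d) (a : ℕ) (ha : a ≤ d.natAbs) :
    kr d (d.natAbs - a) = d.sign * kr d a := by
  have h0 := natAbs_ne h
  have e : kr d ((d.natAbs - 1) * a) = kr d (d.natAbs - a) := by
    rw [← kr_mod h, ← kr_mod h (d.natAbs - a)]
    congr 1
    rcases Nat.eq_zero_or_pos a with rfl | ha0
    · simp
    obtain ⟨b, rfl⟩ : ∃ b, a = b + 1 := ⟨a - 1, by omega⟩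
    obtain ⟨N, hN⟩ : ∃ N, d.natAbs = N + (b + 1) := ⟨d.natAbs - (b + 1), by omega⟩
    have e1 : (d.natAbs - 1) * (b + 1) = (d.natAbs - (b + 1)) + d.natAbs * b := by
      rw [hN]
      have e2 : N + (b + 1) - 1 = N + b := by omega
      have e3 : N + (b + 1) - (b + 1) = N := by omega
      rw [e2, e3]
      ring
    rw [e1, Nat.add_mul_mod_self_left]
  rw [← e, kr_mul, kr_neg_one h]

/-- The value at `2 n + 1`, where `|d| = 4 n`. -/
lemma kr_half {d m : ℤ} (hd : d = 4 * m) (hm : m % 4 = 2 ∨ m % 4 = 3) :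
    kr d (2 * m.natAbs + 1) = -1 := by
  have hodd : Odd (2 * m.natAbs + 1) := ⟨m.natAbs, rfl⟩
  rw [kr_four hd (by omega)]
  have key : jacobiSym (((2 * m.natAbs + 1 : ℕ) : ℤ)) m.natAbs = 1 := by
    have e : jacobiSym (((2 * m.natAbs + 1 : ℕ) : ℤ)) m.natAbs = jacobiSym 1 m.natAbs := by
      refine jacobiSym.mod_left' ?_
      rw [show ((2 * m.natAbs + 1 : ℕ) : ℤ) = 1 + (m.natAbs : ℤ) * 2 by push_cast; ring,
        Int.add_mul_emod_self_left]
    rw [e, jacobiSym.one_left]
  rcases hm with hm | hm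
  · obtain ⟨m', rfl⟩ : ∃ m', m = 2 * m' := ⟨m / 2, by omega⟩
    have h5 : (2 * (2 * m').natAbs + 1) % 8 = 5 := by omega
    have h6 := jacobiSym.even_odd (a := 2 * m') (b := 2 * (2 * m').natAbs + 1)
      (by omega) (by omega)
    rw [if_pos (Or.inr h5)] at h6
    rw [← h6]
    have h7 : 2 * m' / 2 = m' := by omega
    rw [h7, jacobiSym.mod_right _ hodd]
    have h8 : (2 * (2 * m').natAbs + 1) % (4 * m'.natAbs) = 1 := by
      rw [show 2 * (2 * m').natAbs + 1 = 1 + 4 * m'.natAbs by omega, Nat.add_mod_right,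
        Nat.mod_eq_of_lt]
      omega
    rw [h8, jacobiSym.one_right]
  · rcases lt_or_ge m 0 with hneg | hpos
    · have hn4 : m.natAbs % 4 = 1 := by omega
      have e5 : m = -(m.natAbs : ℤ) := by omega
      have h3 : (2 * m.natAbs + 1) % 4 = 3 := by omega
      have e6 : jacobiSym m (2 * m.natAbs + 1) =
          jacobiSym (-(m.natAbs : ℤ)) (2 * m.natAbs + 1) := by
        congr 1
      rw [e6, jacobiSym.neg _ hodd, ZMod.χ₄_nat_three_mod_four h3,
        jacobiSym.quadratic_reciprocity_one_mod_four hn4 hodd, key]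
      norm_num
    · have hn4 : m.natAbs % 4 = 3 := by omega
      have h3 : (2 * m.natAbs + 1) % 4 = 3 := by omega
      have e6 : jacobiSym m (2 * m.natAbs + 1) =
          jacobiSym (m.natAbs : ℤ) (2 * m.natAbs + 1) := by
        congr 1
        omega
      rw [e6, jacobiSym.quadratic_reciprocity_three_mod_four hn4 h3, key]

/-- A number coprime to `d` is congruent to `1`. -/
lemma coprime_of_kr {d : ℤ} (h : FD d) {a : ℕ} (ha : kr d a = -1) : a.Coprime d.natAbs := by
  by_contra h1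
  rw [(kr_zero h a).2 h1] at ha
  norm_num at ha

/-- For every prime divisor `p` of `d` there is a number which is `1` modulo `|d| / p` with
value `-1`. -/
lemma exists_neg {d : ℤ} (h : FD d) {p : ℕ} (hp : p.Prime) (hpD : p ∣ d.natAbs) :
    ∃ a : ℕ, a ≡ 1 [MOD d.natAbs / p] ∧ kr d a = -1 := by
  have h0 := natAbs_ne h
  have : Fact p.Prime := ⟨hp⟩
  rcases cases h with ⟨h1, h2, h3⟩ | ⟨m, h1, h2, h3, h4⟩
  · obtain ⟨n', hn'⟩ := hpD
    have hp2 : p ≠ 2 := by
      rintro rfl
      omega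
    have hn'0 : n' ≠ 0 := by
      rintro rfl
      exact h0.1 hn'
    have hpn' : ¬ p ∣ n' := by
      rintro ⟨k, rfl⟩
      have := h3 p ⟨k, by rw [hn']; ring⟩
      exact hp.one_lt.ne' (Nat.isUnit_iff.1 this)
    have hcop : n'.Coprime p := ((Nat.Prime.coprime_iff_not_dvd hp).2 hpn').symm
    obtain ⟨r, hr⟩ := FiniteField.exists_nonsquare (F := ZMod p) (by
      rw [ZMod.ringChar_zmod_n]
      exact hp2)
    obtain ⟨a, ha1, ha2⟩ := Nat.chineseRemainder hcop 1 r.val
    refine ⟨a, ?_, ?_⟩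
    · rw [hn', Nat.mul_div_cancel_left _ hp.pos]
      exact ha1
    · rw [kr_of_odd h2, hn', jacobiSym.mul_right' _ hp.ne_zero hn'0]
      have e1 : jacobiSym (a : ℤ) n' = 1 := by
        rw [show jacobiSym (a : ℤ) n' = jacobiSym 1 n' from jacobiSym.mod_left' (by
          have := (Int.natCast_modEq_iff.2 ha1)
          exact_mod_cast this), jacobiSym.one_left]
      have e3 : jacobiSym (a : ℤ) p = -1 := by
        rw [← jacobiSym.legendreSym.to_jacobiSym, legendreSym.eq_neg_one_iff]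
        have : (((a : ℕ) : ℤ) : ZMod p) = r := by
          have h2 := (ZMod.natCast_eq_natCast_iff a r.val p).2 ha2
          rw [ZMod.natCast_zmod_val] at h2
          push_cast
          exact h2
        rw [this]
        exact hr
      rw [e1, e3, mul_one]
  · have hN : d.natAbs = 4 * m.natAbs := by omega
    by_cases hp2 : p = 2
    · subst hp2
      refine ⟨2 * m.natAbs + 1, ?_, kr_half h1 h3⟩
      have : d.natAbs / 2 = 2 * m.natAbs := by omega
      rw [this, Nat.ModEq, Nat.add_mod_left]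
    · have hpodd : Odd p := hp.odd_of_ne_two hp2
      have hp4 : p.Coprime 4 := by
        rw [show (4 : ℕ) = 2 * 2 from rfl]
        exact hpodd.coprime_two_right.mul_right hpodd.coprime_two_right
      have hpn : p ∣ m.natAbs := hp4.dvd_of_dvd_mul_left (hN ▸ hpD)
      obtain ⟨m', hm'⟩ : (p : ℤ) ∣ m := Int.natCast_dvd.2 hpn
      have hm'0 : m'.natAbs ≠ 0 := by
        intro h5
        rw [Int.natAbs_eq_zero] at h5
        rw [h5, mul_zero] at hm'
        omega
      have hmm : m.natAbs = p * m'.natAbs := by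
        rw [hm', Int.natAbs_mul, Int.natAbs_natCast]
      have hpn' : ¬ p ∣ m'.natAbs := by
        rintro ⟨k, hk⟩
        have := h4 p ⟨k, by rw [hmm, hk]; ring⟩
        exact hp.one_lt.ne' (Nat.isUnit_iff.1 this)
      have hcop : (4 * m'.natAbs).Coprime p :=
        Nat.Coprime.mul_left hp4.symm ((Nat.Prime.coprime_iff_not_dvd hp).2 hpn').symm
      obtain ⟨r, hr⟩ := FiniteField.exists_nonsquare (F := ZMod p) (by
        rw [ZMod.ringChar_zmod_n]
        exact hp2)
      obtain ⟨a, ha1, ha2⟩ := Nat.chineseRemainder hcop 1 r.val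
      have hDp : d.natAbs / p = 4 * m'.natAbs := by
        rw [hN, hmm, show 4 * (p * m'.natAbs) = 4 * m'.natAbs * p by ring,
          Nat.mul_div_cancel _ hp.pos]
      have ha4 : a % 4 = 1 := by
        have h5 : a ≡ 1 [MOD 4] := ha1.of_dvd ⟨m'.natAbs, rfl⟩
        exact h5
      have haodd : Odd a := by
        rw [Nat.odd_iff]
        omega
      refine ⟨a, ?_, ?_⟩
      · rw [hDp]
        exact ha1
      · rw [kr_four h1 (by omega), hm', jacobiSym.mul_left]
        have e2 : jacobiSym m' a = 1 := by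
          rw [jacobiSym.mod_right _ haodd]
          have : a % (4 * m'.natAbs) = 1 := by
            have h2 : a % (4 * m'.natAbs) = 1 % (4 * m'.natAbs) := ha1
            rw [h2, Nat.mod_eq_of_lt]
            omega
          rw [this, jacobiSym.one_right]
        have e3 : jacobiSym (p : ℤ) a = -1 := by
          rw [jacobiSym.quadratic_reciprocity_one_mod_four' hpodd ha4,
            ← jacobiSym.legendreSym.to_jacobiSym, legendreSym.eq_neg_one_iff]
          have : (((a : ℕ) : ℤ) : ZMod p) = r := by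
            have h2 := (ZMod.natCast_eq_natCast_iff a r.val p).2 ha2
            rw [ZMod.natCast_zmod_val] at h2
            push_cast
            exact h2
          rw [this]
          exact hr
        rw [e2, e3, mul_one]

/-- The character. -/
noncomputable def chi (d : ℤ) [NeZero d.natAbs] (hd : FD d) : DirichletCharacter ℂ d.natAbs where
  toFun x := (kr d x.val : ℂ)
  map_one' := by
    rw [ZMod.val_one_eq_one_mod, kr_mod hd, kr_one, Int.cast_one]
  map_mul' x y := by
    rw [ZMod.val_mul, kr_mod hd, kr_mul, Int.cast_mul]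
  map_nonunit' x hx := by
    rw [(kr_zero hd _).2, Int.cast_zero]
    intro h
    apply hx
    rw [← ZMod.natCast_zmod_val x]
    exact (ZMod.isUnit_iff_coprime _ _).2 h

lemma chi_nat (d : ℤ) [NeZero d.natAbs] (hd : FD d) (a : ℕ) :
    chi d hd (a : ZMod d.natAbs) = (kr d a : ℂ) := by
  change ((kr d (a : ZMod d.natAbs).val : ℤ) : ℂ) = _
  rw [ZMod.val_natCast, kr_mod hd]

lemma chi_val (d : ℤ) [NeZero d.natAbs] (hd : FD d) (a : ZMod d.natAbs) :
    chi d hd a = (kr d a.val : ℂ) := rfl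

/-- A character which factors through a divisor is one on the numbers `1` modulo the divisor. -/
lemma factors {D : ℕ} (χ : DirichletCharacter ℂ D) {c : ℕ} (hc : χ.FactorsThrough c) {a : ℕ}
    (ha : a.Coprime D) (h1 : a ≡ 1 [MOD c]) : χ (a : ZMod D) = 1 := by
  have h2 := DirichletCharacter.changeLevel_eq_cast_of_dvd' hc.χ₀ hc.dvd (a := (a : ℤ))
    (Nat.isCoprime_iff_coprime.2 ha)
  rw [← hc.eq_changeLevel] at h2
  have h3 : (((a : ℕ) : ℤ) : ZMod c) = 1 := by
    have := (ZMod.natCast_eq_natCast_iff a 1 c).2 h1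
    push_cast at this ⊢
    exact this
  rw [h3, map_one] at h2
  exact_mod_cast h2

lemma chi_prim (d : ℤ) [NeZero d.natAbs] (hd : FD d) : (chi d hd).IsPrimitive := by
  rw [DirichletCharacter.isPrimitive_def]
  by_contra hne
  have hft := DirichletCharacter.factorsThrough_conductor (chi d hd)
  have hdvd := DirichletCharacter.conductor_dvd_level (chi d hd)
  generalize (chi d hd).conductor = c at hne hft hdvd
  obtain ⟨e, he⟩ := hdvd
  have he1 : e ≠ 1 := by
    rintro rfl
    rw [mul_one] at he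
    exact hne he.symm
  obtain ⟨p, hp, f, hf⟩ := Nat.exists_prime_and_dvd he1
  have hpD : d.natAbs = c * f * p := by
    rw [he, hf]
    ring
  obtain ⟨a, ha2, ha3⟩ := exists_neg hd hp ⟨c * f, by rw [hpD]; ring⟩
  have ha1 := coprime_of_kr hd ha3
  have hc : c ∣ d.natAbs / p := ⟨f, by
    rw [hpD, Nat.mul_div_cancel _ hp.pos]⟩
  have h1 := factors (chi d hd) hft ha1 (ha2.of_dvd hc)
  rw [chi_nat, ha3] at h1
  norm_num at h1

lemma chi_quad (d : ℤ) [NeZero d.natAbs] (hd : FD d) : (chi d hd).IsQuadratic := by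
  intro a
  rw [chi_val]
  rcases kr_values d a.val with h | h | h
  · left; rw [h]; norm_num
  · right; left; rw [h]; norm_num
  · right; right; rw [h]; norm_num

lemma chi_neg_one (d : ℤ) [NeZero d.natAbs] (hd : FD d) :
    chi d hd (-1) = (d.sign : ℂ) := by
  have h1 : ((-1 : ZMod d.natAbs)) = ((d.natAbs - 1 : ℕ) : ZMod d.natAbs) := by
    have h4 := natAbs_ne hd
    rw [Nat.cast_sub (by omega), Nat.cast_one, CharP.cast_eq_zero, zero_sub]
  rw [h1, chi_nat, kr_neg_one hd]

/-- The Gauss sum. -/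
noncomputable def gau (d : ℤ) [NeZero d.natAbs] (hd : FD d) : ℂ :=
  gaussSum (chi d hd) (ZMod.stdAddChar (N := d.natAbs))

lemma chi_neg (d : ℤ) [NeZero d.natAbs] (hd : FD d) (k : ZMod d.natAbs) :
    chi d hd (-k) = d.sign * chi d hd k := by
  rw [← neg_one_mul, map_mul, chi_neg_one]

open ZMod in
lemma gau_sq (d : ℤ) [NeZero d.natAbs] (hd : FD d) : gau d hd ^ 2 = (d : ℂ) := by
  have hinv : (chi d hd)⁻¹ = chi d hd := MulChar.IsQuadratic.inv (chi_quad d hd)
  have h1 : ∀ k, ZMod.dft (chi d hd : ZMod d.natAbs → ℂ) k =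
      (d.sign * gau d hd) * chi d hd k := by
    intro k
    have h := (chi_prim d hd).fourierTransform_eq_inv_mul_gaussSum k
    rw [hinv, chi_neg] at h
    refine Eq.trans h ?_
    unfold gau
    ring
  have h2 : ZMod.dft (chi d hd : ZMod d.natAbs → ℂ) =
      fun k => (d.sign * gau d hd) * chi d hd k := funext h1
  have h3 := ZMod.dft_dft (chi d hd : ZMod d.natAbs → ℂ)
  rw [h2] at h3
  have h4 := congrFun h3 1
  rw [ZMod.dft_const_mul (d.sign * gau d hd) (chi d hd : ZMod d.natAbs → ℂ)] at h4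
  simp only [h1, chi_neg, map_one, smul_eq_mul] at h4
  have h5 : (d.sign : ℂ) * d.sign = 1 := by
    have h0 := natAbs_ne hd
    rcases lt_trichotomy d 0 with h | h | h
    · rw [Int.sign_eq_neg_one_of_neg h]; norm_num
    · omega
    · rw [Int.sign_eq_one_of_pos h]; norm_num
  have h6 : (d : ℂ) = d.sign * (d.natAbs : ℂ) := by
    have h7 := congrArg (fun z : ℤ => (z : ℂ)) (Int.sign_mul_natAbs d)
    simp only [Int.cast_mul, Int.cast_natCast] at h7
    exact h7.symm
  rw [h6]
  linear_combination h4 + (-gau d hd ^ 2) * h5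

theorem gau_shift (d : ℤ) [NeZero d.natAbs] (hd : FD d) (n : ℕ) :
    ∑ a ∈ Finset.range d.natAbs, (kr d a : ℂ) * ee ((a : ℂ) * n / d.natAbs) =
      kr d n * gau d hd := by
  have hinv : (chi d hd)⁻¹ = chi d hd := MulChar.IsQuadratic.inv (chi_quad d hd)
  have h2 : ∑ a ∈ Finset.range d.natAbs, (kr d a : ℂ) * ee ((a : ℂ) * n / d.natAbs) =
      ∑ a : ZMod d.natAbs, chi d hd a * ZMod.stdAddChar (N := d.natAbs) (n * a) := by
    rw [← sum_range_zmod]
    refine Finset.sum_congr rfl fun a _ => ?_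
    have h3 := ZMod.stdAddChar_coe (N := d.natAbs) ((n * a : ℕ) : ℤ)
    have h4 : (((n * a : ℕ) : ℤ) : ZMod d.natAbs) = (n : ZMod d.natAbs) * a := by
      push_cast; rfl
    rw [← h4, h3, chi_nat]
    unfold ee
    congr 2
    push_cast
    ring
  rw [h2]
  have h5 := gaussSum_mulShift_of_isPrimitive (ZMod.stdAddChar (N := d.natAbs)) (chi_prim d hd)
    (n : ZMod d.natAbs)
  rw [hinv, chi_nat] at h5
  exact h5

end KrAux

open KrAux in
theorem stKr : StKr := by
  intro d hd
  have h0 := natAbs_ne hd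
  have : NeZero d.natAbs := ⟨h0.1⟩
  exact ⟨kr_one d, kr_mul d, kr_period hd, kr_zero hd, kr_values d, kr_sub hd,
    gau d hd, gau_sq d hd, gau_shift d hd⟩

end LO

end Pool.Agent.Lib.MP_7c5fb9_nt
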