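import Pool.Agent.Lib.MP_7c5fb9_nt.LO.Stmts2
import Pool.Agent.Lib.MP_7c5fb9_nt.DH.LocP

set_option autoImplicit false

/-!
# Level one (MP_7c5fb9_nt, project LO2): class numbers prime to three with local conditions
-/

namespace Pool.Agent.Lib.MP_7c5fb9_nt

namespace LO

theorem stLocP : StLocP := by
  intro M ρ hM P hP r hr
  have key := BKDH.locHalfP (BKDH.locTwo_cls hM) (BKDH.locThree_ram (Or.inr rfl : 6 = 3 ∨ 6 = 6))
    (Finset.singleton_nonempty _) (Finset.singleton_nonempty _) P hP r hr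
  simp only [Finset.mem_singleton, Finset.card_singleton, Nat.cast_one, mul_one] at key
  have hMpos : 0 < M := by
    rcases hM with ⟨h, -⟩ | ⟨h, -⟩ | ⟨h, -⟩ | ⟨h, -⟩ <;> omega
  have hW : (0 : ℝ) < ∏ p ∈ P, ((p : ℝ) ^ 2 - 1) := by
    refine Finset.prod_pos fun p hp => ?_
    have h5 : (5 : ℝ) ≤ p := by exact_mod_cast (hP p hp).2
    nlinarith
  refine ⟨?_, fun ε hε => ?_⟩
  · set c : ℝ := 9 / (M * (9 : ℕ) * Real.pi ^ 2) / (∏ p ∈ P, ((p : ℝ) ^ 2 - 1)) with hc
    have hpi := Real.pi_pos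
    have hMr : (0 : ℝ) < M := by exact_mod_cast hMpos
    have hc0 : 0 < c := by
      rw [hc]
      positivity
    obtain ⟨X₀, hX₀⟩ := key (c / 2) (by positivity)
    refine ⟨c / 2, by positivity, X₀, fun X hX => ?_⟩
    have := (hX₀ X hX).1
    have e : c - c / 2 = c / 2 := by ring
    rw [e] at this
    exact this
  · obtain ⟨X₀, hX₀⟩ := key ε hε
    exact ⟨X₀, fun X hX => (hX₀ X hX).2⟩

end LO

end Pool.Agent.Lib.MP_7c5fb9_nt
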