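import Pool.Agent.Lib.MP_7c5fb9_nt.LO.Stmts2

set_option autoImplicit false

/-!
# Level one (MP_7c5fb9_nt, project LO2): the main theorem with prescribed local behaviour
-/

namespace Pool.Agent.Lib.MP_7c5fb9_nt

namespace LO

open Pool.Agent.Lib.MP_7c08ba_nt.RZ UpperHalfPlane
open scoped MatrixGroups

theorem stMainB (hKey : StKeyB) (hCount : StCountB) (hCrit : StCrit) : StMainB := by
  intro k w f hk hw hf
  have main : ∀ (K : Type) [Field K] [NumberField K] (D : ℕ), Module.finrank ℚ K = 2 →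
      NumberField.discr K = D → D % 3 = 2 → BKDH.NoThree (3 * D) → NonVan k f K := by
    intro K _ _ D hK hd hD3 hN
    obtain ⟨h1, h2⟩ := hKey K D hK hd hD3 hN
    refine hCrit k w f hk hw hf K hK ?_ ?_ h1 ?_
    · rw [hd]
      omega
    · rw [hd]
      omega
    · intro D' t u hD' hF
      rw [hd] at hD'
      have : D' = D := by exact_mod_cast hD'.symm
      subst this
      exact h2 t u hF
  refine ⟨fun K _ _ D hK hd hD3 hN => main K D hK hd hD3 ?_, fun M ρ hM P hP r hr => ?_⟩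
  · intro F _ _ s' hs' hF'
    exact hN F s' hF' hs'
  · obtain ⟨⟨c, hc, X₁, hX₁⟩, hB⟩ := hCount M ρ hM P hP r hr
    have hfin : ∀ X : ℕ, {D : ℕ | D ≤ X ∧ FD D ∧ D % 3 = 2 ∧ D % M = ρ ∧
        D % (∏ p ∈ P, p ^ 2) = r % (∏ p ∈ P, p ^ 2) ∧
        ∀ (K : Type) [Field K] [NumberField K], Module.finrank ℚ K = 2 →
          NumberField.discr K = D → NonVan k f K}.Finite := fun X =>
      (Set.finite_Iic X).subset fun D hD => hD.1
    have hsub : ∀ X : ℕ, {D : ℕ | D ≤ X ∧ FD D ∧ D % 3 = 2 ∧ D % M = ρ ∧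
        D % (∏ p ∈ P, p ^ 2) = r % (∏ p ∈ P, p ^ 2) ∧ BKDH.NoThree (3 * D)} ⊆
        {D : ℕ | D ≤ X ∧ FD D ∧ D % 3 = 2 ∧ D % M = ρ ∧
        D % (∏ p ∈ P, p ^ 2) = r % (∏ p ∈ P, p ^ 2) ∧
        ∀ (K : Type) [Field K] [NumberField K], Module.finrank ℚ K = 2 →
          NumberField.discr K = D → NonVan k f K} := by
      intro X D hD
      exact ⟨hD.1, hD.2.1, hD.2.2.1, hD.2.2.2.1, hD.2.2.2.2.1,
        fun K _ _ hK hd => main K D hK hd hD.2.2.1 hD.2.2.2.2.2⟩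
    have hle : ∀ X : ℕ, ({D : ℕ | D ≤ X ∧ FD D ∧ D % 3 = 2 ∧ D % M = ρ ∧
        D % (∏ p ∈ P, p ^ 2) = r % (∏ p ∈ P, p ^ 2) ∧ BKDH.NoThree (3 * D)}.ncard : ℝ) ≤
        ({D : ℕ | D ≤ X ∧ FD D ∧ D % 3 = 2 ∧ D % M = ρ ∧
        D % (∏ p ∈ P, p ^ 2) = r % (∏ p ∈ P, p ^ 2) ∧
        ∀ (K : Type) [Field K] [NumberField K], Module.finrank ℚ K = 2 →
          NumberField.discr K = D → NonVan k f K}.ncard : ℝ) := by
      intro X
      exact_mod_cast Set.ncard_le_ncard (hsub X) (hfin X)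
    refine ⟨?_, fun ε hε => ?_⟩
    · obtain ⟨X₂, hX₂⟩ := hB (1 / 4) (by norm_num)
      refine ⟨c / 4, by positivity, max X₁ X₂, fun X hX => ?_⟩
      have h1 := hX₁ X ((le_max_left _ _).trans hX)
      have h2 := hX₂ X ((le_max_right _ _).trans hX)
      have h3 := hle X
      refine le_trans ?_ (h2.trans h3)
      have : c / 4 * (X : ℝ) = (1 / 2 - 1 / 4) * (c * X) := by ring
      rw [this]
      exact mul_le_mul_of_nonneg_left h1 (by norm_num)
    · obtain ⟨X₀, hX₀⟩ := hB ε hε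
      exact ⟨X₀, fun X hX => (hX₀ X hX).trans (hle X)⟩

end LO

end Pool.Agent.Lib.MP_7c5fb9_nt
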