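import Pool.Agent.Lib.MP_7c5fb9_nt.LO.Stmts2

set_option autoImplicit false

/-!
# Level one (MP_7c5fb9_nt, project LO2): the class number formula for real quadratic fields
-/

namespace Pool.Agent.Lib.MP_7c5fb9_nt

namespace LO

open Filter Topology

theorem RCNB.tendsto_zeta_real :
    Tendsto (fun s : ℝ => ((s : ℂ) - 1) * riemannZeta s) (𝓝[>] 1) (𝓝 1) := by
  have h := riemannZeta_residue_one
  refine (h.comp (f := fun s : ℝ => (s : ℂ)) ?_)
  refine tendsto_nhdsWithin_iff.2 ⟨?_, ?_⟩
  · exact ((Complex.continuous_ofReal.tendsto 1).mono_left nhdsWithin_le_nhds)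
  · filter_upwards [self_mem_nhdsWithin] with s hs
    simp only [Set.mem_compl_iff, Set.mem_singleton_iff]
    intro h
    have : s = 1 := by exact_mod_cast h
    exact (ne_of_gt (show (1 : ℝ) < s from hs)) this

theorem stRCNB (hDiscrB : StDiscrB) (hZetaB : StZetaB) (hLOneB : StLOneB) (hRUnitB : StRUnitB) :
    StRCNB := by
  intro K _ _ D t u hK hd hF
  obtain ⟨htor, hr1, hr2, e, he, hlog⟩ := hRUnitB K D t u hK hd hF
  refine ⟨e, he, ?_⟩
  have hFD := (hDiscrB.1 K hK).1
  have hD0 : 0 < D := by
    rcases Nat.eq_zero_or_pos D with h0 | h0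
    · exfalso
      rw [hd, h0] at hFD
      rcases hFD with ⟨h1, -⟩ | ⟨-, h1, -⟩ <;> omega
    · exact h0
  obtain ⟨L, hL, hLR, -⟩ := hLOneB _ hFD
  have h1 := NumberField.tendsto_sub_one_mul_dedekindZeta_nhdsGT K
  have h2 : Tendsto (fun x : ℝ => ((x : ℂ) - 1) * NumberField.dedekindZeta K x) (𝓝[>] 1)
      (𝓝 (L : ℂ)) := by
    have h3 := RCNB.tendsto_zeta_real.mul hL
    rw [one_mul] at h3
    refine h3.congr' ?_
    filter_upwards [self_mem_nhdsWithin] with x hx
    rw [hZetaB K hK x hx]
    ring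
  have h4 : (NumberField.dedekindZeta_residue K : ℂ) = (L : ℂ) := tendsto_nhds_unique h1 h2
  have h5 : NumberField.dedekindZeta_residue K = L := by exact_mod_cast h4
  rw [NumberField.dedekindZeta_residue_def, htor, hr1, hr2, hd] at h5
  have hLR' := hLR (by rw [hd]; exact_mod_cast hD0)
  rw [hd, Int.natAbs_natCast] at hLR'
  have hDpos : (0 : ℝ) < D := by exact_mod_cast hD0
  have hsD : (0 : ℝ) < Real.sqrt D := Real.sqrt_pos.2 hDpos
  have h6 : L * Real.sqrt D = 2 * NumberField.Units.regulator K * NumberField.classNumber K := by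
    rw [← h5]
    have : |(((D : ℕ) : ℤ) : ℝ)| = D := by
      push_cast
      exact abs_of_pos hDpos
    rw [this]
    field_simp
    ring
  have h7 : LRB D = 2 * NumberField.Units.regulator K * NumberField.classNumber K := by
    rw [← hLR', ← h6]
    congr 1
    refine abs_of_pos ?_
    rw [← h5]
    have := NumberField.dedekindZeta_residue_pos K
    rw [NumberField.dedekindZeta_residue_def, htor, hr1, hr2, hd] at this
    exact this
  rw [h7, hlog]
  have h8 : (NumberField.classNumber K : ℝ) =
      (Nat.card (ClassGroup (NumberField.RingOfIntegers K)) : ℝ) := by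
    rw [NumberField.classNumber, Nat.card_eq_fintype_card]
  rw [h8]
  ring

end LO

end Pool.Agent.Lib.MP_7c5fb9_nt
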