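import Pool.Agent.Lib.MP_7c5fb9_nt.LO.Stmts
import Pool.Agent.Lib.MP_7c08ba_nt.Gen.GenusQuad

set_option autoImplicit false

/-!
# Decomposition of prime numbers in quadratic fields of discriminant one modulo four
-/

namespace Pool.Agent.Lib.MP_7c5fb9_nt

namespace LO

namespace SplitAux

open NumberField NumberTheorySymbols

/-! ### the symbol -/

theorem flip {d : ℤ} (h4 : d % 4 = 1) {p : ℕ} (hp : Odd p) :
    jacobiSym p d.natAbs = jacobiSym d p := by
  rcases le_or_gt 0 d with h | h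
  · have h1 : (d.natAbs : ℤ) = d := Int.natAbs_of_nonneg h
    have h2 : d.natAbs % 4 = 1 := by omega
    rw [← jacobiSym.quadratic_reciprocity_one_mod_four h2 hp, h1]
  · have h1 : (d.natAbs : ℤ) = -d := by omega
    have h2 : d.natAbs % 4 = 3 := by omega
    have h3 : d = -(d.natAbs : ℤ) := by omega
    have h5 : jacobiSym d p = ZMod.χ₄ p * jacobiSym (d.natAbs : ℤ) p := by
      conv_lhs => rw [h3]
      exact jacobiSym.neg _ hp
    rw [h5]
    have h6 : Odd d.natAbs := Nat.odd_iff.2 (by omega)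
    rcases Nat.odd_mod_four_iff.mp (Nat.odd_iff.1 hp) with h7 | h7
    · rw [ZMod.χ₄_nat_one_mod_four h7, one_mul]
      exact jacobiSym.quadratic_reciprocity_one_mod_four h7 h6
    · rw [ZMod.χ₄_nat_three_mod_four h7, jacobiSym.quadratic_reciprocity_three_mod_four h7 h2]
      ring

theorem root_of_sq {d m : ℤ} (hm : d = 1 - 4 * m) {p : ℕ} (hp : p.Prime) (hp2 : p ≠ 2) {x : ℤ}
    (hx : (p : ℤ) ∣ x ^ 2 - d) : ∃ r : ℤ, (p : ℤ) ∣ r ^ 2 - r + m ∧ (p : ℤ) ∣ (2 * r - 1) - x := by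
  have hodd : Odd (p : ℤ) := by
    have := hp.odd_of_ne_two hp2
    exact_mod_cast this
  obtain ⟨y, hy, hyx⟩ : ∃ y : ℤ, Odd y ∧ (p : ℤ) ∣ y - x := by
    rcases Int.even_or_odd x with h | h
    · exact ⟨x + p, h.add_odd hodd, ⟨1, by ring⟩⟩
    · exact ⟨x, h, ⟨0, by ring⟩⟩
  obtain ⟨r, hr⟩ : ∃ r : ℤ, y = 2 * r - 1 := by
    obtain ⟨k, hk⟩ := hy
    exact ⟨k + 1, by rw [hk]; ring⟩
  have h1 : (p : ℤ) ∣ 4 * (r ^ 2 - r + m) := by
    have h2 : (p : ℤ) ∣ (y - x) * (y + x) + (x ^ 2 - d) := (hyx.mul_right _).add hx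
    have h3 : (y - x) * (y + x) + (x ^ 2 - d) = 4 * (r ^ 2 - r + m) := by
      rw [hr, hm]
      ring
    rwa [h3] at h2
  refine ⟨r, ?_, by rw [← hr]; exact hyx⟩
  have hcop : IsCoprime (p : ℤ) 4 := by
    have h5 : Nat.Coprime p 4 := by
      have : Nat.Coprime p 2 := (Nat.coprime_primes hp Nat.prime_two).2 hp2
      exact Nat.Coprime.pow_right 2 this
    exact_mod_cast Nat.isCoprime_iff_coprime.2 h5
  exact hcop.dvd_of_dvd_mul_left h1

/-- the roots of the polynomial modulo `p` -/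
theorem roots {d m : ℤ} (hm : d = 1 - 4 * m) {p : ℕ} (hp : p.Prime) :
    (jacobiSym p d.natAbs = 0 → (p : ℤ) ∣ d ∧ ∃ r : ℤ, (p : ℤ) ∣ r ^ 2 - r + m ∧
      (p : ℤ) ∣ 2 * r - 1) ∧
    (jacobiSym p d.natAbs = 1 → ∃ r : ℤ, (p : ℤ) ∣ r ^ 2 - r + m ∧ ¬ (p : ℤ) ∣ 2 * r - 1) ∧
    (jacobiSym p d.natAbs = -1 → ∀ r : ℤ, ¬ (p : ℤ) ∣ r ^ 2 - r + m) := by
  have h4 : d % 4 = 1 := by omega
  have hfact : Fact p.Prime := ⟨hp⟩
  have hab : Odd d.natAbs := Nat.odd_iff.2 (by omega)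
  by_cases hp2 : p = 2
  · subst hp2
    have h8 : jacobiSym ((2 : ℕ) : ℤ) d.natAbs = ZMod.χ₈ d.natAbs := by
      rw [Nat.cast_ofNat]
      exact jacobiSym.at_two hab
    rw [h8]
    have h9 : (ZMod.χ₈ (d.natAbs : ZMod 8) = 1 ∧ m % 2 = 0) ∨
        (ZMod.χ₈ (d.natAbs : ZMod 8) = -1 ∧ m % 2 = 1) := by
      rw [ZMod.χ₈_nat_eq_if_mod_eight]
      have h10 : d.natAbs % 2 = 1 := Nat.odd_iff.1 hab
      rw [if_neg (by omega)]
      by_cases h11 : d.natAbs % 8 = 1 ∨ d.natAbs % 8 = 7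
      · rw [if_pos h11]
        left
        exact ⟨rfl, by omega⟩
      · rw [if_neg h11]
        right
        exact ⟨rfl, by omega⟩
    refine ⟨fun h => ?_, fun h => ⟨0, ?_, ?_⟩, fun h r hr => ?_⟩
    · rcases h9 with h9 | h9 <;> rw [h9.1] at h <;> norm_num at h
    · rcases h9 with h9 | h9
      · have := h9.2
        have h12 : (2 : ℤ) ∣ m := Int.dvd_of_emod_eq_zero this
        simpa using h12
      · rw [h9.1] at h
        norm_num at h
    · norm_num
    · rcases h9 with h9 | h9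
      · rw [h9.1] at h
        norm_num at h
      · have h12 : Even (r ^ 2 - r) := by
          have : r ^ 2 - r = (r - 1) * (r - 1 + 1) := by ring
          rw [this]
          exact Int.even_mul_succ_self (r - 1)
        obtain ⟨k, hk⟩ := h12
        obtain ⟨l, hl⟩ := hr
        push_cast at hl
        omega
  · have hodd := hp.odd_of_ne_two hp2
    rw [flip h4 hodd, ← jacobiSym.legendreSym.to_jacobiSym]
    have hcast : ∀ x : ℤ, (((x : ℤ) : ZMod p) = 0 ↔ (p : ℤ) ∣ x) := fun x =>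
      ZMod.intCast_zmod_eq_zero_iff_dvd x p
    refine ⟨fun h => ?_, fun h => ?_, fun h r hr => ?_⟩
    · rw [legendreSym.eq_zero_iff, hcast] at h
      refine ⟨h, ?_⟩
      obtain ⟨r, h1, h2⟩ := root_of_sq hm hp hp2 (x := 0) (by
        have : (p : ℤ) ∣ -d := (dvd_neg).2 h
        simpa using this)
      exact ⟨r, h1, by simpa using h2⟩
    · have h0 : ((d : ℤ) : ZMod p) ≠ 0 := by
        intro h0
        rw [(legendreSym.eq_zero_iff p d).2 h0] at h
        norm_num at h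
      rw [legendreSym.eq_one_iff p h0] at h
      obtain ⟨y, hy⟩ := h
      obtain ⟨x, rfl⟩ := ZMod.intCast_surjective y
      have h1 : (p : ℤ) ∣ x ^ 2 - d := by
        rw [← hcast]
        push_cast
        rw [hy]
        ring
      obtain ⟨r, h2, h3⟩ := root_of_sq hm hp hp2 h1
      refine ⟨r, h2, fun h4 => h0 ?_⟩
      rw [hcast]
      have h5 : (p : ℤ) ∣ x := by
        have := dvd_sub h4 h3
        rwa [sub_sub_cancel] at this
      have h6 : (p : ℤ) ∣ x ^ 2 := by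
        rw [pow_two]
        exact h5.mul_right x
      have := dvd_sub h6 h1
      rwa [sub_sub_cancel] at this
    · rw [legendreSym.eq_neg_one_iff] at h
      apply h
      refine ⟨((2 * r - 1 : ℤ) : ZMod p), ?_⟩
      have h1 : (((4 * (r ^ 2 - r + m) : ℤ)) : ZMod p) = 0 := by
        rw [hcast]
        exact hr.mul_left 4
      have h2 : ((2 * r - 1 : ℤ) : ZMod p) * ((2 * r - 1 : ℤ) : ZMod p) - ((d : ℤ) : ZMod p) =
          (((4 * (r ^ 2 - r + m) : ℤ)) : ZMod p) := by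
        rw [hm]
        push_cast
        ring
      rw [h1, sub_eq_zero] at h2
      exact h2.symm

/-! ### the field -/

section field

open Polynomial

variable {K : Type} [Field K] [NumberField K]

/-- trace and norm of an integral element are integers -/
theorem int_coeff {z : K} (hz : IsIntegral ℤ z) {T N : ℚ} (h : z ^ 2 = (T : K) * z - (N : K))
    (hq : ∀ x : ℚ, (x : K) ≠ z) : ∃ t n : ℤ, T = t ∧ N = n := by
  set q : ℚ[X] := X ^ 2 - C T * X + C N with hqdef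
  have hq2 : q.natDegree = 2 := by
    rw [hqdef]
    compute_degree!
  have hqm : q.Monic := by
    rw [hqdef]
    monicity!
  have hroot : aeval z q = 0 := by
    rw [hqdef]
    simp only [map_add, map_sub, map_mul, map_pow, aeval_X, aeval_C, eq_ratCast]
    rw [h]
    ring
  have hzq : IsIntegral ℚ z := hz.tower_top
  have hdvd : minpoly ℚ z ∣ q := minpoly.dvd ℚ z hroot
  have hdeg : 2 ≤ (minpoly ℚ z).natDegree := by
    have h0 : 0 < (minpoly ℚ z).natDegree := minpoly.natDegree_pos hzq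
    have h1 : (minpoly ℚ z).natDegree ≠ 1 := by
      rw [Ne, minpoly.natDegree_eq_one_iff]
      rintro ⟨x, hx⟩
      exact hq x (by rw [← hx, eq_ratCast])
    omega
  have heq : minpoly ℚ z = q := by
    refine (eq_of_monic_of_dvd_of_natDegree_le (minpoly.monic hzq) hqm hdvd ?_).symm
    omega
  have hmap : minpoly ℚ z = (minpoly ℤ z).map (algebraMap ℤ ℚ) :=
    minpoly.isIntegrallyClosed_eq_field_fractions' ℚ hz
  rw [heq] at hmap
  have c1 := congrArg (fun f => coeff f 1) hmap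
  have c0 := congrArg (fun f => coeff f 0) hmap
  simp only [coeff_map, hqdef, eq_intCast] at c1 c0
  refine ⟨-(minpoly ℤ z).coeff 1, (minpoly ℤ z).coeff 0, ?_, ?_⟩
  · push_cast
    rw [← c1]
    simp [coeff_X_pow]
  · rw [← c0]
    simp [coeff_X_pow]

theorem s_irr {d : ℤ} {s : K} (hs : s ^ 2 = (d : K)) (hsq : Squarefree d.natAbs)
    (h1 : 1 < d.natAbs) (x : ℚ) : (x : K) ≠ s := by
  intro hx
  have h2 : x ^ 2 = (d : ℚ) := by
    have h3 : ((x ^ 2 : ℚ) : K) = ((d : ℚ) : K) := by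
      push_cast
      rw [hx, hs]
    exact_mod_cast h3
  have h3 : IsSquare (d : ℚ) := ⟨x, by rw [← h2]; ring⟩
  rw [Rat.isSquare_intCast_iff] at h3
  obtain ⟨k, hk⟩ := h3
  have h4 : d.natAbs = k.natAbs * k.natAbs := by rw [hk, Int.natAbs_mul]
  have h5 := hsq k.natAbs ⟨1, by rw [mul_one]; exact h4⟩
  rw [Nat.isUnit_iff] at h5
  rw [h5] at h4
  omega

theorem exists_theta {d m : ℤ} (hm : d = 1 - 4 * m) {s : K} (hs : s ^ 2 = (d : K)) :
    ∃ th : 𝓞 K, (th : K) = (1 + s) / 2 ∧ th ^ 2 = th - (m : 𝓞 K) := by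
  have h1 : ((1 + s) / 2) ^ 2 = (1 + s) / 2 - (m : K) := by
    have h2 : s ^ 2 = 1 - 4 * (m : K) := by
      rw [hs, hm]
      push_cast
      ring
    linear_combination h2 / 4
  have h3 : IsIntegral ℤ ((1 + s) / 2) := by
    refine ⟨X ^ 2 - X + C m, ?_, ?_⟩
    · monicity!
    · rw [eval₂_add, eval₂_sub, eval₂_pow, eval₂_X, eval₂_C, h1, eq_intCast]
      ring
  refine ⟨⟨_, h3⟩, rfl, ?_⟩
  apply RingOfIntegers.ext
  exact h1

theorem sq_not_dvd {d : ℤ} (hsq : Squarefree d.natAbs) {p : ℕ} (hp : p.Prime) :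
    ¬ (p : ℤ) ^ 2 ∣ d := by
  intro h
  have h1 : p * p ∣ d.natAbs := by
    have h2 := Int.natAbs_dvd_natAbs.2 h
    rwa [Int.natAbs_pow, Int.natAbs_natCast, pow_two] at h2
  have := hsq p h1
  rw [Nat.isUnit_iff] at this
  exact hp.ne_one this

theorem not_dvd_theta {d m : ℤ} (hm : d = 1 - 4 * m) {s : K} (hs : s ^ 2 = (d : K))
    (hsq : Squarefree d.natAbs) (h1 : 1 < d.natAbs) {p : ℕ} (hp : p.Prime) {th : 𝓞 K}
    (hth : (th : K) = (1 + s) / 2) (a : ℤ) : ¬ (p : 𝓞 K) ∣ th - (a : 𝓞 K) := by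
  rintro ⟨z, hz⟩
  have hp0 : (p : K) ≠ 0 := by exact_mod_cast hp.ne_zero
  have hpq : (p : ℚ) ≠ 0 := by exact_mod_cast hp.ne_zero
  have hz' : (1 + s) / 2 - (a : K) = (p : K) * (z : K) := by
    rw [← hth]
    have := congrArg (fun x : 𝓞 K => (x : K)) hz
    simpa using this
  have hz2 : (z : K) = ((1 + s) / 2 - (a : K)) / (p : K) := by
    rw [hz']
    field_simp
  have h2 : s ^ 2 = 1 - 4 * (m : K) := by
    rw [hs, hm]
    push_cast
    ring
  obtain ⟨t, n, ht, hn⟩ := int_coeff (z := (z : K)) (RingOfIntegers.isIntegral_coe z)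
    (T := (1 - 2 * a) / p) (N := (a ^ 2 - a + m) / p ^ 2) (by
      rw [hz2]
      push_cast
      field_simp
      linear_combination h2) (by
      intro x hx
      refine s_irr hs hsq h1 (2 * (p * x + a) - 1) ?_
      push_cast
      rw [hx, ← hz']
      ring)
  rw [div_eq_iff hpq] at ht
  rw [div_eq_iff (pow_ne_zero 2 hpq)] at hn
  apply sq_not_dvd hsq hp
  refine ⟨t ^ 2 - 4 * n, ?_⟩
  have h3 : (d : ℚ) = (p : ℚ) ^ 2 * (t ^ 2 - 4 * n) := by
    rw [hm]
    push_cast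
    linear_combination (1 - 2 * (a : ℚ) + t * p) * ht - 4 * hn
  exact_mod_cast h3

theorem mul_eq {d m : ℤ} (hm : d = 1 - 4 * m) (hsq : Squarefree d.natAbs) {p : ℕ}
    (hp : p.Prime) {th : 𝓞 K} (hth : th ^ 2 = th - (m : 𝓞 K)) {r : ℤ}
    (hr : (p : ℤ) ∣ r ^ 2 - r + m) :
    (Ideal.span {(p : 𝓞 K), th - (r : 𝓞 K)}) * Ideal.span {(p : 𝓞 K), th - ((1 - r : ℤ) : 𝓞 K)} =
      Ideal.span {(p : 𝓞 K)} := by
  obtain ⟨k, hk⟩ := hr
  have hk' : (r : 𝓞 K) ^ 2 - r + m = p * k := by exact_mod_cast congrArg (Int.cast : ℤ → 𝓞 K) hk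
  have hlast : (th - (r : 𝓞 K)) * (th - ((1 - r : ℤ) : 𝓞 K)) = -(p * k : 𝓞 K) := by
    push_cast
    linear_combination hth - hk'
  rw [Ideal.span_pair_mul_span_pair]
  apply le_antisymm
  · rw [Ideal.span_le]
    intro x hx
    simp only [Set.mem_insert_iff, Set.mem_singleton_iff] at hx
    rw [SetLike.mem_coe, Ideal.mem_span_singleton]
    rcases hx with rfl | rfl | rfl | rfl
    · exact Dvd.intro _ rfl
    · exact Dvd.intro _ rfl
    · exact Dvd.intro_left _ rfl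
    · rw [hlast, dvd_neg]
      exact Dvd.intro _ rfl
  · rw [Ideal.span_singleton_le_iff_mem]
    set J := Ideal.span {(p : 𝓞 K) * p, (p : 𝓞 K) * (th - ((1 - r : ℤ) : 𝓞 K)),
      (th - (r : 𝓞 K)) * p, (th - (r : 𝓞 K)) * (th - ((1 - r : ℤ) : 𝓞 K))} with hJ
    have m1 : (p : 𝓞 K) * p ∈ J := Ideal.subset_span (by simp)
    have m2 : (p : 𝓞 K) * (th - ((1 - r : ℤ) : 𝓞 K)) ∈ J := Ideal.subset_span (by simp)
    have m3 : (th - (r : 𝓞 K)) * p ∈ J := Ideal.subset_span (by simp)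
    have m4 : (th - (r : 𝓞 K)) * (th - ((1 - r : ℤ) : 𝓞 K)) ∈ J := Ideal.subset_span (by simp)
    have hpp : Prime (p : ℤ) := Nat.prime_iff_prime_int.mp hp
    by_cases h2 : (p : ℤ) ∣ 2 * r - 1
    · have h3 : ¬ (p : ℤ) ∣ k := by
        intro h3
        apply sq_not_dvd hsq hp
        obtain ⟨i, hi⟩ := h2
        obtain ⟨j, hj⟩ := h3
        refine ⟨i ^ 2 - 4 * j, ?_⟩
        have h5 : m = p * k - (r ^ 2 - r) := by rw [← hk]; ring
        rw [hm, h5, hj]
        linear_combination (2 * r - 1 + p * i) * hi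
      obtain ⟨u, v, huv⟩ := (hpp.coprime_iff_not_dvd.2 h3 : IsCoprime (p : ℤ) k)
      have h4 : (u : 𝓞 K) * p + v * k = 1 := by exact_mod_cast congrArg (Int.cast : ℤ → 𝓞 K) huv
      have h5 : (p : 𝓞 K) = u * (p * p) - v * ((th - (r : 𝓞 K)) * (th - ((1 - r : ℤ) : 𝓞 K))) := by
        rw [hlast]
        linear_combination -(p : 𝓞 K) * h4
      rw [h5]
      exact J.sub_mem (J.mul_mem_left _ m1) (J.mul_mem_left _ m4)
    · obtain ⟨u, v, huv⟩ := (hpp.coprime_iff_not_dvd.2 h2 : IsCoprime (p : ℤ) (2 * r - 1))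
      have h4 : (u : 𝓞 K) * p + v * (2 * r - 1) = 1 := by
        exact_mod_cast congrArg (Int.cast : ℤ → 𝓞 K) huv
      have h5 : (p : 𝓞 K) = u * (p * p) + v * ((p : 𝓞 K) * (th - ((1 - r : ℤ) : 𝓞 K)) -
          (th - (r : 𝓞 K)) * p) := by
        push_cast
        linear_combination -(p : 𝓞 K) * h4
      rw [h5]
      exact J.add_mem (J.mul_mem_left _ m1) (J.mul_mem_left _ (J.sub_mem m2 m3))

theorem norms (hK : Module.finrank ℚ K = 2) {d m : ℤ} (hm : d = 1 - 4 * m) {s : K}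
    (hs : s ^ 2 = (d : K)) (hsq : Squarefree d.natAbs) (h1 : 1 < d.natAbs) {p : ℕ}
    (hp : p.Prime) {th : 𝓞 K} (hth : (th : K) = (1 + s) / 2) (hth2 : th ^ 2 = th - (m : 𝓞 K))
    {r : ℤ} (hr : (p : ℤ) ∣ r ^ 2 - r + m) :
    Ideal.absNorm (Ideal.span {(p : 𝓞 K), th - (r : 𝓞 K)}) = p ∧
    Ideal.absNorm (Ideal.span {(p : 𝓞 K), th - ((1 - r : ℤ) : 𝓞 K)}) = p := by
  have hmul := mul_eq hm hsq hp hth2 hr
  have hn := congrArg Ideal.absNorm hmul
  rw [map_mul, Ideal.absNorm_span_natCast, RingOfIntegers.rank, hK] at hn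
  set P := Ideal.span {(p : 𝓞 K), th - (r : 𝓞 K)} with hP
  set P' := Ideal.span {(p : 𝓞 K), th - ((1 - r : ℤ) : 𝓞 K)} with hP'
  have hne : Ideal.absNorm P ≠ 1 := by
    intro h
    rw [Ideal.absNorm_eq_one_iff] at h
    rw [h, Ideal.top_mul] at hmul
    have h2 : th - ((1 - r : ℤ) : 𝓞 K) ∈ P' := Ideal.subset_span (by simp)
    rw [hmul, Ideal.mem_span_singleton] at h2
    exact not_dvd_theta hm hs hsq h1 hp hth _ h2
  have hne' : Ideal.absNorm P' ≠ 1 := by
    intro h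
    rw [Ideal.absNorm_eq_one_iff] at h
    rw [h, Ideal.mul_top] at hmul
    have h2 : th - (r : 𝓞 K) ∈ P := Ideal.subset_span (by simp)
    rw [hmul, Ideal.mem_span_singleton] at h2
    exact not_dvd_theta hm hs hsq h1 hp hth _ h2
  obtain ⟨i, hi, hi2⟩ := (Nat.dvd_prime_pow hp).mp (Dvd.intro _ hn)
  obtain ⟨j, hj, hj2⟩ := (Nat.dvd_prime_pow hp).mp (Dvd.intro_left _ hn)
  have hi0 : i ≠ 0 := by rintro rfl; exact hne (by rw [hi2, pow_zero])
  have hj0 : j ≠ 0 := by rintro rfl; exact hne' (by rw [hj2, pow_zero])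
  rw [hi2, hj2, ← pow_add] at hn
  have hij : i + j = 2 := Nat.pow_right_injective hp.two_le hn
  have hi1 : i = 1 := by omega
  have hj1 : j = 1 := by omega
  rw [hi1, pow_one] at hi2
  rw [hj1, pow_one] at hj2
  exact ⟨hi2, hj2⟩

end field

end SplitAux

open SplitAux NumberField in
theorem stSplit : StSplit := by
  intro K _ _ s d hK hs hsq h1 h4 p hp
  obtain ⟨m, hm⟩ : ∃ m : ℤ, d = 1 - 4 * m := ⟨(1 - d) / 4, by omega⟩
  obtain ⟨hr0, hr1, hr2⟩ := roots hm hp
  obtain ⟨th, hth, hth2⟩ := exists_theta hm hs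
  have hirr : Irreducible p := hp
  refine ⟨fun h => ?_, fun h => ?_, fun h => ?_⟩
  · obtain ⟨-, r, h2, j, hj⟩ := hr0 h
    obtain ⟨h5, -⟩ := norms hK hm hs hsq h1 hp hth hth2 h2
    refine ⟨Ideal.span {(p : 𝓞 K), th - (r : 𝓞 K)},
      Ideal.isPrime_of_irreducible_absNorm (by rw [h5]; exact hirr), h5, ?_⟩
    have h6 : Ideal.span {(p : 𝓞 K), th - ((1 - r : ℤ) : 𝓞 K)} =
        Ideal.span {(p : 𝓞 K), th - (r : 𝓞 K)} := by
      have h7 : th - ((1 - r : ℤ) : 𝓞 K) = (th - (r : 𝓞 K)) + p * j := by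
        have h8 : (2 : 𝓞 K) * r - 1 = p * j := by
          exact_mod_cast congrArg (Int.cast : ℤ → 𝓞 K) hj
        push_cast
        linear_combination h8
      apply le_antisymm
      · rw [Ideal.span_le]
        intro x hx
        simp only [Set.mem_insert_iff, Set.mem_singleton_iff] at hx
        rw [SetLike.mem_coe]
        rcases hx with rfl | rfl
        · exact Ideal.subset_span (by simp)
        · rw [h7]
          exact Ideal.add_mem _ (Ideal.subset_span (by simp))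
            (Ideal.mul_mem_right _ _ (Ideal.subset_span (by simp)))
      · rw [Ideal.span_le]
        intro x hx
        simp only [Set.mem_insert_iff, Set.mem_singleton_iff] at hx
        rw [SetLike.mem_coe]
        rcases hx with rfl | rfl
        · exact Ideal.subset_span (by simp)
        · have h9 : th - (r : 𝓞 K) = (th - ((1 - r : ℤ) : 𝓞 K)) - p * j := by
            rw [h7]
            ring
          rw [h9]
          exact Ideal.sub_mem _ (Ideal.subset_span (by simp))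
            (Ideal.mul_mem_right _ _ (Ideal.subset_span (by simp)))
    have h10 := mul_eq hm hsq hp hth2 h2
    rw [h6] at h10
    rw [← h10, pow_two]
  · obtain ⟨r, h2, h3⟩ := hr1 h
    obtain ⟨h5, h6⟩ := norms hK hm hs hsq h1 hp hth hth2 h2
    refine ⟨Ideal.span {(p : 𝓞 K), th - (r : 𝓞 K)},
      Ideal.span {(p : 𝓞 K), th - ((1 - r : ℤ) : 𝓞 K)},
      Ideal.isPrime_of_irreducible_absNorm (by rw [h5]; exact hirr),
      Ideal.isPrime_of_irreducible_absNorm (by rw [h6]; exact hirr), ?_, h5, h6,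
      (mul_eq hm hsq hp hth2 h2).symm⟩
    intro heq
    have hpp : Prime (p : ℤ) := Nat.prime_iff_prime_int.mp hp
    obtain ⟨u, v, huv⟩ := (hpp.coprime_iff_not_dvd.2 h3 : IsCoprime (p : ℤ) (2 * r - 1))
    have h7 : (u : 𝓞 K) * p + v * (2 * r - 1) = 1 := by
      exact_mod_cast congrArg (Int.cast : ℤ → 𝓞 K) huv
    have m1 : (p : 𝓞 K) ∈ Ideal.span {(p : 𝓞 K), th - (r : 𝓞 K)} :=
      Ideal.subset_span (by simp)
    have m2 : th - (r : 𝓞 K) ∈ Ideal.span {(p : 𝓞 K), th - (r : 𝓞 K)} :=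
      Ideal.subset_span (by simp)
    have m3 : th - ((1 - r : ℤ) : 𝓞 K) ∈ Ideal.span {(p : 𝓞 K), th - (r : 𝓞 K)} := by
      rw [heq]
      exact Ideal.subset_span (by simp)
    have h8 : (1 : 𝓞 K) = u * p + v * ((th - ((1 - r : ℤ) : 𝓞 K)) - (th - (r : 𝓞 K))) := by
      push_cast
      linear_combination -h7
    have h9 : (1 : 𝓞 K) ∈ Ideal.span {(p : 𝓞 K), th - (r : 𝓞 K)} := by
      rw [h8]
      exact Ideal.add_mem _ (Ideal.mul_mem_left _ _ m1)
        (Ideal.mul_mem_left _ _ (Ideal.sub_mem _ m3 m2))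
    rw [(Ideal.eq_top_iff_one _).2 h9, Ideal.absNorm_top] at h5
    exact hp.ne_one h5.symm
  · have h2 := hr2 h
    have hn : Ideal.absNorm (Ideal.span {(p : 𝓞 K)}) = p ^ 2 := by
      rw [Ideal.absNorm_span_natCast, RingOfIntegers.rank, hK]
    have hne : Ideal.span {(p : 𝓞 K)} ≠ ⊤ := by
      intro h3
      rw [h3, Ideal.absNorm_top] at hn
      have := hp.one_lt
      nlinarith
    obtain ⟨P, hP, hle⟩ := Ideal.exists_le_maximal _ hne
    have hpP : (p : 𝓞 K) ∈ P := hle (Ideal.mem_span_singleton_self _)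
    obtain ⟨J, hJ⟩ := Ideal.dvd_iff_le.2 hle
    have hmul : Ideal.absNorm P * Ideal.absNorm J = p ^ 2 := by
      rw [← map_mul, ← hJ, hn]
    obtain ⟨i, hi, hi2⟩ := (Nat.dvd_prime_pow hp).mp (Dvd.intro _ hmul)
    have hi0 : i ≠ 0 := by
      rintro rfl
      rw [pow_zero, Ideal.absNorm_eq_one_iff] at hi2
      exact hP.ne_top hi2
    have hi1 : i ≠ 1 := by
      rintro rfl
      rw [pow_one] at hi2
      obtain ⟨n, hn2⟩ := BKGen.Genus.exists_int_sub_mem hp hi2 th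
      have h3 : (((n ^ 2 - n + m : ℤ)) : 𝓞 K) ∈ P := by
        have h5 : (((n ^ 2 - n + m : ℤ)) : 𝓞 K) = (1 - n - th) * (th - n) := by
          push_cast
          linear_combination hth2
        rw [h5]
        exact P.mul_mem_left _ hn2
      have hpp : Prime (p : ℤ) := Nat.prime_iff_prime_int.mp hp
      obtain ⟨u, v, huv⟩ := (hpp.coprime_iff_not_dvd.2 (h2 n) :
        IsCoprime (p : ℤ) (n ^ 2 - n + m))
      have h7 : (u : 𝓞 K) * p + v * (((n ^ 2 - n + m : ℤ)) : 𝓞 K) = 1 := by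
        exact_mod_cast congrArg (Int.cast : ℤ → 𝓞 K) huv
      apply hP.ne_top
      rw [Ideal.eq_top_iff_one, ← h7]
      exact P.add_mem (P.mul_mem_left _ hpP) (P.mul_mem_left _ h3)
    have hi3 : i = 2 := by omega
    subst hi3
    have hJ1 : Ideal.absNorm J = 1 := by
      rw [hi2] at hmul
      have : p ^ 2 * Ideal.absNorm J = p ^ 2 * 1 := by rw [hmul, mul_one]
      exact Nat.eq_of_mul_eq_mul_left (Nat.pow_pos hp.pos) this
    rw [Ideal.absNorm_eq_one_iff] at hJ1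
    rw [hJ, hJ1, Ideal.mul_top]
    exact hP.isPrime

end LO

end Pool.Agent.Lib.MP_7c5fb9_nt
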