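import Pool.Agent.Lib.MP_7c5fb9_nt.LO.Stmts2
import Pool.Agent.Lib.MP_7c5fb9_nt.LO.Split

set_option autoImplicit false

/-!
# Decomposition of prime numbers in quadratic fields
-/

namespace Pool.Agent.Lib.MP_7c5fb9_nt

namespace LO

namespace SplitBAux

open NumberField NumberTheorySymbols SplitAux

section field

open Polynomial

variable {K : Type} [Field K] [NumberField K]

omit [NumberField K] in
theorem exists_root {e : ℤ} {s : K} (hs : s ^ 2 = (e : K)) :
    ∃ th : 𝓞 K, (th : K) = s ∧ th ^ 2 = (e : 𝓞 K) := by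
  have h3 : IsIntegral ℤ s := by
    refine ⟨X ^ 2 - C e, ?_, ?_⟩
    · monicity!
    · rw [eval₂_sub, eval₂_pow, eval₂_X, eval₂_C, hs, eq_intCast]
      ring
  refine ⟨⟨_, h3⟩, rfl, ?_⟩
  apply RingOfIntegers.ext
  exact hs

/-- The elements `√e - a` are not divisible by prime numbers. -/
theorem not_dvd_root {e : ℤ} (he : e % 4 = 2 ∨ e % 4 = 3) {s : K} (hs : s ^ 2 = (e : K))
    (hsq : Squarefree e.natAbs) (hirr : ∀ x : ℚ, (x : K) ≠ s) {p : ℕ} (hp : p.Prime) {th : 𝓞 K}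
    (hth : (th : K) = s) (a : ℤ) : ¬ (p : 𝓞 K) ∣ th - (a : 𝓞 K) := by
  rintro ⟨z, hz⟩
  have hp0 : (p : K) ≠ 0 := by exact_mod_cast hp.ne_zero
  have hpq : (p : ℚ) ≠ 0 := by exact_mod_cast hp.ne_zero
  have hz' : s - (a : K) = (p : K) * (z : K) := by
    rw [← hth]
    have := congrArg (fun x : 𝓞 K => (x : K)) hz
    simpa using this
  have hz2 : (z : K) = (s - (a : K)) / (p : K) := by
    rw [hz']
    field_simp
  obtain ⟨t, n, ht, hn⟩ := int_coeff (z := (z : K)) (RingOfIntegers.isIntegral_coe z)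
    (T := (-2 * a) / p) (N := (a ^ 2 - e) / p ^ 2) (by
      rw [hz2]
      push_cast
      field_simp
      linear_combination hs) (by
      intro x hx
      refine hirr (p * x + a) ?_
      push_cast
      rw [hx, ← hz']
      ring)
  rw [div_eq_iff hpq] at ht
  rw [div_eq_iff (pow_ne_zero 2 hpq)] at hn
  have ht' : -2 * a = t * p := by exact_mod_cast ht
  have hn' : a ^ 2 - e = n * p ^ 2 := by exact_mod_cast hn
  rcases hp.eq_two_or_odd with h2 | h2
  · subst h2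
    have h3 : a ^ 2 % 4 = 0 ∨ a ^ 2 % 4 = 1 := by
      rcases Int.even_or_odd a with ⟨b, hb⟩ | ⟨b, hb⟩
      · left
        rw [hb]
        have : (b + b) ^ 2 = 4 * (b ^ 2) := by ring
        rw [this]
        omega
      · right
        rw [hb]
        have : (2 * b + 1) ^ 2 = 4 * (b ^ 2 + b) + 1 := by ring
        rw [this]
        omega
    push_cast at hn'
    omega
  · apply sq_not_dvd hsq hp
    have hpp : Prime (p : ℤ) := Nat.prime_iff_prime_int.mp hp
    have h3 : (p : ℤ) ∣ 2 * a := ⟨-t, by linarith⟩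
    have h4 : (p : ℤ) ∣ a := by
      rcases hpp.dvd_or_dvd h3 with h5 | h5
      · exfalso
        have h6 : p ∣ 2 := by exact_mod_cast h5
        have h7 := (Nat.prime_dvd_prime_iff_eq hp Nat.prime_two).1 h6
        omega
      · exact h5
    obtain ⟨b, hb⟩ := h4
    refine ⟨b ^ 2 - n, ?_⟩
    have h5 : e = a ^ 2 - n * p ^ 2 := by linarith
    rw [h5, hb]
    ring

theorem mul_eq0 {e : ℤ} {p : ℕ} (hp : p.Prime) {th : 𝓞 K} (hth : th ^ 2 = (e : 𝓞 K)) {r : ℤ}
    (hr : (p : ℤ) ∣ r ^ 2 - e) (hc : (p : ℤ) ∣ 2 * r → ¬ (p : ℤ) ^ 2 ∣ r ^ 2 - e) :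
    (Ideal.span {(p : 𝓞 K), th - (r : 𝓞 K)}) * Ideal.span {(p : 𝓞 K), th - ((-r : ℤ) : 𝓞 K)} =
      Ideal.span {(p : 𝓞 K)} := by
  obtain ⟨k, hk⟩ := hr
  have hk' : (r : 𝓞 K) ^ 2 - e = p * k := by exact_mod_cast congrArg (Int.cast : ℤ → 𝓞 K) hk
  have hlast : (th - (r : 𝓞 K)) * (th - ((-r : ℤ) : 𝓞 K)) = -(p * k : 𝓞 K) := by
    push_cast
    linear_combination hth - hk'
  rw [Ideal.span_pair_mul_span_pair]
  apply le_antisymm
  · rw [Ideal.span_le]
    intro x hx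
    simp only [Set.mem_insert_iff, Set.mem_singleton_iff] at hx
    rw [SetLike.mem_coe, Ideal.mem_span_singleton]
    rcases hx with rfl | rfl | rfl | rfl
    · exact Dvd.intro _ rfl
    · exact Dvd.intro _ rfl
    · exact Dvd.intro_left _ rfl
    · rw [hlast, dvd_neg]
      exact Dvd.intro _ rfl
  · rw [Ideal.span_singleton_le_iff_mem]
    set J := Ideal.span {(p : 𝓞 K) * p, (p : 𝓞 K) * (th - ((-r : ℤ) : 𝓞 K)),
      (th - (r : 𝓞 K)) * p, (th - (r : 𝓞 K)) * (th - ((-r : ℤ) : 𝓞 K))} with hJ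
    have m1 : (p : 𝓞 K) * p ∈ J := Ideal.subset_span (by simp)
    have m2 : (p : 𝓞 K) * (th - ((-r : ℤ) : 𝓞 K)) ∈ J := Ideal.subset_span (by simp)
    have m3 : (th - (r : 𝓞 K)) * p ∈ J := Ideal.subset_span (by simp)
    have m4 : (th - (r : 𝓞 K)) * (th - ((-r : ℤ) : 𝓞 K)) ∈ J := Ideal.subset_span (by simp)
    have hpp : Prime (p : ℤ) := Nat.prime_iff_prime_int.mp hp
    by_cases h2 : (p : ℤ) ∣ 2 * r
    · have h3 : ¬ (p : ℤ) ∣ k := by
        rintro ⟨j, hj⟩
        exact hc h2 ⟨j, by rw [hk, hj]; ring⟩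
      obtain ⟨u, v, huv⟩ := (hpp.coprime_iff_not_dvd.2 h3 : IsCoprime (p : ℤ) k)
      have h4 : (u : 𝓞 K) * p + v * k = 1 := by exact_mod_cast congrArg (Int.cast : ℤ → 𝓞 K) huv
      have h5 : (p : 𝓞 K) = u * (p * p) - v * ((th - (r : 𝓞 K)) * (th - ((-r : ℤ) : 𝓞 K))) := by
        rw [hlast]
        linear_combination -(p : 𝓞 K) * h4
      rw [h5]
      exact J.sub_mem (J.mul_mem_left _ m1) (J.mul_mem_left _ m4)
    · obtain ⟨u, v, huv⟩ := (hpp.coprime_iff_not_dvd.2 h2 : IsCoprime (p : ℤ) (2 * r))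
      have h4 : (u : 𝓞 K) * p + v * (2 * r) = 1 := by
        exact_mod_cast congrArg (Int.cast : ℤ → 𝓞 K) huv
      have h5 : (p : 𝓞 K) = u * (p * p) + v * ((p : 𝓞 K) * (th - ((-r : ℤ) : 𝓞 K)) -
          (th - (r : 𝓞 K)) * p) := by
        push_cast
        linear_combination -(p : 𝓞 K) * h4
      rw [h5]
      exact J.add_mem (J.mul_mem_left _ m1) (J.mul_mem_left _ (J.sub_mem m2 m3))

theorem norms0 (hK : Module.finrank ℚ K = 2) {p : ℕ} (hp : p.Prime) {th : 𝓞 K} {r : ℤ}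
    (hnd : ∀ a : ℤ, ¬ (p : 𝓞 K) ∣ th - (a : 𝓞 K))
    (hmul : (Ideal.span {(p : 𝓞 K), th - (r : 𝓞 K)}) *
      Ideal.span {(p : 𝓞 K), th - ((-r : ℤ) : 𝓞 K)} = Ideal.span {(p : 𝓞 K)}) :
    Ideal.absNorm (Ideal.span {(p : 𝓞 K), th - (r : 𝓞 K)}) = p ∧
    Ideal.absNorm (Ideal.span {(p : 𝓞 K), th - ((-r : ℤ) : 𝓞 K)}) = p := by
  have hn := congrArg Ideal.absNorm hmul
  rw [map_mul, Ideal.absNorm_span_natCast, RingOfIntegers.rank, hK] at hn
  set P := Ideal.span {(p : 𝓞 K), th - (r : 𝓞 K)} with hP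
  set P' := Ideal.span {(p : 𝓞 K), th - ((-r : ℤ) : 𝓞 K)} with hP'
  have hne : Ideal.absNorm P ≠ 1 := by
    intro h
    rw [Ideal.absNorm_eq_one_iff] at h
    rw [h, Ideal.top_mul] at hmul
    have h2 : th - ((-r : ℤ) : 𝓞 K) ∈ P' := Ideal.subset_span (by simp)
    rw [hmul, Ideal.mem_span_singleton] at h2
    exact hnd _ h2
  have hne' : Ideal.absNorm P' ≠ 1 := by
    intro h
    rw [Ideal.absNorm_eq_one_iff] at h
    rw [h, Ideal.mul_top] at hmul
    have h2 : th - (r : 𝓞 K) ∈ P := Ideal.subset_span (by simp)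
    rw [hmul, Ideal.mem_span_singleton] at h2
    exact hnd _ h2
  obtain ⟨i, hi, hi2⟩ := (Nat.dvd_prime_pow hp).mp (Dvd.intro _ hn)
  obtain ⟨j, hj, hj2⟩ := (Nat.dvd_prime_pow hp).mp (Dvd.intro_left _ hn)
  have hi0 : i ≠ 0 := by rintro rfl; exact hne (by rw [hi2, pow_zero])
  have hj0 : j ≠ 0 := by rintro rfl; exact hne' (by rw [hj2, pow_zero])
  rw [hi2, hj2, ← pow_add] at hn
  have hij : i + j = 2 := Nat.pow_right_injective hp.two_le hn
  have hi1 : i = 1 := by omega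
  have hj1 : j = 1 := by omega
  rw [hi1, pow_one] at hi2
  rw [hj1, pow_one] at hj2
  exact ⟨hi2, hj2⟩

/-- ramified primes -/
theorem ram0 (hK : Module.finrank ℚ K = 2) {e : ℤ} {p : ℕ} (hp : p.Prime) {th : 𝓞 K}
    (hth : th ^ 2 = (e : 𝓞 K)) {r : ℤ} (hnd : ∀ a : ℤ, ¬ (p : 𝓞 K) ∣ th - (a : 𝓞 K))
    (hr : (p : ℤ) ∣ r ^ 2 - e) (h2 : (p : ℤ) ∣ 2 * r) (hc : ¬ (p : ℤ) ^ 2 ∣ r ^ 2 - e) :
    ∃ P : Ideal (𝓞 K), P.IsPrime ∧ P.absNorm = p ∧ Ideal.span {(p : 𝓞 K)} = P ^ 2 := by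
  have hmul := mul_eq0 hp hth hr fun _ => hc
  obtain ⟨h5, -⟩ := norms0 hK hp hnd hmul
  have hirr : Irreducible p := hp
  refine ⟨Ideal.span {(p : 𝓞 K), th - (r : 𝓞 K)},
    Ideal.isPrime_of_irreducible_absNorm (by rw [h5]; exact hirr), h5, ?_⟩
  obtain ⟨j, hj⟩ := h2
  have h6 : Ideal.span {(p : 𝓞 K), th - ((-r : ℤ) : 𝓞 K)} =
      Ideal.span {(p : 𝓞 K), th - (r : 𝓞 K)} := by
    have h7 : th - ((-r : ℤ) : 𝓞 K) = (th - (r : 𝓞 K)) + p * j := by
      have h8 : (2 : 𝓞 K) * r = p * j := by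
        exact_mod_cast congrArg (Int.cast : ℤ → 𝓞 K) hj
      push_cast
      linear_combination h8
    apply le_antisymm
    · rw [Ideal.span_le]
      intro x hx
      simp only [Set.mem_insert_iff, Set.mem_singleton_iff] at hx
      rw [SetLike.mem_coe]
      rcases hx with rfl | rfl
      · exact Ideal.subset_span (by simp)
      · rw [h7]
        exact Ideal.add_mem _ (Ideal.subset_span (by simp))
          (Ideal.mul_mem_right _ _ (Ideal.subset_span (by simp)))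
    · rw [Ideal.span_le]
      intro x hx
      simp only [Set.mem_insert_iff, Set.mem_singleton_iff] at hx
      rw [SetLike.mem_coe]
      rcases hx with rfl | rfl
      · exact Ideal.subset_span (by simp)
      · have h9 : th - (r : 𝓞 K) = (th - ((-r : ℤ) : 𝓞 K)) - p * j := by
          rw [h7]
          ring
        rw [h9]
        exact Ideal.sub_mem _ (Ideal.subset_span (by simp))
          (Ideal.mul_mem_right _ _ (Ideal.subset_span (by simp)))
  rw [h6] at hmul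
  rw [← hmul, pow_two]

/-- split primes -/
theorem spl0 (hK : Module.finrank ℚ K = 2) {e : ℤ} {p : ℕ} (hp : p.Prime) {th : 𝓞 K}
    (hth : th ^ 2 = (e : 𝓞 K)) {r : ℤ} (hnd : ∀ a : ℤ, ¬ (p : 𝓞 K) ∣ th - (a : 𝓞 K))
    (hr : (p : ℤ) ∣ r ^ 2 - e) (h3 : ¬ (p : ℤ) ∣ 2 * r) :
    ∃ P P' : Ideal (𝓞 K), P.IsPrime ∧ P'.IsPrime ∧ P ≠ P' ∧ P.absNorm = p ∧ P'.absNorm = p ∧
      Ideal.span {(p : 𝓞 K)} = P * P' := by
  have hmul := mul_eq0 hp hth hr fun h => absurd h h3
  obtain ⟨h5, h6⟩ := norms0 hK hp hnd hmul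
  have hirr : Irreducible p := hp
  refine ⟨Ideal.span {(p : 𝓞 K), th - (r : 𝓞 K)},
    Ideal.span {(p : 𝓞 K), th - ((-r : ℤ) : 𝓞 K)},
    Ideal.isPrime_of_irreducible_absNorm (by rw [h5]; exact hirr),
    Ideal.isPrime_of_irreducible_absNorm (by rw [h6]; exact hirr), ?_, h5, h6, hmul.symm⟩
  intro heq
  have hpp : Prime (p : ℤ) := Nat.prime_iff_prime_int.mp hp
  obtain ⟨u, v, huv⟩ := (hpp.coprime_iff_not_dvd.2 h3 : IsCoprime (p : ℤ) (2 * r))
  have h7 : (u : 𝓞 K) * p + v * (2 * r) = 1 := by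
    exact_mod_cast congrArg (Int.cast : ℤ → 𝓞 K) huv
  have m1 : (p : 𝓞 K) ∈ Ideal.span {(p : 𝓞 K), th - (r : 𝓞 K)} :=
    Ideal.subset_span (by simp)
  have m2 : th - (r : 𝓞 K) ∈ Ideal.span {(p : 𝓞 K), th - (r : 𝓞 K)} :=
    Ideal.subset_span (by simp)
  have m3 : th - ((-r : ℤ) : 𝓞 K) ∈ Ideal.span {(p : 𝓞 K), th - (r : 𝓞 K)} := by
    rw [heq]
    exact Ideal.subset_span (by simp)
  have h8 : (1 : 𝓞 K) = u * p + v * ((th - ((-r : ℤ) : 𝓞 K)) - (th - (r : 𝓞 K))) := by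
    push_cast
    linear_combination -h7
  have h9 : (1 : 𝓞 K) ∈ Ideal.span {(p : 𝓞 K), th - (r : 𝓞 K)} := by
    rw [h8]
    exact Ideal.add_mem _ (Ideal.mul_mem_left _ _ m1)
      (Ideal.mul_mem_left _ _ (Ideal.sub_mem _ m3 m2))
  rw [(Ideal.eq_top_iff_one _).2 h9, Ideal.absNorm_top] at h5
  exact hp.ne_one h5.symm

/-- inert primes -/
theorem inert0 (hK : Module.finrank ℚ K = 2) {e : ℤ} {p : ℕ} (hp : p.Prime) {th : 𝓞 K}
    (hth : th ^ 2 = (e : 𝓞 K)) (h2 : ∀ r : ℤ, ¬ (p : ℤ) ∣ r ^ 2 - e) :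
    (Ideal.span {(p : 𝓞 K)}).IsPrime := by
  have hn : Ideal.absNorm (Ideal.span {(p : 𝓞 K)}) = p ^ 2 := by
    rw [Ideal.absNorm_span_natCast, RingOfIntegers.rank, hK]
  have hne : Ideal.span {(p : 𝓞 K)} ≠ ⊤ := by
    intro h3
    rw [h3, Ideal.absNorm_top] at hn
    have := hp.one_lt
    nlinarith
  obtain ⟨P, hP, hle⟩ := Ideal.exists_le_maximal _ hne
  have hpP : (p : 𝓞 K) ∈ P := hle (Ideal.mem_span_singleton_self _)
  obtain ⟨J, hJ⟩ := Ideal.dvd_iff_le.2 hle
  have hmul : Ideal.absNorm P * Ideal.absNorm J = p ^ 2 := by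
    rw [← map_mul, ← hJ, hn]
  obtain ⟨i, hi, hi2⟩ := (Nat.dvd_prime_pow hp).mp (Dvd.intro _ hmul)
  have hi0 : i ≠ 0 := by
    rintro rfl
    rw [pow_zero, Ideal.absNorm_eq_one_iff] at hi2
    exact hP.ne_top hi2
  have hi1 : i ≠ 1 := by
    rintro rfl
    rw [pow_one] at hi2
    obtain ⟨n, hn2⟩ := BKGen.Genus.exists_int_sub_mem hp hi2 th
    have h3 : (((n ^ 2 - e : ℤ)) : 𝓞 K) ∈ P := by
      have h5 : (((n ^ 2 - e : ℤ)) : 𝓞 K) = -(n + th) * (th - n) := by
        push_cast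
        linear_combination hth
      rw [h5]
      exact P.mul_mem_left _ hn2
    have hpp : Prime (p : ℤ) := Nat.prime_iff_prime_int.mp hp
    obtain ⟨u, v, huv⟩ := (hpp.coprime_iff_not_dvd.2 (h2 n) :
      IsCoprime (p : ℤ) (n ^ 2 - e))
    have h7 : (u : 𝓞 K) * p + v * (((n ^ 2 - e : ℤ)) : 𝓞 K) = 1 := by
      exact_mod_cast congrArg (Int.cast : ℤ → 𝓞 K) huv
    apply hP.ne_top
    rw [Ideal.eq_top_iff_one, ← h7]
    exact P.add_mem (P.mul_mem_left _ hpP) (P.mul_mem_left _ h3)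
  have hi3 : i = 2 := by omega
  subst hi3
  have hJ1 : Ideal.absNorm J = 1 := by
    rw [hi2] at hmul
    have : p ^ 2 * Ideal.absNorm J = p ^ 2 * 1 := by rw [hmul, mul_one]
    exact Nat.eq_of_mul_eq_mul_left (Nat.pow_pos hp.pos) this
  rw [Ideal.absNorm_eq_one_iff] at hJ1
  rw [hJ, hJ1, Ideal.mul_top]
  exact hP.isPrime

end field

end SplitBAux

open SplitBAux SplitAux NumberField in
theorem stSplitB (hDiscrB : StDiscrB) : StSplitB := by
  intro K _ _ hK p hp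
  obtain ⟨hFD, s, hs⟩ := hDiscrB.1 K hK
  obtain ⟨d, hd⟩ : ∃ d, d = discr K := ⟨_, rfl⟩
  rw [← hd] at hFD hs ⊢
  rcases hFD with ⟨h4, hsq, hd1⟩ | ⟨h4, h5, hsq⟩
  · have h6 : kr d p = jacobiSym p d.natAbs := by
      unfold kr
      rw [if_neg (by omega)]
    rw [h6]
    exact stSplit K s d hK hs hsq (by omega) h4 p hp
  · obtain ⟨e, he⟩ : ∃ e, e = d / 4 := ⟨_, rfl⟩
    rw [← he] at h5 hsq
    have hde : d = 4 * e := by omega
    have hs2 : (s / 2) ^ 2 = (e : K) := by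
      have h7 : s ^ 2 = 4 * (e : K) := by
        rw [hs, hde]
        push_cast
        ring
      linear_combination h7 / 4
    have he' : e % 4 = 2 ∨ e % 4 = 3 := h5
    obtain ⟨th, hth, hth2⟩ := exists_root hs2
    have hnat : 1 < e.natAbs ∨ e = -1 := by omega
    have hirr' : ∀ a : ℤ, ¬ (p : 𝓞 K) ∣ th - (a : 𝓞 K) := by
      refine not_dvd_root he' hs2 hsq ?_ hp hth
      rcases hnat with h1 | h1
      · exact s_irr hs2 hsq h1
      · intro x hx
        have h2 : x ^ 2 = -1 := by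
          have h3 : ((x ^ 2 : ℚ) : K) = ((-1 : ℚ) : K) := by
            push_cast
            rw [hx, hs2, h1]
            push_cast
            ring
          exact_mod_cast h3
        nlinarith [sq_nonneg x]
    have hkr : kr d p = if p % 2 = 0 then 0 else jacobiSym d p := by
      unfold kr
      rw [if_pos (by omega)]
    rcases hp.eq_two_or_odd with h2 | h2
    · subst h2
      have h7 : kr d 2 = 0 := by
        rw [hkr]
        norm_num
      rw [h7]
      refine ⟨fun _ => ?_, fun h => by norm_num at h, fun h => by norm_num at h⟩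
      have h9 : ∃ r : ℤ, (r ^ 2 - e) % 4 = 2 := by
        rcases he' with h | h
        · exact ⟨0, by omega⟩
        · exact ⟨1, by omega⟩
      obtain ⟨r, hr⟩ := h9
      refine ram0 hK hp hth2 hirr' (r := r) ?_ ?_ ?_
      · push_cast
        omega
      · push_cast
        exact Dvd.intro _ rfl
      · push_cast
        omega
    · have hkr2 : kr d p = jacobiSym d p := by
        rw [hkr, if_neg (by omega)]
      have hfact : Fact p.Prime := ⟨hp⟩
      rw [hkr2, ← jacobiSym.legendreSym.to_jacobiSym]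
      have hcast : ∀ x : ℤ, (((x : ℤ) : ZMod p) = 0 ↔ (p : ℤ) ∣ x) := fun x =>
        ZMod.intCast_zmod_eq_zero_iff_dvd x p
      have hpp : Prime (p : ℤ) := Nat.prime_iff_prime_int.mp hp
      have hp2 : ¬ (p : ℤ) ∣ 2 := by
        intro h6
        have h6' : p ∣ 2 := by exact_mod_cast h6
        have h7 := (Nat.prime_dvd_prime_iff_eq hp Nat.prime_two).1 h6'
        omega
      have hp4 : ¬ (p : ℤ) ∣ 4 := by
        intro h
        have h7 : (4 : ℤ) = 2 * 2 := by norm_num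
        rw [h7] at h
        rcases hpp.dvd_or_dvd h with h | h <;> exact hp2 h
      have hcop4 : IsCoprime (p : ℤ) 4 := hpp.coprime_iff_not_dvd.2 hp4
      refine ⟨fun h => ?_, fun h => ?_, fun h => ?_⟩
      · rw [legendreSym.eq_zero_iff, hcast, hde] at h
        have h7 : (p : ℤ) ∣ e := hcop4.dvd_of_dvd_mul_left h
        refine ram0 hK hp hth2 hirr' (r := 0) ?_ ?_ ?_
        · have : (p : ℤ) ∣ -e := (dvd_neg).2 h7
          simpa using this
        · simp
        · intro h8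
          have h9 : (p : ℤ) ^ 2 ∣ e := by
            have : (p : ℤ) ^ 2 ∣ -e := by simpa using h8
            exact (dvd_neg).1 this
          exact sq_not_dvd hsq hp h9
      · have h0 : ((d : ℤ) : ZMod p) ≠ 0 := by
          intro h0
          rw [(legendreSym.eq_zero_iff p d).2 h0] at h
          norm_num at h
        rw [legendreSym.eq_one_iff p h0] at h
        obtain ⟨y, hy⟩ := h
        obtain ⟨x, rfl⟩ := ZMod.intCast_surjective y
        have h1 : (p : ℤ) ∣ x ^ 2 - 4 * e := by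
          rw [← hde, ← hcast]
          push_cast
          rw [hy]
          ring
        obtain ⟨u, v, huv⟩ := (hpp.coprime_iff_not_dvd.2 hp2 : IsCoprime (p : ℤ) 2)
        -- `r = v * x`, `2 * r = x` modulo `p`
        have h8 : (p : ℤ) ∣ 2 * (v * x) - x := ⟨-(u * x), by linear_combination x * huv⟩
        have h9 : (p : ℤ) ∣ 4 * ((v * x) ^ 2 - e) := by
          have h10 : (4 : ℤ) * ((v * x) ^ 2 - e) =
              (2 * (v * x) - x) * (2 * (v * x) + x) + (x ^ 2 - 4 * e) := by ring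
          rw [h10]
          exact (h8.mul_right _).add h1
        refine spl0 hK hp hth2 (r := v * x) hirr' (hcop4.dvd_of_dvd_mul_left h9) ?_
        intro h10
        apply h0
        have h11 : (p : ℤ) ∣ x := by
          have := dvd_sub h10 h8
          rwa [sub_sub_cancel] at this
        have h12 : (p : ℤ) ∣ x ^ 2 := by
          rw [pow_two]
          exact h11.mul_right x
        rw [hcast, hde]
        have := dvd_sub h12 h1
        rwa [sub_sub_cancel] at this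
      · rw [legendreSym.eq_neg_one_iff] at h
        refine inert0 hK hp hth2 fun r hr => h ?_
        refine ⟨((2 * r : ℤ) : ZMod p), ?_⟩
        have h1 : (((4 * (r ^ 2 - e) : ℤ)) : ZMod p) = 0 := by
          rw [hcast]
          exact hr.mul_left 4
        have h2 : ((2 * r : ℤ) : ZMod p) * ((2 * r : ℤ) : ZMod p) - ((d : ℤ) : ZMod p) =
            (((4 * (r ^ 2 - e) : ℤ)) : ZMod p) := by
          rw [hde]
          push_cast
          ring
        rw [h1, sub_eq_zero] at h2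
        exact h2.symm

end LO

end Pool.Agent.Lib.MP_7c5fb9_nt
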