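import Pool.Agent.Lib.MP_7c5fb9_nt.LO.Stmts2
import Pool.Agent.Lib.MP_7c08ba_nt.RZ.Count

set_option autoImplicit false

/-!
# Level one (MP_7c5fb9_nt, project LO2): the zeta function of a quadratic field (module ZetaB)
-/

namespace Pool.Agent.Lib.MP_7c5fb9_nt

namespace LO

namespace ZetaBAux

open NumberField
open Pool.Agent.Lib.MP_7c08ba_nt.RZ.CountAux

theorem kr_one (d : ℤ) : kr d 1 = 1 := by
  unfold kr
  by_cases hd : d % 2 = 0
  · rw [if_pos hd, if_neg (by decide)]
    exact jacobiSym.one_right d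
  · rw [if_neg hd]
    simp

theorem kr_mul (d : ℤ) (m n : ℕ) : kr d (m * n) = kr d m * kr d n := by
  unfold kr
  by_cases hd : d % 2 = 0
  · rw [if_pos hd, if_pos hd, if_pos hd]
    by_cases hm : m % 2 = 0
    · rw [if_pos hm, if_pos (by rw [Nat.mul_mod, hm]; simp), zero_mul]
    by_cases hn : n % 2 = 0
    · rw [if_pos hn, if_pos (by rw [Nat.mul_mod, hn]; simp), mul_zero]
    rw [if_neg hm, if_neg hn, if_neg]
    · have : NeZero m := ⟨by rintro rfl; exact hm rfl⟩
      have : NeZero n := ⟨by rintro rfl; exact hn rfl⟩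
      exact jacobiSym.mul_right d m n
    · have h1 : m % 2 = 1 := by omega
      have h2 : n % 2 = 1 := by omega
      rw [Nat.mul_mod, h1, h2]
      decide
  · rw [if_neg hd, if_neg hd, if_neg hd]
    push_cast
    exact jacobiSym.mul_left _ _ _

theorem kr_tri (d : ℤ) (n : ℕ) : kr d n = 0 ∨ kr d n = 1 ∨ kr d n = -1 := by
  unfold kr
  split_ifs
  · exact Or.inl rfl
  · exact jacobiSym.trichotomy _ _
  · exact jacobiSym.trichotomy _ _

theorem kr_pow (d : ℤ) (p i : ℕ) : kr d (p ^ i) = kr d p ^ i := by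
  induction i with
  | zero => rw [pow_zero, pow_zero, kr_one]
  | succ i ih => rw [pow_succ, kr_mul, ih, pow_succ]

/-- The Kronecker symbol as an arithmetic function. -/
def krA (d : ℤ) : ArithmeticFunction ℤ := ⟨fun n => if n = 0 then 0 else kr d n, if_pos rfl⟩

theorem krA_apply (d : ℤ) {n : ℕ} (hn : n ≠ 0) : krA d n = kr d n := by
  change (if n = 0 then 0 else kr d n) = _
  rw [if_neg hn]

theorem krA_mult (d : ℤ) : (krA d).IsMultiplicative := by
  refine ⟨?_, ?_⟩
  · rw [krA_apply d one_ne_zero, kr_one]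
  · intro m n _
    rcases eq_or_ne m 0 with rfl | hm
    · simp
    rcases eq_or_ne n 0 with rfl | hn
    · simp
    rw [krA_apply d hm, krA_apply d hn, krA_apply d (mul_ne_zero hm hn), kr_mul]

theorem sum_kr (d : ℤ) {n : ℕ} : ∑ m ∈ n.divisors, kr d m =
    (krA d * (ArithmeticFunction.zeta : ArithmeticFunction ℤ)) n := by
  rw [ArithmeticFunction.coe_mul_zeta_apply]
  refine Finset.sum_congr rfl fun m hm => ?_
  rw [krA_apply]
  exact (Nat.pos_of_mem_divisors hm).ne'

/-- The number of ideals of given norm. -/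
theorem count (h2 : StSplitB) (K : Type) [Field K] [NumberField K]
    (hK : Module.finrank ℚ K = 2) (n : ℕ) : 1 ≤ n →
    (Nat.card {b : Ideal (𝓞 K) // Ideal.absNorm b = n} : ℤ) =
      ∑ m ∈ n.divisors, kr (NumberField.discr K) m := by
  induction n using Nat.recOnPosPrimePosCoprime with
  | prime_pow p k hp hk =>
    intro _
    obtain ⟨g3, g1, g2⟩ := h2 K hK p hp
    rw [Nat.sum_divisors_prime_pow hp]
    simp only [kr_pow]
    rcases kr_tri (NumberField.discr K) p with h | h | h
    · obtain ⟨P, h3, h5, h4⟩ := g3 h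
      rw [card_power hp h3 h4.symm (f := 1) (by rw [h5, pow_one]) k one_ne_zero, h,
        Finset.sum_range_succ']
      simp
    · obtain ⟨P, P', h3, h4, h5, h7, h8, h6⟩ := g1 h
      rw [card_split hp h3 h4 h5 h6.symm h7 h8, h]
      simp
    · have h3 := g2 h
      have h4 : Ideal.absNorm (Ideal.span {((p : ℕ) : 𝓞 K)}) = p ^ 2 := by
        rw [Ideal.absNorm_span_natCast, RingOfIntegers.rank, hK]
      rw [card_power hp h3 (pow_one _) h4 k two_ne_zero, h]
      rcases Nat.even_or_odd k with hk' | hk'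
      · rw [if_pos hk'.two_dvd, Finset.sum_range_succ, hk'.neg_one_pow]
        rw [Finset.sum_congr rfl fun _ _ => rfl, ← Nat.succ_pred_eq_of_pos hk]
        have := neg_one_geom_sum (R := ℤ) (n := k)
        rw [if_pos hk'] at this
        simp only [Nat.succ_eq_add_one, Nat.pred_eq_sub_one, Nat.sub_add_cancel hk]
        rw [this]
        simp
      · rw [if_neg (by rw [← even_iff_two_dvd]; exact Nat.not_even_iff_odd.mpr hk')]
        have := neg_one_geom_sum (R := ℤ) (n := k + 1)
        rw [if_pos (by rw [Nat.even_add_one]; exact Nat.not_even_iff_odd.mpr hk')] at this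
        rw [this]
        simp
  | zero => intro h; omega
  | one =>
    intro _
    have h3 : Nat.card {b : Ideal (𝓞 K) // Ideal.absNorm b = 1} = 1 := by
      rw [Nat.card_eq_one_iff_unique]
      refine ⟨⟨?_⟩, ⟨⟨⊤, by simp⟩⟩⟩
      rintro ⟨b, hb⟩ ⟨b', hb'⟩
      rw [Ideal.absNorm_eq_one_iff] at hb hb'
      subst hb hb'
      rfl
    rw [h3]
    simp [kr_one]
  | coprime a b ha hb hab iha ihb =>
    intro _
    rw [card_mul (by omega) (by omega) hab]
    push_cast
    rw [iha (by omega), ihb (by omega)]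
    simp only [sum_kr]
    rw [((krA_mult (NumberField.discr K)).mul
      ArithmeticFunction.isMultiplicative_zeta.natCast).map_mul_of_coprime hab]

theorem norm_kr (d : ℤ) (n : ℕ) : ‖(kr d n : ℂ)‖ ≤ 1 := by
  rcases kr_tri d n with h | h | h <;> rw [h] <;> simp

end ZetaBAux

open ZetaBAux in
/-- (ZetaB) -/
theorem stZetaB (_hKr : StKr) (hSplitB : StSplitB) : StZetaB := by
  intro K _ _ hK x hx
  have hx' : 1 < ((x : ℂ)).re := by simpa using hx
  have s1 : LSeriesSummable (1 : ℕ → ℂ) (x : ℂ) := LSeriesSummable_one_iff.2 hx'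
  have s2 : LSeriesSummable (fun n => (kr (NumberField.discr K) n : ℂ)) (x : ℂ) :=
    LSeriesSummable_of_bounded_of_one_lt_re (m := 1) (fun n _ => norm_kr _ n) hx'
  rw [← LSeries_one_eq_riemannZeta hx', ← LSeries_convolution' s1 s2]
  unfold NumberField.dedekindZeta
  refine LSeries_congr (fun {n} hn => ?_) _
  rw [LSeries.convolution_def]
  have h := count hSplitB K hK n (Nat.pos_of_ne_zero hn)
  have h' : ((Nat.card {b : Ideal (NumberField.RingOfIntegers K) // Ideal.absNorm b = n} : ℕ) : ℂ) =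
      ∑ m ∈ n.divisors, (kr (NumberField.discr K) m : ℂ) := by
    have h2 := congrArg (Int.cast : ℤ → ℂ) h
    push_cast at h2
    exact h2
  rw [h']
  beta_reduce
  rw [Nat.sum_divisorsAntidiagonal' (f := fun a b => (1 : ℕ → ℂ) a *
    (kr (NumberField.discr K) b : ℂ))]
  simp

end LO

end Pool.Agent.Lib.MP_7c5fb9_nt
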