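import Pool.Agent.Lib.MP_7c5fb9_nt.LO.All
import Pool.Agent.Lib.MP_7c5fb9_nt.LO.Kr
import Pool.Agent.Lib.MP_7c5fb9_nt.LO.DiscrB
import Pool.Agent.Lib.MP_7c5fb9_nt.LO.SplitB
import Pool.Agent.Lib.MP_7c5fb9_nt.LO.ZetaB
import Pool.Agent.Lib.MP_7c5fb9_nt.LO.LOneB
import Pool.Agent.Lib.MP_7c5fb9_nt.LO.RUnitB
import Pool.Agent.Lib.MP_7c5fb9_nt.LO.RCNB
import Pool.Agent.Lib.MP_7c5fb9_nt.LO.ICNB
import Pool.Agent.Lib.MP_7c5fb9_nt.LO.CongB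
import Pool.Agent.Lib.MP_7c5fb9_nt.LO.KeyB
import Pool.Agent.Lib.MP_7c5fb9_nt.LO.LocP
import Pool.Agent.Lib.MP_7c5fb9_nt.LO.CountB
import Pool.Agent.Lib.MP_7c5fb9_nt.LO.MainB

set_option autoImplicit false

/-!
# Level one (MP_7c5fb9_nt, project LO2): assembly
-/

namespace Pool.Agent.Lib.MP_7c5fb9_nt

namespace LO

theorem bZeta : StZetaB := stZetaB stKr (stSplitB stDiscrB)

theorem bLOne : StLOneB := stLOneB stAbel stKr

theorem bKey : StKeyB :=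
  stKeyB stDiscrB (stRCNB stDiscrB bZeta bLOne (stRUnitB stDiscrB))
    (stICNB stDiscrB bZeta bLOne) (stCongB stKr stLam) stPell

theorem bMain : StMainB := stMainB bKey (stCountB stLocP) aCrit

end LO

end Pool.Agent.Lib.MP_7c5fb9_nt
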