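import Pool.Agent.Lib.MP_7c5fb9_nt.LO.DiscrB

set_option autoImplicit false

/-!
# Level one (MP_7c5fb9_nt, project LO2): existence of the quadratic field with a given discriminant
-/

namespace Pool.Agent.Lib.MP_7c5fb9_nt

namespace LO

open Polynomial

theorem exists_field {D : ℤ} (hD : FD D) :
    ∃ (K : Type) (_ : Field K) (_ : NumberField K), Module.finrank ℚ K = 2 ∧
      NumberField.discr K = D := by
  have hns : ¬ IsSquare D := by
    rintro ⟨a, ha⟩
    rcases hD with ⟨-, hsq, h1⟩ | ⟨h4, hm, hsq⟩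
    · have hu : IsUnit a.natAbs := by
        apply hsq
        rw [ha, Int.natAbs_mul]
      rw [Nat.isUnit_iff] at hu
      apply h1
      rcases Int.natAbs_eq a with h | h <;> rw [hu] at h <;> rw [ha, h] <;> norm_num
    · have h2 : (2 : ℤ) ∣ a := by
        have : (2 : ℤ) ∣ a * a := by
          rw [← ha]
          omega
        rcases Int.prime_two.dvd_or_dvd this with h | h <;> exact h
      obtain ⟨b, rfl⟩ := h2
      have hb : D / 4 = b * b := by
        rw [ha]
        have : 2 * b * (2 * b) = 4 * (b * b) := by ring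
        rw [this]
        exact Int.mul_ediv_cancel_left _ (by norm_num)
      have hu : IsUnit b.natAbs := by
        apply hsq
        rw [hb, Int.natAbs_mul]
      rw [Nat.isUnit_iff] at hu
      rw [hb] at hm
      rcases Int.natAbs_eq b with h | h <;> rw [hu] at h <;> rw [h] at hm <;> norm_num at hm
  have hirr : Irreducible (X ^ 2 - C (D : ℚ) : ℚ[X]) := by
    refine X_pow_sub_C_irreducible_of_prime Nat.prime_two fun b hb => hns ?_
    rw [← Rat.isSquare_intCast_iff, ← hb]
    exact ⟨b, sq b⟩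
  haveI := Fact.mk hirr
  have hdeg : (X ^ 2 - C (D : ℚ) : ℚ[X]).natDegree = 2 := natDegree_X_pow_sub_C
  have hmon : (X ^ 2 - C (D : ℚ) : ℚ[X]).Monic := monic_X_pow_sub_C _ (by norm_num)
  haveI hfin : Module.Finite ℚ (AdjoinRoot (X ^ 2 - C (D : ℚ) : ℚ[X])) :=
    hmon.finite_adjoinRoot
  haveI hnf : NumberField (AdjoinRoot (X ^ 2 - C (D : ℚ) : ℚ[X])) :=
    { to_charZero := charZero_of_injective_algebraMap
        (algebraMap ℚ (AdjoinRoot (X ^ 2 - C (D : ℚ) : ℚ[X]))).injective
      to_finiteDimensional := hfin }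
  have hrank : Module.finrank ℚ (AdjoinRoot (X ^ 2 - C (D : ℚ) : ℚ[X])) = 2 := by
    rw [(AdjoinRoot.powerBasis hirr.ne_zero).finrank, AdjoinRoot.powerBasis_dim, hdeg]
  refine ⟨AdjoinRoot (X ^ 2 - C (D : ℚ) : ℚ[X]), inferInstance, hnf, hrank, ?_⟩
  refine stDiscrB.2 _ (AdjoinRoot.root _) D hrank hD ?_
  have h := AdjoinRoot.eval₂_root (X ^ 2 - C (D : ℚ) : ℚ[X])
  rw [eval₂_sub, eval₂_pow, eval₂_X, eval₂_C, sub_eq_zero] at h
  rw [h]
  simp

end LO

end Pool.Agent.Lib.MP_7c5fb9_nt
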