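import Pool.Agent.Lib.MP_7c5fb9_nt.LO.Basic

set_option autoImplicit false

/-!
# Level one (MP_7c5fb9_nt, project LO): the condition on the fundamental unit
-/

namespace Pool.Agent.Lib.MP_7c5fb9_nt

namespace LO

theorem lam_ne_zero {D t u : ℤ} (hD : D % 3 = 2) (h : ¬ (9 : ℤ) ∣ t * u * (t ^ 2 + D * u ^ 2)) :
    lam D t u ≠ 0 := by
  have key : (3 : ℤ) ∣ t * u * (t ^ 2 + D * u ^ 2) := by
    obtain ⟨e, he⟩ : ∃ e, D = 3 * e + 2 := ⟨D / 3, by omega⟩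
    rcases (show t % 3 = 0 ∨ t % 3 = 1 ∨ t % 3 = 2 by omega) with ht | ht | ht
    · exact (Dvd.dvd.mul_right (Int.dvd_of_emod_eq_zero ht) _).mul_right _
    all_goals
      rcases (show u % 3 = 0 ∨ u % 3 = 1 ∨ u % 3 = 2 by omega) with hu | hu | hu
      · exact (Dvd.dvd.mul_left (Int.dvd_of_emod_eq_zero hu) _).mul_right _
      all_goals
        apply Dvd.dvd.mul_left
        obtain ⟨a, ha⟩ : ∃ a, t = 3 * a + t % 3 := ⟨t / 3, by omega⟩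
        obtain ⟨b, hb⟩ : ∃ b, u = 3 * b + u % 3 := ⟨u / 3, by omega⟩
        rw [ht] at ha
        rw [hu] at hb
        rw [ha, hb, he]
        ring_nf
        omega
  obtain ⟨x, hx⟩ := key
  have h1 : 4 * t * u * (t ^ 2 + D * u ^ 2) / 3 = 4 * x := by
    have : 4 * t * u * (t ^ 2 + D * u ^ 2) = 3 * (4 * x) := by linear_combination 4 * hx
    rw [this]
    exact Int.mul_ediv_cancel_left _ (by norm_num)
  have h2 : ¬ (3 : ℤ) ∣ 4 * x := by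
    intro h3
    apply h
    rw [hx]
    have : (3 : ℤ) ∣ x := by omega
    obtain ⟨y, rfl⟩ := this
    exact ⟨y, by ring⟩
  have h3 : ¬ (3 : ℤ) ∣ t ^ 4 + 6 * t ^ 2 * u ^ 2 * D + u ^ 4 * D ^ 2 := by
    intro h4
    have h5 : (3 : ℤ) ∣ t ^ 4 + u ^ 4 * D ^ 2 := by
      have : t ^ 4 + u ^ 4 * D ^ 2 = (t ^ 4 + 6 * t ^ 2 * u ^ 2 * D + u ^ 4 * D ^ 2) -
          3 * (2 * t ^ 2 * u ^ 2 * D) := by ring
      rw [this]
      exact dvd_sub h4 (dvd_mul_right _ _)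
    have h6 : (t : ZMod 3) ^ 4 + (u : ZMod 3) ^ 4 * (D : ZMod 3) ^ 2 = 0 := by
      have := (ZMod.intCast_zmod_eq_zero_iff_dvd _ 3).2 h5
      push_cast at this
      exact this
    have h7 : (D : ZMod 3) = 2 := by
      have : ((D % 3 : ℤ) : ZMod 3) = 2 := by rw [hD]; rfl
      rw [← this]
      exact (ZMod.intCast_mod D 3).symm
    rw [h7] at h6
    have h8 : ∀ a b : ZMod 3, a ^ 4 + b ^ 4 * 2 ^ 2 = 0 → a = 0 ∧ b = 0 := by decide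
    obtain ⟨h9, h10⟩ := h8 _ _ h6
    apply h
    obtain ⟨a, rfl⟩ := (ZMod.intCast_zmod_eq_zero_iff_dvd _ 3).1 h9
    obtain ⟨b, rfl⟩ := (ZMod.intCast_zmod_eq_zero_iff_dvd _ 3).1 h10
    push_cast
    exact ⟨a * b * ((3 * a) ^ 2 + D * (3 * b) ^ 2), by ring⟩
  have h4 : ((4 * x : ℤ) : ZMod 3) ≠ 0 := fun h5 =>
    h2 ((ZMod.intCast_zmod_eq_zero_iff_dvd _ 3).1 h5)
  have h5 : ((t ^ 4 + 6 * t ^ 2 * u ^ 2 * D + u ^ 4 * D ^ 2 : ℤ) : ZMod 3) ≠ 0 := fun h6 =>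
    h3 ((ZMod.intCast_zmod_eq_zero_iff_dvd _ 3).1 h6)
  unfold lam
  rw [h1]
  exact mul_ne_zero h4 h5

end LO

end Pool.Agent.Lib.MP_7c5fb9_nt
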