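import Pool.Agent.Lib.MP_7c5fb9_nt.LO.Stmts

set_option autoImplicit false

/-! (Abel) values at `1` of Dirichlet series with periodic coefficients. -/

namespace Pool.Agent.Lib.MP_7c5fb9_nt

namespace LO

open Pool.Agent.Lib.MP_7c08ba_nt.RZ UpperHalfPlane Filter Topology
open scoped MatrixGroups Polynomial nonZeroDivisors

namespace AbelAux

open MeasureTheory Set

/-- The generating function. -/
private noncomputable def FF (ζ : ℂ) (t : ℝ) : ℂ :=
  ζ * Real.exp (-t) / (1 - ζ * Real.exp (-t))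

private theorem re_pos {ζ : ℂ} {t : ℝ} (ht : 0 ≤ t) :
    1 - max ζ.re 0 ≤ (1 - ζ * (Real.exp (-t) : ℂ)).re := by
  have h1 : (1 - ζ * (Real.exp (-t) : ℂ)).re = 1 - ζ.re * Real.exp (-t) := by
    rw [Complex.sub_re, Complex.one_re, Complex.re_mul_ofReal]
  rw [h1]
  have h2 : Real.exp (-t) ≤ 1 := Real.exp_le_one_iff.2 (by linarith)
  have h3 : 0 < Real.exp (-t) := Real.exp_pos _
  have h4 : ζ.re * Real.exp (-t) ≤ max ζ.re 0 := by
    calc ζ.re * Real.exp (-t) ≤ max ζ.re 0 * Real.exp (-t) :=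
          mul_le_mul_of_nonneg_right (le_max_left _ _) h3.le
      _ ≤ max ζ.re 0 * 1 := mul_le_mul_of_nonneg_left h2 (le_max_right _ _)
      _ = max ζ.re 0 := mul_one _
  linarith

private theorem c_pos {ζ : ℂ} (h : ζ.re < 1) : 0 < 1 - max ζ.re 0 := by
  have : max ζ.re 0 < 1 := max_lt h one_pos
  linarith

private theorem den_ne {ζ : ℂ} (h : ζ.re < 1) {t : ℝ} (ht : 0 ≤ t) :
    1 - ζ * (Real.exp (-t) : ℂ) ≠ 0 := by
  intro h0
  have h1 := re_pos (ζ := ζ) ht
  rw [h0, Complex.zero_re] at h1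
  have := c_pos h
  linarith

private theorem FF_bound {ζ : ℂ} (h1 : ‖ζ‖ = 1) (h : ζ.re < 1) {t : ℝ} (ht : 0 ≤ t) :
    ‖FF ζ t‖ ≤ (1 - max ζ.re 0)⁻¹ * Real.exp (-t) := by
  have hc := c_pos h
  have h2 : 1 - max ζ.re 0 ≤ ‖1 - ζ * (Real.exp (-t) : ℂ)‖ :=
    (re_pos ht).trans (Complex.re_le_norm _)
  unfold FF
  rw [norm_div, norm_mul, h1, one_mul, Complex.norm_real, Real.norm_of_nonneg (Real.exp_pos _).le,
    div_eq_inv_mul]
  exact mul_le_mul_of_nonneg_right (inv_anti₀ hc h2) (Real.exp_pos _).le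

private theorem FF_cont {ζ : ℂ} (h : ζ.re < 1) : ContinuousOn (FF ζ) (Ici 0) := by
  unfold FF
  apply ContinuousOn.div
  · fun_prop
  · fun_prop
  · intro t ht
    exact den_ne h ht

private theorem FF_int {ζ : ℂ} (h1 : ‖ζ‖ = 1) (h : ζ.re < 1) : IntegrableOn (FF ζ) (Ioi 0) := by
  have h2 : IntegrableOn (fun t : ℝ => (1 - max ζ.re 0)⁻¹ * Real.exp (-t)) (Ioi 0) := by
    have := exp_neg_integrableOn_Ioi 0 (b := 1) one_pos
    simp only [neg_mul, one_mul] at this
    exact this.const_mul _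
  refine Integrable.mono' h2 ?_ ?_
  · exact ((FF_cont h).mono Ioi_subset_Ici_self).aestronglyMeasurable measurableSet_Ioi
  · refine (ae_restrict_iff' measurableSet_Ioi).2 (Eventually.of_forall fun t ht => ?_)
    exact FF_bound h1 h (le_of_lt ht)

private theorem FF_val {ζ : ℂ} (h1 : ‖ζ‖ = 1) (h : ζ.re < 1) :
    ∫ t in Ioi (0 : ℝ), FF ζ t = -Complex.log (1 - ζ) := by
  have key := integral_Ioi_of_hasDerivAt_of_tendsto' (a := (0 : ℝ)) (m := (0 : ℂ))
    (f := fun t : ℝ => Complex.log (1 - ζ * (Real.exp (-t) : ℂ))) (f' := FF ζ) ?_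
    (FF_int h1 h) ?_
  · rw [key]
    simp
  · intro t ht
    have h2 : HasDerivAt (fun t : ℝ => 1 - ζ * (Real.exp (-t) : ℂ)) (ζ * (Real.exp (-t) : ℂ)) t := by
      have h3 : HasDerivAt (fun t : ℝ => Real.exp (-t)) (-Real.exp (-t)) t := by
        have := (hasDerivAt_neg t).exp
        simpa using this
      have h4 := (h3.ofReal_comp.const_mul ζ).const_sub 1
      have h7 : -(ζ * ((-Real.exp (-t) : ℝ) : ℂ)) = ζ * (Real.exp (-t) : ℂ) := by
        rw [Complex.ofReal_neg]
        ring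
      rw [h7] at h4
      exact h4
    have h5 : (1 - ζ * (Real.exp (-t) : ℂ)) ∈ Complex.slitPlane := by
      left
      have := re_pos (ζ := ζ) (ht : (0:ℝ) ≤ t)
      have := c_pos h
      linarith
    have h6 := h2.clog_real h5
    exact h6
  · have h2 : Tendsto (fun t : ℝ => 1 - ζ * (Real.exp (-t) : ℂ)) atTop (𝓝 (1 - ζ * ((0 : ℝ) : ℂ))) := by
      refine Tendsto.const_sub _ (Tendsto.const_mul _ ?_)
      exact (Complex.continuous_ofReal.tendsto 0).comp Real.tendsto_exp_neg_atTop_nhds_zero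
    have h3 : (1 - ζ * ((0 : ℝ) : ℂ)) ∈ Complex.slitPlane := by simp
    have h4 := (continuousAt_clog h3).tendsto.comp h2
    simpa [Function.comp_def] using h4

private theorem FF_lim {ζ : ℂ} (h1 : ‖ζ‖ = 1) (h : ζ.re < 1) :
    ContinuousAt (mellin (FF ζ)) 1 := by
  refine (mellin_differentiableAt_of_isBigO_rpow_exp (a := 1) (b := 0) one_pos ?_ ?_ ?_
    ?_).continuousAt
  · exact (FF_int h1 h).locallyIntegrableOn
  · refine Asymptotics.IsBigO.of_bound (1 - max ζ.re 0)⁻¹ ?_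
    filter_upwards [eventually_ge_atTop 0] with t ht
    rw [Real.norm_of_nonneg (Real.exp_pos _).le, neg_one_mul]
    exact FF_bound h1 h ht
  · refine Asymptotics.IsBigO.of_bound (1 - max ζ.re 0)⁻¹ ?_
    filter_upwards [self_mem_nhdsWithin] with t ht
    rw [neg_zero, Real.rpow_zero, norm_one, mul_one]
    refine (FF_bound h1 h (le_of_lt ht)).trans ?_
    have h2 : Real.exp (-t) ≤ 1 := Real.exp_le_one_iff.2 (by linarith [mem_Ioi.1 ht])
    exact mul_le_of_le_one_right (inv_nonneg.2 (c_pos h).le) h2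
  · simp

private theorem FF_mellin {ζ : ℂ} (h1 : ‖ζ‖ = 1) (h : ζ.re < 1) :
    mellin (FF ζ) 1 = -Complex.log (1 - ζ) := by
  rw [← FF_val h1 h]
  unfold mellin
  refine setIntegral_congr_fun measurableSet_Ioi fun t ht => ?_
  simp

private theorem FF_sum {ζ : ℂ} (h1 : ‖ζ‖ = 1) {t : ℝ} (ht : 0 < t) :
    HasSum (fun n : ℕ => (if n = 0 then (0 : ℂ) else ζ ^ n) * (Real.exp (-(n : ℝ) * t) : ℂ))
      (FF ζ t) := by
  have h2 : ‖ζ * (Real.exp (-t) : ℂ)‖ < 1 := by
    rw [norm_mul, h1, one_mul, Complex.norm_real, Real.norm_of_nonneg (Real.exp_pos _).le]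
    exact Real.exp_lt_one_iff.2 (by linarith)
  have h3 := (hasSum_geometric_of_norm_lt_one h2).mul_left (ζ * (Real.exp (-t) : ℂ))
  rw [← hasSum_nat_add_iff' 1]
  simp only [Finset.range_one, Finset.sum_singleton, if_true, zero_mul, sub_zero,
    Nat.add_eq_zero_iff, one_ne_zero, and_false, if_false]
  unfold FF
  rw [div_eq_mul_inv]
  refine h3.congr_fun fun n => ?_
  rw [← pow_succ', mul_pow]
  congr 1
  rw [← Complex.ofReal_pow, ← Real.exp_nat_mul]
  congr 2
  push_cast
  ring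

private theorem FF_L {ζ : ℂ} (h1 : ‖ζ‖ = 1) {s : ℝ} (hs : 1 < s) :
    LSeriesHasSum (fun n => ζ ^ n) s (mellin (FF ζ) s / Complex.Gamma s) := by
  have hG : Complex.Gamma s ≠ 0 := Complex.Gamma_ne_zero_of_re_pos (by simp; linarith)
  have h2 : Summable fun n : ℕ => ‖(if n = 0 then (0 : ℂ) else ζ ^ n)‖ / (n : ℝ) ^ (s : ℂ).re := by
    refine Summable.of_nonneg_of_le (fun n => by positivity) (fun n => ?_)
      (Real.summable_one_div_nat_rpow.2 hs)
    rw [Complex.ofReal_re]
    gcongr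
    split_ifs
    · simp
    · rw [norm_pow, h1, one_pow]
  have h3 := hasSum_mellin (a := fun n : ℕ => if n = 0 then (0 : ℂ) else ζ ^ n)
    (p := fun n : ℕ => (n : ℝ)) (F := FF ζ) (s := (s : ℂ)) (fun n => ?_) (by simp; linarith)
    (fun t ht => FF_sum h1 ht) h2
  · have h4 := h3.div_const (Complex.Gamma s)
    unfold LSeriesHasSum
    refine h4.congr_fun fun n => ?_
    rcases eq_or_ne n 0 with rfl | hn
    · simp
    · rw [LSeries.term_of_ne_zero hn, if_neg hn]
      field_simp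
      push_cast
      ring
  · rcases eq_or_ne n 0 with rfl | hn
    · left; simp
    · right
      exact_mod_cast Nat.pos_of_ne_zero hn

private theorem ee_pow (z : ℂ) (n : ℕ) : ee z ^ n = ee (n * z) := by
  unfold ee
  rw [← Complex.exp_nat_mul]
  congr 1
  ring

private theorem ee_norm (x : ℝ) : ‖ee (x : ℂ)‖ = 1 := by
  unfold ee
  rw [show 2 * (Real.pi : ℂ) * Complex.I * (x : ℂ) = ((2 * Real.pi * x : ℝ) : ℂ) * Complex.I by
    push_cast; ring]
  exact Complex.norm_exp_ofReal_mul_I _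

private theorem ee_re {N r : ℕ} (hr : 1 ≤ r) (hN : r < N) : (ee ((r : ℂ) / N)).re < 1 := by
  have h1 : ee ((r : ℂ) / N) = Complex.exp ((2 * Real.pi * (r / N) : ℝ) * Complex.I) := by
    unfold ee
    congr 1
    push_cast
    ring
  rw [h1, Complex.exp_ofReal_mul_I_re]
  refine lt_of_le_of_ne (Real.cos_le_one _) fun h => ?_
  rw [Real.cos_eq_one_iff] at h
  obtain ⟨m, hm⟩ := h
  have hN0 : (0 : ℝ) < N := by exact_mod_cast (by omega : 0 < N)
  have h2 : (m : ℝ) = r / N := by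
    have hp := Real.pi_pos
    have h3 : (2 * Real.pi) * (m : ℝ) = (2 * Real.pi) * (r / N) := by linarith
    exact mul_left_cancel₀ (by positivity) h3
  have h3 : (0 : ℝ) < m := by
    rw [h2]
    have : (0 : ℝ) < r := by exact_mod_cast hr
    positivity
  have h4 : (m : ℝ) < 1 := by
    rw [h2, div_lt_one hN0]
    exact_mod_cast hN
  have h5 : (0 : ℤ) < m := by exact_mod_cast h3
  have h6 : m < 1 := by exact_mod_cast h4
  omega

end AbelAux

open AbelAux in
theorem stAbel : StAbel := by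
  intro N a c hN ha
  set ζ : ℕ → ℂ := fun r => ee ((r : ℂ) / N) with hζ
  have hn : ∀ r, ‖ζ r‖ = 1 := fun r => by
    have := ee_norm ((r : ℝ) / N)
    rw [hζ]
    push_cast at this
    exact this
  have hr : ∀ r ∈ Finset.Ico 1 N, (ζ r).re < 1 := fun r hr => by
    rw [Finset.mem_Ico] at hr
    exact ee_re hr.1 hr.2
  have hs : ∀ s : ℝ, 1 < s → LSeries a s =
      ∑ r ∈ Finset.Ico 1 N, c r * (mellin (FF (ζ r)) s / Complex.Gamma s) := by
    intro s hs
    have h1 : HasSum (fun n => ∑ r ∈ Finset.Ico 1 N, c r * LSeries.term (fun n => ζ r ^ n) s n)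
        (∑ r ∈ Finset.Ico 1 N, c r * (mellin (FF (ζ r)) s / Complex.Gamma s)) :=
      hasSum_sum fun r _ => (FF_L (hn r) hs).mul_left (c r)
    have h2 : LSeriesHasSum a s
        (∑ r ∈ Finset.Ico 1 N, c r * (mellin (FF (ζ r)) s / Complex.Gamma s)) := by
      unfold LSeriesHasSum
      refine h1.congr_fun fun n => ?_
      rcases eq_or_ne n 0 with rfl | hn0
      · simp
      · rw [LSeries.term_of_ne_zero hn0, ha n, Finset.sum_div]
        refine Finset.sum_congr rfl fun r _ => ?_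
        rw [LSeries.term_of_ne_zero hn0, hζ]
        simp only
        rw [ee_pow, show ((n : ℂ) * ((r : ℂ) / N)) = (r : ℂ) * n / N by ring]
        ring
    exact h2.LSeries_eq
  have h3 : Tendsto (fun s : ℝ => ∑ r ∈ Finset.Ico 1 N,
      c r * (mellin (FF (ζ r)) s / Complex.Gamma s)) (𝓝[>] 1)
      (𝓝 (∑ r ∈ Finset.Ico 1 N, c r * (-Complex.log (1 - ζ r) / 1))) := by
    refine tendsto_finsetSum _ fun r hr' => Tendsto.const_mul _ (Tendsto.div ?_ ?_ one_ne_zero)
    · have h4 := (FF_lim (hn r) (hr r hr')).tendsto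
      rw [FF_mellin (hn r) (hr r hr')] at h4
      have h5 : Tendsto (fun s : ℝ => (s : ℂ)) (𝓝[>] 1) (𝓝 1) := by
        have := (Complex.continuous_ofReal.tendsto (1 : ℝ)).mono_left
          (nhdsWithin_le_nhds (s := Set.Ioi (1 : ℝ)))
        simpa using this
      exact h4.comp h5
    · have h4 : ContinuousAt Complex.Gamma 1 :=
        (Complex.differentiableAt_Gamma 1 fun m h => by
          have := congrArg Complex.re h
          simp at this
          have h0 : (0 : ℝ) ≤ m := Nat.cast_nonneg m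
          linarith).continuousAt
      have h6 := h4.tendsto
      rw [Complex.Gamma_one] at h6
      have h5 : Tendsto (fun s : ℝ => (s : ℂ)) (𝓝[>] 1) (𝓝 1) := by
        have := (Complex.continuous_ofReal.tendsto (1 : ℝ)).mono_left
          (nhdsWithin_le_nhds (s := Set.Ioi (1 : ℝ)))
        simpa using this
      exact h6.comp h5
  have h4 : -∑ r ∈ Finset.Ico 1 N, c r * Complex.log (1 - ee ((r : ℂ) / N)) =
      ∑ r ∈ Finset.Ico 1 N, c r * (-Complex.log (1 - ζ r) / 1) := by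
    rw [← Finset.sum_neg_distrib]
    refine Finset.sum_congr rfl fun r _ => ?_
    rw [hζ]
    ring
  rw [h4]
  refine h3.congr' ?_
  filter_upwards [self_mem_nhdsWithin] with s hs'
  exact (hs s hs').symm

end LO

end Pool.Agent.Lib.MP_7c5fb9_nt
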