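import Pool.Agent.Lib.MP_7c5fb9_nt.LO.StAlg

set_option autoImplicit false

/-!
# (Alg) from residue classes to local algebras
-/

namespace Pool.Agent.Lib.MP_7c5fb9_nt

namespace LO

namespace AlgAux

open Finset

/-- fundamental discriminants are not divisible by squares of odd primes -/
theorem fd_sq {D p : ℕ} (h : FD D) (hp : p.Prime) (h2 : p ≠ 2) : ¬ p ^ 2 ∣ D := by
  intro hd
  have hsq : ∀ m : ℕ, Squarefree m → ¬ p ^ 2 ∣ m := by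
    intro m hm hm'
    rw [sq] at hm'
    exact hp.one_lt.ne' (Nat.isUnit_iff.1 (hm p hm'))
  rcases h with ⟨-, h, -⟩ | ⟨h1, -, h⟩
  · exact hsq _ h (by simpa using hd)
  · have h4 : 4 ∣ D := by omega
    obtain ⟨m, rfl⟩ := h4
    have hm : (((4 * m : ℕ) : ℤ) / 4).natAbs = m := by
      have : ((4 * m : ℕ) : ℤ) / 4 = m := by
        push_cast
        exact Int.mul_ediv_cancel_left _ (by norm_num)
      rw [this, Int.natAbs_natCast]
    rw [hm] at h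
    have hc : Nat.Coprime (p ^ 2) 4 := by
      have : Nat.Coprime p 2 := (Nat.coprime_primes hp Nat.prime_two).2 h2
      exact (Nat.Coprime.pow 2 2 this : Nat.Coprime (p ^ 2) (2 ^ 2))
    exact hsq m h (hc.dvd_of_dvd_mul_left hd)

/-- the eight classes -/
def T8 : Finset (ℕ × ℕ) :=
  {(8, 1), (8, 5), (32, 12), (32, 28), (64, 8), (64, 24), (64, 40), (64, 56)}

theorem mem_T8 {M ρ : ℕ} (h : RealTwo M ρ) : (M, ρ) ∈ T8 := by
  unfold T8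
  rcases h with ⟨rfl, rfl | rfl⟩ | ⟨rfl, rfl | rfl⟩ | ⟨rfl, rfl | rfl | rfl | rfl⟩ <;> simp

open Classical in
theorem ncard_eq (X : ℕ) (Q : ℕ → Prop) :
    {D : ℕ | D ≤ X ∧ Q D}.ncard = ((range (X + 1)).filter Q).card := by
  rw [← Set.ncard_coe_finset]
  congr 1
  ext D
  simp

section

variable (P1 : Finset ℕ)

/-- the product of the squares -/
def qq : ℕ := ∏ p ∈ P1, p ^ 2

end

/-- the compatible classes -/
def Cmp (P : Finset ℕ) (d : ℕ → ℤ) (q : ℕ) (t : (ℕ × ℕ) × ℕ) : Prop :=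
  ∃ D : ℕ, FD D ∧ RealTwo t.1.1 t.1.2 ∧ D % t.1.1 = t.1.2 ∧ D % q = t.2 ∧ LocAt P d D

open Classical in
theorem tot (hx : ∀ D : ℕ, FD D → ∃! x : ℕ × ℕ, RealTwo x.1 x.2 ∧ D % x.1 = x.2)
    (P : Finset ℕ) (d : ℕ → ℤ) (q : ℕ) (hq : 0 < q)
    (key : ∀ D D' : ℕ, FD D → FD D' → ∀ M ρ : ℕ, RealTwo M ρ → D % M = ρ → D' % M = ρ →
      D % q = D' % q → LocAt P d D → LocAt P d D') (X : ℕ) (Q : ℕ → Prop) :
    {D : ℕ | D ≤ X ∧ FD D ∧ D % 3 = 2 ∧ LocAt P d D ∧ Q D}.ncard =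
      ∑ t ∈ (T8 ×ˢ range q).filter (Cmp P d q),
        {D : ℕ | D ≤ X ∧ FD D ∧ D % 3 = 2 ∧ D % t.1.1 = t.1.2 ∧ D % q = t.2 % q ∧ Q D}.ncard := by
  let cls : ℕ → (ℕ × ℕ) × ℕ := fun D =>
    if h : FD D then (Classical.choose (hx D h).exists, D % q) else ((0, 0), 0)
  have hcls : ∀ D : ℕ, FD D → RealTwo (cls D).1.1 (cls D).1.2 ∧ D % (cls D).1.1 = (cls D).1.2 ∧
      (cls D).2 = D % q := by
    intro D h
    have e : cls D = (Classical.choose (hx D h).exists, D % q) := dif_pos h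
    have h1 := Classical.choose_spec (hx D h).exists
    rw [e]
    exact ⟨h1.1, h1.2, rfl⟩
  rw [ncard_eq X fun D => FD D ∧ D % 3 = 2 ∧ LocAt P d D ∧ Q D]
  rw [card_eq_sum_card_fiberwise (f := cls) (t := (T8 ×ˢ range q).filter (Cmp P d q))]
  · refine sum_congr rfl fun t ht => ?_
    rw [ncard_eq X fun D => FD D ∧ D % 3 = 2 ∧ D % t.1.1 = t.1.2 ∧ D % q = t.2 % q ∧ Q D]
    congr 1
    ext D
    rw [mem_filter, mem_product, mem_range] at ht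
    obtain ⟨⟨-, htq⟩, D₀, hD₀, hr, hM, hD₀q, hloc⟩ := ht
    simp only [mem_filter, mem_range]
    constructor
    · rintro ⟨⟨hX, h1, h2, -, h4⟩, h5⟩
      obtain ⟨e1, e2, e3⟩ := hcls D h1
      rw [h5] at e2 e3
      exact ⟨hX, h1, h2, e2, by rw [← e3, Nat.mod_eq_of_lt htq], h4⟩
    · rintro ⟨hX, h1, h2, h3, h4, h5⟩
      rw [Nat.mod_eq_of_lt htq] at h4
      obtain ⟨e1, e2, e3⟩ := hcls D h1
      refine ⟨⟨hX, h1, h2, key D₀ D hD₀ h1 _ _ hr hM h3 (hD₀q.trans h4.symm) hloc, h5⟩, ?_⟩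
      have e4 : (cls D).1 = t.1 := (hx D h1).unique ⟨e1, e2⟩ ⟨hr, h3⟩
      exact Prod.ext e4 (e3.trans h4)
  · intro D hD
    simp only [coe_filter, Set.mem_ofPred_eq] at hD
    obtain ⟨-, h1, -, h3, -⟩ := hD
    obtain ⟨e1, e2, e3⟩ := hcls D h1
    rw [mem_coe, mem_filter, mem_product, mem_range]
    refine ⟨⟨mem_T8 e1, ?_⟩, D, h1, e1, e2, e3.symm, h3⟩
    rw [e3]
    exact Nat.mod_lt _ hq

end AlgAux

open Finset AlgAux in
theorem stAlg (hOdd : StSqOdd) (hTwo : StSqTwo) : StAlg := by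
  intro B H P d hP
  classical
  have : Fact (Nat.Prime 2) := ⟨Nat.prime_two⟩
  set P1 : Finset ℕ := P.filter fun p => p ≠ 2 with hP1d
  have hP1 : ∀ p ∈ P1, p.Prime ∧ 5 ≤ p := by
    intro p hp
    rw [hP1d, mem_filter] at hp
    obtain ⟨h1, h2, -⟩ := hP p hp.1
    have h3 := hp.2
    refine ⟨h1, ?_⟩
    have h4 := h1.two_le
    by_contra h5
    have h6 : p = 4 := by omega
    rw [h6] at h1
    exact absurd h1 (by norm_num)
  set q : ℕ := ∏ p ∈ P1, p ^ 2 with hqd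
  have hq : 0 < q := prod_pos fun p hp => pow_pos (hP1 p hp).1.pos 2
  have hdvd : ∀ p ∈ P1, p ^ 2 ∣ q := fun p hp => dvd_prod_of_mem (fun p => p ^ 2) hp
  have hx : ∀ D : ℕ, FD D → ∃! x : ℕ × ℕ, RealTwo x.1 x.2 ∧ D % x.1 = x.2 :=
    (hTwo 1 one_ne_zero).2.1
  have hmem : ∀ p ∈ P, p ≠ 2 → p ∈ P1 := fun p hp h2 => by
    rw [hP1d, mem_filter]
    exact ⟨hp, h2⟩
  have key : ∀ D D' : ℕ, FD D → FD D' → ∀ M ρ : ℕ, RealTwo M ρ → D % M = ρ → D' % M = ρ →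
      D % q = D' % q → LocAt P d D → LocAt P d D' := by
    intro D D' hD hD' M ρ hr h1 h2 hqq hloc p hp inst
    obtain ⟨hpp, -, hdp⟩ := hP p hp
    by_cases h : p = 2
    · subst h
      exact (hTwo (d 2) hdp).1 M ρ D D' hr h1 h2 (hloc 2 hp)
    · have hm : D ≡ D' [MOD p ^ 2] := Nat.ModEq.of_dvd (hdvd p (hmem p hp h)) hqq
      exact (hOdd p h (d p) hdp).1 D D' (fd_sq hD hpp h) hm (hloc p hp)
  have hH : ∀ t ∈ (T8 ×ˢ range q).filter (Cmp P d q), RealTwo t.1.1 t.1.2 ∧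
      ∀ p ∈ P1, ¬ p ^ 2 ∣ t.2 := by
    intro t ht
    rw [mem_filter] at ht
    obtain ⟨-, D, hD, hr, -, hDq, -⟩ := ht
    refine ⟨hr, fun p hp hd => ?_⟩
    rw [← hDq] at hd
    have h1 : p ^ 2 ∣ D := (Nat.dvd_mod_iff (hdvd p hp)).1 hd
    exact fd_sq hD (hP1 p hp).1 (fun h => by have := (hP1 p hp).2; omega) h1
  constructor
  · -- one compatible class
    have hr0 : ∀ p : ℕ, ∃ r : ℕ, p ∈ P1 → ¬ p ^ 2 ∣ r ∧ ∀ D : ℕ, D % p ^ 2 = r % p ^ 2 →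
        ∀ [Fact p.Prime], IsSquare (((D : ℤ) * d p : ℤ) : ℚ_[p]) := by
      intro p
      by_cases hp : p ∈ P1
      · have hp' : p ∈ P := (mem_filter.1 hp).1
        have h2 : p ≠ 2 := (mem_filter.1 hp).2
        have : Fact p.Prime := ⟨(hP1 p hp).1⟩
        obtain ⟨h1, r, h3, h4⟩ := hOdd p h2 (d p) (hP p hp').2.2
        exact ⟨r, fun _ => ⟨h3, fun D hD inst => h1 r D h3 hD.symm h4⟩⟩
      · exact ⟨0, fun h => absurd h hp⟩
    choose r0 hr0 using hr0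
    have hcop : Set.Pairwise (P1 : Set ℕ) (Function.onFun Nat.Coprime fun p => p ^ 2) := by
      intro a ha b hb hab
      exact Nat.Coprime.pow 2 2 ((Nat.coprime_primes (hP1 a ha).1 (hP1 b hb).1).2 hab)
    obtain ⟨r, hr⟩ := Nat.chineseRemainderOfFinset r0 (fun p => p ^ 2) P1
      (fun p hp => pow_ne_zero 2 (hP1 p hp).1.ne_zero) hcop
    obtain ⟨M, ρ, hR, hS⟩ : ∃ M ρ : ℕ, RealTwo M ρ ∧ (2 ∈ P → ∀ D : ℕ, D % M = ρ →
        IsSquare (((D : ℤ) * d 2 : ℤ) : ℚ_[2])) := by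
      by_cases h : 2 ∈ P
      · obtain ⟨M, ρ, h1, h2⟩ := (hTwo (d 2) (hP 2 h).2.2).2.2
        exact ⟨M, ρ, h1, fun _ => h2⟩
      · exact ⟨8, 1, Or.inl ⟨rfl, Or.inl rfl⟩, fun h' => absurd h' h⟩
    have hnr : ∀ p ∈ P1, ¬ p ^ 2 ∣ r := by
      intro p hp hd
      have h1 := hr p hp
      exact (hr0 p hp).1 ((Nat.ModEq.dvd_iff h1 dvd_rfl).1 hd)
    obtain ⟨c, hc, X₀, hX₀⟩ := (H M ρ hR P1 hP1 r hnr).1
    refine ⟨c, hc, X₀, fun X hX => (hX₀ X hX).trans ?_⟩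
    have hfin : {D : ℕ | D ≤ X ∧ FD D ∧ D % 3 = 2 ∧ LocAt P d D ∧ B D}.Finite :=
      (Set.finite_Iic X).subset fun D hD => hD.1
    refine Nat.cast_le.2 (Set.ncard_le_ncard ?_ hfin)
    rintro D ⟨h1, h2, h3, h4, h5, h6⟩
    refine ⟨h1, h2, h3, ?_, h6⟩
    intro p hp inst
    by_cases h : p = 2
    · subst h
      exact hS hp D h4
    · have hp1 := hmem p hp h
      refine (hr0 p hp1).2 D ?_
      have e1 : D ≡ r [MOD p ^ 2] := Nat.ModEq.of_dvd (hdvd p hp1) h5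
      exact e1.trans (hr p hp1)
  · intro ε hε
    have h1 : ∀ t ∈ (T8 ×ˢ range q).filter (Cmp P d q), ∀ᶠ X : ℕ in Filter.atTop,
        (1 / 2 - ε) * ({D : ℕ | D ≤ X ∧ FD D ∧ D % 3 = 2 ∧ D % t.1.1 = t.1.2 ∧
            D % q = t.2 % q}.ncard : ℝ) ≤
          ({D : ℕ | D ≤ X ∧ FD D ∧ D % 3 = 2 ∧ D % t.1.1 = t.1.2 ∧
            D % q = t.2 % q ∧ B D}.ncard : ℝ) := by
      intro t ht
      obtain ⟨hR, hnr⟩ := hH t ht
      obtain ⟨X₀, hX₀⟩ := (H t.1.1 t.1.2 hR P1 hP1 t.2 hnr).2 ε hε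
      exact Filter.eventually_atTop.2 ⟨X₀, fun X hX => hX₀ X hX⟩
    obtain ⟨X₀, hX₀⟩ := Filter.eventually_atTop.1 ((Filter.eventually_all_finset _).2 h1)
    refine ⟨X₀, fun X hX => ?_⟩
    have e1 := tot hx P d q hq key X fun _ => True
    have e2 := tot hx P d q hq key X B
    simp only [and_true] at e1
    rw [e1, e2, Nat.cast_sum, Nat.cast_sum, mul_sum]
    exact sum_le_sum fun t ht => hX₀ X hX t ht

end LO

end Pool.Agent.Lib.MP_7c5fb9_nt
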