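import Pool.Agent.Lib.MP_7c5fb9_nt.LO.Stmts

set_option autoImplicit false

/-!
# Level one (MP_7c5fb9_nt, project LO): the cocycle

`theorem stCoc (hPrim : StPrim) : StCoc`.
-/

namespace Pool.Agent.Lib.MP_7c5fb9_nt

namespace LO

open Pool.Agent.Lib.MP_7c08ba_nt.RZ UpperHalfPlane Filter Topology
open scoped MatrixGroups Polynomial nonZeroDivisors

namespace Cocm

/-! ### Fractional linear transformations -/

/-- The denominator. -/
noncomputable def dn (M : Mat) (z : ℂ) : ℂ := (M 1 0 : ℂ) * z + M 1 1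

/-- The numerator. -/
noncomputable def nm (M : Mat) (z : ℂ) : ℂ := (M 0 0 : ℂ) * z + M 0 1

lemma mb_eq (M : Mat) (z : ℂ) : mb M z = nm M z / dn M z := rfl

lemma det_eq {M : Mat} (hM : M.det = 1) : M 0 0 * M 1 1 - M 0 1 * M 1 0 = 1 := by
  rw [← Matrix.det_fin_two]
  exact hM

lemma dn_ne {M : Mat} (hM : M.det = 1) {z : ℂ} (hz : 0 < z.im) : dn M z ≠ 0 := by
  intro h
  have h1 : (dn M z).im = (M 1 0 : ℝ) * z.im := by simp [dn]
  have h2 : (dn M z).re = (M 1 0 : ℝ) * z.re + M 1 1 := by simp [dn]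
  rw [h] at h1 h2
  simp only [Complex.zero_im, Complex.zero_re] at h1 h2
  have h3 : (M 1 0 : ℝ) = 0 := by
    rcases mul_eq_zero.mp h1.symm with h | h
    · exact h
    · exact absurd h hz.ne'
  rw [h3] at h2
  have h4 : (M 1 1 : ℝ) = 0 := by linarith
  have h5 : M 1 0 = 0 := by exact_mod_cast h3
  have h6 : M 1 1 = 0 := by exact_mod_cast h4
  have h7 := det_eq hM
  rw [h5, h6] at h7
  omega

lemma ex_sl {M : Mat} (hM : M.det = 1) : ∃ g : SL(2, ℤ), ∀ i j, g i j = M i j :=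
  ⟨⟨M, hM⟩, fun _ _ => rfl⟩

lemma mb_smul {M : Mat} {g : SL(2, ℤ)} (hg : ∀ i j, g i j = M i j) {z : ℂ} (hz : 0 < z.im) :
    ((g • (⟨z, hz⟩ : ℍ) : ℍ) : ℂ) = mb M z := by
  rw [coe_specialLinearGroup_apply]
  simp [mb, hg]

lemma im_mb {M : Mat} (hM : M.det = 1) {z : ℂ} (hz : 0 < z.im) : 0 < (mb M z).im := by
  obtain ⟨g, hg⟩ := ex_sl hM
  rw [← mb_smul hg hz]
  exact (g • (⟨z, hz⟩ : ℍ) : ℍ).im_pos

lemma dn_mul {M N : Mat} (hN : N.det = 1) {z : ℂ} (hz : 0 < z.im) :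
    dn (M * N) z = dn M (mb N z) * dn N z := by
  have h := dn_ne hN hz
  rw [mb_eq]
  have h1 : dn (M * N) z = (M 1 0 : ℂ) * nm N z + M 1 1 * dn N z := by
    simp only [dn, nm, Matrix.mul_apply, Fin.sum_univ_two]
    push_cast
    ring
  rw [h1]
  show _ = ((M 1 0 : ℂ) * (nm N z / dn N z) + M 1 1) * dn N z
  field_simp

lemma nm_mul {M N : Mat} (hN : N.det = 1) {z : ℂ} (hz : 0 < z.im) :
    nm (M * N) z = nm M (mb N z) * dn N z := by
  have h := dn_ne hN hz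
  rw [mb_eq]
  have h1 : nm (M * N) z = (M 0 0 : ℂ) * nm N z + M 0 1 * dn N z := by
    simp only [dn, nm, Matrix.mul_apply, Fin.sum_univ_two]
    push_cast
    ring
  rw [h1]
  show _ = ((M 0 0 : ℂ) * (nm N z / dn N z) + M 0 1) * dn N z
  field_simp

lemma mb_mul {M N : Mat} (hN : N.det = 1) {z : ℂ} (hz : 0 < z.im) :
    mb (M * N) z = mb M (mb N z) := by
  rw [mb_eq (M * N), mb_eq M, nm_mul hN hz, dn_mul hN hz]
  exact mul_div_mul_right _ _ (dn_ne hN hz)

lemma act_mul (Q : Frm) (M N : Mat) : act (act Q M) N = act Q (M * N) := by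
  funext i
  fin_cases i <;> simp [act, Matrix.mul_apply, Fin.sum_univ_two] <;> ring

lemma act_neg (Q : Frm) (M : Mat) : act Q (-M) = act Q M := by
  funext i
  fin_cases i <;> simp [act]

lemma mb_neg (M : Mat) (z : ℂ) : mb (-M) z = mb M z := by
  have h1 : nm (-M) z = -nm M z := by
    simp only [nm, Matrix.neg_apply]
    push_cast
    ring
  have h2 : dn (-M) z = -dn M z := by
    simp only [dn, Matrix.neg_apply]
    push_cast
    ring
  rw [mb_eq, mb_eq, h1, h2, neg_div_neg_eq]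

lemma deriv_mb {M : Mat} (hM : M.det = 1) {z : ℂ} (hz : 0 < z.im) :
    HasDerivAt (mb M) (1 / dn M z ^ 2) z := by
  have h := dn_ne hM hz
  have h1 : HasDerivAt (nm M) (M 0 0 : ℂ) z := by
    have h := ((hasDerivAt_id z).const_mul (M 0 0 : ℂ)).add_const (M 0 1 : ℂ)
    rw [mul_one] at h
    exact h
  have h2 : HasDerivAt (dn M) (M 1 0 : ℂ) z := by
    have h := ((hasDerivAt_id z).const_mul (M 1 0 : ℂ)).add_const (M 1 1 : ℂ)
    rw [mul_one] at h
    exact h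
  have h3 := h1.div h2 h
  have h4 : (M 0 0 : ℂ) * dn M z - nm M z * (M 1 0 : ℂ) = 1 := by
    have h5 := det_eq hM
    have h6 : (M 0 0 : ℂ) * M 1 1 - M 0 1 * M 1 0 = 1 := by exact_mod_cast h5
    simp only [nm, dn]
    linear_combination h6
  rw [h4] at h3
  exact h3

/-! ### Forms -/

lemma qv_act {M : Mat} (Q : Frm) (hM : M.det = 1) {z : ℂ} (hz : 0 < z.im) :
    qv Q (mb M z) = qv (act Q M) z / dn M z ^ 2 := by
  have h := dn_ne hM hz
  have h1 : qv (act Q M) z =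
      Q 0 * nm M z ^ 2 + Q 1 * (nm M z * dn M z) + Q 2 * dn M z ^ 2 := by
    simp only [qv, act, nm, dn]
    simp
    ring
  rw [h1, mb_eq]
  simp only [qv]
  field_simp

lemma pw_eval (k : ℕ) (Q : Frm) (z : ℂ) : (pw k Q).eval z = qv Q z ^ (k - 1) := by
  simp [pw, qv]

lemma pw_deg {k w : ℕ} (hk : 1 ≤ k) (hw : w = 2 * k) (Q : Frm) : (pw k Q).natDegree < w := by
  have h1 : (Polynomial.C (Q 0 : ℂ) * Polynomial.X ^ 2 + Polynomial.C (Q 1 : ℂ) * Polynomial.X +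
    Polynomial.C (Q 2 : ℂ)).natDegree ≤ 2 := Polynomial.natDegree_quadratic_le
  have h2 : (pw k Q).natDegree ≤ (k - 1) * 2 :=
    Polynomial.natDegree_pow_le_of_le (k - 1) h1
  omega

/-! ### The form `f` -/

variable {w : ℕ}

lemma f_mb (f : CuspForm 𝒮ℒ (w : ℤ)) {M : Mat} (hM : M.det = 1) {z : ℂ} (hz : 0 < z.im) :
    f (ofComplex (mb M z)) = dn M z ^ w * f (ofComplex z) := by
  obtain ⟨g, hg⟩ := ex_sl hM
  have h := SlashInvariantForm.slash_action_eqn'' (Γ := 𝒮ℒ) f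
    (γ := (g : GL (Fin 2) ℝ)) ⟨g, rfl⟩ ⟨z, hz⟩
  rw [← mb_smul hg hz, ofComplex_apply, ofComplex_apply_of_im_pos hz]
  have h2 : denom (g : GL (Fin 2) ℝ) (⟨z, hz⟩ : ℍ) = dn M z := by
    rw [ModularGroup.denom_apply g ⟨z, hz⟩, hg, hg]
    rfl
  rw [h2, zpow_natCast] at h
  exact h

/-- The difference of primitives is constant. -/
lemma diff (hPrim : StPrim) {k : ℕ} (f : CuspForm 𝒮ℒ (w : ℤ)) (hk : 1 ≤ k) (hw : w = 2 * k)
    {M : Mat} (Q : Frm) (hM : M.det = 1) {z : ℂ} (hz : 0 < z.im) :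
    HasDerivAt (fun z => Gp f (pw k Q) (mb M z) - Gp f (pw k (act Q M)) z) 0 z := by
  have h1 := (hPrim w f (pw k Q) (pw_deg hk hw Q)).1 (mb M z) (im_mb hM hz)
  have h2 := (hPrim w f (pw k (act Q M)) (pw_deg hk hw _)).1 z hz
  have h3 := (h1.comp z (deriv_mb hM hz)).sub h2
  have h4 : f (ofComplex (mb M z)) * (pw k Q).eval (mb M z) * (1 / dn M z ^ 2) -
      f (ofComplex z) * (pw k (act Q M)).eval z = 0 := by
    have h := dn_ne hM hz
    rw [f_mb f hM hz, pw_eval, pw_eval, qv_act Q hM hz, div_pow, ← pow_mul]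
    have e : dn M z ^ w = dn M z ^ (2 * (k - 1)) * dn M z ^ 2 := by
      rw [← pow_add]
      congr 1
      omega
    rw [e]
    have h' : dn M z ^ (2 * (k - 1)) ≠ 0 := pow_ne_zero _ h
    have h'' : dn M z ^ 2 ≠ 0 := pow_ne_zero _ h
    field_simp
    ring
  rw [h4] at h3
  exact h3

lemma const (hPrim : StPrim) {k : ℕ} (f : CuspForm 𝒮ℒ (w : ℤ)) (hk : 1 ≤ k) (hw : w = 2 * k)
    {M : Mat} (Q : Frm) (hM : M.det = 1) {z : ℂ} (hz : 0 < z.im) :
    Gp f (pw k Q) (mb M z) - Gp f (pw k (act Q M)) z = Phi k f M Q := by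
  have ho : IsOpen {z : ℂ | 0 < z.im} := isOpen_lt continuous_const Complex.continuous_im
  have hc : IsPreconnected {z : ℂ | 0 < z.im} :=
    (convex_halfSpace_im_gt 0).isPreconnected
  have h1 : DifferentiableOn ℂ (fun z => Gp f (pw k Q) (mb M z) - Gp f (pw k (act Q M)) z)
      {z : ℂ | 0 < z.im} := fun z hz =>
    (diff hPrim f hk hw Q hM hz).differentiableAt.differentiableWithinAt
  have h2 : Set.EqOn (deriv (fun z => Gp f (pw k Q) (mb M z) - Gp f (pw k (act Q M)) z)) 0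
      {z : ℂ | 0 < z.im} := fun z hz => (diff hPrim f hk hw Q hM hz).deriv
  exact ho.is_const_of_deriv_eq_zero hc h1 h2 hz (by simp : (0 : ℝ) < Complex.I.im)

end Cocm

open Cocm

/-- The cocycle. -/
theorem stCoc (hPrim : StPrim) : StCoc := by
  intro k w f hk hw
  refine ⟨fun M Q z hM hz => const hPrim f hk hw Q hM hz, ?_, ?_, ?_⟩
  · intro M N Q hM hN
    have hI : 0 < Complex.I.im := by simp
    have hNI := im_mb hN hI
    have h1 := const hPrim f hk hw Q hM hNI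
    have h2 : Phi k f (M * N) Q =
        Gp f (pw k Q) (mb (M * N) Complex.I) - Gp f (pw k (act Q (M * N))) Complex.I := rfl
    have h3 : Phi k f N (act Q M) =
        Gp f (pw k (act Q M)) (mb N Complex.I) - Gp f (pw k (act (act Q M) N)) Complex.I := rfl
    rw [h2, h3, ← h1, mb_mul hN hI, act_mul]
    ring
  · intro Q
    have hT : mT.det = 1 := by simp [mT, Matrix.det_fin_two]
    by_contra hne
    have hpos : 0 < ‖Phi k f mT Q‖ := norm_pos_iff.mpr hne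
    obtain ⟨Y1, hY1, h1⟩ := (hPrim w f (pw k Q) (pw_deg hk hw Q)).2 1 (‖Phi k f mT Q‖ / 3)
      (by positivity)
    obtain ⟨Y2, hY2, h2⟩ := (hPrim w f (pw k (act Q mT)) (pw_deg hk hw _)).2 1
      (‖Phi k f mT Q‖ / 3) (by positivity)
    have hz : 0 < ((max Y1 Y2 : ℝ) * Complex.I : ℂ).im := by
      simp [hY1]
    have h3 := const hPrim f hk hw Q hT hz
    have e1 : mb mT ((max Y1 Y2 : ℝ) * Complex.I) = (max Y1 Y2 : ℝ) * Complex.I + 1 := by
      simp [mb, mT]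
    have h4 := h1 (mb mT ((max Y1 Y2 : ℝ) * Complex.I)) (by rw [e1]; simp) (by rw [e1]; simp)
    have h5 := h2 ((max Y1 Y2 : ℝ) * Complex.I) (by simp) (by simp)
    have h6 : ‖Phi k f mT Q‖ ≤ ‖Phi k f mT Q‖ / 3 + ‖Phi k f mT Q‖ / 3 := by
      conv_lhs => rw [← h3]
      exact (norm_sub_le _ _).trans (add_le_add h4 h5)
    linarith
  · intro M Q
    unfold Phi
    rw [mb_neg, act_neg]

end LO

end Pool.Agent.Lib.MP_7c5fb9_nt
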