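import Pool.Agent.Lib.MP_7c5fb9_nt.LO.Stmts

set_option autoImplicit false

/-!
# Level one (MP_7c5fb9_nt, project LO): the cocycle of the eigenfunction
-/

namespace Pool.Agent.Lib.MP_7c5fb9_nt

namespace LO

namespace Cocyc

/-- Forms of discriminant `2` modulo three do not represent zero modulo three. -/
theorem aniso3 : ∀ a b c p q r s : ZMod 3, b ^ 2 - 4 * a * c = 2 → p * s - q * r = 1 →
    a * p ^ 2 + b * (p * r) + c * r ^ 2 ≠ 0 := by
  decide

theorem aniso {Q : Frm} {M : Mat} (hQ : disc Q % 3 = 2) (hM : M.det = 1) :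
    ¬ (3 : ℤ) ∣ act Q M 0 := by
  intro h
  have h1 : ((act Q M 0 : ℤ) : ZMod 3) = 0 := (ZMod.intCast_zmod_eq_zero_iff_dvd _ 3).2 h
  have h2 : ((disc Q : ℤ) : ZMod 3) = 2 := by
    have h3 : (3 : ℤ) ∣ disc Q - 2 := by omega
    have h4 := (ZMod.intCast_zmod_eq_zero_iff_dvd (disc Q - 2) 3).2 h3
    push_cast at h4
    exact sub_eq_zero.1 h4
  have h5 : ((M.det : ℤ) : ZMod 3) = 1 := by rw [hM]; simp
  rw [Matrix.det_fin_two] at h5
  unfold disc at h2
  simp only [act, Matrix.cons_val_zero] at h1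
  push_cast at h1 h2 h5
  exact aniso3 (Q 0) (Q 1) (Q 2) (M 0 0) (M 0 1) (M 1 0) (M 1 1) h2 h5 h1

theorem prime0 {Q : Frm} (hQ : disc Q % 3 = 2) : ¬ (3 : ℤ) ∣ Q 0 := by
  have := aniso (Q := Q) (M := 1) hQ (by simp)
  simpa [act] using this

theorem disc_act {Q : Frm} {M : Mat} (hM : M.det = 1) : disc (act Q M) = disc Q := by
  rw [Matrix.det_fin_two] at hM
  have e : disc (act Q M) = disc Q * (M 0 0 * M 1 1 - M 0 1 * M 1 0) ^ 2 := by
    simp only [disc, act, Matrix.cons_val_zero, Matrix.cons_val_one, Matrix.cons_val_two,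
      Matrix.head_cons, Matrix.tail_cons]
    ring
  rw [e, hM]
  ring

/-- The first column of a unimodular matrix gives a nondegenerate pair. -/
theorem nondeg {Q : Frm} {M : Mat} (hQ : disc Q % 3 = 2) (hM : M.det = 1) :
    ¬ (3 : ℤ) ∣ (2 * Q 0 * M 0 0 + Q 1 * M 1 0) ∨ ¬ (3 : ℤ) ∣ (-M 1 0) := by
  by_contra hc
  push Not at hc
  obtain ⟨⟨x, hx⟩, ⟨y, hy⟩⟩ := hc
  have h1 : (2 * Q 0 * M 0 0 + Q 1 * M 1 0) ^ 2 - disc Q * (-M 1 0) ^ 2 =
      4 * (Q 0 * act Q M 0) := by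
    simp only [disc, act, Matrix.cons_val_zero]
    ring
  rw [hx, hy] at h1
  have h2 : (3 : ℤ) ∣ 4 * (Q 0 * act Q M 0) := by
    rw [← h1]
    exact ⟨3 * x ^ 2 - disc Q * (3 * y ^ 2), by ring⟩
  have p3 : Prime (3 : ℤ) := Int.prime_three
  rcases p3.dvd_or_dvd h2 with h | h
  · omega
  · rcases p3.dvd_or_dvd h with h | h
    · exact prime0 hQ h
    · exact aniso hQ hM h

end Cocyc

open Cocyc

theorem stCocyc (hLam : StLam) : StCocyc := by
  obtain ⟨hmul, hsc, hneg, hzero, -⟩ := hLam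
  refine ⟨?_, ?_, ?_, ?_, ?_⟩
  · intro M N Q hM hN hQ
    have hQ' : disc (act Q M) % 3 = 2 := by rw [disc_act hM]; exact hQ
    have key := hmul (disc Q) (2 * Q 0 * M 0 0 + Q 1 * M 1 0) (-M 1 0)
      (2 * act Q M 0 * N 0 0 + act Q M 1 * N 1 0) (-N 1 0) hQ (nondeg hQ hM) (nondeg hQ' hN)
    have hd : M 0 0 * M 1 1 - M 0 1 * M 1 0 = 1 := by rw [← Matrix.det_fin_two, hM]
    have e1 : (2 * Q 0 * M 0 0 + Q 1 * M 1 0) * (2 * act Q M 0 * N 0 0 + act Q M 1 * N 1 0) +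
        disc Q * (-M 1 0) * (-N 1 0) =
        (2 * act Q M 0) * (2 * Q 0 * (M * N) 0 0 + Q 1 * (M * N) 1 0) := by
      simp only [disc, act, Matrix.cons_val_zero, Matrix.cons_val_one, Matrix.mul_apply,
        Fin.sum_univ_two]
      linear_combination (4 * Q 0 * Q 2 - Q 1 ^ 2) * M 1 0 * N 1 0 * hd
    have e2 : (2 * Q 0 * M 0 0 + Q 1 * M 1 0) * (-N 1 0) +
        (-M 1 0) * (2 * act Q M 0 * N 0 0 + act Q M 1 * N 1 0) =
        (2 * act Q M 0) * (-(M * N) 1 0) := by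
      simp only [act, Matrix.cons_val_zero, Matrix.cons_val_one, Matrix.mul_apply,
        Fin.sum_univ_two]
      linear_combination (2 * Q 0 * M 0 0 * N 1 0 + Q 1 * M 1 0 * N 1 0) * hd
    rw [e1, e2, hsc (disc Q) _ _ _ hQ] at key
    · unfold psi
      rw [disc_act hM, key]
    · intro h
      rcases Int.prime_three.dvd_or_dvd h with h | h
      · omega
      · exact aniso hQ hM h
  · intro Q
    simp [psi, mT, hzero]
  · intro Q hQ
    simp [psi, mS, g0, hQ]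
  · intro M Q hQ
    have := hsc (disc Q) (-1) (2 * Q 0 * M 0 0 + Q 1 * M 1 0) (-M 1 0) hQ (by norm_num)
    unfold psi
    rw [← this]
    congr 1 <;> simp only [Matrix.neg_apply] <;> ring
  · intro D t u Q hQ hD ht
    have hD' : disc Q % 3 = 2 := by rw [hQ]; omega
    have hpar : (2 : ℤ) ∣ t - Q 1 * u := by
      have h1 : (2 : ℤ) ∣ (t - Q 1 * u) * (t + Q 1 * u) := by
        have h2 : (Q 1 ^ 2 - 4 * Q 0 * Q 2 : ℤ) = D := hQ
        refine ⟨2 - 2 * Q 0 * Q 2 * u ^ 2, ?_⟩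
        linear_combination ht - u ^ 2 * h2
      rcases Int.prime_two.dvd_or_dvd h1 with h | h
      · exact h
      · have h3 : t - Q 1 * u = (t + Q 1 * u) - 2 * (Q 1 * u) := by ring
        rw [h3]
        exact dvd_sub h (dvd_mul_right 2 _)
    obtain ⟨k, hk⟩ := hpar
    have e : (t - Q 1 * u) / 2 = k := by omega
    have e3 : 2 * Q 0 * ((t - Q 1 * u) / 2) + Q 1 * (Q 0 * u) = Q 0 * t := by
      rw [e]
      linear_combination -Q 0 * hk
    have e4 : psi (aut Q t u) Q = lam (disc Q) (Q 0 * t) (Q 0 * (-u)) := by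
      unfold psi
      rw [← e3]
      congr 1
      simp [aut]
    rw [e4, hsc (disc Q) _ _ _ hD' (prime0 hD'), hneg _ _ _ hD', hQ]

end LO

end Pool.Agent.Lib.MP_7c5fb9_nt
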