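import Mathlib
import Pool.Agent.Lib.MP_7c5fb9_nt.LO.Stmts

set_option autoImplicit false

/-!
# Level one (MP_7c5fb9_nt, project LO): module Cong

The congruence modulo nine between the class numbers and the fundamental unit.
-/

namespace Pool.Agent.Lib.MP_7c5fb9_nt

namespace LO

open Pool.Agent.Lib.MP_7c08ba_nt.RZ
open scoped ComplexConjugate

namespace Congaux

/-! ### Congruences in a commutative ring -/

section ring

variable {R : Type*} [CommRing R]

/-- A product of elements congruent to one modulo three. -/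
lemma prod_cong {ι : Type*} (s : Finset ι) (Y : ι → R) :
    ∃ z, ∏ i ∈ s, (1 - 3 * Y i) = 1 - 3 * ∑ i ∈ s, Y i + 9 * z := by
  classical
  induction s using Finset.induction_on with
  | empty => exact ⟨0, by simp⟩
  | insert a s ha ih =>
    obtain ⟨z, hz⟩ := ih
    refine ⟨z - 3 * Y a * z + Y a * ∑ i ∈ s, Y i, ?_⟩
    rw [Finset.prod_insert ha, Finset.sum_insert ha, hz]
    ring

/-- Powers. -/
lemma pow_cong (S a : R) (e : ℕ) : ∃ z, (1 - 3 * S + 9 * a) ^ e = 1 - 3 * (e * S) + 9 * z := by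
  induction e with
  | zero => exact ⟨0, by simp⟩
  | succ e ih =>
    obtain ⟨z, hz⟩ := ih
    refine ⟨z - 3 * S * z + 9 * a * z + a - 3 * (e * S) * a + e * S * S, ?_⟩
    rw [pow_succ, hz]
    push_cast
    ring

/-- The congruence. -/
lemma quot_cong {SA SB a b A B F : R} {e : ℕ} (hA : A = 1 - 3 * SA + 9 * a)
    (hB : B = 1 - 3 * SB + 9 * b) (h : F * A ^ e = B ^ e) :
    ∃ z, F = 1 - 3 * (e * (SB - SA)) + 9 * z := by
  obtain ⟨a', ha'⟩ := pow_cong SA a e
  obtain ⟨b', hb'⟩ := pow_cong SB b e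
  rw [hA, hB, ha', hb'] at h
  set g := e * SA * F - 3 * a' * F - e * SB + 3 * b' with hg
  have h1 : F = 1 + 3 * g := by
    rw [hg]
    linear_combination h
  refine ⟨b' + e * SA * g - a' * F, ?_⟩
  have h2 : F = 1 - 3 * (e * SB) + 9 * b' + 3 * (e * SA) * F - 9 * a' * F := by
    linear_combination h
  calc F = 1 - 3 * (e * SB) + 9 * b' + 3 * (e * SA) * F - 9 * a' * F := h2
    _ = 1 - 3 * (e * SB) + 9 * b' + 3 * (e * SA) * (1 + 3 * g) - 9 * a' * F := by rw [← h1]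
    _ = _ := by ring

end ring

/-! ### Algebraic integers -/

/-- A rational number which is an algebraic integer. -/
lemma int_of_integral {z : ℂ} (hz : IsIntegral ℤ z) {n k : ℤ} (hk : k ≠ 0)
    (h : (n : ℂ) = k * z) : k ∣ n := by
  have hk' : (k : ℂ) ≠ 0 := Int.cast_ne_zero.mpr hk
  have h1 : z = algebraMap ℚ ℂ ((n : ℚ) / k) := by
    rw [eq_comm, map_div₀, map_intCast, map_intCast, div_eq_iff hk', h]
    ring
  rw [h1] at hz
  have h2 : IsIntegral ℤ ((n : ℚ) / k) :=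
    (isIntegral_algebraMap_iff (algebraMap ℚ ℂ).injective).mp hz
  obtain ⟨m, hm⟩ := IsIntegrallyClosed.algebraMap_eq_of_integral h2
  refine ⟨m, ?_⟩
  have hk'' : (k : ℚ) ≠ 0 := Int.cast_ne_zero.mpr hk
  have h3 : (m : ℚ) = n / k := by
    rw [← hm]
    rfl
  rw [eq_div_iff hk''] at h3
  have h4 : ((m * k : ℤ) : ℚ) = (n : ℤ) := by
    push_cast
    exact h3
  have h5 : m * k = n := by exact_mod_cast h4
  rw [← h5]
  ring

/-- The square root of `D`. -/
noncomputable def rt (D : ℕ) : ℂ := ((Real.sqrt D : ℝ) : ℂ)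

lemma rt_sq (D : ℕ) : rt D ^ 2 = D := by
  unfold rt
  rw [← Complex.ofReal_pow, Real.sq_sqrt (Nat.cast_nonneg D), Complex.ofReal_natCast]

lemma integral_rt (D : ℕ) : IsIntegral ℤ (rt D) := by
  refine ⟨Polynomial.X ^ 2 - Polynomial.C (D : ℤ), Polynomial.monic_X_pow_sub_C _ two_ne_zero, ?_⟩
  simp [rt_sq]

lemma three_dvd {D : ℕ} (hD : D % 3 = 2) {z : ℂ} (hz : IsIntegral ℤ z) {x y : ℤ}
    (h : (x : ℂ) + y * rt D = 3 * z) : (3 : ℤ) ∣ x ∧ (3 : ℤ) ∣ y := by
  have h1 : IsIntegral ℤ (z * ((x : ℂ) - y * rt D)) :=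
    hz.mul ((isIntegral_algebraMap (R := ℤ) (x := x)).sub
      ((isIntegral_algebraMap (R := ℤ) (x := y)).mul (integral_rt D)))
  have h2 : ((x ^ 2 - D * y ^ 2 : ℤ) : ℂ) = (3 : ℤ) * (z * ((x : ℂ) - y * rt D)) := by
    push_cast
    linear_combination ((x : ℂ) - y * rt D) * h + (y : ℂ) ^ 2 * rt_sq D
  have h3 := int_of_integral h1 (by norm_num) h2
  have hD' : (D : ℤ) % 3 = 2 := by omega
  have h4 : (x ^ 2 - D * y ^ 2) % 3 = 0 := Int.emod_eq_zero_of_dvd h3
  have h5 : (x ^ 2 - D * y ^ 2) % 3 = ((x % 3) ^ 2 - (D % 3) * (y % 3) ^ 2) % 3 := by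
    simp [Int.sub_emod, Int.mul_emod, pow_two]
  rw [h5, hD'] at h4
  have hx : x % 3 = 0 ∨ x % 3 = 1 ∨ x % 3 = 2 := by omega
  have hy : y % 3 = 0 ∨ y % 3 = 1 ∨ y % 3 = 2 := by omega
  rcases hx with hx | hx | hx <;> rcases hy with hy | hy | hy <;> rw [hx, hy] at h4 <;>
    first
      | exact ⟨Int.dvd_of_emod_eq_zero hx, Int.dvd_of_emod_eq_zero hy⟩
      | exact absurd h4 (by norm_num)

lemma nine_dvd {D : ℕ} (hD : D % 3 = 2) {z : ℂ} (hz : IsIntegral ℤ z) {x y : ℤ}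
    (h : (x : ℂ) + y * rt D = 9 * z) : (9 : ℤ) ∣ x ∧ (9 : ℤ) ∣ y := by
  have h0 : IsIntegral ℤ (3 * z) := by
    have : IsIntegral ℤ ((3 : ℤ) : ℂ) := isIntegral_algebraMap (R := ℤ) (x := 3)
    have h1 := this.mul hz
    push_cast at h1
    exact h1
  obtain ⟨⟨x', hx'⟩, y', hy'⟩ := three_dvd hD h0 (by rw [h]; ring)
  obtain ⟨⟨x'', hx''⟩, y'', hy''⟩ := three_dvd (x := x') (y := y') hD hz (by
    rw [hx', hy'] at h
    push_cast at h
    linear_combination h / 3)
  exact ⟨⟨x'', by rw [hx', hx'']; ring⟩, y'', by rw [hy', hy'']; ring⟩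

/-! ### The logarithm of the powers of the unit -/

/-- The powers of `t + u √D`. -/
lemma lam_pow (hLam : StLam) {D : ℕ} (hD : D % 3 = 2) {t u : ℤ} (htu : t ^ 2 - D * u ^ 2 = 4)
    (n : ℕ) : ∃ A B : ℤ, (A : ℂ) + B * rt D = ((t : ℂ) + u * rt D) ^ n ∧
      A ^ 2 - D * B ^ 2 = 4 ^ n ∧ lam D A B = n * lam D t u := by
  have hD' : (D : ℤ) % 3 = 2 := by omega
  have hnd : ∀ (m : ℕ) (A B : ℤ), A ^ 2 - D * B ^ 2 = 4 ^ m → (¬ (3 : ℤ) ∣ A ∨ ¬ (3 : ℤ) ∣ B) := by
    intro m A B h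
    by_contra hcon
    push Not at hcon
    obtain ⟨⟨A', hA⟩, B', hB⟩ := hcon
    have h1 : (3 : ℤ) ∣ 4 ^ m := by
      rw [← h, hA, hB]
      exact ⟨3 * (A' ^ 2 - D * B' ^ 2), by ring⟩
    have h2 := Int.Prime.dvd_pow' (by norm_num : Nat.Prime 3) h1
    omega
  induction n with
  | zero =>
    refine ⟨1, 0, by simp, by simp, ?_⟩
    rw [hLam.2.2.2.1]
    simp
  | succ n ih =>
    obtain ⟨A, B, h1, h2, h3⟩ := ih
    refine ⟨A * t + D * B * u, A * u + B * t, ?_, ?_, ?_⟩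
    · rw [pow_succ, ← h1]
      push_cast
      linear_combination (-(B : ℂ) * u) * rt_sq D
    · have h5 : (A * t + D * B * u) ^ 2 - D * (A * u + B * t) ^ 2 =
          (A ^ 2 - D * B ^ 2) * (t ^ 2 - D * u ^ 2) := by ring
      rw [h5, h2, htu, pow_succ]
    · rw [hLam.1 D A B t u hD' (hnd n A B h2) (hnd 1 t u (by rw [pow_one]; exact htu)), h3]
      push_cast
      ring

lemma lam_one (D c : ℤ) : lam D 1 (3 * c) = c := by
  unfold lam
  have h1 : (4 * 1 * (3 * c) * (1 ^ 2 + D * (3 * c) ^ 2) / 3 : ℤ) =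
      4 * c * (1 + 9 * D * c ^ 2) := by
    have : (4 * 1 * (3 * c) * (1 ^ 2 + D * (3 * c) ^ 2) : ℤ) =
        3 * (4 * c * (1 + 9 * D * c ^ 2)) := by ring
    rw [this]
    exact Int.mul_ediv_cancel_left _ (by norm_num)
  rw [h1]
  have h4 : (4 : ZMod 3) = 1 := by decide
  have h9 : (9 : ZMod 3) = 0 := by decide
  have h3 : (3 : ZMod 3) = 0 := by decide
  push_cast
  rw [h4, h9, h3]
  ring

/-- The end of the proof. -/
lemma final (hLam : StLam) {D : ℕ} (hD : D % 3 = 2) {t u : ℤ} (htu : t ^ 2 - D * u ^ 2 = 4)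
    {h : ℕ} {c : ℤ} (hc : ¬ (3 : ℤ) ∣ c) {z : ℂ} (hz : IsIntegral ℤ z)
    (hE : (((t : ℂ) + u * rt D) / 2) ^ (8 * h) = 1 + 3 * c * rt D + 9 * z) :
    ¬ 3 ∣ h ∧ lam D t u ≠ 0 := by
  obtain ⟨A, B, h1, h2, h3⟩ := lam_pow hLam hD htu (8 * h)
  have h4 : ((A - 2 ^ (8 * h) : ℤ) : ℂ) + ((B - 2 ^ (8 * h) * (3 * c) : ℤ) : ℂ) * rt D =
      9 * (((2 : ℤ) ^ (8 * h) : ℤ) * z) := by
    rw [div_pow, div_eq_iff (pow_ne_zero _ two_ne_zero), ← h1] at hE
    push_cast
    linear_combination hE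
  have h5 : IsIntegral ℤ (((2 : ℤ) ^ (8 * h) : ℤ) * z) :=
    (isIntegral_algebraMap (R := ℤ) (x := (2 : ℤ) ^ (8 * h))).mul hz
  obtain ⟨h6, h7⟩ := nine_dvd hD h5 h4
  have hD' : (D : ℤ) % 3 = 2 := by omega
  have h2n : ¬ (3 : ℤ) ∣ 2 ^ (8 * h) := by
    intro hdvd
    have := Int.Prime.dvd_pow' (by norm_num : Nat.Prime 3) hdvd
    omega
  have h8 : lam D A B = (c : ZMod 3) := by
    rw [hLam.2.2.2.2 D A B D (2 ^ (8 * h) * 1) (2 ^ (8 * h) * (3 * c)) hD' (by simp)
      (by rw [mul_one]; exact h6) h7, hLam.2.1 D (2 ^ (8 * h)) 1 (3 * c) hD' h2n, lam_one]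
  rw [h3] at h8
  have hc' : (c : ZMod 3) ≠ 0 := by
    intro h0
    exact hc ((ZMod.intCast_zmod_eq_zero_iff_dvd c 3).mp h0)
  constructor
  · rintro ⟨h', rfl⟩
    apply hc'
    rw [← h8]
    push_cast
    have h3' : (3 : ZMod 3) = 0 := by decide
    rw [h3']
    ring
  · intro h0
    apply hc'
    rw [← h8, h0, mul_zero]

/-! ### The character -/

section char

variable (D : ℕ) [NeZero D]

/-- The character on residue classes. -/
def ch (x : ZMod D) : ℤ := jacobiSym x.val D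

/-- The additive character. -/
noncomputable def zt (x : ZMod D) : ℂ := ZMod.stdAddChar x

variable {D}

lemma ch_int (a : ℤ) : ch D (a : ZMod D) = jacobiSym a D := by
  unfold ch
  rw [ZMod.val_intCast, ← jacobiSym.mod_left]

lemma int_val (x : ZMod D) : (((x.val : ℕ) : ℤ) : ZMod D) = x := by
  rw [Int.cast_natCast, ZMod.natCast_zmod_val]

lemma ch_mul (x y : ZMod D) : ch D (x * y) = ch D x * ch D y := by
  conv_lhs => rw [← int_val x, ← int_val y, ← Int.cast_mul, ch_int, jacobiSym.mul_left]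
  rfl

lemma zt_int (a : ℤ) : zt D (a : ZMod D) = ee ((a : ℂ) / D) := by
  unfold zt ee
  rw [ZMod.stdAddChar_coe]
  congr 1
  ring

lemma zt_val (x : ZMod D) : zt D x = ee ((x.val : ℂ) / D) := by
  conv_lhs => rw [← int_val x, zt_int]
  rw [Int.cast_natCast]

lemma zt_add (x y : ZMod D) : zt D (x + y) = zt D x * zt D y := AddChar.map_add_eq_mul _ x y

lemma zt_zero : zt D 0 = 1 := AddChar.map_zero_eq_one _

lemma zt_nat (n : ℕ) (x : ZMod D) : zt D (n * x) = zt D x ^ n := by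
  rw [← nsmul_eq_mul]
  exact AddChar.map_nsmul_eq_pow _ n x

lemma zt_neg (x : ZMod D) : zt D (-x) = conj (zt D x) := AddChar.map_neg_eq_conj _ x

lemma zt_ne (x : ZMod D) (hx : x ≠ 0) : 1 - zt D x ≠ 0 := by
  intro h
  apply hx
  apply ZMod.injective_stdAddChar (N := D)
  rw [AddChar.map_zero_eq_one]
  exact (sub_eq_zero.mp h).symm

lemma integral_zt (x : ZMod D) : IsIntegral ℤ (zt D x) := by
  refine IsIntegral.of_pow (n := D) (Nat.pos_of_neZero D) ?_
  rw [← zt_nat, ZMod.natCast_self, zero_mul, zt_zero]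
  exact isIntegral_one

/-- Sums over a range as sums over residue classes. -/
lemma sum_range_eq {A : Type*} [AddCommMonoid A] (F : ℕ → A) :
    ∑ a ∈ Finset.range D, F a = ∑ x : ZMod D, F x.val := by
  refine Finset.sum_nbij' (fun a => (a : ZMod D)) (fun x => x.val) ?_ ?_ ?_ ?_ ?_
  · intro a _
    exact Finset.mem_univ _
  · intro x _
    exact Finset.mem_range.mpr (ZMod.val_lt x)
  · intro a ha
    exact ZMod.val_natCast_of_lt (Finset.mem_range.mp ha)
  · intro x _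
    exact ZMod.natCast_zmod_val x
  · intro a ha
    rw [ZMod.val_natCast_of_lt (Finset.mem_range.mp ha)]

/-- Sums with the character. -/
lemma sum_ch {A : Type*} [CommRing A] (F : ZMod D → A) :
    ∑ x : ZMod D, (ch D x : A) * F x = ∑ x ∈ Finset.univ.filter (fun x => ch D x = 1), F x -
      ∑ x ∈ Finset.univ.filter (fun x => ch D x = -1), F x := by
  rw [Finset.sum_filter, Finset.sum_filter, ← Finset.sum_sub_distrib]
  refine Finset.sum_congr rfl fun x _ => ?_
  rcases jacobiSym.trichotomy x.val D with h | h | h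
  · have : ch D x = 0 := h
    rw [this]
    simp
  · have : ch D x = 1 := h
    rw [this]
    simp
  · have : ch D x = -1 := h
    rw [this]
    simp

/-- The products of the cyclotomic numbers. -/
noncomputable def Vs (D : ℕ) [NeZero D] (s : ℤ) : ℂ :=
  ∏ x ∈ (Finset.univ : Finset (ZMod D)).filter (fun x => ch D x = s), (1 - zt D x)

/-- The algebraic integers `y`. -/
noncomputable def yy (D : ℕ) [NeZero D] (m : ℕ) (x : ZMod D) : ℂ :=
  ∑ i ∈ Finset.range m, zt D (((3 * i + 1 : ℕ) : ZMod D) * x)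

lemma yy_eq {m : ℕ} (hm : 3 * m = D + 1) (x : ZMod D) :
    (1 - zt D x) ^ 3 = (1 - zt D (3 * x)) * (1 - 3 * yy D m x) := by
  have h1 : zt D (3 * x) = zt D x ^ 3 := by
    have := zt_nat (D := D) 3 x
    push_cast at this
    exact this
  have h2 : yy D m x = zt D x * ∑ i ∈ Finset.range m, (zt D x ^ 3) ^ i := by
    unfold yy
    rw [Finset.mul_sum]
    refine Finset.sum_congr rfl fun i _ => ?_
    rw [zt_nat, pow_succ, pow_mul]
    ring
  have h3 := mul_geom_sum (zt D x ^ 3) m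
  have h4 : (zt D x ^ 3) ^ m = zt D x := by
    rw [← pow_mul, hm, pow_succ, ← zt_nat, ZMod.natCast_self, zero_mul, zt_zero, one_mul]
  rw [h4] at h3
  rw [h1, h2]
  linear_combination (-3 * zt D x) * h3

lemma integral_yy (m : ℕ) (x : ZMod D) : IsIntegral ℤ (yy D m x) :=
  IsIntegral.sum _ fun _ _ => integral_zt _

lemma cube (hmul : ∀ x : ZMod D, ch D (3 * x) = -ch D x) {m : ℕ} (hm : 3 * m = D + 1) (s : ℤ) :
    Vs D s ^ 3 = Vs D (-s) * ∏ x ∈ (Finset.univ : Finset (ZMod D)).filter (fun x => ch D x = s),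
      (1 - 3 * yy D m x) := by
  have hm' : (m : ZMod D) * 3 = 1 := by
    have h1 : ((3 * m : ℕ) : ZMod D) = ((D + 1 : ℕ) : ZMod D) := by rw [hm]
    push_cast at h1
    rw [ZMod.natCast_self, zero_add] at h1
    rw [mul_comm]
    exact h1
  have h1 : Vs D (-s) = ∏ x ∈ (Finset.univ : Finset (ZMod D)).filter (fun x => ch D x = s),
      (1 - zt D (3 * x)) := by
    unfold Vs
    refine Finset.prod_nbij' (fun x => (m : ZMod D) * x) (fun x => 3 * x) ?_ ?_ ?_ ?_ ?_
    · intro x hx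
      rw [Finset.mem_filter] at hx ⊢
      refine ⟨Finset.mem_univ _, ?_⟩
      have h2 := hmul ((m : ZMod D) * x)
      rw [← mul_assoc, mul_comm 3 (m : ZMod D), hm', one_mul, hx.2] at h2
      omega
    · intro x hx
      rw [Finset.mem_filter] at hx ⊢
      refine ⟨Finset.mem_univ _, ?_⟩
      rw [hmul, hx.2]
    · intro x _
      show 3 * ((m : ZMod D) * x) = x
      rw [← mul_assoc, mul_comm 3 (m : ZMod D), hm', one_mul]
    · intro x _
      show (m : ZMod D) * (3 * x) = x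
      rw [← mul_assoc, hm', one_mul]
    · intro x _
      show 1 - zt D x = 1 - zt D (3 * ((m : ZMod D) * x))
      rw [← mul_assoc, mul_comm 3 (m : ZMod D), hm', one_mul]
  rw [h1, ← Finset.prod_mul_distrib]
  unfold Vs
  rw [← Finset.prod_pow]
  exact Finset.prod_congr rfl fun x _ => yy_eq hm x

lemma conj_Vs (hneg : ∀ x : ZMod D, ch D (-x) = ch D x) (s : ℤ) : conj (Vs D s) = Vs D s := by
  unfold Vs
  rw [map_prod]
  refine Finset.prod_nbij' (fun x => -x) (fun x => -x) ?_ ?_ ?_ ?_ ?_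
  · intro x hx
    rw [Finset.mem_filter] at hx ⊢
    exact ⟨Finset.mem_univ _, by rw [hneg]; exact hx.2⟩
  · intro x hx
    rw [Finset.mem_filter] at hx ⊢
    exact ⟨Finset.mem_univ _, by rw [hneg]; exact hx.2⟩
  · intro x _
    exact neg_neg x
  · intro x _
    exact neg_neg x
  · intro x _
    rw [map_sub, map_one, zt_neg]

lemma Vs_pow (hneg : ∀ x : ZMod D, ch D (-x) = ch D x) (s : ℤ) :
    Vs D s ^ 4 = ((‖Vs D s‖ : ℝ) : ℂ) ^ 4 := by
  have h1 : Vs D s ^ 2 = ((‖Vs D s‖ : ℝ) : ℂ) ^ 2 := by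
    rw [← Complex.mul_conj', conj_Vs hneg, pow_two]
  calc Vs D s ^ 4 = (Vs D s ^ 2) ^ 2 := by ring
    _ = _ := by rw [h1]; ring

lemma Vs_ne (h1 : 1 < D) {s : ℤ} (hs : s ≠ 0) : Vs D s ≠ 0 := by
  refine Finset.prod_ne_zero_iff.mpr fun x hx => zt_ne x ?_
  rintro rfl
  apply hs
  rw [← (Finset.mem_filter.mp hx).2]
  have := ch_int (D := D) 0
  rw [Int.cast_zero] at this
  rw [this]
  exact jacobiSym.zero_left h1

lemma log_Vs (h1 : 1 < D) {s : ℤ} (hs : s ≠ 0) : Real.log ‖Vs D s‖ =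
    ∑ x ∈ (Finset.univ : Finset (ZMod D)).filter (fun x => ch D x = s),
      Real.log ‖1 - zt D x‖ := by
  have h2 := Vs_ne h1 hs
  unfold Vs at h2 ⊢
  rw [norm_prod, Real.log_prod]
  intro x hx
  exact norm_ne_zero_iff.mpr (Finset.prod_ne_zero_iff.mp h2 x hx)

lemma LR_eq (h1 : 1 < D) : LR D = |Real.log ‖Vs D 1‖ - Real.log ‖Vs D (-1)‖| := by
  unfold LR
  rw [sum_range_eq (D := D) (fun a => (jacobiSym a D : ℝ) * Real.log ‖1 - ee ((a : ℂ) / D)‖),
    log_Vs h1 one_ne_zero, log_Vs h1 (by norm_num), ← sum_ch]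
  refine congrArg _ (Finset.sum_congr rfl fun x _ => ?_)
  rw [zt_val]
  rfl

/-- The sum of the numbers `y` with the character. -/
lemma sum_yy {τ : ℂ} (hτ : ∀ n : ℤ, ∑ a ∈ Finset.range D, (jacobiSym a D : ℂ) *
    ee ((a : ℂ) * n / D) = jacobiSym n D * τ) (m : ℕ) :
    ∑ x ∈ (Finset.univ : Finset (ZMod D)).filter (fun x => ch D x = 1), yy D m x -
      ∑ x ∈ (Finset.univ : Finset (ZMod D)).filter (fun x => ch D x = -1), yy D m x =
      ((∑ i ∈ Finset.range m, jacobiSym (3 * i + 1 : ℕ) D : ℤ) : ℂ) * τ := by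
  rw [← sum_ch]
  unfold yy
  simp only [Finset.mul_sum]
  rw [Finset.sum_comm, Int.cast_sum, Finset.sum_mul]
  refine Finset.sum_congr rfl fun i _ => ?_
  rw [← hτ, sum_range_eq (D := D) (fun a => (jacobiSym a D : ℂ) *
    ee ((a : ℂ) * ((3 * i + 1 : ℕ) : ℤ) / D))]
  refine Finset.sum_congr rfl fun x _ => ?_
  have h1 : zt D (((3 * i + 1 : ℕ) : ZMod D) * x) =
      ee ((x.val : ℂ) * (((3 * i + 1 : ℕ) : ℤ) : ℂ) / D) := by
    have h2 : ((3 * i + 1 : ℕ) : ZMod D) * x = (((x.val : ℤ) * ((3 * i + 1 : ℕ) : ℤ) : ℤ) :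
        ZMod D) := by
      rw [Int.cast_mul, int_val, Int.cast_natCast, mul_comm]
    rw [h2, zt_int]
    push_cast
    rfl
  rw [h1]
  rfl

end char

/-! ### The class number of the imaginary field -/

/-- The sum modulo `3 D`. -/
lemma sum_three {D m : ℕ} (hD : D % 3 = 2) (hD0 : 0 < D) (hm : 3 * m = D + 1)
    (h0 : ∑ a ∈ Finset.range D, jacobiSym a D = 0) :
    ∑ a ∈ Finset.range (3 * D), jacobiSym a (3 * D) * (a : ℤ) =
      -(3 * D * ∑ i ∈ Finset.range m, jacobiSym (3 * i + 1 : ℕ) D) := by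
  have : NeZero D := ⟨hD0.ne'⟩
  have h1 : 3 * D = D + (D + D) := by ring
  rw [h1, Finset.sum_range_add, Finset.sum_range_add, ← Finset.sum_add_distrib,
    ← Finset.sum_add_distrib, ← h1]
  have h2 : ∀ a : ℕ, jacobiSym a (3 * D) * (a : ℤ) + (jacobiSym ((D + a : ℕ) : ℤ) (3 * D) *
      ((D + a : ℕ) : ℤ) + jacobiSym ((D + (D + a) : ℕ) : ℤ) (3 * D) * ((D + (D + a) : ℕ) : ℤ)) =
      D * (jacobiSym a D - 3 * if a % 3 = 1 then jacobiSym a D else 0) := by
    intro a
    rw [jacobiSym.mul_right, jacobiSym.mul_right, jacobiSym.mul_right]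
    have e1 : jacobiSym ((D + a : ℕ) : ℤ) D = jacobiSym a D := by
      rw [jacobiSym.mod_left, jacobiSym.mod_left a D]
      push_cast
      rw [Int.add_emod_left]
    have e2 : jacobiSym ((D + (D + a) : ℕ) : ℤ) D = jacobiSym a D := by
      rw [jacobiSym.mod_left, jacobiSym.mod_left a D]
      push_cast
      rw [Int.add_emod_left, Int.add_emod_left]
    rw [e1, e2]
    have j0 : jacobiSym 0 3 = 0 := by norm_num
    have j1 : jacobiSym 1 3 = 1 := by norm_num
    have j2 : jacobiSym 2 3 = -1 := by norm_num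
    have key : ∀ (n r : ℕ), n % 3 = r → jacobiSym n 3 = jacobiSym r 3 := by
      intro n r hr
      rw [jacobiSym.mod_left, ← hr]
      congr 1
    have ha : a % 3 = 0 ∨ a % 3 = 1 ∨ a % 3 = 2 := by omega
    rcases ha with ha | ha | ha
    · rw [key a 0 ha, key (D + a) 2 (by omega), key (D + (D + a)) 1 (by omega), if_neg (by omega)]
      push_cast
      rw [j0, j1, j2]
      ring
    · rw [key a 1 ha, key (D + a) 0 (by omega), key (D + (D + a)) 2 (by omega), if_pos ha]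
      push_cast
      rw [j0, j1, j2]
      ring
    · rw [key a 2 ha, key (D + a) 1 (by omega), key (D + (D + a)) 0 (by omega), if_neg (by omega)]
      push_cast
      rw [j0, j1, j2]
      ring
  rw [Finset.sum_congr rfl fun a _ => h2 a, ← Finset.mul_sum, Finset.sum_sub_distrib, h0,
    ← Finset.mul_sum, ← Finset.sum_filter]
  have h3 : ∑ a ∈ (Finset.range D).filter (fun a => a % 3 = 1), jacobiSym a D =
      ∑ i ∈ Finset.range m, jacobiSym (3 * i + 1 : ℕ) D := by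
    symm
    refine Finset.sum_nbij' (fun i => 3 * i + 1) (fun a => a / 3) ?_ ?_ ?_ ?_ ?_
    · intro i hi
      rw [Finset.mem_range] at hi
      rw [Finset.mem_filter, Finset.mem_range]
      omega
    · intro a ha
      rw [Finset.mem_filter, Finset.mem_range] at ha
      rw [Finset.mem_range]
      omega
    · intro i _
      show (3 * i + 1) / 3 = i
      omega
    · intro a ha
      rw [Finset.mem_filter] at ha
      show 3 * (a / 3) + 1 = a
      omega
    · intro i _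
      rfl
  rw [h3]
  ring

/-- From the logarithms to the exact relation. -/
lemma rel {V W P N : ℂ} {E : ℝ} {e h : ℕ} (hV : V ≠ 0) (hW : W ≠ 0)
    (hV4 : V ^ 4 = ((‖V‖ : ℝ) : ℂ) ^ 4) (hW4 : W ^ 4 = ((‖W‖ : ℝ) : ℂ) ^ 4) (hE : 0 < E)
    (hVW : V ^ 4 * N = W ^ 4 * P)
    (hlog : e * (Real.log ‖V‖ - Real.log ‖W‖) = 2 * h * Real.log E) :
    ((E : ℂ) ^ (8 * h)) * N ^ e = P ^ e := by
  have hV' : 0 < ‖V‖ := norm_pos_iff.mpr hV
  have hW' : 0 < ‖W‖ := norm_pos_iff.mpr hW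
  have h1 : (‖V‖ ^ 4) ^ e = (‖W‖ ^ 4) ^ e * E ^ (8 * h) := by
    have hp1 : 0 < (‖V‖ ^ 4) ^ e := by positivity
    have hp2 : 0 < (‖W‖ ^ 4) ^ e * E ^ (8 * h) := by positivity
    refine Real.log_injOn_pos (Set.mem_Ioi.mpr hp1) (Set.mem_Ioi.mpr hp2) ?_
    rw [Real.log_mul (by positivity) (by positivity), Real.log_pow, Real.log_pow, Real.log_pow,
      Real.log_pow, Real.log_pow]
    push_cast
    linear_combination 4 * hlog
  have h2 : (V ^ 4) ^ e = (W ^ 4) ^ e * (E : ℂ) ^ (8 * h) := by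
    rw [hV4, hW4]
    exact_mod_cast h1
  have h3 : (V ^ 4) ^ e * N ^ e = (W ^ 4) ^ e * P ^ e := by
    rw [← mul_pow, hVW, mul_pow]
  rw [h2, mul_assoc] at h3
  exact mul_left_cancel₀ (pow_ne_zero _ (pow_ne_zero _ hW)) h3

lemma integral_eps {D : ℕ} {t u : ℤ} (htu : t ^ 2 - D * u ^ 2 = 4) :
    IsIntegral ℤ (((t : ℂ) + u * rt D) / 2) := by
  refine ⟨Polynomial.X ^ 2 + (Polynomial.C (-t) * Polynomial.X + Polynomial.C 1), ?_, ?_⟩
  · refine Polynomial.monic_X_pow_add ?_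
    refine lt_of_le_of_lt (Polynomial.degree_linear_le) ?_
    norm_num
  · have h1 : ((t ^ 2 - D * u ^ 2 : ℤ) : ℂ) = 4 := by
      rw [htu]
      norm_num
    push_cast at h1
    simp only [Polynomial.eval₂_add, Polynomial.eval₂_mul, Polynomial.eval₂_pow,
      Polynomial.eval₂_X, Polynomial.eval₂_C]
    simp only [eq_intCast]
    push_cast
    linear_combination ((u : ℂ) ^ 2 / 4) * rt_sq D - h1 / 4

/-- The congruence for the unit. -/
lemma cong_unit {D : ℕ} [NeZero D] {m : ℕ} {F : ℂ} (hF : IsIntegral ℤ F) {e : ℕ}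
    (s s' : Finset (ZMod D))
    (h : F * (∏ x ∈ s', (1 - 3 * yy D m x)) ^ e = (∏ x ∈ s, (1 - 3 * yy D m x)) ^ e) :
    ∃ z, IsIntegral ℤ z ∧
      F = 1 - 3 * (e * (∑ x ∈ s, yy D m x - ∑ x ∈ s', yy D m x)) + 9 * z := by
  let Y : ZMod D → integralClosure ℤ ℂ := fun x => ⟨yy D m x, integral_yy m x⟩
  have hY : ∀ x, ((Y x : integralClosure ℤ ℂ) : ℂ) = yy D m x := fun x => rfl
  obtain ⟨a, ha⟩ := prod_cong s' Y
  obtain ⟨b, hb⟩ := prod_cong s Y
  have h1 : (⟨F, hF⟩ : integralClosure ℤ ℂ) * (∏ x ∈ s', (1 - 3 * Y x)) ^ e =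
      (∏ x ∈ s, (1 - 3 * Y x)) ^ e := by
    apply Subtype.ext
    push_cast
    simp only [hY]
    exact h
  obtain ⟨z, hz⟩ := quot_cong ha hb h1
  refine ⟨z, z.2, ?_⟩
  have h2 := congrArg (Subtype.val : integralClosure ℤ ℂ → ℂ) hz
  push_cast at h2
  simp only [hY] at h2
  exact h2

end Congaux

open Congaux

theorem stCong (hGauss : StGauss) (hLam : StLam) : StCong := by
  intro D t u h h' e hsq hD htu ht hu he hLR hLI h3
  have hD3 : D % 3 = 2 := by omega
  have hD4 : D % 4 = 1 := by omega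
  have hD1 : 1 < D := by omega
  have hodd : Odd D := Nat.odd_iff.mpr (by omega)
  have hne : NeZero D := ⟨by omega⟩
  obtain ⟨m, hm⟩ : ∃ m : ℕ, 3 * m = D + 1 := ⟨(D + 1) / 3, by omega⟩
  obtain ⟨τ, hτ2, hτ⟩ := hGauss D hodd hsq hD1
  have hneg1 : jacobiSym (-1) D = 1 := by
    rw [jacobiSym.at_neg_one hodd, ZMod.χ₄_nat_one_mod_four hD4]
  have hthree : jacobiSym 3 D = -1 := by
    have h1 := jacobiSym.quadratic_reciprocity_one_mod_four (a := D) (b := 3) hD4 (by decide)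
    have h2 : jacobiSym (D : ℤ) 3 = jacobiSym 2 3 := by
      rw [jacobiSym.mod_left]
      congr 1
      omega
    rw [h2] at h1
    have h3 : jacobiSym ((3 : ℕ) : ℤ) D = jacobiSym 3 D := by norm_num
    rw [h3] at h1
    rw [← h1]
    norm_num
  have hneg : ∀ x : ZMod D, ch D (-x) = ch D x := by
    intro x
    have h1 : -x = ((-1 : ℤ) : ZMod D) * x := by
      push_cast
      ring
    rw [h1, ch_mul, ch_int, hneg1, one_mul]
  have hmul : ∀ x : ZMod D, ch D (3 * x) = -ch D x := by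
    intro x
    have h1 : (3 : ZMod D) = ((3 : ℤ) : ZMod D) := by norm_num
    rw [h1, ch_mul, ch_int, hthree]
    ring
  -- the class number of the imaginary field
  have h0 : ∑ a ∈ Finset.range D, jacobiSym a D = 0 := by
    have h1 := hτ 0
    rw [jacobiSym.zero_left hD1] at h1
    have h2 : ((∑ a ∈ Finset.range D, jacobiSym a D : ℤ) : ℂ) = 0 := by
      rw [Int.cast_sum, ← mul_eq_zero_of_left (show ((0 : ℤ) : ℂ) = 0 from Int.cast_zero) τ, ← h1]
      refine Finset.sum_congr rfl fun a _ => ?_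
      unfold ee
      simp
    exact_mod_cast h2
  set s₁ : ℤ := ∑ i ∈ Finset.range m, jacobiSym (3 * i + 1 : ℕ) D with hs₁
  have hs : |s₁| = h' := by
    unfold LI at hLI
    rw [sum_three hD3 (by omega) hm h0, abs_neg, abs_mul] at hLI
    have h1 : |(3 * (D : ℤ))| = 3 * D := abs_of_nonneg (by positivity)
    rw [h1] at hLI
    push_cast at hLI
    exact mul_left_cancel₀ (by positivity) hLI
  have hs3 : ¬ (3 : ℤ) ∣ s₁ := by
    intro hdvd
    apply h3
    have h1 : (3 : ℤ) ∣ |s₁| := (dvd_abs _ _).mpr hdvd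
    rw [hs] at h1
    exact_mod_cast h1
  have hes : ¬ (3 : ℤ) ∣ e * s₁ := by
    intro hdvd
    rcases he with rfl | rfl
    · apply hs3
      simpa using hdvd
    · apply hs3
      push_cast at hdvd
      omega
  -- the square root
  have hτr : τ = rt D ∨ τ = -rt D := by
    apply sq_eq_sq_iff_eq_or_eq_neg.mp
    rw [hτ2, hneg1, rt_sq]
    simp
  -- the relations
  set P : ℂ := ∏ x ∈ (Finset.univ : Finset (ZMod D)).filter (fun x => ch D x = 1),
    (1 - 3 * yy D m x) with hP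
  set N : ℂ := ∏ x ∈ (Finset.univ : Finset (ZMod D)).filter (fun x => ch D x = -1),
    (1 - 3 * yy D m x) with hN
  have cV : Vs D 1 ^ 3 = Vs D (-1) * P := cube hmul hm 1
  have cW : Vs D (-1) ^ 3 = Vs D 1 * N := by
    have := cube hmul hm (-1)
    rw [neg_neg] at this
    exact this
  have hVW : Vs D 1 ^ 4 * N = Vs D (-1) ^ 4 * P := by
    linear_combination Vs D (-1) ^ 3 * cV - Vs D 1 ^ 3 * cW
  have hV0 : Vs D 1 ≠ 0 := Vs_ne hD1 one_ne_zero
  have hW0 : Vs D (-1) ≠ 0 := Vs_ne hD1 (by norm_num)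
  have hE0 : 0 < eps D t u := by
    unfold eps
    have h1 : (0 : ℝ) < t := by exact_mod_cast ht
    have h2 : (0 : ℝ) < u := by exact_mod_cast hu
    positivity
  have hEc : ((eps D t u : ℝ) : ℂ) = ((t : ℂ) + u * rt D) / 2 := by
    unfold eps rt
    push_cast
    rfl
  have hEint : IsIntegral ℤ ((((t : ℂ) + u * rt D) / 2) ^ (8 * h)) := (integral_eps htu).pow _
  have hsum := sum_yy (D := D) hτ m
  rw [← hs₁] at hsum
  have hfin : ∃ (c : ℤ) (z : ℂ), ¬ (3 : ℤ) ∣ c ∧ IsIntegral ℤ z ∧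
      (((t : ℂ) + u * rt D) / 2) ^ (8 * h) = 1 + 3 * c * rt D + 9 * z := by
    rw [LR_eq hD1] at hLR
    rcases le_total 0 (Real.log ‖Vs D 1‖ - Real.log ‖Vs D (-1)‖) with hle | hle
    · rw [abs_of_nonneg hle] at hLR
      have h1 := rel hV0 hW0 (Vs_pow hneg 1) (Vs_pow hneg (-1)) hE0 hVW hLR
      rw [hEc] at h1
      obtain ⟨z, hz, h2⟩ := cong_unit hEint _ _ h1
      rw [hsum] at h2
      rcases hτr with h4 | h4
      · refine ⟨-(e * s₁), z, fun hd => hes ((dvd_neg).mp hd), hz, ?_⟩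
        rw [h2, h4]
        push_cast
        ring
      · refine ⟨e * s₁, z, hes, hz, ?_⟩
        rw [h2, h4]
        push_cast
        ring
    · rw [abs_of_nonpos hle, neg_sub] at hLR
      have h1 := rel hW0 hV0 (Vs_pow hneg (-1)) (Vs_pow hneg 1) hE0 hVW.symm hLR
      rw [hEc] at h1
      obtain ⟨z, hz, h2⟩ := cong_unit hEint _ _ h1
      have h5 : ∑ x ∈ (Finset.univ : Finset (ZMod D)).filter (fun x => ch D x = -1), yy D m x -
          ∑ x ∈ (Finset.univ : Finset (ZMod D)).filter (fun x => ch D x = 1), yy D m x =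
          -((s₁ : ℂ) * τ) := by
        rw [← hsum]
        ring
      rw [h5] at h2
      rcases hτr with h4 | h4
      · refine ⟨e * s₁, z, hes, hz, ?_⟩
        rw [h2, h4]
        push_cast
        ring
      · refine ⟨-(e * s₁), z, fun hd => hes ((dvd_neg).mp hd), hz, ?_⟩
        rw [h2, h4]
        push_cast
        ring
  obtain ⟨c, z, hc, hz, h4⟩ := hfin
  exact final hLam hD3 htu hc hz h4

end LO

end Pool.Agent.Lib.MP_7c5fb9_nt
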