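import Pool.Agent.Lib.MP_7c5fb9_nt.LO.Stmts

set_option autoImplicit false

/-!
# Level one: the number of fields
-/

namespace Pool.Agent.Lib.MP_7c5fb9_nt

namespace LO

open BKDH

namespace Cnt

theorem mem_map {X Δ : ℕ} (h : Δ ≤ 3 * X ∧ IsFund Δ ∧ Δ % 4 ∈ ({3} : Finset ℕ) ∧
    Δ % 9 ∈ ({6} : Finset ℕ) ∧ NoThree Δ) :
    Δ / 3 ≤ X ∧ Squarefree (Δ / 3) ∧ (Δ / 3) % 12 = 5 ∧ NoThree (3 * (Δ / 3)) := by
  obtain ⟨h1, h2, h3, h4, h5⟩ := h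
  rw [Finset.mem_singleton] at h3 h4
  have e : 3 * (Δ / 3) = Δ := by omega
  refine ⟨by omega, ?_, by omega, by rw [e]; exact h5⟩
  rw [Nat.squarefree_iff_prime_squarefree]
  intro p hp hd
  have hd' : p ^ 2 ∣ Δ := by
    rw [← e, sq]
    exact Dvd.dvd.mul_left hd 3
  by_cases h : p = 2
  · subst h
    have : (4 : ℕ) ∣ Δ := by simpa using hd'
    omega
  · exact h2.2 p hp h hd'

end Cnt

/-- (Count) the number of fields. -/
theorem stCount : StCount := by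
  intro ε hε
  set e : ℝ := min (ε / 3) (1 / 4) with he
  have he0 : 0 < e := lt_min (by positivity) (by norm_num)
  have he1 : e ≤ ε / 3 := min_le_left _ _
  have he2 : e ≤ 1 / 4 := min_le_right _ _
  obtain ⟨X₀, hX₀⟩ := locHalf (locTwo_cls (M := 4) (r := 3) (Or.inl ⟨rfl, rfl⟩))
    (locThree_ram (r := 6) (Or.inr rfl)) (Finset.singleton_nonempty _)
    (Finset.singleton_nonempty _) e he0
  refine ⟨X₀, fun X hX => ?_⟩
  obtain ⟨h1, h2⟩ := hX₀ (3 * X) (by omega)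
  have hX0 : (0 : ℝ) ≤ X := Nat.cast_nonneg X
  have hpi : 0 < Real.pi := Real.pi_pos
  have hpi3 : 3 < Real.pi := Real.pi_gt_three
  have hc : ({Δ : ℕ | Δ ≤ 3 * X ∧ IsFund Δ ∧ Δ % 4 ∈ ({3} : Finset ℕ) ∧
      Δ % 9 ∈ ({6} : Finset ℕ) ∧ NoThree Δ}.ncard : ℝ) ≤
      ({D : ℕ | D ≤ X ∧ Squarefree D ∧ D % 12 = 5 ∧ NoThree (3 * D)}.ncard : ℝ) := by
    norm_cast
    refine Set.ncard_le_ncard_of_injOn (fun Δ => Δ / 3) (fun Δ hΔ => Cnt.mem_map hΔ) ?_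
      ((Set.finite_Iic X).subset fun D h => h.1)
    intro a ha b hb hab
    have h3 := ha.2.2.2.1
    have h4 := hb.2.2.2.1
    rw [Finset.mem_singleton] at h3 h4
    simp only at hab
    omega
  refine le_trans ?_ hc
  refine le_trans ?_ h2
  have h3 : (1 / 2 - e) * ((9 * (({3} : Finset ℕ).card : ℝ) * (({6} : Finset ℕ).card : ℝ) /
      ((4 : ℕ) * (9 : ℕ) * Real.pi ^ 2) - e) * ((3 * X : ℕ) : ℝ)) ≤
      (1 / 2 - e) * ({Δ : ℕ | Δ ≤ 3 * X ∧ IsFund Δ ∧ Δ % 4 ∈ ({3} : Finset ℕ) ∧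
        Δ % 9 ∈ ({6} : Finset ℕ)}.ncard : ℝ) :=
    mul_le_mul_of_nonneg_left h1 (by linarith)
  refine le_trans ?_ h3
  rw [Finset.card_singleton, Finset.card_singleton]
  have e1 : (9 * ((1 : ℕ) : ℝ) * ((1 : ℕ) : ℝ) / ((4 : ℕ) * (9 : ℕ) * Real.pi ^ 2)) =
      1 / (4 * Real.pi ^ 2) := by
    push_cast
    field_simp
  have e2 : (3 / (8 * Real.pi ^ 2)) = 3 * (1 / 2) * (1 / (4 * Real.pi ^ 2)) := by
    field_simp
    norm_num
  rw [e1, e2]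
  set c : ℝ := 1 / (4 * Real.pi ^ 2) with hcdef
  have hc0 : 0 < c := by positivity
  have hc1 : c ≤ 1 / 36 := by
    rw [hcdef]
    apply one_div_le_one_div_of_le (by norm_num)
    nlinarith
  have e3 : (1 / 2 - e) * ((c - e) * ((3 * X : ℕ) : ℝ)) = (3 * ((1 / 2 - e) * (c - e))) * X := by
    push_cast
    ring
  rw [e3]
  apply mul_le_mul_of_nonneg_right _ hX0
  nlinarith

end LO

end Pool.Agent.Lib.MP_7c5fb9_nt
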