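import Pool.Agent.Lib.MP_7c5fb9_nt.LO.Basic
import Pool.Agent.Lib.MP_7c08ba_nt.RZ.W12

set_option autoImplicit false

/-!
# Level one (MP_7c5fb9_nt, project LO): the criterion
-/

namespace Pool.Agent.Lib.MP_7c5fb9_nt

namespace LO

open Pool.Agent.Lib.MP_7c08ba_nt.RZ UpperHalfPlane
open scoped MatrixGroups nonZeroDivisors

/-- The discriminant of a form attached to an ideal class of a quadratic field is not a square. -/
theorem not_isSquare_of_formOf {K : Type} [Field K] [NumberField K]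
    (hK : Module.finrank ℚ K = 2) {c : ClassGroup (NumberField.RingOfIntegers K)} {Q : Frm}
    (hQ : FormOf c Q) : ¬ IsSquare (disc Q) := by
  rintro ⟨s, hs⟩
  obtain ⟨hQ0, I, x, y, -, hI, hnorm⟩ := hQ
  have hI0 : (Ideal.absNorm (I : Ideal (NumberField.RingOfIntegers K))) ≠ 0 :=
    Ideal.absNorm_ne_zero_of_nonZeroDivisors I
  have hI0' : ((Ideal.absNorm (I : Ideal (NumberField.RingOfIntegers K)) : ℕ) : ℤ) ≠ 0 := by
    exact_mod_cast hI0
  have hx : x ≠ 0 := by
    intro hx0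
    have h1 := hnorm 1 0
    rw [hx0] at h1
    simp only [Int.cast_one, mul_zero, Int.cast_zero, zero_mul, add_zero, one_pow, mul_one,
      ne_eq, OfNat.ofNat_ne_zero, not_false_eq_true, zero_pow] at h1
    rw [Algebra.norm_zero] at h1
    rcases mul_eq_zero.1 h1.symm with h2 | h2
    · exact hI0' h2
    · omega
  obtain ⟨m, hm⟩ : ∃ m : ℤ, m = s - Q 1 := ⟨_, rfl⟩
  obtain ⟨n, hn⟩ : ∃ n : ℤ, n = 2 * Q 0 := ⟨_, rfl⟩
  have hn0 : n ≠ 0 := by omega
  have h0 : (m : NumberField.RingOfIntegers K) * x + (n : NumberField.RingOfIntegers K) * y =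
      0 := by
    rw [← Algebra.norm_eq_zero_iff (R := ℤ), hnorm]
    have h1 : Q 0 * m ^ 2 + Q 1 * (m * n) + Q 2 * n ^ 2 = 0 := by
      have h2 : Q 1 ^ 2 - 4 * Q 0 * Q 2 = s * s := hs
      rw [hm, hn]
      linear_combination -(Q 0) * h2
    rw [h1, mul_zero]
  have hnO : (n : NumberField.RingOfIntegers K) ≠ 0 := by exact_mod_cast hn0
  have hz : ∀ z : NumberField.RingOfIntegers K,
      ∃ a : ℤ, (n : NumberField.RingOfIntegers K) * z = a := by
    intro z
    have hzx : z * x ∈ (I : Ideal (NumberField.RingOfIntegers K)) :=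
      Ideal.mul_mem_left _ _ ((hI x).2 ⟨1, 0, by simp⟩)
    obtain ⟨m', n', h⟩ := (hI _).1 hzx
    refine ⟨n * m' - m * n', mul_right_cancel₀ hx ?_⟩
    push_cast
    linear_combination (n : NumberField.RingOfIntegers K) * h +
      (n' : NumberField.RingOfIntegers K) * h0
  have hbot : (⊥ : Subalgebra ℚ K) = ⊤ := by
    rw [eq_top_iff]
    intro κ _
    obtain ⟨a, b, hb, rfl⟩ := IsFractionRing.div_surjective (A := NumberField.RingOfIntegers K) κ
    obtain ⟨a', ha'⟩ := hz a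
    obtain ⟨b', hb'⟩ := hz b
    rw [Algebra.mem_bot]
    refine ⟨(a' : ℚ) / b', ?_⟩
    have hb0 : b ≠ 0 := nonZeroDivisors.ne_zero hb
    have ha1 : algebraMap (NumberField.RingOfIntegers K) K n *
        algebraMap (NumberField.RingOfIntegers K) K a = (a' : K) := by
      rw [← map_mul, ha', map_intCast]
    have hb1 : algebraMap (NumberField.RingOfIntegers K) K n *
        algebraMap (NumberField.RingOfIntegers K) K b = (b' : K) := by
      rw [← map_mul, hb', map_intCast]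
    have hn1 : algebraMap (NumberField.RingOfIntegers K) K n ≠ 0 := by
      rw [map_intCast]
      exact_mod_cast hn0
    rw [map_div₀, map_intCast, map_intCast, ← ha1, ← hb1, mul_div_mul_left _ _ hn1]
  have h1 := Subalgebra.bot_eq_top_iff_finrank_eq_one.1 hbot
  omega

/-- (Crit) the criterion for the non-vanishing of toric periods. -/
theorem stCrit (hRed : StRed) (hPsiC : StPsiC) (hCocyc : StCocyc) (hPell : StPell)
    (hForm : StForm) : StCrit := by
  intro k w f hk hw hf K _ _ hK hpos hd3 hh hlam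
  obtain ⟨h12, -⟩ := stW12 w f hf
  have hk1 : 1 ≤ k := by omega
  obtain ⟨D, hD⟩ : ∃ D : ℕ, NumberField.discr K = D :=
    ⟨(NumberField.discr K).toNat, by omega⟩
  obtain ⟨⟨q, hq⟩, hdisc⟩ := hForm K hK hpos
  have hns : ¬ IsSquare D := by
    rintro ⟨r, hr⟩
    apply not_isSquare_of_formOf hK (hq 1)
    rw [hdisc 1 (q 1) (hq 1), hD, hr]
    exact ⟨(r : ℤ), by push_cast; ring⟩
  obtain ⟨t₀, u₀, hF₀⟩ := hPell D hns
  refine ⟨D, hD, ⟨t₀, u₀, hF₀⟩, ⟨q, hq⟩, ?_⟩
  intro t u q' hF hq' h0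
  obtain ⟨N, θ, hN⟩ := hRed k w f hk hw hf
  have hdc : ∀ c, disc (q' c) = D := fun c => by rw [hdisc c _ (hq' c), hD]
  have hD3 : (D : ℤ) % 3 = 2 := by rw [← hD]; exact hd3
  have hD3' : D % 3 = 2 := by omega
  have hDpos : 0 < D := by omega
  have hdet : ∀ c, (aut (q' c) t u).det = 1 := fun c => det_aut (hdc c) hF.eq
  have hNc : ∀ c, ∃ h : Psi k f (aut (q' c) t u) (q' c) ∈ N,
      θ ⟨Psi k f (aut (q' c) t u) (q' c), h⟩ = psi (aut (q' c) t u) (q' c) := fun c =>
    hN _ _ (hdet c) (by rw [hdc c]; exact hD3)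
  choose hmem hθ using hNc
  have hsum : ∑ c, (⟨Psi k f (aut (q' c) t u) (q' c), hmem c⟩ : N) = 0 := by
    apply Subtype.ext
    rw [AddSubmonoidClass.coe_finsetSum]
    simp only [ZeroMemClass.coe_zero]
    rw [← h0, torPer]
    refine Finset.sum_congr rfl fun c _ => ?_
    exact (hPsiC k w f hk1 hw).2.2.2.2.2.2.2.2 D t u (q' c) (hdc c) hDpos (hq' c).1 hF.eq hF.pt
      hF.pu
  have h1 := congrArg θ hsum
  rw [map_sum, map_zero] at h1
  have h2 : ∀ c, θ ⟨Psi k f (aut (q' c) t u) (q' c), hmem c⟩ = -lam D t u := fun c => by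
    rw [hθ c, hCocyc.2.2.2.2 D t u (q' c) (hdc c) hD3' hF.eq]
  simp only [h2, Finset.sum_const, Finset.card_univ, nsmul_eq_mul] at h1
  rcases mul_eq_zero.1 h1 with h3 | h3
  · apply hh
    rw [Nat.card_eq_fintype_card]
    exact (ZMod.natCast_eq_zero_iff _ _).1 h3
  · exact hlam D t u hD hF (neg_eq_zero.1 h3)

end LO

end Pool.Agent.Lib.MP_7c5fb9_nt
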