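import Pool.Agent.Lib.MP_7c5fb9_nt.LO.Stmts

set_option autoImplicit false

/-!
# Level one (MP_7c5fb9_nt, project LO): cycle integrals are values of the cocycle
-/

namespace Pool.Agent.Lib.MP_7c5fb9_nt

namespace LO

open Pool.Agent.Lib.MP_7c08ba_nt.RZ UpperHalfPlane Filter Topology
open scoped MatrixGroups Polynomial nonZeroDivisors

namespace CycAux

/-- The algebra of the automorph. -/
lemma aut_data {D : ℕ} {t u : ℤ} {Q : Frm} (hD : disc Q = D) (h : t ^ 2 - D * u ^ 2 = 4) :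
    ∃ a : ℤ, t = 2 * a + Q 1 * u ∧ a ^ 2 + Q 1 * a * u + Q 0 * Q 2 * u ^ 2 = 1 ∧
      aut Q t u = !![a, -Q 2 * u; Q 0 * u, a + Q 1 * u] := by
  have hD' : (D : ℤ) = Q 1 ^ 2 - 4 * Q 0 * Q 2 := by rw [← hD, disc]
  rw [hD'] at h
  have hpar : (2 : ℤ) ∣ t - Q 1 * u := by
    have h1 : Even (t ^ 2 - (Q 1 * u) ^ 2) := ⟨2 - 2 * Q 0 * Q 2 * u ^ 2, by linarith⟩
    have h2 : Even (t - Q 1 * u) := by
      rw [Int.even_sub, Int.even_pow' two_ne_zero, Int.even_pow' two_ne_zero] at h1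
      rw [Int.even_sub]
      exact h1
    exact h2.two_dvd
  obtain ⟨a, ha⟩ := hpar
  have ht : t = 2 * a + Q 1 * u := by linarith
  refine ⟨a, ht, ?_, ?_⟩
  · rw [ht] at h
    linarith
  · have h1 : (t - Q 1 * u) / 2 = a := by omega
    have h2 : (t + Q 1 * u) / 2 = a + Q 1 * u := by
      have : t + Q 1 * u = 2 * (a + Q 1 * u) := by rw [ht]; ring
      omega
    unfold aut
    rw [h1, h2]

lemma aut_det {D : ℕ} {t u : ℤ} {Q : Frm} (hD : disc Q = D) (h : t ^ 2 - D * u ^ 2 = 4) :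
    (aut Q t u).det = 1 := by
  obtain ⟨a, _, h1, h2⟩ := aut_data hD h
  rw [h2, Matrix.det_fin_two_of]
  linarith

lemma act_aut {D : ℕ} {t u : ℤ} {Q : Frm} (hD : disc Q = D) (h : t ^ 2 - D * u ^ 2 = 4) :
    act Q (aut Q t u) = Q := by
  obtain ⟨a, _, h1, h2⟩ := aut_data hD h
  rw [h2]
  funext i
  fin_cases i
  · simp only [act, Matrix.of_apply, Matrix.cons_val', Matrix.cons_val_zero,
      Matrix.cons_val_one, Matrix.cons_val_fin_one, Fin.zero_eta]
    linear_combination Q 0 * h1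
  · simp only [act, Matrix.of_apply, Matrix.cons_val', Matrix.cons_val_zero,
      Matrix.cons_val_one, Matrix.cons_val_fin_one, Fin.mk_one]
    linear_combination Q 1 * h1
  · simp only [act, Matrix.of_apply, Matrix.cons_val', Matrix.cons_val_zero,
      Matrix.cons_val_one, Matrix.cons_val_fin_one, Fin.reduceFinMk, Matrix.cons_val]
    linear_combination Q 2 * h1

/-- The larger root. -/
noncomputable def rA (Q : Frm) : ℝ := (-(Q 1 : ℝ) + Real.sqrt (disc Q)) / (2 * Q 0)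

/-- The smaller root. -/
noncomputable def rB (Q : Frm) : ℝ := (-(Q 1 : ℝ) - Real.sqrt (disc Q)) / (2 * Q 0)

lemma geo_eq (Q : Frm) (θ : ℝ) : geo Q θ =
    ((rA Q : ℂ) * (Complex.I * Real.exp θ) + rB Q) / (Complex.I * Real.exp θ + 1) := rfl

lemma den_ne (x : ℝ) : Complex.I * (x : ℂ) + 1 ≠ 0 := by
  intro h
  have := congrArg Complex.re h
  simp at this

lemma rB_lt_rA {Q : Frm} (hD : 0 < disc Q) (hQ : 0 < Q 0) : rB Q < rA Q := by
  unfold rA rB
  have h1 : (0 : ℝ) < 2 * Q 0 := by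
    have : (0 : ℝ) < Q 0 := by exact_mod_cast hQ
    linarith
  have h2 : 0 < Real.sqrt (disc Q) := Real.sqrt_pos.mpr (by exact_mod_cast hD)
  apply div_lt_div_of_pos_right _ h1
  linarith

lemma geo_im {Q : Frm} (hD : 0 < disc Q) (hQ : 0 < Q 0) (θ : ℝ) : 0 < (geo Q θ).im := by
  have hx : 0 < Real.exp θ := Real.exp_pos θ
  set x := Real.exp θ with hxd
  have h1 : (geo Q θ).im = x * (rA Q - rB Q) / (x ^ 2 + 1) := by
    rw [geo_eq, ← hxd, Complex.div_im]
    simp only [Complex.add_re, Complex.add_im, Complex.mul_re, Complex.mul_im, Complex.ofReal_re,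
      Complex.ofReal_im, Complex.I_re, Complex.I_im, Complex.one_re, Complex.one_im,
      Complex.normSq_apply]
    field_simp
    ring
  rw [h1]
  have := rB_lt_rA hD hQ
  have h2 : 0 < rA Q - rB Q := by linarith
  positivity

lemma hasDerivAt_geo (Q : Frm) (θ : ℝ) :
    HasDerivAt (geo Q) (((rA Q - rB Q : ℝ) : ℂ) * (Complex.I * Real.exp θ) /
      (Complex.I * Real.exp θ + 1) ^ 2) θ := by
  have h0 : HasDerivAt (fun θ : ℝ => ((Real.exp θ : ℝ) : ℂ)) ((Real.exp θ : ℝ) : ℂ) θ :=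
    (Real.hasDerivAt_exp θ).ofReal_comp
  have h1 : HasDerivAt (fun θ : ℝ => Complex.I * ((Real.exp θ : ℝ) : ℂ))
      (Complex.I * ((Real.exp θ : ℝ) : ℂ)) θ := h0.const_mul Complex.I
  have h2 : HasDerivAt (fun θ : ℝ => (rA Q : ℂ) * (Complex.I * ((Real.exp θ : ℝ) : ℂ)) + rB Q)
      ((rA Q : ℂ) * (Complex.I * ((Real.exp θ : ℝ) : ℂ))) θ := (h1.const_mul (rA Q : ℂ)).add_const _
  have h3 : HasDerivAt (fun θ : ℝ => Complex.I * ((Real.exp θ : ℝ) : ℂ) + 1)
      (Complex.I * ((Real.exp θ : ℝ) : ℂ)) θ := h1.add_const _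
  have h4 := h2.div h3 (den_ne _)
  have h5 : geo Q = fun θ : ℝ => ((rA Q : ℂ) * (Complex.I * ((Real.exp θ : ℝ) : ℂ)) + rB Q) /
      (Complex.I * ((Real.exp θ : ℝ) : ℂ) + 1) := by
    funext θ
    exact geo_eq Q θ
  rw [h5]
  refine h4.congr_deriv ?_
  congr 1
  push_cast
  ring

lemma continuous_geo (Q : Frm) : Continuous (geo Q) :=
  continuous_iff_continuousAt.mpr fun θ => (hasDerivAt_geo Q θ).continuousAt

lemma continuous_deriv_geo (Q : Frm) : Continuous (deriv (geo Q)) := by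
  have h : deriv (geo Q) = fun θ : ℝ => ((rA Q - rB Q : ℝ) : ℂ) *
      (Complex.I * ((Real.exp θ : ℝ) : ℂ)) / (Complex.I * ((Real.exp θ : ℝ) : ℂ) + 1) ^ 2 := by
    funext θ
    exact (hasDerivAt_geo Q θ).deriv
  rw [h]
  have h1 : Continuous fun θ : ℝ => Complex.I * ((Real.exp θ : ℝ) : ℂ) :=
    continuous_const.mul (Complex.continuous_ofReal.comp Real.continuous_exp)
  exact (continuous_const.mul h1).div ((h1.add continuous_const).pow 2)
    (fun θ => pow_ne_zero _ (den_ne _))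

lemma eval_pw (k : ℕ) (Q : Frm) (z : ℂ) : (pw k Q).eval z = qv Q z ^ (k - 1) := by
  unfold pw qv
  simp

lemma natDegree_pw {k w : ℕ} (hk : 1 ≤ k) (hw : w = 2 * k) (Q : Frm) :
    (pw k Q).natDegree < w := by
  unfold pw
  have h1 : (Polynomial.C (Q 0 : ℂ) * Polynomial.X ^ 2 + Polynomial.C (Q 1 : ℂ) * Polynomial.X +
      Polynomial.C (Q 2 : ℂ)).natDegree ≤ 2 := Polynomial.natDegree_quadratic_le
  have h2 := Polynomial.natDegree_pow_le_of_le (k - 1) h1
  omega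

lemma roots_eq {Q : Frm} (hD : 0 < disc Q) (hQ : 0 < Q 0) :
    (Q 0 : ℝ) * rA Q ^ 2 + Q 1 * rA Q + Q 2 = 0 ∧ (Q 0 : ℝ) * rB Q ^ 2 + Q 1 * rB Q + Q 2 = 0 := by
  have h1 : (Q 0 : ℝ) ≠ 0 := by
    have : (0 : ℝ) < Q 0 := by exact_mod_cast hQ
    exact this.ne'
  have h2 : Real.sqrt (disc Q) ^ 2 = (Q 1 : ℝ) ^ 2 - 4 * Q 0 * Q 2 := by
    rw [Real.sq_sqrt (by exact_mod_cast hD.le), disc]
    push_cast
    ring
  unfold rA rB
  constructor
  · field_simp
    linear_combination h2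
  · field_simp
    linear_combination h2

end CycAux

open CycAux in
theorem stCyc (hPrim : StPrim) (hCoc : StCoc) : StCyc := by
  intro k w f hk hw D t u Q hD hD0 hQ0 htu ht hu
  have hdisc : 0 < disc Q := by rw [hD]; exact_mod_cast hD0
  obtain ⟨hP, -⟩ := hPrim w f (pw k Q) (natDegree_pw hk hw Q)
  have hderiv : ∀ θ : ℝ, HasDerivAt (fun θ : ℝ => Gp f (pw k Q) (geo Q θ))
      (f (ofComplex (geo Q θ)) * qv Q (geo Q θ) ^ (k - 1) * deriv (geo Q) θ) θ := by
    intro θ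
    have h1 := hP (geo Q θ) (geo_im hdisc hQ0 θ)
    rw [eval_pw] at h1
    have h2 : HasDerivAt (geo Q) (deriv (geo Q) θ) θ := by
      rw [(hasDerivAt_geo Q θ).deriv]
      exact hasDerivAt_geo Q θ
    exact h1.comp_of_eq θ h2 rfl
  have hfc : Continuous fun θ : ℝ => f (ofComplex (geo Q θ)) := by
    have h1 : Continuous fun τ : ℍ => f τ := (CuspFormClass.holo f).continuous
    have h2 : Continuous fun θ : ℝ => (⟨geo Q θ, geo_im hdisc hQ0 θ⟩ : ℍ) :=
      (continuous_geo Q).upperHalfPlaneMk (fun θ => geo_im hdisc hQ0 θ)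
    have h3 := h1.comp h2
    refine h3.congr ?_
    intro θ
    simp only [Function.comp]
    rw [ofComplex_apply_of_im_pos (geo_im hdisc hQ0 θ)]
  have hcont : Continuous fun θ : ℝ =>
      f (ofComplex (geo Q θ)) * qv Q (geo Q θ) ^ (k - 1) * deriv (geo Q) θ := by
    have h1 : Continuous fun θ : ℝ => qv Q (geo Q θ) := by
      unfold qv
      have := continuous_geo Q
      fun_prop
    exact (hfc.mul (h1.pow _)).mul (continuous_deriv_geo Q)
  unfold cyc
  rw [intervalIntegral.integral_eq_sub_of_hasDerivAt (fun θ _ => hderiv θ)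
    (hcont.intervalIntegrable _ _)]
  have hdet := aut_det hD htu
  have hact := act_aut hD htu
  have hco := (hCoc k w f hk hw).1 (aut Q t u) Q (geo Q 0) hdet (geo_im hdisc hQ0 0)
  rw [hact] at hco
  rw [← hco]
  congr 2
  -- the action of the automorph on the geodesic
  obtain ⟨a, hta, h1, h2⟩ := aut_data hD htu
  have hDr : (disc Q : ℝ) = D := by rw [hD]; simp
  set d : ℝ := Real.sqrt D with hd
  have hd2 : d ^ 2 = D := Real.sq_sqrt (by positivity)
  have hdpos : 0 < d := Real.sqrt_pos.mpr (by exact_mod_cast hD0)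
  have htr : (0 : ℝ) < t := by exact_mod_cast ht
  have hur : (0 : ℝ) < u := by exact_mod_cast hu
  set E : ℝ := eps D t u with hE
  have hEpos : 0 < E := by
    rw [hE, eps]
    positivity
  set E' : ℝ := (t - u * d) / 2 with hE'
  have hEE : E * E' = 1 := by
    rw [hE, eps, hE', ← hd]
    have h3 : (t : ℝ) ^ 2 - D * u ^ 2 = 4 := by exact_mod_cast htu
    linear_combination (1 / 4 : ℝ) * h3 - (u : ℝ) ^ 2 / 4 * hd2
  have hexp : Real.exp (2 * Real.log E) = E ^ 2 := by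
    rw [two_mul, Real.exp_add, Real.exp_log hEpos, sq]
  have hQr : (Q 0 : ℝ) ≠ 0 := by
    have : (0 : ℝ) < Q 0 := by exact_mod_cast hQ0
    exact this.ne'
  obtain ⟨hrA, hrB⟩ := roots_eq hdisc hQ0
  have htar : (t : ℝ) = 2 * a + Q 1 * u := by exact_mod_cast hta
  have hA1 : (Q 0 : ℝ) * u * rA Q + (a + Q 1 * u) = E := by
    rw [hE, eps, rA, hDr, ← hd, htar]
    field_simp
    ring
  have hB1 : (Q 0 : ℝ) * u * rB Q + (a + Q 1 * u) = E' := by
    rw [hE', rB, hDr, ← hd, htar]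
    field_simp
    ring
  have hA2 : (a : ℝ) * rA Q - Q 2 * u = rA Q * E := by
    rw [← hA1]
    linear_combination (-(u : ℝ)) * hrA
  have hB2 : (a : ℝ) * rB Q - Q 2 * u = rB Q * E' := by
    rw [← hB1]
    linear_combination (-(u : ℝ)) * hrB
  have hA1c : (Q 0 : ℂ) * u * rA Q + (a + Q 1 * u) = (E : ℂ) := by exact_mod_cast hA1
  have hB1c : (Q 0 : ℂ) * u * rB Q + (a + Q 1 * u) = (E' : ℂ) := by exact_mod_cast hB1
  have hA2c : (a : ℂ) * rA Q - Q 2 * u = (rA Q : ℂ) * E := by exact_mod_cast hA2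
  have hB2c : (a : ℂ) * rB Q - Q 2 * u = (rB Q : ℂ) * E' := by exact_mod_cast hB2
  have hEEc : (E : ℂ) * E' = 1 := by exact_mod_cast hEE
  have hE0 : (E : ℂ) ≠ 0 := by exact_mod_cast hEpos.ne'
  have hI1 : Complex.I + 1 ≠ 0 := by
    have := den_ne 1
    simpa using this
  rw [geo_eq, geo_eq, hexp, h2, mb]
  simp only [Matrix.of_apply, Matrix.cons_val', Matrix.cons_val_zero, Matrix.cons_val_one,
    Matrix.cons_val_fin_one, Real.exp_zero, Complex.ofReal_one, mul_one]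
  have hnum : (a : ℂ) * (((rA Q : ℂ) * Complex.I + rB Q) / (Complex.I + 1)) +
      ((-Q 2 * u : ℤ) : ℂ) = ((rA Q : ℂ) * E * Complex.I + rB Q * E') / (Complex.I + 1) := by
    rw [← hA2c, ← hB2c]
    push_cast
    field_simp
    ring
  have hden : ((Q 0 * u : ℤ) : ℂ) * (((rA Q : ℂ) * Complex.I + rB Q) / (Complex.I + 1)) +
      ((a + Q 1 * u : ℤ) : ℂ) = ((E : ℂ) * Complex.I + E') / (Complex.I + 1) := by
    rw [← hA1c, ← hB1c]
    push_cast
    field_simp
    ring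
  rw [hnum, hden, div_div_div_cancel_right₀ hI1]
  have hden2 : (E : ℂ) * Complex.I + E' ≠ 0 := by
    intro h
    have h3 := congrArg Complex.im h
    simp at h3
    exact hEpos.ne' h3
  have hden3 : Complex.I * ((E ^ 2 : ℝ) : ℂ) + 1 ≠ 0 := den_ne _
  rw [div_eq_div_iff hden3 hden2]
  push_cast
  linear_combination ((rA Q : ℂ) * Complex.I * (E : ℂ) - (rB Q : ℂ) * Complex.I * (E : ℂ)) * hEEc

end LO

end Pool.Agent.Lib.MP_7c5fb9_nt
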