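import Pool.Agent.Lib.MP_7c5fb9_nt.LO.ExBase

set_option autoImplicit false

/-! (Ex) the Hecke operator at two. -/

namespace Pool.Agent.Lib.MP_7c5fb9_nt

namespace LO

namespace ExAux

set_option maxRecDepth 100000 in
theorem T2_g0 : TL L2 g0 = 0 := (nice_g0.TL L2 det_L2).ext0 (by decide +kernel)

set_option maxRecDepth 100000 in
theorem T2_u4 : TL L2 u4 = 0 := (nice_u4.TL L2 det_L2).ext0 (by decide +kernel)

end ExAux

end LO

end Pool.Agent.Lib.MP_7c5fb9_nt
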