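import Pool.Agent.Lib.MP_7c5fb9_nt.LO.ExBase

set_option autoImplicit false

/-! (Ex) the Hecke operator at seven. -/

namespace Pool.Agent.Lib.MP_7c5fb9_nt

namespace LO

namespace ExAux

set_option maxRecDepth 100000 in
theorem T7_fin : ∀ b c : Fin 27, disc ![1, ((b : ℕ) : ℤ), ((c : ℕ) : ℤ)] % 3 = 2 →
    TL L7 u4 ![1, ((b : ℕ) : ℤ), ((c : ℕ) : ℤ)] + (u4 ![1, ((b : ℕ) : ℤ), ((c : ℕ) : ℤ)] +
      2 * g0 ![1, ((b : ℕ) : ℤ), ((c : ℕ) : ℤ)]) = 0 := by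
  decide +kernel

end ExAux

end LO

end Pool.Agent.Lib.MP_7c5fb9_nt
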