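import Pool.Agent.Lib.MP_7c5fb9_nt.LO.ExP
import Pool.Agent.Lib.MP_7c5fb9_nt.LO.ExT2
import Pool.Agent.Lib.MP_7c5fb9_nt.LO.ExT7

set_option autoImplicit false

/-! (Ex) the two functions: final assembly. -/

namespace Pool.Agent.Lib.MP_7c5fb9_nt

namespace LO

namespace ExAux

theorem T7_u4 : TL L7 u4 = (2 : ZMod 3) • u4 + g0 := by
  have h := ((nice_u4.TL L7 det_L7).add (nice_u4.add (nice_g0.smul 2))).ext0 T7_fin
  funext Q
  have h1 := congrFun h Q
  simp only [Pi.zero_apply] at h1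
  have h3 : (3 : ZMod 3) = 0 := by decide
  simp only [Pi.add_apply, Pi.smul_apply, smul_eq_mul]
  linear_combination h1 - (u4 Q + g0 Q) * h3

theorem g0_ne : g0 ≠ 0 := by
  intro h
  have h1 := congrFun h ![1, 1, 2]
  revert h1
  decide +kernel

end ExAux

open ExAux in
theorem stEx : StEx := ⟨pf_g0, pf_u4, g0_ne, T2_g0, T2_u4, T7_u4⟩

end LO

end Pool.Agent.Lib.MP_7c5fb9_nt
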