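import Mathlib
import Pool.Agent.Lib.MP_7c5fb9_nt.LO.Stmts
import Pool.Agent.Lib.MP_7c5fb9_nt.TOR.Fin

set_option autoImplicit false

/-! Finiteness and `3`-adic continuity of the odd cocycle. -/

namespace Pool.Agent.Lib.MP_7c5fb9_nt

namespace LO

open Pool.Agent.Lib.MP_7c08ba_nt.RZ UpperHalfPlane
open scoped MatrixGroups Polynomial

namespace FinX

/-- The integral polynomial. -/
noncomputable def pz (k : ℕ) (Q : Frm) : ℤ[X] :=
  (Polynomial.C (Q 0) * Polynomial.X ^ 2 + Polynomial.C (Q 1) * Polynomial.X +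
    Polynomial.C (Q 2)) ^ (k - 1)

theorem pw_eq (k : ℕ) (Q : Frm) : pw k Q = (pz k Q).map (Int.castRingHom ℂ) := by
  unfold pw pz
  simp [Polynomial.map_pow]

theorem coeff_pw (k : ℕ) (Q : Frm) (m : ℕ) : (pw k Q).coeff m = ((pz k Q).coeff m : ℂ) := by
  rw [pw_eq, Polynomial.coeff_map]
  rfl

theorem coeff_congr (k n : ℕ) {Q Q' : Frm} (h : ∀ i, (3 ^ n : ℤ) ∣ Q i - Q' i) (m : ℕ) :
    (3 ^ n : ℤ) ∣ (pz k Q).coeff m - (pz k Q').coeff m := by
  have h1 : ∀ i, ((Q i : ℤ) : ZMod (3 ^ n)) = (Q' i : ZMod (3 ^ n)) := by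
    intro i
    have h2 := (ZMod.intCast_zmod_eq_zero_iff_dvd (Q i - Q' i) (3 ^ n)).2 (by exact_mod_cast h i)
    push_cast at h2
    exact sub_eq_zero.1 h2
  have h2 : (pz k Q).map (Int.castRingHom (ZMod (3 ^ n))) =
      (pz k Q').map (Int.castRingHom (ZMod (3 ^ n))) := by
    have h1' : ∀ i, Int.castRingHom (ZMod (3 ^ n)) (Q i) = Int.castRingHom (ZMod (3 ^ n)) (Q' i) :=
      h1
    unfold pz
    simp only [Polynomial.map_pow, Polynomial.map_add, Polynomial.map_mul, Polynomial.map_C,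
      Polynomial.map_X, h1']
  have h3 := congrArg (fun p => Polynomial.coeff p m) h2
  simp only [Polynomial.coeff_map, eq_intCast] at h3
  have h4 := (ZMod.intCast_zmod_eq_zero_iff_dvd ((pz k Q).coeff m - (pz k Q').coeff m)
    (3 ^ n)).1 (by push_cast; rw [h3, sub_self])
  exact_mod_cast h4

theorem mb_neg (M : Mat) (z : ℂ) : mb (-M) z = mb M z := by
  unfold mb
  simp only [Matrix.neg_apply, Int.cast_neg]
  rw [show -(M 0 0 : ℂ) * z + -(M 0 1 : ℂ) = -((M 0 0 : ℂ) * z + M 0 1) by ring,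
    show -(M 1 0 : ℂ) * z + -(M 1 1 : ℂ) = -((M 1 0 : ℂ) * z + M 1 1) by ring, neg_div_neg_eq]

theorem act_neg (Q : Frm) (M : Mat) : act Q (-M) = act Q M := by
  unfold act
  simp only [Matrix.neg_apply]
  ext i
  fin_cases i <;> simp

theorem phi_neg {w : ℕ} (k : ℕ) (f : CuspForm 𝒮ℒ (w : ℤ)) (M : Mat) (Q : Frm) :
    Phi k f (-M) Q = Phi k f M Q := by
  unfold Phi
  rw [mb_neg, act_neg]

theorem eSe : mE * mS * mE = -mS := by
  unfold mE mS
  ext i j
  fin_cases i <;> fin_cases j <;> simp [Matrix.mul_apply, Fin.sum_univ_two]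

/-- The integral coefficients of the odd cocycle. -/
noncomputable def zc (k : ℕ) (Q : Frm) (m : ℕ) : ℤ := (pz k Q).coeff m - (pz k (mir Q)).coeff m

theorem psi_eq (hPer : StPer) {k w : ℕ} (f : CuspForm 𝒮ℒ (w : ℤ)) (hk : 1 ≤ k)
    (hw : w = 2 * k) (Q : Frm) :
    Psi k f mS Q = ∑ m ∈ Finset.range (w - 1), zc k Q m • rp f m := by
  have h := (hPer k w f hk hw).1
  unfold Psi
  rw [eSe, phi_neg, h Q, h (mir Q), ← Finset.sum_sub_distrib]
  refine Finset.sum_congr rfl fun m _ => ?_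
  rw [coeff_pw, coeff_pw, zc, zsmul_eq_mul]
  push_cast
  ring

theorem zc_congr (k n : ℕ) {Q Q' : Frm} (h : ∀ i, (3 ^ n : ℤ) ∣ Q i - Q' i) (m : ℕ) :
    (3 ^ n : ℤ) ∣ zc k Q m - zc k Q' m := by
  have h1 := coeff_congr k n h m
  have h2 : ∀ i, (3 ^ n : ℤ) ∣ mir Q i - mir Q' i := by
    intro i
    fin_cases i
    · exact h 0
    · have := (h 1).neg_right
      simp only [mir]
      simpa [neg_sub, sub_neg_eq_add, add_comm, sub_eq_add_neg] using this
    · exact h 2
  have h3 := coeff_congr k n h2 m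
  have h4 := dvd_sub h1 h3
  unfold zc
  refine h4.trans (dvd_of_eq ?_)
  ring

end FinX

open FinX

theorem stFin (hPer : StPer) : StFin := by
  intro k w f hk hw
  classical
  set T : Finset ℂ := (Finset.range (w - 1)).image (rp f) with hT
  set M : Submodule ℤ ℂ := Submodule.span ℤ (T : Set ℂ) with hM
  have hfg : M.FG := ⟨T, rfl⟩
  have hrp : ∀ m ∈ Finset.range (w - 1), rp f m ∈ M := by
    intro m hm
    apply Submodule.subset_span
    rw [hT]
    exact Finset.mem_coe.2 (Finset.mem_image_of_mem _ hm)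
  have hmemM : ∀ Q, Psi k f mS Q ∈ M := by
    intro Q
    rw [psi_eq hPer f hk hw]
    exact Submodule.sum_mem _ fun m hm => Submodule.smul_mem _ _ (hrp m hm)
  have hle : AddSubgroup.toIntSubmodule (NN k f) ≤ M := by
    intro z hz
    have hz' : z ∈ NN k f := hz
    have : NN k f ≤ M.toAddSubgroup := by
      unfold NN
      rw [AddSubgroup.closure_le]
      rintro _ ⟨x, _, rfl⟩
      exact hmemM x
    exact this hz'
  constructor
  · have : IsNoetherian ℤ M := isNoetherian_of_fg_of_noetherian M hfg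
    have h1 : (AddSubgroup.toIntSubmodule (NN k f)).FG := by
      have h2 : ((AddSubgroup.toIntSubmodule (NN k f)).comap M.subtype).FG :=
        IsNoetherian.noetherian _
      have h3 := h2.map M.subtype
      rwa [Submodule.map_comap_subtype, inf_eq_right.2 hle] at h3
    have h4 := (Submodule.fg_iff_addSubgroup_fg _).1 h1
    exact h4
  · obtain ⟨n, hn⟩ := TOR.FinAux.artin M (AddSubgroup.toIntSubmodule (NN k f)) hfg
    refine ⟨n + 1, by omega, ?_⟩
    intro x y hx hy hxy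
    choose c hc using zc_congr k (n + 1) hxy
    set u : ℂ := ∑ m ∈ Finset.range (w - 1), c m • rp f m with hu
    have huM : u ∈ M :=
      Submodule.sum_mem _ fun m hm => Submodule.smul_mem _ _ (hrp m hm)
    have hdiff : Psi k f mS x - Psi k f mS y = ((3 : ℤ) ^ (n + 1)) • u := by
      rw [psi_eq hPer f hk hw, psi_eq hPer f hk hw, ← Finset.sum_sub_distrib, hu,
        Finset.smul_sum]
      apply Finset.sum_congr rfl
      intro m _
      rw [← sub_smul, hc m, mul_smul]
    have hmemN : Psi k f mS x - Psi k f mS y ∈ NN k f :=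
      (NN k f).sub_mem (AddSubgroup.subset_closure ⟨x, hx, rfl⟩)
        (AddSubgroup.subset_closure ⟨y, hy, rfl⟩)
    obtain ⟨z, hz, e⟩ := hn u huM (by rw [← hdiff]; exact hmemN)
    exact ⟨z, hz, by rw [hdiff, e]⟩

end LO

end Pool.Agent.Lib.MP_7c5fb9_nt
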