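import Mathlib
import Pool.Agent.Lib.MP_7c5fb9_nt.LO.Stmts

set_option autoImplicit false

/-! (First) Symbols of functions of degree at most one are symmetric and harmonic. -/

namespace Pool.Agent.Lib.MP_7c5fb9_nt

namespace LO

namespace FirstAux

/-- The quadratic forms. -/
def qq (i : Fin 3) (x y : ℤ) : ℤ :=
  ![x ^ 2 + y ^ 2, x ^ 2 + x * y - y ^ 2, -x ^ 2 + x * y + y ^ 2] i

/-- The determinant. -/
def d2 (M : Mat) : ℤ := M 0 0 * M 1 1 - M 0 1 * M 1 0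

/-- The functions of level three. -/
def ph (i : Fin 3) (M : Mat) : ZMod 3 :=
  if (3 : ℤ) ∣ d2 M then 0 else ((qq i (M 0 0) (M 0 1) - qq i (M 1 0) (M 1 1) : ℤ) : ZMod 3)

theorem d2_eq (M : Mat) : d2 M = M.det := by
  rw [Matrix.det_fin_two, d2]

theorem d2_mul (M N : Mat) : d2 (M * N) = d2 M * d2 N := by
  simp [d2_eq]

theorem cast_mod {a b : ℤ} (h : (3 : ℤ) ∣ a - b) : (a : ZMod 3) = (b : ZMod 3) := by
  have h1 : ((a - b : ℤ) : ZMod 3) = 0 := (ZMod.intCast_zmod_eq_zero_iff_dvd _ 3).2 (by exact_mod_cast h)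
  push_cast at h1
  exact sub_eq_zero.1 h1

theorem ph_congr (i : Fin 3) {M M' : Mat} (h : ∀ a b, (3 : ℤ) ∣ M' a b - M a b) :
    ph i M' = ph i M := by
  obtain ⟨x, hx⟩ := h 0 0
  obtain ⟨y, hy⟩ := h 0 1
  obtain ⟨z, hz⟩ := h 1 0
  obtain ⟨t, ht⟩ := h 1 1
  have e1 : M' 0 0 = M 0 0 + 3 * x := by linarith
  have e2 : M' 0 1 = M 0 1 + 3 * y := by linarith
  have e3 : M' 1 0 = M 1 0 + 3 * z := by linarith
  have e4 : M' 1 1 = M 1 1 + 3 * t := by linarith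
  have hd : (3 : ℤ) ∣ d2 M' - d2 M := by
    rw [d2, d2, e1, e2, e3, e4]
    exact ⟨M 0 0 * t + x * M 1 1 + 3 * x * t - M 0 1 * z - y * M 1 0 - 3 * y * z, by ring⟩
  have hd' : (3 : ℤ) ∣ d2 M' ↔ (3 : ℤ) ∣ d2 M := by
    constructor
    · intro h'
      have := dvd_sub h' hd
      simpa using this
    · intro h'
      have := dvd_add hd h'
      simpa using this
  unfold ph
  by_cases h3 : (3 : ℤ) ∣ d2 M
  · rw [if_pos h3, if_pos (hd'.2 h3)]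
  · rw [if_neg h3, if_neg (fun h' => h3 (hd'.1 h'))]
    refine cast_mod ?_
    rw [e1, e2, e3, e4]
    fin_cases i
    · exact ⟨2 * M 0 0 * x + 3 * x ^ 2 + 2 * M 0 1 * y + 3 * y ^ 2 - 2 * M 1 0 * z - 3 * z ^ 2 -
        2 * M 1 1 * t - 3 * t ^ 2, by simp [qq]; ring⟩
    · exact ⟨2 * M 0 0 * x + 3 * x ^ 2 + (M 0 0 * y + x * M 0 1 + 3 * x * y) - 2 * M 0 1 * y -
        3 * y ^ 2 - (2 * M 1 0 * z + 3 * z ^ 2 + (M 1 0 * t + z * M 1 1 + 3 * z * t) -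
        2 * M 1 1 * t - 3 * t ^ 2), by simp [qq]; ring⟩
    · exact ⟨-(2 * M 0 0 * x + 3 * x ^ 2) + (M 0 0 * y + x * M 0 1 + 3 * x * y) + 2 * M 0 1 * y +
        3 * y ^ 2 - (-(2 * M 1 0 * z + 3 * z ^ 2) + (M 1 0 * t + z * M 1 1 + 3 * z * t) +
        2 * M 1 1 * t + 3 * t ^ 2), by simp [qq]; ring⟩

theorem ph_per (i : Fin 3) {m : ℕ} (hm : 1 ≤ m) (M N : Mat) :
    ph i (M + (3 : ℤ) ^ m • N) = ph i M := by
  refine ph_congr i fun a b => ?_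
  obtain ⟨j, rfl⟩ : ∃ j, m = j + 1 := ⟨m - 1, by omega⟩
  refine ⟨3 ^ j * N a b, ?_⟩
  rw [Matrix.add_apply, Matrix.smul_apply, smul_eq_mul]
  ring

theorem sq_mod {c : ℤ} (hc : ¬ (3 : ℤ) ∣ c) : ((c : ZMod 3)) ^ 2 = 1 := by
  have h1 : (c : ZMod 3) ≠ 0 := by
    intro h
    exact hc (by exact_mod_cast (ZMod.intCast_zmod_eq_zero_iff_dvd _ 3).1 h)
  revert h1
  generalize (c : ZMod 3) = x
  revert x
  decide

theorem ph_scal (i : Fin 3) {c : ℤ} (hc : ¬ (3 : ℤ) ∣ c) (M : Mat) : ph i (c • M) = ph i M := by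
  have h0 : d2 (c • M) = c ^ 2 * d2 M := by
    simp [d2]
    ring
  have h1 : (3 : ℤ) ∣ d2 (c • M) ↔ (3 : ℤ) ∣ d2 M := by
    rw [h0]
    constructor
    · intro h
      rcases Int.prime_three.dvd_or_dvd h with h | h
      · exact absurd (Int.prime_three.dvd_of_dvd_pow h) hc
      · exact h
    · intro h
      exact dvd_mul_of_dvd_right h _
  unfold ph
  by_cases h3 : (3 : ℤ) ∣ d2 M
  · rw [if_pos h3, if_pos (h1.2 h3)]
  · rw [if_neg h3, if_neg (fun h' => h3 (h1.1 h'))]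
    have h4 : qq i ((c • M) 0 0) ((c • M) 0 1) - qq i ((c • M) 1 0) ((c • M) 1 1) =
        c ^ 2 * (qq i (M 0 0) (M 0 1) - qq i (M 1 0) (M 1 1)) := by
      fin_cases i <;> simp [qq] <;> ring
    rw [h4]
    push_cast
    rw [sq_mod hc, one_mul]

theorem ph_S (i : Fin 3) (M : Mat) : ph i (mS * M) = -ph i M := by
  have h0 : d2 (mS * M) = d2 M := by
    rw [d2_mul]
    simp [d2, mS]
  unfold ph
  rw [h0]
  split_ifs with h
  · simp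
  · fin_cases i <;> simp [qq, mS, Matrix.mul_apply, Fin.sum_univ_two]

theorem ph_E (i : Fin 3) (M : Mat) : ph i (mE * M) = ph i M := by
  have h0 : d2 (mE * M) = -d2 M := by
    rw [d2_mul]
    simp [d2, mE]
  unfold ph
  rw [h0]
  simp only [dvd_neg]
  split_ifs with h
  · simp
  · fin_cases i <;> simp [qq, mE, Matrix.mul_apply, Fin.sum_univ_two]

theorem ph_U (i : Fin 3) (M : Mat) : ph i M + ph i (mU * M) + ph i (mU * mU * M) = 0 := by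
  have h0 : d2 (mU * M) = d2 M := by
    rw [d2_mul]
    simp [d2, mU]
  have h1 : d2 (mU * mU * M) = d2 M := by
    rw [mul_assoc, d2_mul, h0]
    simp [d2, mU]
  unfold ph
  rw [h0, h1]
  split_ifs with h
  · simp
  · fin_cases i <;> simp [qq, mU, Matrix.mul_apply, Fin.sum_univ_two]

theorem ph_g (i j : Fin 3) (M : Mat) : ph i (M * gm j) = ph i M := by
  refine ph_congr i fun a b => ?_
  fin_cases j <;> fin_cases b <;>
    simp only [gm, Matrix.mul_apply, Fin.sum_univ_two, Fin.zero_eta, Fin.mk_one, Fin.reduceFinMk,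
      Matrix.cons_val_zero, Matrix.cons_val_one, Matrix.cons_val, Matrix.of_apply,
      Matrix.cons_val', Matrix.cons_val_fin_one]
  · exact ⟨-M a 1, by ring⟩
  · exact ⟨M a 0, by ring⟩
  · exact ⟨M a 0 + M a 1, by ring⟩
  · exact ⟨M a 0 - M a 1, by ring⟩
  · exact ⟨M a 0 - M a 1, by ring⟩
  · exact ⟨-M a 0 - M a 1, by ring⟩

theorem ac_ph (i j : Fin 3) : ac i (ph j) = if i = j then 1 else 0 := by
  revert i j
  decide +kernel

section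

variable {m : ℕ} {v : Mat → ZMod 3}

theorem mf_X (hv : MF m v) (i : Fin 3) : MF m (Xd i v) where
  per M N := by
    have h1 : (M + (3 : ℤ) ^ m • N) * gm i = M * gm i + (3 : ℤ) ^ m • (N * gm i) := by
      rw [add_mul, smul_mul_assoc]
    rw [Xd, Xd, h1, hv.per, hv.per]
  scal c M hc := by
    rw [Xd, Xd, smul_mul_assoc, hv.scal _ _ hc, hv.scal _ _ hc]
  supp M hM := by
    rw [Xd, hv.supp M hM, hv.supp]
    · simp
    · rw [Matrix.det_mul]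
      exact dvd_mul_of_dvd_left hM _

theorem wr_X (hv : WR v) (i : Fin 3) : WR (Xd i v) where
  S M := by
    rw [Xd, Xd, mul_assoc, hv.S, hv.S]
    ring
  E M := by
    rw [Xd, Xd, mul_assoc, hv.E, hv.E]
  U M := by
    have h1 := hv.U M
    have h2 := hv.U (M * gm i)
    rw [← mul_assoc, ← mul_assoc] at h2
    simp only [Xd]
    linear_combination h2 - h1

/-- The difference of a function and a combination of the functions of level three. -/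
def df (c : Fin 3 → ZMod 3) (u : Mat → ZMod 3) (M : Mat) : ZMod 3 := u M - ∑ i, c i * ph i M

theorem X_eq (h2 : StVOne) (hm : 1 ≤ m) {u : Mat → ZMod 3} (hu : MF m u) (hw : WR u)
    (hf : Fil 1 u) (M : Mat) : u M = ∑ i, ac i u * ph i M := by
  set c : Fin 3 → ZMod 3 := fun i => ac i u with hc
  have h1 : MF m (df c u) := by
    refine ⟨fun M N => ?_, fun a M ha => ?_, fun M hM => ?_⟩
    · simp only [df, hu.per, ph_per _ hm]
    · simp only [df, hu.scal _ _ ha, ph_scal _ ha]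
    · have h3 : ∀ i, ph i M = 0 := fun i => by
        rw [ph, d2_eq, if_pos hM]
      simp only [df, hu.supp M hM, h3]
      simp
  have h3 : WR (df c u) := by
    refine ⟨fun M => ?_, fun M => ?_, fun M => ?_⟩
    · simp only [df, hw.S, ph_S, Fin.sum_univ_three]
      ring
    · simp only [df, hw.E, ph_E]
    · have e0 := ph_U 0 M
      have e1 := ph_U 1 M
      have e2 := ph_U 2 M
      have e3 := hw.U M
      simp only [df, Fin.sum_univ_three]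
      linear_combination e3 - c 0 * e0 - c 1 * e1 - c 2 * e2
  have h4 : Fil 1 (df c u) := by
    intro i
    have h5 : Xd i u = 0 := hf i
    change Xd i (df c u) = 0
    funext M
    have h6 : u (M * gm i) - u M = 0 := congr_fun h5 M
    simp only [Xd, df, ph_g, Pi.zero_apply]
    linear_combination h6
  have h7 := (h2 m (df c u) h1 h3 h4).2.2.2.1
  have h8 : ∀ i, ac i (df c u) = 0 := by
    intro i
    have h9 : ac i (df c u) = ac i u - ∑ j, c j * ac i (ph j) := by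
      fin_cases i <;> simp only [ac, df, Fin.sum_univ_three, Fin.zero_eta, Fin.mk_one,
        Fin.reduceFinMk, Matrix.cons_val_zero, Matrix.cons_val_one, Matrix.cons_val] <;> ring
    rw [h9]
    simp only [ac_ph]
    simp [hc]
  have h10 := congr_fun (h7 h8) M
  simp only [df, Pi.zero_apply] at h10
  exact sub_eq_zero.1 h10

theorem inv2 (h1 : StKOne) (hv : MF m v) (hf : Fil 2 v) {k : Mat} (hk : Scal 2 k) (M : Mat) :
    v (M * k) = v M := by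
  have h3 : Fil 3 v := by
    intro i j l
    have h4 : Xd j (Xd i v) = 0 := hf i j
    change Xd l (Xd j (Xd i v)) = 0
    rw [h4]
    funext M
    simp [Xd]
  have h5 : Rt k v - v = 0 := h1 m 2 0 k v (by norm_num) hk hv (by simpa using h3)
  have h6 := congr_fun h5 M
  simp only [Pi.sub_apply, Rt, Pi.zero_apply] at h6
  exact sub_eq_zero.1 h6

theorem X_g (hf : Fil 2 v) (i j : Fin 3) (M : Mat) : Xd i v (M * gm j) = Xd i v M := by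
  have h4 : Xd j (Xd i v) = 0 := hf i j
  have h5 : Xd i v (M * gm j) - Xd i v M = 0 := congr_fun h4 M
  exact sub_eq_zero.1 h5

theorem X_pow (hf : Fil 2 v) (i j : Fin 3) (n : ℕ) (M : Mat) :
    Xd i v (M * gm j ^ n) = Xd i v M := by
  induction n with
  | zero => simp
  | succ n ih => rw [pow_succ, ← mul_assoc, X_g hf, ih]

theorem v_pow (hf : Fil 2 v) (i : Fin 3) (n : ℕ) (M : Mat) :
    v (M * gm i ^ n) = v M + n * Xd i v M := by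
  induction n with
  | zero => simp
  | succ n ih =>
    have h1 : v (M * gm i ^ n * gm i) = v (M * gm i ^ n) + Xd i v (M * gm i ^ n) := by
      rw [Xd]
      ring
    rw [pow_succ, ← mul_assoc, h1, ih, X_pow hf]
    push_cast
    ring

theorem v_prod (hf : Fil 2 v) (a b c : ℕ) (M : Mat) :
    v (M * gm 0 ^ a * gm 1 ^ b * gm 2 ^ c) = v M + a * Xd 0 v M + b * Xd 1 v M + c * Xd 2 v M := by
  rw [v_pow hf, v_pow hf, v_pow hf, X_pow hf, X_pow hf, X_pow hf]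

theorem v_congr (h1 : StKOne) (hv : MF m v) (hf : Fil 2 v) {s : ℤ} (hs : ¬ (3 : ℤ) ∣ s)
    {W M' : Mat} (hW : ¬ (3 : ℤ) ∣ W.det) (h : ∀ i j, (9 : ℤ) ∣ M' i j - s * W i j) :
    v M' = v W := by
  choose N hN using h
  have hM' : M' = s • W + (9 : ℤ) • Matrix.of N := by
    ext i j
    have := hN i j
    rw [Matrix.add_apply, Matrix.smul_apply, Matrix.smul_apply, Matrix.of_apply, smul_eq_mul,
      smul_eq_mul]
    linarith
  have hcop : IsCoprime W.det ((3 : ℤ) ^ (m + 2)) :=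
    IsCoprime.pow_right ((Prime.coprime_iff_not_dvd Int.prime_three).2 hW).symm
  obtain ⟨x, y, hxy⟩ := hcop
  set k : Mat := x • (W.adjugate * M') with hk
  have hk1 : W * k = M' + (3 : ℤ) ^ m • ((-(9 * y)) • M') := by
    have e1 : W * k = (x * W.det) • M' := by
      rw [hk, mul_smul_comm, ← mul_assoc, Matrix.mul_adjugate, smul_mul_assoc, one_mul, smul_smul]
    have e2 : x * W.det = 1 + 3 ^ m * (-(9 * y)) := by
      rw [pow_add] at hxy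
      linear_combination hxy
    rw [e1, e2, add_smul, one_smul, smul_smul]
  have hk2 : Scal 2 k := by
    refine ⟨x * W.det * s, x • (W.adjugate * Matrix.of N), ?_, ?_⟩
    · intro h3
      rcases Int.prime_three.dvd_or_dvd h3 with h3 | h3
      · have h4 : (3 : ℤ) ∣ 1 := by
          rw [← hxy]
          refine dvd_add h3 (dvd_mul_of_dvd_right ?_ _)
          exact dvd_pow_self _ (by omega)
        omega
      · exact hs h3
    · rw [hk, hM', mul_add, mul_smul_comm, Matrix.adjugate_mul, mul_smul_comm, smul_add, smul_smul,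
        smul_smul, smul_smul, smul_smul]
      congr 1
      · congr 1
        ring
      · congr 1
        ring
  rw [← inv2 h1 hv hf hk2 W, hk1, hv.per]

/-- The conditions in an instance. -/
def Chk (M M' : Mat) (s : ℤ) (a b c : ℕ) (t₀₀ t₀₁ t₀₂ t₁₀ t₁₁ t₁₂ t₂₀ t₂₁ t₂₂ : ZMod 3) : Prop :=
  ¬ (3 : ℤ) ∣ s ∧ ¬ (3 : ℤ) ∣ d2 (M * gm 0 ^ a * gm 1 ^ b * gm 2 ^ c) ∧
    (∀ i j, (9 : ℤ) ∣ M' i j - s * (M * gm 0 ^ a * gm 1 ^ b * gm 2 ^ c) i j) ∧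
    t₀₀ = a * ph 0 M ∧ t₀₁ = b * ph 0 M ∧ t₀₂ = c * ph 0 M ∧
    t₁₀ = a * ph 1 M ∧ t₁₁ = b * ph 1 M ∧ t₁₂ = c * ph 1 M ∧
    t₂₀ = a * ph 2 M ∧ t₂₁ = b * ph 2 M ∧ t₂₂ = c * ph 2 M

instance (M M' : Mat) (s : ℤ) (a b c : ℕ) (t₀₀ t₀₁ t₀₂ t₁₀ t₁₁ t₁₂ t₂₀ t₂₁ t₂₂ : ZMod 3) :
    Decidable (Chk M M' s a b c t₀₀ t₀₁ t₀₂ t₁₀ t₁₁ t₁₂ t₂₀ t₂₁ t₂₂) := by
  unfold Chk
  infer_instance

theorem key (h1 : StKOne) (h2 : StVOne) (hm : 1 ≤ m) (hv : KK m v) (hf : Fil 2 v) (M M' : Mat)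
    (s : ℤ) (a b c : ℕ) (t₀₀ t₀₁ t₀₂ t₁₀ t₁₁ t₁₂ t₂₀ t₂₁ t₂₂ : ZMod 3)
    (h : Chk M M' s a b c t₀₀ t₀₁ t₀₂ t₁₀ t₁₁ t₁₂ t₂₀ t₂₁ t₂₂) :
    v M' = v M + t₀₀ * ac 0 (Xd 0 v) + t₀₁ * ac 0 (Xd 1 v) + t₀₂ * ac 0 (Xd 2 v) +
      t₁₀ * ac 1 (Xd 0 v) + t₁₁ * ac 1 (Xd 1 v) + t₁₂ * ac 1 (Xd 2 v) +
      t₂₀ * ac 2 (Xd 0 v) + t₂₁ * ac 2 (Xd 1 v) + t₂₂ * ac 2 (Xd 2 v) := by
  obtain ⟨hs, hd, h9, e00, e01, e02, e10, e11, e12, e20, e21, e22⟩ := h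
  rw [v_congr h1 hv.mf hf hs (by rwa [← d2_eq]) h9, v_prod hf]
  have hX : ∀ j, Xd j v M = ∑ i, ac i (Xd j v) * ph i M := fun j =>
    X_eq h2 hm (mf_X hv.mf j) (wr_X hv.wr j) (hf j) M
  rw [hX 0, hX 1, hX 2, e00, e01, e02, e10, e11, e12, e20, e21, e22]
  simp only [Fin.sum_univ_three]
  ring

theorem T2' (h : TM L2 v = 0) (M : Mat) : v (!![2, 0; 0, 1] * M) + v (!![1, 0; 0, 2] * M) +
    v (!![-2, 0; -1, -1] * M) + v (!![1, 1; 0, 2] * M) = 0 := by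
  have h1 := congr_fun h M
  simp only [TM, L2, List.map_cons, List.map_nil, List.sum_cons, List.sum_nil,
    Matrix.adjugate_fin_two_of, neg_zero, add_zero, Pi.zero_apply, neg_neg] at h1
  rw [← add_assoc, ← add_assoc] at h1
  exact h1

theorem t_c01 (h1 : StKOne) (h2 : StVOne) (hm : 1 ≤ m)
    (hv : KK m v) (hf : Fil 2 v) : ac 0 (Xd 1 v) = ac 1 (Xd 0 v) := by
  have h3 : (3 : ZMod 3) = 0 := by decide
  have r1 := T2' hv.T2 !![0, -1; -1, 1]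
  have k1_0 := key h1 h2 hm hv hf !![0, -1; 1, -1] (!![2, 0; 0, 1] * !![0, -1; -1, 1])
    (-4) 1 0 2 (-1) (0) (1) (0) (0) (0) (-1) (0) (1) (by decide +kernel)
  have k1_1 := key h1 h2 hm hv hf !![0, -1; 1, -1] (!![1, 0; 0, 2] * !![0, -1; -1, 1])
    (4) 2 0 1 (1) (0) (-1) (0) (0) (0) (1) (0) (-1) (by decide +kernel)
  have k1_2 := key h1 h2 hm hv hf !![0, -1; 1, 0] (!![-2, 0; -1, -1] * !![0, -1; -1, 1])
    (4) 0 1 1 (0) (0) (0) (0) (1) (1) (0) (-1) (-1) (by decide +kernel)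
  have k1_3 := key h1 h2 hm hv hf !![-1, 0; 1, -1] (!![1, 1; 0, 2] * !![0, -1; -1, 1])
    (4) 1 2 0 (-1) (1) (0) (-1) (1) (0) (0) (0) (0) (by decide +kernel)
  have r2 := hv.wr.U !![-1, 1; 1, 1]
  have k2_0 := key h1 h2 hm hv hf !![-1, 0; 1, -1] (mU * !![-1, 1; 1, 1])
    (-4) 2 1 0 (1) (-1) (0) (1) (-1) (0) (0) (0) (0) (by decide +kernel)
  have k2_1 := key h1 h2 hm hv hf !![-1, -1; 1, 0] (mU * mU * !![-1, 1; 1, 1])
    (4) 1 0 1 (1) (0) (1) (0) (0) (0) (-1) (0) (-1) (by decide +kernel)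
  have r3 := hv.wr.U !![0, -1; 1, -1]
  have k3_0 := key h1 h2 hm hv hf !![1, 0; 0, 1] (mU * !![0, -1; 1, -1])
    (-1) 0 0 0 (0) (0) (0) (0) (0) (0) (0) (0) (0) (by decide +kernel)
  have k3_1 := key h1 h2 hm hv hf !![-1, 1; -1, 0] (mU * mU * !![0, -1; 1, -1])
    (1) 0 0 0 (0) (0) (0) (0) (0) (0) (0) (0) (0) (by decide +kernel)
  have r4 := T2' hv.T2 !![-1, 1; -1, -1]
  have k4_0 := key h1 h2 hm hv hf !![-1, 1; 1, 1] (!![2, 0; 0, 1] * !![-1, 1; -1, -1])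
    (-4) 0 1 2 (0) (0) (0) (0) (1) (-1) (0) (1) (-1) (by decide +kernel)
  have k4_1 := key h1 h2 hm hv hf !![-1, 1; 1, 1] (!![1, 0; 0, 2] * !![-1, 1; -1, -1])
    (4) 0 2 1 (0) (0) (0) (0) (-1) (1) (0) (-1) (1) (by decide +kernel)
  have k4_2 := key h1 h2 hm hv hf !![-1, 1; -1, 0] (!![-2, 0; -1, -1] * !![-1, 1; -1, -1])
    (-2) 0 0 0 (0) (0) (0) (0) (0) (0) (0) (0) (0) (by decide +kernel)
  have k4_3 := key h1 h2 hm hv hf !![-1, 0; -1, -1] (!![1, 1; 0, 2] * !![-1, 1; -1, -1])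
    (2) 0 0 0 (0) (0) (0) (0) (0) (0) (0) (0) (0) (by decide +kernel)
  have r5 := T2' hv.T2 !![-1, 0; 1, 1]
  have k5_0 := key h1 h2 hm hv hf !![-1, 0; -1, -1] (!![2, 0; 0, 1] * !![-1, 0; 1, 1])
    (-4) 1 0 1 (-1) (0) (-1) (0) (0) (0) (1) (0) (1) (by decide +kernel)
  have k5_1 := key h1 h2 hm hv hf !![-1, 0; -1, -1] (!![1, 0; 0, 2] * !![-1, 0; 1, 1])
    (4) 2 0 2 (1) (0) (1) (0) (0) (0) (-1) (0) (-1) (by decide +kernel)
  have k5_2 := key h1 h2 hm hv hf !![1, 0; 0, 1] (!![-2, 0; -1, -1] * !![-1, 0; 1, 1])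
    (-4) 0 2 2 (0) (0) (0) (0) (1) (1) (0) (-1) (-1) (by decide +kernel)
  have k5_3 := key h1 h2 hm hv hf !![0, -1; 1, 1] (!![1, 1; 0, 2] * !![-1, 0; 1, 1])
    (-4) 1 1 0 (-1) (-1) (0) (1) (1) (0) (0) (0) (0) (by decide +kernel)
  have r6 := T2' hv.T2 !![0, -1; -1, 0]
  have k6_0 := key h1 h2 hm hv hf !![0, -1; 1, 0] (!![2, 0; 0, 1] * !![0, -1; -1, 0])
    (-4) 0 1 1 (0) (0) (0) (0) (1) (1) (0) (-1) (-1) (by decide +kernel)
  have k6_1 := key h1 h2 hm hv hf !![0, -1; 1, 0] (!![1, 0; 0, 2] * !![0, -1; -1, 0])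
    (4) 0 2 2 (0) (0) (0) (0) (-1) (-1) (0) (1) (1) (by decide +kernel)
  have k6_2 := key h1 h2 hm hv hf !![0, -1; 1, 1] (!![-2, 0; -1, -1] * !![0, -1; -1, 0])
    (4) 2 2 0 (1) (1) (0) (-1) (-1) (0) (0) (0) (0) (by decide +kernel)
  have k6_3 := key h1 h2 hm hv hf !![-1, -1; 1, 0] (!![1, 1; 0, 2] * !![0, -1; -1, 0])
    (4) 1 0 1 (1) (0) (1) (0) (0) (0) (-1) (0) (-1) (by decide +kernel)
  linear_combination (1) * r1 + (-1) * k1_0 + (-1) * k1_1 + (-1) * k1_2 + (-1) * k1_3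
    + (-1) * r2 + (1) * k2_0 + (1) * k2_1 + (1) * r3 + (-1) * k3_0 + (-1) * k3_1 + (-1) * r4
    + (1) * k4_0 + (1) * k4_1 + (1) * k4_2 + (1) * k4_3 + (-1) * r5 + (1) * k5_0 + (1) * k5_1
    + (1) * k5_2 + (1) * k5_3 + (1) * r6 + (-1) * k6_0 + (-1) * k6_1 + (-1) * k6_2 + (-1) * k6_3
    + ((-1) * v !![0, -1; 1, 0] + (1) * v !![-1, 0; -1, -1] + (-1) * v !![0, -1; 1, -1]
    + (1) * v !![-1, 1; 1, 1] + (-1) * ac 0 (Xd 1 v) + (1) * ac 1 (Xd 0 v)) * h3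

theorem t_c02 (h1 : StKOne) (h2 : StVOne) (hm : 1 ≤ m)
    (hv : KK m v) (hf : Fil 2 v) : ac 0 (Xd 2 v) = ac 2 (Xd 0 v) := by
  have h3 : (3 : ZMod 3) = 0 := by decide
  have r1 := hv.wr.U !![-1, -1; -1, 0]
  have k1_0 := key h1 h2 hm hv hf !![0, -1; -1, -1] (mU * !![-1, -1; -1, 0])
    (1) 0 0 0 (0) (0) (0) (0) (0) (0) (0) (0) (0) (by decide +kernel)
  have k1_1 := key h1 h2 hm hv hf !![-1, 0; 0, 1] (mU * mU * !![-1, -1; -1, 0])
    (-1) 0 0 0 (0) (0) (0) (0) (0) (0) (0) (0) (0) (by decide +kernel)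
  have r2 := hv.wr.U !![-1, 1; 0, 1]
  have k2_0 := key h1 h2 hm hv hf !![-1, 0; -1, 1] (mU * !![-1, 1; 0, 1])
    (1) 0 0 0 (0) (0) (0) (0) (0) (0) (0) (0) (0) (by decide +kernel)
  have k2_1 := key h1 h2 hm hv hf !![0, -1; -1, 0] (mU * mU * !![-1, 1; 0, 1])
    (1) 0 0 0 (0) (0) (0) (0) (0) (0) (0) (0) (0) (by decide +kernel)
  have r3 := T2' hv.T2 !![0, -1; 1, 1]
  have k3_0 := key h1 h2 hm hv hf !![0, -1; -1, -1] (!![2, 0; 0, 1] * !![0, -1; 1, 1])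
    (-4) 2 2 0 (1) (1) (0) (-1) (-1) (0) (0) (0) (0) (by decide +kernel)
  have k3_1 := key h1 h2 hm hv hf !![0, -1; -1, -1] (!![1, 0; 0, 2] * !![0, -1; 1, 1])
    (4) 1 1 0 (-1) (-1) (0) (1) (1) (0) (0) (0) (0) (by decide +kernel)
  have k3_2 := key h1 h2 hm hv hf !![0, -1; -1, 0] (!![-2, 0; -1, -1] * !![0, -1; 1, 1])
    (4) 0 1 1 (0) (0) (0) (0) (1) (1) (0) (-1) (-1) (by decide +kernel)
  have k3_3 := key h1 h2 hm hv hf !![-1, 0; 1, 1] (!![1, 1; 0, 2] * !![0, -1; 1, 1])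
    (-4) 2 0 2 (1) (0) (1) (0) (0) (0) (-1) (0) (-1) (by decide +kernel)
  have r4 := hv.wr.S !![0, -1; -1, 1]
  have k4_0 := key h1 h2 hm hv hf !![-1, 1; 0, 1] (mS * !![0, -1; -1, 1])
    (-1) 0 0 0 (0) (0) (0) (0) (0) (0) (0) (0) (0) (by decide +kernel)
  have r5 := T2' hv.T2 !![-1, 0; 1, -1]
  have k5_0 := key h1 h2 hm hv hf !![-1, 0; -1, 1] (!![2, 0; 0, 1] * !![-1, 0; 1, -1])
    (-4) 2 1 0 (1) (-1) (0) (1) (-1) (0) (0) (0) (0) (by decide +kernel)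
  have k5_1 := key h1 h2 hm hv hf !![-1, 0; -1, 1] (!![1, 0; 0, 2] * !![-1, 0; 1, -1])
    (4) 1 2 0 (-1) (1) (0) (-1) (1) (0) (0) (0) (0) (by decide +kernel)
  have k5_2 := key h1 h2 hm hv hf !![-1, 0; 0, 1] (!![-2, 0; -1, -1] * !![-1, 0; 1, -1])
    (4) 0 2 2 (0) (0) (0) (0) (1) (1) (0) (-1) (-1) (by decide +kernel)
  have k5_3 := key h1 h2 hm hv hf !![0, -1; -1, 1] (!![1, 1; 0, 2] * !![-1, 0; 1, -1])
    (4) 2 0 1 (1) (0) (-1) (0) (0) (0) (1) (0) (-1) (by decide +kernel)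
  have r6 := hv.wr.S !![-1, -1; -1, 0]
  have k6_0 := key h1 h2 hm hv hf !![-1, 0; 1, 1] (mS * !![-1, -1; -1, 0])
    (-1) 0 0 0 (0) (0) (0) (0) (0) (0) (0) (0) (0) (by decide +kernel)
  linear_combination (-1) * r1 + (1) * k1_0 + (1) * k1_1 + (1) * r2 + (-1) * k2_0 + (-1) * k2_1
    + (-1) * r3 + (1) * k3_0 + (1) * k3_1 + (1) * k3_2 + (1) * k3_3 + (-1) * r4 + (1) * k4_0
    + (1) * r5 + (-1) * k5_0 + (-1) * k5_1 + (-1) * k5_2 + (-1) * k5_3 + (1) * r6 + (-1) * k6_0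
    + ((-1) * v !![-1, 0; -1, 1] + (1) * v !![0, -1; -1, -1] + (1) * ac 0 (Xd 2 v)
    + (-1) * ac 2 (Xd 0 v)) * h3

theorem t_c12 (h1 : StKOne) (h2 : StVOne) (hm : 1 ≤ m)
    (hv : KK m v) (hf : Fil 2 v) : ac 1 (Xd 2 v) = ac 2 (Xd 1 v) := by
  have h3 : (3 : ZMod 3) = 0 := by decide
  have r1 := hv.wr.S !![0, -1; -1, 0]
  have k1_0 := key h1 h2 hm hv hf !![-1, 0; 0, 1] (mS * !![0, -1; -1, 0])
    (-1) 0 0 0 (0) (0) (0) (0) (0) (0) (0) (0) (0) (by decide +kernel)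
  have r2 := T2' hv.T2 !![0, -1; 1, -1]
  have k2_0 := key h1 h2 hm hv hf !![0, -1; -1, 1] (!![2, 0; 0, 1] * !![0, -1; 1, -1])
    (-4) 1 0 2 (-1) (0) (1) (0) (0) (0) (-1) (0) (1) (by decide +kernel)
  have k2_1 := key h1 h2 hm hv hf !![0, -1; -1, 1] (!![1, 0; 0, 2] * !![0, -1; 1, -1])
    (4) 2 0 1 (1) (0) (-1) (0) (0) (0) (1) (0) (-1) (by decide +kernel)
  have k2_2 := key h1 h2 hm hv hf !![0, -1; -1, -1] (!![-2, 0; -1, -1] * !![0, -1; 1, -1])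
    (4) 0 1 1 (0) (-1) (-1) (0) (1) (1) (0) (0) (0) (by decide +kernel)
  have k2_3 := key h1 h2 hm hv hf !![-1, -1; 1, -1] (!![1, 1; 0, 2] * !![0, -1; 1, -1])
    (-1) 2 1 0 (0) (0) (0) (1) (-1) (0) (1) (-1) (0) (by decide +kernel)
  have r3 := hv.wr.U !![-1, 0; 0, 1]
  have k3_0 := key h1 h2 hm hv hf !![-1, -1; -1, 0] (mU * !![-1, 0; 0, 1])
    (1) 0 0 0 (0) (0) (0) (0) (0) (0) (0) (0) (0) (by decide +kernel)
  have k3_1 := key h1 h2 hm hv hf !![0, -1; -1, -1] (mU * mU * !![-1, 0; 0, 1])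
    (1) 0 0 0 (0) (0) (0) (0) (0) (0) (0) (0) (0) (by decide +kernel)
  have r4 := hv.wr.U !![-1, -1; 0, 1]
  have k4_0 := key h1 h2 hm hv hf !![-1, 1; -1, -1] (mU * !![-1, -1; 0, 1])
    (-2) 1 1 0 (0) (0) (0) (1) (1) (0) (1) (1) (0) (by decide +kernel)
  have k4_1 := key h1 h2 hm hv hf !![0, -1; -1, 1] (mU * mU * !![-1, -1; 0, 1])
    (1) 2 1 2 (1) (-1) (1) (0) (0) (0) (1) (-1) (1) (by decide +kernel)
  have r5 := hv.wr.S !![-1, 1; -1, -1]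
  have k5_0 := key h1 h2 hm hv hf !![-1, -1; 1, -1] (mS * !![-1, 1; -1, -1])
    (-1) 0 0 0 (0) (0) (0) (0) (0) (0) (0) (0) (0) (by decide +kernel)
  have r6 := T2' hv.T2 !![-1, -1; 1, 0]
  have k6_0 := key h1 h2 hm hv hf !![-1, -1; -1, 0] (!![2, 0; 0, 1] * !![-1, -1; 1, 0])
    (-4) 2 0 2 (-1) (0) (-1) (0) (0) (0) (1) (0) (1) (by decide +kernel)
  have k6_1 := key h1 h2 hm hv hf !![-1, -1; -1, 0] (!![1, 0; 0, 2] * !![-1, -1; 1, 0])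
    (4) 1 0 1 (1) (0) (1) (0) (0) (0) (-1) (0) (-1) (by decide +kernel)
  have k6_2 := key h1 h2 hm hv hf !![-1, -1; 0, 1] (!![-2, 0; -1, -1] * !![-1, -1; 1, 0])
    (4) 1 1 0 (1) (1) (0) (-1) (-1) (0) (0) (0) (0) (by decide +kernel)
  have k6_3 := key h1 h2 hm hv hf !![0, -1; -1, 0] (!![1, 1; 0, 2] * !![-1, -1; 1, 0])
    (4) 0 2 2 (0) (0) (0) (0) (-1) (-1) (0) (1) (1) (by decide +kernel)
  linear_combination (-1) * r1 + (1) * k1_0 + (-1) * r2 + (1) * k2_0 + (1) * k2_1 + (1) * k2_2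
    + (1) * k2_3 + (1) * r3 + (-1) * k3_0 + (-1) * k3_1 + (-1) * r4 + (1) * k4_0 + (1) * k4_1
    + (1) * r5 + (-1) * k5_0 + (1) * r6 + (-1) * k6_0 + (-1) * k6_1 + (-1) * k6_2 + (-1) * k6_3
    + ((-1) * v !![-1, -1; -1, 0] + (1) * v !![0, -1; -1, 1] + (-1) * ac 0 (Xd 1 v)
    + (1) * ac 1 (Xd 0 v) + (1) * ac 1 (Xd 1 v) + (1) * ac 1 (Xd 2 v) + (1) * ac 2 (Xd 0 v)
    + (-1) * ac 2 (Xd 1 v)) * h3

theorem t_tr (h1 : StKOne) (h2 : StVOne) (hm : 1 ≤ m)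
    (hv : KK m v) (hf : Fil 2 v) : ac 0 (Xd 0 v) + ac 1 (Xd 1 v) + ac 2 (Xd 2 v) = 0 := by
  have h3 : (3 : ZMod 3) = 0 := by decide
  have r1 := hv.wr.U !![-1, -1; 1, 0]
  have k1_0 := key h1 h2 hm hv hf !![-1, 1; 1, 1] (mU * !![-1, -1; 1, 0])
    (2) 2 0 2 (0) (0) (0) (-1) (0) (-1) (-1) (0) (-1) (by decide +kernel)
  have k1_1 := key h1 h2 hm hv hf !![-1, 0; 1, -1] (mU * mU * !![-1, -1; 1, 0])
    (1) 1 1 2 (-1) (-1) (1) (-1) (-1) (1) (0) (0) (0) (by decide +kernel)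
  have r2 := T2' hv.T2 !![0, -1; -1, 0]
  have k2_0 := key h1 h2 hm hv hf !![0, -1; 1, 0] (!![2, 0; 0, 1] * !![0, -1; -1, 0])
    (-4) 0 1 1 (0) (0) (0) (0) (1) (1) (0) (-1) (-1) (by decide +kernel)
  have k2_1 := key h1 h2 hm hv hf !![0, -1; 1, 0] (!![1, 0; 0, 2] * !![0, -1; -1, 0])
    (4) 0 2 2 (0) (0) (0) (0) (-1) (-1) (0) (1) (1) (by decide +kernel)
  have k2_2 := key h1 h2 hm hv hf !![0, -1; 1, 1] (!![-2, 0; -1, -1] * !![0, -1; -1, 0])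
    (4) 2 2 0 (1) (1) (0) (-1) (-1) (0) (0) (0) (0) (by decide +kernel)
  have k2_3 := key h1 h2 hm hv hf !![-1, -1; 1, 0] (!![1, 1; 0, 2] * !![0, -1; -1, 0])
    (4) 1 0 1 (1) (0) (1) (0) (0) (0) (-1) (0) (-1) (by decide +kernel)
  have r3 := T2' hv.T2 !![-1, 0; 0, 1]
  have k3_0 := key h1 h2 hm hv hf !![1, 0; 0, 1] (!![2, 0; 0, 1] * !![-1, 0; 0, 1])
    (4) 0 2 2 (0) (0) (0) (0) (1) (1) (0) (-1) (-1) (by decide +kernel)
  have k3_1 := key h1 h2 hm hv hf !![1, 0; 0, 1] (!![1, 0; 0, 2] * !![-1, 0; 0, 1])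
    (-4) 0 1 1 (0) (0) (0) (0) (-1) (-1) (0) (1) (1) (by decide +kernel)
  have k3_2 := key h1 h2 hm hv hf !![-1, 0; 1, -1] (!![-2, 0; -1, -1] * !![-1, 0; 0, 1])
    (4) 2 1 0 (1) (-1) (0) (1) (-1) (0) (0) (0) (0) (by decide +kernel)
  have k3_3 := key h1 h2 hm hv hf !![1, -1; 0, 1] (!![1, 1; 0, 2] * !![-1, 0; 0, 1])
    (-4) 1 0 2 (1) (0) (-1) (0) (0) (0) (1) (0) (-1) (by decide +kernel)
  have r4 := T2' hv.T2 !![-1, -1; 0, 1]
  have k4_0 := key h1 h2 hm hv hf !![1, 1; 0, 1] (!![2, 0; 0, 1] * !![-1, -1; 0, 1])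
    (4) 1 1 0 (1) (1) (0) (-1) (-1) (0) (0) (0) (0) (by decide +kernel)
  have k4_1 := key h1 h2 hm hv hf !![1, 1; 0, 1] (!![1, 0; 0, 2] * !![-1, -1; 0, 1])
    (-4) 2 2 0 (-1) (-1) (0) (1) (1) (0) (0) (0) (0) (by decide +kernel)
  have k4_2 := key h1 h2 hm hv hf !![-1, -1; 1, 0] (!![-2, 0; -1, -1] * !![-1, -1; 0, 1])
    (4) 2 0 2 (-1) (0) (-1) (0) (0) (0) (1) (0) (1) (by decide +kernel)
  have k4_3 := key h1 h2 hm hv hf !![1, 0; 0, 1] (!![1, 1; 0, 2] * !![-1, -1; 0, 1])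
    (-4) 0 1 1 (0) (0) (0) (0) (-1) (-1) (0) (1) (1) (by decide +kernel)
  have r5 := T2' hv.T2 !![0, -1; -1, 1]
  have k5_0 := key h1 h2 hm hv hf !![0, -1; 1, -1] (!![2, 0; 0, 1] * !![0, -1; -1, 1])
    (-4) 1 0 2 (-1) (0) (1) (0) (0) (0) (-1) (0) (1) (by decide +kernel)
  have k5_1 := key h1 h2 hm hv hf !![0, -1; 1, -1] (!![1, 0; 0, 2] * !![0, -1; -1, 1])
    (4) 2 0 1 (1) (0) (-1) (0) (0) (0) (1) (0) (-1) (by decide +kernel)
  have k5_2 := key h1 h2 hm hv hf !![0, -1; 1, 0] (!![-2, 0; -1, -1] * !![0, -1; -1, 1])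
    (4) 0 1 1 (0) (0) (0) (0) (1) (1) (0) (-1) (-1) (by decide +kernel)
  have k5_3 := key h1 h2 hm hv hf !![-1, 0; 1, -1] (!![1, 1; 0, 2] * !![0, -1; -1, 1])
    (4) 1 2 0 (-1) (1) (0) (-1) (1) (0) (0) (0) (0) (by decide +kernel)
  have r6 := T2' hv.T2 !![-1, 1; 0, 1]
  have k6_0 := key h1 h2 hm hv hf !![1, -1; 0, 1] (!![2, 0; 0, 1] * !![-1, 1; 0, 1])
    (4) 2 0 1 (-1) (0) (1) (0) (0) (0) (-1) (0) (1) (by decide +kernel)
  have k6_1 := key h1 h2 hm hv hf !![1, -1; 0, 1] (!![1, 0; 0, 2] * !![-1, 1; 0, 1])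
    (-4) 1 0 2 (1) (0) (-1) (0) (0) (0) (1) (0) (-1) (by decide +kernel)
  have k6_2 := key h1 h2 hm hv hf !![-1, 1; 1, 1] (!![-2, 0; -1, -1] * !![-1, 1; 0, 1])
    (1) 2 1 0 (0) (0) (0) (-1) (1) (0) (-1) (1) (0) (by decide +kernel)
  have k6_3 := key h1 h2 hm hv hf !![1, 1; 0, 1] (!![1, 1; 0, 2] * !![-1, 1; 0, 1])
    (-4) 0 1 1 (0) (1) (1) (0) (-1) (-1) (0) (0) (0) (by decide +kernel)
  have r7 := T2' hv.T2 !![0, -1; -1, -1]
  have k7_0 := key h1 h2 hm hv hf !![0, -1; 1, 1] (!![2, 0; 0, 1] * !![0, -1; -1, -1])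
    (-4) 2 2 0 (1) (1) (0) (-1) (-1) (0) (0) (0) (0) (by decide +kernel)
  have k7_1 := key h1 h2 hm hv hf !![0, -1; 1, 1] (!![1, 0; 0, 2] * !![0, -1; -1, -1])
    (4) 1 1 0 (-1) (-1) (0) (1) (1) (0) (0) (0) (0) (by decide +kernel)
  have k7_2 := key h1 h2 hm hv hf !![0, -1; 1, -1] (!![-2, 0; -1, -1] * !![0, -1; -1, -1])
    (4) 0 1 1 (0) (-1) (-1) (0) (0) (0) (0) (-1) (-1) (by decide +kernel)
  have k7_3 := key h1 h2 hm hv hf !![-1, 1; 1, 1] (!![1, 1; 0, 2] * !![0, -1; -1, -1])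
    (1) 1 0 1 (0) (0) (0) (1) (0) (1) (1) (0) (1) (by decide +kernel)
  linear_combination (1) * r1 + (-1) * k1_0 + (-1) * k1_1 + (1) * r2 + (-1) * k2_0 + (-1) * k2_1
    + (-1) * k2_2 + (-1) * k2_3 + (1) * r3 + (-1) * k3_0 + (-1) * k3_1 + (-1) * k3_2
    + (-1) * k3_3 + (1) * r4 + (-1) * k4_0 + (-1) * k4_1 + (-1) * k4_2 + (-1) * k4_3 + (1) * r5
    + (-1) * k5_0 + (-1) * k5_1 + (-1) * k5_2 + (-1) * k5_3 + (1) * r6 + (-1) * k6_0
    + (-1) * k6_1 + (-1) * k6_2 + (-1) * k6_3 + (1) * r7 + (-1) * k7_0 + (-1) * k7_1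
    + (-1) * k7_2 + (-1) * k7_3 + ((-1) * v !![1, 0; 0, 1] + (-1) * v !![1, 1; 0, 1]
    + (-1) * v !![1, -1; 0, 1] + (-1) * v !![0, -1; 1, 0] + (-1) * v !![-1, -1; 1, 0]
    + (-1) * v !![-1, 0; 1, -1] + (-1) * v !![0, -1; 1, -1] + (-1) * v !![0, -1; 1, 1]
    + (-1) * v !![-1, 1; 1, 1] + (1) * ac 1 (Xd 0 v) + (1) * ac 1 (Xd 1 v)
    + (1) * ac 2 (Xd 2 v)) * h3

end

end FirstAux

open FirstAux in
theorem stFirst (hKOne : StKOne) (hVOne : StVOne) : StFirst := by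
  intro m v hv hf
  rcases Nat.eq_zero_or_pos m with rfl | hm
  · have h0 : ∀ M, v M = 0 := by
      intro M
      have h1 := hv.mf.per 0 M
      rw [pow_zero, one_smul, zero_add] at h1
      rw [h1]
      exact hv.mf.supp 0 (by simp)
    have h1 : ∀ i j, ac i (Xd j v) = 0 := by
      intro i j
      fin_cases i <;> simp [ac, Xd, h0]
    refine ⟨fun i j => ?_, ?_⟩
    · rw [h1, h1]
    · simp [h1]
  · have e1 := t_c01 hKOne hVOne hm hv hf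
    have e2 := t_c02 hKOne hVOne hm hv hf
    have e3 := t_c12 hKOne hVOne hm hv hf
    have e4 := t_tr hKOne hVOne hm hv hf
    refine ⟨fun i j => ?_, ?_⟩
    · fin_cases i <;> fin_cases j
      · rfl
      · exact e1
      · exact e2
      · exact e1.symm
      · rfl
      · exact e3
      · exact e2.symm
      · exact e3.symm
      · rfl
    · rw [Fin.sum_univ_three]
      exact e4

end LO

end Pool.Agent.Lib.MP_7c5fb9_nt
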