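import Pool.Agent.Lib.MP_7c5fb9_nt.LO.Stmts2

set_option autoImplicit false

/-!
# Level one (MP_7c5fb9_nt, project LO): Gauss sums of Jacobi symbols, from those of the Kronecker
symbols
-/

namespace Pool.Agent.Lib.MP_7c5fb9_nt

namespace LO

open Pool.Agent.Lib.MP_7c08ba_nt.RZ

theorem stGaussK (hKr : StKr) : StGauss := by
  intro N hodd hsq hN
  have h2 : N % 2 = 1 := Nat.odd_iff.mp hodd
  obtain ⟨σ, hσ, hσ1, hσ4⟩ : ∃ σ : ℤ, jacobiSym (-1) N = σ ∧ (σ = 1 ∨ σ = -1) ∧ σ * N % 4 = 1 := by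
    rw [jacobiSym.at_neg_one hodd, ZMod.χ₄_nat_mod_four]
    have h4 : N % 4 = 1 ∨ N % 4 = 3 := by omega
    rcases h4 with h | h
    · refine ⟨1, ?_, Or.inl rfl, by omega⟩
      rw [h]
      rfl
    · refine ⟨-1, ?_, Or.inr rfl, by omega⟩
      rw [h]
      rfl
  have habs : (σ * N : ℤ).natAbs = N := by
    rcases hσ1 with rfl | rfl <;> simp
  have hFD : FD (σ * N) := by
    left
    refine ⟨hσ4, by rw [habs]; exact hsq, ?_⟩
    intro h
    rw [h] at habs
    simp at habs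
    omega
  obtain ⟨-, -, -, -, -, -, τ, hτ, hsum⟩ := hKr (σ * N) hFD
  have hkr : ∀ n : ℕ, kr (σ * N) n = jacobiSym n N := by
    intro n
    unfold kr
    rw [if_neg (by omega), habs]
  rw [habs] at hsum
  simp only [hkr] at hsum
  refine ⟨τ, ?_, ?_⟩
  · rw [hτ, hσ]
    push_cast
    rfl
  · intro n
    have hN0 : (N : ℂ) ≠ 0 := by exact_mod_cast (by omega : N ≠ 0)
    have hNZ : (N : ℤ) ≠ 0 := by exact_mod_cast (by omega : N ≠ 0)
    obtain ⟨m, q, hm⟩ : ∃ (m : ℕ) (q : ℤ), n = m + N * q := by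
      refine ⟨(n % N).toNat, n / N, ?_⟩
      rw [Int.toNat_of_nonneg (Int.emod_nonneg _ hNZ)]
      exact (Int.emod_add_mul_ediv n N).symm
    have hj : jacobiSym n N = jacobiSym m N := by
      rw [jacobiSym.mod_left n N, jacobiSym.mod_left (m : ℤ) N, hm]
      congr 1
      exact Int.add_mul_emod_self_left _ _ _
    rw [hj, ← hsum m]
    refine Finset.sum_congr rfl fun a _ => ?_
    congr 1
    unfold ee
    rw [Complex.exp_eq_exp_iff_exists_int]
    refine ⟨a * q, ?_⟩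
    rw [hm]
    push_cast
    field_simp

end LO

end Pool.Agent.Lib.MP_7c5fb9_nt
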