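import Mathlib
import Pool.Agent.Lib.MP_7c5fb9_nt.LO.Stmts

set_option autoImplicit false

/-!
# Level one (MP_7c5fb9_nt, project LO): Hecke operators and the cocycle
-/

namespace Pool.Agent.Lib.MP_7c5fb9_nt

namespace LO

open Pool.Agent.Lib.MP_7c08ba_nt.RZ UpperHalfPlane Filter Topology
open scoped MatrixGroups Polynomial nonZeroDivisors

namespace HecX

theorem act_act (Q : Frm) (A B : Mat) : act (act Q A) B = act Q (A * B) := by
  funext i
  fin_cases i <;> simp [act, Matrix.mul_apply, Fin.sum_univ_two] <;> ring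

theorem act_one (Q : Frm) : act Q 1 = Q := by
  funext i
  fin_cases i <;> simp [act]

/-- The properties which are used. -/
structure Dat (l : ℕ) (a : ℂ) (G : Frm → ℂ → ℂ) (Φ : Mat → Frm → ℂ) : Prop where
  c1 : ∀ (M : Mat) (Q : Frm) (z : ℂ), M.det = 1 → 0 < z.im →
    G Q (mb M z) - G (act Q M) z = Φ M Q
  c2 : ∀ (M N : Mat) (Q : Frm), M.det = 1 → N.det = 1 →
    Φ (M * N) Q = Φ M Q + Φ N (act Q M)
  c3 : ∀ Q : Frm, Φ mT Q = 0
  c4 : ∀ (M : Mat) (Q : Frm), Φ (-M) Q = Φ M Q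
  h : ∀ (Q : Frm) (z : ℂ), 0 < z.im → a * G Q z = G (act Q !![1, 0; 0, (l : ℤ)]) (l * z) +
    ∑ b ∈ Finset.range l, G (act Q !![(l : ℤ), -(b : ℤ); 0, 1]) ((z + b) / l)

variable {l : ℕ} {a : ℂ} {G : Frm → ℂ → ℂ} {Φ : Mat → Frm → ℂ}

theorem Dat.one (d : Dat l a G Φ) (Q : Frm) : Φ 1 Q = 0 := by
  have h := d.c2 1 1 Q (by simp) (by simp)
  rw [mul_one, act_one] at h
  linear_combination -h

theorem Dat.T (d : Dat l a G Φ) (n : ℤ) : ∀ Q : Frm, Φ !![1, n; 0, 1] Q = 0 := by
  induction n using Int.induction_on with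
  | zero =>
    intro Q
    have e : (!![1, 0; 0, 1] : Mat) = 1 := by decide
    rw [e]
    exact d.one Q
  | succ n ih =>
    intro Q
    have e : (!![1, (n : ℤ) + 1; 0, 1] : Mat) = !![1, (n : ℤ); 0, 1] * mT := by
      simp [mT, add_comm]
    rw [e, d.c2 _ _ Q (by simp [Matrix.det_fin_two_of]) (by simp [mT, Matrix.det_fin_two_of]), ih,
      d.c3, add_zero]
  | pred n ih =>
    intro Q
    have e : (!![1, -(n : ℤ); 0, 1] : Mat) = !![1, -(n : ℤ) - 1; 0, 1] * mT := by
      simp [mT]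
    have h := ih Q
    rw [e, d.c2 _ _ Q (by simp [Matrix.det_fin_two_of]) (by simp [mT, Matrix.det_fin_two_of]),
      d.c3, add_zero] at h
    exact h

theorem Dat.step (d : Dat l a G Φ) (N N' : Mat) (n : ℤ) (hN : N.det = 1)
    (h : N' = N * (mS * !![1, n; 0, 1]) ∨ N' = -(N * (mS * !![1, n; 0, 1]))) (Q : Frm) :
    Φ N' Q = Φ N Q + Φ mS (act Q N) := by
  have key : Φ (N * (mS * !![1, n; 0, 1])) Q = Φ N Q + Φ mS (act Q N) := by
    have h1 : (mS : Mat).det = 1 := by decide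
    have h2 : (!![1, n; 0, 1] : Mat).det = 1 := by simp [Matrix.det_fin_two_of]
    rw [d.c2 _ _ Q hN (by rw [Matrix.det_mul, h1, h2, mul_one]), d.c2 _ _ _ h1 h2, d.T, add_zero]
  rcases h with h | h
  · rw [h, key]
  · rw [h, d.c4, key]

theorem mbS (z : ℂ) : mb mS z = -1 / z := by
  simp [mb, mS]

theorem Dat.base (d : Dat l a G Φ) (Q : Frm) :
    Φ mS Q = G Q Complex.I - G (act Q mS) Complex.I := by
  have h := d.c1 mS Q Complex.I (by decide) (by simp)
  rw [mbS] at h
  have e : (-1 : ℂ) / Complex.I = Complex.I := by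
    rw [div_eq_iff Complex.I_ne_zero, Complex.I_mul_I]
  rw [e] at h
  exact h.symm

theorem Dat.inf (d : Dat l a G Φ) (hl : 0 < l) (Q : Frm) :
    Φ mS (act Q !![1, 0; 0, (l : ℤ)]) = G (act Q !![1, 0; 0, (l : ℤ)]) (l * Complex.I) -
      G (act (act Q mS) !![(l : ℤ), 0; 0, 1]) (Complex.I / l) := by
  have hl0 : (l : ℂ) ≠ 0 := by exact_mod_cast hl.ne'
  have hlr : (0 : ℝ) < l := by exact_mod_cast hl
  have hz : 0 < (Complex.I / (l : ℂ)).im := by
    rw [Complex.div_natCast_im, Complex.I_im]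
    positivity
  have h := d.c1 mS (act Q !![1, 0; 0, (l : ℤ)]) (Complex.I / l) (by decide) hz
  rw [mbS] at h
  have e : (-1 : ℂ) / (Complex.I / l) = l * Complex.I := by
    have := Complex.I_ne_zero
    field_simp
    linear_combination (-1 : ℂ) * Complex.I_sq
  rw [e, act_act] at h
  have e2 : (!![1, 0; 0, (l : ℤ)] * mS : Mat) = mS * !![(l : ℤ), 0; 0, 1] := by
    simp [mS]
  rw [e2] at h
  rw [act_act Q mS, ← h]

theorem Dat.zer (d : Dat l a G Φ) (hl : 0 < l) (Q : Frm) :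
    Φ mS (act Q !![(l : ℤ), 0; 0, 1]) = G (act Q !![(l : ℤ), 0; 0, 1]) (Complex.I / l) -
      G (act (act Q mS) !![1, 0; 0, (l : ℤ)]) (l * Complex.I) := by
  have hl0 : (l : ℂ) ≠ 0 := by exact_mod_cast hl.ne'
  have hlr : (0 : ℝ) < l := by exact_mod_cast hl
  have hz : 0 < ((l : ℂ) * Complex.I).im := by simpa using hl
  have h := d.c1 mS (act Q !![(l : ℤ), 0; 0, 1]) (l * Complex.I) (by decide) hz
  rw [mbS] at h
  have e : (-1 : ℂ) / (l * Complex.I) = Complex.I / l := by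
    have := Complex.I_ne_zero
    field_simp
    linear_combination (-1 : ℂ) * Complex.I_sq
  rw [e, act_act] at h
  have e2 : (!![(l : ℤ), 0; 0, 1] * mS : Mat) = mS * !![1, 0; 0, (l : ℤ)] := by
    simp [mS]
  rw [e2] at h
  rw [act_act Q mS, ← h]

theorem Dat.gam (d : Dat l a G Φ) (hl : 0 < l) (b b' m : ℤ) (hm : l * m = b * b' + 1) (Q : Frm) :
    Φ !![b, -m; (l : ℤ), -b'] (act Q !![(l : ℤ), -b; 0, 1]) =
      G (act Q !![(l : ℤ), -b; 0, 1]) ((Complex.I + b) / l) -
      G (act (act Q mS) !![(l : ℤ), -b'; 0, 1]) ((Complex.I + b') / l) := by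
  have hl0 : (l : ℂ) ≠ 0 := by exact_mod_cast hl.ne'
  have hlr : (0 : ℝ) < l := by exact_mod_cast hl
  have hz : 0 < ((Complex.I + b') / (l : ℂ)).im := by
    rw [Complex.div_natCast_im, Complex.add_im, Complex.I_im, Complex.intCast_im, add_zero]
    positivity
  have hdet : (!![b, -m; (l : ℤ), -b'] : Mat).det = 1 := by
    rw [Matrix.det_fin_two_of]
    linear_combination hm
  have h := d.c1 !![b, -m; (l : ℤ), -b'] (act Q !![(l : ℤ), -b; 0, 1]) ((Complex.I + b') / l)
    hdet hz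
  have hmc : (l : ℂ) * m = b * b' + 1 := by exact_mod_cast hm
  have e : mb !![b, -m; (l : ℤ), -b'] ((Complex.I + b') / l) = (Complex.I + b) / l := by
    have hI := Complex.I_ne_zero
    have e0 : (l : ℂ) * ((Complex.I + b') / l) + -(b' : ℂ) = Complex.I := by
      field_simp
      ring
    simp only [mb, Matrix.of_apply, Matrix.cons_val', Matrix.cons_val_zero, Matrix.cons_val_one,
      Matrix.cons_val_fin_one, Int.cast_natCast, Int.cast_neg]
    rw [e0]
    field_simp
    linear_combination (-1 : ℂ) * Complex.I_sq - hmc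
  rw [e, act_act] at h
  have e2 : (!![(l : ℤ), -b; 0, 1] * !![b, -m; (l : ℤ), -b'] : Mat) =
      mS * !![(l : ℤ), -b'; 0, 1] := by
    have e3 : -((l : ℤ) * m) + b * b' = -1 := by linear_combination -hm
    have e4 : (l : ℤ) * b + -(b * l) = 0 := by ring
    simp [mS, e3, e4]
  rw [e2] at h
  rw [act_act Q mS, ← h]

theorem Dat.two {a : ℂ} {G : Frm → ℂ → ℂ} {Φ : Mat → Frm → ℂ} (d : Dat 2 a G Φ) (Q : Frm) :
    a * Φ mS Q = TL L2 (Φ mS) Q := by
  have hb := d.base Q
  have h1 := d.h Q Complex.I (by simp)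
  have h2 := d.h (act Q mS) Complex.I (by simp)
  have hi := d.inf (by norm_num) Q
  have hz := d.zer (by norm_num) Q
  have g1 := d.gam (by norm_num) 1 1 1 (by norm_num) Q
  have s1 := d.step 1 !![0, -1; 1, -2] (-2) (by decide) (Or.inl (by decide))
    (act Q !![(2 : ℤ), -1; 0, 1])
  have s2 := d.step !![0, -1; 1, -2] !![1, -1; 2, -1] (-1) (by decide) (Or.inr (by decide))
    (act Q !![(2 : ℤ), -1; 0, 1])
  rw [d.one, act_one, zero_add] at s1
  rw [s1, act_act] at s2
  simp only [Finset.sum_range_succ, Finset.sum_range_zero, zero_add, Nat.cast_zero, Nat.cast_one,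
    Nat.cast_ofNat, neg_zero, add_zero, Int.cast_one] at h1 h2 hi hz g1
  have p1 : (!![2, -1; 0, 1] * !![0, -1; 1, -2] : Mat) = !![-1, 0; 1, -2] := by decide
  rw [p1] at s2
  simp only [TL, L2, List.map_cons, List.map_nil, List.sum_cons, List.sum_nil]
  linear_combination a * hb + h1 - h2 - hi - hz - g1 + s2

theorem Dat.seven {a : ℂ} {G : Frm → ℂ → ℂ} {Φ : Mat → Frm → ℂ} (d : Dat 7 a G Φ) (Q : Frm) :
    a * Φ mS Q = TL L7 (Φ mS) Q := by
  have hb := d.base Q
  have h1 := d.h Q Complex.I (by simp)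
  have h2 := d.h (act Q mS) Complex.I (by simp)
  have hi := d.inf (by norm_num) Q
  have hz := d.zer (by norm_num) Q
  have g1 := d.gam (by norm_num) 1 6 1 (by norm_num) Q
  have s10 := d.step 1 !![0, -1; 1, -7] (-7) (by decide) (Or.inl (by decide))
    (act Q !![(7 : ℤ), -1; 0, 1])
  rw [d.one, act_one, zero_add] at s10
  have s11 := d.step !![0, -1; 1, -7] !![1, -1; 7, -6] (-1) (by decide) (Or.inr (by decide))
    (act Q !![(7 : ℤ), -1; 0, 1])
  rw [s10, act_act, show (!![7, -1; 0, 1] * !![0, -1; 1, -7] : Mat) = !![-1, 0; 1, -7] by decide] at s11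
  have g2 := d.gam (by norm_num) 2 3 1 (by norm_num) Q
  have s20 := d.step 1 !![0, -1; 1, -3] (-3) (by decide) (Or.inl (by decide))
    (act Q !![(7 : ℤ), -2; 0, 1])
  rw [d.one, act_one, zero_add] at s20
  have s21 := d.step !![0, -1; 1, -3] !![1, 2; 3, 7] (2) (by decide) (Or.inr (by decide))
    (act Q !![(7 : ℤ), -2; 0, 1])
  rw [s20, act_act, show (!![7, -2; 0, 1] * !![0, -1; 1, -3] : Mat) = !![-2, -1; 1, -3] by decide] at s21
  have s22 := d.step !![1, 2; 3, 7] !![2, -1; 7, -3] (0) (by decide) (Or.inl (by decide))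
    (act Q !![(7 : ℤ), -2; 0, 1])
  rw [s21, act_act, show (!![7, -2; 0, 1] * !![1, 2; 3, 7] : Mat) = !![1, 0; 3, 7] by decide] at s22
  have g3 := d.gam (by norm_num) 3 2 1 (by norm_num) Q
  have s30 := d.step 1 !![0, -1; 1, -2] (-2) (by decide) (Or.inl (by decide))
    (act Q !![(7 : ℤ), -3; 0, 1])
  rw [d.one, act_one, zero_add] at s30
  have s31 := d.step !![0, -1; 1, -2] !![1, 3; 2, 7] (3) (by decide) (Or.inr (by decide))
    (act Q !![(7 : ℤ), -3; 0, 1])
  rw [s30, act_act, show (!![7, -3; 0, 1] * !![0, -1; 1, -2] : Mat) = !![-3, -1; 1, -2] by decide] at s31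
  have s32 := d.step !![1, 3; 2, 7] !![3, -1; 7, -2] (0) (by decide) (Or.inl (by decide))
    (act Q !![(7 : ℤ), -3; 0, 1])
  rw [s31, act_act, show (!![7, -3; 0, 1] * !![1, 3; 2, 7] : Mat) = !![1, 0; 2, 7] by decide] at s32
  have g4 := d.gam (by norm_num) 4 5 3 (by norm_num) Q
  have s40 := d.step 1 !![0, -1; 1, -1] (-1) (by decide) (Or.inl (by decide))
    (act Q !![(7 : ℤ), -4; 0, 1])
  rw [d.one, act_one, zero_add] at s40
  have s41 := d.step !![0, -1; 1, -1] !![1, 1; 1, 2] (1) (by decide) (Or.inr (by decide))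
    (act Q !![(7 : ℤ), -4; 0, 1])
  rw [s40, act_act, show (!![7, -4; 0, 1] * !![0, -1; 1, -1] : Mat) = !![-4, -3; 1, -1] by decide] at s41
  have s42 := d.step !![1, 1; 1, 2] !![1, -4; 2, -7] (-3) (by decide) (Or.inl (by decide))
    (act Q !![(7 : ℤ), -4; 0, 1])
  rw [s41, act_act, show (!![7, -4; 0, 1] * !![1, 1; 1, 2] : Mat) = !![3, -1; 1, 2] by decide] at s42
  have s43 := d.step !![1, -4; 2, -7] !![4, -3; 7, -5] (-1) (by decide) (Or.inr (by decide))
    (act Q !![(7 : ℤ), -4; 0, 1])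
  rw [s42, act_act, show (!![7, -4; 0, 1] * !![1, -4; 2, -7] : Mat) = !![-1, 0; 2, -7] by decide] at s43
  have g5 := d.gam (by norm_num) 5 4 3 (by norm_num) Q
  have s50 := d.step 1 !![0, -1; 1, -1] (-1) (by decide) (Or.inl (by decide))
    (act Q !![(7 : ℤ), -5; 0, 1])
  rw [d.one, act_one, zero_add] at s50
  have s51 := d.step !![0, -1; 1, -1] !![1, 2; 1, 3] (2) (by decide) (Or.inr (by decide))
    (act Q !![(7 : ℤ), -5; 0, 1])
  rw [s50, act_act, show (!![7, -5; 0, 1] * !![0, -1; 1, -1] : Mat) = !![-5, -2; 1, -1] by decide] at s51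
  have s52 := d.step !![1, 2; 1, 3] !![2, -5; 3, -7] (-2) (by decide) (Or.inl (by decide))
    (act Q !![(7 : ℤ), -5; 0, 1])
  rw [s51, act_act, show (!![7, -5; 0, 1] * !![1, 2; 1, 3] : Mat) = !![2, -1; 1, 3] by decide] at s52
  have s53 := d.step !![2, -5; 3, -7] !![5, -3; 7, -4] (-1) (by decide) (Or.inr (by decide))
    (act Q !![(7 : ℤ), -5; 0, 1])
  rw [s52, act_act, show (!![7, -5; 0, 1] * !![2, -5; 3, -7] : Mat) = !![-1, 0; 3, -7] by decide] at s53
  have g6 := d.gam (by norm_num) 6 1 1 (by norm_num) Q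
  have s60 := d.step 1 !![0, -1; 1, -1] (-1) (by decide) (Or.inl (by decide))
    (act Q !![(7 : ℤ), -6; 0, 1])
  rw [d.one, act_one, zero_add] at s60
  have s61 := d.step !![0, -1; 1, -1] !![1, 6; 1, 7] (6) (by decide) (Or.inr (by decide))
    (act Q !![(7 : ℤ), -6; 0, 1])
  rw [s60, act_act, show (!![7, -6; 0, 1] * !![0, -1; 1, -1] : Mat) = !![-6, -1; 1, -1] by decide] at s61
  have s62 := d.step !![1, 6; 1, 7] !![6, -1; 7, -1] (0) (by decide) (Or.inl (by decide))
    (act Q !![(7 : ℤ), -6; 0, 1])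
  rw [s61, act_act, show (!![7, -6; 0, 1] * !![1, 6; 1, 7] : Mat) = !![1, 0; 1, 7] by decide] at s62
  simp only [Finset.sum_range_succ, Finset.sum_range_zero, zero_add, Nat.cast_zero, Nat.cast_one,
    Nat.cast_ofNat, neg_zero, add_zero, Int.cast_one, Int.cast_ofNat] at h1 h2 hi hz g1 g2 g3 g4 g5 g6
  simp only [TL, L7, List.map_cons, List.map_nil, List.sum_cons, List.sum_nil]
  linear_combination a * hb + h1 - h2 - hi - hz - g1 - g2 - g3 - g4 - g5 - g6 + s11 + s22 + s32 + s43 + s53 + s62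

/-! ### the two sets of data -/

theorem dat1 (hHecG : StHecG) (hCoc : StCoc) {k w : ℕ} (f : CuspForm 𝒮ℒ (w : ℤ)) (hk : 1 ≤ k)
    (hw : w = 2 * k) (hf : IsEigen f) (p : ℕ) (hp : p.Prime) :
    Dat p (coef f p) (fun Q z => Gp f (pw k Q) z) (Phi k f) where
  c1 := fun M Q z hM hz => (hCoc k w f hk hw).1 M Q z hM hz
  c2 := (hCoc k w f hk hw).2.1
  c3 := (hCoc k w f hk hw).2.2.1
  c4 := (hCoc k w f hk hw).2.2.2
  h := fun Q z hz => by
    have h := hHecG k w f hk hw hf p Q z 1 hp hz (Or.inl rfl)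
    simpa using h

theorem conjE (M : Mat) : mE * M * mE = !![M 0 0, -M 0 1; -M 1 0, M 1 1] := by
  ext i j
  rw [Matrix.mul_apply, Fin.sum_univ_two, Matrix.mul_apply, Matrix.mul_apply, Fin.sum_univ_two,
    Fin.sum_univ_two]
  fin_cases i <;> fin_cases j <;> simp [mE]

theorem mir_act (Q : Frm) (M : Mat) : mir (act Q M) = act (mir Q) (mE * M * mE) := by
  rw [conjE]
  funext i
  fin_cases i <;> simp [act, mir] <;> ring

theorem mir_mir (Q : Frm) : mir (mir Q) = Q := by
  funext i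
  fin_cases i <;> simp [mir]

theorem mE_mE : mE * mE = 1 := by decide

theorem conj_mb (M : Mat) (z : ℂ) :
    mb (mE * M * mE) (-(starRingEnd ℂ) z) = -(starRingEnd ℂ) (mb M z) := by
  rw [conjE]
  simp only [mb, Matrix.of_apply, Matrix.cons_val',
    Matrix.cons_val_zero, Matrix.cons_val_one, Matrix.cons_val_fin_one]
  simp only [map_div₀, map_add, map_mul, map_intCast]
  push_cast
  rw [← neg_div]
  congr 1 <;> ring

theorem dat2 (hHecG : StHecG) (hCoc : StCoc) {k w : ℕ} (f : CuspForm 𝒮ℒ (w : ℤ)) (hk : 1 ≤ k)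
    (hw : w = 2 * k) (hf : IsEigen f) (p : ℕ) (hp : p.Prime) :
    Dat p (coef f p) (fun Q z => Gp f (pw k (mir Q)) (-(starRingEnd ℂ) z))
      (fun M Q => Phi k f (mE * M * mE) (mir Q)) where
  c1 := fun M Q z hM hz => by
    have hd : (mE * M * mE).det = 1 := by
      rw [Matrix.det_mul, Matrix.det_mul, hM]
      decide
    have h := (hCoc k w f hk hw).1 (mE * M * mE) (mir Q) (-(starRingEnd ℂ) z) hd
      (by simpa using hz)
    rw [conj_mb, ← mir_act] at h
    exact h
  c2 := fun M N Q hM hN => by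
    have hd : (mE * M * mE).det = 1 := by
      rw [Matrix.det_mul, Matrix.det_mul, hM]
      decide
    have hd' : (mE * N * mE).det = 1 := by
      rw [Matrix.det_mul, Matrix.det_mul, hN]
      decide
    have h := (hCoc k w f hk hw).2.1 (mE * M * mE) (mE * N * mE) (mir Q) hd hd'
    have e : mE * M * mE * (mE * N * mE) = mE * (M * N) * mE := by
      rw [Matrix.mul_assoc (mE * M), ← Matrix.mul_assoc mE (mE * N), ← Matrix.mul_assoc mE mE,
        mE_mE, Matrix.one_mul]
      simp only [Matrix.mul_assoc]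
    rw [e, ← mir_act] at h
    exact h
  c3 := fun Q => by
    have e : mE * mT * mE = !![1, -1; 0, 1] := by decide
    change Phi k f (mE * mT * mE) (mir Q) = 0
    rw [e]
    exact (dat1 hHecG hCoc f hk hw hf p hp).T (-1) (mir Q)
  c4 := fun M Q => by
    have e : mE * -M * mE = -(mE * M * mE) := by
      rw [Matrix.mul_neg, Matrix.neg_mul]
    change Phi k f (mE * -M * mE) (mir Q) = Phi k f (mE * M * mE) (mir Q)
    rw [e]
    exact (hCoc k w f hk hw).2.2.2 _ _
  h := fun Q z hz => by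
    have h := hHecG k w f hk hw hf p (mir Q) (-(starRingEnd ℂ) z) (-1) hp (by simpa using hz)
      (Or.inr rfl)
    have e1 : mir (act Q !![1, 0; 0, (p : ℤ)]) = act (mir Q) !![1, 0; 0, (p : ℤ)] := by
      rw [mir_act, conjE]
      simp
    have e2 : ∀ b : ℕ, mir (act Q !![(p : ℤ), -(b : ℤ); 0, 1]) =
        act (mir Q) !![(p : ℤ), -(-1 * (b : ℤ)); 0, 1] := by
      intro b
      rw [mir_act, conjE]
      simp
    have z1 : (p : ℂ) * -(starRingEnd ℂ) z = -(starRingEnd ℂ) (p * z) := by simp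
    have z2 : ∀ b : ℕ, (-(starRingEnd ℂ) z + ((-1 : ℤ) : ℂ) * (b : ℂ)) / (p : ℂ) =
        -(starRingEnd ℂ) ((z + b) / p) := by
      intro b
      simp only [map_div₀, map_add, Complex.conj_natCast]
      push_cast
      ring
    rw [z1] at h
    simp only [z2, ← e1, ← e2] at h
    exact h

end HecX

open HecX in
/-- (Hec) Hecke operators and the cocycle. -/
theorem stHec (hHecG : StHecG) (hCoc : StCoc) : StHec := by
  intro k w f hk hw hf Q
  have key : ∀ Q : Frm, Phi k f (mE * mS * mE) (mir Q) = Phi k f mS (mir Q) := by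
    intro Q
    have e : mE * mS * mE = -mS := by decide
    rw [e]
    exact (hCoc k w f hk hw).2.2.2 _ _
  have keyf : (fun Q => Phi k f (mE * mS * mE) (mir Q)) = fun Q => Phi k f mS (mir Q) :=
    funext key
  refine ⟨(dat1 hHecG hCoc f hk hw hf 2 (by norm_num)).two Q, ?_,
    (dat1 hHecG hCoc f hk hw hf 7 (by norm_num)).seven Q, ?_⟩
  · have h := (dat2 hHecG hCoc f hk hw hf 2 (by norm_num)).two Q
    change coef f 2 * Phi k f (mE * mS * mE) (mir Q) =
      TL L2 (fun Q => Phi k f (mE * mS * mE) (mir Q)) Q at h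
    rw [keyf, key] at h
    exact h
  · have h := (dat2 hHecG hCoc f hk hw hf 7 (by norm_num)).seven Q
    change coef f 7 * Phi k f (mE * mS * mE) (mir Q) =
      TL L7 (fun Q => Phi k f (mE * mS * mE) (mir Q)) Q at h
    rw [keyf, key] at h
    exact h

end LO

end Pool.Agent.Lib.MP_7c5fb9_nt
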