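import Mathlib
import Pool.Agent.Lib.MP_7c5fb9_nt.LO.Stmts
import Pool.Agent.Lib.MP_7c08ba_nt.RZ.TrF
import Pool.Agent.Lib.MP_7c08ba_nt.RZ.Coef

set_option autoImplicit false

/-!
# (HecG) Hecke operators and primitives
-/

namespace Pool.Agent.Lib.MP_7c5fb9_nt

namespace LO

open Pool.Agent.Lib.MP_7c08ba_nt.RZ UpperHalfPlane Filter Topology
open scoped MatrixGroups Polynomial nonZeroDivisors

namespace HecGAux

variable {w : ℕ}

theorem pw_natDegree (k : ℕ) (Q : Frm) (hk : 1 ≤ k) : (pw k Q).natDegree < 2 * k := by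
  unfold pw
  refine lt_of_le_of_lt Polynomial.natDegree_pow_le ?_
  have h : (Polynomial.C (Q 0 : ℂ) * Polynomial.X ^ 2 + Polynomial.C (Q 1 : ℂ) * Polynomial.X +
    Polynomial.C (Q 2 : ℂ)).natDegree ≤ 2 := Polynomial.natDegree_quadratic_le
  calc (k - 1) * (Polynomial.C (Q 0 : ℂ) * Polynomial.X ^ 2 +
        Polynomial.C (Q 1 : ℂ) * Polynomial.X + Polynomial.C (Q 2 : ℂ)).natDegree
      ≤ (k - 1) * 2 := Nat.mul_le_mul_left _ h
    _ < 2 * k := by omega

theorem pw_eval (k : ℕ) (Q : Frm) (z : ℂ) : (pw k Q).eval z = qv Q z ^ (k - 1) := by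
  simp [pw, qv]

theorem per (f : CuspForm 𝒮ℒ (w : ℤ)) {z : ℂ} (hz : 0 < z.im) :
    f (ofComplex (z + 1)) = f (ofComplex z) := by
  obtain ⟨-, -, hexp, -, -⟩ := stCoef w f
  rw [(hexp (z + 1) (by simpa using hz)).2, (hexp z hz).2]
  refine tsum_congr fun n => ?_
  congr 1
  unfold ee
  have h1 : 2 * (Real.pi : ℂ) * Complex.I * (n * (z + 1)) =
      2 * (Real.pi : ℂ) * Complex.I * (n * z) + (n : ℂ) * (2 * Real.pi * Complex.I) := by
    ring
  rw [h1, Complex.exp_add, Complex.exp_nat_mul_two_pi_mul_I, mul_one]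

theorem per_sum (f : CuspForm 𝒮ℒ (w : ℤ)) {z : ℂ} (hz : 0 < z.im) (p : ℕ) (hp : 0 < p)
    (σ : ℤ) (hσ : σ = 1 ∨ σ = -1) :
    ∑ b ∈ Finset.range p, f (ofComplex ((z + σ * b) / p)) =
      ∑ b ∈ Finset.range p, f (ofComplex ((z + b) / p)) := by
  rcases hσ with rfl | rfl
  · simp
  · obtain ⟨m, rfl⟩ : ∃ m, p = m + 1 := ⟨p - 1, by omega⟩
    rw [Finset.sum_range_succ', Finset.sum_range_succ' (fun b : ℕ =>
      f (ofComplex ((z + b) / ((m + 1 : ℕ) : ℂ))))]
    congr 1
    · rw [← Finset.sum_range_reflect (fun b : ℕ =>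
        f (ofComplex ((z + ((b + 1 : ℕ) : ℂ)) / ((m + 1 : ℕ) : ℂ))))]
      refine Finset.sum_congr rfl fun b hb => ?_
      rw [Finset.mem_range] at hb
      have hm : ((m + 1 : ℕ) : ℂ) ≠ 0 := by exact_mod_cast Nat.succ_ne_zero m
      have him : 0 < ((z + ((-1 : ℤ) : ℂ) * ((b + 1 : ℕ) : ℂ)) / ((m + 1 : ℕ) : ℂ)).im := by
        rw [Complex.div_natCast_im]
        have : (z + ((-1 : ℤ) : ℂ) * ((b + 1 : ℕ) : ℂ)).im = z.im := by simp
        rw [this]
        positivity
      rw [← per f him]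
      congr 2
      have h2 : m - 1 - b + 1 = m - b := by omega
      rw [h2, Nat.cast_sub hb.le, div_add_one hm]
      congr 1
      push_cast
      ring
    · simp

theorem tendsto_Gp (hPrim : StPrim) (f : CuspForm 𝒮ℒ (w : ℤ)) (P : ℂ[X])
    (hP : P.natDegree < w) (x c : ℝ) (hc : 0 < c) :
    Tendsto (fun y : ℝ => Gp f P ((x : ℂ) + ((c * y : ℝ) : ℂ) * Complex.I)) atTop (𝓝 0) := by
  rw [Metric.tendsto_atTop]
  intro ε hε
  obtain ⟨Y, hY, h⟩ := (hPrim w f P hP).2 |x| (ε / 2) (by positivity)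
  refine ⟨Y / c, fun y hy => ?_⟩
  rw [dist_zero_right]
  have h1 : Y ≤ c * y := by
    rw [ge_iff_le, div_le_iff₀' hc] at hy
    exact hy
  refine lt_of_le_of_lt (h _ ?_ ?_) (half_lt_self hε)
  · simp
  · simpa using h1

/-- The value of the transformed form, first kind of matrices. -/
theorem qv_one (Q : Frm) (p z : ℂ) (n : ℤ) (hn : (n : ℂ) = p) :
    qv (act Q !![1, 0; 0, n]) (p * z) = p ^ 2 * qv Q z := by
  simp only [qv, act, Matrix.cons_val_zero, Matrix.cons_val_one, Matrix.cons_val, Matrix.of_apply,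
    Matrix.cons_val', Matrix.cons_val_fin_one]
  push_cast
  rw [hn]
  ring

/-- The value of the transformed form, second kind of matrices. -/
theorem qv_two (Q : Frm) (p z : ℂ) (n b : ℤ) (hn : (n : ℂ) = p) (hp : p ≠ 0) :
    qv (act Q !![n, -b; 0, 1]) ((z + b) / p) = qv Q z := by
  simp only [qv, act, Matrix.cons_val_zero, Matrix.cons_val_one, Matrix.cons_val, Matrix.of_apply,
    Matrix.cons_val', Matrix.cons_val_fin_one]
  push_cast
  rw [hn]
  field_simp
  ring

end HecGAux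

open HecGAux in
theorem stHecG (hPrim : StPrim) (_hCoc : StCoc) : StHecG := by
  intro k w f hk hw hf p Q z σ hp hz hσ
  have hdeg : ∀ R : Frm, (pw k R).natDegree < w := fun R => hw ▸ pw_natDegree k R hk
  have hp0 : (p : ℂ) ≠ 0 := by exact_mod_cast hp.ne_zero
  have hpr : (0 : ℝ) < p := by exact_mod_cast hp.pos
  set P1 : ℂ[X] := pw k (act Q !![1, 0; 0, (p : ℤ)]) with hP1
  set P2 : ℕ → ℂ[X] := fun b => pw k (act Q !![(p : ℤ), -(σ * b); 0, 1]) with hP2
  set D : ℂ → ℂ := fun z => coef f p * Gp f (pw k Q) z - (Gp f P1 (p * z) +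
    ∑ b ∈ Finset.range p, Gp f (P2 b) ((z + σ * b) / p)) with hD
  have him1 : ∀ z : ℂ, 0 < z.im → 0 < ((p : ℂ) * z).im := by
    intro z hz
    have h : ((p : ℂ) * z).im = p * z.im := by simp
    rw [h]
    positivity
  have him2 : ∀ (z : ℂ) (b : ℕ), 0 < z.im → 0 < ((z + σ * b) / p).im := by
    intro z b hz
    rw [Complex.div_natCast_im]
    have : (z + (σ : ℂ) * b).im = z.im := by
      rcases hσ with rfl | rfl <;> simp
    rw [this]
    positivity
  -- the derivative
  have hder : ∀ z : ℂ, 0 < z.im → HasDerivAt D 0 z := by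
    intro z hz
    have h0 := ((hPrim w f (pw k Q) (hdeg Q)).1 z hz).const_mul (coef f p)
    have h1 : HasDerivAt (fun z : ℂ => Gp f P1 (p * z))
        (f (ofComplex (p * z)) * P1.eval (p * z) * (p * 1)) z :=
      ((hPrim w f P1 (hdeg _)).1 (p * z) (him1 z hz)).comp z ((hasDerivAt_id z).const_mul (p : ℂ))
    have h2 : ∀ b ∈ Finset.range p, HasDerivAt (fun z : ℂ => Gp f (P2 b) ((z + σ * b) / p))
        (f (ofComplex ((z + σ * b) / p)) * (P2 b).eval ((z + σ * b) / p) * (1 / p)) z := by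
      intro b _
      have ha := (hPrim w f (P2 b) (hdeg _)).1 ((z + σ * b) / p) (him2 z b hz)
      have hb : HasDerivAt (fun z : ℂ => (z + (σ : ℂ) * b) / p) (1 / p) z :=
        ((hasDerivAt_id z).add_const ((σ : ℂ) * b)).div_const (p : ℂ)
      exact ha.comp z hb
    have h3 := h0.sub (h1.add (HasDerivAt.fun_sum h2))
    refine h3.congr_deriv ?_
    have e1 : P1.eval (p * z) = ((p : ℂ) ^ 2 * qv Q z) ^ (k - 1) := by
      rw [hP1, pw_eval, qv_one Q p z p (by simp)]
    have e2 : ∀ b : ℕ, (P2 b).eval ((z + σ * b) / p) = qv Q z ^ (k - 1) := by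
      intro b
      have h := qv_two Q p z p (σ * b) (by simp) hp0
      push_cast at h
      rw [hP2, pw_eval, h]
    rw [e1, pw_eval]
    simp only [e2]
    have hT := stTrF w f hf p z hp.one_lt.le hz
    rw [hp.divisors, Finset.sum_pair hp.one_lt.ne] at hT
    simp only [Finset.sum_range_one, Nat.div_one, Nat.cast_one, inv_one, mul_one, Nat.cast_zero,
      add_zero, div_one, Nat.div_self hp.pos, one_pow, one_mul] at hT
    rw [← Finset.mul_sum, ← per_sum f hz p hp.pos σ hσ] at hT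
    rw [← mul_assoc (coef f p), ← hT, ← Finset.sum_mul, ← Finset.sum_mul]
    have hw1 : w - 1 = 2 * (k - 1) + 1 := by omega
    rw [hw1, mul_pow, pow_succ, pow_mul]
    field_simp
    ring
  have hopen : IsOpen {z : ℂ | 0 < z.im} := isOpen_lt continuous_const Complex.continuous_im
  have hconv : Convex ℝ {z : ℂ | 0 < z.im} := convex_halfSpace_im_gt 0
  have hconst : ∀ z₁ z₂ : ℂ, 0 < z₁.im → 0 < z₂.im → D z₁ = D z₂ := by
    intro z₁ z₂ hz₁ hz₂
    exact hopen.is_const_of_deriv_eq_zero hconv.isPreconnected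
      (fun z hz => (hder z hz).differentiableAt.differentiableWithinAt)
      (fun z hz => (hder z hz).deriv) hz₁ hz₂
  -- the limit
  have hlim : Tendsto (fun y : ℝ => D (y * Complex.I)) atTop (𝓝 0) := by
    have h0 := tendsto_Gp hPrim f (pw k Q) (hdeg Q) 0 1 one_pos
    have h1 := tendsto_Gp hPrim f P1 (hdeg _) 0 p hpr
    have h2 : ∀ b ∈ Finset.range p, Tendsto (fun y : ℝ => Gp f (P2 b)
        ((((σ * b / p : ℝ)) : ℂ) + (((1 / p) * y : ℝ) : ℂ) * Complex.I)) atTop (𝓝 0) :=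
      fun b _ => tendsto_Gp hPrim f (P2 b) (hdeg _) _ _ (by positivity)
    have h3 := (h0.const_mul (coef f p)).sub (h1.add (tendsto_finsetSum _ h2))
    rw [mul_zero, Finset.sum_const_zero, add_zero, sub_zero] at h3
    refine h3.congr fun y => ?_
    simp only [hD]
    congr 1
    · push_cast
      ring_nf
    · congr 1
      · push_cast
        ring_nf
      · refine Finset.sum_congr rfl fun b _ => ?_
        congr 1
        push_cast
        field_simp
        ring
  have hzero : D z = 0 := by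
    have h1 : Tendsto (fun y : ℝ => D (y * Complex.I)) atTop (𝓝 (D z)) := by
      refine tendsto_const_nhds.congr' ?_
      filter_upwards [eventually_gt_atTop 0] with y hy
      exact hconst z (y * Complex.I) hz (by simpa using hy)
    exact tendsto_nhds_unique h1 hlim
  exact sub_eq_zero.mp hzero

end LO

end Pool.Agent.Lib.MP_7c5fb9_nt
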