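import Pool.Agent.Lib.MP_7c5fb9_nt.LO.Stmts

set_option autoImplicit false

/-!
Module Hk: the Hecke operators preserve the relations of periods. The values `v (X * M)` are modular
symbols in the rows of `X`, and each relation is a sum of Farey triangles.
-/

namespace Pool.Agent.Lib.MP_7c5fb9_nt

namespace LO

namespace HkAux

/-- The value at an explicit left multiple of `M`. -/
def g (v : Mat → ZMod 3) (M : Mat) (a b c d : ℤ) : ZMod 3 := v (!![a, b; c, d] * M)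

section

variable {m : ℕ} {v : Mat → ZMod 3} (hv : MF m v) (hw : WR v) (M : Mat)

include hw in
theorem gE (a b c d : ℤ) : g v M (-a) (-b) c d = g v M a b c d := by
  have h := hw.E (!![a, b; c, d] * M)
  rw [← Matrix.mul_assoc, mE, Matrix.mul_fin_two] at h
  simpa [g] using h

include hw in
theorem gS (a b c d : ℤ) : g v M (-c) (-d) a b = -g v M a b c d := by
  have h := hw.S (!![a, b; c, d] * M)
  rw [← Matrix.mul_assoc, mS, Matrix.mul_fin_two] at h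
  simpa [g] using h

include hw in
theorem gU (a b c d : ℤ) :
    g v M a b c d + g v M (a - c) (b - d) a b + g v M (-c) (-d) (a - c) (b - d) = 0 := by
  have h := hw.U (!![a, b; c, d] * M)
  rw [Matrix.mul_assoc mU mU, ← Matrix.mul_assoc mU, mU, Matrix.mul_fin_two, ← Matrix.mul_assoc,
    Matrix.mul_fin_two] at h
  simp only [one_mul, neg_mul, zero_mul, add_zero, sub_sub_cancel_left, ← sub_eq_add_neg] at h
  simpa [g] using h

include hv in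
theorem gN (a b c d : ℤ) : g v M (-a) (-b) (-c) (-d) = g v M a b c d := by
  have h := hv.scal (-1) (!![a, b; c, d] * M) (by decide)
  unfold g
  rw [← h]
  congr 1
  rw [← Matrix.smul_mul]
  congr 1
  ext i j
  fin_cases i <;> fin_cases j <;> simp

include hv hw in
theorem gE' (a b c d : ℤ) : g v M a b (-c) (-d) = g v M a b c d := by
  have h := gN hv M a b c d
  rw [gE hw] at h
  exact h

include hv hw in
theorem same (a b c d a' b' c' d' : ℤ) (h : (a = a' ∧ b = b' ∨ a = -a' ∧ b = -b') ∧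
    (c = c' ∧ d = d' ∨ c = -c' ∧ d = -d')) : g v M a b c d = g v M a' b' c' d' := by
  rcases h with ⟨⟨rfl, rfl⟩ | ⟨rfl, rfl⟩, ⟨rfl, rfl⟩ | ⟨rfl, rfl⟩⟩
  · rfl
  · exact gE' hv hw M _ _ _ _
  · exact gE hw M _ _ _ _
  · exact gN hv M _ _ _ _

include hv hw in
theorem swp (a b c d a' b' c' d' : ℤ) (h : (a = c' ∧ b = d' ∨ a = -c' ∧ b = -d') ∧
    (c = a' ∧ d = b' ∨ c = -a' ∧ d = -b')) : g v M a b c d = -g v M a' b' c' d' := by
  rw [same hv hw M a b c d (-c') (-d') a' b' ?_, gS hw]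
  rcases h with ⟨⟨h1, h2⟩ | ⟨h1, h2⟩, h3⟩
  · exact ⟨Or.inr ⟨by rw [h1, neg_neg], by rw [h2, neg_neg]⟩, h3⟩
  · exact ⟨Or.inl ⟨h1, h2⟩, h3⟩

include hv hw in
/-- Farey triangles. -/
theorem tr (a b c d e f : ℤ) (h : (e = a - c ∧ f = b - d ∨ e = c - a ∧ f = d - b) ∨
    (e = a + c ∧ f = b + d ∨ e = -(a + c) ∧ f = -(b + d))) :
    g v M a b c d + g v M c d e f + g v M e f a b = 0 := by
  rcases h with h | h
  · have h1 := gU hw M a b c d
    have h2 : g v M e f a b = g v M (a - c) (b - d) a b := same hv hw M _ _ _ _ _ _ _ _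
      ⟨by rcases h with h | h <;> [left; right] <;> constructor <;> linarith [h.1, h.2],
        Or.inl ⟨rfl, rfl⟩⟩
    have h3 : g v M c d e f = g v M (-c) (-d) (a - c) (b - d) := same hv hw M _ _ _ _ _ _ _ _
      ⟨Or.inr ⟨by ring, by ring⟩,
        by rcases h with h | h <;> [left; right] <;> constructor <;> linarith [h.1, h.2]⟩
    linear_combination h1 + h2 + h3
  · have h1 := gU hw M a b (-c) (-d)
    have h0 : g v M a b c d = g v M a b (-c) (-d) := (gE' hv hw M a b c d).symm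
    have h2 : g v M e f a b = g v M (a - -c) (b - -d) a b := same hv hw M _ _ _ _ _ _ _ _
      ⟨by rcases h with h | h <;> [left; right] <;> constructor <;> linarith [h.1, h.2],
        Or.inl ⟨rfl, rfl⟩⟩
    have h3 : g v M c d e f = g v M (- -c) (- -d) (a - -c) (b - -d) :=
      same hv hw M _ _ _ _ _ _ _ _ ⟨Or.inl ⟨by ring, by ring⟩,
        by rcases h with h | h <;> [left; right] <;> constructor <;> linarith [h.1, h.2]⟩
    linear_combination h1 + h2 + h3 + h0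

end

theorem tm_L2_one (v : Mat → ZMod 3) (M : Mat) : TM L2 v M =
    g v M 2 0 0 1 + g v M 1 0 0 2 + g v M (-2) 0 (-1) (-1) + g v M 1 1 0 2 := by
  simp only [TM, L2, List.map_cons, List.map_nil, List.sum_cons, List.sum_nil, g,
    Matrix.adjugate_fin_two_of]
  norm_num [add_assoc]

theorem tm_L2_S (v : Mat → ZMod 3) (M : Mat) : TM L2 v (mS * M) =
    g v M 0 (-2) 1 0 + g v M 0 (-1) 2 0 + g v M 0 2 (-1) 1 + g v M 1 (-1) 2 0 := by
  simp only [TM, L2, List.map_cons, List.map_nil, List.sum_cons, List.sum_nil, g,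
    Matrix.adjugate_fin_two_of, mS, ← Matrix.mul_assoc, Matrix.mul_fin_two]
  norm_num [add_assoc]

theorem tm_L2_E (v : Mat → ZMod 3) (M : Mat) : TM L2 v (mE * M) =
    g v M (-2) 0 0 1 + g v M (-1) 0 0 2 + g v M 2 0 1 (-1) + g v M (-1) 1 0 2 := by
  simp only [TM, L2, List.map_cons, List.map_nil, List.sum_cons, List.sum_nil, g,
    Matrix.adjugate_fin_two_of, mE, ← Matrix.mul_assoc, Matrix.mul_fin_two]
  norm_num [add_assoc]

theorem tm_L2_U (v : Mat → ZMod 3) (M : Mat) : TM L2 v (mU * M) =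
    g v M 2 (-2) 1 0 + g v M 1 (-1) 2 0 + g v M (-2) 2 (-2) 1 + g v M 2 (-1) 2 0 := by
  simp only [TM, L2, List.map_cons, List.map_nil, List.sum_cons, List.sum_nil, g,
    Matrix.adjugate_fin_two_of, mU, ← Matrix.mul_assoc, Matrix.mul_fin_two]
  norm_num [add_assoc]

theorem tm_L2_UU (v : Mat → ZMod 3) (M : Mat) : TM L2 v (mU * mU * M) =
    g v M 0 (-2) 1 (-1) + g v M 0 (-1) 2 (-2) + g v M 0 2 (-1) 2 + g v M 1 (-2) 2 (-2) := by
  simp only [TM, L2, List.map_cons, List.map_nil, List.sum_cons, List.sum_nil, g,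
    Matrix.adjugate_fin_two_of, mU, ← Matrix.mul_assoc, Matrix.mul_fin_two]
  norm_num [add_assoc]

theorem hk_L2_S {m : ℕ} {v : Mat → ZMod 3} (hv : MF m v) (hw : WR v) (M : Mat) :
    TM L2 v (mS * M) = -TM L2 v M := by
  rw [tm_L2_S, tm_L2_one]
  linear_combination (same hv hw M 0 (-2) 1 0 0 2 1 0 (by decide))
    + (same hv hw M 0 (-1) 2 0 0 1 2 0 (by decide))
    + (same hv hw M 0 2 (-1) 1 0 2 1 (-1) (by decide))
    + (swp hv hw M 2 0 0 1 0 1 2 0 (by decide))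
    + (swp hv hw M 1 0 0 2 0 2 1 0 (by decide))
    + (swp hv hw M (-2) 0 (-1) (-1) 1 1 2 0 (by decide))
    + (swp hv hw M 1 1 0 2 0 2 1 1 (by decide))
    - (tr hv hw M 1 (-1) 1 1 2 0 (by decide))
    + (swp hv hw M 2 0 1 (-1) 1 (-1) 2 0 (by decide))
    + (tr hv hw M 0 2 1 (-1) 1 1 (by decide))
    - (swp hv hw M 1 1 0 2 0 2 1 1 (by decide))

theorem hk_L2_E {m : ℕ} {v : Mat → ZMod 3} (hv : MF m v) (hw : WR v) (M : Mat) :
    TM L2 v (mE * M) = TM L2 v M := by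
  rw [tm_L2_E, tm_L2_one]
  linear_combination (swp hv hw M (-2) 0 0 1 0 1 2 0 (by decide))
    + (swp hv hw M (-1) 0 0 2 0 2 1 0 (by decide))
    + (swp hv hw M 2 0 1 (-1) 1 (-1) 2 0 (by decide))
    + (swp hv hw M (-1) 1 0 2 0 2 1 (-1) (by decide))
    - (swp hv hw M 2 0 0 1 0 1 2 0 (by decide))
    - (swp hv hw M 1 0 0 2 0 2 1 0 (by decide))
    - (swp hv hw M (-2) 0 (-1) (-1) 1 1 2 0 (by decide))
    - (swp hv hw M 1 1 0 2 0 2 1 1 (by decide))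
    + (tr hv hw M 1 (-1) 1 1 2 0 (by decide))
    - (swp hv hw M 2 0 1 (-1) 1 (-1) 2 0 (by decide))
    - (tr hv hw M 0 2 1 (-1) 1 1 (by decide))
    + (swp hv hw M 1 1 0 2 0 2 1 1 (by decide))

theorem hk_L2_U {m : ℕ} {v : Mat → ZMod 3} (hv : MF m v) (hw : WR v) (M : Mat) :
    TM L2 v M + TM L2 v (mU * M) + TM L2 v (mU * mU * M) = 0 := by
  rw [tm_L2_U, tm_L2_UU, tm_L2_one]
  linear_combination (swp hv hw M 2 0 0 1 0 1 2 0 (by decide))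
    + (swp hv hw M 1 0 0 2 0 2 1 0 (by decide))
    + (swp hv hw M (-2) 0 (-1) (-1) 1 1 2 0 (by decide))
    + (swp hv hw M 1 1 0 2 0 2 1 1 (by decide))
    + (swp hv hw M 2 (-2) 1 0 1 0 2 (-2) (by decide))
    + (same hv hw M (-2) 2 (-2) 1 2 (-2) 2 (-1) (by decide))
    + (same hv hw M 0 (-2) 1 (-1) 0 2 1 (-1) (by decide))
    + (same hv hw M 0 (-1) 2 (-2) 0 1 2 (-2) (by decide))
    + (same hv hw M 0 2 (-1) 2 0 2 1 (-2) (by decide))
    + (tr hv hw M 0 2 1 (-2) 1 0 (by decide))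
    - (swp hv hw M 1 0 0 2 0 2 1 0 (by decide))
    + (tr hv hw M 0 1 2 (-1) 2 0 (by decide))
    - (swp hv hw M 2 0 0 1 0 1 2 0 (by decide))
    - (tr hv hw M 1 (-1) 1 1 2 0 (by decide))
    + (swp hv hw M 2 0 1 (-1) 1 (-1) 2 0 (by decide))
    + (tr hv hw M 0 2 1 (-1) 1 1 (by decide))
    - (swp hv hw M 1 1 0 2 0 2 1 1 (by decide))
    + (tr hv hw M 0 1 2 (-2) 2 (-1) (by decide))
    - (swp hv hw M 2 (-1) 0 1 0 1 2 (-1) (by decide))
    - (tr hv hw M 1 (-2) 1 0 2 (-2) (by decide))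
    + (swp hv hw M 2 (-2) 1 (-2) 1 (-2) 2 (-2) (by decide))

theorem tm_L7_one (v : Mat → ZMod 3) (M : Mat) : TM L7 v M =
    g v M 7 0 0 1 + g v M 1 0 0 7 + g v M (-7) 0 (-1) (-1) + g v M 1 1 0 7 +
      g v M 7 0 (-3) 1 + g v M (-3) 1 (-1) (-2) + g v M 1 2 0 7 + g v M 7 0 (-2) 1 +
      g v M (-2) 1 (-1) (-3) + g v M 1 3 0 7 + g v M (-7) 0 (-2) (-1) + g v M 2 1 (-1) 3 +
      g v M (-1) 3 (-1) (-4) + g v M 1 4 0 7 + g v M (-7) 0 (-3) (-1) + g v M 3 1 (-1) 2 +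
      g v M (-1) 2 (-1) (-5) + g v M 1 5 0 7 + g v M 7 0 (-1) 1 + g v M (-1) 1 (-1) (-6) +
      g v M 1 6 0 7 := by
  simp only [TM, L7, List.map_cons, List.map_nil, List.sum_cons, List.sum_nil, g,
    Matrix.adjugate_fin_two_of]
  norm_num [add_assoc]

theorem tm_L7_S (v : Mat → ZMod 3) (M : Mat) : TM L7 v (mS * M) =
    g v M 0 (-7) 1 0 + g v M 0 (-1) 7 0 + g v M 0 7 (-1) 1 + g v M 1 (-1) 7 0 +
      g v M 0 (-7) 1 3 + g v M 1 3 (-2) 1 + g v M 2 (-1) 7 0 + g v M 0 (-7) 1 2 +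
      g v M 1 2 (-3) 1 + g v M 3 (-1) 7 0 + g v M 0 7 (-1) 2 + g v M 1 (-2) 3 1 +
      g v M 3 1 (-4) 1 + g v M 4 (-1) 7 0 + g v M 0 7 (-1) 3 + g v M 1 (-3) 2 1 +
      g v M 2 1 (-5) 1 + g v M 5 (-1) 7 0 + g v M 0 (-7) 1 1 + g v M 1 1 (-6) 1 +
      g v M 6 (-1) 7 0 := by
  simp only [TM, L7, List.map_cons, List.map_nil, List.sum_cons, List.sum_nil, g,
    Matrix.adjugate_fin_two_of, mS, ← Matrix.mul_assoc, Matrix.mul_fin_two]
  norm_num [add_assoc]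

theorem tm_L7_E (v : Mat → ZMod 3) (M : Mat) : TM L7 v (mE * M) =
    g v M (-7) 0 0 1 + g v M (-1) 0 0 7 + g v M 7 0 1 (-1) + g v M (-1) 1 0 7 +
      g v M (-7) 0 3 1 + g v M 3 1 1 (-2) + g v M (-1) 2 0 7 + g v M (-7) 0 2 1 +
      g v M 2 1 1 (-3) + g v M (-1) 3 0 7 + g v M 7 0 2 (-1) + g v M (-2) 1 1 3 +
      g v M 1 3 1 (-4) + g v M (-1) 4 0 7 + g v M 7 0 3 (-1) + g v M (-3) 1 1 2 +
      g v M 1 2 1 (-5) + g v M (-1) 5 0 7 + g v M (-7) 0 1 1 + g v M 1 1 1 (-6) +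
      g v M (-1) 6 0 7 := by
  simp only [TM, L7, List.map_cons, List.map_nil, List.sum_cons, List.sum_nil, g,
    Matrix.adjugate_fin_two_of, mE, ← Matrix.mul_assoc, Matrix.mul_fin_two]
  norm_num [add_assoc]

theorem tm_L7_U (v : Mat → ZMod 3) (M : Mat) : TM L7 v (mU * M) =
    g v M 7 (-7) 1 0 + g v M 1 (-1) 7 0 + g v M (-7) 7 (-2) 1 + g v M 2 (-1) 7 0 +
      g v M 7 (-7) (-2) 3 + g v M (-2) 3 (-3) 1 + g v M 3 (-1) 7 0 + g v M 7 (-7) (-1) 2 +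
      g v M (-1) 2 (-4) 1 + g v M 4 (-1) 7 0 + g v M (-7) 7 (-3) 2 + g v M 3 (-2) 2 1 +
      g v M 2 1 (-5) 1 + g v M 5 (-1) 7 0 + g v M (-7) 7 (-4) 3 + g v M 4 (-3) 1 1 +
      g v M 1 1 (-6) 1 + g v M 6 (-1) 7 0 + g v M 7 (-7) 0 1 + g v M 0 1 (-7) 1 +
      g v M 7 (-1) 7 0 := by
  simp only [TM, L7, List.map_cons, List.map_nil, List.sum_cons, List.sum_nil, g,
    Matrix.adjugate_fin_two_of, mU, ← Matrix.mul_assoc, Matrix.mul_fin_two]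
  norm_num [add_assoc]

theorem tm_L7_UU (v : Mat → ZMod 3) (M : Mat) : TM L7 v (mU * mU * M) =
    g v M 0 (-7) 1 (-1) + g v M 0 (-1) 7 (-7) + g v M 0 7 (-1) 2 + g v M 1 (-2) 7 (-7) +
      g v M 0 (-7) 1 2 + g v M 1 2 (-2) 3 + g v M 2 (-3) 7 (-7) + g v M 0 (-7) 1 1 +
      g v M 1 1 (-3) 4 + g v M 3 (-4) 7 (-7) + g v M 0 7 (-1) 3 + g v M 1 (-3) 3 (-2) +
      g v M 3 (-2) (-4) 5 + g v M 4 (-5) 7 (-7) + g v M 0 7 (-1) 4 + g v M 1 (-4) 2 (-1) +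
      g v M 2 (-1) (-5) 6 + g v M 5 (-6) 7 (-7) + g v M 0 (-7) 1 0 + g v M 1 0 (-6) 7 +
      g v M 6 (-7) 7 (-7) := by
  simp only [TM, L7, List.map_cons, List.map_nil, List.sum_cons, List.sum_nil, g,
    Matrix.adjugate_fin_two_of, mU, ← Matrix.mul_assoc, Matrix.mul_fin_two]
  norm_num [add_assoc]

theorem hk_L7_S {m : ℕ} {v : Mat → ZMod 3} (hv : MF m v) (hw : WR v) (M : Mat) :
    TM L7 v (mS * M) = -TM L7 v M := by
  rw [tm_L7_S, tm_L7_one]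
  linear_combination (same hv hw M 0 (-7) 1 0 0 7 1 0 (by decide))
    + (same hv hw M 0 (-1) 7 0 0 1 7 0 (by decide))
    + (same hv hw M 0 7 (-1) 1 0 7 1 (-1) (by decide))
    + (same hv hw M 0 (-7) 1 3 0 7 1 3 (by decide))
    + (same hv hw M 1 3 (-2) 1 1 3 2 (-1) (by decide))
    + (same hv hw M 0 (-7) 1 2 0 7 1 2 (by decide))
    + (same hv hw M 1 2 (-3) 1 1 2 3 (-1) (by decide))
    + (same hv hw M 0 7 (-1) 2 0 7 1 (-2) (by decide))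
    + (same hv hw M 3 1 (-4) 1 3 1 4 (-1) (by decide))
    + (same hv hw M 0 7 (-1) 3 0 7 1 (-3) (by decide))
    + (same hv hw M 2 1 (-5) 1 2 1 5 (-1) (by decide))
    + (same hv hw M 0 (-7) 1 1 0 7 1 1 (by decide))
    + (same hv hw M 1 1 (-6) 1 1 1 6 (-1) (by decide))
    + (swp hv hw M 7 0 0 1 0 1 7 0 (by decide))
    + (swp hv hw M 1 0 0 7 0 7 1 0 (by decide))
    + (swp hv hw M (-7) 0 (-1) (-1) 1 1 7 0 (by decide))
    + (swp hv hw M 1 1 0 7 0 7 1 1 (by decide))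
    + (swp hv hw M 7 0 (-3) 1 3 (-1) 7 0 (by decide))
    + (swp hv hw M (-3) 1 (-1) (-2) 1 2 3 (-1) (by decide))
    + (swp hv hw M 1 2 0 7 0 7 1 2 (by decide))
    + (swp hv hw M 7 0 (-2) 1 2 (-1) 7 0 (by decide))
    + (swp hv hw M (-2) 1 (-1) (-3) 1 3 2 (-1) (by decide))
    + (swp hv hw M 1 3 0 7 0 7 1 3 (by decide))
    + (swp hv hw M (-7) 0 (-2) (-1) 2 1 7 0 (by decide))
    + (swp hv hw M 2 1 (-1) 3 1 (-3) 2 1 (by decide))
    + (same hv hw M (-1) 3 (-1) (-4) 1 (-3) 1 4 (by decide))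
    + (swp hv hw M 1 4 0 7 0 7 1 4 (by decide))
    + (swp hv hw M (-7) 0 (-3) (-1) 3 1 7 0 (by decide))
    + (swp hv hw M 3 1 (-1) 2 1 (-2) 3 1 (by decide))
    + (same hv hw M (-1) 2 (-1) (-5) 1 (-2) 1 5 (by decide))
    + (swp hv hw M 1 5 0 7 0 7 1 5 (by decide))
    + (swp hv hw M 7 0 (-1) 1 1 (-1) 7 0 (by decide))
    + (same hv hw M (-1) 1 (-1) (-6) 1 (-1) 1 6 (by decide))
    + (swp hv hw M 1 6 0 7 0 7 1 6 (by decide))
    + (tr hv hw M 1 1 6 (-1) 7 0 (by decide))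
    - (swp hv hw M 7 0 1 1 1 1 7 0 (by decide))
    + (tr hv hw M 0 7 1 (-2) 1 5 (by decide))
    - (swp hv hw M 1 5 0 7 0 7 1 5 (by decide))
    + (tr hv hw M 0 7 1 (-3) 1 4 (by decide))
    - (swp hv hw M 1 4 0 7 0 7 1 4 (by decide))
    + (tr hv hw M 0 7 1 (-1) 1 6 (by decide))
    - (swp hv hw M 1 6 0 7 0 7 1 6 (by decide))
    + (tr hv hw M 2 1 5 (-1) 7 0 (by decide))
    - (swp hv hw M 7 0 2 1 2 1 7 0 (by decide))
    + (tr hv hw M 3 1 4 (-1) 7 0 (by decide))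
    - (swp hv hw M 7 0 3 1 3 1 7 0 (by decide))

theorem hk_L7_E {m : ℕ} {v : Mat → ZMod 3} (hv : MF m v) (hw : WR v) (M : Mat) :
    TM L7 v (mE * M) = TM L7 v M := by
  rw [tm_L7_E, tm_L7_one]
  linear_combination (swp hv hw M (-7) 0 0 1 0 1 7 0 (by decide))
    + (swp hv hw M (-1) 0 0 7 0 7 1 0 (by decide))
    + (swp hv hw M 7 0 1 (-1) 1 (-1) 7 0 (by decide))
    + (swp hv hw M (-1) 1 0 7 0 7 1 (-1) (by decide))
    + (swp hv hw M (-7) 0 3 1 3 1 7 0 (by decide))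
    + (swp hv hw M 3 1 1 (-2) 1 (-2) 3 1 (by decide))
    + (swp hv hw M (-1) 2 0 7 0 7 1 (-2) (by decide))
    + (swp hv hw M (-7) 0 2 1 2 1 7 0 (by decide))
    + (swp hv hw M 2 1 1 (-3) 1 (-3) 2 1 (by decide))
    + (swp hv hw M (-1) 3 0 7 0 7 1 (-3) (by decide))
    + (swp hv hw M 7 0 2 (-1) 2 (-1) 7 0 (by decide))
    + (swp hv hw M (-2) 1 1 3 1 3 2 (-1) (by decide))
    + (swp hv hw M 1 3 1 (-4) 1 (-4) 1 3 (by decide))
    + (swp hv hw M (-1) 4 0 7 0 7 1 (-4) (by decide))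
    + (swp hv hw M 7 0 3 (-1) 3 (-1) 7 0 (by decide))
    + (swp hv hw M (-3) 1 1 2 1 2 3 (-1) (by decide))
    + (swp hv hw M 1 2 1 (-5) 1 (-5) 1 2 (by decide))
    + (swp hv hw M (-1) 5 0 7 0 7 1 (-5) (by decide))
    + (swp hv hw M (-7) 0 1 1 1 1 7 0 (by decide))
    + (swp hv hw M 1 1 1 (-6) 1 (-6) 1 1 (by decide))
    + (swp hv hw M (-1) 6 0 7 0 7 1 (-6) (by decide))
    - (swp hv hw M 7 0 0 1 0 1 7 0 (by decide))
    - (swp hv hw M 1 0 0 7 0 7 1 0 (by decide))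
    - (swp hv hw M (-7) 0 (-1) (-1) 1 1 7 0 (by decide))
    - (swp hv hw M 1 1 0 7 0 7 1 1 (by decide))
    - (swp hv hw M 7 0 (-3) 1 3 (-1) 7 0 (by decide))
    - (swp hv hw M (-3) 1 (-1) (-2) 1 2 3 (-1) (by decide))
    - (swp hv hw M 1 2 0 7 0 7 1 2 (by decide))
    - (swp hv hw M 7 0 (-2) 1 2 (-1) 7 0 (by decide))
    - (swp hv hw M (-2) 1 (-1) (-3) 1 3 2 (-1) (by decide))
    - (swp hv hw M 1 3 0 7 0 7 1 3 (by decide))
    - (swp hv hw M (-7) 0 (-2) (-1) 2 1 7 0 (by decide))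
    - (swp hv hw M 2 1 (-1) 3 1 (-3) 2 1 (by decide))
    - (same hv hw M (-1) 3 (-1) (-4) 1 (-3) 1 4 (by decide))
    - (swp hv hw M 1 4 0 7 0 7 1 4 (by decide))
    - (swp hv hw M (-7) 0 (-3) (-1) 3 1 7 0 (by decide))
    - (swp hv hw M 3 1 (-1) 2 1 (-2) 3 1 (by decide))
    - (same hv hw M (-1) 2 (-1) (-5) 1 (-2) 1 5 (by decide))
    - (swp hv hw M 1 5 0 7 0 7 1 5 (by decide))
    - (swp hv hw M 7 0 (-1) 1 1 (-1) 7 0 (by decide))
    - (same hv hw M (-1) 1 (-1) (-6) 1 (-1) 1 6 (by decide))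
    - (swp hv hw M 1 6 0 7 0 7 1 6 (by decide))
    - (tr hv hw M 0 7 1 (-4) 1 3 (by decide))
    + (swp hv hw M 1 3 0 7 0 7 1 3 (by decide))
    - (tr hv hw M 0 7 1 (-6) 1 1 (by decide))
    + (swp hv hw M 1 1 0 7 0 7 1 1 (by decide))
    - (tr hv hw M 0 7 1 (-2) 1 5 (by decide))
    + (swp hv hw M 1 5 0 7 0 7 1 5 (by decide))
    - (tr hv hw M 0 7 1 (-3) 1 4 (by decide))
    + (swp hv hw M 1 4 0 7 0 7 1 4 (by decide))
    - (tr hv hw M 0 7 1 (-5) 1 2 (by decide))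
    + (swp hv hw M 1 2 0 7 0 7 1 2 (by decide))
    - (tr hv hw M 0 7 1 (-1) 1 6 (by decide))
    + (swp hv hw M 1 6 0 7 0 7 1 6 (by decide))

theorem hk_L7_U {m : ℕ} {v : Mat → ZMod 3} (hv : MF m v) (hw : WR v) (M : Mat) :
    TM L7 v M + TM L7 v (mU * M) + TM L7 v (mU * mU * M) = 0 := by
  rw [tm_L7_U, tm_L7_UU, tm_L7_one]
  linear_combination (swp hv hw M 7 0 0 1 0 1 7 0 (by decide))
    + (swp hv hw M 1 0 0 7 0 7 1 0 (by decide))
    + (swp hv hw M (-7) 0 (-1) (-1) 1 1 7 0 (by decide))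
    + (swp hv hw M 1 1 0 7 0 7 1 1 (by decide))
    + (swp hv hw M 7 0 (-3) 1 3 (-1) 7 0 (by decide))
    + (swp hv hw M (-3) 1 (-1) (-2) 1 2 3 (-1) (by decide))
    + (swp hv hw M 1 2 0 7 0 7 1 2 (by decide))
    + (swp hv hw M 7 0 (-2) 1 2 (-1) 7 0 (by decide))
    + (swp hv hw M (-2) 1 (-1) (-3) 1 3 2 (-1) (by decide))
    + (swp hv hw M 1 3 0 7 0 7 1 3 (by decide))
    + (swp hv hw M (-7) 0 (-2) (-1) 2 1 7 0 (by decide))
    + (swp hv hw M 2 1 (-1) 3 1 (-3) 2 1 (by decide))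
    + (same hv hw M (-1) 3 (-1) (-4) 1 (-3) 1 4 (by decide))
    + (swp hv hw M 1 4 0 7 0 7 1 4 (by decide))
    + (swp hv hw M (-7) 0 (-3) (-1) 3 1 7 0 (by decide))
    + (swp hv hw M 3 1 (-1) 2 1 (-2) 3 1 (by decide))
    + (same hv hw M (-1) 2 (-1) (-5) 1 (-2) 1 5 (by decide))
    + (swp hv hw M 1 5 0 7 0 7 1 5 (by decide))
    + (swp hv hw M 7 0 (-1) 1 1 (-1) 7 0 (by decide))
    + (same hv hw M (-1) 1 (-1) (-6) 1 (-1) 1 6 (by decide))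
    + (swp hv hw M 1 6 0 7 0 7 1 6 (by decide))
    + (swp hv hw M 7 (-7) 1 0 1 0 7 (-7) (by decide))
    + (swp hv hw M (-7) 7 (-2) 1 2 (-1) 7 (-7) (by decide))
    + (swp hv hw M 7 (-7) (-2) 3 2 (-3) 7 (-7) (by decide))
    + (same hv hw M (-2) 3 (-3) 1 2 (-3) 3 (-1) (by decide))
    + (swp hv hw M 7 (-7) (-1) 2 1 (-2) 7 (-7) (by decide))
    + (same hv hw M (-1) 2 (-4) 1 1 (-2) 4 (-1) (by decide))
    + (swp hv hw M (-7) 7 (-3) 2 3 (-2) 7 (-7) (by decide))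
    + (swp hv hw M 3 (-2) 2 1 2 1 3 (-2) (by decide))
    + (same hv hw M 2 1 (-5) 1 2 1 5 (-1) (by decide))
    + (swp hv hw M (-7) 7 (-4) 3 4 (-3) 7 (-7) (by decide))
    + (swp hv hw M 4 (-3) 1 1 1 1 4 (-3) (by decide))
    + (same hv hw M 1 1 (-6) 1 1 1 6 (-1) (by decide))
    + (swp hv hw M 7 (-7) 0 1 0 1 7 (-7) (by decide))
    + (same hv hw M 0 1 (-7) 1 0 1 7 (-1) (by decide))
    + (same hv hw M 0 (-7) 1 (-1) 0 7 1 (-1) (by decide))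
    + (same hv hw M 0 (-1) 7 (-7) 0 1 7 (-7) (by decide))
    + (same hv hw M 0 7 (-1) 2 0 7 1 (-2) (by decide))
    + (same hv hw M 0 (-7) 1 2 0 7 1 2 (by decide))
    + (same hv hw M 1 2 (-2) 3 1 2 2 (-3) (by decide))
    + (same hv hw M 0 (-7) 1 1 0 7 1 1 (by decide))
    + (same hv hw M 1 1 (-3) 4 1 1 3 (-4) (by decide))
    + (same hv hw M 0 7 (-1) 3 0 7 1 (-3) (by decide))
    + (same hv hw M 3 (-2) (-4) 5 3 (-2) 4 (-5) (by decide))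
    + (same hv hw M 0 7 (-1) 4 0 7 1 (-4) (by decide))
    + (same hv hw M 2 (-1) (-5) 6 2 (-1) 5 (-6) (by decide))
    + (same hv hw M 0 (-7) 1 0 0 7 1 0 (by decide))
    + (same hv hw M 1 0 (-6) 7 1 0 6 (-7) (by decide))
    + (tr hv hw M 0 1 7 (-1) 7 0 (by decide))
    - (swp hv hw M 7 0 0 1 0 1 7 0 (by decide))
    + (tr hv hw M 0 7 1 (-4) 1 3 (by decide))
    - (swp hv hw M 1 3 0 7 0 7 1 3 (by decide))
    + (tr hv hw M 0 7 1 (-2) 1 5 (by decide))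
    - (swp hv hw M 1 5 0 7 0 7 1 5 (by decide))
    - (tr hv hw M 3 (-4) 4 (-3) 7 (-7) (by decide))
    + (swp hv hw M 7 (-7) 3 (-4) 3 (-4) 7 (-7) (by decide))
    + (tr hv hw M 1 1 6 (-1) 7 0 (by decide))
    - (swp hv hw M 7 0 1 1 1 1 7 0 (by decide))
    + (tr hv hw M 2 1 5 (-1) 7 0 (by decide))
    - (swp hv hw M 7 0 2 1 2 1 7 0 (by decide))
    + (tr hv hw M 0 7 1 (-3) 1 4 (by decide))
    - (swp hv hw M 1 4 0 7 0 7 1 4 (by decide))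
    + (tr hv hw M 3 (-2) 4 (-5) 7 (-7) (by decide))
    - (swp hv hw M 7 (-7) 3 (-2) 3 (-2) 7 (-7) (by decide))
    - (tr hv hw M 1 (-4) 1 3 2 (-1) (by decide))
    + (swp hv hw M 2 (-1) 1 (-4) 1 (-4) 2 (-1) (by decide))
    - (tr hv hw M 1 (-3) 2 1 3 (-2) (by decide))
    + (swp hv hw M 3 (-2) 1 (-3) 1 (-3) 3 (-2) (by decide))
    + (tr hv hw M 1 1 3 (-4) 4 (-3) (by decide))
    - (swp hv hw M 4 (-3) 1 1 1 1 4 (-3) (by decide))
    + (tr hv hw M 1 2 2 (-3) 3 (-1) (by decide))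
    - (swp hv hw M 3 (-1) 1 2 1 2 3 (-1) (by decide))
    - (tr hv hw M 1 (-2) 3 1 4 (-1) (by decide))
    + (swp hv hw M 4 (-1) 1 (-2) 1 (-2) 4 (-1) (by decide))
    + (tr hv hw M 2 (-1) 5 (-6) 7 (-7) (by decide))
    - (swp hv hw M 7 (-7) 2 (-1) 2 (-1) 7 (-7) (by decide))
    + (tr hv hw M 0 7 1 (-1) 1 6 (by decide))
    - (swp hv hw M 1 6 0 7 0 7 1 6 (by decide))
    + (tr hv hw M 3 1 4 (-1) 7 0 (by decide))
    - (swp hv hw M 7 0 3 1 3 1 7 0 (by decide))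
    + (tr hv hw M 1 0 6 (-7) 7 (-7) (by decide))
    - (swp hv hw M 7 (-7) 1 0 1 0 7 (-7) (by decide))

end HkAux

/-- (Hk) the Hecke operators preserve the relations of periods. -/
theorem stHk : StHk := fun _ _ hv hw =>
  ⟨⟨fun M => HkAux.hk_L2_S hv hw M, fun M => HkAux.hk_L2_E hv hw M,
    fun M => HkAux.hk_L2_U hv hw M⟩,
    ⟨fun M => HkAux.hk_L7_S hv hw M, fun M => HkAux.hk_L7_E hv hw M,
      fun M => HkAux.hk_L7_U hv hw M⟩⟩

end LO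

end Pool.Agent.Lib.MP_7c5fb9_nt
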