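import Pool.Agent.Lib.MP_7c5fb9_nt.LO.Basic

set_option autoImplicit false

/-!
# Level one (MP_7c5fb9_nt, project LO): the socle
-/

namespace Pool.Agent.Lib.MP_7c5fb9_nt

namespace LO

namespace KLaux

theorem pf_mono {m m' : ℕ} {u : Frm → ZMod 3} (hm : m ≤ m') (h : PF m u) : PF m' u := by
  obtain ⟨c, rfl⟩ := Nat.exists_eq_add_of_le hm
  refine ⟨fun Q R => ?_, h.supp, h.scal, h.mir, h.S, h.U⟩
  have := h.per Q (fun i => 3 ^ c * R i)
  rw [← this]
  congr 1
  funext i
  ring

theorem pf_smul {m : ℕ} {u : Frm → ZMod 3} (a : ZMod 3) (h : PF m u) : PF m (a • u) := by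
  refine ⟨fun Q R => ?_, fun Q hQ => ?_, fun c Q hc => ?_, fun Q => ?_, fun Q => ?_, fun Q => ?_⟩
  · simp only [Pi.smul_apply, h.per]
  · simp only [Pi.smul_apply, h.supp Q hQ, smul_zero]
  · simp only [Pi.smul_apply, smul_eq_mul, h.scal c Q hc]; ring
  · simp only [Pi.smul_apply, h.mir, smul_neg]
  · simp only [Pi.smul_apply, h.S, smul_neg]
  · have := h.U Q
    simp only [Pi.smul_apply, smul_eq_mul]
    linear_combination a * this

theorem pf_add {m : ℕ} {u u' : Frm → ZMod 3} (h : PF m u) (h' : PF m u') : PF m (u + u') := by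
  refine ⟨fun Q R => ?_, fun Q hQ => ?_, fun c Q hc => ?_, fun Q => ?_, fun Q => ?_, fun Q => ?_⟩
  · simp only [Pi.add_apply, h.per, h'.per]
  · simp only [Pi.add_apply, h.supp Q hQ, h'.supp Q hQ, add_zero]
  · simp only [Pi.add_apply, h.scal c Q hc, h'.scal c Q hc]; ring
  · simp only [Pi.add_apply, h.mir, h'.mir]; ring
  · simp only [Pi.add_apply, h.S, h'.S]; ring
  · have h1 := h.U Q
    have h2 := h'.U Q
    simp only [Pi.add_apply]
    linear_combination h1 + h2

theorem pf_sub {m : ℕ} {u u' : Frm → ZMod 3} (h : PF m u) (h' : PF m u') : PF m (u - u') := by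
  have h1 : u - u' = u + (-1 : ZMod 3) • u' := by
    funext Q
    simp [sub_eq_add_neg]
  rw [h1]
  exact pf_add h (pf_smul _ h')

theorem vf_sub (hVf : StVf) (u u' : Frm → ZMod 3) : vf (u - u') = vf u - vf u' := by
  have h1 : u - u' = u + (-1 : ZMod 3) • u' := by
    funext Q
    simp [sub_eq_add_neg]
  rw [h1, hVf.2.1, hVf.2.2, neg_one_smul, sub_eq_add_neg]

theorem vf_zero (hVf : StVf) : vf 0 = 0 := by
  have := hVf.2.2 0 0
  rwa [zero_smul, zero_smul] at this

/-- `T_2` lowers the filtration. -/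
theorem fil_TM2 (hVOne : StVOne) {m n : ℕ} {v : Mat → ZMod 3} (hm : MF m v) (hw : WR v)
    (h : Fil (n + 1) v) : Fil n (TM L2 v) := by
  rw [Fil_iff]
  intro l hl
  rw [← TM_foldr]
  have h1 : Fil 1 (l.foldr Xd v) := by
    apply Fil_foldr
    rw [hl, add_comm]
    exact h
  exact (hVOne m _ (hm.foldr l) (hw.foldr l) h1).2.1

/-- The degree of a non-zero function. -/
theorem exists_deg (hKTwo : StKTwo) {m : ℕ} {v : Mat → ZMod 3} (hm : MF m v) (h0 : v ≠ 0) :
    ∃ d : ℕ, Fil (d + 1) v ∧ ¬ Fil d v := by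
  classical
  have hex := hKTwo m v hm
  have h1 := Nat.find_spec hex
  have h2 : Nat.find hex ≠ 0 := by
    intro h3
    rw [h3] at h1
    exact h0 h1
  obtain ⟨d, hd⟩ := Nat.exists_eq_succ_of_ne_zero h2
  refine ⟨d, ?_, ?_⟩
  · rw [hd] at h1
    exact h1
  · exact Nat.find_min hex (by omega)

theorem kk_vf (hVf : StVf) {m : ℕ} {u : Frm → ZMod 3} (hm : 1 ≤ m) (hu : PF m u)
    (h2 : TL L2 u = 0) : KK m (vf u) := by
  obtain ⟨a, b, c, d, e, f⟩ := hVf.1 m u hm hu
  refine ⟨a, b, ?_⟩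
  rw [d, h2, vf_zero hVf, neg_zero]

end KLaux

open KLaux

theorem stKL (hKTwo : StKTwo) (hVf : StVf) (hVOne : StVOne) (hSym : StSym) (hTorSym : StTorSym)
    (hEx : StEx) (hLow : StLow) : StKL := by
  intro m₀ G hPF₀ hG2 hG7 hG
  classical
  -- we work at level `m = m₀ + 3`
  set m := m₀ + 3 with hm
  have hPF : ∀ u ∈ G, PF m u := fun u hu => pf_mono (by omega) (hPF₀ u hu)
  obtain ⟨eg, eu, g0ne, g2, u2, u7⟩ := hEx
  have hm1 : 1 ≤ m := by omega
  -- the function `g0`
  have kg : KK 2 (vf g0) := kk_vf hVf (by norm_num) eg g2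
  have tg : Tor (vf g0) := (hVf.1 2 g0 (by norm_num) eg).2.2.1
  have vg0 : vf g0 ≠ 0 := fun h => g0ne ((hVf.1 2 g0 (by norm_num) eg).2.2.2.2.2 h)
  obtain ⟨dg, hdg1, hdg2⟩ := exists_deg hKTwo kg.mf vg0
  obtain ⟨hg4, hg3, Bg, hBg, hBgs⟩ := hTorSym 2 dg (vf g0) kg tg hdg1 hdg2
  have hdg : dg = 1 := by
    norm_num at hg3
    omega
  subst hdg
  -- the function `u4`
  have u4ne : u4 ≠ 0 := by
    intro h
    rw [h, smul_zero, zero_add] at u7
    apply g0ne
    rw [← u7]
    funext Q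
    simp [TL]
  have ku : KK 3 (vf u4) := kk_vf hVf (by norm_num) eu u2
  have tu : Tor (vf u4) := (hVf.1 3 u4 (by norm_num) eu).2.2.1
  have vu0 : vf u4 ≠ 0 := fun h => u4ne ((hVf.1 3 u4 (by norm_num) eu).2.2.2.2.2 h)
  have lu : Lop (vf u4) = vf g0 := by
    rw [Lop_eq, (hVf.1 3 u4 (by norm_num) eu).2.2.2.2.1, u7, hVf.2.1, hVf.2.2]
    abel
  obtain ⟨du, hdu1, hdu2⟩ := exists_deg hKTwo ku.mf vu0
  obtain ⟨hu4, hu3, Bu, hBu, hBus⟩ := hTorSym 3 du (vf u4) ku tu hdu1 hdu2
  have hdu : du = 5 := by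
    norm_num at hu3
    have h1 : du = 1 ∨ du = 5 := by omega
    rcases h1 with h1 | h1
    · exfalso
      subst h1
      have h2 : Fil 0 (Lop (vf u4)) := hLow 3 0 (vf u4) ku (Fil_mono (by norm_num) hdu1)
      rw [lu] at h2
      exact vg0 h2
    · exact h1
  subst hdu
  -- a non-zero element of minimal degree
  have hex : ∃ n : ℕ, ∃ F ∈ G, F ≠ 0 ∧ Fil n (vf F) := by
    obtain ⟨F, hF, hF0⟩ := Submodule.exists_mem_ne_zero_of_ne_bot hG
    obtain ⟨d, hd⟩ := hKTwo m (vf F) (hVf.1 m F hm1 (hPF F hF)).1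
    exact ⟨d, F, hF, hF0, hd⟩
  obtain ⟨F, hF, hF0, hFn⟩ := Nat.find_spec hex
  have hmin : ∀ n < Nat.find hex, ∀ F' ∈ G, Fil n (vf F') → F' = 0 := by
    intro n hn F' hF' hFil
    by_contra h
    exact Nat.find_min hex hn ⟨F', hF', h, hFil⟩
  obtain ⟨fm, fw, ft, f2, f7, finj⟩ := hVf.1 m F hm1 (hPF F hF)
  have hv0 : vf F ≠ 0 := fun h => hF0 (finj h)
  have hn0 : Nat.find hex ≠ 0 := by
    intro h3
    rw [h3] at hFn
    exact hv0 hFn
  obtain ⟨d, hd⟩ := Nat.exists_eq_succ_of_ne_zero hn0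
  rw [hd] at hFn hmin
  have hFn' : Fil (d + 1) (vf F) := hFn
  have hFd : ¬ Fil d (vf F) := fun h => hF0 (hmin d (Nat.lt_succ_self d) F hF h)
  -- it is killed by `T_2`
  have hT2 : TL L2 F = 0 := by
    apply hmin d (Nat.lt_succ_self d) _ (hG2 F hF)
    have h1 := fil_TM2 hVOne fm fw hFn'
    rw [f2] at h1
    have h2 := Fil_neg h1
    rwa [neg_neg] at h2
  have kF : KK m (vf F) := kk_vf hVf hm1 (hPF F hF) hT2
  obtain ⟨hd4, -, B, hB, hBs⟩ := hTorSym m d (vf F) kF ft hFn' hFd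
  by_cases hd1 : d = 1
  · -- degree one
    subst hd1
    set κ : ZMod 3 := B * Bg⁻¹ with hκ
    have hκB : κ * Bg = B := by
      rw [hκ, mul_assoc, inv_mul_cancel₀ hBg, mul_one]
    have kr : KK m (vf F - κ • vf g0) := kF.sub ((kg.mono (by omega)).smul κ)
    have tr : Tor (vf F - κ • vf g0) := ft.sub (tg.smul κ)
    have fr : Fil 2 (vf F - κ • vf g0) := Fil_sub hFn' (Fil_smul κ hdg1)
    have fr1 : Fil 1 (vf F - κ • vf g0) := by
      apply (hSym m 1 _ kr fr).2.2
      intro l hl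
      rw [sym_sub, sym_smul, hBs l hl, hBgs l hl]
      split_ifs with h
      · rw [← hκB]; ring
      · ring
    have fr0 : vf F - κ • vf g0 = 0 := by
      by_contra h
      have := (hTorSym m 0 _ kr tr fr1 h).1
      omega
    have h1 : vf (F - κ • g0) = 0 := by
      rw [vf_sub hVf, hVf.2.2, fr0]
    have h2 : F - κ • g0 = 0 :=
      (hVf.1 m _ hm1 (pf_sub (hPF F hF) (pf_smul κ (pf_mono (by omega) eg)))).2.2.2.2.2 h1
    have h3 : F = κ • g0 := sub_eq_zero.1 h2
    have hκ0 : κ ≠ 0 := by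
      intro h
      rw [h, zero_smul] at h3
      exact hF0 h3
    have h4 : g0 = κ⁻¹ • F := by
      rw [h3, smul_smul, inv_mul_cancel₀ hκ0, one_smul]
    rw [h4]
    exact G.smul_mem _ hF
  · -- degree at least five
    exfalso
    have hd5 : 5 ≤ d := by omega
    obtain ⟨c, rfl⟩ := Nat.exists_eq_add_of_le hd5
    -- `T_7 F = 2 F`
    have hL : Lop (vf F) = 0 := by
      have h1 : Lop (vf F) = vf (TL L7 F - (2 : ZMod 3) • F) := by
        rw [Lop_eq, f7, vf_sub hVf, hVf.2.2]
      have h2 : Fil (2 + c) (Lop (vf F)) := by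
        apply hLow m (2 + c) (vf F) kF
        have : 2 + c + 4 = 5 + c + 1 := by omega
        rw [this]
        exact hFn'
      rw [h1] at h2 ⊢
      have h3 : TL L7 F - (2 : ZMod 3) • F = 0 :=
        hmin (2 + c) (by omega) _ (G.sub_mem (hG7 F hF) (G.smul_mem _ hF)) h2
      rw [h3, vf_zero hVf]
    set x : Mat → ZMod 3 := (List.replicate c (1 : Fin 3)).foldr Xd (vf F) with hx
    have kx : KK m x := kF.foldr _
    have fx : Fil 6 x := by
      apply Fil_foldr
      rw [List.length_replicate]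
      have : 6 + c = 5 + c + 1 := by omega
      rw [this]
      exact hFn'
    set κ : ZMod 3 := B * Bu⁻¹ with hκ
    have hκB : κ * Bu = B := by
      rw [hκ, mul_assoc, inv_mul_cancel₀ hBu, mul_one]
    have hκ0 : κ ≠ 0 := by
      intro h
      rw [h, zero_mul] at hκB
      exact hB hκB.symm
    have sx : ∀ l : List (Fin 3), l.length = 6 → sym x l = κ * sym (vf u4) l := by
      intro l hl
      rw [hBus l hl]
      cases l with
      | nil => simp at hl
      | cons i l =>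
        rw [hx, sym_foldr, hBs]
        · have e0 : List.count 0 (i :: (l ++ List.replicate c (1 : Fin 3))) =
              List.count 0 (i :: l) := by
            rw [← List.cons_append, List.count_append, List.count_replicate]
            simp
          have e2 : List.count 2 (i :: (l ++ List.replicate c (1 : Fin 3))) =
              List.count 2 (i :: l) := by
            rw [← List.cons_append, List.count_append, List.count_replicate]
            simp
          rw [e0, e2]
          split_ifs with h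
          · rw [← hκB]; ring
          · ring
        · simp only [List.length_cons, List.length_append, List.length_replicate] at hl ⊢
          omega
    have kr : KK m (x - κ • vf u4) := kx.sub ((ku.mono (by omega)).smul κ)
    have fr : Fil 6 (x - κ • vf u4) := Fil_sub fx (Fil_smul κ hdu1)
    have fr5 : Fil 5 (x - κ • vf u4) := by
      apply (hSym m 5 _ kr fr).2.2
      intro l hl
      rw [sym_sub, sym_smul, sx l hl, sub_self]
    have fr1 : Fil 1 (Lop (x - κ • vf u4)) := hLow m 1 _ kr fr5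
    have h1 : Lop (x - κ • vf u4) = -(κ • vf g0) := by
      rw [Lop_sub, Lop_smul, lu, hx, Lop_foldr, hL, foldr_zero, zero_sub]
    rw [h1] at fr1
    have h2 := Fil_smul κ⁻¹ (Fil_neg fr1)
    rw [neg_neg, smul_smul, inv_mul_cancel₀ hκ0, one_smul] at h2
    exact hdg2 h2

end LO

end Pool.Agent.Lib.MP_7c5fb9_nt
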