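import Pool.Agent.Lib.MP_7c5fb9_nt.LO.KR.D

set_option autoImplicit false

/-! (KOne) elements congruent to scalars modulo `3 ^ j`. -/

namespace Pool.Agent.Lib.MP_7c5fb9_nt

namespace LO

open KR

/-- (KOne) -/
theorem stKOne : StKOne := by
  rintro m j n k v hj ⟨c, N, hc, rfl⟩ hv hF
  have hA := (lev_iff m v).mp hv
  have hF' := (fil_iff m _ v hA).mp hF
  obtain ⟨i, rfl⟩ : ∃ i, j = i + 1 := ⟨j - 1, by omega⟩
  have h1 := K1' (m := m) i c N hc n v (by simpa using hF')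
  have h2 : Rt (c • (1 : Mat) + (3 : ℤ) ^ (i + 1) • N) v - v ∈ KR.Fil m n := h1
  exact (fil_iff m n _ (Fil_le_A h2)).mpr h2

end LO

end Pool.Agent.Lib.MP_7c5fb9_nt
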