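import Pool.Agent.Lib.MP_7c5fb9_nt.LO.KR.D

set_option autoImplicit false

/-! (KTwo) the filtration is exhaustive. -/

namespace Pool.Agent.Lib.MP_7c5fb9_nt

namespace LO

open KR

/-- (KTwo) -/
theorem stKTwo : StKTwo := by
  intro m v hv
  have hA := (lev_iff m v).mp hv
  obtain ⟨d, hd⟩ := K2 hA
  exact ⟨d, (fil_iff m d v hA).mpr hd⟩

end LO

end Pool.Agent.Lib.MP_7c5fb9_nt
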