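import Pool.Agent.Lib.MP_7c5fb9_nt.LO.Stmts

set_option autoImplicit false

/-! (LOne) the values at `1` of the quadratic Dirichlet series. -/

namespace Pool.Agent.Lib.MP_7c5fb9_nt

namespace LO

open Pool.Agent.Lib.MP_7c08ba_nt.RZ UpperHalfPlane Filter Topology
open scoped MatrixGroups Polynomial nonZeroDivisors

namespace LOneAux

private theorem ee_real (x : ℝ) : ee (x : ℂ) = Complex.exp ((2 * Real.pi * x : ℝ) * Complex.I) := by
  unfold ee
  congr 1
  push_cast
  ring

private theorem one_sub_ee (x : ℝ) :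
    1 - ee (x : ℂ) = ((2 * Real.sin (Real.pi * x) : ℝ) : ℂ) *
      (Complex.cos ((Real.pi * (x - 1 / 2) : ℝ) : ℂ) +
        Complex.sin ((Real.pi * (x - 1 / 2) : ℝ) : ℂ) * Complex.I) := by
  rw [ee_real, Complex.exp_mul_I, ← Complex.ofReal_cos, ← Complex.ofReal_sin, ← Complex.ofReal_cos,
    ← Complex.ofReal_sin]
  have h1 : Real.cos (Real.pi * (x - 1 / 2)) = Real.sin (Real.pi * x) := by
    rw [← Real.cos_sub_pi_div_two]
    congr 1
    ring
  have h2 : Real.sin (Real.pi * (x - 1 / 2)) = - Real.cos (Real.pi * x) := by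
    have : Real.pi * (x - 1 / 2) = Real.pi * x - Real.pi / 2 := by ring
    rw [this, Real.sin_sub_pi_div_two]
  rw [h1, h2]
  have h3 : Real.cos (2 * Real.pi * x) = 1 - 2 * Real.sin (Real.pi * x) ^ 2 := by
    have : 2 * Real.pi * x = 2 * (Real.pi * x) := by ring
    rw [this, Real.cos_two_mul, ← Real.sin_sq_add_cos_sq (Real.pi * x)]
    ring
  have h4 : Real.sin (2 * Real.pi * x) = 2 * Real.sin (Real.pi * x) * Real.cos (Real.pi * x) := by
    have : 2 * Real.pi * x = 2 * (Real.pi * x) := by ring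
    rw [this, Real.sin_two_mul]
  rw [h3, h4]
  push_cast
  ring

private theorem arg_one_sub_ee {x : ℝ} (h0 : 0 < x) (h1 : x < 1) :
    (1 - ee (x : ℂ)).arg = Real.pi * (x - 1 / 2) := by
  rw [one_sub_ee]
  have hs : 0 < 2 * Real.sin (Real.pi * x) := by
    have : 0 < Real.sin (Real.pi * x) := by
      apply Real.sin_pos_of_pos_of_lt_pi
      · positivity
      · nlinarith [Real.pi_pos]
    linarith
  apply Complex.arg_mul_cos_add_sin_mul_I hs
  constructor
  · nlinarith [Real.pi_pos]
  · nlinarith [Real.pi_pos]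

/-- Dirichlet series with real coefficients are real. -/
private theorem lim_real {b : ℕ → ℤ} {L : ℂ}
    (h : Tendsto (fun s : ℝ => LSeries (fun n => (b n : ℂ)) s) (𝓝[>] 1) (𝓝 L)) : L = (L.re : ℂ) := by
  have h1 : ∀ s : ℝ, (LSeries (fun n => (b n : ℂ)) s).im = 0 := by
    intro s
    have : LSeries (fun n => (b n : ℂ)) s =
        ((∑' n : ℕ, if n = 0 then 0 else (b n : ℝ) / (n : ℝ) ^ s : ℝ) : ℂ) := by
      unfold LSeries
      rw [Complex.ofReal_tsum]
      congr 1
      ext n
      rw [LSeries.term]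
      split_ifs with hn
      · simp
      · rw [Complex.ofReal_div, Complex.ofReal_cpow (by positivity)]
        push_cast
        rfl
    rw [this, Complex.ofReal_im]
  have h2 : Tendsto (fun s : ℝ => (LSeries (fun n => (b n : ℂ)) s).im) (𝓝[>] 1) (𝓝 L.im) :=
    (Complex.continuous_im.tendsto L).comp h
  have h3 : L.im = 0 := by
    apply tendsto_nhds_unique h2
    simp only [h1]
    exact tendsto_const_nhds
  apply Complex.ext
  · simp
  · simp [h3]

/-- The main formula. -/
private theorem main (hAbel : StAbel) (hGauss : StGauss) (N : ℕ) (hN : Squarefree N) (h1 : 1 < N)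
    (ho : Odd N) : ∃ (L : ℝ) (τ : ℂ), τ ^ 2 = jacobiSym (-1) N * N ∧
      Tendsto (fun s : ℝ => LSeries (fun n => (jacobiSym n N : ℂ)) s) (𝓝[>] 1) (𝓝 (L : ℂ)) ∧
      (L : ℂ) * τ = - ∑ r ∈ Finset.range N, (jacobiSym r N : ℂ) * Complex.log (1 - ee ((r : ℂ) / N)) ∧
      ∑ r ∈ Finset.range N, jacobiSym r N = 0 := by
  obtain ⟨τ, hτ, hG⟩ := hGauss N ho hN h1
  have hN0 : (N : ℂ) ≠ 0 := by
    have : N ≠ 0 := by omega
    exact_mod_cast this
  have hj1 : (jacobiSym (-1) N : ℂ) ≠ 0 := by
    have : jacobiSym (-1) N ≠ 0 := jacobiSym.ne_zero (by simp)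
    exact_mod_cast this
  have hτ0 : τ ≠ 0 := by
    rintro rfl
    rw [zero_pow two_ne_zero] at hτ
    exact mul_ne_zero hj1 hN0 hτ.symm
  have hz : jacobiSym 0 N = 0 := by
    apply jacobiSym.zero_left h1
  have hr : Finset.range N = insert 0 (Finset.Ico 1 N) := by
    ext i
    simp only [Finset.mem_range, Finset.mem_insert, Finset.mem_Ico]
    omega
  have hni : (0 : ℕ) ∉ Finset.Ico 1 N := by simp
  have hA := hAbel N (fun n => (jacobiSym n N : ℂ)) (fun r => (jacobiSym r N : ℂ) / τ) (by omega) (by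
    intro n
    have := hG n
    rw [hr, Finset.sum_insert hni] at this
    simp only [Nat.cast_zero, hz, Int.cast_zero, zero_mul, zero_add] at this
    push_cast at this ⊢
    rw [eq_comm, ← eq_div_iff hτ0] at this
    rw [this, Finset.sum_div]
    apply Finset.sum_congr rfl
    intro r _
    ring)
  set L0 : ℂ := -∑ r ∈ Finset.Ico 1 N, (fun r : ℕ => (jacobiSym r N : ℂ) / τ) r *
    Complex.log (1 - ee ((r : ℂ) / N)) with hL0
  have hre := lim_real hA
  refine ⟨L0.re, τ, hτ, ?_, ?_, ?_⟩
  · rw [← hre]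
    exact hA
  · rw [← hre, hL0, hr, Finset.sum_insert hni]
    simp only [Nat.cast_zero, hz, Int.cast_zero, zero_mul, zero_add]
    rw [neg_mul, Finset.sum_mul]
    congr 1
    apply Finset.sum_congr rfl
    intro r _
    field_simp
  · have := hG 0
    simp only [Int.cast_zero, mul_zero, zero_div, hz, zero_mul] at this
    have he : ee 0 = 1 := by simp [ee]
    simp only [he, mul_one] at this
    exact_mod_cast this

private theorem mul_log_re (j : ℤ) (z : ℂ) : ((j : ℂ) * Complex.log z).re = j * Real.log ‖z‖ := by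
  rw [← Complex.ofReal_intCast, Complex.re_ofReal_mul, Complex.log_re]

private theorem mul_log_im (j : ℤ) (z : ℂ) : ((j : ℂ) * Complex.log z).im = j * z.arg := by
  rw [← Complex.ofReal_intCast, Complex.im_ofReal_mul, Complex.log_im]

end LOneAux

open LOneAux

/-- (LOne) -/
theorem stLOne (hAbel : StAbel) (hGauss : StGauss) : StLOne := by
  intro N hN h1
  refine ⟨fun h4 => ?_, fun h4 => ?_⟩
  · have ho : Odd N := by rw [Nat.odd_iff]; omega
    obtain ⟨L, τ, hτ, hL, hs, -⟩ := main hAbel hGauss N hN h1 ho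
    refine ⟨L, hL, ?_⟩
    have hj : jacobiSym (-1) N = 1 := by
      rw [jacobiSym.at_neg_one ho, ZMod.χ₄_nat_one_mod_four h4]
    rw [hj] at hτ
    have hsq : ((Real.sqrt N : ℝ) : ℂ) ^ 2 = (N : ℂ) := by
      rw [← Complex.ofReal_pow, Real.sq_sqrt (by positivity)]
      simp
    have hτ' : τ = (Real.sqrt N : ℂ) ∨ τ = -(Real.sqrt N : ℂ) := by
      apply sq_eq_sq_iff_eq_or_eq_neg.mp
      rw [hτ, hsq]
      simp
    have hR : LR N = |(∑ r ∈ Finset.range N, (jacobiSym r N : ℂ) *
        Complex.log (1 - ee ((r : ℂ) / N))).re| := by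
      unfold LR
      rw [Complex.re_sum]
      congr 1
      apply Finset.sum_congr rfl
      intro r _
      rw [mul_log_re]
    have hs' : (∑ r ∈ Finset.range N, (jacobiSym r N : ℂ) * Complex.log (1 - ee ((r : ℂ) / N))) =
        -((L : ℂ) * τ) := by
      rw [hs, neg_neg]
    rw [hR, hs']
    rcases hτ' with h | h
    · rw [h, ← Complex.ofReal_mul, Complex.neg_re, Complex.ofReal_re, abs_neg, abs_mul,
        abs_of_nonneg (Real.sqrt_nonneg _)]
    · rw [h, mul_neg, neg_neg, ← Complex.ofReal_mul, Complex.ofReal_re, abs_mul,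
        abs_of_nonneg (Real.sqrt_nonneg _)]
  · have ho : Odd N := by rw [Nat.odd_iff]; omega
    obtain ⟨L, τ, hτ, hL, hs, h0⟩ := main hAbel hGauss N hN h1 ho
    refine ⟨L, hL, ?_⟩
    have hj : jacobiSym (-1) N = -1 := by
      rw [jacobiSym.at_neg_one ho, ZMod.χ₄_nat_three_mod_four h4]
    rw [hj] at hτ
    have hsq : (((Real.sqrt N : ℝ) : ℂ) * Complex.I) ^ 2 = -(N : ℂ) := by
      rw [mul_pow, ← Complex.ofReal_pow, Real.sq_sqrt (by positivity), Complex.I_sq]
      simp
    have hτ' : τ = (Real.sqrt N : ℂ) * Complex.I ∨ τ = -((Real.sqrt N : ℂ) * Complex.I) := by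
      apply sq_eq_sq_iff_eq_or_eq_neg.mp
      rw [hτ, hsq]
      simp
    have hNpos : (0 : ℝ) < N := by
      have : 0 < N := by omega
      exact_mod_cast this
    have hI : (∑ r ∈ Finset.range N, (jacobiSym r N : ℂ) * Complex.log (1 - ee ((r : ℂ) / N))).im =
        Real.pi / N * ∑ r ∈ Finset.range N, (jacobiSym r N : ℝ) * (r : ℝ) := by
      rw [Complex.im_sum, Finset.mul_sum]
      have h0' : ∑ r ∈ Finset.range N, (jacobiSym r N : ℝ) = 0 := by exact_mod_cast h0
      have : ∑ r ∈ Finset.range N, Real.pi / N * ((jacobiSym r N : ℝ) * (r : ℝ)) =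
          ∑ r ∈ Finset.range N, (Real.pi / N * ((jacobiSym r N : ℝ) * (r : ℝ)) -
            Real.pi / 2 * (jacobiSym r N : ℝ)) := by
        rw [Finset.sum_sub_distrib, ← Finset.mul_sum (a := Real.pi / 2), h0']
        ring
      rw [this]
      apply Finset.sum_congr rfl
      intro r hr
      rw [mul_log_im]
      rcases Nat.eq_zero_or_pos r with rfl | hr0
      · have hz : jacobiSym ((0 : ℕ) : ℤ) N = 0 := by
          rw [Nat.cast_zero]
          exact jacobiSym.zero_left h1
        rw [hz]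
        simp
      · have hrN : r < N := Finset.mem_range.mp hr
        have hx : ((r : ℂ) / N) = (((r : ℝ) / N : ℝ) : ℂ) := by push_cast; rfl
        rw [hx, arg_one_sub_ee]
        · field_simp
        · have : (0 : ℝ) < r := by exact_mod_cast hr0
          positivity
        · rw [div_lt_one hNpos]
          exact_mod_cast hrN
    have hs' : (∑ r ∈ Finset.range N, (jacobiSym r N : ℂ) * Complex.log (1 - ee ((r : ℂ) / N))) =
        -((L : ℂ) * τ) := by
      rw [hs, neg_neg]
    have hLI : ((LI N : ℤ) : ℝ) = |∑ r ∈ Finset.range N, (jacobiSym r N : ℝ) * (r : ℝ)| := by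
      unfold LI
      push_cast
      rfl
    have hkey : |L| * Real.sqrt N = Real.pi / N * LI N := by
      rw [hLI, ← abs_of_pos (show 0 < Real.pi / N by positivity), ← abs_mul, ← hI, hs']
      rcases hτ' with h | h
      · rw [h, ← mul_assoc, ← Complex.ofReal_mul, Complex.neg_im, Complex.im_ofReal_mul,
          Complex.I_im, abs_neg, mul_one, abs_mul, abs_of_nonneg (Real.sqrt_nonneg _)]
      · rw [h, mul_neg, neg_neg, ← mul_assoc, ← Complex.ofReal_mul, Complex.im_ofReal_mul,
          Complex.I_im, mul_one, abs_mul, abs_of_nonneg (Real.sqrt_nonneg _)]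
    calc |L| * N * Real.sqrt N = (|L| * Real.sqrt N) * N := by ring
      _ = Real.pi * LI N := by rw [hkey]; field_simp

end LO

end Pool.Agent.Lib.MP_7c5fb9_nt
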