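import Pool.Agent.Lib.MP_7c5fb9_nt.LO.Stmts

set_option autoImplicit false

/-!
# Level one (MP_7c5fb9_nt, project LO): the logarithm modulo three
-/

namespace Pool.Agent.Lib.MP_7c5fb9_nt

namespace LO

namespace Lamaux

/-- The polynomial `B`. -/
def Bq (D x y : ℤ) : ℤ := 4 * x * y * (x ^ 2 + D * y ^ 2)

/-- The polynomial `A`. -/
def Aq (D x y : ℤ) : ℤ := x ^ 4 + 6 * x ^ 2 * y ^ 2 * D + y ^ 4 * D ^ 2

theorem lam_eq (D x y : ℤ) : lam D x y = ((Bq D x y / 3 : ℤ) : ZMod 3) * ((Aq D x y : ℤ) : ZMod 3) :=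
  rfl

theorem three_cast : ((3 : ℤ) : ZMod 3) = 0 := by decide

theorem cast_eq_zero {a : ℤ} (h : (3 : ℤ) ∣ a) : ((a : ℤ) : ZMod 3) = 0 := by
  exact (ZMod.intCast_zmod_eq_zero_iff_dvd a 3).2 h

theorem cast_ne_zero {a : ℤ} (h : ¬ (3 : ℤ) ∣ a) : ((a : ℤ) : ZMod 3) ≠ 0 := fun h' =>
  h ((ZMod.intCast_zmod_eq_zero_iff_dvd a 3).1 h')

theorem cast_D {D : ℤ} (hD : D % 3 = 2) : ((D : ℤ) : ZMod 3) = 2 := by
  have h : (3 : ℤ) ∣ D - 2 := by omega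
  have h2 := cast_eq_zero h
  push_cast at h2
  exact sub_eq_zero.1 h2

/-- `B` is divisible by three. -/
theorem three_dvd_B {D : ℤ} (hD : D % 3 = 2) (x y : ℤ) : (3 : ℤ) ∣ Bq D x y := by
  refine (ZMod.intCast_zmod_eq_zero_iff_dvd (Bq D x y) 3).1 ?_
  unfold Bq
  push_cast
  have h := cast_D hD
  rw [h]
  generalize ((x : ℤ) : ZMod 3) = a
  generalize ((y : ℤ) : ZMod 3) = b
  revert a b
  decide

/-- `A ^ 2 = 1` modulo three if `(x, y)` is not divisible by three. -/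
theorem A_sq {D : ℤ} (hD : D % 3 = 2) {x y : ℤ} (h : ¬ (3 : ℤ) ∣ x ∨ ¬ (3 : ℤ) ∣ y) :
    ((Aq D x y : ℤ) : ZMod 3) ^ 2 = 1 := by
  have h1 : ((x : ℤ) : ZMod 3) ≠ 0 ∨ ((y : ℤ) : ZMod 3) ≠ 0 :=
    h.imp cast_ne_zero cast_ne_zero
  unfold Aq
  push_cast
  rw [cast_D hD]
  revert h1
  generalize ((x : ℤ) : ZMod 3) = a
  generalize ((y : ℤ) : ZMod 3) = b
  revert a b
  decide

theorem lam_of_B {D x y b : ℤ} (h : Bq D x y = 3 * b) :
    lam D x y = ((b : ℤ) : ZMod 3) * ((Aq D x y : ℤ) : ZMod 3) := by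
  rw [lam_eq, h, Int.mul_ediv_cancel_left _ (by norm_num)]

theorem B_mul (D x y x' y' : ℤ) : Bq D (x * x' + D * y * y') (x * y' + y * x') =
    Aq D x y * Bq D x' y' + Aq D x' y' * Bq D x y := by
  unfold Bq Aq
  ring

theorem A_mul (D x y x' y' : ℤ) : Aq D (x * x' + D * y * y') (x * y' + y * x') =
    Aq D x y * Aq D x' y' + D * (Bq D x y * Bq D x' y') := by
  unfold Bq Aq
  ring

end Lamaux

open Lamaux

theorem lamMul (D x y x' y' : ℤ) (hD : D % 3 = 2) (h : ¬ (3 : ℤ) ∣ x ∨ ¬ (3 : ℤ) ∣ y)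
    (h' : ¬ (3 : ℤ) ∣ x' ∨ ¬ (3 : ℤ) ∣ y') :
    lam D (x * x' + D * y * y') (x * y' + y * x') = lam D x y + lam D x' y' := by
  obtain ⟨b, hb⟩ := three_dvd_B hD x y
  obtain ⟨b', hb'⟩ := three_dvd_B hD x' y'
  have h1 : Bq D (x * x' + D * y * y') (x * y' + y * x') =
      3 * (Aq D x y * b' + Aq D x' y' * b) := by
    rw [B_mul, hb, hb']; ring
  have h2 : ((Aq D (x * x' + D * y * y') (x * y' + y * x') : ℤ) : ZMod 3) =
      ((Aq D x y : ℤ) : ZMod 3) * ((Aq D x' y' : ℤ) : ZMod 3) := by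
    rw [A_mul, hb, hb']
    push_cast
    have h3 : (3 : ZMod 3) = 0 := by decide
    rw [h3]
    ring
  rw [lam_of_B h1, h2, lam_of_B hb, lam_of_B hb']
  push_cast
  have e1 := A_sq hD h
  have e2 := A_sq hD h'
  linear_combination ((b' : ℤ) : ZMod 3) * ((Aq D x' y' : ℤ) : ZMod 3) * e1 +
    ((b : ℤ) : ZMod 3) * ((Aq D x y : ℤ) : ZMod 3) * e2

theorem lamSmul (D c x y : ℤ) (hD : D % 3 = 2) (hc : ¬ (3 : ℤ) ∣ c) :
    lam D (c * x) (c * y) = lam D x y := by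
  obtain ⟨b, hb⟩ := three_dvd_B hD x y
  have h1 : Bq D (c * x) (c * y) = 3 * (c ^ 4 * b) := by
    have : Bq D (c * x) (c * y) = c ^ 4 * Bq D x y := by unfold Bq; ring
    rw [this, hb]; ring
  have h2 : Aq D (c * x) (c * y) = c ^ 4 * Aq D x y := by unfold Aq; ring
  rw [lam_of_B h1, lam_of_B hb, h2]
  push_cast
  have h3 : ((c : ℤ) : ZMod 3) ^ 4 = 1 := by
    have := cast_ne_zero hc
    revert this
    generalize ((c : ℤ) : ZMod 3) = a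
    revert a
    decide
  rw [h3]
  ring

theorem lamNeg (D x y : ℤ) (hD : D % 3 = 2) : lam D x (-y) = -lam D x y := by
  obtain ⟨b, hb⟩ := three_dvd_B hD x y
  have h1 : Bq D x (-y) = 3 * (-b) := by
    have : Bq D x (-y) = -Bq D x y := by unfold Bq; ring
    rw [this, hb]; ring
  have h2 : Aq D x (-y) = Aq D x y := by unfold Aq; ring
  rw [lam_of_B h1, lam_of_B hb, h2]
  push_cast
  ring

theorem lamZero (D x : ℤ) : lam D x 0 = 0 := by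
  have h1 : Bq D x 0 = 3 * 0 := by unfold Bq; ring
  rw [lam_of_B h1]
  push_cast
  ring

theorem lamCongr (D x y D' x' y' : ℤ) (hD : D % 3 = 2) (h0 : (9 : ℤ) ∣ D - D')
    (h1 : (9 : ℤ) ∣ x - x') (h2 : (9 : ℤ) ∣ y - y') : lam D x y = lam D' x' y' := by
  have hD' : D' % 3 = 2 := by omega
  obtain ⟨b, hb⟩ := three_dvd_B hD x y
  obtain ⟨b', hb'⟩ := three_dvd_B hD' x' y'
  have m0 : D ≡ D' [ZMOD 9] := (Int.modEq_iff_dvd.2 (by rw [← neg_sub]; exact (dvd_neg.2 h0)))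
  have m1 : x ≡ x' [ZMOD 9] := (Int.modEq_iff_dvd.2 (by rw [← neg_sub]; exact (dvd_neg.2 h1)))
  have m2 : y ≡ y' [ZMOD 9] := (Int.modEq_iff_dvd.2 (by rw [← neg_sub]; exact (dvd_neg.2 h2)))
  have hB : Bq D x y ≡ Bq D' x' y' [ZMOD 9] := by
    unfold Bq
    exact ((m1.mul_left 4).mul m2).mul ((m1.pow 2).add (m0.mul (m2.pow 2)))
  have hA : Aq D x y ≡ Aq D' x' y' [ZMOD 9] := by
    unfold Aq
    exact ((m1.pow 4).add ((((m1.pow 2).mul_left 6).mul (m2.pow 2)).mul m0)).add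
      ((m2.pow 4).mul (m0.pow 2))
  have hb3 : (3 : ℤ) ∣ b' - b := by
    have := Int.modEq_iff_dvd.1 hB
    rw [hb, hb'] at this
    omega
  have hA3 : (3 : ℤ) ∣ Aq D' x' y' - Aq D x y :=
    (show (3 : ℤ) ∣ 9 by norm_num).trans (Int.modEq_iff_dvd.1 hA)
  rw [lam_of_B hb, lam_of_B hb']
  have e1 := cast_eq_zero hb3
  have e2 := cast_eq_zero hA3
  push_cast at e1 e2
  rw [sub_eq_zero] at e1 e2
  rw [e1, e2]

theorem stLam : StLam :=
  ⟨fun D x y x' y' hD h h' => lamMul D x y x' y' hD h h', fun D c x y hD hc =>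
    lamSmul D c x y hD hc, fun D x y hD => lamNeg D x y hD, fun D x => lamZero D x,
    fun D x y D' x' y' hD h0 h1 h2 => lamCongr D x y D' x' y' hD h0 h1 h2⟩

end LO

end Pool.Agent.Lib.MP_7c5fb9_nt
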