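import Pool.Agent.Lib.MP_7c5fb9_nt.LO.Stmts

set_option autoImplicit false

/-!
# Level one: `T_7 - 2` lowers the degree by four
-/

namespace Pool.Agent.Lib.MP_7c5fb9_nt

namespace LO

namespace Lowaux

/-- Functions of matrices. -/
abbrev V : Type := Mat → ZMod 3

/-! ### Linear maps -/

/-- Right translation. -/
def rL (h : Mat) : V →ₗ[ZMod 3] V where
  toFun := Rt h
  map_add' _ _ := rfl
  map_smul' _ _ := rfl

/-- Difference operators. -/
def xL (i : Fin 3) : V →ₗ[ZMod 3] V where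
  toFun := Xd i
  map_add' a b := by
    funext M
    simp only [Xd, Pi.add_apply]
    ring
  map_smul' c a := by
    funext M
    simp only [Xd, Pi.smul_apply, smul_eq_mul, RingHom.id_apply]
    ring

/-- Hecke operators. -/
def tL (L : List Mat) : V →ₗ[ZMod 3] V where
  toFun := TM L
  map_add' a b := by
    funext M
    simp only [TM, Pi.add_apply]
    rw [List.sum_map_add]
  map_smul' c a := by
    funext M
    simp only [TM, Pi.smul_apply, smul_eq_mul, RingHom.id_apply]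
    rw [List.sum_map_mul_left]

/-- The operator `T_7 - 2`. -/
def lL : V →ₗ[ZMod 3] V where
  toFun := Lop
  map_add' a b := by
    funext M
    have h := congrFun ((tL L7).map_add a b) M
    simp only [Lop, Pi.add_apply]
    change TM L7 (a + b) M = TM L7 a M + TM L7 b M at h
    rw [h]
    ring
  map_smul' c a := by
    funext M
    have h := congrFun ((tL L7).map_smul c a) M
    simp only [Lop, Pi.smul_apply, smul_eq_mul, RingHom.id_apply]
    change TM L7 (c • a) M = c * TM L7 a M at h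
    rw [h]
    ring

/-- The coordinates. -/
def aL (i : Fin 3) : V →ₗ[ZMod 3] ZMod 3 where
  toFun := ac i
  map_add' a b := by
    fin_cases i <;> simp [ac] <;> ring
  map_smul' c a := by
    fin_cases i <;> simp [ac] <;> ring

theorem foldr_add (l : List (Fin 3)) (a b : V) :
    l.foldr Xd (a + b) = l.foldr Xd a + l.foldr Xd b := by
  induction l with
  | nil => rfl
  | cons i l ih =>
    rw [List.foldr_cons, List.foldr_cons, List.foldr_cons, ih]
    exact (xL i).map_add _ _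

theorem foldr_smul (l : List (Fin 3)) (c : ZMod 3) (a : V) :
    l.foldr Xd (c • a) = c • l.foldr Xd a := by
  induction l with
  | nil => rfl
  | cons i l ih =>
    rw [List.foldr_cons, List.foldr_cons, ih]
    exact (xL i).map_smul _ _

/-- The symbols. -/
def sL (l : List (Fin 3)) : V →ₗ[ZMod 3] ZMod 3 where
  toFun v := sym v l
  map_add' a b := by
    cases l with
    | nil => simp [sym]
    | cons i l =>
      change ac i (l.foldr Xd (a + b)) = ac i (l.foldr Xd a) + ac i (l.foldr Xd b)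
      rw [foldr_add]
      exact (aL i).map_add _ _
  map_smul' c a := by
    cases l with
    | nil => simp [sym]
    | cons i l =>
      change ac i (l.foldr Xd (c • a)) = c * ac i (l.foldr Xd a)
      rw [foldr_smul]
      exact (aL i).map_smul _ _

theorem rL_mul (h k : Mat) (v : V) : Rt h (Rt k v) = Rt (h * k) v := by
  funext M
  simp only [Rt, Matrix.mul_assoc]

theorem xL_eq (i : Fin 3) (v : V) : Xd i v = Rt (gm i) v - v := rfl

theorem tL_rL (L : List Mat) (h : Mat) (v : V) : TM L (Rt h v) = Rt h (TM L v) := by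
  funext M
  simp only [TM, Rt, Matrix.mul_assoc]

theorem lL_rL (h : Mat) (v : V) : Lop (Rt h v) = Rt h (Lop v) := by
  funext M
  have h1 := congrFun (tL_rL L7 h v) M
  simp only [Lop, Rt] at h1 ⊢
  rw [h1]

theorem lL_xL (i : Fin 3) (v : V) : Lop (Xd i v) = Xd i (Lop v) := by
  rw [xL_eq, xL_eq, ← lL_rL]
  exact lL.map_sub _ _

theorem tL_xL (L : List Mat) (i : Fin 3) (v : V) : TM L (Xd i v) = Xd i (TM L v) := by
  rw [xL_eq, xL_eq, ← tL_rL]
  exact (tL L).map_sub _ _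

/-! ### The filtration -/

theorem fil_zero (n : ℕ) : Fil n (0 : V) := by
  induction n with
  | zero => rfl
  | succ n ih =>
    intro i
    have h : Xd i (0 : V) = 0 := (xL i).map_zero
    rw [h]
    exact ih

theorem fil_add {n : ℕ} : ∀ {a b : V}, Fil n a → Fil n b → Fil n (a + b) := by
  induction n with
  | zero =>
    intro a b ha hb
    have ha' : a = 0 := ha
    have hb' : b = 0 := hb
    rw [ha', hb', add_zero]
    rfl
  | succ n ih =>
    intro a b ha hb i
    have h : Xd i (a + b) = Xd i a + Xd i b := (xL i).map_add _ _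
    rw [h]
    exact ih (ha i) (hb i)

theorem fil_smul {n : ℕ} (c : ZMod 3) : ∀ {a : V}, Fil n a → Fil n (c • a) := by
  induction n with
  | zero =>
    intro a ha
    have ha' : a = 0 := ha
    rw [ha', smul_zero]
    rfl
  | succ n ih =>
    intro a ha i
    have h : Xd i (c • a) = c • Xd i a := (xL i).map_smul _ _
    rw [h]
    exact ih (ha i)

theorem fil_succ {n : ℕ} : ∀ {a : V}, Fil n a → Fil (n + 1) a := by
  induction n with
  | zero =>
    intro a ha
    have ha' : a = 0 := ha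
    rw [ha']
    exact fil_zero 1
  | succ n ih =>
    intro a ha i
    exact ih (ha i)

theorem fil_neg {n : ℕ} {a : V} (ha : Fil n a) : Fil n (-a) := by
  have h := fil_smul (-1) ha
  rwa [neg_one_smul] at h

theorem fil_sub {n : ℕ} {a b : V} (ha : Fil n a) (hb : Fil n b) : Fil n (a - b) := by
  rw [sub_eq_add_neg]
  exact fil_add ha (fil_neg hb)

/-! ### Stability -/

theorem mf_add {m : ℕ} {a b : V} (ha : MF m a) (hb : MF m b) : MF m (a + b) where
  per M N := by rw [Pi.add_apply, Pi.add_apply, ha.per, hb.per]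
  scal c M hc := by rw [Pi.add_apply, Pi.add_apply, ha.scal c M hc, hb.scal c M hc]
  supp M hM := by rw [Pi.add_apply, ha.supp M hM, hb.supp M hM, add_zero]

theorem mf_smul {m : ℕ} (c : ZMod 3) {a : V} (ha : MF m a) : MF m (c • a) where
  per M N := by rw [Pi.smul_apply, Pi.smul_apply, ha.per]
  scal d M hd := by rw [Pi.smul_apply, Pi.smul_apply, ha.scal d M hd]
  supp M hM := by rw [Pi.smul_apply, ha.supp M hM, smul_zero]

theorem mf_rt {m : ℕ} (h : Mat) {a : V} (ha : MF m a) : MF m (Rt h a) where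
  per M N := by
    change a ((M + (3 : ℤ) ^ m • N) * h) = a (M * h)
    rw [Matrix.add_mul, Matrix.smul_mul]
    exact ha.per _ _
  scal c M hc := by
    change a ((c • M) * h) = a (M * h)
    rw [Matrix.smul_mul]
    exact ha.scal c _ hc
  supp M hM := by
    refine ha.supp _ ?_
    rw [Matrix.det_mul]
    exact dvd_mul_of_dvd_left hM _

theorem mf_tm {m : ℕ} (L : List Mat) {a : V} (ha : MF m a) : MF m (TM L a) where
  per M N := by
    refine congrArg List.sum (List.map_congr_left fun K _ => ?_)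
    rw [Matrix.mul_add, Matrix.mul_smul]
    exact ha.per _ _
  scal c M hc := by
    refine congrArg List.sum (List.map_congr_left fun K _ => ?_)
    rw [Matrix.mul_smul]
    exact ha.scal c _ hc
  supp M hM := by
    have h : (L.map fun N => a (N.adjugate * M)) = L.map fun _ => (0 : ZMod 3) := by
      refine List.map_congr_left fun K _ => ?_
      refine ha.supp _ ?_
      rw [Matrix.det_mul]
      exact dvd_mul_of_dvd_right hM _
    change (L.map fun N => a (N.adjugate * M)).sum = 0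
    rw [h]
    simp

theorem mf_mono {m m' : ℕ} (hm : m ≤ m') {a : V} (ha : MF m a) : MF m' a where
  per M N := by
    obtain ⟨k, rfl⟩ := Nat.exists_eq_add_of_le hm
    rw [pow_add, mul_smul]
    exact ha.per _ _
  scal := ha.scal
  supp := ha.supp

theorem wr_add {a b : V} (ha : WR a) (hb : WR b) : WR (a + b) where
  S M := by
    rw [Pi.add_apply, Pi.add_apply, ha.S, hb.S]
    ring
  E M := by rw [Pi.add_apply, Pi.add_apply, ha.E, hb.E]
  U M := by
    rw [Pi.add_apply, Pi.add_apply, Pi.add_apply]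
    linear_combination ha.U M + hb.U M

theorem wr_smul (c : ZMod 3) {a : V} (ha : WR a) : WR (c • a) where
  S M := by
    rw [Pi.smul_apply, Pi.smul_apply, ha.S, smul_neg]
  E M := by rw [Pi.smul_apply, Pi.smul_apply, ha.E]
  U M := by
    rw [Pi.smul_apply, Pi.smul_apply, Pi.smul_apply, ← smul_add, ← smul_add, ha.U, smul_zero]

theorem wr_rt (h : Mat) {a : V} (ha : WR a) : WR (Rt h a) where
  S M := by
    change a (mS * M * h) = -a (M * h)
    rw [Matrix.mul_assoc]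
    exact ha.S _
  E M := by
    change a (mE * M * h) = a (M * h)
    rw [Matrix.mul_assoc]
    exact ha.E _
  U M := by
    change a (M * h) + a (mU * M * h) + a (mU * mU * M * h) = 0
    rw [Matrix.mul_assoc mU M h, Matrix.mul_assoc (mU * mU) M h]
    exact ha.U _

theorem kk_add {m : ℕ} {a b : V} (ha : KK m a) (hb : KK m b) : KK m (a + b) where
  mf := mf_add ha.mf hb.mf
  wr := wr_add ha.wr hb.wr
  T2 := by
    have h : TM L2 (a + b) = TM L2 a + TM L2 b := (tL L2).map_add _ _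
    rw [h, ha.T2, hb.T2, add_zero]

theorem kk_smul {m : ℕ} (c : ZMod 3) {a : V} (ha : KK m a) : KK m (c • a) where
  mf := mf_smul c ha.mf
  wr := wr_smul c ha.wr
  T2 := by
    have h : TM L2 (c • a) = c • TM L2 a := (tL L2).map_smul _ _
    rw [h, ha.T2, smul_zero]

theorem kk_neg {m : ℕ} {a : V} (ha : KK m a) : KK m (-a) := by
  have h := kk_smul (-1) ha
  rwa [neg_one_smul] at h

theorem kk_sub {m : ℕ} {a b : V} (ha : KK m a) (hb : KK m b) : KK m (a - b) := by
  rw [sub_eq_add_neg]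
  exact kk_add ha (kk_neg hb)

theorem kk_rt {m : ℕ} (h : Mat) {a : V} (ha : KK m a) : KK m (Rt h a) where
  mf := mf_rt h ha.mf
  wr := wr_rt h ha.wr
  T2 := by
    rw [tL_rL, ha.T2]
    rfl

theorem kk_xd {m : ℕ} (i : Fin 3) {a : V} (ha : KK m a) : KK m (Xd i a) := by
  rw [xL_eq]
  exact kk_sub (kk_rt _ ha) ha

theorem kk_mono {m m' : ℕ} (hm : m ≤ m') {a : V} (ha : KK m a) : KK m' a :=
  ⟨mf_mono hm ha.mf, ha.wr, ha.T2⟩

theorem mf_sub {m : ℕ} {a b : V} (ha : MF m a) (hb : MF m b) : MF m (a - b) := by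
  have h := mf_add ha (mf_smul (-1) hb)
  rwa [neg_one_smul, ← sub_eq_add_neg] at h

theorem wr_sub {a b : V} (ha : WR a) (hb : WR b) : WR (a - b) := by
  have h := wr_add ha (wr_smul (-1) hb)
  rwa [neg_one_smul, ← sub_eq_add_neg] at h

theorem lop_eq (v : V) : Lop v = TM L7 v - (2 : ZMod 3) • v := rfl

theorem mf_lop {m : ℕ} {a : V} (ha : MF m a) : MF m (Lop a) := by
  rw [lop_eq]
  exact mf_sub (mf_tm L7 ha) (mf_smul 2 ha)

theorem wr_lop (hHk : StHk) {m : ℕ} {a : V} (ha : MF m a) (hw : WR a) : WR (Lop a) := by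
  rw [lop_eq]
  exact wr_sub (hHk m a ha hw).2 (wr_smul 2 hw)

/-! ### The average -/

/-- The alternating average over the rotation. -/
def av1 : V →ₗ[ZMod 3] V :=
  LinearMap.id - rL mr + (rL mr).comp (rL mr) - (rL mr).comp ((rL mr).comp (rL mr))

/-- The average. -/
def av : V →ₗ[ZMod 3] V := (LinearMap.id + rL mE).comp av1

theorem av1_apply (v : V) :
    av1 v = v - Rt mr v + Rt mr (Rt mr v) - Rt mr (Rt mr (Rt mr v)) := rfl

theorem av_apply (v : V) : av v = av1 v + Rt mE (av1 v) := rfl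

theorem rt_mr4 {m : ℕ} {v : V} (hv : MF m v) : Rt mr (Rt mr (Rt mr (Rt mr v))) = v := by
  rw [rL_mul, rL_mul, rL_mul]
  funext M
  change v (M * (mr * mr * mr * mr)) = v M
  have h : mr * mr * mr * mr = (-4 : ℤ) • (1 : Mat) := by decide
  rw [h, Matrix.mul_smul, Matrix.mul_one]
  exact hv.scal _ _ (by decide)

theorem rt_sub (h : Mat) (a b : V) : Rt h (a - b) = Rt h a - Rt h b := rfl

theorem rt_add (h : Mat) (a b : V) : Rt h (a + b) = Rt h a + Rt h b := rfl

theorem av1_rt {m : ℕ} {v : V} (hv : MF m v) : Rt mr (av1 v) = -av1 v := by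
  rw [av1_apply, rt_sub, rt_add, rt_sub, rt_mr4 hv]
  abel

theorem mf_av1 {m : ℕ} {v : V} (hv : MF m v) : MF m (av1 v) := by
  rw [av1_apply]
  exact mf_sub (mf_add (mf_sub hv (mf_rt _ hv)) (mf_rt _ (mf_rt _ hv)))
    (mf_rt _ (mf_rt _ (mf_rt _ hv)))

theorem kk_av1 {m : ℕ} {v : V} (hv : KK m v) : KK m (av1 v) := by
  rw [av1_apply]
  exact kk_sub (kk_add (kk_sub hv (kk_rt _ hv)) (kk_rt _ (kk_rt _ hv)))
    (kk_rt _ (kk_rt _ (kk_rt _ hv)))

theorem kk_av {m : ℕ} {v : V} (hv : KK m v) : KK m (av v) := by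
  rw [av_apply]
  exact kk_add (kk_av1 hv) (kk_rt _ (kk_av1 hv))

theorem fil_rt (hRH : StRH) {m n : ℕ} {h : Mat} {v : V} (hh : ¬ (3 : ℤ) ∣ h.det) (hv : MF m v)
    (hf : Fil n v) : Fil n (Rt h v) := hRH.1 m n h v hh hv hf

theorem det_mr : ¬ (3 : ℤ) ∣ mr.det := by decide

theorem det_mE : ¬ (3 : ℤ) ∣ mE.det := by decide

theorem det_mT : ¬ (3 : ℤ) ∣ mT.det := by decide

theorem fil_av1 (hRH : StRH) {m n : ℕ} {v : V} (hv : MF m v) (hf : Fil n v) :
    Fil n (av1 v) := by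
  rw [av1_apply]
  have h1 := fil_rt hRH det_mr hv hf
  have h2 := fil_rt hRH det_mr (mf_rt _ hv) h1
  have h3 := fil_rt hRH det_mr (mf_rt _ (mf_rt _ hv)) h2
  exact fil_sub (fil_add (fil_sub hf h1) h2) h3

theorem fil_av (hRH : StRH) {m n : ℕ} {v : V} (hv : MF m v) (hf : Fil n v) :
    Fil n (av v) := by
  rw [av_apply]
  exact fil_add (fil_av1 hRH hv hf) (fil_rt hRH det_mE (mf_av1 hv) (fil_av1 hRH hv hf))

theorem av_E (v : V) : Rt mE (av v) = av v := by
  rw [av_apply, rt_add, rL_mul]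
  have h : mE * mE = (1 : Mat) := by decide
  rw [h]
  have h1 : Rt 1 (av1 v) = av1 v := by
    funext M
    change av1 v (M * 1) = av1 v M
    rw [Matrix.mul_one]
  rw [h1, add_comm]

theorem av_r {m : ℕ} {v : V} (hv : MF m v) : Rt mr (av v) = -av v := by
  rw [av_apply, rt_add, av1_rt hv]
  have h1 : Rt mr (Rt mE (av1 v)) = -Rt mE (av1 v) := by
    rw [rL_mul]
    funext M
    change av1 v (M * (mr * mE)) = -av1 v (M * mE)
    have h2 := congrFun (av1_rt hv) (M * (mr * mE))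
    change av1 v (M * (mr * mE) * mr) = -av1 v (M * (mr * mE)) at h2
    have h3 : M * (mr * mE) * mr = (2 : ℤ) • (M * mE) := by
      rw [Matrix.mul_assoc, ← Matrix.mul_smul]
      congr 1
      decide
    rw [h3, (mf_av1 hv).scal 2 _ (by decide)] at h2
    rw [h2, neg_neg]
  rw [h1]
  abel

theorem av_lop (v : V) : Lop (av v) = av (Lop v) := by
  have h1 : ∀ w : V, Lop (av1 w) = av1 (Lop w) := by
    intro w
    rw [av1_apply, av1_apply]
    have h2 : Lop (w - Rt mr w + Rt mr (Rt mr w) - Rt mr (Rt mr (Rt mr w)))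
        = Lop w - Lop (Rt mr w) + Lop (Rt mr (Rt mr w)) - Lop (Rt mr (Rt mr (Rt mr w))) := by
      have e1 := lL.map_sub (w - Rt mr w + Rt mr (Rt mr w)) (Rt mr (Rt mr (Rt mr w)))
      have e2 := lL.map_add (w - Rt mr w) (Rt mr (Rt mr w))
      have e3 := lL.map_sub w (Rt mr w)
      rw [e2, e3] at e1
      exact e1
    rw [h2]
    simp only [lL_rL]
  rw [av_apply, av_apply]
  have h3 : Lop (av1 v + Rt mE (av1 v)) = Lop (av1 v) + Lop (Rt mE (av1 v)) := lL.map_add _ _
  rw [h3, lL_rL, h1]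

/-- The average does not change the vanishing of the first coordinate. -/
theorem ac_av (hVOne : StVOne) (hRH : StRH) {m : ℕ} {w : V} (hm : MF m w) (hw : WR w)
    (hf : Fil 1 w) : ac 0 (av w) = 8 * ac 0 w := by
  have key : ∀ x : V, MF m x → WR x → Fil 1 x → ac 0 (Rt mr x) = -ac 0 x :=
    fun x h1 h2 h3 => (hVOne m x h1 h2 h3).2.2.2.2.1.1
  have f1 := fil_rt hRH det_mr hm hf
  have f2 := fil_rt hRH det_mr (mf_rt _ hm) f1
  have f3 := fil_rt hRH det_mr (mf_rt _ (mf_rt _ hm)) f2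
  have k1 := key w hm hw hf
  have k2 := key _ (mf_rt _ hm) (wr_rt _ hw) f1
  have k3 := key _ (mf_rt _ (mf_rt _ hm)) (wr_rt _ (wr_rt _ hw)) f2
  have h1 : ac 0 (av1 w) = 4 * ac 0 w := by
    rw [av1_apply]
    have e1 := (aL 0).map_sub (w - Rt mr w + Rt mr (Rt mr w)) (Rt mr (Rt mr (Rt mr w)))
    have e2 := (aL 0).map_add (w - Rt mr w) (Rt mr (Rt mr w))
    have e3 := (aL 0).map_sub w (Rt mr w)
    rw [e2, e3] at e1
    change ac 0 (w - Rt mr w + Rt mr (Rt mr w) - Rt mr (Rt mr (Rt mr w))) =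
      ac 0 w - ac 0 (Rt mr w) + ac 0 (Rt mr (Rt mr w)) - ac 0 (Rt mr (Rt mr (Rt mr w))) at e1
    rw [e1, k3, k2, k1]
    ring
  have h2 : WR (av1 w) := by
    rw [av1_apply]
    exact wr_sub (wr_add (wr_sub hw (wr_rt _ hw)) (wr_rt _ (wr_rt _ hw)))
      (wr_rt _ (wr_rt _ (wr_rt _ hw)))
  have h3 : ac 0 (Rt mE (av1 w)) = ac 0 (av1 w) :=
    (hVOne m (av1 w) (mf_av1 hm) h2 (fil_av1 hRH hm hf)).2.2.2.2.2.1.1
  have h4 : ac 0 (av w) = ac 0 (av1 w) + ac 0 (Rt mE (av1 w)) := (aL 0).map_add _ _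
  rw [h4, h3, h1]
  ring

/-! ### Symbols -/

/-- The relations of the symbols. -/
structure Sg (n : ℕ) (c : List (Fin 3) → ZMod 3) : Prop where
  perm : ∀ l l' : List (Fin 3), l.length = n → l.Perm l' → c l = c l'
  tr : ∀ l : List (Fin 3), l.length + 2 = n → ∑ i, c (i :: i :: l) = 0
  r : ∀ l : List (Fin 3), l.length = n → c l = (-1) ^ l.count 1 * c (l.map (Equiv.swap 1 2))
  e : ∀ l : List (Fin 3), l.length = n →
    c l = -((-1) ^ l.count 0 * c (l.map (Equiv.swap 1 2)))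

theorem sorted (l : List (Fin 3)) : l.Perm (List.replicate (l.count 0) 0 ++
    (List.replicate (l.count 1) 1 ++ List.replicate (l.count 2) 2)) := by
  rw [List.perm_iff_count]
  intro a
  rw [List.count_append, List.count_append, List.count_replicate, List.count_replicate,
    List.count_replicate]
  fin_cases a <;> simp

theorem count_sum (l : List (Fin 3)) : l.count 0 + l.count 1 + l.count 2 = l.length := by
  have h := (sorted l).length_eq
  simp only [List.length_append, List.length_replicate] at h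
  omega

theorem zero_of_neg {x : ZMod 3} (h : x = -x) : x = 0 := by
  revert x
  decide

theorem Sg.even {n : ℕ} {c : List (Fin 3) → ZMod 3} (hc : Sg n c) {l : List (Fin 3)}
    (hl : l.length = n) (h : Even (l.count 0 + l.count 1)) : c l = 0 := by
  have h1 := hc.r l hl
  have h2 := hc.e l hl
  have h3 : ((-1 : ZMod 3)) ^ l.count 0 = (-1) ^ l.count 1 := by
    have h4 : ((-1 : ZMod 3)) ^ (l.count 0 + l.count 1) = 1 := h.neg_one_pow
    rw [pow_add] at h4
    rcases neg_one_pow_eq_or (ZMod 3) (l.count 0) with h5 | h5 <;>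
    rcases neg_one_pow_eq_or (ZMod 3) (l.count 1) with h6 | h6 <;>
    rw [h5, h6] at h4 ⊢ <;> revert h4 <;> decide
  rw [h3, ← h1] at h2
  exact zero_of_neg h2

theorem count_swap1 (l : List (Fin 3)) : (l.map (Equiv.swap 1 2)).count 1 = l.count 2 := by
  have h := List.count_map_of_injective l (Equiv.swap (1 : Fin 3) 2)
    (Equiv.swap (1 : Fin 3) 2).injective 2
  rwa [Equiv.swap_apply_right] at h

theorem count_swap0 (l : List (Fin 3)) : (l.map (Equiv.swap 1 2)).count 0 = l.count 0 := by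
  have h := List.count_map_of_injective l (Equiv.swap (1 : Fin 3) 2)
    (Equiv.swap (1 : Fin 3) 2).injective 0
  rwa [Equiv.swap_apply_of_ne_of_ne (by decide) (by decide)] at h

theorem Sg.even' {n : ℕ} {c : List (Fin 3) → ZMod 3} (hc : Sg n c) {l : List (Fin 3)}
    (hl : l.length = n) (h : Even (l.count 0 + l.count 2)) : c l = 0 := by
  rw [hc.r l hl, hc.even (l := l.map (Equiv.swap 1 2)) (by rw [List.length_map, hl])
    (by rw [count_swap0, count_swap1]; exact h), mul_zero]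

theorem Sg.two {c : List (Fin 3) → ZMod 3} (hc : Sg 2 c) (l : List (Fin 3))
    (hl : l.length = 2) : c l = 0 := by
  have hs := count_sum l
  by_cases h0 : Even (l.count 0 + l.count 1)
  · exact hc.even hl h0
  by_cases h1 : Even (l.count 0 + l.count 2)
  · exact hc.even' hl h1
  rw [Nat.even_iff] at h0 h1
  have e0 : l.count 0 = 0 := by omega
  have e1 : l.count 1 = 1 := by omega
  have e2 : l.count 2 = 1 := by omega
  have h2 := hc.perm _ _ hl (sorted l)
  rw [e0, e1, e2] at h2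
  rw [h2]
  change c [1, 2] = 0
  have h3 := hc.r [1, 2] rfl
  change c [1, 2] = (-1) ^ 1 * c [2, 1] at h3
  rw [hc.perm [2, 1] [1, 2] rfl (by decide), pow_one, neg_one_mul] at h3
  exact zero_of_neg h3

theorem Sg.three {c : List (Fin 3) → ZMod 3} (hc : Sg 3 c) (h000 : c [0, 0, 0] = 0)
    (l : List (Fin 3)) (hl : l.length = 3) : c l = 0 := by
  have hs := count_sum l
  by_cases h0 : Even (l.count 0 + l.count 1)
  · exact hc.even hl h0
  by_cases h1 : Even (l.count 0 + l.count 2)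
  · exact hc.even' hl h1
  rw [Nat.even_iff] at h0 h1
  have h2 := hc.perm _ _ hl (sorted l)
  have h3 := hc.r [0, 1, 1] rfl
  change c [0, 1, 1] = (-1) ^ 2 * c [0, 2, 2] at h3
  have h4 := hc.tr [0] rfl
  rw [Fin.sum_univ_three, h000, hc.perm [1, 1, 0] [0, 1, 1] rfl (by decide),
    hc.perm [2, 2, 0] [0, 2, 2] rfl (by decide)] at h4
  have h5 : c [0, 1, 1] = 0 := by
    have h6 : ∀ x y : ZMod 3, x = (-1) ^ 2 * y → 0 + x + y = 0 → x = 0 := by decide
    exact h6 _ _ h3 h4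
  have h6 : c [0, 2, 2] = 0 := by
    have h6 : ∀ x y : ZMod 3, x = (-1) ^ 2 * y → 0 + x + y = 0 → y = 0 := by decide
    exact h6 _ _ h3 h4
  have h7 : (l.count 0 = 3 ∧ l.count 1 = 0 ∧ l.count 2 = 0) ∨
      (l.count 0 = 1 ∧ l.count 1 = 2 ∧ l.count 2 = 0) ∨
      (l.count 0 = 1 ∧ l.count 1 = 0 ∧ l.count 2 = 2) := by omega
  rcases h7 with ⟨e0, e1, e2⟩ | ⟨e0, e1, e2⟩ | ⟨e0, e1, e2⟩ <;> rw [e0, e1, e2] at h2 <;> rw [h2]
  · exact h000
  · exact h5
  · exact h6

theorem Sg.four {c : List (Fin 3) → ZMod 3} (hc : Sg 4 c) (h1112 : c [1, 1, 1, 2] = 0)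
    (l : List (Fin 3)) (hl : l.length = 4) : c l = 0 := by
  have hs := count_sum l
  by_cases h0 : Even (l.count 0 + l.count 1)
  · exact hc.even hl h0
  by_cases h1 : Even (l.count 0 + l.count 2)
  · exact hc.even' hl h1
  rw [Nat.even_iff] at h0 h1
  have h2 := hc.perm _ _ hl (sorted l)
  have h3 : c [0, 0, 1, 2] = 0 := by
    have h3 := hc.r [0, 0, 1, 2] rfl
    change c [0, 0, 1, 2] = (-1) ^ 1 * c [0, 0, 2, 1] at h3
    rw [hc.perm [0, 0, 2, 1] [0, 0, 1, 2] rfl (by decide), pow_one, neg_one_mul] at h3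
    exact zero_of_neg h3
  have h4 : c [1, 2, 2, 2] = 0 := by
    have h3 := hc.r [1, 2, 2, 2] rfl
    change c [1, 2, 2, 2] = (-1) ^ 1 * c [2, 1, 1, 1] at h3
    rw [hc.perm [2, 1, 1, 1] [1, 1, 1, 2] rfl (by decide), h1112, mul_zero] at h3
    exact h3
  have h7 : (l.count 0 = 2 ∧ l.count 1 = 1 ∧ l.count 2 = 1) ∨
      (l.count 0 = 0 ∧ l.count 1 = 3 ∧ l.count 2 = 1) ∨
      (l.count 0 = 0 ∧ l.count 1 = 1 ∧ l.count 2 = 3) := by omega
  rcases h7 with ⟨e0, e1, e2⟩ | ⟨e0, e1, e2⟩ | ⟨e0, e1, e2⟩ <;> rw [e0, e1, e2] at h2 <;> rw [h2]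
  · exact h3
  · exact h1112
  · exact h4

/-- The symbols of symmetrised functions. -/
theorem sg_of (hSym : StSym) (hRot : StRot) {m d : ℕ} {v : V} (hv : KK m v)
    (hf : Fil (d + 1) v) (hr : Rt mr v = -v) (hE : Rt mE v = v) :
    Sg (d + 1) (sym v) := by
  obtain ⟨h1, h2, -⟩ := hSym m d v hv hf
  refine ⟨h1, fun l hl => h2 l (by omega), fun l hl => ?_, fun l hl => ?_⟩
  · have h3 := (hRot m d v hv hf l hl).1
    rw [hr] at h3
    have h4 : sym (-v) l = -sym v l := (sL l).map_neg v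
    rw [h4] at h3
    exact neg_injective h3
  · have h3 := (hRot m d v hv hf l hl).2.1
    rwa [hE] at h3

/-! ### The steps -/

/-- The claim for functions of degree less than `n`. -/
def Cl (n : ℕ) : Prop := ∀ (m : ℕ) (v : V), KK m v → Fil n v → Lop v = 0

theorem cl_one (hVOne : StVOne) : Cl 1 := fun m v hv hf => (hVOne m v hv.mf hv.wr hf).2.2.1

/-- It is enough to consider symmetrised functions. -/
theorem cl_succ (hVOne : StVOne) (hRH : StRH) (hHk : StHk) {n : ℕ} (hn : Cl n)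
    (h : ∀ (m : ℕ) (v : V), KK m v → Fil (n + 1) v → Rt mr v = -v → Rt mE v = v → Lop v = 0) :
    Cl (n + 1) := by
  have h1 : ∀ (m : ℕ) (v : V), KK m v → Fil (n + 1) v →
      MF m (Lop v) ∧ WR (Lop v) ∧ Fil 1 (Lop v) := by
    intro m v hv hf
    refine ⟨mf_lop hv.mf, wr_lop hHk hv.mf hv.wr, fun i => ?_⟩
    rw [← lL_xL]
    exact hn m (Xd i v) (kk_xd i hv) (hf i)
  have h2 : ∀ (m : ℕ) (v : V), KK m v → Fil (n + 1) v → ac 0 (Lop v) = 0 := by
    intro m v hv hf
    obtain ⟨a1, a2, a3⟩ := h1 m v hv hf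
    have h3 := ac_av hVOne hRH a1 a2 a3
    rw [← av_lop, h m (av v) (kk_av hv) (fil_av hRH hv.mf hf) (av_r hv.mf) (av_E v)] at h3
    have h4 : ac 0 (0 : V) = 0 := (aL 0).map_zero
    rw [h4] at h3
    revert h3
    generalize ac 0 (Lop v) = x
    revert x
    decide
  intro m v hv hf
  obtain ⟨a1, a2, a3⟩ := h1 m v hv hf
  obtain ⟨-, -, -, k1, -, -, k2, -, k3⟩ := hVOne m (Lop v) a1 a2 a3
  have b1 := fil_rt hRH det_mT hv.mf hf
  obtain ⟨c1, c2, c3⟩ := h1 m (Rt mT v) (kk_rt _ hv) b1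
  have b2 := fil_rt hRH det_mT (mf_rt _ hv.mf) b1
  apply k1
  intro i
  have e0 := h2 m v hv hf
  have e2 : ac 2 (Lop v) = 0 := by
    rw [← k2, ← lL_rL]
    exact h2 m _ (kk_rt _ hv) b1
  have e1 : ac 1 (Lop v) = 0 := by
    have e3 : ac 2 (Rt mT (Lop v)) = 0 := by
      rw [← lL_rL, ← (hVOne m (Lop (Rt mT v)) c1 c2 c3).2.2.2.2.2.2.1, ← lL_rL]
      exact h2 m _ (kk_rt _ (kk_rt _ hv)) b2
    rw [k3] at e3
    exact neg_eq_zero.1 e3
  fin_cases i
  · exact e0
  · exact e1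
  · exact e2

theorem cl_two (hVOne : StVOne) (hRH : StRH) (hHk : StHk) (hSym : StSym) (hRot : StRot) :
    Cl 2 := by
  refine cl_succ hVOne hRH hHk (cl_one hVOne) fun m v hv hf hr hE => ?_
  have hc := sg_of hSym hRot hv (d := 1) hf hr hE
  exact cl_one hVOne m v hv ((hSym m 1 v hv hf).2.2 fun l hl => hc.two l hl)

/-- The test functions. -/
theorem test (hVf : StVf) (hEx : StEx) (hTorSym : StTorSym) (hKTwo : StKTwo) (h2 : Cl 2) :
    ∃ U : V, KK 3 U ∧ Fil 6 U ∧ Fil 2 (Lop U) ∧ ∃ B : ZMod 3, B ≠ 0 ∧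
      ∀ l : List (Fin 3), l.length = 6 → sym U l =
        if l.count 0 = 0 ∧ l.count 2 % 2 = 1 then (-1) ^ (l.count 2 / 2) * B else 0 := by
  obtain ⟨hg, hu, hg0, hgT, huT, huL⟩ := hEx
  obtain ⟨hV, hVa, hVs⟩ := hVf
  obtain ⟨g1, g2, g3, g4, g5, g6⟩ := hV 2 g0 (by norm_num) hg
  obtain ⟨u1, u2, u3, u4', u5, u6⟩ := hV 3 u4 (by norm_num) hu
  have hz : vf 0 = 0 := by
    have h := hVs 0 0
    rwa [zero_smul, zero_smul] at h
  have kG : KK 2 (vf g0) := ⟨g1, g2, by rw [g4, hgT, hz, neg_zero]⟩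
  have kU : KK 3 (vf u4) := ⟨u1, u2, by rw [u4', huT, hz, neg_zero]⟩
  have hL : Lop (vf u4) = vf g0 := by
    rw [lop_eq, u5, huL, hVa, hVs]
    abel
  have hGne : vf g0 ≠ 0 := fun h => hg0 (g6 h)
  have hdeg : ∀ (m : ℕ) (v : V), MF m v → v ≠ 0 → ∃ d, Fil (d + 1) v ∧ ¬ Fil d v := by
    intro m v hv hne
    classical
    have hex := hKTwo m v hv
    have h3 := Nat.find_spec hex
    have h4 : Nat.find hex ≠ 0 := by
      intro h5
      rw [h5] at h3
      exact hne h3
    obtain ⟨d, hd⟩ := Nat.exists_eq_succ_of_ne_zero h4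
    refine ⟨d, ?_, ?_⟩
    · rw [hd] at h3
      exact h3
    · exact Nat.find_min hex (by omega)
  have hGF : Fil 2 (vf g0) := by
    obtain ⟨d, h3, h4⟩ := hdeg 2 _ g1 hGne
    obtain ⟨h5, h6, -⟩ := hTorSym 2 d _ kG g3 h3 h4
    have h7 : d = 1 := by
      norm_num at h6
      omega
    rw [h7] at h3
    exact h3
  have hUne : vf u4 ≠ 0 := by
    intro h
    rw [h] at hL
    have h8 : Lop (0 : V) = 0 := lL.map_zero
    rw [h8] at hL
    exact hGne hL.symm
  obtain ⟨d, h3, h4⟩ := hdeg 3 _ u1 hUne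
  obtain ⟨h5, h6, B, hB, h7⟩ := hTorSym 3 d _ kU u3 h3 h4
  have h8 : d = 5 := by
    norm_num at h6
    have h9 : d ≠ 1 := by
      rintro rfl
      exact hGne (by rw [← hL]; exact h2 3 _ kU h3)
    omega
  subst h8
  exact ⟨vf u4, kU, h3, by rw [hL]; exact hGF, B, hB, h7⟩

theorem av_sym {m d : ℕ} (hRot : StRot) (hRH : StRH) {t : V} (ht : KK m t)
    (hf : Fil (d + 1) t) (l : List (Fin 3)) (hl : l.length = d + 1) :
    sym (av t) l = sym (av1 t) l - (-1) ^ l.count 0 * sym (av1 t) (l.map (Equiv.swap 1 2)) := by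
  have h1 : sym (av t) l = sym (av1 t) l + sym (Rt mE (av1 t)) l := (sL l).map_add _ _
  rw [h1, (hRot m d (av1 t) (kk_av1 ht) (fil_av1 hRH ht.mf hf) l hl).2.1]
  ring

theorem swap_swap (l : List (Fin 3)) :
    (l.map (Equiv.swap (1 : Fin 3) 2)).map (Equiv.swap (1 : Fin 3) 2) = l := by
  rw [List.map_map]
  have h : (⇑(Equiv.swap (1 : Fin 3) 2) ∘ ⇑(Equiv.swap (1 : Fin 3) 2)) = id := by
    decide
  rw [h, List.map_id]

theorem av1_sym {m d : ℕ} (hRot : StRot) (hRH : StRH) {t : V} (ht : KK m t)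
    (hf : Fil (d + 1) t) (l : List (Fin 3)) (hl : l.length = d + 1) :
    sym (av1 t) l = (1 + (-1) ^ (l.count 1 + l.count 2)) *
      (sym t l + (-1) ^ l.count 1 * sym t (l.map (Equiv.swap 1 2))) := by
  have hl' : (l.map (Equiv.swap (1 : Fin 3) 2)).length = d + 1 := by rw [List.length_map, hl]
  have f1 := fil_rt hRH det_mr ht.mf hf
  have f2 := fil_rt hRH det_mr (mf_rt _ ht.mf) f1
  have r1 := (hRot m d t ht hf l hl).1
  have r1' := (hRot m d t ht hf _ hl').1
  have r2 := (hRot m d _ (kk_rt _ ht) f1 l hl).1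
  have r2' := (hRot m d _ (kk_rt _ ht) f1 _ hl').1
  have r3 := (hRot m d _ (kk_rt _ (kk_rt _ ht)) f2 l hl).1
  rw [swap_swap, count_swap1] at r1' r2'
  have e1 := (sL l).map_sub (t - Rt mr t + Rt mr (Rt mr t)) (Rt mr (Rt mr (Rt mr t)))
  have e2 := (sL l).map_add (t - Rt mr t) (Rt mr (Rt mr t))
  have e3 := (sL l).map_sub t (Rt mr t)
  rw [e2, e3] at e1
  change sym (t - Rt mr t + Rt mr (Rt mr t) - Rt mr (Rt mr (Rt mr t))) l =
      sym t l - sym (Rt mr t) l + sym (Rt mr (Rt mr t)) l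
        - sym (Rt mr (Rt mr (Rt mr t))) l at e1
  rw [av1_apply, e1, r3, r2', r2, r1, r1', pow_add]
  ring

/-- If there is a symmetrised test function, the claim holds. -/
theorem cl_of_test (hVOne : StVOne) (hRH : StRH) (hHk : StHk) (hSym : StSym) (hRot : StRot)
    {d : ℕ} (hd : Cl d) (l₀ : List (Fin 3))
    (hc : ∀ c : List (Fin 3) → ZMod 3, Sg (d + 1) c → c l₀ = 0 →
      ∀ l : List (Fin 3), l.length = d + 1 → c l = 0)
    {t : V} (ht : KK 3 t) (hft : Fil (d + 1) t) (hLt : Lop t = 0)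
    (hst : sym (av t) l₀ ≠ 0) : Cl (d + 1) := by
  refine cl_succ hVOne hRH hHk hd fun m v hv hf hr hE => ?_
  have k1 : KK (max m 3) v := kk_mono (le_max_left _ _) hv
  have k2 : KK (max m 3) (av t) := kk_mono (le_max_right _ _) (kk_av ht)
  have f2 : Fil (d + 1) (av t) := fil_av hRH ht.mf hft
  obtain ⟨κ, hκ⟩ : ∃ κ : ZMod 3, sym v l₀ = κ * sym (av t) l₀ :=
    ⟨sym v l₀ * (sym (av t) l₀)⁻¹, by rw [mul_assoc, inv_mul_cancel₀ hst, mul_one]⟩
  set x : V := v - κ • av t with hx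
  have kx : KK (max m 3) x := kk_sub k1 (kk_smul κ k2)
  have fx : Fil (d + 1) x := fil_sub hf (fil_smul κ f2)
  have rx : Rt mr x = -x := by
    have h1 : Rt mr x = Rt mr v - κ • Rt mr (av t) := rfl
    rw [h1, hr, av_r ht.mf, hx]
    module
  have ex : Rt mE x = x := by
    have h1 : Rt mE x = Rt mE v - κ • Rt mE (av t) := rfl
    rw [h1, hE, av_E]
  have hs := sg_of hSym hRot kx fx rx ex
  have h0 : sym x l₀ = 0 := by
    have h1 : sym x l₀ = sym v l₀ - κ * sym (av t) l₀ := by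
      have e1 := (sL l₀).map_sub v (κ • av t)
      have e2 := (sL l₀).map_smul κ (av t)
      rw [e2] at e1
      exact e1
    rw [h1, hκ, sub_self]
  have h1 := (hSym (max m 3) d x kx fx).2.2 (hc _ hs h0)
  have h2 := hd (max m 3) x kx h1
  have h3 : Lop x = Lop v - κ • Lop (av t) := by
    have e1 := lL.map_sub v (κ • av t)
    have e2 := lL.map_smul κ (av t)
    rw [e2] at e1
    exact e1
  have h4 : Lop (av t) = 0 := by
    rw [av_lop, hLt, map_zero]
  rw [h2, h4, smul_zero, sub_zero] at h3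
  exact h3.symm

end Lowaux

open Lowaux in
theorem stLow (hKTwo : StKTwo) (hVf : StVf) (hEx : StEx) (hVOne : StVOne) (hSym : StSym)
    (hRot : StRot) (hTorSym : StTorSym) (hRH : StRH) (hHk : StHk) : StLow := by
  have c2 : Cl 2 := cl_two hVOne hRH hHk hSym hRot
  obtain ⟨U, kU, fU, fL, B, hB, hs⟩ := test hVf hEx hTorSym hKTwo c2
  have c3 : Cl 3 := by
    have kt : KK 3 (Xd 1 (Xd 1 (Xd 1 U))) := kk_xd 1 (kk_xd 1 (kk_xd 1 kU))
    have ft : Fil 3 (Xd 1 (Xd 1 (Xd 1 U))) := fU 1 1 1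
    have kt' := kk_rt mT kt
    have ft' := fil_rt hRH det_mT kt.mf ft
    refine cl_of_test hVOne hRH hHk hSym hRot c2 [0, 0, 0] (fun c h1 h2 => h1.three h2)
      (t := Rt mT (Xd 1 (Xd 1 (Xd 1 U)))) kt' ft' ?_ ?_
    · rw [lL_rL, lL_xL, lL_xL, lL_xL]
      have h1 : Xd 1 (Xd 1 (Lop U)) = 0 := fL 1 1
      rw [h1]
      have h2 : Xd 1 (0 : V) = 0 := (xL 1).map_zero
      rw [h2]
      rfl
    · rw [av_sym hRot hRH kt' ft' _ rfl]
      change sym (av1 _) [0, 0, 0] - (-1) ^ 3 * sym (av1 _) [0, 0, 0] ≠ 0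
      rw [av1_sym hRot hRH kt' ft' _ rfl]
      change (1 + (-1) ^ 0) * (sym _ [0, 0, 0] + (-1) ^ 0 * sym _ [0, 0, 0]) -
        (-1) ^ 3 * ((1 + (-1) ^ 0) * (sym _ [0, 0, 0] + (-1) ^ 0 * sym _ [0, 0, 0])) ≠ 0
      have h1 := (hRot 3 2 _ kt ft [0, 0, 0] rfl).2.2
      change sym _ [0, 0, 0] = (-1) ^ 0 * sym U [2, 2, 2, 1, 1, 1] at h1
      have h2 := hs [2, 2, 2, 1, 1, 1] rfl
      change sym U [2, 2, 2, 1, 1, 1] = (-1) ^ 1 * B at h2
      rw [h1, h2]
      clear h1 h2 hs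
      revert B
      decide
  have c4 : Cl 4 := by
    have kt : KK 3 (Xd 1 (Xd 1 U)) := kk_xd 1 (kk_xd 1 kU)
    have ft : Fil 4 (Xd 1 (Xd 1 U)) := fU 1 1
    refine cl_of_test hVOne hRH hHk hSym hRot c3 [1, 1, 1, 2] (fun c h1 h2 => h1.four h2)
      (t := Xd 1 (Xd 1 U)) kt ft ?_ ?_
    · rw [lL_xL, lL_xL]
      exact fL 1 1
    · rw [av_sym hRot hRH kt ft _ rfl]
      change sym (av1 _) [1, 1, 1, 2] - (-1) ^ 0 * sym (av1 _) [2, 2, 2, 1] ≠ 0
      rw [av1_sym hRot hRH kt ft _ rfl, av1_sym hRot hRH kt ft _ rfl]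
      change (1 + (-1) ^ 4) * (sym U [1, 1, 1, 2, 1, 1] + (-1) ^ 3 * sym U [2, 2, 2, 1, 1, 1]) -
        (-1) ^ 0 * ((1 + (-1) ^ 4) * (sym U [2, 2, 2, 1, 1, 1] +
          (-1) ^ 1 * sym U [1, 1, 1, 2, 1, 1])) ≠ 0
      have h2 := hs [2, 2, 2, 1, 1, 1] rfl
      change sym U [2, 2, 2, 1, 1, 1] = (-1) ^ 1 * B at h2
      have h3 := hs [1, 1, 1, 2, 1, 1] rfl
      change sym U [1, 1, 1, 2, 1, 1] = (-1) ^ 0 * B at h3
      rw [h3, h2]
      clear h3 h2 hs
      revert B
      decide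
  intro m n
  induction n with
  | zero => exact fun v hv hf => c4 m v hv hf
  | succ n ih =>
    intro v hv hf i
    rw [← lL_xL]
    exact ih _ (kk_xd i hv) (hf i)

end LO

end Pool.Agent.Lib.MP_7c5fb9_nt
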