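import Pool.Agent.Lib.MP_7c5fb9_nt.LO.Basic

set_option autoImplicit false

/-!
# Level one (MP_7c5fb9_nt, project LO): the main theorem
-/

namespace Pool.Agent.Lib.MP_7c5fb9_nt

namespace LO

open Pool.Agent.Lib.MP_7c08ba_nt.RZ UpperHalfPlane
open scoped MatrixGroups

theorem stMain (hKey : StKey) (hCount : StCount) (hCrit : StCrit) (hDiscr : StDiscr) : StMain := by
  intro k w f hk hw hf
  have main : ∀ D : ℕ, Squarefree D → D % 12 = 5 → BKDH.NoThree (3 * D) →
      ∀ (K : Type) [Field K] [NumberField K] (s : K), Module.finrank ℚ K = 2 → s ^ 2 = (D : K) →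
        NonVan k f K := by
    intro D hD hD5 hN K _ _ s hK hs
    obtain ⟨h1, h2⟩ := hKey D hD hD5 hN
    have hd : NumberField.discr K = (D : ℤ) := by
      refine hDiscr K s (D : ℤ) hK (by push_cast; exact hs) ?_ ?_ ?_
      · simpa using hD
      · simp only [Int.natAbs_natCast]
        omega
      · omega
    refine hCrit k w f hk hw hf K hK ?_ ?_ (h1 K s hK hs) ?_
    · rw [hd]
      omega
    · rw [hd]
      omega
    · intro D' t u hD' hF
      rw [hd] at hD'
      have : D' = D := by exact_mod_cast hD'.symm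
      subst this
      exact h2 t u hF
  refine ⟨fun D hD hD5 hN K _ _ s hK hs => main D hD hD5 ?_ K s hK hs, fun ε hε => ?_⟩
  · intro F _ _ s' hs' hF'
    exact hN F s' hF' hs'
  · obtain ⟨X₀, hX₀⟩ := hCount ε hε
    refine ⟨X₀, fun X hX => (hX₀ X hX).trans ?_⟩
    have hfin : {D : ℕ | D ≤ X ∧ Squarefree D ∧ D % 12 = 5 ∧
        ∀ (K : Type) [Field K] [NumberField K] (s : K), Module.finrank ℚ K = 2 →
          s ^ 2 = (D : K) → NonVan k f K}.Finite :=
      (Set.finite_Iic X).subset fun D hD => hD.1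
    have hsub : {D : ℕ | D ≤ X ∧ Squarefree D ∧ D % 12 = 5 ∧ BKDH.NoThree (3 * D)} ⊆
        {D : ℕ | D ≤ X ∧ Squarefree D ∧ D % 12 = 5 ∧
          ∀ (K : Type) [Field K] [NumberField K] (s : K), Module.finrank ℚ K = 2 →
            s ^ 2 = (D : K) → NonVan k f K} := by
      intro D hD
      exact ⟨hD.1, hD.2.1, hD.2.2.1,
        fun K _ _ s hK hs => main D hD.2.1 hD.2.2.1 hD.2.2.2 K s hK hs⟩
    exact_mod_cast Set.ncard_le_ncard hsub hfin

end LO

end Pool.Agent.Lib.MP_7c5fb9_nt
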