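import Mathlib
import Pool.Agent.Lib.MP_7c5fb9_nt.LO.Stmts
import Pool.Agent.Lib.MP_7c08ba_nt.RZ.W12
import Pool.Agent.Lib.MP_7c08ba_nt.RZ.Gs

set_option autoImplicit false

/-!
# Level one (MP_7c5fb9_nt, project LO): the odd cocycle does not vanish (module NZ)
-/

namespace Pool.Agent.Lib.MP_7c5fb9_nt

namespace LO

open Pool.Agent.Lib.MP_7c08ba_nt.RZ UpperHalfPlane Filter Topology
open scoped MatrixGroups Polynomial nonZeroDivisors

namespace NZAux

theorem act_mul (Q : Frm) (M N : Mat) : act (act Q M) N = act Q (M * N) := by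
  funext i
  fin_cases i <;> simp [act, Matrix.mul_apply, Fin.sum_univ_two] <;> ring

theorem act_one (Q : Frm) : act Q 1 = Q := by
  funext i
  fin_cases i <;> simp [act]

theorem mir_mir (Q : Frm) : mir (mir Q) = Q := by
  funext i
  fin_cases i <;> simp [mir]

/-- The linear function with values `a` at `0` and `b` at `1`. -/
noncomputable def lin (a b : ℂ) : ℂ[X] := Polynomial.C a + Polynomial.X * Polynomial.C (b - a)

theorem lin_eval (a b s : ℂ) : (lin a b).eval s = a + s * (b - a) := by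
  simp [lin]

/-- The powers of the forms on the line from `x^2 + y^2` to `Q`. -/
noncomputable def bip (k : ℕ) (Q : Frm) : ℂ[X][X] :=
  (Polynomial.C (lin 1 (Q 0)) * Polynomial.X ^ 2 + Polynomial.C (lin 0 (Q 1)) * Polynomial.X +
    Polynomial.C (lin 1 (Q 2))) ^ (k - 1)

theorem bip_coeff (k : ℕ) (Q : Frm) (n : ℤ) (m : ℕ) :
    ((bip k Q).coeff m).eval (n : ℂ) =
      (pw k ![1 + n * (Q 0 - 1), n * Q 1, 1 + n * (Q 2 - 1)]).coeff m := by
  have h := Polynomial.coeff_map (p := bip k Q) (Polynomial.evalRingHom (n : ℂ)) m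
  rw [Polynomial.coe_evalRingHom] at h
  rw [← h]
  congr 1
  unfold bip pw
  rw [Polynomial.map_pow]
  congr 1
  simp [lin_eval]

/-- The values on the line. -/
noncomputable def lpoly {w : ℕ} (k : ℕ) (f : CuspForm 𝒮ℒ (w : ℤ)) (Q : Frm) : ℂ[X] :=
  ∑ m ∈ Finset.range (w - 1), ((bip k Q).coeff m - (bip k (mir Q)).coeff m) *
    Polynomial.C (rp f m)

theorem lpoly_eval {k w : ℕ} (f : CuspForm 𝒮ℒ (w : ℤ))
    (h1 : ∀ Q : Frm, Phi k f mS Q = ∑ m ∈ Finset.range (w - 1), (pw k Q).coeff m * rp f m)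
    (h2 : ∀ Q : Frm, Psi k f mS Q = Phi k f mS Q - Phi k f mS (mir Q)) (Q : Frm) (n : ℤ) :
    (lpoly k f Q).eval (n : ℂ) =
      Psi k f mS ![1 + n * (Q 0 - 1), n * Q 1, 1 + n * (Q 2 - 1)] := by
  have e : mir ![1 + n * (Q 0 - 1), n * Q 1, 1 + n * (Q 2 - 1)] =
      ![1 + n * (mir Q 0 - 1), n * mir Q 1, 1 + n * (mir Q 2 - 1)] := by
    funext i
    fin_cases i <;> simp [mir]
  rw [h2, h1, h1, ← Finset.sum_sub_distrib, e]
  unfold lpoly
  rw [Polynomial.eval_finsetSum]
  refine Finset.sum_congr rfl fun m _ => ?_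
  rw [Polynomial.eval_mul, Polynomial.eval_sub, Polynomial.eval_C, bip_coeff, bip_coeff, sub_mul]

theorem all_of_two {k w : ℕ} (f : CuspForm 𝒮ℒ (w : ℤ))
    (h1 : ∀ Q : Frm, Phi k f mS Q = ∑ m ∈ Finset.range (w - 1), (pw k Q).coeff m * rp f m)
    (h2 : ∀ Q : Frm, Psi k f mS Q = Phi k f mS Q - Phi k f mS (mir Q))
    (h : ∀ Q : Frm, disc Q % 3 = 2 → Psi k f mS Q = 0) (Q : Frm) : Psi k f mS Q = 0 := by
  have hz : lpoly k f Q = 0 := by
    refine Polynomial.eq_zero_of_infinite_isRoot _ ?_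
    refine Set.Infinite.mono (s := Set.range fun n : ℕ => (((3 * n : ℤ)) : ℂ)) ?_ ?_
    · rintro _ ⟨n, rfl⟩
      show (lpoly k f Q).eval _ = 0
      rw [lpoly_eval f h1 h2]
      apply h
      have : disc ![1 + (3 * (n : ℤ)) * (Q 0 - 1), (3 * (n : ℤ)) * Q 1,
          1 + (3 * (n : ℤ)) * (Q 2 - 1)] = 2 + 3 * (-2 + 3 * (n * Q 1) ^ 2 -
            4 * (n * (Q 0 - 1) + n * (Q 2 - 1) + 3 * (n * (Q 0 - 1)) * (n * (Q 2 - 1)))) := by
        simp [disc]
        ring
      rw [this]
      omega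
    · apply Set.infinite_range_of_injective
      intro a b hab
      have hab : (((3 * (a : ℤ) : ℤ)) : ℂ) = ((3 * (b : ℤ) : ℤ) : ℂ) := hab
      have : (3 * (a : ℤ)) = 3 * b := Int.cast_injective hab
      omega
  have h3 := lpoly_eval f h1 h2 Q 1
  rw [hz, Polynomial.eval_zero] at h3
  rw [h3]
  congr 1
  funext i
  fin_cases i <;> simp

theorem all_mat {k w : ℕ} (f : CuspForm 𝒮ℒ (w : ℤ))
    (h1 : ∀ (M N : Mat) (Q : Frm), M.det = 1 → N.det = 1 →
      Psi k f (M * N) Q = Psi k f M Q + Psi k f N (act Q M))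
    (h2 : ∀ Q : Frm, Psi k f mT Q = 0) (h3 : ∀ Q : Frm, Psi k f mS Q = 0) (M : Mat)
    (hM : M.det = 1) (Q : Frm) : Psi k f M Q = 0 := by
  have key : ∀ γ : SL(2, ℤ), ∀ Q : Frm, Psi k f γ.1 Q = 0 := by
    intro γ
    have hγ : γ ∈ Subgroup.closure {ModularGroup.S, ModularGroup.T} := by
      simp [SpecialLinearGroup.SL2Z_generators]
    have hone : ∀ Q : Frm, Psi k f (1 : Mat) Q = 0 := by
      intro Q
      have := h1 1 1 Q (by simp) (by simp)
      rw [one_mul, act_one] at this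
      linear_combination -this
    induction hγ using Subgroup.closure_induction with
    | mem x hx =>
      rcases hx with rfl | hx
      · intro Q
        have : (ModularGroup.S : SL(2, ℤ)).1 = mS := rfl
        rw [this, h3]
      · rw [Set.mem_singleton_iff] at hx
        subst hx
        intro Q
        have : (ModularGroup.T : SL(2, ℤ)).1 = mT := rfl
        rw [this, h2]
    | one => exact hone
    | mul x y _ _ hx hy =>
      intro Q
      have : (x * y).1 = x.1 * y.1 := rfl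
      rw [this, h1 _ _ _ x.2 y.2, hx, hy, add_zero]
    | inv x _ hx =>
      intro Q
      have e1 : x.1 * (x⁻¹).1 = 1 := by
        have : (x * x⁻¹).1 = x.1 * (x⁻¹).1 := rfl
        rw [← this, mul_inv_cancel]
        rfl
      have e2 : (x⁻¹).1 * x.1 = 1 := by
        have : (x⁻¹ * x).1 = (x⁻¹).1 * x.1 := rfl
        rw [← this, inv_mul_cancel]
        rfl
      have h := h1 x.1 (x⁻¹).1 (act Q (x⁻¹).1) x.2 (x⁻¹).2
      rw [e1, hone, hx, act_mul, e2, act_one, zero_add] at h
      exact h.symm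
  exact key ⟨M, hM⟩ Q

theorem phi_neg {k w : ℕ} (f : CuspForm 𝒮ℒ (w : ℤ)) (M : Mat) (Q : Frm) :
    Phi k f (-M) Q = Phi k f M Q := by
  have e1 : mb (-M) Complex.I = mb M Complex.I := by
    unfold mb
    have h1 : ((-M) 0 0 : ℂ) * Complex.I + (-M) 0 1 = -((M 0 0 : ℂ) * Complex.I + M 0 1) := by
      simp
      ring
    have h2 : ((-M) 1 0 : ℂ) * Complex.I + (-M) 1 1 = -((M 1 0 : ℂ) * Complex.I + M 1 1) := by
      simp
      ring
    rw [h1, h2, neg_div_neg_eq]
  have e2 : act Q (-M) = act Q M := by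
    funext i
    fin_cases i <;> simp [act]
  unfold Phi
  rw [e1, e2]

theorem ee_add' (a b : ℂ) : ee (a + b) = ee a * ee b := by
  unfold ee
  rw [← Complex.exp_add]
  congr 1
  ring

theorem norm_ee_real' (x : ℂ) (hx : x.im = 0) : ‖ee x‖ = 1 := by
  unfold ee
  rw [Complex.norm_exp]
  simp [hx]

end NZAux

open NZAux

/-- (NZ) the odd cocycle does not vanish on the forms of discriminant `2` modulo `3`. -/
theorem stNZ (hPer : StPer) (hPsiC : StPsiC) (hLim : StLim) : StNZ := by
  intro k w f hw hf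
  by_contra hcon
  push Not at hcon
  have hw12 : 12 ≤ w := (stW12 w f hf).1
  have hk : 3 ≤ k := by omega
  have hk1 : 1 ≤ k := by omega
  obtain ⟨P1, -⟩ := hPer k w f hk1 hw
  obtain ⟨C1, C2, -, C4, -, -, -, -, -⟩ := hPsiC k w f hk1 hw
  obtain ⟨hsum, hL⟩ := hLim k w f hk hw
  have hS : ∀ Q : Frm, Psi k f mS Q = 0 := all_of_two f P1 C4 hcon
  have hA : ∀ (M : Mat), M.det = 1 → ∀ Q : Frm, Psi k f M Q = 0 := fun M hM Q =>
    all_mat f C1 C2 hS M hM Q
  set F : ℂ → ℂ := Fj f (w - 1) with hF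
  -- the values at rational numbers
  have hrat : ∀ p q r s : ℤ, p * s - q * r = 1 → 0 < r → F (p / r) = F (-(p / r)) := by
    intro p q r s hdet hr
    have hM : Matrix.det (!![p, q; r, s] : Mat) = 1 := by
      rw [Matrix.det_fin_two_of, hdet]
    have hrC : (r : ℂ) ≠ 0 := by exact_mod_cast hr.ne'
    have h0 := hA _ hM ![r ^ 2, -2 * p * r, p ^ 2]
    unfold Psi at h0
    have e1 : mE * !![p, q; r, s] * mE = -!![-p, q; r, -s] := by
      ext i j
      fin_cases i <;> fin_cases j <;> simp [mE, Matrix.mul_apply, Fin.sum_univ_two]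
    have e2 : mir ![r ^ 2, -2 * p * r, p ^ 2] = ![r ^ 2, -2 * (-p) * r, (-p) ^ 2] := by
      funext i
      fin_cases i <;> simp [mir]
    rw [e1, e2, hL p q r s hdet hr] at h0
    have h1 : Phi k f (-!![-p, q; r, -s]) ![r ^ 2, -2 * (-p) * r, (-p) ^ 2] =
        (w - 2).factorial * (r : ℂ) ^ (w - 2) * Fj f (w - 1) ((-p : ℤ) / r) := by
      rw [phi_neg]
      exact hL (-p) q r (-s) (by linear_combination hdet) hr
    rw [h1] at h0
    have h2 : ((w - 2).factorial : ℂ) * (r : ℂ) ^ (w - 2) ≠ 0 :=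
      mul_ne_zero (by exact_mod_cast (Nat.factorial_pos _).ne') (pow_ne_zero _ hrC)
    have h3 : ((w - 2).factorial : ℂ) * (r : ℂ) ^ (w - 2) * (F (p / r) - F ((-p : ℤ) / r)) = 0 := by
      rw [hF]
      linear_combination h0
    have h4 := (mul_eq_zero.1 h3).resolve_left h2
    have h5 : (((-p : ℤ)) : ℂ) / r = -(p / r) := by
      push_cast
      ring
    rw [h5] at h4
    exact sub_eq_zero.1 h4
  have hrat' : ∀ j N : ℕ, 1 ≤ N → F (j / N) = F (-(j / N)) := by
    intro j N hN
    have hg : 0 < Nat.gcd j N := Nat.gcd_pos_of_pos_right _ hN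
    obtain ⟨p, hp⟩ := Nat.gcd_dvd_left j N
    obtain ⟨r, hr⟩ := Nat.gcd_dvd_right j N
    have hcop : IsCoprime (p : ℤ) (r : ℤ) := by
      rw [Nat.isCoprime_iff_coprime]
      have h1 : Nat.gcd j N * 1 = Nat.gcd j N * Nat.gcd p r := by
        rw [← Nat.gcd_mul_left, ← hp, ← hr, mul_one]
      exact (Nat.eq_of_mul_eq_mul_left hg h1).symm
    obtain ⟨a, b, hab⟩ := hcop
    have hr0 : 0 < r := by
      rcases Nat.eq_zero_or_pos r with h | h
      · rw [h, mul_zero] at hr
        omega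
      · exact h
    have hgC : ((Nat.gcd j N : ℕ) : ℂ) ≠ 0 := by exact_mod_cast hg.ne'
    have e : (j : ℂ) / N = ((p : ℤ) : ℂ) / ((r : ℤ) : ℂ) := by
      have e1 : (j : ℂ) = (Nat.gcd j N : ℕ) * (p : ℂ) := by exact_mod_cast hp
      have e2 : (N : ℂ) = (Nat.gcd j N : ℕ) * (r : ℂ) := by exact_mod_cast hr
      calc (j : ℂ) / N = ((Nat.gcd j N : ℕ) * (p : ℂ)) / ((Nat.gcd j N : ℕ) * (r : ℂ)) := by
            rw [← e1, ← e2]
        _ = (p : ℂ) / r := mul_div_mul_left _ _ hgC
        _ = _ := by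
            push_cast
            rfl
    rw [e]
    exact hrat p (-b) r a (by linear_combination hab) (by exact_mod_cast hr0)
  -- the coefficients
  set c : ℕ → ℂ := fun n => coef f n * ((2 * Real.pi * Complex.I * n) ^ (w - 1))⁻¹ with hc
  have hFx : ∀ x : ℂ, F x = ∑' n : ℕ, c n * ee (n * x) := fun x => rfl
  have hsx : ∀ x : ℝ, Summable fun n : ℕ => c n * ee (n * x) := by
    intro x
    refine Summable.of_norm (hsum.congr fun n => ?_)
    rw [norm_mul (c n), norm_ee_real' (n * x) (by simp), mul_one]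
  set d : ℕ → ℕ → ℂ := fun N n => (if (N : ℤ) ∣ 1 - n then 1 else 0) -
    (if (N : ℤ) ∣ n + 1 then 1 else 0) with hd
  have hzero : ∀ N : ℕ, 1 ≤ N → ∑' n : ℕ, c n * d N n = 0 := by
    intro N hN
    have hNC : (N : ℂ) ≠ 0 := by
      have : N ≠ 0 := by omega
      exact_mod_cast this
    have h1 : ∀ j ∈ Finset.range N, ee (-(j / N)) * F (j / N) - ee (-(j / N)) * F (-(j / N)) = 0 := by
      intro j _
      rw [hrat' j N hN, sub_self]
    have h2 : ∀ j : ℕ, ee (-(j / N)) * F (j / N) - ee (-(j / N)) * F (-(j / N)) =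
        ∑' n : ℕ, c n * (ee (-(((1 - n : ℤ) : ℂ) * j / N)) -
          ee (-(((n + 1 : ℤ) : ℂ) * j / N))) := by
      intro j
      have s1 := hsx (j / N : ℝ)
      have s2 := hsx (-(j / N) : ℝ)
      push_cast at s1 s2
      rw [hFx, hFx, ← tsum_mul_left, ← tsum_mul_left,
        ← (s1.mul_left _).tsum_sub (s2.mul_left _)]
      refine tsum_congr fun n => ?_
      have e1 : ee (-(((1 - n : ℤ) : ℂ) * j / N)) = ee (-(j / N)) * ee (n * (j / N)) := by
        rw [← ee_add']
        congr 1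
        push_cast
        ring
      have e2 : ee (-(((n + 1 : ℤ) : ℂ) * j / N)) = ee (-(j / N)) * ee (n * -(j / N)) := by
        rw [← ee_add']
        congr 1
        push_cast
        ring
      rw [e1, e2]
      ring
    have h3 : ∑ j ∈ Finset.range N, ∑' n : ℕ, c n * (ee (-(((1 - n : ℤ) : ℂ) * j / N)) -
          ee (-(((n + 1 : ℤ) : ℂ) * j / N))) = 0 := by
      rw [← Finset.sum_congr rfl fun j _ => h2 j]
      exact Finset.sum_eq_zero h1
    rw [← Summable.tsum_finsetSum] at h3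
    · have h4 : ∀ n : ℕ, ∑ j ∈ Finset.range N, c n * (ee (-(((1 - n : ℤ) : ℂ) * j / N)) -
          ee (-(((n + 1 : ℤ) : ℂ) * j / N))) = N * (c n * d N n) := by
        intro n
        rw [← Finset.mul_sum, Finset.sum_sub_distrib, Gsm.sum_ee _ N hN, Gsm.sum_ee _ N hN, hd]
        simp only
        split_ifs <;> ring
      simp_rw [h4] at h3
      rw [tsum_mul_left] at h3
      exact (mul_eq_zero.1 h3).resolve_left hNC
    · intro j _
      have s1 := hsum.mul_right 2
      refine Summable.of_norm_bounded s1 ?_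
      intro n
      rw [norm_mul]
      refine mul_le_mul_of_nonneg_left ?_ (norm_nonneg _)
      refine (norm_sub_le _ _).trans ?_
      have r1 : (-(((1 - n : ℤ) : ℂ) * j / N)).im = 0 := by
        have : (-(((1 - n : ℤ) : ℂ) * j / N)) = (((-(((1 - n : ℤ) : ℝ) * j / N)) : ℝ) : ℂ) := by
          push_cast
          ring
        rw [this, Complex.ofReal_im]
      have r2 : (-(((n + 1 : ℤ) : ℂ) * j / N)).im = 0 := by
        have : (-(((n + 1 : ℤ) : ℂ) * j / N)) = (((-(((n + 1 : ℤ) : ℝ) * j / N)) : ℝ) : ℂ) := by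
          push_cast
          ring
        rw [this, Complex.ofReal_im]
      rw [norm_ee_real' _ r1, norm_ee_real' _ r2]
      norm_num
  have hlim : Tendsto (fun N : ℕ => ∑' n : ℕ, c n * d N n) atTop
      (𝓝 (∑' n : ℕ, if n = 1 then c 1 else 0)) := by
    refine tendsto_tsum_of_dominated_convergence (bound := fun n => ‖c n‖ * 2) (hsum.mul_right 2)
      ?_ ?_
    · intro n
      refine tendsto_const_nhds.congr' ?_
      filter_upwards [eventually_ge_atTop (n + 3)] with N hN
      have a2 : ¬ ((N : ℤ) ∣ n + 1) := by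
        intro h
        have := Int.le_of_dvd (by omega) h
        omega
      by_cases hn : n = 1
      · subst hn
        simp only [hd, if_true]
        rw [if_neg a2]
        simp
      · have a1 : ¬ ((N : ℤ) ∣ 1 - n) := by
          intro h
          have h' : (N : ℤ) ∣ |1 - (n : ℤ)| := (dvd_abs _ _).2 h
          have h2 := Int.le_of_dvd (by
            rw [abs_pos]
            omega) h'
          rcases abs_cases (1 - (n : ℤ)) with h1 | h1 <;> omega
        simp only [hd, if_neg hn, if_neg a1, if_neg a2]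
        simp
    · filter_upwards with N n
      rw [norm_mul]
      refine mul_le_mul_of_nonneg_left ?_ (norm_nonneg _)
      simp only [hd]
      split_ifs <;> norm_num
  have hlim0 : Tendsto (fun N : ℕ => ∑' n : ℕ, c n * d N n) atTop (𝓝 0) := by
    refine tendsto_const_nhds.congr' ?_
    filter_upwards [eventually_ge_atTop 1] with N hN
    exact (hzero N hN).symm
  have hc1 := tendsto_nhds_unique hlim hlim0
  rw [tsum_ite_eq] at hc1
  simp only [hc] at hc1
  rw [hf.one, one_mul, inv_eq_zero] at hc1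
  have := (pow_eq_zero_iff (by omega)).1 hc1
  simp [Real.pi_ne_zero] at this

end LO

end Pool.Agent.Lib.MP_7c5fb9_nt
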