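import Pool.Agent.Lib.MP_7c5fb9_nt.LO.Basic

set_option autoImplicit false

/-!
# Level one (MP_7c5fb9_nt, project LO): the smallest solution of the Pell equation
-/

namespace Pool.Agent.Lib.MP_7c5fb9_nt

namespace LO

theorem stPell : StPell := by
  classical
  intro D hD
  have hD0 : 0 < D := by
    rcases Nat.eq_zero_or_pos D with h | h
    · exact absurd ⟨0, by rw [h]⟩ hD
    · exact h
  have hD' : ¬ IsSquare (D : ℤ) := by
    rintro ⟨r, hr⟩
    apply hD
    refine ⟨r.natAbs, ?_⟩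
    have := congrArg Int.natAbs hr
    rwa [Int.natAbs_mul, Int.natAbs_natCast] at this
  obtain ⟨x, y, hxy, hy⟩ := Pell.exists_of_not_isSquare (by exact_mod_cast hD0) hD'
  have hex : ∃ n : ℕ, 0 < n ∧ ∃ t : ℤ, t ^ 2 - D * (n : ℤ) ^ 2 = 4 := by
    refine ⟨2 * y.natAbs, by have := Int.natAbs_pos.2 hy; omega, 2 * x, ?_⟩
    push_cast
    rw [mul_pow, mul_pow, sq_abs]
    linarith
  obtain ⟨h0, t, ht⟩ := Nat.find_spec hex
  have ht0 : t ≠ 0 := by
    rintro rfl
    have h1 : (0 : ℤ) ≤ D * ((Nat.find hex : ℕ) : ℤ) ^ 2 := by positivity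
    linarith
  refine ⟨|t|, (Nat.find hex : ℕ), ⟨by rw [sq_abs]; exact ht, abs_pos.2 ht0, by exact_mod_cast h0,
    ?_⟩⟩
  intro t' u' h' hu'
  have h1 : Nat.find hex ≤ u'.toNat := by
    apply Nat.find_min' hex
    refine ⟨by omega, t', ?_⟩
    rw [Int.toNat_of_nonneg hu'.le]
    exact h'
  omega

end LO

end Pool.Agent.Lib.MP_7c5fb9_nt
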