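import Mathlib
import Pool.Agent.Lib.MP_7c5fb9_nt.LO.Stmts
import Pool.Agent.Lib.MP_7c5fb9_nt.LO.Basic

set_option autoImplicit false

/-! Periods: the values of the cocycle are integral combinations of the periods. -/

namespace Pool.Agent.Lib.MP_7c5fb9_nt

namespace LO

open Pool.Agent.Lib.MP_7c08ba_nt.RZ UpperHalfPlane Filter Topology
open scoped MatrixGroups Polynomial

namespace Per

variable {w : ℕ} (f : CuspForm 𝒮ℒ (w : ℤ))

theorem Gp_add (P R : ℂ[X]) (z : ℂ) : Gp f (P + R) z = Gp f P z + Gp f R z := by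
  unfold Gp
  rw [← Finset.sum_add_distrib]
  refine Finset.sum_congr rfl fun j _ => ?_
  rw [iterate_map_add, Polynomial.eval_add, mul_add]

theorem Gp_zero (z : ℂ) : Gp f 0 z = 0 := by
  unfold Gp
  refine Finset.sum_eq_zero fun j _ => ?_
  rw [Polynomial.iterate_derivative_zero, Polynomial.eval_zero, mul_zero]

theorem Gp_C_mul (c : ℂ) (P : ℂ[X]) (z : ℂ) :
    Gp f (Polynomial.C c * P) z = c * Gp f P z := by
  unfold Gp
  rw [Finset.mul_sum]
  refine Finset.sum_congr rfl fun j _ => ?_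
  rw [Polynomial.iterate_derivative_C_mul, Polynomial.eval_mul, Polynomial.eval_C]
  ring

theorem Gp_sum {ι : Type*} (s : Finset ι) (c : ι → ℂ) (P : ι → ℂ[X]) (z : ℂ) :
    Gp f (∑ i ∈ s, Polynomial.C (c i) * P i) z = ∑ i ∈ s, c i * Gp f (P i) z := by
  classical
  induction s using Finset.induction_on with
  | empty => simp [Gp_zero]
  | insert a s ha ih => rw [Finset.sum_insert ha, Finset.sum_insert ha, Gp_add, Gp_C_mul, ih]

theorem mb_mS : mb mS Complex.I = Complex.I := by
  simp [mb, mS]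

theorem act_mS (Q : Frm) : act Q mS = ![Q 2, -Q 1, Q 0] := by
  funext i
  fin_cases i <;> simp [act, mS]

theorem natDegree_pw (k : ℕ) (Q : Frm) : (pw k Q).natDegree ≤ 2 * (k - 1) := by
  unfold pw
  refine Polynomial.natDegree_pow_le.trans ?_
  rw [mul_comm 2]
  refine Nat.mul_le_mul_left _ ?_
  compute_degree

theorem pw_sum (k : ℕ) (Q : Frm) (h1 : 1 ≤ k) (hw : w = 2 * k) :
    pw k Q = ∑ m ∈ Finset.range (w - 1), Polynomial.C ((pw k Q).coeff m) * Polynomial.X ^ m := by
  have h := natDegree_pw k Q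
  exact Polynomial.as_sum_range_C_mul_X_pow' (pw k Q) (by omega)

theorem eval_pw (k : ℕ) (Q : Frm) (z : ℂ) :
    (pw k Q).eval z = ((Q 0 : ℂ) * z ^ 2 + (Q 1 : ℂ) * z + (Q 2 : ℂ)) ^ (k - 1) := by
  simp [pw]

theorem pw_act_mS (k : ℕ) (Q : Frm) (h1 : 1 ≤ k) (hw : w = 2 * k) :
    pw k (act Q mS) = ∑ m ∈ Finset.range (w - 1), Polynomial.C ((pw k Q).coeff m) *
      ((-1) ^ m * Polynomial.X ^ (w - 2 - m)) := by
  refine mul_left_cancel₀ Polynomial.X_ne_zero (Polynomial.funext fun z => ?_)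
  rw [Polynomial.eval_mul, Polynomial.eval_mul, Polynomial.eval_X]
  rcases eq_or_ne z 0 with rfl | hz
  · simp
  congr 1
  rw [eval_pw, act_mS, Polynomial.eval_finsetSum]
  have h2 : (pw k Q).eval (-z⁻¹) = ∑ m ∈ Finset.range (w - 1), (pw k Q).coeff m * (-z⁻¹) ^ m := by
    conv_lhs => rw [pw_sum k Q h1 hw]
    rw [Polynomial.eval_finsetSum]
    refine Finset.sum_congr rfl fun m _ => ?_
    rw [Polynomial.eval_mul, Polynomial.eval_C, Polynomial.eval_pow, Polynomial.eval_X]
  have h3 : ∑ m ∈ Finset.range (w - 1), Polynomial.eval z (Polynomial.C ((pw k Q).coeff m) *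
      ((-1) ^ m * Polynomial.X ^ (w - 2 - m))) = z ^ (w - 2) * (pw k Q).eval (-z⁻¹) := by
    rw [h2, Finset.mul_sum]
    refine Finset.sum_congr rfl fun m hm => ?_
    have hm' : m ≤ w - 2 := by
      have := Finset.mem_range.1 hm
      omega
    rw [Polynomial.eval_mul, Polynomial.eval_C, Polynomial.eval_mul, Polynomial.eval_pow,
      Polynomial.eval_pow, Polynomial.eval_X, Polynomial.eval_neg, Polynomial.eval_one]
    have e1 : z ^ (w - 2) = z ^ (w - 2 - m) * z ^ m := by
      rw [← pow_add]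
      congr 1
      omega
    rw [e1, neg_pow (z⁻¹), inv_pow]
    field_simp
  rw [h3, eval_pw]
  have e2 : w - 2 = 2 * (k - 1) := by omega
  rw [e2, pow_mul, ← mul_pow]
  congr 1
  simp only [Matrix.cons_val_zero, Matrix.cons_val_one, Matrix.cons_val]
  push_cast
  field_simp
  ring

theorem coeff_int (k : ℕ) (Q : Frm) (m : ℕ) : ∃ c : ℤ, (pw k Q).coeff m = c := by
  have h : pw k Q = (((Polynomial.C (Q 0) * Polynomial.X ^ 2 + Polynomial.C (Q 1) * Polynomial.X +
      Polynomial.C (Q 2)) ^ (k - 1) : ℤ[X])).map (Int.castRingHom ℂ) := by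
    simp [pw]
  refine ⟨((Polynomial.C (Q 0) * Polynomial.X ^ 2 + Polynomial.C (Q 1) * Polynomial.X +
      Polynomial.C (Q 2)) ^ (k - 1) : ℤ[X]).coeff m, ?_⟩
  rw [h, Polynomial.coeff_map]
  rfl

end Per

open Per in
/-- (Per) periods: the values of the cocycle are integral combinations of the periods. -/
theorem stPer (hCoc : StCoc) : StPer := by
  intro k w f h1 hw
  obtain ⟨-, hmul, hT, -⟩ := hCoc k w f h1 hw
  have hS : ∀ Q : Frm, Phi k f mS Q = ∑ m ∈ Finset.range (w - 1), (pw k Q).coeff m * rp f m := by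
    intro Q
    have h4 : Gp f (pw k Q) Complex.I =
        ∑ m ∈ Finset.range (w - 1), (pw k Q).coeff m * Gp f (Polynomial.X ^ m) Complex.I := by
      conv_lhs => rw [pw_sum k Q h1 hw]
      rw [Gp_sum]
    unfold Phi
    rw [mb_mS, pw_act_mS k Q h1 hw, Gp_sum, h4, ← Finset.sum_sub_distrib]
    refine Finset.sum_congr rfl fun m _ => ?_
    unfold rp
    ring
  refine ⟨hS, ?_⟩
  set H := AddSubgroup.closure (rp f '' Set.Iio (w - 1)) with hH
  have hone : ∀ Q : Frm, Phi k f 1 Q = 0 := by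
    intro Q
    have := hmul 1 1 Q Matrix.det_one Matrix.det_one
    rw [mul_one, act_one] at this
    exact (add_eq_left (a := Phi k f 1 Q)).1 this.symm
  have key : ∀ g : Matrix.SpecialLinearGroup (Fin 2) ℤ, ∀ Q : Frm, Phi k f (g : Mat) Q ∈ H := by
    intro g
    have hg : g ∈ Subgroup.closure ({ModularGroup.S, ModularGroup.T} :
        Set (Matrix.SpecialLinearGroup (Fin 2) ℤ)) := by
      rw [SpecialLinearGroup.SL2Z_generators]
      trivial
    induction hg using Subgroup.closure_induction with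
    | mem x hx =>
      intro Q
      rcases hx with rfl | hx
      · have : ((ModularGroup.S : Matrix.SpecialLinearGroup (Fin 2) ℤ) : Mat) = mS := by
          simp [ModularGroup.S, mS]
        rw [this, hS]
        refine AddSubgroup.sum_mem _ fun m hm => ?_
        obtain ⟨c, hc⟩ := coeff_int k Q m
        rw [hc, ← zsmul_eq_mul]
        have h5 : rp f m ∈ H := AddSubgroup.subset_closure
          (Set.mem_image_of_mem (rp f) (Set.mem_Iio.2 (Finset.mem_range.1 hm)))
        exact AddSubgroup.zsmul_mem _ h5 c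
      · rw [Set.mem_singleton_iff] at hx
        subst hx
        have : ((ModularGroup.T : Matrix.SpecialLinearGroup (Fin 2) ℤ) : Mat) = mT := by
          simp [ModularGroup.T, mT]
        rw [this, hT]
        exact H.zero_mem
    | one =>
      intro Q
      rw [Matrix.SpecialLinearGroup.coe_one, hone]
      exact H.zero_mem
    | mul x y _ _ hx hy =>
      intro Q
      rw [Matrix.SpecialLinearGroup.coe_mul, hmul _ _ _ x.2 y.2]
      exact H.add_mem (hx Q) (hy _)
    | inv x _ hx =>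
      intro Q
      have h3 := hmul ((x⁻¹ : Matrix.SpecialLinearGroup (Fin 2) ℤ) : Mat) (x : Mat) Q (x⁻¹).2 x.2
      rw [← Matrix.SpecialLinearGroup.coe_mul, inv_mul_cancel, Matrix.SpecialLinearGroup.coe_one,
        hone] at h3
      rw [eq_neg_of_add_eq_zero_left h3.symm]
      exact H.neg_mem (hx _)
  intro M Q hM
  exact key ⟨M, hM⟩ Q

end LO

end Pool.Agent.Lib.MP_7c5fb9_nt
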