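import Pool.Agent.Lib.MP_7c5fb9_nt.LO.Basic

set_option autoImplicit false

/-!
# Level one (MP_7c5fb9_nt, project LO): the odd cocycle
-/

namespace Pool.Agent.Lib.MP_7c5fb9_nt

namespace LO

open Pool.Agent.Lib.MP_7c08ba_nt.RZ UpperHalfPlane
open scoped MatrixGroups Polynomial

namespace PsiCaux

variable {w : ℕ}

theorem eval_iter (a : ℂ) (P : ℂ[X]) (j : ℕ) (z : ℂ) :
    (Polynomial.derivative^[j] (Polynomial.C a * P)).eval z =
      a * (Polynomial.derivative^[j] P).eval z := by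
  rw [Polynomial.iterate_derivative_C_mul, Polynomial.eval_mul, Polynomial.eval_C]

theorem Gp_C_mul (f : CuspForm 𝒮ℒ (w : ℤ)) (a : ℂ) (P : ℂ[X]) (z : ℂ) :
    Gp f (Polynomial.C a * P) z = a * Gp f P z := by
  unfold Gp
  rw [Finset.mul_sum]
  refine Finset.sum_congr rfl fun j _ => ?_
  rw [eval_iter]
  ring

theorem pw_smul (k : ℕ) (c : ℤ) (Q : Frm) :
    pw k (fun i => c * Q i) = Polynomial.C ((c : ℂ) ^ (k - 1)) * pw k Q := by
  unfold pw
  rw [map_pow, ← mul_pow]
  congr 1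
  push_cast
  rw [map_mul, map_mul, map_mul]
  ring

theorem Phi_smul (k : ℕ) (f : CuspForm 𝒮ℒ (w : ℤ)) (M : Mat) (c : ℤ) (Q : Frm) :
    Phi k f M (fun i => c * Q i) = (c : ℂ) ^ (k - 1) * Phi k f M Q := by
  unfold Phi
  rw [smul_act, pw_smul, pw_smul, Gp_C_mul, Gp_C_mul]
  ring

theorem mir_smul (c : ℤ) (Q : Frm) : mir (fun i => c * Q i) = fun i => c * mir Q i := by
  funext i
  fin_cases i <;> simp [mir]

end PsiCaux

open PsiCaux in
theorem stPsiC (hCoc : StCoc) (hCyc : StCyc) : StPsiC := by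
  intro k w f hk hw
  obtain ⟨-, hc, hT, hn⟩ := hCoc k w f hk hw
  have hP1 : ∀ Q : Frm, Phi k f 1 Q = 0 := by
    intro Q
    have h := hc 1 1 Q Matrix.det_one Matrix.det_one
    rw [act_one, mul_one] at h
    linear_combination -h
  have hT' : ∀ Q : Frm, Phi k f mT' Q = 0 := by
    intro Q
    have h := hc mT' mT Q det_mT' det_mT
    rw [mT'_mul_mT, hP1, hT, add_zero] at h
    exact h.symm
  have c1 : ∀ (M N : Mat) (Q : Frm), M.det = 1 → N.det = 1 →
      Psi k f (M * N) Q = Psi k f M Q + Psi k f N (act Q M) := by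
    intro M N Q hM hN
    have h1 := hc M N Q hM hN
    have h2 := hc (mE * M * mE) (mE * N * mE) (mir Q) (by rw [conj_det, hM]) (by rw [conj_det, hN])
    unfold Psi
    rw [conj_mul, h1, h2, mir_act]
    ring
  have c2 : ∀ Q : Frm, Psi k f mT Q = 0 := by
    intro Q
    unfold Psi
    rw [conj_mT, hT, hT', sub_zero]
  have c3 : ∀ (M : Mat) (Q : Frm), Psi k f (-M) Q = Psi k f M Q := by
    intro M Q
    unfold Psi
    rw [hn, mul_neg, neg_mul, hn]
  have c4 : ∀ Q : Frm, Psi k f mS Q = Phi k f mS Q - Phi k f mS (mir Q) := by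
    intro Q
    unfold Psi
    rw [conj_mS, hn]
  have p1 : ∀ Q : Frm, Psi k f 1 Q = 0 := by
    intro Q
    have h := c1 1 1 Q Matrix.det_one Matrix.det_one
    rw [act_one, mul_one] at h
    linear_combination -h
  have c5 : ∀ Q : Frm, Psi k f mS (act Q mS) = -Psi k f mS Q := by
    intro Q
    have h := c1 mS mS Q det_mS det_mS
    rw [mS_mul_mS, c3, p1] at h
    linear_combination -h
  have pU : ∀ Q : Frm, Psi k f mU Q = Psi k f mS (act Q mT) := by
    intro Q
    rw [mU_eq, c1 mT mS Q det_mT det_mS, c2, zero_add]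
  have eT : mT = -(mU * mS) := by
    rw [mU_eq, mul_assoc, mS_mul_mS, mul_neg, mul_one, neg_neg]
  have pT : ∀ Q : Frm, Psi k f mS (act Q mT) = -Psi k f mS (act Q mU) := by
    intro Q
    rw [eT, act_neg, ← act_act, c5]
  have c6 : ∀ Q : Frm, Psi k f mS Q + Psi k f mS (act Q mU) +
      Psi k f mS (act Q (mU * mU)) = 0 := by
    intro Q
    have hUU : (mU * mU).det = 1 := by rw [Matrix.det_mul, det_mU, mul_one]
    have h := c1 (mU * mU) mU Q hUU det_mU
    rw [mU_cube, c3, p1, c1 mU mU Q det_mU det_mU, pU, pU, pU, pT, pT, pT, act_act, act_act,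
      mU_cube, act_neg, act_one] at h
    linear_combination h
  have c7 : ∀ Q : Frm, Psi k f mS (mir Q) = -Psi k f mS Q := by
    intro Q
    rw [c4, c4, mir_mir]
    ring
  have c8 : ∀ (c : ℤ) (Q : Frm), Psi k f mS (fun i => c * Q i) =
      (c : ℂ) ^ (k - 1) * Psi k f mS Q := by
    intro c Q
    rw [c4, c4, mir_smul, Phi_smul, Phi_smul]
    ring
  refine ⟨c1, c2, c3, c4, c5, c6, c7, c8, ?_⟩
  intro D t u Q hD hDp hQ0 htu ht hu
  have hD' : disc (mir Q) = D := by rw [disc_mir, hD]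
  rw [hCyc k w f hk hw D t u Q hD hDp hQ0 htu ht hu,
    hCyc k w f hk hw D t u (mir Q) hD' hDp (by simpa [mir] using hQ0) htu ht hu]
  have hdet : (mE * aut Q t u * mE).det = 1 := by rw [conj_det, det_aut hD htu]
  have h := hc (mE * aut Q t u * mE) (aut (mir Q) t u) (mir Q) hdet (det_aut hD' htu)
  rw [mir_act, act_aut hD htu] at h
  have h2 : mE * aut Q t u * mE * aut (mir Q) t u = 1 := by
    rw [conj_aut, Matrix.adjugate_mul, det_aut hD' htu, one_smul]
  rw [h2, hP1] at h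
  unfold Psi
  linear_combination h

end LO

end Pool.Agent.Lib.MP_7c5fb9_nt
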