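import Pool.Agent.Lib.MP_7c5fb9_nt.LO.Stmts

set_option autoImplicit false

/-!
# Level one (MP_7c5fb9_nt, project LO): units of real quadratic fields
-/

namespace Pool.Agent.Lib.MP_7c5fb9_nt

namespace LO

open Module NumberField

namespace RUnit

section field

variable {K : Type} [Field K] [NumberField K] {s : K} {D : ℕ}

lemma rat_sq_ne (hD : Squarefree D) (h1 : 1 < D) (x : ℚ) : x ^ 2 ≠ (D : ℚ) := by
  intro h
  have h2 : IsSquare (D : ℚ) := ⟨x, by rw [← h]; ring⟩
  rw [Rat.isSquare_natCast_iff] at h2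
  obtain ⟨m, hm⟩ := h2
  have h3 : IsUnit m := hD m ⟨1, by rw [hm]; ring⟩
  rw [Nat.isUnit_iff] at h3
  rw [h3] at hm
  omega

lemma pair (hD : Squarefree D) (h1 : 1 < D) (hs : s ^ 2 = (D : K)) (x y : ℚ)
    (h : x • (1 : K) + y • s = 0) : x = 0 ∧ y = 0 := by
  have ht : y = 0 := by
    by_contra ht
    have h1' : s = ((-(x / y) : ℚ) : K) := by
      have h2 : (y : K) * s = -(x : K) := by
        rw [Rat.smul_def, Rat.smul_def, mul_one] at h
        linear_combination h
      have ht' : (y : K) ≠ 0 := by exact_mod_cast ht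
      push_cast
      field_simp
      linear_combination h2
    rw [h1'] at hs
    have h3 : (((-(x / y)) ^ 2 : ℚ) : K) = (((D : ℚ) : ℚ) : K) := by
      push_cast
      push_cast at hs
      exact hs
    exact rat_sq_ne hD h1 _ (by exact_mod_cast h3)
  subst ht
  rw [zero_smul, add_zero, Rat.smul_def, mul_one] at h
  exact ⟨by exact_mod_cast h, rfl⟩

lemma linInd (hD : Squarefree D) (h1 : 1 < D) (hs : s ^ 2 = (D : K)) :
    LinearIndependent ℚ ![(1 : K), s] := by
  rw [LinearIndependent.pair_iff]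
  exact fun x y h => pair hD h1 hs x y h

/-- the basis `1, s` of `K` -/
noncomputable def abasis (hK : finrank ℚ K = 2) (hD : Squarefree D) (h1 : 1 < D)
    (hs : s ^ 2 = (D : K)) : Basis (Fin 2) ℚ K :=
  basisOfLinearIndependentOfCardEqFinrank (linInd hD h1 hs) (by simp [hK])

lemma abasis_zero (hK : finrank ℚ K = 2) (hD : Squarefree D) (h1 : 1 < D)
    (hs : s ^ 2 = (D : K)) : abasis hK hD h1 hs 0 = 1 := by
  simp [abasis]

lemma abasis_one (hK : finrank ℚ K = 2) (hD : Squarefree D) (h1 : 1 < D)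
    (hs : s ^ 2 = (D : K)) : abasis hK hD h1 hs 1 = s := by
  simp [abasis]

lemma abasis_repr (hK : finrank ℚ K = 2) (hD : Squarefree D) (h1 : 1 < D)
    (hs : s ^ 2 = (D : K)) (x y : ℚ) :
    (abasis hK hD h1 hs).repr (x • (1 : K) + y • s) 0 = x ∧
    (abasis hK hD h1 hs).repr (x • (1 : K) + y • s) 1 = y := by
  have h0 : (abasis hK hD h1 hs).repr 1 = Finsupp.single 0 1 := by
    conv_lhs => rw [← abasis_zero hK hD h1 hs]
    exact Basis.repr_self _ _
  have h1 : (abasis hK hD h1 hs).repr s = Finsupp.single 1 1 := by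
    conv_lhs => arg 2; rw [← abasis_one hK hD h1 hs]
    exact Basis.repr_self _ _
  rw [map_add, map_smul, map_smul, h0, h1]
  simp

lemma exists_coords (hK : finrank ℚ K = 2) (hD : Squarefree D) (h1 : 1 < D)
    (hs : s ^ 2 = (D : K)) (z : K) : ∃ u v : ℚ, z = u • (1 : K) + v • s := by
  refine ⟨(abasis hK hD h1 hs).repr z 0, (abasis hK hD h1 hs).repr z 1, ?_⟩
  conv_lhs => rw [← (abasis hK hD h1 hs).sum_repr z]
  rw [Fin.sum_univ_two, abasis_zero, abasis_one]

lemma leftMul_coords (hK : finrank ℚ K = 2) (hD : Squarefree D) (h1 : 1 < D)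
    (hs : s ^ 2 = (D : K)) (u v : ℚ) :
    Algebra.leftMulMatrix (abasis hK hD h1 hs) (u • (1 : K) + v • s)
      = !![u, (D : ℚ) * v; v, u] := by
  have e0 : (u • (1 : K) + v • s) * 1 = u • (1 : K) + v • s := mul_one _
  have e1 : (u • (1 : K) + v • s) * s = ((D : ℚ) * v) • (1 : K) + u • s := by
    simp only [Rat.smul_def]
    push_cast
    linear_combination (v : K) * hs
  ext i j
  rw [Algebra.leftMulMatrix_eq_repr_mul]
  fin_cases j
  · simp only [Fin.zero_eta, abasis_zero, e0]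
    fin_cases i
    · simpa using (abasis_repr hK hD h1 hs u v).1
    · simpa using (abasis_repr hK hD h1 hs u v).2
  · simp only [Fin.mk_one, abasis_one, e1]
    fin_cases i
    · simpa using (abasis_repr hK hD h1 hs ((D : ℚ) * v) u).1
    · simpa using (abasis_repr hK hD h1 hs ((D : ℚ) * v) u).2

lemma trace_coords (hK : finrank ℚ K = 2) (hD : Squarefree D) (h1 : 1 < D)
    (hs : s ^ 2 = (D : K)) (u v : ℚ) :
    Algebra.trace ℚ K (u • (1 : K) + v • s) = 2 * u := by
  rw [Algebra.trace_eq_matrix_trace (abasis hK hD h1 hs), leftMul_coords, Matrix.trace_fin_two]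
  simp
  ring

lemma norm_coords (hK : finrank ℚ K = 2) (hD : Squarefree D) (h1 : 1 < D)
    (hs : s ^ 2 = (D : K)) (u v : ℚ) :
    Algebra.norm ℚ (u • (1 : K) + v • s) = u ^ 2 - D * v ^ 2 := by
  rw [Algebra.norm_eq_matrix_det (abasis hK hD h1 hs), leftMul_coords, Matrix.det_fin_two]
  simp
  ring

/-- a rational `w` with `D w²` an integer is an integer -/
lemma rat_int (hD : Squarefree D) (w : ℚ) (N : ℤ) (h : (D : ℚ) * w ^ 2 = N) :
    ∃ b : ℤ, w = b := by
  have hw : w = w.num / w.den := (Rat.num_div_den w).symm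
  have h1 : (D : ℤ) * w.num ^ 2 = N * (w.den : ℤ) ^ 2 := by
    have : (D : ℚ) * w.num ^ 2 = N * (w.den : ℚ) ^ 2 := by
      rw [← h]
      have h0 : w * w.den = w.num := Rat.mul_den_eq_num w
      rw [← h0]; ring
    exact_mod_cast this
  have h2 : ((w.den : ℤ)) ^ 2 ∣ (D : ℤ) := by
    have hco : IsCoprime ((w.den : ℤ) ^ 2) (w.num ^ 2) := by
      apply IsCoprime.pow
      rw [Int.isCoprime_iff_gcd_eq_one, Int.gcd_comm]
      exact w.reduced
    exact hco.dvd_of_dvd_mul_right ⟨N, by rw [h1]; ring⟩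
  have h3 : w.den ^ 2 ∣ D := by exact_mod_cast h2
  have h4 : w.den = 1 := Nat.isUnit_iff.1 (hD w.den (by rwa [← pow_two]))
  refine ⟨w.num, ?_⟩
  conv_lhs => rw [hw]
  rw [h4]; simp

/-- every integer of `K` is `(a + b s)/2` -/
lemma exists_int_coords (hK : finrank ℚ K = 2) (hD : Squarefree D) (h1 : 1 < D)
    (hs : s ^ 2 = (D : K)) (x : 𝓞 K) :
    ∃ a b : ℤ, (x : K) = ((a : K) + (b : K) * s) / 2 ∧
      Algebra.norm ℚ (x : K) = ((a : ℚ) ^ 2 - D * b ^ 2) / 4 := by
  obtain ⟨u, v, huv⟩ := exists_coords hK hD h1 hs (x : K)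
  have hx : IsIntegral ℤ (x : K) := RingOfIntegers.isIntegral_coe x
  have ht : IsIntegral ℤ (Algebra.trace ℚ K (x : K)) := Algebra.isIntegral_trace hx
  have hn : IsIntegral ℤ (Algebra.norm ℚ (x : K)) := Algebra.isIntegral_norm ℚ hx
  rw [huv, trace_coords hK hD h1 hs] at ht
  rw [huv, norm_coords hK hD h1 hs] at hn
  obtain ⟨a0, ha0⟩ := IsIntegrallyClosed.isIntegral_iff.1 ht
  obtain ⟨c0, hc0⟩ := IsIntegrallyClosed.isIntegral_iff.1 hn
  simp only [algebraMap_int_eq, eq_intCast] at ha0 hc0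
  have hw : (D : ℚ) * (2 * v) ^ 2 = ((a0 ^ 2 - 4 * c0 : ℤ) : ℚ) := by
    push_cast
    rw [ha0, hc0]; ring
  obtain ⟨b0, hb0⟩ := rat_int hD (2 * v) _ hw
  refine ⟨a0, b0, ?_, ?_⟩
  · rw [huv, Rat.smul_def, Rat.smul_def, mul_one]
    have hu : (u : K) = (a0 : K) / 2 := by
      have : (2 : K) * (u : K) = (a0 : K) := by exact_mod_cast congrArg (Rat.cast : ℚ → K) ha0.symm
      rw [← this]; field_simp
    have hv : (v : K) = (b0 : K) / 2 := by
      have : (2 : K) * (v : K) = (b0 : K) := by exact_mod_cast congrArg (Rat.cast : ℚ → K) hb0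
      rw [← this]; field_simp
    rw [hu, hv]
    ring
  · rw [huv, norm_coords hK hD h1 hs, ← hb0, ha0]
    ring

/-! ### Places -/

lemma emb_real (hK : finrank ℚ K = 2) (hD : Squarefree D) (h1 : 1 < D)
    (hs : s ^ 2 = (D : K)) (φ : K →+* ℂ) : ComplexEmbedding.IsReal φ := by
  have h2 : (starRingEnd ℂ) (φ s) = φ s := by
    have h3 : (φ s) ^ 2 = ((Real.sqrt D : ℝ) : ℂ) ^ 2 := by
      rw [← map_pow, hs, map_natCast, ← Complex.ofReal_pow, Real.sq_sqrt (Nat.cast_nonneg D)]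
      simp
    rcases sq_eq_sq_iff_eq_or_eq_neg.1 h3 with h | h
    · rw [h, Complex.conj_ofReal]
    · rw [h, map_neg, Complex.conj_ofReal]
  rw [ComplexEmbedding.isReal_iff]
  ext x
  obtain ⟨u, v, huv⟩ := exists_coords hK hD h1 hs x
  rw [huv, ComplexEmbedding.conjugate_coe_eq]
  simp only [Rat.smul_def, map_add, map_mul, map_ratCast, map_one, h2]

lemma place_real (hK : finrank ℚ K = 2) (hD : Squarefree D) (h1 : 1 < D)
    (hs : s ^ 2 = (D : K)) (w : InfinitePlace K) : w.IsReal :=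
  InfinitePlace.isReal_iff.2 (emb_real hK hD h1 hs _)

lemma nrComplex (hK : finrank ℚ K = 2) (hD : Squarefree D) (h1 : 1 < D)
    (hs : s ^ 2 = (D : K)) : InfinitePlace.nrComplexPlaces K = 0 := by
  classical
  rw [InfinitePlace.nrComplexPlaces, Fintype.card_eq_zero_iff]
  refine ⟨fun w => ?_⟩
  obtain ⟨w, hw⟩ := w
  exact (InfinitePlace.not_isReal_iff_isComplex.2 hw) (place_real hK hD h1 hs w)

lemma nrReal (hK : finrank ℚ K = 2) (hD : Squarefree D) (h1 : 1 < D)
    (hs : s ^ 2 = (D : K)) : InfinitePlace.nrRealPlaces K = 2 := by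
  have h := InfinitePlace.card_add_two_mul_card_eq_rank (K := K)
  rw [hK, nrComplex hK hD h1 hs] at h
  omega

lemma torsion_pm (hK : finrank ℚ K = 2) (hD : Squarefree D) (h1 : 1 < D)
    (hs : s ^ 2 = (D : K)) (x : Units.torsion K) :
    (x : (𝓞 K)ˣ) = 1 ∨ (x : (𝓞 K)ˣ) = -1 := by
  obtain ⟨w⟩ := (inferInstance : Nonempty (InfinitePlace K))
  have hw := place_real hK hD h1 hs w
  have hx : ∀ w : InfinitePlace K, w (x : (𝓞 K)ˣ) = 1 := (Units.mem_torsion K).1 x.2
  have h2 := hx w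
  rw [← InfinitePlace.norm_embedding_of_isReal hw, Real.norm_eq_abs] at h2
  rcases eq_or_eq_neg_of_abs_eq h2 with h | h
  · left
    apply Units.coe_injective K
    apply (InfinitePlace.embedding_of_isReal hw).injective
    rw [h]; simp
  · right
    apply Units.coe_injective K
    apply (InfinitePlace.embedding_of_isReal hw).injective
    rw [h]; simp

lemma torsionOrder_eq (hK : finrank ℚ K = 2) (hD : Squarefree D) (h1 : 1 < D)
    (hs : s ^ 2 = (D : K)) : Units.torsionOrder K = 2 := by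
  have h1' := Units.even_torsionOrder K
  have h2 := Units.torsionOrder_pos K
  have h3 : Units.torsionOrder K ≤ 2 := by
    rw [Units.torsionOrder]
    have hsub : ((Units.torsion K : Subgroup (𝓞 K)ˣ) : Set (𝓞 K)ˣ) ⊆ {1, -1} := by
      intro x hx
      rcases torsion_pm hK hD h1 hs ⟨x, hx⟩ with hx | hx <;> simp at hx <;> simp [hx]
    have h4 := Set.ncard_le_ncard hsub (Set.toFinite _)
    have h5 : ({1, -1} : Set (𝓞 K)ˣ).ncard ≤ 2 := by
      refine (Set.ncard_insert_le _ _).trans ?_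
      simp
    exact h4.trans h5
  obtain ⟨k, hk⟩ := h1'
  omega

lemma exists_fund (hK : finrank ℚ K = 2) (hD : Squarefree D) (h1 : 1 < D)
    (hs : s ^ 2 = (D : K)) : ∃ (g : K →+* ℝ) (η : (𝓞 K)ˣ),
      |Real.log (|g η|)| = Units.regulator K ∧
      ∀ x : (𝓞 K)ˣ, ∃ n : ℤ, Real.log (|g x|) = n * Real.log (|g η|) := by
  classical
  have hc : Fintype.card (InfinitePlace K) = 2 := by
    rw [InfinitePlace.card_eq_nrRealPlaces_add_nrComplexPlaces, nrReal hK hD h1 hs,
      nrComplex hK hD h1 hs]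
  have hrk : Units.rank K = 1 := by
    rw [Units.rank, hc]
  obtain ⟨w', w₁, hne⟩ := Fintype.exists_pair_of_one_lt_card (α := InfinitePlace K) (by omega)
  have hc1 : Fintype.card {w : InfinitePlace K // w ≠ w'} = 1 := by
    rw [Fintype.card_subtype_compl, hc, Fintype.card_subtype_eq]
  have hsub : Subsingleton {w : InfinitePlace K // w ≠ w'} :=
    Fintype.card_le_one_iff_subsingleton.1 hc1.le
  have e : {w : InfinitePlace K // w ≠ w'} ≃ Fin (Units.rank K) :=
    Fintype.equivOfCardEq (by rw [hc1, Fintype.card_fin, hrk])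
  have hw := place_real hK hD h1 hs w₁
  have hg : ∀ x : K, |InfinitePlace.embedding_of_isReal hw x| = w₁ x := by
    intro x
    rw [← Real.norm_eq_abs, InfinitePlace.norm_embedding_of_isReal hw]
  refine ⟨InfinitePlace.embedding_of_isReal hw, Units.fundSystem K (e ⟨w₁, hne.symm⟩), ?_, ?_⟩
  · rw [Units.regulator_eq_det K w' e,
      Matrix.det_eq_elem_of_subsingleton _ (⟨w₁, hne.symm⟩ : {w : InfinitePlace K // w ≠ w'}),
      Matrix.of_apply, hg]
    congr 1
    rw [InfinitePlace.mult, if_pos hw]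
    simp
  · intro x
    obtain ⟨⟨ζ, f⟩, hx, -⟩ := Units.exist_unique_eq_mul_prod K x
    refine ⟨f (e ⟨w₁, hne.symm⟩), ?_⟩
    have hss : Subsingleton (Fin (Units.rank K)) := e.symm.subsingleton
    simp only at hx
    rw [Fintype.prod_subsingleton _ (e ⟨w₁, hne.symm⟩)] at hx
    have hz : w₁ ((ζ : (𝓞 K)ˣ) : K) = 1 := (Units.mem_torsion K).1 ζ.2 w₁
    have hη : w₁ ((Units.fundSystem K (e ⟨w₁, hne.symm⟩) : (𝓞 K)ˣ) : K) ≠ 0 :=
      (Units.pos_at_place _ _).ne'
    rw [hg, hg]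
    conv_lhs => rw [hx]
    rw [Units.coe_mul, map_mul, hz, one_mul, Units.coe_zpow, map_zpow₀, Real.log_zpow]

/-- The unit attached to a solution of the Pell equation. -/
lemma exists_unit (hs : s ^ 2 = (D : K)) (t u : ℤ) (h : t ^ 2 - D * u ^ 2 = 4) :
    ∃ x : (𝓞 K)ˣ, (x : K) = ((t : K) + (u : K) * s) / 2 := by
  have h4 : (t : K) ^ 2 - (D : K) * (u : K) ^ 2 = 4 := by exact_mod_cast congrArg (Int.cast : ℤ → K) h
  have hi : ∀ v : ℤ, v ^ 2 = u ^ 2 → IsIntegral ℤ (((t : K) + (v : K) * s) / 2) := by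
    intro v hv
    have hv' : (v : K) ^ 2 = (u : K) ^ 2 := by exact_mod_cast congrArg (Int.cast : ℤ → K) hv
    refine ⟨Polynomial.X ^ 2 - Polynomial.C t * Polynomial.X + Polynomial.C 1, ?_, ?_⟩
    · monicity!
    · rw [Polynomial.eval₂_add, Polynomial.eval₂_sub, Polynomial.eval₂_pow,
        Polynomial.eval₂_mul, Polynomial.eval₂_X, Polynomial.eval₂_C, Polynomial.eval₂_C,
        algebraMap_int_eq, eq_intCast, eq_intCast]
      push_cast
      linear_combination (v : K) ^ 2 / 4 * hs + (D : K) / 4 * hv' - 1 / 4 * h4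
  refine ⟨⟨⟨_, hi u rfl⟩, ⟨_, hi (-u) (by ring)⟩, ?_, ?_⟩, rfl⟩
  · apply RingOfIntegers.ext
    change ((t : K) + (u : K) * s) / 2 * (((t : K) + ((-u : ℤ) : K) * s) / 2) = 1
    push_cast
    linear_combination -(u : K) ^ 2 / 4 * hs + 1 / 4 * h4
  · apply RingOfIntegers.ext
    change (((t : K) + ((-u : ℤ) : K) * s) / 2) * (((t : K) + (u : K) * s) / 2) = 1
    push_cast
    linear_combination -(u : K) ^ 2 / 4 * hs + 1 / 4 * h4

lemma eps_gt (D : ℕ) (t u : ℤ) (h1 : 1 < D) (h : t ^ 2 - D * u ^ 2 = 4) (ht : 0 < t)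
    (hu : 0 < u) : 1 < eps D t u := by
  have ht2 : 2 ≤ t := by
    by_contra hlt
    have ht1 : t = 1 := by omega
    subst ht1
    have : (0 : ℤ) ≤ D * u ^ 2 := by positivity
    omega
  have h3 : (2 : ℝ) ≤ t := by exact_mod_cast ht2
  have h4 : 0 < (u : ℝ) * Real.sqrt D := by
    have : (0 : ℝ) < u := by exact_mod_cast hu
    have h5 : 0 < Real.sqrt D := Real.sqrt_pos.2 (by exact_mod_cast (by omega : 0 < D))
    positivity
  unfold eps
  linarith

lemma main (hK : finrank ℚ K = 2) (hD : Squarefree D) (h1 : 1 < D)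
    (hs : s ^ 2 = (D : K)) (t u : ℤ) (hF : Fund D t u) :
    ∃ e : ℕ, (e = 1 ∨ e = 2) ∧ Real.log (eps D t u) = e * Units.regulator K := by
  obtain ⟨g, η, hη, hall⟩ := exists_fund hK hD h1 hs
  -- choose the square root with positive image
  obtain ⟨s', hs', hgs⟩ : ∃ s' : K, s' ^ 2 = (D : K) ∧ g s' = Real.sqrt D := by
    have h3 : (g s) ^ 2 = (Real.sqrt D) ^ 2 := by
      rw [← map_pow, hs, map_natCast, Real.sq_sqrt (Nat.cast_nonneg D)]
    rcases sq_eq_sq_iff_eq_or_eq_neg.1 h3 with h | h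
    · exact ⟨s, hs, h⟩
    · exact ⟨-s, by rw [neg_sq, hs], by rw [map_neg, h, neg_neg]⟩
  have hsq : 0 < Real.sqrt D := Real.sqrt_pos.2 (by exact_mod_cast (by omega : 0 < D))
  have hD2 : Real.sqrt D ^ 2 = D := Real.sq_sqrt (Nat.cast_nonneg D)
  -- the unit `ε`
  obtain ⟨x, hx⟩ := exists_unit hs' t u hF.eq
  have hgx : g x = eps D t u := by
    rw [hx, eps, map_div₀, map_add, map_mul, map_intCast, map_intCast, hgs, map_ofNat]
  have he1 := eps_gt D t u h1 hF.eq hF.pt hF.pu
  have hlog : 0 < Real.log (eps D t u) := Real.log_pos he1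
  obtain ⟨n, hn⟩ := hall x
  rw [hgx, abs_of_pos (by linarith)] at hn
  -- the bound
  have hR : 0 < Units.regulator K := Units.regulator_pos K
  have hle : Real.log (eps D t u) ≤ 2 * Units.regulator K := by
    -- a unit `y` with `log |g y| = R`
    obtain ⟨y, hy⟩ : ∃ y : (𝓞 K)ˣ, Real.log (|g y|) = Units.regulator K := by
      rcases abs_choice (Real.log (|g η|)) with h | h
      · exact ⟨η, by rw [← h, hη]⟩
      · refine ⟨η⁻¹, ?_⟩
        have h5 : g ((η⁻¹ : (𝓞 K)ˣ) : K) = (g η)⁻¹ := by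
          have h6 : g ((η⁻¹ : (𝓞 K)ˣ) : K) * g η = 1 := by
            rw [← map_mul, ← Units.coe_mul, inv_mul_cancel, Units.coe_one, map_one]
          exact eq_inv_of_mul_eq_one_left h6
        rw [h5, abs_inv, Real.log_inv, ← h, hη]
    obtain ⟨a, b, hab, hN⟩ := exists_int_coords hK hD h1 hs' ((y ^ 2 : (𝓞 K)ˣ) : 𝓞 K)
    have hN1 : Algebra.norm ℚ (((y ^ 2 : (𝓞 K)ˣ) : 𝓞 K) : K) = 1 := by
      have h7 : |Algebra.norm ℚ ((y : 𝓞 K) : K)| = 1 := by
        have := NumberField.isUnit_iff_norm.1 y.isUnit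
        rwa [RingOfIntegers.coe_norm] at this
      have h8 : (((y ^ 2 : (𝓞 K)ˣ) : 𝓞 K) : K) = ((y : 𝓞 K) : K) ^ 2 := by
        push_cast
        rfl
      rw [h8, map_pow, ← sq_abs, h7, one_pow]
    have heq : a ^ 2 - D * b ^ 2 = 4 := by
      rw [hN1] at hN
      have : (a : ℚ) ^ 2 - D * b ^ 2 = 4 := by linarith
      exact_mod_cast this
    have hgy : g (((y ^ 2 : (𝓞 K)ˣ) : 𝓞 K) : K) = (g y) ^ 2 := by
      rw [← map_pow]
      congr 1
    have hgy2 : (g y) ^ 2 = (a + b * Real.sqrt D) / 2 := by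
      rw [← hgy, hab, map_div₀, map_add, map_mul, map_intCast, map_intCast, hgs, map_ofNat]
    have hy0 : g y ≠ 0 := by
      rw [map_ne_zero]
      exact Units.coe_ne_zero y
    have hlog2 : Real.log ((g y) ^ 2) = 2 * Units.regulator K := by
      rw [← sq_abs, Real.log_pow, hy]
      norm_num
    have hpos : 0 < (g y) ^ 2 := by positivity
    have hgt : 1 < (g y) ^ 2 := by
      rw [← Real.log_pos_iff hpos.le, hlog2]
      linarith
    have heqr : (a : ℝ) ^ 2 - D * b ^ 2 = 4 := by exact_mod_cast heq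
    have hinv : (g y) ^ 2 * ((a - b * Real.sqrt D) / 2) = 1 := by
      rw [hgy2]
      linear_combination heqr / 4 - (b : ℝ) ^ 2 / 4 * hD2
    have hcpos : 0 < (a - b * Real.sqrt D) / 2 := by
      by_contra hneg
      nlinarith
    have hclt : (a - b * Real.sqrt D) / 2 < 1 := by
      by_contra hneg
      nlinarith
    have hb : 0 < b := by
      by_contra hneg
      have : (b : ℝ) ≤ 0 := by exact_mod_cast (not_lt.1 hneg)
      have : (b : ℝ) * Real.sqrt D ≤ 0 := mul_nonpos_of_nonpos_of_nonneg this hsq.le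
      rw [hgy2] at hgt
      linarith
    have ha : 0 < a := by
      have : (0 : ℝ) < a := by
        rw [hgy2] at hgt
        linarith
      exact_mod_cast this
    have hub := hF.min a b heq hb
    have hta : t ≤ a := by
      have h9 : t ^ 2 ≤ a ^ 2 := by
        have h10 : u ^ 2 ≤ b ^ 2 := by
          have := hF.pu
          nlinarith
        have h11 : (D : ℤ) * u ^ 2 ≤ D * b ^ 2 := mul_le_mul_of_nonneg_left h10 (by positivity)
        have := hF.eq
        linarith
      have := hF.pt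
      nlinarith
    rw [← hlog2]
    apply Real.log_le_log (by linarith)
    rw [hgy2, eps]
    have h12 : (t : ℝ) ≤ a := by exact_mod_cast hta
    have h13 : (u : ℝ) ≤ b := by exact_mod_cast hub
    have h14 : (u : ℝ) * Real.sqrt D ≤ b * Real.sqrt D := mul_le_mul_of_nonneg_right h13 hsq.le
    linarith
  -- the exponent
  have habs : Real.log (eps D t u) = (|n| : ℤ) * Units.regulator K := by
    rw [← abs_of_pos hlog, hn, abs_mul, hη]
    push_cast
    rfl
  have hn1 : 0 < |n| := by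
    by_contra h0
    have : |n| ≤ 0 := not_lt.1 h0
    have h00 : |n| = 0 := le_antisymm this (abs_nonneg n)
    rw [h00] at habs
    push_cast at habs
    rw [habs] at hlog
    linarith
  have hn2 : |n| ≤ 2 := by
    by_contra h3
    have h4 : (3 : ℤ) ≤ |n| := by omega
    have h5 : (3 : ℝ) ≤ (|n| : ℤ) := by exact_mod_cast h4
    rw [habs] at hle
    nlinarith
  have hn3 : |n| = (n.natAbs : ℤ) := Int.abs_eq_natAbs n
  refine ⟨n.natAbs, by omega, ?_⟩
  rw [habs, hn3, Int.cast_natCast]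

end field

end RUnit

theorem stRUnit : StRUnit := by
  intro K _ _ s D t u hK hs hD _ h1 hF
  exact ⟨RUnit.torsionOrder_eq hK hD h1 hs, RUnit.nrReal hK hD h1 hs, RUnit.nrComplex hK hD h1 hs,
    RUnit.main hK hD h1 hs t u hF⟩

end LO

end Pool.Agent.Lib.MP_7c5fb9_nt
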