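import Pool.Agent.Lib.MP_7c5fb9_nt.LO.KR.Rt

set_option autoImplicit false

/-! (Rot) symbols and rotations. -/

namespace Pool.Agent.Lib.MP_7c5fb9_nt

namespace LO

open KR

theorem cnt1 (l : List (Fin 3)) :
    (l.map fun a => ((![1, -1, 1] : Fin 3 → ℤ) a : ZMod 3)).prod = (-1) ^ l.count 1 := by
  induction l with
  | nil => rfl
  | cons a l ih =>
    rw [List.map_cons, List.prod_cons, ih, List.count_cons, pow_add, mul_comm]
    congr 1
    revert a
    decide

theorem cnt0 (l : List (Fin 3)) :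
    (l.map fun a => ((![-1, 1, 1] : Fin 3 → ℤ) a : ZMod 3)).prod = (-1) ^ l.count 0 := by
  induction l with
  | nil => rfl
  | cons a l ih =>
    rw [List.map_cons, List.prod_cons, ih, List.count_cons, pow_add, mul_comm]
    congr 1
    revert a
    decide

theorem cnt12 (l : List (Fin 3)) :
    (l.map fun a => ((![1, -1, -1] : Fin 3 → ℤ) a : ZMod 3)).prod =
      (-1) ^ (l.count 1 + l.count 2) := by
  induction l with
  | nil => rfl
  | cons a l ih =>
    rw [List.map_cons, List.prod_cons, ih, List.count_cons, List.count_cons,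
      show l.count 1 + (if a == 1 then 1 else 0) + (l.count 2 + if a == 2 then 1 else 0) =
        (l.count 1 + l.count 2) + ((if a == 1 then 1 else 0) + if a == 2 then 1 else 0) by ring,
      pow_add _ (l.count 1 + l.count 2), mul_comm]
    congr 1
    revert a
    decide

/-- (Rot) -/
theorem stRot (_hRH : StRH) (hVOne : StVOne) : StRot := by
  intro m d v hv hF l hl
  have hA := (lev_iff m v).mp hv.mf
  have hF' := (fil_iff m (d + 1) v hA).mp hF
  match l, hl with
  | i :: t, hl =>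
    have ht : t.length = d := by simpa using hl
    have gen : ∀ (h : Mat) (σ : Fin 3 → Fin 3) (e : Fin 3 → ℤ), ¬ (3 : ℤ) ∣ h.det →
        (∀ a, ∃ N : Mt, h.adjugate * qg a * h =
          h.det • ((1 : Mt) + (3 : ℤ) • e a • J (σ a)) + (9 : ℤ) • N) →
        sym (Rt h v) (i :: t) = (t.map fun a => (e a : ZMod 3)).prod *
          ac i (Rt h (Wd (t.map σ) v)) := by
      intro h σ e hh hk
      rw [sym_cons, Rt_eq, Wd_R' hh σ e hk t v (by rwa [ht])]
      obtain ⟨c, hc⟩ : ∃ c, c = (t.map fun a => (e a : ZMod 3)).prod := ⟨_, rfl⟩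
      obtain ⟨g, hg⟩ : ∃ g, g = R h (Wd (t.map σ) v) := ⟨_, rfl⟩
      rw [← hc, ← hg, Rt_eq, ← hg]
      clear hc hg
      unfold ac
      simp only [Pi.smul_apply, smul_eq_mul]
      fin_cases i <;> simp <;> ring
    have hone : ∀ σ : Fin 3 → Fin 3, MF m (Wd (t.map σ) v) ∧ WR (Wd (t.map σ) v) ∧
        LO.Fil 1 (Wd (t.map σ) v) := by
      intro σ
      have h1 : Wd (t.map σ) v ∈ KR.Fil m 1 := Wd_fil (n := d) (k := 1)
        (by rwa [add_comm]) _ (by simpa using ht)
      have h2 := KK_Wd hv (t.map σ)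
      exact ⟨h2.mf, h2.wr, (fil_iff m 1 _ (Wd_A hA _)).mpr h1⟩
    have fin : ∀ {P : Fin 3 → Prop}, P 0 → P 1 → P 2 → ∀ a, P a := by
      intro P h0 h1 h2 a
      fin_cases a
      · exact h0
      · exact h1
      · exact h2
    obtain ⟨i0, i1, i2⟩ : (Equiv.swap (1 : Fin 3) 2) 0 = 0 ∧ (Equiv.swap (1 : Fin 3) 2) 1 = 2 ∧
      (Equiv.swap (1 : Fin 3) 2) 2 = 1 := by decide
    refine ⟨?_, ?_, ?_⟩
    · rw [gen mr (Equiv.swap 1 2) ![1, -1, 1] (by decide) (fin ⟨0, by decide +kernel⟩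
        ⟨0, by decide +kernel⟩ ⟨0, by decide +kernel⟩), cnt1, List.map_cons, sym_cons,
        List.count_cons, pow_add]
      obtain ⟨h1, h2, h3⟩ := hone (Equiv.swap 1 2)
      obtain ⟨-, -, -, -, ⟨r0, r1, r2⟩, -⟩ := hVOne m _ h1 h2 h3
      revert i
      refine fin (fun _ => ?_) (fun _ => ?_) (fun _ => ?_)
      · rw [r0, i0]
        simp
      · rw [r1, i1]
        simp
      · rw [r2, i2]
        simp
    · rw [gen mE (Equiv.swap 1 2) ![-1, 1, 1] (by decide) (fin ⟨0, by decide +kernel⟩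
        ⟨0, by decide +kernel⟩ ⟨0, by decide +kernel⟩), cnt0, List.map_cons, sym_cons,
        List.count_cons, pow_add]
      obtain ⟨h1, h2, h3⟩ := hone (Equiv.swap 1 2)
      obtain ⟨-, -, -, -, -, ⟨r0, r1, r2⟩, -⟩ := hVOne m _ h1 h2 h3
      revert i
      refine fin (fun _ => ?_) (fun _ => ?_) (fun _ => ?_)
      · rw [r0, i0]
        simp
      · rw [r1, i1]
        simp
      · rw [r2, i2]
        simp
    · rw [gen mT ![2, 0, 1] ![1, -1, -1] (by decide) (fin ⟨!![0, 1; 0, 0], by decide +kernel⟩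
        ⟨!![0, 1; 0, 0], by decide +kernel⟩ ⟨!![1, 1; 0, -1], by decide +kernel⟩), cnt12,
        List.map_cons, sym_cons, List.count_cons, List.count_cons]
      obtain ⟨h1, h2, h3⟩ := hone ![2, 0, 1]
      obtain ⟨-, -, -, -, -, -, ⟨r0, r1, r2⟩⟩ := hVOne m _ h1 h2 h3
      revert i
      refine fin (fun _ => ?_) (fun _ => ?_) (fun _ => ?_)
      · rw [r0]
        simp
      · rw [r1]
        simp [pow_add]
      · rw [r2]
        simp [pow_add]

end LO

end Pool.Agent.Lib.MP_7c5fb9_nt
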