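import Pool.Agent.Lib.MP_7c5fb9_nt.LO.KR.W

set_option autoImplicit false

/-! (Sym) symbols are symmetric and harmonic. -/

namespace Pool.Agent.Lib.MP_7c5fb9_nt

namespace LO

open KR

/-- (Sym) -/
theorem stSym (_hRH : StRH) (hVOne : StVOne) (hFirst : StFirst) : StSym := by
  intro m d v hv hF
  have hA := (lev_iff m v).mp hv.mf
  have hF' := (fil_iff m (d + 1) v hA).mp hF
  -- the first order lemma
  have first : ∀ l : List (Fin 3), l.length + 1 = d →
      (∀ i j, ac i (X j (Wd l v)) = ac j (X i (Wd l v))) ∧ ∑ i, ac i (X i (Wd l v)) = 0 := by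
    intro l hl
    have h1 : Wd l v ∈ KR.Fil m 2 := Wd_fil (n := l.length) (k := 2)
      (by rwa [show 2 + l.length = d + 1 by omega]) l rfl
    have h2 := hFirst m (Wd l v) (KK_Wd hv l) ((fil_iff m 2 _ (Wd_A hA l)).mpr h1)
    simpa only [Xd_eq] using h2
  -- permutations of the tail
  have tail : ∀ (i : Fin 3) (l l' : List (Fin 3)), l.length = d → l.Perm l' →
      sym v (i :: l) = sym v (i :: l') := by
    intro i l l' hl hp
    rw [sym_cons, sym_cons, Wd_perm_apply hF' hp hl]
  -- the head
  have head : ∀ (i j : Fin 3) (l : List (Fin 3)), l.length + 1 = d →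
      sym v (i :: j :: l) = sym v (j :: i :: l) := by
    intro i j l hl
    rw [sym_cons, sym_cons, Wd_cons, Wd_cons, Module.End.mul_apply, Module.End.mul_apply]
    exact (first l hl).1 i j
  refine ⟨?_, ?_, ?_⟩
  · intro l l' hl hp
    match l, l', hl, hp with
    | [], _, hl, _ => simp at hl
    | i :: t, [], _, hp => exact absurd hp.length_eq (by simp)
    | i :: t, i' :: t', hl, hp =>
      have ht : t.length = d := by simpa using hl
      by_cases hii : i = i'
      · subst hii
        exact tail i t t' ht hp.cons_inv
      · have hmem : i' ∈ t := by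
          have : i' ∈ i :: t := hp.mem_iff.mpr (by simp)
          rcases List.mem_cons.mp this with h | h
          · exact absurd h.symm hii
          · exact h
        have hs := List.perm_cons_erase hmem
        have hsl : (t.erase i').length + 1 = d := by
          have := hs.length_eq
          rw [List.length_cons] at this
          omega
        have h1 : (i :: t.erase i').Perm t' := by
          have h2 : (i' :: i :: t.erase i').Perm (i' :: t') :=
            (List.Perm.swap i i' _).trans ((hs.symm.cons i).trans hp)
          exact h2.cons_inv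
        rw [tail i t _ ht hs, head i i' _ hsl]
        exact tail i' _ _ (by simpa using hsl) h1
  · intro l hl
    have h1 : ∀ i : Fin 3, sym v (i :: i :: l) = ac i (X i (Wd l v)) := by
      intro i
      rw [sym_cons, Wd_cons, Module.End.mul_apply]
    simp only [h1]
    exact (first l hl).2
  · intro h0
    refine (fil_iff m d v hA).mpr (mem_Fil_of_words d v hA fun l hl => ?_)
    have h1 : Wd l v ∈ KR.Fil m 1 := Wd_fil (n := l.length) (k := 1)
      (by rwa [show 1 + l.length = d + 1 by omega]) l rfl
    have h2 := KK_Wd hv l
    refine (hVOne m (Wd l v) h2.mf h2.wr ((fil_iff m 1 _ (Wd_A hA l)).mpr h1)).2.2.2.1 ?_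
    intro i
    rw [← sym_cons]
    exact h0 _ (by simp [hl])

end LO

end Pool.Agent.Lib.MP_7c5fb9_nt
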