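import Mathlib
import Pool.Agent.Lib.MP_7c5fb9_nt.LO.Stmts

set_option autoImplicit false

/-!
# Level one: symbols of functions of forms
-/

namespace Pool.Agent.Lib.MP_7c5fb9_nt

namespace LO

namespace TorSymAux

theorem xd_zero (i : Fin 3) : Xd i 0 = 0 := by
  funext M
  simp [Xd]

theorem xd_neg (i : Fin 3) (v : Mat → ZMod 3) : Xd i (-v) = -Xd i v := by
  funext M
  simp only [Xd, Pi.neg_apply]
  ring

theorem fil_zero (d : ℕ) : Fil d 0 := by
  induction d with
  | zero => rfl
  | succ d ih =>
    intro i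
    rw [xd_zero]
    exact ih

theorem foldr_zero (l : List (Fin 3)) : l.foldr Xd 0 = 0 := by
  induction l with
  | nil => rfl
  | cons i l ih => rw [List.foldr_cons, ih, xd_zero]

theorem foldr_neg (l : List (Fin 3)) (v : Mat → ZMod 3) :
    l.foldr Xd (-v) = -l.foldr Xd v := by
  induction l with
  | nil => rfl
  | cons i l ih => rw [List.foldr_cons, ih, xd_neg, List.foldr_cons]

theorem ac_zero (i : Fin 3) : ac i 0 = 0 := by
  fin_cases i <;> simp [ac]

theorem ac_neg (i : Fin 3) (v : Mat → ZMod 3) : ac i (-v) = -ac i v := by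
  fin_cases i <;> simp [ac] <;> ring

theorem sym_neg (v : Mat → ZMod 3) (l : List (Fin 3)) : sym (-v) l = -sym v l := by
  cases l with
  | nil => simp [sym]
  | cons i l => rw [sym, foldr_neg, ac_neg, sym]

/-- The difference operator of a matrix. -/
def Dh (h : Mat) (v : Mat → ZMod 3) (M : Mat) : ZMod 3 := v (M * h) - v M

theorem xd_eq (i : Fin 3) : Xd i = Dh (gm i) := rfl

theorem three : (3 : ZMod 3) = 0 := rfl

theorem dh_three (h : Mat) (v : Mat → ZMod 3) : Dh h (Dh h (Dh h v)) = Dh (h ^ 3) v := by
  funext M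
  unfold Dh
  rw [show h ^ 3 = h * h * h by rw [pow_succ, pow_two], ← mul_assoc, ← mul_assoc]
  linear_combination (v (M * h) - v (M * h * h)) * three

theorem dh_iter (h : Mat) (k : ℕ) (v : Mat → ZMod 3) :
    (Dh h)^[3 ^ k] v = Dh (h ^ 3 ^ k) v := by
  induction k generalizing v with
  | zero => simp
  | succ k ih =>
    rw [pow_succ, Function.iterate_mul]
    show (Dh h)^[3 ^ k] ((Dh h)^[3 ^ k] ((Dh h)^[3 ^ k] v)) = _
    rw [ih, ih, ih, dh_three, ← pow_mul]

theorem pow_level (x : Mat) (k : ℕ) : ∃ N : Mat,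
    (1 + (3 : ℤ) • x) ^ 3 ^ k = 1 + (3 : ℤ) ^ (k + 1) • N := by
  induction k with
  | zero => exact ⟨x, by simp⟩
  | succ k ih =>
    obtain ⟨N, hN⟩ := ih
    refine ⟨N + (3 : ℤ) ^ (k + 1) • N ^ 2 + ((3 : ℤ) ^ (k + 1) * 3 ^ k) • N ^ 3, ?_⟩
    rw [pow_succ 3 k, pow_mul, hN]
    have h1 : ∀ a : Mat, (1 + a) ^ 3 = 1 + (3 : ℤ) • a + (3 : ℤ) • a ^ 2 + a ^ 3 := by
      intro a
      noncomm_ring
    rw [h1, smul_pow, smul_pow]
    simp only [smul_add, smul_smul]
    have h2 : ((3 : ℤ) ^ (k + 1)) ^ 3 = 3 ^ (k + 1 + 1) * (3 ^ (k + 1) * 3 ^ k) := by ring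
    have h3 : (3 : ℤ) * 3 ^ (k + 1) = 3 ^ (k + 1 + 1) := by ring
    have h4 : (3 : ℤ) * (3 ^ (k + 1)) ^ 2 = 3 ^ (k + 1 + 1) * 3 ^ (k + 1) := by ring
    rw [h2, h3, h4]
    simp only [add_assoc]

theorem gm_eq : gm 1 = 1 + (3 : ℤ) • xm 1 := by
  ext i j
  fin_cases i <;> fin_cases j <;> simp [gm, xm]

theorem iter_zero {m : ℕ} {v : Mat → ZMod 3} (hm : 1 ≤ m) (h : MF m v) :
    (Xd 1)^[3 ^ (m - 1)] v = 0 := by
  rw [xd_eq, dh_iter, gm_eq]
  obtain ⟨N, hN⟩ := pow_level (xm 1) (m - 1)
  rw [hN, Nat.sub_add_cancel hm]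
  funext M
  show v (M * (1 + (3 : ℤ) ^ m • N)) - v M = 0
  rw [mul_add, mul_one, mul_smul_comm, h.per, sub_self]

theorem mf_zero {v : Mat → ZMod 3} (h : MF 0 v) : v = 0 := by
  funext M
  have h1 := h.per 0 M
  rw [pow_zero, one_smul, zero_add] at h1
  rw [h1]
  exact h.supp 0 (by simp)

theorem foldr_rep (d : ℕ) (i : Fin 3) (v : Mat → ZMod 3) :
    (List.replicate d i).foldr Xd v = (Xd i)^[d] v := by
  induction d with
  | zero => rfl
  | succ d ih => rw [List.replicate_succ, List.foldr_cons, ih, Function.iterate_succ_apply']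

theorem iter_of_zero (d : ℕ) (i : Fin 3) : (Xd i)^[d] 0 = 0 := by
  rw [← foldr_rep, foldr_zero]

theorem length_eq (l : List (Fin 3)) : l.count 0 + l.count 1 + l.count 2 = l.length := by
  induction l with
  | nil => rfl
  | cons i l ih =>
    fin_cases i <;> simp <;> omega

theorem count_swap (l : List (Fin 3)) : (l.map (Equiv.swap (1 : Fin 3) 2)).count 1 = l.count 2 ∧
    (l.map (Equiv.swap (1 : Fin 3) 2)).count 2 = l.count 1 ∧
    (l.map (Equiv.swap (1 : Fin 3) 2)).count 0 = l.count 0 := by
  have h := fun a => List.count_map_of_injective l (Equiv.swap (1 : Fin 3) 2)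
    (Equiv.swap (1 : Fin 3) 2).injective a
  refine ⟨?_, ?_, ?_⟩
  · have := h 2
    rwa [Equiv.swap_apply_right] at this
  · have := h 1
    rwa [Equiv.swap_apply_left] at this
  · have := h 0
    rwa [Equiv.swap_apply_of_ne_of_ne (by decide) (by decide)] at this

theorem perm_std {l : List (Fin 3)} (h : l.count 0 = 0) :
    l.Perm (List.replicate (l.count 1) 1 ++ List.replicate (l.count 2) 2) := by
  rw [List.perm_iff_count]
  intro a
  fin_cases a
  · simpa [List.count_append, List.count_replicate] using h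
  · simp [List.count_append, List.count_replicate]
  · simp [List.count_append, List.count_replicate]

theorem eq_zero_of_neg {x : ZMod 3} (h : x = -x) : x = 0 := by
  revert h
  revert x
  decide

end TorSymAux

open TorSymAux in
theorem stTorSym (hSym : StSym) (hRot : StRot) (_hVOne : StVOne) : StTorSym := by
  intro m d v hK hT hF hnF
  obtain ⟨hperm, htr, hnd⟩ := hSym m d v hK hF
  have hrot := hRot m d v hK hF
  have hr : ∀ l : List (Fin 3), l.length = d + 1 →
      sym v l = -((-1) ^ l.count 1 * sym v (l.map (Equiv.swap 1 2))) := by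
    intro l hl
    have := (hrot l hl).1
    rwa [hT.r] at this
  have hE : ∀ l : List (Fin 3), l.length = d + 1 →
      sym v l = (-1) ^ l.count 0 * sym v (l.map (Equiv.swap 1 2)) := by
    intro l hl
    have := (hrot l hl).2.1
    rw [hT.E, sym_neg] at this
    exact neg_injective this
  -- lists containing zero
  have h0 : ∀ l : List (Fin 3), l.length = d + 1 → l.count 0 ≠ 0 → sym v l = 0 := by
    intro l hl h
    have hmem : (0 : Fin 3) ∈ l := by
      rw [← List.count_pos_iff]
      omega
    have hp : l.Perm (l.erase 0 ++ [0]) :=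
      (List.perm_cons_erase hmem).trans (List.perm_append_singleton _ _).symm
    rw [hperm l _ hl hp]
    have hlen := hp.length_eq
    rcases hle : l.erase 0 with _ | ⟨i, l'⟩
    · rw [hle] at hlen
      have hlen' : ([] ++ [(0 : Fin 3)]).length = d + 1 := by rw [← hlen, hl]
      have h1 := hr _ hlen'
      simp only [List.nil_append, List.map_cons, List.map_nil] at h1 ⊢
      rw [Equiv.swap_apply_of_ne_of_ne (by decide) (by decide)] at h1
      simp only [List.count_singleton] at h1
      norm_num at h1
      exact eq_zero_of_neg h1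
    · rw [List.cons_append, sym, List.foldr_append]
      show ac i (l'.foldr Xd (Xd 0 v)) = 0
      rw [hT.g, foldr_zero, ac_zero]
  -- parity
  have hpar : ∀ l : List (Fin 3), l.length = d + 1 → l.count 0 = 0 → l.count 1 % 2 = 0 →
      sym v l = 0 := by
    intro l hl h1 h2
    have e1 := hr l hl
    have e2 := hE l hl
    rw [h1, pow_zero, one_mul] at e2
    rw [← e2, (Nat.even_iff.2 h2).neg_one_pow, one_mul] at e1
    exact eq_zero_of_neg e1
  have hpar2 : ∀ l : List (Fin 3), l.length = d + 1 → l.count 0 = 0 → l.count 2 % 2 = 0 →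
      sym v l = 0 := by
    intro l hl h1 h2
    have e2 := hE l hl
    rw [h1, pow_zero, one_mul] at e2
    obtain ⟨c1, c2, c0⟩ := count_swap l
    rw [e2]
    exact hpar _ (by rw [List.length_map, hl]) (by rw [c0, h1]) (by rw [c1, h2])
  -- standard lists
  obtain ⟨a, ha⟩ : ∃ a : ℕ → ZMod 3, ∀ j, a j =
      sym v (List.replicate (d + 1 - j) 1 ++ List.replicate j 2) := ⟨_, fun _ => rfl⟩
  have hcount0 : ∀ i j : ℕ,
      (List.replicate i (1 : Fin 3) ++ List.replicate j 2).count 0 = 0 := by
    intro i j
    simp [List.count_append, List.count_replicate]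
  have hcount1 : ∀ i j : ℕ,
      (List.replicate i (1 : Fin 3) ++ List.replicate j 2).count 1 = i := by
    intro i j
    simp [List.count_append, List.count_replicate]
  have hcount2 : ∀ i j : ℕ,
      (List.replicate i (1 : Fin 3) ++ List.replicate j 2).count 2 = j := by
    intro i j
    simp [List.count_append, List.count_replicate]
  have hlen : ∀ j, j ≤ d + 1 →
      (List.replicate (d + 1 - j) (1 : Fin 3) ++ List.replicate j 2).length = d + 1 := by
    intro j hj
    simp
    omega
  have hstd : ∀ l : List (Fin 3), l.length = d + 1 → l.count 0 = 0 → sym v l = a (l.count 2) := by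
    intro l hl h
    have h1 := length_eq l
    rw [ha, hperm l _ hl (perm_std h)]
    congr 3
    omega
  have hstep : ∀ j, j + 2 ≤ d + 1 → a (j + 2) = -a j := by
    intro j hj
    have h1 := htr (List.replicate (d - 1 - j) 1 ++ List.replicate j 2) (by simp; omega)
    rw [Fin.sum_univ_three] at h1
    have hl : ∀ i : Fin 3, (i :: i :: (List.replicate (d - 1 - j) 1 ++
        List.replicate j 2)).length = d + 1 := by
      intro i
      simp
      omega
    rw [h0 _ (hl 0) (by simp [List.count_cons]), zero_add] at h1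
    rw [hstd _ (hl 1) (by simp [List.count_cons, List.count_append, List.count_replicate]),
      hstd _ (hl 2) (by simp [List.count_cons, List.count_append, List.count_replicate])] at h1
    have e1 : (1 :: 1 :: (List.replicate (d - 1 - j) (1 : Fin 3) ++
        List.replicate j 2)).count 2 = j := by
      simp [List.count_cons, List.count_append, List.count_replicate]
    have e2 : (2 :: 2 :: (List.replicate (d - 1 - j) (1 : Fin 3) ++
        List.replicate j 2)).count 2 = j + 2 := by
      simp [List.count_cons, List.count_append, List.count_replicate]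
    rw [e1, e2] at h1
    linear_combination h1
  have hodd : ∀ i, 2 * i + 1 ≤ d + 1 → a (2 * i + 1) = (-1) ^ i * a 1 := by
    intro i
    induction i with
    | zero => intro _; simp
    | succ i ih =>
      intro hi
      rw [show 2 * (i + 1) + 1 = 2 * i + 1 + 2 by ring, hstep _ (by omega), ih (by omega),
        pow_succ]
      ring
  have hform : ∀ l : List (Fin 3), l.length = d + 1 → sym v l =
      if l.count 0 = 0 ∧ l.count 2 % 2 = 1 then (-1) ^ (l.count 2 / 2) * a 1 else 0 := by
    intro l hl
    split_ifs with h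
    · rw [hstd l hl h.1]
      have h1 := length_eq l
      have h2 : l.count 2 = 2 * (l.count 2 / 2) + 1 := by omega
      conv_lhs => rw [h2]
      rw [hodd _ (by omega)]
    · by_cases h1 : l.count 0 = 0
      · exact hpar2 l hl h1 (by
          have : ¬ l.count 2 % 2 = 1 := fun h2 => h ⟨h1, h2⟩
          omega)
      · exact h0 l hl h1
  have hB : a 1 ≠ 0 := by
    intro hB
    refine hnF (hnd fun l hl => ?_)
    rw [hform l hl, hB]
    simp
  -- `d` is odd
  have hd1 : d % 2 = 1 := by
    by_contra hd
    refine hB ?_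
    rw [ha]
    refine hpar _ (hlen 1 (by omega)) (hcount0 _ _) ?_
    rw [hcount1]
    omega
  have hd4 : d % 4 = 1 := by
    -- the symmetry
    have h1 : a d = a 1 := by
      rw [ha d, hE _ (hlen d (by omega)), hcount0, pow_zero, one_mul]
      obtain ⟨c1, c2, c0⟩ := count_swap (List.replicate (d + 1 - d) 1 ++ List.replicate d 2)
      rw [hstd _ (by rw [List.length_map]; exact hlen d (by omega)) (by rw [c0, hcount0]), c2,
        hcount1]
      congr 1
      omega
    have h2 : d = 2 * (d / 2) + 1 := by omega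
    rw [h2, hodd _ (by omega)] at h1
    by_contra hd
    have h3 : (-1 : ZMod 3) ^ (d / 2) = -1 := by
      refine Odd.neg_one_pow ?_
      rw [Nat.odd_iff]
      omega
    rw [h3, neg_one_mul] at h1
    exact hB (eq_zero_of_neg h1.symm)
  refine ⟨hd4, ?_, a 1, hB, hform⟩
  -- the bound for the degree
  rcases Nat.eq_zero_or_pos m with rfl | hm
  · refine absurd ?_ hnF
    rw [mf_zero hK.mf]
    exact fil_zero d
  · by_contra hcon
    rw [not_lt] at hcon
    have h1 : sym v (2 :: List.replicate d 1) = a 1 := by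
      rw [hstd _ (by simp) (by simp [List.count_cons, List.count_replicate])]
      congr 1
      simp [List.count_cons, List.count_replicate]
    rw [sym, foldr_rep] at h1
    refine hB ?_
    rw [← h1, show d = (d - 3 ^ (m - 1)) + 3 ^ (m - 1) by omega, Function.iterate_add_apply,
      iter_zero hm hK.mf, iter_of_zero, ac_zero]

end LO

end Pool.Agent.Lib.MP_7c5fb9_nt
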