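import Pool.Agent.Lib.MP_7c5fb9_nt.LO.KR.W

set_option autoImplicit false

/-! (VOne) functions of level three. -/

namespace Pool.Agent.Lib.MP_7c5fb9_nt

namespace LO

open KR

namespace V1

/-- The potential of a row. -/
def ph (x y z a b : ZMod 3) : ZMod 3 :=
  if a = 0 then 0 else if b = 0 then x else if a = b then z else y

/-- The function with the values `x, y, z` at `1, mT', mT`. -/
def Vv (x y z a b c d : ZMod 3) : ZMod 3 :=
  if a * d - b * c = 0 then 0 else ph x y z a b - ph x y z c d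

/-- The values at `adj N * M`. -/
def Va (N : Mat) (x y z a b c d : ZMod 3) : ZMod 3 :=
  Vv x y z ((N 1 1 : ℤ) * a - (N 0 1 : ℤ) * c) ((N 1 1 : ℤ) * b - (N 0 1 : ℤ) * d)
    ((N 0 0 : ℤ) * c - (N 1 0 : ℤ) * a) ((N 0 0 : ℤ) * d - (N 1 0 : ℤ) * b)

theorem chk2 : ∀ x y z a b c d : ZMod 3, (L2.map fun N => Va N x y z a b c d).sum = 0 := by
  decide +kernel

theorem chk7 : ∀ x y z a b c d : ZMod 3,
    (L7.map fun N => Va N x y z a b c d).sum - 2 * Vv x y z a b c d = 0 := by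
  decide +kernel

theorem three (a : ZMod 3) : a = 0 ∨ a = 1 ∨ a = -1 := by
  revert a
  decide

/-- Reduction modulo three. -/
theorem redc (hKOne : StKOne) {m : ℕ} {v : Mat → ZMod 3} (hv : MF m v) (hF : Fil 1 v)
    (M N : Mat) : v (M + (3 : ℤ) • N) = v M := by
  by_cases hd : (3 : ℤ) ∣ M.det
  · rw [hv.supp M hd]
    refine hv.supp _ ?_
    have : (M + (3 : ℤ) • N).det = M.det + 3 * (M 0 0 * N 1 1 + M 1 1 * N 0 0 -
        M 0 1 * N 1 0 - M 1 0 * N 0 1 + 3 * (N 0 0 * N 1 1 - N 0 1 * N 1 0)) := by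
      rw [Matrix.det_fin_two, Matrix.det_fin_two]
      simp only [Matrix.add_apply, Matrix.smul_apply, smul_eq_mul]
      ring
    rw [this]
    exact dvd_add hd (dvd_mul_right _ _)
  · have hco : IsCoprime ((3 : ℤ) ^ m) M.det := by
      refine IsCoprime.pow_left ?_
      exact (Int.prime_three.coprime_iff_not_dvd).mpr hd
    obtain ⟨q, δ, hq⟩ := hco
    have h1 := hKOne m 1 0 ((1 : ℤ) • (1 : Mat) + (3 : ℤ) ^ 1 • (δ • (M.adjugate * N))) v le_rfl
      ⟨1, δ • (M.adjugate * N), by decide, rfl⟩ hv (by simpa using hF)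
    have h2 : Rt ((1 : ℤ) • (1 : Mat) + (3 : ℤ) ^ 1 • (δ • (M.adjugate * N))) v - v = 0 := h1
    have h3 := congrFun (sub_eq_zero.mp h2) M
    rw [← h3]
    unfold Rt
    have h4 : M * ((1 : ℤ) • (1 : Mat) + (3 : ℤ) ^ 1 • (δ • (M.adjugate * N))) =
        (M + (3 : ℤ) • N) + (3 : ℤ) ^ m • (-(3 * q) • N) := by
      rw [mul_add, one_smul, mul_one, pow_one, Matrix.mul_smul, Matrix.mul_smul, ← mul_assoc,
        Matrix.mul_adjugate, Matrix.smul_mul, one_mul, add_assoc, smul_smul, smul_smul, smul_smul,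
        ← add_smul]
      congr 2
      linear_combination 3 * hq
    rw [h4, hv.per]

/-- The formula. -/
theorem form {m : ℕ} {v : Mat → ZMod 3} (hv : MF m v) (hw : WR v)
    (h3 : ∀ M N : Mat, v (M + (3 : ℤ) • N) = v M) (M : Mat) :
    v M = Vv (v 1) (v mT') (v mT) (M 0 0 : ℤ) (M 0 1 : ℤ) (M 1 0 : ℤ) (M 1 1 : ℤ) := by
  have hc : ∀ M M' : Mat, ((M 0 0 : ℤ) : ZMod 3) = (M' 0 0 : ℤ) →
      ((M 0 1 : ℤ) : ZMod 3) = (M' 0 1 : ℤ) → ((M 1 0 : ℤ) : ZMod 3) = (M' 1 0 : ℤ) →
      ((M 1 1 : ℤ) : ZMod 3) = (M' 1 1 : ℤ) → v M = v M' := by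
    intro M M' h00 h01 h10 h11
    rw [ZMod.intCast_eq_intCast_iff_dvd_sub] at h00 h01 h10 h11
    obtain ⟨p, hp⟩ := h00
    obtain ⟨q, hq⟩ := h01
    obtain ⟨r, hr⟩ := h10
    obtain ⟨s, hs⟩ := h11
    have e : M' = M + (3 : ℤ) • !![p, q; r, s] := by
      ext i j
      push_cast at hp hq hr hs
      fin_cases i <;> fin_cases j <;> simp <;> linarith
    rw [e, h3]
  -- the function of the classes
  obtain ⟨w, hwd⟩ : ∃ w : ZMod 3 → ZMod 3 → ZMod 3 → ZMod 3 → ZMod 3, ∀ M : Mat,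
      v M = w (M 0 0 : ℤ) (M 0 1 : ℤ) (M 1 0 : ℤ) (M 1 1 : ℤ) := by
    refine ⟨fun a b c d => v !![(a.val : ℤ), (b.val : ℤ); (c.val : ℤ), (d.val : ℤ)], fun M => ?_⟩
    refine hc _ _ ?_ ?_ ?_ ?_ <;> simp
  have hwi : ∀ a b c d : ℤ, w a b c d = v !![a, b; c, d] := fun a b c d => by rw [hwd]; simp
  have lift : ∀ P : ZMod 3 → ZMod 3 → ZMod 3 → ZMod 3 → Prop, (∀ a b c d : ℤ, P a b c d) →
      ∀ a b c d : ZMod 3, P a b c d := by
    intro P h a b c d
    have := h a.val b.val c.val d.val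
    simpa using this
  have hE : ∀ a b c d : ZMod 3, w (-a) (-b) c d = w a b c d := by
    refine lift _ fun a b c d => ?_
    have h := hw.E !![a, b; c, d]
    have e : mE * !![a, b; c, d] = !![-a, -b; c, d] := by
      ext i j
      fin_cases i <;> fin_cases j <;> simp [mE, Matrix.mul_apply, Fin.sum_univ_two]
    rw [e, ← hwi, ← hwi] at h
    push_cast at h
    exact h
  have hN : ∀ a b c d : ZMod 3, w (-a) (-b) (-c) (-d) = w a b c d := by
    refine lift _ fun a b c d => ?_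
    have h := hv.scal (-1) !![a, b; c, d] (by decide)
    have e : (-1 : ℤ) • !![a, b; c, d] = !![-a, -b; -c, -d] := by
      ext i j
      fin_cases i <;> fin_cases j <;> simp
    rw [e, ← hwi, ← hwi] at h
    push_cast at h
    exact h
  have hE' : ∀ a b c d : ZMod 3, w a b (-c) (-d) = w a b c d := by
    intro a b c d
    rw [← hE, hN]
  have hS : ∀ a b c d : ZMod 3, w c d a b = -w a b c d := by
    have h0 : ∀ a b c d : ZMod 3, w (-c) (-d) a b = -w a b c d := by
      refine lift _ fun a b c d => ?_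
      have h := hw.S !![a, b; c, d]
      have e : mS * !![a, b; c, d] = !![-c, -d; a, b] := by
        ext i j
        fin_cases i <;> fin_cases j <;> simp [mS, Matrix.mul_apply, Fin.sum_univ_two]
      rw [e, ← hwi, ← hwi] at h
      push_cast at h
      exact h
    intro a b c d
    rw [← hE, h0]
  have hU : ∀ a b c d : ZMod 3, w a b c d + w (a - c) (b - d) a b +
      w (-c) (-d) (a - c) (b - d) = 0 := by
    refine lift _ fun a b c d => ?_
    have h := hw.U !![a, b; c, d]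
    have e : mU * !![a, b; c, d] = !![a - c, b - d; a, b] := by
      ext i j
      fin_cases i <;> fin_cases j <;> simp [mU, Matrix.mul_apply, Fin.sum_univ_two] <;> ring
    have e' : mU * mU * !![a, b; c, d] = !![-c, -d; a - c, b - d] := by
      rw [mul_assoc, e]
      ext i j
      fin_cases i <;> fin_cases j <;> simp [mU, Matrix.mul_apply, Fin.sum_univ_two] <;> ring
    rw [e, e', ← hwi, ← hwi, ← hwi] at h
    push_cast at h
    exact h
  have h0 : ∀ a b c d : ZMod 3, a * d - b * c = 0 → w a b c d = 0 := by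
    refine lift (fun a b c d => a * d - b * c = 0 → w a b c d = 0) fun a b c d h => ?_
    rw [hwi]
    refine hv.supp _ ?_
    rw [Matrix.det_fin_two_of]
    have : ((a * d - b * c : ℤ) : ZMod 3) = 0 := by
      push_cast
      exact h
    exact (ZMod.intCast_zmod_eq_zero_iff_dvd _ 3).mp this
  have hx : w 1 0 0 1 = v 1 := by
    have := hwd 1
    simpa using this.symm
  have hy : w 1 (-1) 0 1 = v mT' := by
    have := hwd mT'
    simpa [mT'] using this.symm
  have hz : w 1 1 0 1 = v mT := by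
    have := hwd mT
    simpa [mT] using this.symm
  have key : ∀ b d : ZMod 3, b ≠ d → w 1 b 1 d = w 1 b 0 1 - w 1 d 0 1 := by
    intro b d hbd
    have h := hU 1 b 1 d
    rw [sub_self] at h
    have h5 : w (-1) (-d) 0 (b - d) = w 1 d 0 (b - d) := hE _ _ _ _
    rw [h5, hS 1 b 0 (b - d)] at h
    have h6 : b - d = 1 ∨ b - d = -1 := by
      rcases three (b - d) with h | h | h
      · exact absurd (sub_eq_zero.mp h) hbd
      · exact Or.inl h
      · exact Or.inr h
    rcases h6 with h6 | h6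
    · rw [h6] at h
      linear_combination h
    · have h7 : ∀ p : ZMod 3, w 1 p 0 (-1) = w 1 p 0 1 := fun p => by
        have := hE' 1 p 0 1
        rwa [neg_zero] at this
      rw [h6, h7, h7] at h
      linear_combination h
  -- the first entries are 0 or 1
  have main1 : ∀ b c d : ZMod 3, (c = 0 ∨ c = 1) →
      w 1 b c d = Vv (w 1 0 0 1) (w 1 (-1) 0 1) (w 1 1 0 1) 1 b c d := by
    intro b c d hc
    have hph : ∀ b : ZMod 3, w 1 b 0 1 = ph (w 1 0 0 1) (w 1 (-1) 0 1) (w 1 1 0 1) 1 b := by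
      intro b
      rcases three b with rfl | rfl | rfl
      · simp [ph]
      · simp [ph]
      · simp [ph]
        intro h
        exact absurd h (by decide)
    unfold Vv
    by_cases hdet : 1 * d - b * c = 0
    · rw [if_pos hdet]
      exact h0 _ _ _ _ hdet
    · rw [if_neg hdet]
      rcases hc with rfl | rfl
      · have h8 : ph (w 1 0 0 1) (w 1 (-1) 0 1) (w 1 1 0 1) 0 d = 0 := by simp [ph]
        rw [h8, sub_zero, ← hph]
        rcases three d with rfl | rfl | rfl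
        · exact absurd (by ring) hdet
        · rfl
        · have := hE' 1 b 0 1
          rwa [neg_zero] at this
      · rw [← hph, ← hph]
        refine key b d fun h => hdet ?_
        rw [h]
        ring
  have Vneg1 : ∀ x y z a b c d : ZMod 3, Vv x y z (-a) (-b) c d = Vv x y z a b c d := by
    decide +kernel
  have Vneg2 : ∀ x y z a b c d : ZMod 3, Vv x y z a b (-c) (-d) = Vv x y z a b c d := by
    decide +kernel
  have Vsw : ∀ x y z a b c d : ZMod 3, Vv x y z c d a b = -Vv x y z a b c d := by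
    decide +kernel
  have main2 : ∀ b c d : ZMod 3,
      w 1 b c d = Vv (w 1 0 0 1) (w 1 (-1) 0 1) (w 1 1 0 1) 1 b c d := by
    intro b c d
    rcases three c with rfl | rfl | rfl
    · exact main1 _ _ _ (Or.inl rfl)
    · exact main1 _ _ _ (Or.inr rfl)
    · have h1 := hE' 1 b 1 (-d)
      have h2 := Vneg2 (w 1 0 0 1) (w 1 (-1) 0 1) (w 1 1 0 1) 1 b 1 (-d)
      rw [neg_neg] at h1 h2
      rw [h1, h2]
      exact main1 _ _ _ (Or.inr rfl)
  have main3 : ∀ a b c d : ZMod 3, a ≠ 0 →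
      w a b c d = Vv (w 1 0 0 1) (w 1 (-1) 0 1) (w 1 1 0 1) a b c d := by
    intro a b c d ha
    rcases three a with rfl | rfl | rfl
    · exact absurd rfl ha
    · exact main2 _ _ _
    · have h1 := hE 1 (-b) c d
      have h2 := Vneg1 (w 1 0 0 1) (w 1 (-1) 0 1) (w 1 1 0 1) 1 (-b) c d
      rw [neg_neg] at h1 h2
      rw [h1, h2]
      exact main2 _ _ _
  have main4 : ∀ a b c d : ZMod 3,
      w a b c d = Vv (w 1 0 0 1) (w 1 (-1) 0 1) (w 1 1 0 1) a b c d := by
    intro a b c d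
    by_cases ha : a = 0
    · by_cases hc' : c = 0
      · have hdet : a * d - b * c = 0 := by rw [ha, hc']; ring
        rw [h0 _ _ _ _ hdet]
        unfold Vv
        rw [if_pos hdet]
      · rw [hS c d a b, Vsw _ _ _ c d a b, main3 c d a b hc']
    · exact main3 _ _ _ _ ha
  rw [hwd M, main4, hx, hy, hz]

end V1

open V1 in
/-- (VOne) -/
theorem stVOne (hKOne : StKOne) : StVOne := by
  intro m v hv hw hF
  have h3 := redc hKOne hv hF
  have hf := form hv hw h3
  have hadj : ∀ N M : Mat, v (N.adjugate * M) =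
      Va N (v 1) (v mT') (v mT) (M 0 0 : ℤ) (M 0 1 : ℤ) (M 1 0 : ℤ) (M 1 1 : ℤ) := by
    intro N M
    rw [hf (N.adjugate * M), Matrix.adjugate_fin_two]
    unfold Va
    simp only [Matrix.mul_apply, Fin.sum_univ_two, Matrix.of_apply, Matrix.cons_val', Matrix.cons_val_zero,
      Matrix.cons_val_one, Matrix.cons_val_fin_one]
    push_cast
    congr 1 <;> ring
  have hTM : ∀ (L : List Mat) (M : Mat), TM L v M = (L.map fun N =>
      Va N (v 1) (v mT') (v mT) (M 0 0 : ℤ) (M 0 1 : ℤ) (M 1 0 : ℤ) (M 1 1 : ℤ)).sum := by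
    intro L M
    unfold TM
    congr 1
    exact List.map_congr_left fun N _ => hadj N M
  refine ⟨h3, ?_, ?_, ?_, ?_, ?_, ?_⟩
  · ext M
    rw [hTM, chk2]
    rfl
  · ext M
    unfold Lop
    rw [hTM, hf M, chk7]
    rfl
  · intro h
    have e0 := h 0
    have e1 := h 1
    have e2 := h 2
    have hz : ∀ x y z : ZMod 3, x - y - z = 0 → x - y + z = 0 → -x - y + z = 0 →
        x = 0 ∧ y = 0 ∧ z = 0 := by decide
    obtain ⟨hx, hy, hz'⟩ := hz (v 1) (v mT') (v mT) e0 e1 e2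
    ext M
    rw [hf M, hx, hy, hz']
    have : ∀ a b c d : ZMod 3, Vv 0 0 0 a b c d = 0 := by decide +kernel
    exact this _ _ _ _
  · have e1 : Rt mr v 1 = Vv (v 1) (v mT') (v mT) 1 1 (-1) 1 := by
      unfold Rt
      rw [hf]
      simp [mr]
    have e2 : Rt mr v mT' = Vv (v 1) (v mT') (v mT) 2 0 (-1) 1 := by
      unfold Rt
      rw [hf]
      simp [mr, mT', Matrix.mul_apply, Fin.sum_univ_two]
    have e3 : Rt mr v mT = Vv (v 1) (v mT') (v mT) 0 2 (-1) 1 := by
      unfold Rt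
      rw [hf]
      simp [mr, mT, Matrix.mul_apply, Fin.sum_univ_two]
    change Rt mr v 1 - Rt mr v mT' - Rt mr v mT = -(v 1 - v mT' - v mT) ∧
      Rt mr v 1 - Rt mr v mT' + Rt mr v mT = -v 1 - v mT' + v mT ∧
      -Rt mr v 1 - Rt mr v mT' + Rt mr v mT = -(v 1 - v mT' + v mT)
    rw [e1, e2, e3]
    have : ∀ x y z : ZMod 3,
        Vv x y z 1 1 (-1) 1 - Vv x y z 2 0 (-1) 1 - Vv x y z 0 2 (-1) 1 = -(x - y - z) ∧
        Vv x y z 1 1 (-1) 1 - Vv x y z 2 0 (-1) 1 + Vv x y z 0 2 (-1) 1 = -x - y + z ∧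
        -Vv x y z 1 1 (-1) 1 - Vv x y z 2 0 (-1) 1 + Vv x y z 0 2 (-1) 1 = -(x - y + z) := by
      decide +kernel
    exact this _ _ _
  · have e1 : Rt mE v 1 = Vv (v 1) (v mT') (v mT) (-1) 0 0 1 := by
      unfold Rt
      rw [hf]
      simp [mE]
    have e2 : Rt mE v mT' = Vv (v 1) (v mT') (v mT) (-1) (-1) 0 1 := by
      unfold Rt
      rw [hf]
      simp [mE, mT', Matrix.mul_apply, Fin.sum_univ_two]
    have e3 : Rt mE v mT = Vv (v 1) (v mT') (v mT) (-1) 1 0 1 := by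
      unfold Rt
      rw [hf]
      simp [mE, mT, Matrix.mul_apply, Fin.sum_univ_two]
    change Rt mE v 1 - Rt mE v mT' - Rt mE v mT = v 1 - v mT' - v mT ∧
      Rt mE v 1 - Rt mE v mT' + Rt mE v mT = -(-v 1 - v mT' + v mT) ∧
      -Rt mE v 1 - Rt mE v mT' + Rt mE v mT = -(v 1 - v mT' + v mT)
    rw [e1, e2, e3]
    have : ∀ x y z : ZMod 3,
        Vv x y z (-1) 0 0 1 - Vv x y z (-1) (-1) 0 1 - Vv x y z (-1) 1 0 1 = x - y - z ∧
        Vv x y z (-1) 0 0 1 - Vv x y z (-1) (-1) 0 1 + Vv x y z (-1) 1 0 1 = -(-x - y + z) ∧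
        -Vv x y z (-1) 0 0 1 - Vv x y z (-1) (-1) 0 1 + Vv x y z (-1) 1 0 1 =
          -(x - y + z) := by
      decide +kernel
    exact this _ _ _
  · have e1 : Rt mT v 1 = Vv (v 1) (v mT') (v mT) 1 1 0 1 := by
      unfold Rt
      rw [hf]
      simp [mT]
    have e2 : Rt mT v mT' = Vv (v 1) (v mT') (v mT) 1 0 0 1 := by
      unfold Rt
      rw [hf]
      simp [mT', mT, Matrix.mul_apply, Fin.sum_univ_two]
    have e3 : Rt mT v mT = Vv (v 1) (v mT') (v mT) 1 2 0 1 := by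
      unfold Rt
      rw [hf]
      simp [mT, Matrix.mul_apply, Fin.sum_univ_two]
    change Rt mT v 1 - Rt mT v mT' - Rt mT v mT = -v 1 - v mT' + v mT ∧
      Rt mT v 1 - Rt mT v mT' + Rt mT v mT = -(v 1 - v mT' - v mT) ∧
      -Rt mT v 1 - Rt mT v mT' + Rt mT v mT = -(v 1 - v mT' + v mT)
    rw [e1, e2, e3]
    have : ∀ x y z : ZMod 3,
        Vv x y z 1 1 0 1 - Vv x y z 1 0 0 1 - Vv x y z 1 2 0 1 = -x - y + z ∧
        Vv x y z 1 1 0 1 - Vv x y z 1 0 0 1 + Vv x y z 1 2 0 1 = -(x - y - z) ∧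
        -Vv x y z 1 1 0 1 - Vv x y z 1 0 0 1 + Vv x y z 1 2 0 1 = -(x - y + z) := by
      decide +kernel
    exact this _ _ _

end LO

end Pool.Agent.Lib.MP_7c5fb9_nt
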