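import Pool.Agent.Lib.MP_7c5fb9_nt.LO.Basic

set_option autoImplicit false

/-!
# Level one (MP_7c5fb9_nt, project LO): functions of forms as functions of matrices

`theorem stVf : StVf`.
-/

namespace Pool.Agent.Lib.MP_7c5fb9_nt

namespace LO

namespace Vfm

/-- The form `x ^ 2 + y ^ 2`. -/
def q0 : Frm := ![1, 0, 1]

theorem vf_eq (u : Frm → ZMod 3) (M : Mat) : vf u M = (M.det : ZMod 3) * u (act q0 M.adjugate) :=
  rfl

theorem adj_adj (N : Mat) : N.adjugate.adjugate = N := by
  rw [Matrix.adjugate_fin_two, Matrix.adjugate_fin_two]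
  ext i j
  fin_cases i <;> fin_cases j <;> simp

theorem det_adj (N : Mat) : N.adjugate.det = N.det := by
  rw [Matrix.adjugate_fin_two, Matrix.det_fin_two, Matrix.det_fin_two]
  simp
  ring

/-- Left multiplication. -/
theorem vf_left (u : Frm → ZMod 3) (N M : Mat) :
    vf u (N * M) = (N.det : ZMod 3) * ((M.det : ZMod 3) *
      u (act (act q0 M.adjugate) N.adjugate)) := by
  rw [vf_eq, Matrix.det_mul, Matrix.adjugate_mul_distrib, act_act]
  push_cast
  ring

/-- Right multiplication. -/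
theorem vf_right (u : Frm → ZMod 3) (M k : Mat) :
    vf u (M * k) = (k.det : ZMod 3) * ((M.det : ZMod 3) *
      u (act (act q0 k.adjugate) M.adjugate)) := by
  rw [vf_eq, Matrix.det_mul, Matrix.adjugate_mul_distrib, act_act]
  push_cast
  ring

theorem sq_one {c : ℤ} (hc : ¬ (3 : ℤ) ∣ c) : (c : ZMod 3) * (c : ZMod 3) = 1 := by
  have h : (c : ZMod 3) ≠ 0 := by
    intro h
    exact hc ((ZMod.intCast_zmod_eq_zero_iff_dvd c 3).1 h)
  generalize (c : ZMod 3) = x at *
  revert x
  decide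

theorem cast_three_pow {m : ℕ} (hm : 1 ≤ m) : (((3 : ℤ) ^ m : ℤ) : ZMod 3) = 0 := by
  rw [ZMod.intCast_zmod_eq_zero_iff_dvd]
  exact dvd_pow_self _ (by omega)

theorem PF.congr {m : ℕ} {u : Frm → ZMod 3} (h : PF m u) {Q Q' : Frm}
    (hQ : ∀ i, (3 : ℤ) ^ m ∣ Q i - Q' i) : u Q = u Q' := by
  choose c hc using hQ
  have : Q = fun i => Q' i + 3 ^ m * c i := by
    funext i
    linarith [hc i]
  rw [this, h.per]

/-- Square roots modulo powers of `3`. -/
theorem hensel {D : ℤ} (hD : D % 3 = 2) (m : ℕ) (hm : 1 ≤ m) :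
    ∃ w : ℤ, (3 : ℤ) ^ m ∣ w ^ 2 + D ∧ w % 3 = 1 := by
  induction m, hm using Nat.le_induction with
  | base =>
    refine ⟨1, ?_, rfl⟩
    rw [pow_one]
    omega
  | succ m hm ih =>
    obtain ⟨w, ⟨e, he⟩, hw⟩ := ih
    obtain ⟨s, hs⟩ : ∃ s, w = 3 * s + 1 := ⟨w / 3, by omega⟩
    obtain ⟨n, rfl⟩ : ∃ n, m = n + 1 := ⟨m - 1, by omega⟩
    refine ⟨w + 3 ^ (n + 1) * (e * w), ?_, ?_⟩
    · refine ⟨e + 2 * e * (3 * s ^ 2 + 2 * s) + 3 ^ n * e ^ 2 * w ^ 2, ?_⟩
      have h1 : (w + 3 ^ (n + 1) * (e * w)) ^ 2 + D =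
          (w ^ 2 + D) + 3 ^ (n + 1) * (2 * e * w ^ 2) + 3 ^ (n + 1) * 3 ^ (n + 1) * (e ^ 2 * w ^ 2) := by
        ring
      rw [h1, he]
      have h2 : w ^ 2 = 1 + 3 * (3 * s ^ 2 + 2 * s) := by
        rw [hs]
        ring
      have h3 : 3 ^ (n + 1) * (2 * e * w ^ 2) =
          3 ^ (n + 1) * (2 * e * (1 + 3 * (3 * s ^ 2 + 2 * s))) := by rw [h2]
      rw [h3]
      ring
    · have h1 : w + 3 ^ (n + 1) * (e * w) = w + 3 * (3 ^ n * (e * w)) := by ring
      rw [h1]
      omega

variable {m : ℕ} {u : Frm → ZMod 3}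

theorem mf (hm : 1 ≤ m) (h : PF m u) : MF m (vf u) := by
  refine ⟨fun M N => ?_, fun c M hc => ?_, fun M hM => ?_⟩
  · rw [vf_eq, vf_eq]
    have h1 : ((M + (3 : ℤ) ^ m • N).det : ZMod 3) = (M.det : ZMod 3) := by
      have h3 := cast_three_pow hm
      rw [Matrix.det_fin_two, Matrix.det_fin_two]
      simp only [Matrix.add_apply, Matrix.smul_apply, smul_eq_mul]
      push_cast at h3 ⊢
      rw [h3]
      ring
    have h2 : u (act q0 (M + (3 : ℤ) ^ m • N).adjugate) = u (act q0 M.adjugate) := by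
      apply PF.congr h
      intro i
      apply act_congr (fun i => by rw [sub_self]; exact dvd_zero _)
      have h4 : (M + (3 : ℤ) ^ m • N).adjugate = M.adjugate + (3 : ℤ) ^ m • N.adjugate := by
        rw [Matrix.adjugate_fin_two, Matrix.adjugate_fin_two, Matrix.adjugate_fin_two]
        ext i j
        fin_cases i <;> fin_cases j <;>
          simp only [Matrix.add_apply, Matrix.smul_apply, smul_eq_mul, Matrix.of_apply,
            Matrix.cons_val', Matrix.cons_val_zero, Matrix.cons_val_one,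
            Matrix.cons_val_fin_one, Fin.zero_eta, Fin.mk_one] <;> ring
      intro i j
      rw [h4, Matrix.add_apply, Matrix.smul_apply, smul_eq_mul, add_sub_cancel_left]
      exact dvd_mul_right _ _
    rw [h1, h2]
  · have h1 := sq_one hc
    have h2 : ¬ (3 : ℤ) ∣ c ^ 2 := by
      intro h
      exact hc (Int.prime_three.dvd_of_dvd_pow h)
    have h3 : (c • M).adjugate = c • M.adjugate := by
      rw [Matrix.adjugate_fin_two, Matrix.adjugate_fin_two]
      ext i j
      fin_cases i <;> fin_cases j <;> simp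
    have h4 : (c • M).det = c ^ 2 * M.det := by
      rw [Matrix.det_fin_two, Matrix.det_fin_two]
      simp only [Matrix.smul_apply, smul_eq_mul]
      ring
    rw [vf_eq, vf_eq, h3, h4, act_smul, h.scal _ _ h2, Int.cast_mul, Int.cast_pow]
    linear_combination ((c : ZMod 3) * c + 1) * (M.det : ZMod 3) * u (act q0 M.adjugate) * h1
  · rw [vf_eq, (ZMod.intCast_zmod_eq_zero_iff_dvd M.det 3).2 hM, zero_mul]

theorem adj_mS : mS.adjugate = -mS := by
  rw [Matrix.adjugate_fin_two]
  simp [mS]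

theorem adj_mE : mE.adjugate = -mE := by
  rw [Matrix.adjugate_fin_two]
  simp [mE]

theorem adj_mU : mU.adjugate = -(mU * mU) := by
  rw [Matrix.adjugate_fin_two]
  simp [mU]

theorem adj_mU2 : (mU * mU).adjugate = -mU := by
  rw [Matrix.adjugate_fin_two]
  simp [mU]

theorem wr (h : PF m u) : WR (vf u) := by
  refine ⟨fun M => ?_, fun M => ?_, fun M => ?_⟩
  · rw [vf_left, adj_mS, act_neg, h.S, det_mS, vf_eq]
    push_cast
    ring
  · rw [vf_left, adj_mE, act_neg, ← mir_eq, h.mir, det_mE, vf_eq]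
    push_cast
    ring
  · have h1 := h.U (act q0 M.adjugate)
    rw [vf_left, vf_left, adj_mU, adj_mU2, act_neg, act_neg, Matrix.det_mul, det_mU, vf_eq,
      mul_one, Int.cast_one, one_mul, one_mul]
    linear_combination (M.det : ZMod 3) * h1

theorem q_r : act q0 mr.adjugate = fun i => 2 * q0 i := by
  rw [Matrix.adjugate_fin_two]
  funext i
  fin_cases i <;> simp [act, q0, mr]

theorem q_g : act q0 (gm 0).adjugate = fun i => 10 * q0 i := by
  rw [Matrix.adjugate_fin_two]
  funext i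
  fin_cases i <;> simp [act, q0, gm]

theorem q_E : act q0 mE.adjugate = q0 := by
  rw [Matrix.adjugate_fin_two]
  funext i
  fin_cases i <;> simp [act, q0, mE]

theorem det_gm0 : (gm 0).det = 10 := by
  rw [Matrix.det_fin_two]
  simp [gm]

theorem tor (h : PF m u) : Tor (vf u) := by
  refine ⟨?_, ?_, ?_⟩
  · funext M
    rw [Rt_apply, vf_right, q_r, smul_act, h.scal _ _ (by norm_num), det_mr, vf_eq]
    have e : ((2 : ℤ) : ZMod 3) * ((2 : ℤ) : ZMod 3) = 1 := by decide
    linear_combination (M.det : ZMod 3) * u (act q0 M.adjugate) * e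
  · funext M
    rw [Xd_eq, Pi.sub_apply, Rt_apply, vf_right, q_g, smul_act, h.scal _ _ (by norm_num), det_gm0,
      vf_eq, Pi.zero_apply]
    have e : ((10 : ℤ) : ZMod 3) * ((10 : ℤ) : ZMod 3) = 1 := by decide
    linear_combination (M.det : ZMod 3) * u (act q0 M.adjugate) * e
  · funext M
    rw [Rt_apply, vf_right, q_E, det_mE, Pi.neg_apply, vf_eq]
    push_cast
    ring

theorem tm (L : List Mat) (d : ℤ) (hL : ∀ N ∈ L, N.det = d) :
    TM L (vf u) = (d : ZMod 3) • vf (TL L u) := by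
  funext M
  rw [Pi.smul_apply, vf_eq, smul_eq_mul]
  simp only [TM, TL]
  rw [← mul_assoc, ← List.sum_map_mul_left]
  congr 1
  apply List.map_congr_left
  intro N hN
  rw [vf_left, det_adj, adj_adj, hL N hN]
  ring

theorem inj (hm : 1 ≤ m) (h : PF m u) (h0 : vf u = 0) : u = 0 := by
  funext Q
  by_cases hD : disc Q % 3 = 2
  · obtain ⟨w, hw, hw3⟩ := hensel hD m hm
    have ha : ¬ (3 : ℤ) ∣ Q 0 := by
      rintro ⟨a, ha⟩
      have h1 : disc Q = Q 1 * Q 1 + 3 * (-(4 * a * Q 2)) := by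
        rw [disc, ha]
        ring
      rw [h1, Int.add_mul_emod_self_left, Int.mul_emod] at hD
      have h2 : Q 1 % 3 = 0 ∨ Q 1 % 3 = 1 ∨ Q 1 % 3 = 2 := by omega
      rcases h2 with h2 | h2 | h2 <;> rw [h2] at hD <;> omega
    have h4a : ¬ (3 : ℤ) ∣ 4 * Q 0 := by
      intro h
      apply ha
      omega
    have h1 : u (act q0 (!![w, -Q 1; 0, 2 * Q 0] : Mat).adjugate) = u (fun i => (4 * Q 0) * Q i) := by
      apply PF.congr h
      intro i
      rw [Matrix.adjugate_fin_two]
      fin_cases i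
      · simp only [act, q0]
        simp
        exact ⟨0, by ring⟩
      · simp only [act, q0]
        simp
        exact ⟨0, by ring⟩
      · simp only [act, q0]
        simp
        obtain ⟨e, he⟩ := hw
        refine ⟨e, ?_⟩
        rw [disc] at he
        linear_combination he
    have h2 : vf u !![w, -Q 1; 0, 2 * Q 0] = 0 := by
      rw [h0]
      rfl
    rw [vf_eq, h1, h.scal _ _ h4a, Matrix.det_fin_two] at h2
    simp only [Matrix.of_apply, Matrix.cons_val', Matrix.cons_val_zero, Matrix.cons_val_one,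
      Matrix.cons_val_fin_one] at h2
    have h3 := sq_one ha
    have hw1 : (w : ZMod 3) = 1 := by
      have : ((w - 1 : ℤ) : ZMod 3) = 0 := by
        rw [ZMod.intCast_zmod_eq_zero_iff_dvd]
        omega
      push_cast at this
      linear_combination this
    have e8 : (8 : ZMod 3) = -1 := by decide
    push_cast at h2
    rw [hw1] at h2
    rw [Pi.zero_apply]
    have h4 : (8 : ZMod 3) * ((Q 0 : ZMod 3) * Q 0) * u Q = 0 := by
      linear_combination h2
    rw [h3, e8] at h4
    linear_combination -h4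
  · rw [h.supp Q hD, Pi.zero_apply]

end Vfm

open Vfm

/-- Functions of forms as functions of matrices. -/
theorem stVf : StVf := by
  refine ⟨fun m u hm h => ⟨mf hm h, wr h, tor h, ?_, ?_, inj hm h⟩, fun u u' => ?_, fun c u => ?_⟩
  · rw [tm L2 2 (by
      intro N hN
      simp only [L2, List.mem_cons, List.not_mem_nil, or_false] at hN
      rcases hN with rfl | rfl | rfl | rfl <;> simp [Matrix.det_fin_two])]
    have e : ((2 : ℤ) : ZMod 3) = -1 := by decide
    rw [e, neg_one_smul]
  · rw [tm L7 7 (by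
      intro N hN
      simp only [L7, List.mem_cons, List.not_mem_nil, or_false] at hN
      rcases hN with rfl | rfl | rfl | rfl | rfl | rfl | rfl | rfl | rfl | rfl | rfl | rfl | rfl |
        rfl | rfl | rfl | rfl | rfl | rfl | rfl | rfl <;> simp [Matrix.det_fin_two])]
    have e : ((7 : ℤ) : ZMod 3) = 1 := by decide
    rw [e, one_smul]
  · funext M
    rw [Pi.add_apply, vf_eq, vf_eq, vf_eq, Pi.add_apply]
    ring
  · funext M
    rw [Pi.smul_apply, vf_eq, vf_eq, Pi.smul_apply, smul_eq_mul, smul_eq_mul]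
    ring

end LO

end Pool.Agent.Lib.MP_7c5fb9_nt
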