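import Pool.Agent.Lib.MP_7c5fb9_nt.LO.Stmts
import Pool.Agent.Lib.MP_7c08ba_nt.RZ.Count

set_option autoImplicit false

/-!
# Level one (MP_7c5fb9_nt, project LO): the zeta function of a quadratic field (module Zeta)
-/

namespace Pool.Agent.Lib.MP_7c5fb9_nt

namespace LO

namespace ZetaAux

open NumberField
open Pool.Agent.Lib.MP_7c08ba_nt.RZ.CountAux

/-- The number of ideals of given norm. -/
theorem count (h2 : StSplit) (K : Type) [Field K] [NumberField K] (s : K) (d : ℤ)
    (hK : Module.finrank ℚ K = 2) (hs : s ^ 2 = (d : K)) (hsq : Squarefree d.natAbs)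
    (h1 : 1 < d.natAbs) (h4 : d % 4 = 1) (n : ℕ) : 1 ≤ n →
    (Nat.card {b : Ideal (𝓞 K) // Ideal.absNorm b = n} : ℤ) =
      ∑ m ∈ n.divisors, jacobiSym (m : ℤ) d.natAbs := by
  induction n using Nat.recOnPosPrimePosCoprime with
  | prime_pow p k hp hk =>
    intro _
    obtain ⟨g3, g1, g2⟩ := h2 K s d hK hs hsq h1 h4 p hp
    rw [Nat.sum_divisors_prime_pow hp]
    have hJ : ∀ i : ℕ, jacobiSym ((p ^ i : ℕ) : ℤ) d.natAbs = jacobiSym (p : ℤ) d.natAbs ^ i := by
      intro i
      push_cast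
      exact jacobiSym.pow_left _ _ _
    simp only [hJ]
    rcases jacobiSym.trichotomy (p : ℤ) d.natAbs with h | h | h
    · obtain ⟨P, h3, h5, h4⟩ := g3 h
      rw [card_power hp h3 h4.symm (f := 1) (by rw [h5, pow_one]) k one_ne_zero, h,
        Finset.sum_range_succ']
      simp
    · obtain ⟨P, P', h3, h4, h5, h7, h8, h6⟩ := g1 h
      rw [card_split hp h3 h4 h5 h6.symm h7 h8, h]
      simp
    · have h3 := g2 h
      have h4 : Ideal.absNorm (Ideal.span {((p : ℕ) : 𝓞 K)}) = p ^ 2 := by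
        rw [Ideal.absNorm_span_natCast, RingOfIntegers.rank, hK]
      rw [card_power hp h3 (pow_one _) h4 k two_ne_zero, h]
      rcases Nat.even_or_odd k with hk' | hk'
      · rw [if_pos hk'.two_dvd, Finset.sum_range_succ, hk'.neg_one_pow]
        rw [Finset.sum_congr rfl fun _ _ => rfl, ← Nat.succ_pred_eq_of_pos hk]
        have := neg_one_geom_sum (R := ℤ) (n := k)
        rw [if_pos hk'] at this
        simp only [Nat.succ_eq_add_one, Nat.pred_eq_sub_one, Nat.sub_add_cancel hk]
        rw [this]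
        simp
      · rw [if_neg (by rw [← even_iff_two_dvd]; exact Nat.not_even_iff_odd.mpr hk')]
        have := neg_one_geom_sum (R := ℤ) (n := k + 1)
        rw [if_pos (by rw [Nat.even_add_one]; exact Nat.not_even_iff_odd.mpr hk')] at this
        rw [this]
        simp
  | zero => intro h; omega
  | one =>
    intro _
    have h3 : Nat.card {b : Ideal (𝓞 K) // Ideal.absNorm b = 1} = 1 := by
      rw [Nat.card_eq_one_iff_unique]
      refine ⟨⟨?_⟩, ⟨⟨⊤, by simp⟩⟩⟩
      rintro ⟨b, hb⟩ ⟨b', hb'⟩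
      rw [Ideal.absNorm_eq_one_iff] at hb hb'
      subst hb hb'
      rfl
    rw [h3]
    simp
  | coprime a b ha hb hab iha ihb =>
    intro _
    rw [card_mul (by omega) (by omega) hab]
    push_cast
    rw [iha (by omega), ihb (by omega)]
    simp only [sum_jac]
    rw [((jac_mult d.natAbs).mul
      ArithmeticFunction.isMultiplicative_zeta.natCast).map_mul_of_coprime hab]

theorem norm_jac (n N : ℕ) : ‖(jacobiSym (n : ℤ) N : ℂ)‖ ≤ 1 := by
  rcases jacobiSym.trichotomy (n : ℤ) N with h | h | h <;> rw [h] <;> simp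

end ZetaAux

open ZetaAux in
/-- (Zeta) -/
theorem stZeta (hSplit : StSplit) : StZeta := by
  intro K _ _ s d hK hs hsq h1 h4 x hx
  have hx' : 1 < ((x : ℂ)).re := by simpa using hx
  have s1 : LSeriesSummable (1 : ℕ → ℂ) (x : ℂ) := LSeriesSummable_one_iff.2 hx'
  have s2 : LSeriesSummable (fun n => (jacobiSym n d.natAbs : ℂ)) (x : ℂ) :=
    LSeriesSummable_of_bounded_of_one_lt_re (m := 1) (fun n _ => norm_jac n _) hx'
  rw [← LSeries_one_eq_riemannZeta hx', ← LSeries_convolution' s1 s2]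
  unfold NumberField.dedekindZeta
  refine LSeries_congr (fun {n} hn => ?_) _
  rw [LSeries.convolution_def]
  have h := count hSplit K s d hK hs hsq h1 h4 n (Nat.pos_of_ne_zero hn)
  have h' : ((Nat.card {b : Ideal (NumberField.RingOfIntegers K) // Ideal.absNorm b = n} : ℕ) : ℂ) =
      ∑ m ∈ n.divisors, (jacobiSym (m : ℤ) d.natAbs : ℂ) := by
    have h2 := congrArg (Int.cast : ℤ → ℂ) h
    push_cast at h2
    exact h2
  rw [h']
  beta_reduce
  rw [Nat.sum_divisorsAntidiagonal' (f := fun a b => (1 : ℕ → ℂ) a *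
    (jacobiSym (b : ℤ) d.natAbs : ℂ))]
  simp

end LO

end Pool.Agent.Lib.MP_7c5fb9_nt
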