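import Pool.Agent.Lib.MP_7c5fb9_nt.LO.Prim
import Pool.Agent.Lib.MP_7c5fb9_nt.LO.Coc
import Pool.Agent.Lib.MP_7c5fb9_nt.LO.Per
import Pool.Agent.Lib.MP_7c5fb9_nt.LO.HecG
import Pool.Agent.Lib.MP_7c5fb9_nt.LO.Hec
import Pool.Agent.Lib.MP_7c5fb9_nt.LO.Cyc
import Pool.Agent.Lib.MP_7c5fb9_nt.LO.PsiC
import Pool.Agent.Lib.MP_7c5fb9_nt.LO.Lim
import Pool.Agent.Lib.MP_7c5fb9_nt.LO.NZ
import Pool.Agent.Lib.MP_7c5fb9_nt.LO.Fin
import Pool.Agent.Lib.MP_7c5fb9_nt.LO.Red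
import Pool.Agent.Lib.MP_7c5fb9_nt.LO.Lam
import Pool.Agent.Lib.MP_7c5fb9_nt.LO.Cocyc
import Pool.Agent.Lib.MP_7c5fb9_nt.LO.Abel
import Pool.Agent.Lib.MP_7c5fb9_nt.LO.Kr
import Pool.Agent.Lib.MP_7c5fb9_nt.LO.GaussK
import Pool.Agent.Lib.MP_7c5fb9_nt.LO.LOne
import Pool.Agent.Lib.MP_7c5fb9_nt.LO.Discr
import Pool.Agent.Lib.MP_7c5fb9_nt.LO.Split
import Pool.Agent.Lib.MP_7c5fb9_nt.LO.Zeta
import Pool.Agent.Lib.MP_7c5fb9_nt.LO.RUnit
import Pool.Agent.Lib.MP_7c5fb9_nt.LO.RCN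
import Pool.Agent.Lib.MP_7c5fb9_nt.LO.ICN
import Pool.Agent.Lib.MP_7c5fb9_nt.LO.Cong
import Pool.Agent.Lib.MP_7c5fb9_nt.LO.Key
import Pool.Agent.Lib.MP_7c5fb9_nt.LO.Count
import Pool.Agent.Lib.MP_7c5fb9_nt.LO.Pell
import Pool.Agent.Lib.MP_7c5fb9_nt.LO.Form
import Pool.Agent.Lib.MP_7c5fb9_nt.LO.Crit
import Pool.Agent.Lib.MP_7c5fb9_nt.LO.Vf
import Pool.Agent.Lib.MP_7c5fb9_nt.LO.KOne
import Pool.Agent.Lib.MP_7c5fb9_nt.LO.KTwo
import Pool.Agent.Lib.MP_7c5fb9_nt.LO.RH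
import Pool.Agent.Lib.MP_7c5fb9_nt.LO.VOne
import Pool.Agent.Lib.MP_7c5fb9_nt.LO.Hk
import Pool.Agent.Lib.MP_7c5fb9_nt.LO.First
import Pool.Agent.Lib.MP_7c5fb9_nt.LO.Sym
import Pool.Agent.Lib.MP_7c5fb9_nt.LO.Rot
import Pool.Agent.Lib.MP_7c5fb9_nt.LO.TorSym
import Pool.Agent.Lib.MP_7c5fb9_nt.LO.Ex
import Pool.Agent.Lib.MP_7c5fb9_nt.LO.Low
import Pool.Agent.Lib.MP_7c5fb9_nt.LO.KL
import Pool.Agent.Lib.MP_7c5fb9_nt.LO.Main

set_option autoImplicit false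

/-!
# Level one (MP_7c5fb9_nt, project LO): assembly
-/

namespace Pool.Agent.Lib.MP_7c5fb9_nt

namespace LO

theorem aCoc : StCoc := stCoc stPrim

theorem aPer : StPer := stPer aCoc

theorem aHec : StHec := stHec (stHecG stPrim aCoc) aCoc

theorem aCyc : StCyc := stCyc stPrim aCoc

theorem aPsiC : StPsiC := stPsiC aCoc aCyc

theorem aNZ : StNZ := stNZ aPer aPsiC (stLim stPrim aCoc)

theorem aCocyc : StCocyc := stCocyc stLam

theorem aVOne : StVOne := stVOne stKOne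

theorem aSym : StSym := stSym stRH aVOne (stFirst stKOne aVOne)

theorem aRot : StRot := stRot stRH aVOne

theorem aTorSym : StTorSym := stTorSym aSym aRot aVOne

theorem aLow : StLow := stLow stKTwo stVf stEx aVOne aSym aRot aTorSym stRH stHk

theorem aKL : StKL := stKL stKTwo stVf aVOne aSym aTorSym stEx aLow

theorem aRed : StRed := stRed aKL aPsiC aHec aNZ (stFin aPer) aCocyc

theorem aZeta : StZeta := stZeta stSplit

theorem aGauss : StGauss := stGaussK stKr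

theorem aLOne : StLOne := stLOne stAbel aGauss

theorem aKey : StKey :=
  stKey (stRCN stDiscr aZeta aLOne stRUnit) (stICN stDiscr aZeta aLOne) (stCong aGauss stLam)
    stPell

theorem aCrit : StCrit := stCrit aRed aPsiC aCocyc stPell stForm

theorem aMain : StMain := stMain aKey stCount aCrit stDiscr

end LO

end Pool.Agent.Lib.MP_7c5fb9_nt
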