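import Pool.Agent.Lib.MP_7c5fb9_nt.LO.Stmts2
import Pool.Agent.Lib.MP_7c5fb9_nt.LO.Cong

set_option autoImplicit false

/-!
# Level one (MP_7c5fb9_nt, project LO2): module CongB

The congruence modulo nine between the class numbers and the fundamental unit, for all fundamental
discriminants.
-/

namespace Pool.Agent.Lib.MP_7c5fb9_nt

namespace LO

open Pool.Agent.Lib.MP_7c08ba_nt.RZ
open scoped ComplexConjugate

namespace CongBaux

open Congaux

section char

variable {D : ℕ} [NeZero D] {c : ZMod D → ℤ}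

/-- Sums with the character. -/
lemma sum_ch (h3 : ∀ x, c x = 0 ∨ c x = 1 ∨ c x = -1) {A : Type*} [CommRing A] (F : ZMod D → A) :
    ∑ x : ZMod D, (c x : A) * F x = ∑ x ∈ Finset.univ.filter (fun x => c x = 1), F x -
      ∑ x ∈ Finset.univ.filter (fun x => c x = -1), F x := by
  rw [Finset.sum_filter, Finset.sum_filter, ← Finset.sum_sub_distrib]
  refine Finset.sum_congr rfl fun x _ => ?_
  rcases h3 x with h | h | h
  · rw [h]
    simp
  · rw [h]
    simp
  · rw [h]
    simp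

/-- The products of the cyclotomic numbers. -/
noncomputable def Vs (D : ℕ) [NeZero D] (c : ZMod D → ℤ) (s : ℤ) : ℂ :=
  ∏ x ∈ (Finset.univ : Finset (ZMod D)).filter (fun x => c x = s), (1 - zt D x)

lemma cube (hmul : ∀ x : ZMod D, c (3 * x) = -c x) {m : ℕ} (hm : 3 * m = D + 1) (s : ℤ) :
    Vs D c s ^ 3 = Vs D c (-s) * ∏ x ∈ (Finset.univ : Finset (ZMod D)).filter (fun x => c x = s),
      (1 - 3 * yy D m x) := by
  have hm' : (m : ZMod D) * 3 = 1 := by
    have h1 : ((3 * m : ℕ) : ZMod D) = ((D + 1 : ℕ) : ZMod D) := by rw [hm]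
    push_cast at h1
    rw [ZMod.natCast_self, zero_add] at h1
    rw [mul_comm]
    exact h1
  have h1 : Vs D c (-s) = ∏ x ∈ (Finset.univ : Finset (ZMod D)).filter (fun x => c x = s),
      (1 - zt D (3 * x)) := by
    unfold Vs
    refine Finset.prod_nbij' (fun x => (m : ZMod D) * x) (fun x => 3 * x) ?_ ?_ ?_ ?_ ?_
    · intro x hx
      rw [Finset.mem_filter] at hx ⊢
      refine ⟨Finset.mem_univ _, ?_⟩
      have h2 := hmul ((m : ZMod D) * x)
      rw [← mul_assoc, mul_comm 3 (m : ZMod D), hm', one_mul, hx.2] at h2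
      omega
    · intro x hx
      rw [Finset.mem_filter] at hx ⊢
      refine ⟨Finset.mem_univ _, ?_⟩
      rw [hmul, hx.2]
    · intro x _
      show 3 * ((m : ZMod D) * x) = x
      rw [← mul_assoc, mul_comm 3 (m : ZMod D), hm', one_mul]
    · intro x _
      show (m : ZMod D) * (3 * x) = x
      rw [← mul_assoc, hm', one_mul]
    · intro x _
      show 1 - zt D x = 1 - zt D (3 * ((m : ZMod D) * x))
      rw [← mul_assoc, mul_comm 3 (m : ZMod D), hm', one_mul]
  rw [h1, ← Finset.prod_mul_distrib]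
  unfold Vs
  rw [← Finset.prod_pow]
  exact Finset.prod_congr rfl fun x _ => yy_eq hm x

lemma conj_Vs (hneg : ∀ x : ZMod D, c (-x) = c x) (s : ℤ) : conj (Vs D c s) = Vs D c s := by
  unfold Vs
  rw [map_prod]
  refine Finset.prod_nbij' (fun x => -x) (fun x => -x) ?_ ?_ ?_ ?_ ?_
  · intro x hx
    rw [Finset.mem_filter] at hx ⊢
    exact ⟨Finset.mem_univ _, by rw [hneg]; exact hx.2⟩
  · intro x hx
    rw [Finset.mem_filter] at hx ⊢
    exact ⟨Finset.mem_univ _, by rw [hneg]; exact hx.2⟩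
  · intro x _
    exact neg_neg x
  · intro x _
    exact neg_neg x
  · intro x _
    rw [map_sub, map_one, zt_neg]

lemma Vs_pow (hneg : ∀ x : ZMod D, c (-x) = c x) (s : ℤ) :
    Vs D c s ^ 4 = ((‖Vs D c s‖ : ℝ) : ℂ) ^ 4 := by
  have h1 : Vs D c s ^ 2 = ((‖Vs D c s‖ : ℝ) : ℂ) ^ 2 := by
    rw [← Complex.mul_conj', conj_Vs hneg, pow_two]
  calc Vs D c s ^ 4 = (Vs D c s ^ 2) ^ 2 := by ring
    _ = _ := by rw [h1]; ring

lemma Vs_ne (h0 : c 0 = 0) {s : ℤ} (hs : s ≠ 0) : Vs D c s ≠ 0 := by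
  refine Finset.prod_ne_zero_iff.mpr fun x hx => zt_ne x ?_
  rintro rfl
  apply hs
  rw [← (Finset.mem_filter.mp hx).2]
  exact h0

lemma log_Vs (h0 : c 0 = 0) {s : ℤ} (hs : s ≠ 0) : Real.log ‖Vs D c s‖ =
    ∑ x ∈ (Finset.univ : Finset (ZMod D)).filter (fun x => c x = s),
      Real.log ‖1 - zt D x‖ := by
  have h2 := Vs_ne h0 hs
  unfold Vs at h2 ⊢
  rw [norm_prod, Real.log_prod]
  intro x hx
  exact norm_ne_zero_iff.mpr (Finset.prod_ne_zero_iff.mp h2 x hx)

end char

section kron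

variable {D : ℕ} [NeZero D]

/-- The character on residue classes. -/
def ck (D : ℕ) (x : ZMod D) : ℤ := kr (D : ℤ) x.val

lemma LRB_eq (h3 : ∀ x, ck D x = 0 ∨ ck D x = 1 ∨ ck D x = -1) (h0 : ck D 0 = 0) :
    LRB (D : ℤ) = |Real.log ‖Vs D (ck D) 1‖ - Real.log ‖Vs D (ck D) (-1)‖| := by
  unfold LRB
  rw [Int.natAbs_natCast,
    sum_range_eq (D := D) (fun a => (kr (D : ℤ) a : ℝ) * Real.log ‖1 - ee ((a : ℂ) / D)‖),
    log_Vs h0 one_ne_zero, log_Vs h0 (by norm_num), ← sum_ch h3]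
  refine congrArg _ (Finset.sum_congr rfl fun x _ => ?_)
  rw [zt_val]
  rfl

/-- The sum of the numbers `y` with the character. -/
lemma sum_yy (h3 : ∀ x, ck D x = 0 ∨ ck D x = 1 ∨ ck D x = -1) {τ : ℂ}
    (hτ : ∀ n : ℕ, ∑ a ∈ Finset.range D, (kr (D : ℤ) a : ℂ) *
      ee ((a : ℂ) * n / D) = kr (D : ℤ) n * τ) (m : ℕ) :
    ∑ x ∈ (Finset.univ : Finset (ZMod D)).filter (fun x => ck D x = 1), yy D m x -
      ∑ x ∈ (Finset.univ : Finset (ZMod D)).filter (fun x => ck D x = -1), yy D m x =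
      ((∑ i ∈ Finset.range m, kr (D : ℤ) (3 * i + 1) : ℤ) : ℂ) * τ := by
  rw [← sum_ch h3]
  unfold yy
  simp only [Finset.mul_sum]
  rw [Finset.sum_comm, Int.cast_sum, Finset.sum_mul]
  refine Finset.sum_congr rfl fun i _ => ?_
  rw [← hτ, sum_range_eq (D := D) (fun a => (kr (D : ℤ) a : ℂ) *
    ee ((a : ℂ) * ((3 * i + 1 : ℕ) : ℂ) / D))]
  refine Finset.sum_congr rfl fun x _ => ?_
  have h1 : zt D (((3 * i + 1 : ℕ) : ZMod D) * x) =
      ee ((x.val : ℂ) * ((3 * i + 1 : ℕ) : ℂ) / D) := by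
    have h2 : ((3 * i + 1 : ℕ) : ZMod D) * x = (((x.val : ℤ) * ((3 * i + 1 : ℕ) : ℤ) : ℤ) :
        ZMod D) := by
      rw [Int.cast_mul, int_val, Int.cast_natCast, mul_comm]
    rw [h2, zt_int]
    push_cast
    rfl
  rw [h1]
  rfl

end kron

/-! ### The class number of the imaginary field -/

/-- The character of conductor three and quadratic reciprocity. -/
lemma jac_three {n : ℕ} (hn : n % 2 = 1) : jacobiSym (-3) n = jacobiSym n 3 := by
  have hodd : Odd n := Nat.odd_iff.mpr hn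
  have h1 : jacobiSym (-3) n = jacobiSym (-1) n * jacobiSym 3 n := by
    rw [← jacobiSym.mul_left]
    norm_num
  have h0 : jacobiSym ((3 : ℕ) : ℤ) n = jacobiSym 3 n := by norm_num
  have h4 : n % 4 = 1 ∨ n % 4 = 3 := by omega
  rcases h4 with h4 | h4
  · have h2 := jacobiSym.quadratic_reciprocity_one_mod_four (a := n) (b := 3) h4 (by decide)
    rw [h1, jacobiSym.at_neg_one hodd, ZMod.χ₄_nat_one_mod_four h4, one_mul, ← h0, ← h2]
  · have h2 := jacobiSym.quadratic_reciprocity_three_mod_four (a := n) (b := 3) h4 (by decide)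
    rw [h1, jacobiSym.at_neg_one hodd, ZMod.χ₄_nat_three_mod_four h4, ← h0]
    have h5 : jacobiSym (n : ℤ) ((3 : ℕ)) = jacobiSym (n : ℤ) 3 := rfl
    rw [← h5, h2]
    ring

lemma kr_three {D : ℕ} (n : ℕ) :
    kr (-((3 * D : ℕ) : ℤ)) n = jacobiSym n 3 * kr (D : ℤ) n := by
  unfold kr
  by_cases hD : (D : ℤ) % 2 = 0
  · have h1 : (-((3 * D : ℕ) : ℤ)) % 2 = 0 := by omega
    rw [if_pos h1, if_pos hD]
    by_cases hn : n % 2 = 0
    · rw [if_pos hn, if_pos hn, mul_zero]
    · rw [if_neg hn, if_neg hn, ← jac_three (by omega), ← jacobiSym.mul_left]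
      congr 1
  · have h1 : ¬ (-((3 * D : ℕ) : ℤ)) % 2 = 0 := by omega
    rw [if_neg h1, if_neg hD, Int.natAbs_neg, Int.natAbs_natCast, Int.natAbs_natCast]
    by_cases hD0 : D = 0
    · subst hD0
      simp at hD
    · have : NeZero D := ⟨hD0⟩
      rw [jacobiSym.mul_right]

/-- The sum modulo `3 D`. -/
lemma sum_three {D m : ℕ} (hD : D % 3 = 2) (hm : 3 * m = D + 1)
    (hper : ∀ n : ℕ, kr (D : ℤ) (n + D) = kr (D : ℤ) n)
    (h0 : ∑ a ∈ Finset.range D, kr (D : ℤ) a = 0) :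
    ∑ a ∈ Finset.range (3 * D), kr (-((3 * D : ℕ) : ℤ)) a * (a : ℤ) =
      -(3 * D * ∑ i ∈ Finset.range m, kr (D : ℤ) (3 * i + 1)) := by
  have h1 : ∀ F : ℕ → ℤ, ∑ a ∈ Finset.range (3 * D), F a =
      ∑ a ∈ Finset.range D, (F a + (F (D + a) + F (D + (D + a)))) := by
    intro F
    have h1 : 3 * D = D + (D + D) := by ring
    rw [h1, Finset.sum_range_add, Finset.sum_range_add, ← Finset.sum_add_distrib,
      ← Finset.sum_add_distrib]
  rw [h1]
  have h2 : ∀ a : ℕ, kr (-((3 * D : ℕ) : ℤ)) a * (a : ℤ) + (kr (-((3 * D : ℕ) : ℤ)) (D + a) *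
      ((D + a : ℕ) : ℤ) + kr (-((3 * D : ℕ) : ℤ)) (D + (D + a)) * ((D + (D + a) : ℕ) : ℤ)) =
      D * (kr (D : ℤ) a - 3 * if a % 3 = 1 then kr (D : ℤ) a else 0) := by
    intro a
    rw [kr_three, kr_three, kr_three]
    have e1 : kr (D : ℤ) (D + a) = kr (D : ℤ) a := by rw [add_comm, hper]
    have e2 : kr (D : ℤ) (D + (D + a)) = kr (D : ℤ) a := by
      rw [add_comm, hper, e1]
    rw [e1, e2]
    have j0 : jacobiSym 0 3 = 0 := by norm_num
    have j1 : jacobiSym 1 3 = 1 := by norm_num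
    have j2 : jacobiSym 2 3 = -1 := by norm_num
    have key : ∀ (n r : ℕ), n % 3 = r → jacobiSym n 3 = jacobiSym r 3 := by
      intro n r hr
      rw [jacobiSym.mod_left, ← hr]
      congr 1
    have ha : a % 3 = 0 ∨ a % 3 = 1 ∨ a % 3 = 2 := by omega
    rcases ha with ha | ha | ha
    · rw [key a 0 ha, key (D + a) 2 (by omega), key (D + (D + a)) 1 (by omega), if_neg (by omega)]
      push_cast
      rw [j0, j1, j2]
      ring
    · rw [key a 1 ha, key (D + a) 0 (by omega), key (D + (D + a)) 2 (by omega), if_pos ha]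
      push_cast
      rw [j0, j1, j2]
      ring
    · rw [key a 2 ha, key (D + a) 1 (by omega), key (D + (D + a)) 0 (by omega), if_neg (by omega)]
      push_cast
      rw [j0, j1, j2]
      ring
  rw [Finset.sum_congr rfl fun a _ => h2 a, ← Finset.mul_sum, Finset.sum_sub_distrib, h0,
    ← Finset.mul_sum, ← Finset.sum_filter]
  have h3 : ∑ a ∈ (Finset.range D).filter (fun a => a % 3 = 1), kr (D : ℤ) a =
      ∑ i ∈ Finset.range m, kr (D : ℤ) (3 * i + 1) := by
    symm
    refine Finset.sum_nbij' (fun i => 3 * i + 1) (fun a => a / 3) ?_ ?_ ?_ ?_ ?_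
    · intro i hi
      rw [Finset.mem_range] at hi
      rw [Finset.mem_filter, Finset.mem_range]
      omega
    · intro a ha
      rw [Finset.mem_filter, Finset.mem_range] at ha
      rw [Finset.mem_range]
      omega
    · intro i _
      show (3 * i + 1) / 3 = i
      omega
    · intro a ha
      rw [Finset.mem_filter] at ha
      show 3 * (a / 3) + 1 = a
      omega
    · intro i _
      rfl
  rw [h3]
  ring

/-- The value at `3`. -/
lemma kr_at_three {D : ℕ} (hFD : FD (D : ℤ)) (hD : D % 3 = 2) : kr (D : ℤ) 3 = -1 := by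
  have h2 : jacobiSym (D : ℤ) 3 = -1 := by
    have : jacobiSym (D : ℤ) 3 = jacobiSym 2 3 := by
      rw [jacobiSym.mod_left]
      congr 1
      omega
    rw [this]
    norm_num
  unfold kr
  by_cases h : (D : ℤ) % 2 = 0
  · rw [if_pos h, if_neg (by norm_num)]
    exact h2
  · rw [if_neg h, Int.natAbs_natCast]
    have hD4 : D % 4 = 1 := by
      rcases hFD with ⟨h1, -⟩ | ⟨h1, -⟩ <;> omega
    have h1 := jacobiSym.quadratic_reciprocity_one_mod_four (a := D) (b := 3) hD4 (by decide)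
    rw [← h1]
    exact h2

end CongBaux

open Congaux CongBaux

theorem stCongB (hKr : StKr) (hLam : StLam) : StCongB := by
  intro D t u h h' e hFD hD3 htu ht hu he hLR hLI h3
  have hD1 : 1 < D := by omega
  have hne : NeZero D := ⟨by omega⟩
  obtain ⟨m, hm⟩ : ∃ m : ℕ, 3 * m = D + 1 := ⟨(D + 1) / 3, by omega⟩
  obtain ⟨k1, kmul, kper, kzero, ktri, kneg, τ, hτ2, hτ⟩ := hKr D hFD
  rw [Int.natAbs_natCast] at kper hτ kneg
  simp only [Int.natAbs_natCast] at kzero
  have hthree : kr (D : ℤ) 3 = -1 := kr_at_three hFD hD3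
  have kmod : ∀ n : ℕ, kr (D : ℤ) (n % D) = kr (D : ℤ) n := by
    intro n
    have h1 : ∀ q r : ℕ, kr (D : ℤ) (r + q * D) = kr (D : ℤ) r := by
      intro q r
      induction q with
      | zero => simp
      | succ q ih => rw [Nat.succ_mul, ← add_assoc, kper, ih]
    conv_rhs => rw [← Nat.mod_add_div n D, mul_comm D, h1]
  have ckn : ∀ n : ℕ, ck D (n : ZMod D) = kr (D : ℤ) n := by
    intro n
    unfold ck
    rw [ZMod.val_natCast, kmod]
  have ckmul : ∀ x y : ZMod D, ck D (x * y) = ck D x * ck D y := by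
    intro x y
    conv_lhs => rw [← ZMod.natCast_zmod_val x, ← ZMod.natCast_zmod_val y, ← Nat.cast_mul, ckn, kmul]
    rfl
  have hneg : ∀ x : ZMod D, ck D (-x) = ck D x := by
    intro x
    have h1 : -x = ((D - x.val : ℕ) : ZMod D) := by
      rw [Nat.cast_sub (ZMod.val_lt x).le, ZMod.natCast_self, ZMod.natCast_zmod_val, zero_sub]
    rw [h1, ckn, kneg x.val (ZMod.val_lt x).le]
    have h2 : (D : ℤ).sign = 1 := Int.sign_eq_one_of_pos (by omega)
    rw [h2, one_mul]
    rfl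
  have hmul : ∀ x : ZMod D, ck D (3 * x) = -ck D x := by
    intro x
    have h1 : (3 : ZMod D) = ((3 : ℕ) : ZMod D) := by norm_num
    rw [h1, ckmul, ckn, hthree]
    ring
  have ck3 : ∀ x : ZMod D, ck D x = 0 ∨ ck D x = 1 ∨ ck D x = -1 := fun x => ktri x.val
  have ck0 : ck D 0 = 0 := by
    unfold ck
    rw [ZMod.val_zero, kzero]
    intro hc
    rw [Nat.coprime_zero_left] at hc
    omega
  -- the class number of the imaginary field
  have h0 : ∑ a ∈ Finset.range D, kr (D : ℤ) a = 0 := by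
    have h1 := hτ 0
    have h00 : kr (D : ℤ) 0 = 0 := by
      have := ck0
      unfold ck at this
      rwa [ZMod.val_zero] at this
    rw [h00] at h1
    have h2 : ((∑ a ∈ Finset.range D, kr (D : ℤ) a : ℤ) : ℂ) = 0 := by
      rw [Int.cast_sum, ← mul_eq_zero_of_left (show ((0 : ℤ) : ℂ) = 0 from Int.cast_zero) τ, ← h1]
      refine Finset.sum_congr rfl fun a _ => ?_
      unfold ee
      simp
    exact_mod_cast h2
  set s₁ : ℤ := ∑ i ∈ Finset.range m, kr (D : ℤ) (3 * i + 1) with hs₁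
  have hs : |s₁| = h' := by
    unfold LIB at hLI
    rw [Int.natAbs_neg, Int.natAbs_natCast, sum_three hD3 hm kper h0, abs_neg, abs_mul] at hLI
    have h1 : |(3 * (D : ℤ))| = 3 * D := abs_of_nonneg (by positivity)
    rw [h1] at hLI
    push_cast at hLI
    exact mul_left_cancel₀ (by positivity) hLI
  have hs3 : ¬ (3 : ℤ) ∣ s₁ := by
    intro hdvd
    apply h3
    have h1 : (3 : ℤ) ∣ |s₁| := (dvd_abs _ _).mpr hdvd
    rw [hs] at h1
    exact_mod_cast h1
  have hes : ¬ (3 : ℤ) ∣ e * s₁ := by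
    intro hdvd
    rcases he with rfl | rfl
    · apply hs3
      simpa using hdvd
    · apply hs3
      push_cast at hdvd
      omega
  -- the square root
  have hτr : τ = rt D ∨ τ = -rt D := by
    apply sq_eq_sq_iff_eq_or_eq_neg.mp
    rw [hτ2, rt_sq]
    simp
  -- the relations
  set P : ℂ := ∏ x ∈ (Finset.univ : Finset (ZMod D)).filter (fun x => ck D x = 1),
    (1 - 3 * yy D m x) with hP
  set N : ℂ := ∏ x ∈ (Finset.univ : Finset (ZMod D)).filter (fun x => ck D x = -1),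
    (1 - 3 * yy D m x) with hN
  have cV : CongBaux.Vs D (ck D) 1 ^ 3 = CongBaux.Vs D (ck D) (-1) * P :=
    CongBaux.cube hmul hm 1
  have cW : CongBaux.Vs D (ck D) (-1) ^ 3 = CongBaux.Vs D (ck D) 1 * N := by
    have := CongBaux.cube hmul hm (-1)
    rw [neg_neg] at this
    exact this
  have hVW : CongBaux.Vs D (ck D) 1 ^ 4 * N = CongBaux.Vs D (ck D) (-1) ^ 4 * P := by
    linear_combination CongBaux.Vs D (ck D) (-1) ^ 3 * cV - CongBaux.Vs D (ck D) 1 ^ 3 * cW
  have hV0 : CongBaux.Vs D (ck D) 1 ≠ 0 := CongBaux.Vs_ne ck0 one_ne_zero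
  have hW0 : CongBaux.Vs D (ck D) (-1) ≠ 0 := CongBaux.Vs_ne ck0 (by norm_num)
  have hE0 : 0 < eps D t u := by
    unfold eps
    have h1 : (0 : ℝ) < t := by exact_mod_cast ht
    have h2 : (0 : ℝ) < u := by exact_mod_cast hu
    positivity
  have hEc : ((eps D t u : ℝ) : ℂ) = ((t : ℂ) + u * rt D) / 2 := by
    unfold eps rt
    push_cast
    rfl
  have hEint : IsIntegral ℤ ((((t : ℂ) + u * rt D) / 2) ^ (8 * h)) := (integral_eps htu).pow _
  have hsum := CongBaux.sum_yy (D := D) ck3 hτ m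
  rw [← hs₁] at hsum
  have hfin : ∃ (c : ℤ) (z : ℂ), ¬ (3 : ℤ) ∣ c ∧ IsIntegral ℤ z ∧
      (((t : ℂ) + u * rt D) / 2) ^ (8 * h) = 1 + 3 * c * rt D + 9 * z := by
    rw [LRB_eq ck3 ck0] at hLR
    rcases le_total 0 (Real.log ‖CongBaux.Vs D (ck D) 1‖ -
      Real.log ‖CongBaux.Vs D (ck D) (-1)‖) with hle | hle
    · rw [abs_of_nonneg hle] at hLR
      have h1 := rel hV0 hW0 (CongBaux.Vs_pow hneg 1) (CongBaux.Vs_pow hneg (-1)) hE0 hVW hLR
      rw [hEc] at h1
      obtain ⟨z, hz, h2⟩ := cong_unit hEint _ _ h1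
      rw [hsum] at h2
      rcases hτr with h4 | h4
      · refine ⟨-(e * s₁), z, fun hd => hes ((dvd_neg).mp hd), hz, ?_⟩
        rw [h2, h4]
        push_cast
        ring
      · refine ⟨e * s₁, z, hes, hz, ?_⟩
        rw [h2, h4]
        push_cast
        ring
    · rw [abs_of_nonpos hle, neg_sub] at hLR
      have h1 := rel hW0 hV0 (CongBaux.Vs_pow hneg (-1)) (CongBaux.Vs_pow hneg 1) hE0 hVW.symm hLR
      rw [hEc] at h1
      obtain ⟨z, hz, h2⟩ := cong_unit hEint _ _ h1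
      have h5 : ∑ x ∈ (Finset.univ : Finset (ZMod D)).filter (fun x => ck D x = -1), yy D m x -
          ∑ x ∈ (Finset.univ : Finset (ZMod D)).filter (fun x => ck D x = 1), yy D m x =
          -((s₁ : ℂ) * τ) := by
        rw [← hsum]
        ring
      rw [h5] at h2
      rcases hτr with h4 | h4
      · refine ⟨e * s₁, z, hes, hz, ?_⟩
        rw [h2, h4]
        push_cast
        ring
      · refine ⟨-(e * s₁), z, fun hd => hes ((dvd_neg).mp hd), hz, ?_⟩
        rw [h2, h4]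
        push_cast
        ring
  obtain ⟨c, z, hc, hz, h4⟩ := hfin
  exact final hLam hD3 htu hc hz h4

end LO

end Pool.Agent.Lib.MP_7c5fb9_nt
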