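import Pool.Agent.Lib.MP_7c5fb9_nt.LO.Stmts

set_option autoImplicit false

/-!
# Level one (MP_7c5fb9_nt, project LO): the two functions (module Ex)

Both functions are homogeneous and of level `27`, so all the relations have to be checked for the
forms `(1, b, c)` modulo `27` only.
-/

namespace Pool.Agent.Lib.MP_7c5fb9_nt

namespace LO

namespace ExAux

theorem disc_act (Q : Frm) (M : Mat) : disc (act Q M) = M.det ^ 2 * disc Q := by
  rw [Matrix.det_fin_two]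
  simp only [disc, act, Matrix.cons_val_zero, Matrix.cons_val_one, Matrix.cons_val]
  ring

theorem disc_mir (Q : Frm) : disc (mir Q) = disc Q := by
  simp only [disc, mir, Matrix.cons_val_zero, Matrix.cons_val_one, Matrix.cons_val]
  ring

theorem disc_smul (c : ℤ) (Q : Frm) : disc (fun i => c * Q i) = c ^ 2 * disc Q := by
  simp only [disc]
  ring

theorem disc_add (n : ℤ) (Q R : Frm) : disc (fun i => Q i + n * R i) =
    disc Q + n * (2 * Q 1 * R 1 + n * R 1 ^ 2 - 4 * (Q 0 * R 2 + R 0 * Q 2 + n * R 0 * R 2)) := by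
  simp only [disc]
  ring

theorem act_add (n : ℤ) (Q R : Frm) (M : Mat) :
    act (fun i => Q i + n * R i) M = fun i => act Q M i + n * act R M i := by
  funext i
  fin_cases i <;>
    simp only [act, Fin.zero_eta, Fin.mk_one, Fin.reduceFinMk, Matrix.cons_val_zero,
      Matrix.cons_val_one, Matrix.cons_val] <;> ring

theorem act_smul (c : ℤ) (Q : Frm) (M : Mat) :
    act (fun i => c * Q i) M = fun i => c * act Q M i := by
  funext i
  fin_cases i <;>
    simp only [act, Fin.zero_eta, Fin.mk_one, Fin.reduceFinMk, Matrix.cons_val_zero,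
      Matrix.cons_val_one, Matrix.cons_val] <;> ring

theorem mir_add (n : ℤ) (Q R : Frm) :
    mir (fun i => Q i + n * R i) = fun i => mir Q i + n * mir R i := by
  funext i
  fin_cases i <;>
    simp only [mir, Fin.zero_eta, Fin.mk_one, Fin.reduceFinMk, Matrix.cons_val_zero,
      Matrix.cons_val_one, Matrix.cons_val] <;> ring

theorem mir_smul (c : ℤ) (Q : Frm) :
    mir (fun i => c * Q i) = fun i => c * mir Q i := by
  funext i
  fin_cases i <;>
    simp only [mir, Fin.zero_eta, Fin.mk_one, Fin.reduceFinMk, Matrix.cons_val_zero,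
      Matrix.cons_val_one, Matrix.cons_val] <;> ring

/-- Functions of level `27`, homogeneous, supported on the discriminants `2` modulo `3`. -/
structure Nice (F : Frm → ZMod 3) : Prop where
  per : ∀ Q R : Frm, F (fun i => Q i + 27 * R i) = F Q
  scal : ∀ (c : ℤ) (Q : Frm), ¬ (3 : ℤ) ∣ c → F (fun i => c * Q i) = (c : ZMod 3) * F Q
  supp : ∀ Q : Frm, disc Q % 3 ≠ 2 → F Q = 0

theorem pow_mod (a b n : ℤ) (k : ℕ) (h : a % n = b % n) : a ^ k % n = b ^ k % n :=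
  Int.ModEq.pow k h

theorem sq_mod (c : ℤ) (h : ¬ (3 : ℤ) ∣ c) : c ^ 2 % 3 = 1 := by
  have h1 : c % 3 = 1 ∨ c % 3 = 2 := by omega
  rcases h1 with h1 | h1 <;> simp [pow_two, Int.mul_emod, h1]

theorem disc_mod (c D : ℤ) (h : ¬ (3 : ℤ) ∣ c) : c ^ 2 * D % 3 = D % 3 := by
  rw [Int.mul_emod, sq_mod c h]
  simp

theorem pow18 (c : ℤ) (h : ¬ (3 : ℤ) ∣ c) : ∃ t : ℤ, c ^ 18 = 1 + 27 * t := by
  have h1 : c ^ 18 % 27 = 1 := by
    have h2 : ∀ x : Fin 27, (x : ℕ) % 3 ≠ 0 → ((x : ℕ) : ℤ) ^ 18 % 27 = 1 := by decide +kernel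
    have h3 := h2 ⟨(c % 27).toNat, by omega⟩ (by simp only; omega)
    have h4 : (((c % 27).toNat : ℕ) : ℤ) = c % 27 := Int.toNat_of_nonneg (by omega)
    simp only [h4] at h3
    rw [← h3]
    exact pow_mod _ _ _ _ (by omega)
  exact ⟨c ^ 18 / 27, by omega⟩

theorem Nice.ext0 {F : Frm → ZMod 3} (hF : Nice F)
    (h : ∀ b c : Fin 27, disc ![1, ((b : ℕ) : ℤ), ((c : ℕ) : ℤ)] % 3 = 2 →
      F ![1, ((b : ℕ) : ℤ), ((c : ℕ) : ℤ)] = 0) : F = 0 := by
  funext Q
  by_cases hd : disc Q % 3 = 2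
  swap
  · exact hF.supp Q hd
  have h3 : ¬ (3 : ℤ) ∣ Q 0 := by
    rintro ⟨x, hx⟩
    have h4 : disc Q % 3 = Q 1 ^ 2 % 3 := by
      have : disc Q = Q 1 ^ 2 + 3 * (-4 * x * Q 2) := by
        rw [disc, hx]
        ring
      rw [this, Int.add_mul_emod_self_left]
    rw [h4] at hd
    by_cases h5 : (3 : ℤ) ∣ Q 1
    · obtain ⟨y, hy⟩ := h5
      rw [hy, mul_pow] at hd
      omega
    · rw [sq_mod _ h5] at hd
      omega
  have h3' : ¬ (3 : ℤ) ∣ Q 0 ^ 17 := fun h5 => h3 (Int.prime_three.dvd_of_dvd_pow h5)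
  have e1 := hF.scal (Q 0 ^ 17) Q h3'
  obtain ⟨t, ht⟩ := pow18 (Q 0) h3
  set b : ℤ := Q 0 ^ 17 * Q 1 with hb
  set c : ℤ := Q 0 ^ 17 * Q 2 with hc
  have e2 : (fun i => Q 0 ^ 17 * Q i) =
      fun i => (![1, b % 27, c % 27] : Frm) i + 27 * (![t, b / 27, c / 27] : Frm) i := by
    funext i
    fin_cases i
    · simp only [Fin.zero_eta, Matrix.cons_val_zero]
      rw [← ht]
      ring
    · simp only [Fin.mk_one, Matrix.cons_val_one, Matrix.cons_val_zero]
      rw [← hb]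
      omega
    · simp only [Fin.reduceFinMk, Matrix.cons_val]
      rw [← hc]
      omega
  have e3 : disc ![1, b % 27, c % 27] % 3 = 2 := by
    have h6 := disc_smul (Q 0 ^ 17) Q
    have h7 := disc_add 27 ![1, b % 27, c % 27] ![t, b / 27, c / 27]
    rw [← e2, h6] at h7
    have h8 := disc_mod (Q 0 ^ 17) (disc Q) h3'
    rw [h7] at h8
    omega
  rw [e2, hF.per] at e1
  have e4 : F ![1, b % 27, c % 27] = 0 := by
    have h9 := h ⟨(b % 27).toNat, by omega⟩ ⟨(c % 27).toNat, by omega⟩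
    have h10 : (((b % 27).toNat : ℕ) : ℤ) = b % 27 := Int.toNat_of_nonneg (by omega)
    have h11 : (((c % 27).toNat : ℕ) : ℤ) = c % 27 := Int.toNat_of_nonneg (by omega)
    simp only [h10, h11] at h9
    exact h9 e3
  rw [e4] at e1
  have e5 : ((Q 0 ^ 17 : ℤ) : ZMod 3) ≠ 0 := by
    rw [Ne, ZMod.intCast_zmod_eq_zero_iff_dvd]
    exact_mod_cast h3'
  have := mul_eq_zero.1 e1.symm
  simpa using this.resolve_left e5

theorem Nice.act {F : Frm → ZMod 3} (hF : Nice F) (M : Mat) (hM : ¬ (3 : ℤ) ∣ M.det) :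
    Nice fun Q => F (act Q M) where
  per Q R := by
    rw [act_add]
    exact hF.per _ _
  scal c Q hc := by
    rw [act_smul]
    exact hF.scal c _ hc
  supp Q hQ := by
    refine hF.supp _ ?_
    rwa [disc_act, disc_mod _ _ hM]

theorem Nice.mir {F : Frm → ZMod 3} (hF : Nice F) : Nice fun Q => F (mir Q) where
  per Q R := by
    rw [mir_add]
    exact hF.per _ _
  scal c Q hc := by
    rw [mir_smul]
    exact hF.scal c _ hc
  supp Q hQ := by
    refine hF.supp _ ?_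
    rwa [disc_mir]

theorem Nice.add {F G : Frm → ZMod 3} (hF : Nice F) (hG : Nice G) :
    Nice fun Q => F Q + G Q where
  per Q R := by rw [hF.per, hG.per]
  scal c Q hc := by rw [hF.scal c Q hc, hG.scal c Q hc, mul_add]
  supp Q hQ := by rw [hF.supp Q hQ, hG.supp Q hQ, add_zero]

theorem Nice.smul {F : Frm → ZMod 3} (hF : Nice F) (k : ZMod 3) : Nice fun Q => k * F Q where
  per Q R := by rw [hF.per]
  scal c Q hc := by rw [hF.scal c Q hc]; ring
  supp Q hQ := by rw [hF.supp Q hQ, mul_zero]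

theorem Nice.zero : Nice fun _ => 0 where
  per _ _ := rfl
  scal _ _ _ := by simp
  supp _ _ := rfl

theorem Nice.TL {F : Frm → ZMod 3} (hF : Nice F) (L : List Mat)
    (hL : ∀ M ∈ L, ¬ (3 : ℤ) ∣ M.det) : Nice (TL L F) := by
  induction L with
  | nil => simpa [LO.TL, funext_iff] using! Nice.zero
  | cons M L ih =>
    have h1 := ih fun N hN => hL N (List.mem_cons_of_mem _ hN)
    have h2 := hF.act M (hL M List.mem_cons_self)
    have h3 := h2.add h1
    have h4 : (fun Q => F (LO.act Q M) + LO.TL L F Q) = LO.TL (M :: L) F := by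
      funext Q
      simp [LO.TL]
    rwa [h4] at h3

theorem det_L2 : ∀ M ∈ L2, ¬ (3 : ℤ) ∣ M.det := by
  intro M hM
  simp only [L2, List.mem_cons, List.not_mem_nil, or_false] at hM
  rcases hM with rfl | rfl | rfl | rfl <;> simp [Matrix.det_fin_two]

theorem det_L7 : ∀ M ∈ L7, ¬ (3 : ℤ) ∣ M.det := by
  intro M hM
  simp only [L7, List.mem_cons, List.not_mem_nil, or_false] at hM
  rcases hM with rfl | rfl | rfl | rfl | rfl | rfl | rfl | rfl | rfl | rfl | rfl | rfl | rfl |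
    rfl | rfl | rfl | rfl | rfl | rfl | rfl | rfl <;> simp [Matrix.det_fin_two]

/-- periodicity and homogeneity of the second function -/
theorem nice_u4 : Nice u4 where
  per Q R := by
    have hd := disc_add 27 Q R
    set E := 2 * Q 1 * R 1 + 27 * R 1 ^ 2 - 4 * (Q 0 * R 2 + R 0 * Q 2 + 27 * R 0 * R 2) with hE
    have h1 : disc (fun i => Q i + 27 * R i) % 3 = disc Q % 3 := by
      rw [hd]
      omega
    have h0 : (Q 0 + 27 * R 0) % 27 = Q 0 % 27 := Int.add_mul_emod_self_left _ _ _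
    have h2 : (disc (fun i => Q i + 27 * R i) * (Q 0 + 27 * R 0) ^ 16) % 27 =
        (disc Q * Q 0 ^ 16) % 27 := by
      have : disc (fun i => Q i + 27 * R i) % 27 = disc Q % 27 := by
        rw [hd, Int.add_mul_emod_self_left]
      rw [Int.mul_emod, this, pow_mod _ _ _ 16 h0, ← Int.mul_emod]
    have h3 : ((Q 1 + 27 * R 1) * (Q 0 + 27 * R 0) ^ 17) % 27 = (Q 1 * Q 0 ^ 17) % 27 := by
      have : (Q 1 + 27 * R 1) % 27 = Q 1 % 27 := Int.add_mul_emod_self_left _ _ _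
      rw [Int.mul_emod, this, pow_mod _ _ _ 17 h0, ← Int.mul_emod]
    have h4 : ((Q 0 + 27 * R 0 : ℤ) : ZMod 3) = (Q 0 : ZMod 3) := by
      push_cast
      have : (27 : ZMod 3) = 0 := by decide
      rw [this]
      ring
    simp only [u4]
    rw [h1, h2, h3, h4]
  scal c Q hc := by
    have hd := disc_smul c Q
    obtain ⟨t, ht⟩ := pow18 c hc
    have h1 : disc (fun i => c * Q i) % 3 = disc Q % 3 := by
      rw [hd, disc_mod _ _ hc]
    have h2 : (disc (fun i => c * Q i) * (c * Q 0) ^ 16) % 27 = (disc Q * Q 0 ^ 16) % 27 := by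
      have : disc (fun i => c * Q i) * (c * Q 0) ^ 16 =
          disc Q * Q 0 ^ 16 + 27 * (t * (disc Q * Q 0 ^ 16)) := by
        rw [hd]
        linear_combination (disc Q * Q 0 ^ 16) * ht
      rw [this, Int.add_mul_emod_self_left]
    have h3 : (c * Q 1 * (c * Q 0) ^ 17) % 27 = (Q 1 * Q 0 ^ 17) % 27 := by
      have : c * Q 1 * (c * Q 0) ^ 17 = Q 1 * Q 0 ^ 17 + 27 * (t * (Q 1 * Q 0 ^ 17)) := by
        linear_combination (Q 1 * Q 0 ^ 17) * ht
      rw [this, Int.add_mul_emod_self_left]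
    simp only [u4]
    rw [h1, h2, h3]
    split_ifs
    · push_cast
      ring
    · simp
  supp Q hQ := by
    rw [u4, if_neg hQ]

theorem lam_per (D x d e : ℤ) : lam (D + 9 * d) (x + 9 * e) (-1) = lam D x (-1) := by
  have h1 : 4 * (x + 9 * e) * (-1) * ((x + 9 * e) ^ 2 + (D + 9 * d) * (-1) ^ 2) =
      4 * x * (-1) * (x ^ 2 + D * (-1) ^ 2) +
        9 * (-4 * (3 * x ^ 2 * e + 27 * x * e ^ 2 + 81 * e ^ 3 + x * d + e * D + 9 * e * d)) := by
    ring
  have h2 : ∀ A s : ℤ, (A + 9 * s) / 3 = A / 3 + 3 * s := fun A s => by omega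
  have h3 : (3 : ZMod 3) = 0 := by decide
  have h4 : (9 : ZMod 3) = 0 := by decide
  rw [lam, lam, h1, h2]
  push_cast
  simp only [h3, h4]
  ring

theorem lam_scal (D x c : ℤ) (hD : D % 3 = 2) (hc : ¬ (3 : ℤ) ∣ c) :
    lam (c ^ 2 * D) (c * x) (-1) = (c : ZMod 3) * lam D x (-1) := by
  obtain ⟨B, hB⟩ : ∃ B : ℤ, 4 * x * (-1) * (x ^ 2 + D * (-1) ^ 2) = 3 * B := by
    obtain ⟨d, hd⟩ : ∃ d : ℤ, D = 3 * d + 2 := ⟨D / 3, by omega⟩
    obtain ⟨y, hy⟩ : ∃ y : ℤ, x ^ 3 - x = 3 * y := by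
      have h5 : ∀ z : ZMod 3, z ^ 3 - z = 0 := by decide
      have h6 := h5 (x : ZMod 3)
      have h7 : ((x ^ 3 - x : ℤ) : ZMod 3) = 0 := by
        push_cast
        exact h6
      exact (ZMod.intCast_zmod_eq_zero_iff_dvd _ 3).1 h7
    refine ⟨-4 * (y + x + x * d), ?_⟩
    rw [hd]
    linear_combination (-4) * hy
  have h1 : 4 * (c * x) * (-1) * ((c * x) ^ 2 + c ^ 2 * D * (-1) ^ 2) = 3 * (c ^ 3 * B) := by
    linear_combination (c ^ 3) * hB
  have h2 : ∀ A : ℤ, 3 * A / 3 = A := fun A => by omega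
  have h3 : ∀ z : ZMod 3, z ≠ 0 → z ^ 3 = z ∧ z ^ 4 = 1 := by decide
  have h4 : (c : ZMod 3) ≠ 0 := by
    rw [Ne, ZMod.intCast_zmod_eq_zero_iff_dvd]
    exact_mod_cast hc
  obtain ⟨h5, h6⟩ := h3 _ h4
  rw [lam, lam, h1, hB, h2, h2]
  push_cast
  linear_combination ((c : ZMod 3) ^ 3 * B * (x ^ 4 + 6 * x ^ 2 * D + D ^ 2)) * h6 +
    (B * (x ^ 4 + 6 * x ^ 2 * D + D ^ 2) : ZMod 3) * h5

theorem per9_g0 (Q R : Frm) : g0 (fun i => Q i + 9 * R i) = g0 Q := by
  have hd := disc_add 9 Q R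
  set E := 2 * Q 1 * R 1 + 9 * R 1 ^ 2 - 4 * (Q 0 * R 2 + R 0 * Q 2 + 9 * R 0 * R 2) with hE
  have h1 : disc (fun i => Q i + 9 * R i) % 3 = disc Q % 3 := by
    rw [hd]
    omega
  rw [g0, g0, h1, hd, lam_per]

theorem nice_g0 : Nice g0 where
  per Q R := by
    have := per9_g0 Q fun i => 3 * R i
    rw [← this]
    congr 1
    funext i
    ring
  scal c Q hc := by
    have hd := disc_smul c Q
    have h1 : disc (fun i => c * Q i) % 3 = disc Q % 3 := by
      rw [hd, disc_mod _ _ hc]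
    rw [g0, g0, h1]
    split_ifs with h
    · rw [hd, lam_scal _ _ _ h hc]
    · rw [mul_zero]
  supp Q hQ := by
    rw [g0, if_neg hQ]

theorem pf_of_nice (m : ℕ) (u : Frm → ZMod 3) (hu : Nice u)
    (hper : ∀ Q R : Frm, u (fun i => Q i + 3 ^ m * R i) = u Q)
    (hm : ∀ b c : Fin 27, disc ![1, ((b : ℕ) : ℤ), ((c : ℕ) : ℤ)] % 3 = 2 →
      u (mir ![1, ((b : ℕ) : ℤ), ((c : ℕ) : ℤ)]) + u ![1, ((b : ℕ) : ℤ), ((c : ℕ) : ℤ)] = 0)
    (hS : ∀ b c : Fin 27, disc ![1, ((b : ℕ) : ℤ), ((c : ℕ) : ℤ)] % 3 = 2 →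
      u (act ![1, ((b : ℕ) : ℤ), ((c : ℕ) : ℤ)] mS) + u ![1, ((b : ℕ) : ℤ), ((c : ℕ) : ℤ)] = 0)
    (hU : ∀ b c : Fin 27, disc ![1, ((b : ℕ) : ℤ), ((c : ℕ) : ℤ)] % 3 = 2 →
      u ![1, ((b : ℕ) : ℤ), ((c : ℕ) : ℤ)] + u (act ![1, ((b : ℕ) : ℤ), ((c : ℕ) : ℤ)] mU) +
        u (act ![1, ((b : ℕ) : ℤ), ((c : ℕ) : ℤ)] (mU * mU)) = 0) : PF m u where
  per := hper
  supp := hu.supp
  scal := hu.scal
  mir Q := by
    have := (hu.mir.add hu).ext0 hm
    exact eq_neg_of_add_eq_zero_left (congrFun this Q)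
  S Q := by
    have h : ¬ (3 : ℤ) ∣ mS.det := by
      simp [mS, Matrix.det_fin_two]
    have := ((hu.act mS h).add hu).ext0 hS
    exact eq_neg_of_add_eq_zero_left (congrFun this Q)
  U Q := by
    have h : ¬ (3 : ℤ) ∣ mU.det := by
      simp [mU, Matrix.det_fin_two]
    have h2 : ¬ (3 : ℤ) ∣ (mU * mU).det := by
      rw [Matrix.det_mul]
      simp [mU, Matrix.det_fin_two]
    have := ((hu.add (hu.act mU h)).add (hu.act (mU * mU) h2)).ext0 hU
    exact congrFun this Q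

end ExAux

end LO

end Pool.Agent.Lib.MP_7c5fb9_nt
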