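import Pool.Agent.Lib.MP_7c5fb9_nt.LO.ExBase

set_option autoImplicit false

/-! (Ex) the period relations. -/

namespace Pool.Agent.Lib.MP_7c5fb9_nt

namespace LO

namespace ExAux

set_option maxRecDepth 100000 in
theorem pf_g0 : PF 2 g0 :=
  pf_of_nice 2 g0 nice_g0 (fun Q R => by simpa using per9_g0 Q R) (by decide +kernel)
    (by decide +kernel) (by decide +kernel)

set_option maxRecDepth 100000 in
theorem pf_u4 : PF 3 u4 :=
  pf_of_nice 3 u4 nice_u4 (fun Q R => by simpa using nice_u4.per Q R) (by decide +kernel)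
    (by decide +kernel) (by decide +kernel)

end ExAux

end LO

end Pool.Agent.Lib.MP_7c5fb9_nt
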