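import Mathlib
import Pool.Agent.Lib.MP_7c5fb9_nt.LO.Stmts
import Pool.Agent.Lib.MP_7c08ba_nt.RZ.Coef

set_option autoImplicit false

/-! Primitives of the products of a cusp form and a polynomial. -/

namespace Pool.Agent.Lib.MP_7c5fb9_nt

namespace LO

open Pool.Agent.Lib.MP_7c08ba_nt.RZ UpperHalfPlane Filter Topology
open scoped MatrixGroups Polynomial

namespace Prim

variable {w : ℕ} (f : CuspForm 𝒮ℒ (w : ℤ))

/-- The terms of the series. -/
noncomputable def tm (j n : ℕ) (z : ℂ) : ℂ :=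
  coef f n * ((2 * Real.pi * Complex.I * n) ^ j)⁻¹ * ee (n * z)

theorem norm_ee' (n : ℕ) (z : ℂ) : ‖ee (n * z)‖ = Real.exp (-(2 * Real.pi * z.im) * n) := by
  rw [CoefAux.norm_ee, ← Real.exp_nat_mul]
  congr 1
  ring

theorem hasDeriv_ee (n : ℕ) (z : ℂ) :
    HasDerivAt (fun z : ℂ => ee (n * z)) (2 * Real.pi * Complex.I * n * ee (n * z)) z := by
  have h1 : HasDerivAt (fun z : ℂ => 2 * Real.pi * Complex.I * (n * z))
      (2 * Real.pi * Complex.I * (n * 1)) z :=
    ((hasDerivAt_id z).const_mul (n : ℂ)).const_mul _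
  have h2 := h1.cexp
  unfold ee
  exact h2.congr_deriv (by ring)

theorem hasDeriv_tm (j n : ℕ) (z : ℂ) : HasDerivAt (tm f (j + 1) n) (tm f j n z) z := by
  have h := (hasDeriv_ee n z).const_mul (coef f n * ((2 * Real.pi * Complex.I * n) ^ (j + 1))⁻¹)
  unfold tm
  refine h.congr_deriv ?_
  rcases Nat.eq_zero_or_pos n with rfl | hn
  · rw [(stCoef w f).1]
    simp
  · have h2 : (n : ℂ) ≠ 0 := by exact_mod_cast hn.ne'
    rw [pow_succ]
    field_simp

theorem norm_tm (j n : ℕ) (z : ℂ) :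
    ‖tm f j n z‖ ≤ ‖coef f n‖ * Real.exp (-(2 * Real.pi * z.im) * n) := by
  unfold tm
  rw [norm_mul, norm_mul, norm_ee']
  refine mul_le_mul_of_nonneg_right ?_ (Real.exp_pos _).le
  rcases Nat.eq_zero_or_pos n with rfl | hn
  · rw [(stCoef w f).1]
    simp
  · have h1 : 1 ≤ ‖(2 * Real.pi * Complex.I * n : ℂ) ^ j‖ := by
      rw [norm_pow]
      apply one_le_pow₀
      have h2 : ‖(2 * Real.pi * Complex.I * n : ℂ)‖ = 2 * Real.pi * n := by
        rw [norm_mul, norm_mul, norm_mul, Complex.norm_I, Complex.norm_natCast, Complex.norm_real,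
          Real.norm_of_nonneg Real.pi_pos.le]
        simp
      rw [h2]
      have h3 := Real.pi_gt_three
      have h4 : (1 : ℝ) ≤ n := by exact_mod_cast hn
      nlinarith
    rw [norm_inv]
    exact mul_le_of_le_one_right (norm_nonneg _) (inv_le_one_of_one_le₀ h1)

theorem summable_u {δ : ℝ} (hδ : 0 < δ) :
    Summable fun n : ℕ => ‖coef f n‖ * Real.exp (-(2 * Real.pi * δ) * n) := by
  have h := ((stCoef w f).2.2.1 (δ * Complex.I) (by simpa using hδ)).1
  refine h.congr fun n => ?_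
  rw [norm_mul, norm_ee']
  simp

theorem hasDeriv_Fj (j : ℕ) {z : ℂ} (hz : 0 < z.im) :
    HasDerivAt (Fj f (j + 1)) (Fj f j z) z := by
  have hδ : 0 < z.im / 2 := by positivity
  have hopen : IsOpen {y : ℂ | z.im / 2 < y.im} := isOpen_lt continuous_const Complex.continuous_im
  have hconv : IsPreconnected {y : ℂ | z.im / 2 < y.im} := by
    refine Convex.isPreconnected ?_
    exact convex_halfSpace_im_gt _
  have hmem : z ∈ {y : ℂ | z.im / 2 < y.im} := by
    change z.im / 2 < z.im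
    linarith
  have hle : ∀ (i n : ℕ) (y : ℂ), y ∈ {y : ℂ | z.im / 2 < y.im} →
      ‖tm f i n y‖ ≤ ‖coef f n‖ * Real.exp (-(2 * Real.pi * (z.im / 2)) * n) := by
    intro i n y hy
    refine (norm_tm f i n y).trans ?_
    refine mul_le_mul_of_nonneg_left (Real.exp_le_exp.2 ?_) (norm_nonneg _)
    have h1 : z.im / 2 ≤ y.im := le_of_lt hy
    have h2 : (0 : ℝ) ≤ n := Nat.cast_nonneg n
    have h3 := Real.pi_pos
    nlinarith [mul_nonneg (mul_nonneg (sub_nonneg.2 h1) h2) h3.le]
  exact hasDerivAt_tsum_of_isPreconnected (summable_u f hδ) hopen hconv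
    (fun n y _ => hasDeriv_tm f j n y) (fun n y hy => hle j n y hy) hmem
    (Summable.of_norm_bounded (summable_u f hδ) fun n => hle (j + 1) n z hmem) hmem

theorem Fj_zero {z : ℂ} (hz : 0 < z.im) : Fj f 0 z = f (ofComplex z) := by
  rw [((stCoef w f).2.2.1 z hz).2]
  unfold Fj
  refine tsum_congr fun n => ?_
  rw [pow_zero, inv_one, mul_one]

theorem norm_Fj : ∃ K : ℝ, 0 ≤ K ∧ ∀ (j : ℕ) (z : ℂ), 1 / 2 ≤ z.im →
    ‖Fj f j z‖ ≤ K * Real.exp (-(2 * Real.pi * z.im)) := by
  have hs := summable_u f (δ := 1 / 2) (by norm_num)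
  refine ⟨Real.exp Real.pi * ∑' n : ℕ, ‖coef f n‖ * Real.exp (-(2 * Real.pi * (1 / 2)) * n),
    by positivity, fun j z hz => ?_⟩
  have hle : ∀ n : ℕ, ‖tm f j n z‖ ≤
      (‖coef f n‖ * Real.exp (-(2 * Real.pi * (1 / 2)) * (n : ℝ))) *
        (Real.exp Real.pi * Real.exp (-(2 * Real.pi * z.im))) := by
    intro n
    refine (norm_tm f j n z).trans ?_
    rcases Nat.eq_zero_or_pos n with rfl | hn
    · rw [(stCoef w f).1]
      simp
    rw [mul_assoc ‖coef f n‖]
    refine mul_le_mul_of_nonneg_left ?_ (norm_nonneg (coef f n))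
    rw [← Real.exp_add, ← Real.exp_add]
    apply Real.exp_le_exp.2
    have h4 : (1 : ℝ) ≤ n := by exact_mod_cast hn
    have h3 := Real.pi_pos
    nlinarith [mul_nonneg (mul_nonneg (sub_nonneg.2 hz) (sub_nonneg.2 h4)) h3.le]
  have h1 : ‖Fj f j z‖ ≤ _ := tsum_of_norm_bounded (f := fun n => tm f j n z) (hs.mul_right
    (Real.exp Real.pi * Real.exp (-(2 * Real.pi * z.im)))).hasSum hle
  refine h1.trans (le_of_eq ?_)
  rw [tsum_mul_right]
  ring

/-- The filter of `i ∞` in a vertical strip. -/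
def lB (B : ℝ) : Filter ℂ := comap Complex.im atTop ⊓ 𝓟 {z | |z.re| ≤ B}

theorem tendsto_im (B : ℝ) : Tendsto Complex.im (lB B) atTop :=
  tendsto_comap.mono_left inf_le_left

theorem ev_re (B : ℝ) : ∀ᶠ z in lB B, |z.re| ≤ B :=
  mem_inf_of_right (mem_principal_self _)

theorem mono_small (B : ℝ) (n : ℕ) :
    Tendsto (fun z : ℂ => ‖z ^ n‖ * Real.exp (-(2 * Real.pi * z.im))) (lB B) (𝓝 0) := by
  have h1 : Tendsto (fun x : ℝ => (B + x) ^ n * Real.exp (-(B + x)) * Real.exp B) atTop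
      (𝓝 (0 * Real.exp B)) := by
    refine Tendsto.mul_const _ ?_
    exact (Real.tendsto_pow_mul_exp_neg_atTop_nhds_zero n).comp
      (tendsto_atTop_add_const_left _ _ tendsto_id)
  rw [zero_mul] at h1
  refine squeeze_zero' (Eventually.of_forall fun z => by positivity) ?_ (h1.comp (tendsto_im B))
  have hev : ∀ᶠ z in lB B, 0 ≤ z.im := (tendsto_im B).eventually (eventually_ge_atTop 0)
  filter_upwards [ev_re B, hev] with z hz hz0
  simp only [Function.comp_apply]
  have h2 : ‖z‖ ≤ B + z.im := by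
    have := Complex.norm_le_abs_re_add_abs_im z
    rw [abs_of_nonneg hz0] at this
    linarith
  have h3 : ‖z ^ n‖ ≤ (B + z.im) ^ n := by
    rw [norm_pow]
    exact pow_le_pow_left₀ (norm_nonneg _) h2 n
  have h4 : Real.exp (-(2 * Real.pi * z.im)) ≤ Real.exp (-(B + z.im)) * Real.exp B := by
    rw [← Real.exp_add]
    apply Real.exp_le_exp.2
    have := Real.pi_gt_three
    nlinarith
  calc ‖z ^ n‖ * Real.exp (-(2 * Real.pi * z.im))
      ≤ (B + z.im) ^ n * (Real.exp (-(B + z.im)) * Real.exp B) :=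
        mul_le_mul h3 h4 (Real.exp_pos _).le ((norm_nonneg _).trans h3)
    _ = _ := by ring

theorem poly_small (B : ℝ) (Q : ℂ[X]) :
    Tendsto (fun z : ℂ => ‖Q.eval z‖ * Real.exp (-(2 * Real.pi * z.im))) (lB B) (𝓝 0) := by
  have h1 : Tendsto (fun z : ℂ => ∑ n ∈ Finset.range (Q.natDegree + 1),
      ‖Q.coeff n‖ * (‖z ^ n‖ * Real.exp (-(2 * Real.pi * z.im)))) (lB B)
      (𝓝 (∑ n ∈ Finset.range (Q.natDegree + 1), ‖Q.coeff n‖ * 0)) :=
    tendsto_finsetSum _ fun n _ => (mono_small B n).const_mul _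
  simp only [mul_zero, Finset.sum_const_zero] at h1
  refine squeeze_zero (fun z => by positivity) (fun z => ?_) h1
  rw [Polynomial.eval_eq_sum_range]
  calc ‖∑ i ∈ Finset.range (Q.natDegree + 1), Q.coeff i * z ^ i‖ *
        Real.exp (-(2 * Real.pi * z.im))
      ≤ (∑ i ∈ Finset.range (Q.natDegree + 1), ‖Q.coeff i * z ^ i‖) *
        Real.exp (-(2 * Real.pi * z.im)) :=
        mul_le_mul_of_nonneg_right (norm_sum_le _ _) (Real.exp_pos _).le
    _ = _ := by
        rw [Finset.sum_mul]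
        refine Finset.sum_congr rfl fun i _ => ?_
        rw [norm_mul]
        ring

theorem Gp_small (B : ℝ) (P : ℂ[X]) : Tendsto (Gp f P) (lB B) (𝓝 0) := by
  obtain ⟨K, hK0, hK⟩ := norm_Fj f
  have h1 : Tendsto (fun z : ℂ => ∑ j ∈ Finset.range w,
      K * (‖(Polynomial.derivative^[j] P).eval z‖ * Real.exp (-(2 * Real.pi * z.im)))) (lB B)
      (𝓝 (∑ j ∈ Finset.range w, K * 0)) :=
    tendsto_finsetSum _ fun j _ => (poly_small B _).const_mul _
  simp only [mul_zero, Finset.sum_const_zero] at h1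
  refine squeeze_zero_norm' ?_ h1
  have hev : ∀ᶠ z in lB B, 1 / 2 ≤ z.im := (tendsto_im B).eventually (eventually_ge_atTop _)
  filter_upwards [hev] with z hz
  unfold Gp
  refine (norm_sum_le _ _).trans (Finset.sum_le_sum fun j _ => ?_)
  rw [norm_mul, norm_mul, norm_pow, norm_neg, norm_one, one_pow, one_mul]
  calc ‖Fj f (j + 1) z‖ * ‖(Polynomial.derivative^[j] P).eval z‖
      ≤ (K * Real.exp (-(2 * Real.pi * z.im))) * ‖(Polynomial.derivative^[j] P).eval z‖ :=
        mul_le_mul_of_nonneg_right (hK (j + 1) z hz) (norm_nonneg _)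
    _ = _ := by ring

end Prim

open Prim

theorem stPrim : StPrim := by
  intro w f P hP
  constructor
  · intro z hz
    have h1 : HasDerivAt (Gp f P) (∑ j ∈ Finset.range w, ((-1) ^ j * Fj f j z *
        (Polynomial.derivative^[j] P).eval z + (-1) ^ j * Fj f (j + 1) z *
        (Polynomial.derivative^[j + 1] P).eval z)) z := by
      unfold Gp
      refine HasDerivAt.fun_sum fun j _ => ?_
      have h2 := ((hasDeriv_Fj f j hz).const_mul ((-1 : ℂ) ^ j)).mul
        ((Polynomial.derivative^[j] P).hasDerivAt z)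
      rw [Function.iterate_succ_apply']
      exact h2
    refine h1.congr_deriv ?_
    have h3 : ∑ j ∈ Finset.range w, ((-1) ^ j * Fj f j z *
        (Polynomial.derivative^[j] P).eval z + (-1) ^ j * Fj f (j + 1) z *
        (Polynomial.derivative^[j + 1] P).eval z) =
        ∑ j ∈ Finset.range w, ((-1) ^ j * Fj f j z * (Polynomial.derivative^[j] P).eval z -
          (-1) ^ (j + 1) * Fj f (j + 1) z * (Polynomial.derivative^[j + 1] P).eval z) := by
      refine Finset.sum_congr rfl fun j _ => ?_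
      rw [pow_succ]
      ring
    rw [h3, Finset.sum_range_sub' (fun j => (-1) ^ j * Fj f j z *
      (Polynomial.derivative^[j] P).eval z)]
    have h4 : Polynomial.derivative^[w] P = 0 := Polynomial.iterate_derivative_eq_zero hP
    simp only [h4, Polynomial.eval_zero, mul_zero, sub_zero, pow_zero, one_mul,
      Function.iterate_zero, id_eq]
    rw [Fj_zero f hz]
  · intro B ε hε
    have h1 := (Gp_small f B P).eventually (Metric.ball_mem_nhds (0 : ℂ) hε)
    unfold lB at h1
    rw [eventually_inf_principal, eventually_comap] at h1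
    obtain ⟨Y, hY⟩ := eventually_atTop.1 h1
    refine ⟨max Y 1, by positivity, fun z hz hzY => ?_⟩
    have h2 := hY z.im ((le_max_left _ _).trans hzY) z rfl hz
    have h3 := mem_ball_zero_iff.1 h2
    exact h3.le

end LO

end Pool.Agent.Lib.MP_7c5fb9_nt
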