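import Pool.Agent.Lib.MP_7c5fb9_nt.LO.KR.D

set_option autoImplicit false

/-! (RH) right translations preserve the filtration; first order; commutators. -/

namespace Pool.Agent.Lib.MP_7c5fb9_nt

namespace LO

open KR

/-- (RH) -/
theorem stRH : StRH := by
  refine ⟨?_, ?_, ?_⟩
  · intro m n h v hh hv hF
    have hA := (lev_iff m v).mp hv
    have h1 := R_fil hh n v ((fil_iff m n v hA).mp hF)
    exact (fil_iff m n _ (Fil_le_A h1)).mpr h1
  · intro m n c e N v hc hv hF
    have hA := (lev_iff m v).mp hv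
    have h1 := first (m := m) c e N hc n v ((fil_iff m (n + 2) v hA).mp hF)
    have h2 : Rt (c • ((1 : Mat) + (3 : ℤ) • ∑ i, e i • xm i) + (9 : ℤ) • N) v - v -
        ∑ i, (e i : ZMod 3) • Xd i v = (R (c • ((1 : Mt) + (3 : ℤ) • ∑ i, e i • J i) +
          (9 : ℤ) • N) - 1 - ∑ i, (e i : ZMod 3) • X i) v := by
      rw [LinearMap.sub_apply, LinearMap.sub_apply, Module.End.one_apply, LinearMap.sum_apply]
      simp only [LinearMap.smul_apply, xm_eq, Xd_eq]
      rfl
    rw [h2]
    exact (fil_iff m n _ (Fil_le_A h1)).mpr h1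
  · intro m n i j v hv hF
    have hA := (lev_iff m v).mp hv
    have h1 := comm_mem (m := m) i j n v ((fil_iff m (n + 3) v hA).mp hF)
    have h2 : Xd i (Xd j v) - Xd j (Xd i v) = (X i * X j - X j * X i) v := by
      rw [LinearMap.sub_apply, Module.End.mul_apply, Module.End.mul_apply]
      simp only [Xd_eq]
    rw [h2]
    exact (fil_iff m n _ (Fil_le_A h1)).mpr h1

end LO

end Pool.Agent.Lib.MP_7c5fb9_nt
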