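import Pool.Agent.Lib.MP_7c5fb9_nt.LO.Stmts
import Pool.Agent.Lib.MP_7c08ba_nt.RZ.W12

set_option autoImplicit false

/-!
# Level one (MP_7c5fb9_nt, project LO): reduction modulo `3`
-/

namespace Pool.Agent.Lib.MP_7c5fb9_nt

namespace LO

open Pool.Agent.Lib.MP_7c08ba_nt.RZ UpperHalfPlane
open scoped MatrixGroups Polynomial nonZeroDivisors

noncomputable section

namespace RedAux

theorem disc_act (Q : Frm) (M : Mat) : disc (act Q M) = M.det ^ 2 * disc Q := by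
  simp only [disc, act, Matrix.det_fin_two, Matrix.cons_val_zero, Matrix.cons_val_one,
    Matrix.cons_val]
  ring

theorem disc_mir (Q : Frm) : disc (mir Q) = disc Q := by
  simp only [disc, mir, Matrix.cons_val_zero, Matrix.cons_val_one, Matrix.cons_val]
  ring

theorem disc_smul (c : ℤ) (Q : Frm) : disc (fun i => c * Q i) = c ^ 2 * disc Q := by
  simp only [disc]
  ring

theorem sq_mod (n : ℤ) (hn : n % 3 = 1 ∨ n % 3 = 2) (a : ℤ) : (n ^ 2 * a) % 3 = a % 3 := by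
  have : n ^ 2 % 3 = 1 := by
    rcases hn with h | h <;> rw [pow_two, Int.mul_emod, h] <;> rfl
  rw [Int.mul_emod, this, one_mul, Int.emod_emod_of_dvd _ (dvd_refl _)]

theorem disc_act_mod (Q : Frm) (M : Mat) (hM : M.det % 3 = 1 ∨ M.det % 3 = 2) :
    disc (act Q M) % 3 = disc Q % 3 := by
  rw [disc_act, sq_mod _ hM]

theorem act_mul (Q : Frm) (M N : Mat) : act Q (M * N) = act (act Q M) N := by
  funext i
  fin_cases i <;>
    simp [act, Matrix.mul_apply, Fin.sum_univ_two] <;> ring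

theorem act_one (Q : Frm) : act Q 1 = Q := by
  funext i
  fin_cases i <;> simp [act]

/-- The function on forms attached to a homomorphism. -/
def FF (Φ : Frm → ℂ) (N : AddSubgroup ℂ) (hN : ∀ Q, disc Q % 3 = 2 → Φ Q ∈ N)
    (θ : N →+ ZMod 3) (Q : Frm) : ZMod 3 :=
  if h : disc Q % 3 = 2 then θ ⟨Φ Q, hN _ h⟩ else 0

variable {Φ : Frm → ℂ} {N : AddSubgroup ℂ} {hN : ∀ Q, disc Q % 3 = 2 → Φ Q ∈ N}

theorem FF_of (θ : N →+ ZMod 3) {Q : Frm} (h : disc Q % 3 = 2) :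
    FF Φ N hN θ Q = θ ⟨Φ Q, hN _ h⟩ := dif_pos h

theorem FF_of_not (θ : N →+ ZMod 3) {Q : Frm} (h : ¬ disc Q % 3 = 2) :
    FF Φ N hN θ Q = 0 := dif_neg h

/-- the homomorphisms as a submodule of functions -/
def GG (Φ : Frm → ℂ) (N : AddSubgroup ℂ) (hN : ∀ Q, disc Q % 3 = 2 → Φ Q ∈ N) :
    Submodule (ZMod 3) (Frm → ZMod 3) where
  carrier := {F | ∃ θ : N →+ ZMod 3, F = FF Φ N hN θ}
  add_mem' := by
    rintro _ _ ⟨θ, rfl⟩ ⟨θ', rfl⟩
    refine ⟨θ + θ', funext fun x => ?_⟩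
    rw [Pi.add_apply]
    by_cases hx : disc x % 3 = 2
    · rw [FF_of _ hx, FF_of _ hx, FF_of _ hx]; rfl
    · rw [FF_of_not _ hx, FF_of_not _ hx, FF_of_not _ hx, add_zero]
  zero_mem' := by
    refine ⟨0, funext fun x => ?_⟩
    by_cases hx : disc x % 3 = 2
    · rw [FF_of _ hx]; rfl
    · rw [FF_of_not _ hx]; rfl
  smul_mem' := by
    rintro c _ ⟨θ, rfl⟩
    refine ⟨(AddMonoidHom.mulLeft c).comp θ, funext fun x => ?_⟩
    rw [Pi.smul_apply]
    by_cases hx : disc x % 3 = 2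
    · rw [FF_of _ hx, FF_of _ hx]; rfl
    · rw [FF_of_not _ hx, FF_of_not _ hx, smul_zero]

theorem mem_GG {F : Frm → ZMod 3} : F ∈ GG Φ N hN ↔ ∃ θ : N →+ ZMod 3, F = FF Φ N hN θ := Iff.rfl

/-- scalars -/
theorem theta_mul (θ : N →+ ZMod 3) {v v' : ℂ} (hv : v ∈ N) (hv' : v' ∈ N) (n : ℤ)
    (h : v' = n * v) : θ ⟨v', hv'⟩ = (n : ZMod 3) * θ ⟨v, hv⟩ := by
  have e : (⟨v', hv'⟩ : N) = n • ⟨v, hv⟩ := by
    apply Subtype.ext
    simp [h]
  rw [e, map_zsmul, zsmul_eq_mul]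

/-- odd powers -/
theorem odd_pow (c : ℤ) (j : ℕ) : ((c ^ (2 * j + 1) : ℤ) : ZMod 3) = (c : ZMod 3) := by
  push_cast
  have h : ∀ x : ZMod 3, x ^ 3 = x := by decide
  induction j with
  | zero => simp
  | succ j ih =>
    calc (c : ZMod 3) ^ (2 * (j + 1) + 1) = (c : ZMod 3) ^ (2 * j) * (c : ZMod 3) ^ 3 := by ring
      _ = (c : ZMod 3) ^ (2 * j + 1) := by rw [h]; ring
      _ = _ := ih

theorem pf_FF {m k : ℕ} (hk : Even k) (hk1 : 1 ≤ k) (hm : 1 ≤ m)
    (hmir : ∀ Q : Frm, Φ (mir Q) = -Φ Q)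
    (hS : ∀ Q : Frm, Φ (act Q mS) = -Φ Q)
    (hU : ∀ Q : Frm, Φ Q + Φ (act Q mU) + Φ (act Q (mU * mU)) = 0)
    (hsc : ∀ (c : ℤ) (Q : Frm), Φ (fun i => c * Q i) = (c : ℂ) ^ (k - 1) * Φ Q)
    (hper : ∀ Q Q' : Frm, disc Q % 3 = 2 → disc Q' % 3 = 2 →
      (∀ i, (3 ^ m : ℤ) ∣ Q i - Q' i) → ∃ z ∈ N, Φ Q - Φ Q' = 3 * z)
    (θ : N →+ ZMod 3) : PF m (FF Φ N hN θ) where
  per Q R := by
    have hd : disc (fun i => Q i + 3 ^ m * R i) % 3 = disc Q % 3 := by
      obtain ⟨j, rfl⟩ : ∃ j, m = j + 1 := ⟨m - 1, by omega⟩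
      apply Int.ModEq.symm
      rw [Int.modEq_iff_dvd]
      refine ⟨3 ^ j * (R 1 * (2 * Q 1 + 3 ^ (j + 1) * R 1) -
        4 * (Q 0 * R 2 + R 0 * Q 2 + 3 ^ (j + 1) * R 0 * R 2)), ?_⟩
      simp only [disc]
      ring
    by_cases hQ : disc Q % 3 = 2
    · have hQ' : disc (fun i => Q i + 3 ^ m * R i) % 3 = 2 := hd.trans hQ
      rw [FF_of θ hQ, FF_of θ hQ']
      obtain ⟨z, hz, e⟩ := hper _ _ hQ' hQ (fun i => ⟨R i, by ring⟩)
      rw [← sub_eq_zero, ← map_sub]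
      have e' : (⟨Φ (fun i => Q i + 3 ^ m * R i), hN _ hQ'⟩ - ⟨Φ Q, hN _ hQ⟩ : N) =
          3 • ⟨z, hz⟩ := by
        apply Subtype.ext
        simp only [AddSubgroup.coe_sub, e]
        simp
      rw [e', map_nsmul]
      have : (3 : ZMod 3) = 0 := rfl
      rw [nsmul_eq_mul, Nat.cast_ofNat, this, zero_mul]
    · have hQ' : ¬ disc (fun i => Q i + 3 ^ m * R i) % 3 = 2 := fun h => hQ (hd.symm.trans h)
      rw [FF_of_not θ hQ, FF_of_not θ hQ']
  supp Q hQ := FF_of_not θ hQ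
  scal c Q hc := by
    have hc3 : c % 3 = 1 ∨ c % 3 = 2 := by omega
    have hd : disc (fun i => c * Q i) % 3 = disc Q % 3 := by
      rw [disc_smul, sq_mod c hc3]
    by_cases hQ : disc Q % 3 = 2
    · have hQ' : disc (fun i => c * Q i) % 3 = 2 := hd.trans hQ
      rw [FF_of θ hQ, FF_of θ hQ']
      obtain ⟨j, hj⟩ : ∃ j, k - 1 = 2 * j + 1 := by
        obtain ⟨i, rfl⟩ := hk
        exact ⟨i - 1, by omega⟩
      rw [theta_mul θ (hN _ hQ) (hN _ hQ') (c ^ (k - 1)) (by rw [hsc c Q]; push_cast; rfl), hj,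
        odd_pow]
    · have hQ' : ¬ disc (fun i => c * Q i) % 3 = 2 := fun h => hQ (hd.symm.trans h)
      rw [FF_of_not θ hQ, FF_of_not θ hQ', mul_zero]
  mir Q := by
    have hd : disc (mir Q) = disc Q := disc_mir Q
    by_cases hQ : disc Q % 3 = 2
    · have hQ' : disc (mir Q) % 3 = 2 := by rw [hd]; exact hQ
      rw [FF_of θ hQ, FF_of θ hQ']
      rw [theta_mul θ (hN _ hQ) (hN _ hQ') (-1) (by rw [hmir Q]; simp)]
      simp
    · have hQ' : ¬ disc (mir Q) % 3 = 2 := by rw [hd]; exact hQ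
      rw [FF_of_not θ hQ, FF_of_not θ hQ', neg_zero]
  S Q := by
    have hd : disc (act Q mS) = disc Q := by
      rw [disc_act]; simp [mS, Matrix.det_fin_two]
    by_cases hQ : disc Q % 3 = 2
    · have hQ' : disc (act Q mS) % 3 = 2 := by rw [hd]; exact hQ
      rw [FF_of θ hQ, FF_of θ hQ']
      rw [theta_mul θ (hN _ hQ) (hN _ hQ') (-1) (by rw [hS Q]; simp)]
      simp
    · have hQ' : ¬ disc (act Q mS) % 3 = 2 := by rw [hd]; exact hQ
      rw [FF_of_not θ hQ, FF_of_not θ hQ', neg_zero]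
  U Q := by
    have hd : disc (act Q mU) = disc Q := by
      rw [disc_act]; simp [mU, Matrix.det_fin_two]
    have hd' : disc (act Q (mU * mU)) = disc Q := by
      rw [disc_act]; simp [mU, Matrix.det_fin_two]
    by_cases hQ : disc Q % 3 = 2
    · have hQ' : disc (act Q mU) % 3 = 2 := by rw [hd]; exact hQ
      have hQ'' : disc (act Q (mU * mU)) % 3 = 2 := by rw [hd']; exact hQ
      rw [FF_of θ hQ, FF_of θ hQ', FF_of θ hQ'', ← map_add, ← map_add]
      have e : (⟨Φ Q, hN _ hQ⟩ + ⟨Φ (act Q mU), hN _ hQ'⟩ +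
          ⟨Φ (act Q (mU * mU)), hN _ hQ''⟩ : N) = 0 := by
        apply Subtype.ext
        exact hU Q
      rw [e, map_zero]
    · have hQ' : ¬ disc (act Q mU) % 3 = 2 := by rw [hd]; exact hQ
      have hQ'' : ¬ disc (act Q (mU * mU)) % 3 = 2 := by rw [hd']; exact hQ
      rw [FF_of_not θ hQ, FF_of_not θ hQ', FF_of_not θ hQ'', add_zero, add_zero]

theorem hecke_FF (L : List Mat) (hL : ∀ M ∈ L, M.det % 3 = 1 ∨ M.det % 3 = 2) (c : ℂ)
    (hc : ∀ Q : Frm, c * Φ Q = TL L Φ Q)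
    (hgen : N = AddSubgroup.closure (Set.image Φ {Q | disc Q % 3 = 2}))
    (θ : N →+ ZMod 3) : ∃ θ' : N →+ ZMod 3, TL L (FF Φ N hN θ) = FF Φ N hN θ' := by
  have hsum : ∀ (L' : List Mat), (∀ M ∈ L', M ∈ L) → ∀ Q : Frm, disc Q % 3 = 2 →
      ∃ h : TL L' Φ Q ∈ N, TL L' (FF Φ N hN θ) Q = θ ⟨_, h⟩ := by
    intro L'
    induction L' with
    | nil =>
      intro _ Q _
      refine ⟨by simp [TL], ?_⟩
      have e : (⟨TL [] Φ Q, by simp [TL]⟩ : N) = 0 := by
        apply Subtype.ext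
        simp [TL]
      rw [e, map_zero]
      simp [TL]
    | cons M L' ih =>
      intro hsub Q hQ
      obtain ⟨h, e⟩ := ih (fun q' hq' => hsub q' (by simp [hq'])) Q hQ
      have h1 : disc (act Q M) % 3 = 2 := by
        rw [disc_act_mod Q M (hL M (hsub M (by simp)))]; exact hQ
      have e1 : TL (M :: L') Φ Q = Φ (act Q M) + TL L' Φ Q := by
        simp [TL]
      have e2 : TL (M :: L') (FF Φ N hN θ) Q = FF Φ N hN θ (act Q M) + TL L' (FF Φ N hN θ) Q := by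
        simp [TL]
      refine ⟨?_, ?_⟩
      · rw [e1]
        exact N.add_mem (hN _ h1) h
      · rw [e2, e, FF_of θ h1, ← map_add]
        congr 1
  -- multiplication by `c`
  have hmul : ∀ v ∈ N, c * v ∈ N := by
    intro v hv
    have hle : N ≤ N.comap (AddMonoidHom.mulLeft c) := by
      rw [hgen, AddSubgroup.closure_le]
      rintro _ ⟨x, hx, rfl⟩
      change c * Φ x ∈ AddSubgroup.closure _
      rw [← hgen]
      have hx' : disc x % 3 = 2 := hx
      rw [hc x]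
      obtain ⟨h, -⟩ := hsum L (fun _ h => h) x hx'
      exact h
    exact hle hv
  let μ : N →+ N := ((AddMonoidHom.mulLeft c).comp N.subtype).codRestrict N
    fun v => hmul _ v.2
  refine ⟨θ.comp μ, funext fun x => ?_⟩
  by_cases hx : disc x % 3 = 2
  · rw [FF_of _ hx]
    obtain ⟨h, e⟩ := hsum L (fun _ h => h) x hx
    rw [e]
    have e1 : μ ⟨Φ x, hN _ hx⟩ = (⟨_, h⟩ : N) := by
      apply Subtype.ext
      change c * Φ x = _
      rw [hc _]
    change _ = θ (μ ⟨Φ x, hN _ hx⟩)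
    rw [e1]
  · rw [FF_of_not _ hx]
    unfold TL
    rw [List.sum_eq_zero]
    intro z hz
    rw [List.mem_map] at hz
    obtain ⟨q, hq, rfl⟩ := hz
    exact FF_of_not θ (by rw [disc_act_mod x q (hL q hq)]; exact hx)

/-- a homomorphism that does not vanish -/
theorem exists_theta (hfg : N.FG) {v : ℂ} (hv : v ∈ N) (hv0 : v ≠ 0) :
    ∃ θ : N →+ ZMod 3, θ ≠ 0 := by
  have : AddGroup.FG N := (AddGroup.fg_iff_addSubgroup_fg N).2 hfg
  have : Module.Finite ℤ N := Module.Finite.iff_addGroup_fg.2 this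
  have : Module.Free ℤ N := Module.free_of_finite_type_torsion_free'
  have : Nontrivial N := ⟨⟨v, hv⟩, 0, fun h => hv0 (congrArg Subtype.val h)⟩
  let b := Module.Free.chooseBasis ℤ N
  obtain ⟨i⟩ : Nonempty (Module.Free.ChooseBasisIndex ℤ N) := inferInstance
  refine ⟨(Int.castAddHom (ZMod 3)).comp (b.coord i).toAddMonoidHom, fun h => ?_⟩
  have := congrArg (fun φ : N →+ ZMod 3 => φ (b i)) h
  simp at this

theorem sum_map_sub' (L : List Mat) (g h : Mat → ℂ) :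
    (L.map g).sum - (L.map h).sum = (L.map fun M => g M - h M).sum := by
  induction L with
  | nil => simp
  | cons M L ih => simp only [List.map_cons, List.sum_cons, ← ih]; ring

/-- Comparison of two cocycles of the modular group. -/
theorem coc_cmp {Ψ : Mat → Frm → ℂ} (θ : N →+ ZMod 3)
    (hmul : ∀ (M M' : Mat) (Q : Frm), M.det = 1 → M'.det = 1 →
      Ψ (M * M') Q = Ψ M Q + Ψ M' (act Q M))
    (hT : ∀ Q : Frm, Ψ mT Q = 0)
    (hmul' : ∀ (M M' : Mat) (Q : Frm), M.det = 1 → M'.det = 1 → disc Q % 3 = 2 →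
      psi (M * M') Q = psi M Q + psi M' (act Q M))
    (hT' : ∀ Q : Frm, psi mT Q = 0)
    (hS : ∀ Q : Frm, disc Q % 3 = 2 → ∃ h : Ψ mS Q ∈ N, θ ⟨Ψ mS Q, h⟩ = psi mS Q) :
    ∀ (M : Mat) (Q : Frm), M.det = 1 → disc Q % 3 = 2 →
      ∃ h : Ψ M Q ∈ N, θ ⟨Ψ M Q, h⟩ = psi M Q := by
  have hone : ∀ Q, Ψ 1 Q = 0 := fun Q => by
    have := hmul 1 1 Q Matrix.det_one Matrix.det_one
    rw [mul_one, act_one] at this
    simpa using this
  have hone' : ∀ Q, disc Q % 3 = 2 → psi 1 Q = 0 := fun Q hQ => by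
    have := hmul' 1 1 Q Matrix.det_one Matrix.det_one hQ
    rw [mul_one, act_one] at this
    simpa using this
  have key : ∀ g : SL(2, ℤ), ∀ Q : Frm, disc Q % 3 = 2 →
      ∃ h : Ψ (g : Mat) Q ∈ N, θ ⟨Ψ (g : Mat) Q, h⟩ = psi (g : Mat) Q := by
    intro g
    have hg : g ∈ Subgroup.closure {ModularGroup.S, ModularGroup.T} := by
      simp [SpecialLinearGroup.SL2Z_generators]
    induction hg using Subgroup.closure_induction with
    | mem x hx =>
      rcases hx with rfl | rfl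
      · intro Q hQ
        exact hS Q hQ
      · intro Q hQ
        have e : Ψ ((ModularGroup.T : SL(2, ℤ)) : Mat) Q = 0 := hT Q
        refine ⟨by rw [e]; exact N.zero_mem, ?_⟩
        have e' : (⟨Ψ ((ModularGroup.T : SL(2, ℤ)) : Mat) Q, by rw [e]; exact N.zero_mem⟩ : N) =
            0 := Subtype.ext e
        rw [e', map_zero]
        exact (hT' Q).symm
    | one =>
      intro Q hQ
      have e : Ψ ((1 : SL(2, ℤ)) : Mat) Q = 0 := by
        rw [Matrix.SpecialLinearGroup.coe_one]; exact hone Q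
      refine ⟨by rw [e]; exact N.zero_mem, ?_⟩
      have e' : (⟨Ψ ((1 : SL(2, ℤ)) : Mat) Q, by rw [e]; exact N.zero_mem⟩ : N) =
          0 := Subtype.ext e
      rw [e', map_zero, Matrix.SpecialLinearGroup.coe_one]
      exact (hone' Q hQ).symm
    | mul x y _ _ ihx ihy =>
      intro Q hQ
      obtain ⟨h1, e1⟩ := ihx Q hQ
      have hQ' : disc (act Q (x : Mat)) % 3 = 2 := by
        rw [disc_act_mod Q _ (Or.inl (by rw [x.det_coe]; rfl))]; exact hQ
      obtain ⟨h2, e2⟩ := ihy _ hQ'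
      have e : Ψ ((x * y : SL(2, ℤ)) : Mat) Q = Ψ (x : Mat) Q + Ψ (y : Mat) (act Q (x : Mat)) := by
        rw [Matrix.SpecialLinearGroup.coe_mul]
        exact hmul _ _ Q x.det_coe y.det_coe
      refine ⟨by rw [e]; exact N.add_mem h1 h2, ?_⟩
      have e' : (⟨Ψ ((x * y : SL(2, ℤ)) : Mat) Q, by rw [e]; exact N.add_mem h1 h2⟩ : N) =
          ⟨_, h1⟩ + ⟨_, h2⟩ := Subtype.ext e
      rw [e', map_add, e1, e2, Matrix.SpecialLinearGroup.coe_mul]
      exact (hmul' _ _ Q x.det_coe y.det_coe hQ).symm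
    | inv x _ ihx =>
      intro Q hQ
      have hdi : disc (act Q ((x⁻¹ : SL(2, ℤ)) : Mat)) % 3 = 2 := by
        rw [disc_act_mod Q _ (Or.inl (by rw [(x⁻¹).det_coe]; rfl))]; exact hQ
      obtain ⟨h1, e1⟩ := ihx _ hdi
      have hxx : ((x⁻¹ : SL(2, ℤ)) : Mat) * (x : Mat) = 1 := by
        rw [← Matrix.SpecialLinearGroup.coe_mul, inv_mul_cancel, Matrix.SpecialLinearGroup.coe_one]
      have e : Ψ ((x⁻¹ : SL(2, ℤ)) : Mat) Q = -Ψ (x : Mat) (act Q ((x⁻¹ : SL(2, ℤ)) : Mat)) := by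
        have := hmul ((x⁻¹ : SL(2, ℤ)) : Mat) (x : Mat) Q (x⁻¹).det_coe x.det_coe
        rw [hxx, hone] at this
        exact eq_neg_of_add_eq_zero_left this.symm
      have e3 : psi ((x⁻¹ : SL(2, ℤ)) : Mat) Q = -psi (x : Mat) (act Q ((x⁻¹ : SL(2, ℤ)) : Mat)) := by
        have := hmul' ((x⁻¹ : SL(2, ℤ)) : Mat) (x : Mat) Q (x⁻¹).det_coe x.det_coe hQ
        rw [hxx, hone' Q hQ] at this
        exact eq_neg_of_add_eq_zero_left this.symm
      refine ⟨by rw [e]; exact N.neg_mem h1, ?_⟩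
      have e' : (⟨Ψ ((x⁻¹ : SL(2, ℤ)) : Mat) Q, by rw [e]; exact N.neg_mem h1⟩ : N) =
          -⟨_, h1⟩ := Subtype.ext e
      rw [e', map_neg, e1, e3]
  intro M Q hM hQ
  exact key ⟨M, hM⟩ Q hQ

end RedAux

open RedAux in
/-- (Red) reduction modulo `3`. -/
theorem stRed (hKL : StKL) (hPsiC : StPsiC) (hHec : StHec) (hNZ : StNZ) (hFin : StFin)
    (hCocyc : StCocyc) : StRed := by
  intro k w f hk hw hf
  have hk1 : 1 ≤ k := by
    have := (stW12 w f hf).1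
    omega
  obtain ⟨pmul, pT, pneg, pSS, pS, pU, pmir, psc, -⟩ := hPsiC k w f hk1 hw
  obtain ⟨cmul, cT, cS, cneg, -⟩ := hCocyc
  obtain ⟨hfg, m, hm, hper⟩ := hFin k w f hk1 hw
  have hN : ∀ Q, disc Q % 3 = 2 → Psi k f mS Q ∈ NN k f :=
    fun Q hQ => AddSubgroup.subset_closure ⟨Q, hQ, rfl⟩
  have hgen : NN k f = AddSubgroup.closure (Psi k f mS '' {Q | disc Q % 3 = 2}) := rfl
  obtain ⟨Q₀, hQ₀, hQ₀'⟩ := hNZ k w f hw hf
  obtain ⟨θ₀, hθ₀⟩ := exists_theta hfg (hN _ hQ₀) hQ₀'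
  -- Hecke operators
  have hH2 : ∀ Q : Frm, coef f 2 * Psi k f mS Q = TL L2 (Psi k f mS) Q := fun Q => by
    obtain ⟨h1, h2, -, -⟩ := hHec k w f hk1 hw hf Q
    rw [pSS, mul_sub, h1, h2]
    simp only [TL, pSS]
    exact sum_map_sub' _ _ _
  have hH7 : ∀ Q : Frm, coef f 7 * Psi k f mS Q = TL L7 (Psi k f mS) Q := fun Q => by
    obtain ⟨-, -, h1, h2⟩ := hHec k w f hk1 hw hf Q
    rw [pSS, mul_sub, h1, h2]
    simp only [TL, pSS]
    exact sum_map_sub' _ _ _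
  have key : g0 ∈ GG (Psi k f mS) (NN k f) hN := by
    refine hKL m (GG (Psi k f mS) (NN k f) hN) ?_ ?_ ?_ ?_
    · rintro F ⟨θ, rfl⟩
      exact pf_FF hk hk1 hm pmir pS pU psc hper θ
    · rintro F ⟨θ, rfl⟩
      exact hecke_FF L2 (by
        intro M hM
        simp only [L2, List.mem_cons, List.not_mem_nil, or_false] at hM
        rcases hM with rfl | rfl | rfl | rfl <;> simp [Matrix.det_fin_two]) _ hH2 hgen θ
    · rintro F ⟨θ, rfl⟩
      exact hecke_FF L7 (by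
        intro M hM
        simp only [L7, List.mem_cons, List.not_mem_nil, or_false] at hM
        rcases hM with rfl | rfl | rfl | rfl | rfl | rfl | rfl | rfl | rfl | rfl | rfl | rfl |
          rfl | rfl | rfl | rfl | rfl | rfl | rfl | rfl | rfl <;> simp [Matrix.det_fin_two])
        _ hH7 hgen θ
    · intro hbot
      apply hθ₀
      have hz : FF (Psi k f mS) (NN k f) hN θ₀ = 0 := by
        have : FF (Psi k f mS) (NN k f) hN θ₀ ∈ GG (Psi k f mS) (NN k f) hN := ⟨θ₀, rfl⟩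
        rw [hbot] at this
        simpa using this
      ext ⟨v, hv⟩
      change θ₀ ⟨v, hv⟩ = 0
      induction hv using AddSubgroup.closure_induction with
      | mem v hv' =>
        obtain ⟨x, hx, rfl⟩ := hv'
        have := congrFun hz x
        rw [FF_of θ₀ hx] at this
        exact this
      | zero => exact map_zero θ₀
      | add u v hu hv iu iv =>
        have : (⟨u + v, (NN k f).add_mem hu hv⟩ : NN k f) = ⟨u, hu⟩ + ⟨v, hv⟩ := rfl
        rw [this, map_add, iu, iv, add_zero]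
      | neg u hu iu =>
        have : (⟨-u, (NN k f).neg_mem hu⟩ : NN k f) = -⟨u, hu⟩ := rfl
        rw [this, map_neg, iu, neg_zero]
  obtain ⟨θ, hθ⟩ := key
  refine ⟨NN k f, θ, coc_cmp θ pmul pT cmul cT fun Q hQ => ⟨hN Q hQ, ?_⟩⟩
  rw [cS Q hQ, hθ, FF_of θ hQ]

end

end LO

end Pool.Agent.Lib.MP_7c5fb9_nt
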