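import Pool.Agent.Lib.MP_7c5fb9_nt.LO.StAlg

set_option autoImplicit false

/-!
# Squares of the field of `p`-adic numbers, `p` odd
-/

namespace Pool.Agent.Lib.MP_7c5fb9_nt

namespace LO

namespace SqOddAux

variable {p : ℕ} [Fact p.Prime]

/-- Elements close to one are squares. -/
theorem sq_close (hp : p ≠ 2) (x : ℚ_[p]) (hx : ‖x - 1‖ < 1) : IsSquare x := by
  have hx1 : ‖x‖ ≤ 1 := by
    have h := Padic.nonarchimedean (x - 1) 1
    rw [sub_add_cancel] at h
    refine h.trans (max_le hx.le ?_)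
    simp
  set u : ℤ_[p] := ⟨x, hx1⟩ with hu
  have h2 : ‖((2 : ℤ) : ℤ_[p])‖ = 1 := by
    rw [PadicInt.norm_intCast_eq_one_iff]
    have hpp : p.Prime := Fact.out
    rw [Int.isCoprime_iff_gcd_eq_one]
    have : Nat.Coprime 2 p := (Nat.coprime_primes Nat.prime_two hpp).2 (Ne.symm hp)
    simpa [Int.gcd] using this
  have hF : ‖(Polynomial.aeval (1 : ℤ_[p])) (Polynomial.X ^ 2 - Polynomial.C u)‖ <
      ‖(Polynomial.aeval (1 : ℤ_[p]))
        (Polynomial.derivative (Polynomial.X ^ 2 - Polynomial.C u))‖ ^ 2 := by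
    have e1 : (Polynomial.aeval (1 : ℤ_[p])) (Polynomial.X ^ 2 - Polynomial.C u) = 1 - u := by
      simp
    have e2 : (Polynomial.aeval (1 : ℤ_[p]))
        (Polynomial.derivative (Polynomial.X ^ 2 - Polynomial.C u)) = ((2 : ℤ) : ℤ_[p]) := by
      simp; norm_num
    rw [e1, e2, h2, one_pow, ← norm_neg, neg_sub]
    have e3 : ‖u - 1‖ = ‖x - 1‖ := by
      rw [PadicInt.norm_def]
      simp [hu]
    rw [e3]; exact hx
  obtain ⟨z, hz, -⟩ := hensels_lemma hF
  have hz2 : z ^ 2 = u := by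
    have : z ^ 2 - u = 0 := by simpa using hz
    exact sub_eq_zero.1 this
  refine ⟨(z : ℚ_[p]), ?_⟩
  have := congrArg (fun t : ℤ_[p] => (t : ℚ_[p])) hz2
  simp only [PadicInt.coe_pow] at this
  rw [← sq, this]

theorem sq_mul (hp : p ≠ 2) (a b : ℤ) (ha : ¬ (p : ℤ) ∣ a) (hab : (p : ℤ) ∣ b - a) :
    IsSquare ((a : ℚ_[p]) * (b : ℚ_[p])) := by
  have ha1 : ‖(a : ℚ_[p])‖ = 1 := by
    have := (Padic.norm_int_le_one (p := p) a)
    have h2 : ¬ ‖(a : ℚ_[p])‖ < 1 := by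
      rw [Padic.norm_intCast_lt_one_iff]; exact ha
    exact le_antisymm this (not_lt.1 h2)
  have ha0 : (a : ℚ_[p]) ≠ 0 := by
    intro h; rw [h, norm_zero] at ha1; exact zero_ne_one ha1
  have hb : ‖(b : ℚ_[p]) / a - 1‖ < 1 := by
    rw [div_sub_one ha0, norm_div, ha1, div_one, ← Int.cast_sub,
      Padic.norm_intCast_lt_one_iff]
    exact hab
  obtain ⟨z, hz⟩ := sq_close hp _ hb
  refine ⟨a * z, ?_⟩
  have : (b : ℚ_[p]) = a * (z * z) := by rw [← hz]; field_simp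
  rw [this]; ring

end SqOddAux

open SqOddAux in
theorem stSqOdd : StSqOdd := by
  intro p _ hp d hd
  have hpp : p.Prime := Fact.out
  constructor
  · intro D D' hD hDD hsq
    have hD0 : D ≠ 0 := by rintro rfl; exact hD (dvd_zero _)
    have hDp : (D : ℚ_[p]) ≠ 0 := by exact_mod_cast hD0
    have hclose : ‖(D' : ℚ_[p]) / D - 1‖ < 1 := by
      rw [div_sub_one hDp, norm_div, div_lt_one (norm_pos_iff.2 hDp)]
      have h1 : ‖(D' : ℚ_[p]) - D‖ ≤ (p : ℝ) ^ (-(2 : ℕ) : ℤ) := by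
        have hdv : ((p : ℤ) ^ 2) ∣ (D' : ℤ) - D := by
          have := (Nat.modEq_iff_dvd (n := p ^ 2) (a := D) (b := D')).1 hDD
          exact_mod_cast this
        have := (Padic.norm_int_le_pow_iff_dvd (p := p) ((D' : ℤ) - D) 2).2
          (by exact_mod_cast hdv)
        simpa using this
      have h2 : ¬ ‖(D : ℚ_[p])‖ ≤ (p : ℝ) ^ (-(2 : ℕ) : ℤ) := by
        intro h
        have := (Padic.norm_int_le_pow_iff_dvd (p := p) (D : ℤ) 2).1 (by simpa using h)
        exact hD (by exact_mod_cast this)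
      exact lt_of_le_of_lt h1 (not_le.1 h2)
    obtain ⟨z, hz⟩ := sq_close hp _ hclose
    obtain ⟨y, hy⟩ := hsq
    refine ⟨z * y, ?_⟩
    have e1 : (D' : ℚ_[p]) = z * z * D := by rw [← hz]; field_simp
    push_cast at hy ⊢
    calc (D' : ℚ_[p]) * d = z * z * (D * d) := by rw [e1]; ring
      _ = z * y * (z * y) := by rw [hy]; ring
  · obtain ⟨e, u, hu, hde⟩ : ∃ (e : ℕ) (u : ℤ), ¬ (p : ℤ) ∣ u ∧ d = (p : ℤ) ^ e * u := by
      have hf : FiniteMultiplicity (p : ℤ) d := by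
        rw [Int.finiteMultiplicity_iff]
        exact ⟨by simpa using hpp.ne_one, hd⟩
      obtain ⟨c, hc, hc2⟩ := hf.exists_eq_pow_mul_and_not_dvd
      exact ⟨_, c, hc2, hc⟩
    set s : ℕ := (u % (p : ℤ)).toNat with hs
    have hp0 : (0 : ℤ) < p := by exact_mod_cast hpp.pos
    have hsu : (s : ℤ) = u % (p : ℤ) := by
      rw [hs, Int.toNat_of_nonneg (Int.emod_nonneg _ hp0.ne')]
    have hsd : ¬ (p : ℤ) ∣ (s : ℤ) := by
      rw [hsu]
      intro h
      exact hu ((Int.dvd_iff_emod_eq_zero).2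
        (by
          have := Int.emod_eq_zero_of_dvd h
          rwa [Int.emod_emod_of_dvd _ (dvd_refl _)] at this))
    have hsn : ¬ p ∣ s := fun h => hsd (by exact_mod_cast h)
    refine ⟨p ^ (e % 2) * s, ?_, ?_⟩
    · intro h
      rcases Nat.mod_two_eq_zero_or_one e with h0 | h1
      · rw [h0, pow_zero, one_mul] at h
        exact hsn ((dvd_pow_self p two_ne_zero).trans h)
      · rw [h1, pow_one, sq] at h
        exact hsn (Nat.dvd_of_mul_dvd_mul_left hpp.pos h)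
    · obtain ⟨z, hz⟩ := sq_mul (p := p) hp (s : ℤ) u hsd
        ⟨u / (p : ℤ), by rw [hsu]; have := Int.emod_add_mul_ediv u (p : ℤ); linarith⟩
      refine ⟨(p : ℚ_[p]) ^ ((e % 2 + e) / 2) * z, ?_⟩
      have he : (e % 2 + e) / 2 * 2 = e % 2 + e := by omega
      rw [hde]
      push_cast
      push_cast at hz
      calc (p : ℚ_[p]) ^ (e % 2) * s * (p ^ e * u) = p ^ (e % 2 + e) * (s * u) := by
            rw [pow_add]; ring
        _ = (p ^ ((e % 2 + e) / 2)) ^ 2 * (z * z) := by rw [← pow_mul, he, hz]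
        _ = _ := by ring

end LO

end Pool.Agent.Lib.MP_7c5fb9_nt
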