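import Pool.Agent.Lib.MP_7c5fb9_nt.LO.StAlg

set_option autoImplicit false

/-!
# (SqTwo) squares of the field of `2`-adic numbers
-/

namespace Pool.Agent.Lib.MP_7c5fb9_nt

namespace LO

namespace SqTwoAux

variable [Fact (Nat.Prime 2)]

/-- an integer congruent to `1` modulo `8` is a square in `ℚ₂` -/
theorem sq_one (z : ℤ) (h : z % 8 = 1) : IsSquare ((z : ℤ) : ℚ_[2]) := by
  let F : Polynomial ℤ_[2] := Polynomial.X ^ 2 - Polynomial.C (z : ℤ_[2])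
  have hF : F.aeval (1 : ℤ_[2]) = ((1 - z : ℤ) : ℤ_[2]) := by
    simp [F]
  have hF' : F.derivative.aeval (1 : ℤ_[2]) = ((2 : ℕ) : ℤ_[2]) := by
    simp [F]
    norm_num
  have h8 : (8 : ℤ) ∣ 1 - z := by omega
  have hn : ‖F.aeval (1 : ℤ_[2])‖ ≤ (2 : ℝ) ^ (-3 : ℤ) := by
    rw [hF]
    have h1 : ((2 : ℕ) ^ 3 : ℤ) ∣ 1 - z := by
      norm_num
      exact h8
    have h2 := (PadicInt.norm_int_le_pow_iff_dvd (p := 2) (k := 1 - z) (n := 3)).2
      (by exact_mod_cast h1)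
    simpa using h2
  have hd : ‖F.derivative.aeval (1 : ℤ_[2])‖ = (2 : ℝ)⁻¹ := by
    rw [hF']
    have := PadicInt.norm_p (p := 2)
    simpa using this
  have hlt : ‖F.aeval (1 : ℤ_[2])‖ < ‖F.derivative.aeval (1 : ℤ_[2])‖ ^ 2 := by
    rw [hd]
    refine hn.trans_lt ?_
    norm_num
  obtain ⟨x, hx, -⟩ := hensels_lemma hlt
  have hx' : x ^ 2 = (z : ℤ_[2]) := by
    have : x ^ 2 - (z : ℤ_[2]) = 0 := by simpa [F] using hx
    exact sub_eq_zero.1 this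
  refine ⟨(x : ℚ_[2]), ?_⟩
  have h3 := congrArg (fun t : ℤ_[2] => (t : ℚ_[2])) hx'
  simp only [PadicInt.coe_pow, PadicInt.coe_intCast] at h3
  rw [← h3, sq]

theorem key (a e : ℕ) (m u : ℤ) (hae : Even (a + e)) (h : (m * u) % 8 = 1) (x : ℤ)
    (hx : x = (2 ^ a * m) * (2 ^ e * u)) : IsSquare ((x : ℤ) : ℚ_[2]) := by
  obtain ⟨r, hr⟩ := hae
  have h1 := sq_one (m * u) h
  have h2 : x = 2 ^ r * 2 ^ r * (m * u) := by
    rw [hx]
    have h3 : (2 : ℤ) ^ a * 2 ^ e = 2 ^ r * 2 ^ r := by rw [← pow_add, ← pow_add, hr]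
    calc _ = (2 : ℤ) ^ a * 2 ^ e * (m * u) := by ring
      _ = _ := by rw [h3]
  rw [h2]
  have h4 : (((2 ^ r * 2 ^ r * (m * u) : ℤ)) : ℚ_[2]) =
      ((2 : ℚ_[2]) ^ r * (2 : ℚ_[2]) ^ r) * ((m * u : ℤ) : ℚ_[2]) := by push_cast; ring
  rw [h4]
  exact IsSquare.mul ⟨_, rfl⟩ h1

theorem trans {D D' : ℕ} (d : ℤ) (hD : D ≠ 0) (h : IsSquare (((D : ℤ) * D' : ℤ) : ℚ_[2]))
    (h' : IsSquare (((D : ℤ) * d : ℤ) : ℚ_[2])) : IsSquare (((D' : ℤ) * d : ℤ) : ℚ_[2]) := by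
  obtain ⟨x, hx⟩ := h
  obtain ⟨y, hy⟩ := h'
  have hD' : (D : ℚ_[2]) ≠ 0 := by exact_mod_cast hD
  refine ⟨x * y / D, ?_⟩
  push_cast at hx hy ⊢
  have h1 : x * y / D * (x * y / D) = (x * x) * (y * y) / (D * D) := by
    field_simp
  rw [h1, ← hx, ← hy]
  field_simp

omit [Fact (Nat.Prime 2)] in
theorem mul_mod {m u : ℤ} (h1 : m % 8 = u % 8) (h2 : u % 2 = 1) : (m * u) % 8 = 1 := by
  rw [Int.mul_emod, h1]
  have h3 : u % 8 = 1 ∨ u % 8 = 3 ∨ u % 8 = 5 ∨ u % 8 = 7 := by omega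
  rcases h3 with h | h | h | h <;> rw [h] <;> norm_num

/-- numbers in the same class -/
theorem same {M ρ D D' : ℕ} (h : RealTwo M ρ) (hD : D % M = ρ) (hD' : D' % M = ρ) :
    D ≠ 0 ∧ IsSquare (((D : ℤ) * D' : ℤ) : ℚ_[2]) := by
  unfold RealTwo at h
  have key2 : ∀ (a : ℕ) (m m' : ℤ), m % 8 = m' % 8 → m' % 2 = 1 → (D : ℤ) = 2 ^ a * m →
      (D' : ℤ) = 2 ^ a * m' → IsSquare (((D : ℤ) * D' : ℤ) : ℚ_[2]) := by
    intro a m m' h1 h2 h3 h4
    exact key a a m m' ⟨a, rfl⟩ (mul_mod h1 h2) _ (by rw [h3, h4])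
  rcases h with ⟨rfl, h⟩ | ⟨rfl, h⟩ | ⟨rfl, h⟩
  · refine ⟨by omega, key2 0 D D' (by omega) (by omega) (by simp) (by simp)⟩
  · refine ⟨by omega, key2 2 (D / 4) (D' / 4) (by omega) (by omega) (by omega) (by omega)⟩
  · refine ⟨by omega, key2 3 (D / 8) (D' / 8) (by omega) (by omega) (by omega) (by omega)⟩

omit [Fact (Nat.Prime 2)] in
theorem exists_odd (d : ℤ) (hd : d ≠ 0) : ∃ (e : ℕ) (u : ℤ), u % 2 = 1 ∧ d = 2 ^ e * u := by
  obtain ⟨e, m, hm, h⟩ := Nat.exists_eq_pow_mul_and_not_dvd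
    (n := d.natAbs) (by omega) 2 (by decide)
  rcases Int.natAbs_eq d with h' | h'
  · refine ⟨e, m, by omega, ?_⟩
    rw [h', h]
    push_cast
    ring
  · refine ⟨e, -m, by omega, ?_⟩
    rw [h', h]
    push_cast
    ring

end SqTwoAux

open SqTwoAux in
theorem stSqTwo : StSqTwo := by
  intro _ d hd
  refine ⟨?_, ?_, ?_⟩
  · intro M ρ D D' h hD hD' hsq
    obtain ⟨h0, h1⟩ := same h hD hD'
    exact trans d h0 h1 hsq
  · intro D hD
    unfold FD at hD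
    unfold RealTwo
    have hD2 : D % 4 = 1 ∨ D % 16 = 12 ∨ D % 16 = 8 := by
      rcases hD with ⟨h, -, -⟩ | ⟨h, h' | h', -⟩
      · omega
      · omega
      · omega
    rcases hD2 with h | h | h
    · refine ⟨(8, D % 8), ⟨Or.inl ⟨rfl, by simp only; omega⟩, rfl⟩, ?_⟩
      rintro ⟨M, ρ⟩ ⟨h1, h2⟩
      simp only at h1 h2
      rcases h1 with ⟨rfl, h1⟩ | ⟨rfl, h1⟩ | ⟨rfl, h1⟩
      · rw [h2]
      · omega
      · omega
    · refine ⟨(32, D % 32), ⟨Or.inr (Or.inl ⟨rfl, by simp only; omega⟩), rfl⟩, ?_⟩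
      rintro ⟨M, ρ⟩ ⟨h1, h2⟩
      simp only at h1 h2
      rcases h1 with ⟨rfl, h1⟩ | ⟨rfl, h1⟩ | ⟨rfl, h1⟩
      · omega
      · rw [h2]
      · omega
    · refine ⟨(64, D % 64), ⟨Or.inr (Or.inr ⟨rfl, by simp only; omega⟩), rfl⟩, ?_⟩
      rintro ⟨M, ρ⟩ ⟨h1, h2⟩
      simp only at h1 h2
      rcases h1 with ⟨rfl, h1⟩ | ⟨rfl, h1⟩ | ⟨rfl, h1⟩
      · omega
      · omega
      · rw [h2]
  · obtain ⟨e, u, hu, rfl⟩ := exists_odd d hd
    have hu8 : u % 8 = 1 ∨ u % 8 = 3 ∨ u % 8 = 5 ∨ u % 8 = 7 := by omega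
    have fin : ∀ (a : ℕ) (M ρ : ℕ), Even (a + e) → RealTwo M ρ →
        (∀ D : ℕ, D % M = ρ → ∃ m : ℤ, (D : ℤ) = 2 ^ a * m ∧ m % 8 = u % 8) →
        ∃ M ρ : ℕ, RealTwo M ρ ∧
          ∀ D : ℕ, D % M = ρ → IsSquare (((D : ℤ) * (2 ^ e * u) : ℤ) : ℚ_[2]) := by
      intro a M ρ hae hM h
      refine ⟨M, ρ, hM, fun D hD => ?_⟩
      obtain ⟨m, h1, h2⟩ := h D hD
      exact key a e m u hae (mul_mod h2 hu) _ (by rw [h1])
    rcases Nat.even_or_odd e with he | he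
    · rcases hu8 with h | h | h | h
      · exact fin 0 8 1 (by simpa using he) (by unfold RealTwo; omega)
          fun D hD => ⟨D, by simp, by omega⟩
      · exact fin 2 32 12 (by rw [add_comm]; exact he.add (by decide)) (by unfold RealTwo; omega)
          fun D hD => ⟨D / 4, by omega, by omega⟩
      · exact fin 0 8 5 (by simpa using he) (by unfold RealTwo; omega)
          fun D hD => ⟨D, by simp, by omega⟩
      · exact fin 2 32 28 (by rw [add_comm]; exact he.add (by decide)) (by unfold RealTwo; omega)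
          fun D hD => ⟨D / 4, by omega, by omega⟩
    · have h3 : Even (3 + e) := by
        rw [add_comm]
        exact he.add_odd (by decide)
      rcases hu8 with h | h | h | h
      · exact fin 3 64 8 h3 (by unfold RealTwo; omega) fun D hD => ⟨D / 8, by omega, by omega⟩
      · exact fin 3 64 24 h3 (by unfold RealTwo; omega) fun D hD => ⟨D / 8, by omega, by omega⟩
      · exact fin 3 64 40 h3 (by unfold RealTwo; omega) fun D hD => ⟨D / 8, by omega, by omega⟩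
      · exact fin 3 64 56 h3 (by unfold RealTwo; omega) fun D hD => ⟨D / 8, by omega, by omega⟩

end LO

end Pool.Agent.Lib.MP_7c5fb9_nt
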