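import Pool.Agent.Lib.MP_7c5fb9_nt.LO.Stmts2

set_option autoImplicit false

/-!
# Level one (MP_7c5fb9_nt, project LO2): prescribed quadratic algebras over the fields of `p`-adic
numbers. Statements. Never change this file.
-/

namespace Pool.Agent.Lib.MP_7c5fb9_nt

namespace LO

/-- The quadratic field of discriminant `D` has the completions `ℚ_p (√(d p))`, `p ∈ P`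
(`ℚ_p × ℚ_p` if `d p` is a square). -/
def LocAt (P : Finset ℕ) (d : ℕ → ℤ) (D : ℕ) : Prop :=
  ∀ p ∈ P, ∀ [Fact p.Prime], IsSquare (((D : ℤ) * d p : ℤ) : ℚ_[p])

/-- (SqOdd) squares of `ℚ_p`, `p` odd. -/
def StSqOdd : Prop :=
  ∀ (p : ℕ) [Fact p.Prime], p ≠ 2 → ∀ d : ℤ, d ≠ 0 →
    (∀ D D' : ℕ, ¬ p ^ 2 ∣ D → D % p ^ 2 = D' % p ^ 2 →
      IsSquare (((D : ℤ) * d : ℤ) : ℚ_[p]) → IsSquare (((D' : ℤ) * d : ℤ) : ℚ_[p])) ∧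
    ∃ r : ℕ, ¬ p ^ 2 ∣ r ∧ IsSquare (((r : ℤ) * d : ℤ) : ℚ_[p])

/-- (SqTwo) squares of `ℚ_2`. -/
def StSqTwo : Prop :=
  ∀ [Fact (Nat.Prime 2)] (d : ℤ), d ≠ 0 →
    (∀ (M ρ D D' : ℕ), RealTwo M ρ → D % M = ρ → D' % M = ρ →
      IsSquare (((D : ℤ) * d : ℤ) : ℚ_[2]) → IsSquare (((D' : ℤ) * d : ℤ) : ℚ_[2])) ∧
    (∀ D : ℕ, FD D → ∃! x : ℕ × ℕ, RealTwo x.1 x.2 ∧ D % x.1 = x.2) ∧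
    ∃ M ρ : ℕ, RealTwo M ρ ∧ ∀ D : ℕ, D % M = ρ → IsSquare (((D : ℤ) * d : ℤ) : ℚ_[2])

/-- (Alg) from residue classes to local algebras. -/
def StAlg : Prop :=
  ∀ B : ℕ → Prop,
    (∀ (M ρ : ℕ), RealTwo M ρ → ∀ P : Finset ℕ, (∀ p ∈ P, p.Prime ∧ 5 ≤ p) →
      ∀ r : ℕ, (∀ p ∈ P, ¬ p ^ 2 ∣ r) →
        (∃ c : ℝ, 0 < c ∧ ∃ X₀ : ℕ, ∀ X : ℕ, X₀ ≤ X →
          c * X ≤ ({D : ℕ | D ≤ X ∧ FD D ∧ D % 3 = 2 ∧ D % M = ρ ∧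
            D % (∏ p ∈ P, p ^ 2) = r % (∏ p ∈ P, p ^ 2) ∧ B D}.ncard : ℝ)) ∧
        ∀ ε : ℝ, 0 < ε → ∃ X₀ : ℕ, ∀ X : ℕ, X₀ ≤ X →
          (1 / 2 - ε) * ({D : ℕ | D ≤ X ∧ FD D ∧ D % 3 = 2 ∧ D % M = ρ ∧
            D % (∏ p ∈ P, p ^ 2) = r % (∏ p ∈ P, p ^ 2)}.ncard : ℝ) ≤
          ({D : ℕ | D ≤ X ∧ FD D ∧ D % 3 = 2 ∧ D % M = ρ ∧
            D % (∏ p ∈ P, p ^ 2) = r % (∏ p ∈ P, p ^ 2) ∧ B D}.ncard : ℝ)) →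
    ∀ (P : Finset ℕ) (d : ℕ → ℤ), (∀ p ∈ P, p.Prime ∧ p ≠ 3 ∧ d p ≠ 0) →
      (∃ c : ℝ, 0 < c ∧ ∃ X₀ : ℕ, ∀ X : ℕ, X₀ ≤ X →
        c * X ≤ ({D : ℕ | D ≤ X ∧ FD D ∧ D % 3 = 2 ∧ LocAt P d D ∧ B D}.ncard : ℝ)) ∧
      ∀ ε : ℝ, 0 < ε → ∃ X₀ : ℕ, ∀ X : ℕ, X₀ ≤ X →
        (1 / 2 - ε) * ({D : ℕ | D ≤ X ∧ FD D ∧ D % 3 = 2 ∧ LocAt P d D}.ncard : ℝ) ≤
          ({D : ℕ | D ≤ X ∧ FD D ∧ D % 3 = 2 ∧ LocAt P d D ∧ B D}.ncard : ℝ)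

end LO

end Pool.Agent.Lib.MP_7c5fb9_nt
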